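/-
Shared definitions for MP_f39e07_an (frozen S06693).  Owner: helper45.
Do not change statements here without asking helper45.
-/
import Mathlib

set_option autoImplicit false

namespace Pool.Agent.H45.Ent

/-! ### Marked groups and windows -/

/-- `a_j = t^j a t^{-j}` -/
def aj {G : Type*} [Group G] (a t : G) (j : ℕ) : G := t ^ j * a * (t ^ j)⁻¹

/-- the window group `A(n)` generated by `a_0, …, a_{n-1}` (so `A(0) = 1`) -/
def win {G : Type*} [Group G] (a t : G) (n : ℕ) : Subgroup G :=
  Subgroup.closure {x | ∃ j < n, x = aj a t j}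

/-- the free group on the two letters `fa`, `ft` -/
abbrev F2 : Type := FreeGroup (Fin 2)
def fa : F2 := FreeGroup.of 0
def ft : F2 := FreeGroup.of 1

/-- the homomorphism from the free group with `fa ↦ a`, `ft ↦ t` -/
def homOf {G : Type*} [Group G] (a t : G) : F2 →* G := FreeGroup.lift ![a, t]

@[simp] theorem homOf_fa {G : Type*} [Group G] (a t : G) : homOf a t fa = a := by
  simp [homOf, fa]
@[simp] theorem homOf_ft {G : Type*} [Group G] (a t : G) : homOf a t ft = t := by
  simp [homOf, ft]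

/-! ### Configurations, pattern counts and entropy -/

/-- number of patterns on the set `S` of the set `X` of configurations -/
noncomputable def cnt {I A : Type*} (X : Set (I → A)) (S : Set I) : ℕ :=
  ((fun (x : I → A) (i : S) => x i) '' X).ncard

/-- the entropy exactly as in the frozen statement -/
noncomputable def entX {G : Type*} {k : ℕ} (X : Set (G → Fin k)) : ℝ :=
  ⨅ F : {F : Finset G // F.Nonempty}, Real.log (cnt X (F.1 : Set G) : ℝ) / (F.1.card : ℝ)

/-- a nearest neighbour system: alphabet `Fin k`, relations for the `a`-edges and the `t`-edges -/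
structure Sys where
  k : ℕ
  Ra : Fin k → Fin k → Prop
  Rt : Fin k → Fin k → Prop

/-- the nearest neighbour subshift of `F` on the marked group `(G; a, t)` -/
def Sys.shift (F : Sys) {G : Type*} [Group G] (a t : G) : Set (G → Fin F.k) :=
  {x | ∀ g : G, F.Ra (x g) (x (a * g)) ∧ F.Rt (x g) (x (t * g))}

/-- the configurations which are locally admissible on the set `S` -/
def Sys.loc (F : Sys) {G : Type*} [Group G] (a t : G) (S : Set G) : Set (G → Fin F.k) :=
  {x | ∀ g ∈ S, (a * g ∈ S → F.Ra (x g) (x (a * g))) ∧ (t * g ∈ S → F.Rt (x g) (x (t * g)))}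

/-- number of locally admissible patterns on `S` -/
noncomputable def Sys.locCnt (F : Sys) {G : Type*} [Group G] (a t : G) (S : Set G) : ℕ :=
  cnt (F.loc a t S) S

/-- left Følner property as in the frozen statement -/
def IsFoelner (G : Type*) [Group G] : Prop :=
  ∀ K : Finset G, ∀ ε : ℝ, 0 < ε → ∃ F : Finset G, F.Nonempty ∧
      ∀ k ∈ K, ((((fun f => k * f) '' (F : Set G)) \ (F : Set G)).ncard : ℝ) < ε * (F.card : ℝ)

/-! ### Towers -/

/-- A tower: a group generated by `a, t` with a homomorphism `lev` to `ℤ`, `a ↦ 0`, `t ↦ 1`,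
all of whose windows are finite. -/
structure Tower where
  G : Type
  [grp : Group G]
  a : G
  t : G
  lev : G →* Multiplicative ℤ
  lev_a : lev a = 1
  lev_t : lev t = Multiplicative.ofAdd 1
  gen : Subgroup.closure {a, t} = (⊤ : Subgroup G)
  fin : ∀ n, Finite (win a t n)

attribute [instance] Tower.grp Tower.fin

namespace Tower

variable (T : Tower)

/-- the level as an integer -/
def lv (g : T.G) : ℤ := Multiplicative.toAdd (T.lev g)

/-- the window group `A(n)` -/
abbrev A (n : ℕ) : Subgroup T.G := win T.a T.t n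

/-- the homomorphism from the free group -/
def φ : F2 →* T.G := homOf T.a T.t

/-- `Π_{J,M} = ⋃_{j<J} t^{-j} A(M)` -/
def Pi (J M : ℕ) : Set T.G := {g | ∃ j < J, T.t ^ j * g ∈ T.A M}

/-- the block `W_n = Π_{n,n}` -/
def W (n : ℕ) : Set T.G := T.Pi n n

/-- nonstable: `a_n ∉ A(n)` for all `n` -/
def Nonstable : Prop := ∀ n, aj T.a T.t n ∉ T.A n

/-- entropy of a nearest neighbour system on `T` -/
noncomputable def ent (F : Sys) : ℝ := entX (F.shift T.a T.t)

/-- number of locally admissible patterns on `W_n` -/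
noncomputable def M (F : Sys) (n : ℕ) : ℕ := F.locCnt T.a T.t (T.W n)

/-- `u_n = log M_n / |W_n|` -/
noncomputable def u (F : Sys) (n : ℕ) : ℝ := Real.log (T.M F n) / ((T.W n).ncard : ℝ)

end Tower

/-! ### Stages -/

/-- A stage: a finite set with two permutations, and an invariant part `Z` with a phase map to
`ZMod n`, such that a word of the window `n` fixing a point of `Z` is trivial everywhere. -/
structure Stage where
  Ω : Type
  [fin : Finite Ω]
  al : Equiv.Perm Ω
  ta : Equiv.Perm Ω
  n : ℕ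
  npos : 0 < n
  Z : Set Ω
  Zne : Z.Nonempty
  ph : Ω → ZMod n
  al_mem : ∀ z, al z ∈ Z ↔ z ∈ Z
  ta_mem : ∀ z, ta z ∈ Z ↔ z ∈ Z
  ph_al : ∀ z ∈ Z, ph (al z) = ph z
  ph_ta : ∀ z ∈ Z, ph (ta z) = ph z + 1
  free : ∀ w ∈ win fa ft n, ∀ z ∈ Z, homOf al ta w z = z → homOf al ta w = 1

attribute [instance] Stage.fin

namespace Stage

variable (s : Stage)

/-- action of words -/
def act : F2 →* Equiv.Perm s.Ω := homOf s.al s.ta

/-- a stage is good if `a_{n-1} ∉ A(n-1)` -/
def Good : Prop := ∀ w ∈ win fa ft (s.n - 1), s.act w ≠ s.act (aj fa ft (s.n - 1))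

/-- the order on stages -/
structure Le (s s' : Stage) : Prop where
  n_le : s.n ≤ s'.n
  emb : ∃ ι : s.Ω ↪ s'.Ω, (∀ x, ι (s.al x) = s'.al (ι x)) ∧ (∀ x, ι (s.ta x) = s'.ta (ι x))
  ker : ∀ w ∈ win fa ft s.n, s.act w = 1 → s'.act w = 1

/-- labelings of `Z` which are admissible except across the wrap `phase -1 → phase 0` -/
def cutSet (F : Sys) : Set (s.Ω → Fin F.k) :=
  {x | ∀ z ∈ s.Z, F.Ra (x z) (x (s.al z)) ∧ (s.ph z ≠ -1 → F.Rt (x z) (x (s.ta z)))}

/-- number of cut labelings of `Z` -/
noncomputable def cut (F : Sys) : ℕ := cnt (s.cutSet F) s.Z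

/-- admissible labelings of `Z` -/
def adm (F : Sys) : Set (s.Ω → Fin F.k) :=
  {x | ∀ z ∈ s.Z, F.Ra (x z) (x (s.al z)) ∧ F.Rt (x z) (x (s.ta z))}

/-- admissible labelings of `Z` which agree with `c` on the phases `0` and `-1` -/
def pinSet (F : Sys) (c : s.Ω → Fin F.k) : Set (s.Ω → Fin F.k) :=
  {x | x ∈ s.adm F ∧ ∀ z ∈ s.Z, (s.ph z = 0 ∨ s.ph z = -1) → x z = c z}

/-- number of pinned labelings -/
noncomputable def pin (F : Sys) (c : s.Ω → Fin F.k) : ℕ := cnt (s.pinSet F c) s.Z

end Stage

/-- the tower `T` fits the stage `s` -/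
structure Fits (T : Tower) (s : Stage) : Prop where
  triv : ∀ w : F2, T.φ w = 1 → s.act w = 1
  inj : ∀ w ∈ win fa ft s.n, s.act w = 1 → T.φ w = 1

/-- the hard core system on `⟨a⟩\G` -/
def hc : Sys where
  k := 2
  Ra := fun x y => x = y
  Rt := fun x y => ¬ (x = 1 ∧ y = 1)

end Pool.Agent.H45.Ent
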