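/- Basic facts on pattern counts.  MP_f39e07_an, owner helper45. -/
import Pool.Agent.H45.Ent.Defs

set_option autoImplicit false

namespace Pool.Agent.H45.Ent

variable {I J A B : Type*}

theorem patt_finite [Finite A] (X : Set (I → A)) {S : Set I} (hS : S.Finite) :
    ((fun (x : I → A) (i : S) => x i) '' X).Finite := by
  haveI := hS.to_subtype
  exact Set.toFinite _

/-- The main tool to compare pattern counts. -/
theorem cnt_le_of_inj [Finite B] {X : Set (I → A)} {S : Set I} {Y : Set (J → B)} {S' : Set J}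
    (hS' : S'.Finite) (f : (I → A) → (J → B)) (hf : ∀ x ∈ X, f x ∈ Y)
    (hinj : ∀ x ∈ X, ∀ y ∈ X, (∀ j ∈ S', f x j = f y j) → ∀ i ∈ S, x i = y i) :
    cnt X S ≤ cnt Y S' := by
  classical
  unfold cnt
  rcases X.eq_empty_or_nonempty with rfl | ⟨x0, hx0⟩
  · simp
  haveI : Nonempty (I → A) := ⟨x0⟩
  choose! c hcX hcp using (fun (p : S → A) (hp : p ∈ (fun (x : I → A) (i : S) => x i) '' X) => hp)
  refine Set.ncard_le_ncard_of_injOn (fun p => fun j : S' => f (c p) j) ?_ ?_ (patt_finite Y hS')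
  · intro p hp
    exact ⟨f (c p), hf _ (hcX p hp), rfl⟩
  · intro p hp q hq h
    have h1 : ∀ j ∈ S', f (c p) j = f (c q) j := fun j hj => congrFun h ⟨j, hj⟩
    have h2 := hinj _ (hcX p hp) _ (hcX q hq) h1
    rw [← hcp p hp, ← hcp q hq]
    funext i
    exact h2 i i.2

theorem cnt_mono [Finite A] {X Y : Set (I → A)} {S : Set I} (hS : S.Finite) (h : X ⊆ Y) :
    cnt X S ≤ cnt Y S :=
  cnt_le_of_inj hS id h (fun _ _ _ _ h => h)

theorem cnt_mono_set [Finite A] {X : Set (I → A)} {S S' : Set I} (hS : S'.Finite) (h : S ⊆ S') :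
    cnt X S ≤ cnt X S' :=
  cnt_le_of_inj hS id (fun _ h => h) (fun _ _ _ _ h' i hi => h' i (h hi))

theorem cnt_empty (S : Set I) : cnt (∅ : Set (I → A)) S = 0 := by simp [cnt]

theorem cnt_pos [Finite A] {X : Set (I → A)} {S : Set I} (hS : S.Finite) :
    0 < cnt X S ↔ X.Nonempty := by
  unfold cnt
  rw [Set.ncard_pos (patt_finite X hS)]
  simp

theorem cnt_eq_zero [Finite A] {X : Set (I → A)} {S : Set I} (hS : S.Finite) :
    cnt X S = 0 ↔ X = ∅ := by
  have := cnt_pos (X := X) hS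
  rw [← Set.not_nonempty_iff_eq_empty, ← this]
  omega

theorem cnt_le_pow [Finite A] (X : Set (I → A)) {S : Set I} (hS : S.Finite) :
    cnt X S ≤ Nat.card A ^ S.ncard := by
  classical
  haveI := hS.to_subtype
  haveI := Fintype.ofFinite S
  haveI := Fintype.ofFinite A
  unfold cnt
  calc _ ≤ (Set.univ : Set (S → A)).ncard := Set.ncard_le_ncard (Set.subset_univ _) (Set.toFinite _)
    _ = Nat.card (S → A) := by rw [Set.ncard_univ]
    _ = _ := by
      rw [Nat.card_fun, ← Nat.card_coe_set_eq]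

/-- `cnt` with respect to a reindexing: if `θ` is injective on `S`, patterns of `X` pulled back. -/
theorem cnt_le_cnt_comp [Finite A] {X : Set (J → A)} {Y : Set (I → A)} {S : Set I} (hS : S.Finite)
    (θ : I → J) (h : ∀ x ∈ X, (fun i => x (θ i)) ∈ Y) :
    cnt X (θ '' S) ≤ cnt Y S :=
  cnt_le_of_inj hS (fun x i => x (θ i)) h (by
    rintro x - y - h j ⟨i, hi, rfl⟩
    exact h i hi)

/-- sub-multiplicativity -/
theorem cnt_union_le [Finite A] (X : Set (I → A)) {S S' : Set I} (hS : S.Finite)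
    (hS' : S'.Finite) : cnt X (S ∪ S') ≤ cnt X S * cnt X S' := by
  classical
  haveI := hS.to_subtype
  haveI := hS'.to_subtype
  unfold cnt
  rw [← Set.ncard_prod]
  rcases X.eq_empty_or_nonempty with rfl | ⟨x0, hx0⟩
  · simp
  haveI : Nonempty (I → A) := ⟨x0⟩
  choose! c hcX hcp using (fun (p : (S ∪ S' : Set I) → A)
    (hp : p ∈ (fun (x : I → A) (i : (S ∪ S' : Set I)) => x i) '' X) => hp)
  refine Set.ncard_le_ncard_of_injOn
    (fun p => ((fun i : S => c p i), (fun i : S' => c p i))) ?_ ?_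
    ((patt_finite X hS).prod (patt_finite X hS'))
  · intro p hp
    exact ⟨⟨c p, hcX p hp, rfl⟩, ⟨c p, hcX p hp, rfl⟩⟩
  · intro p hp q hq h
    rw [← hcp p hp, ← hcp q hq]
    have h1 := congrArg Prod.fst h
    have h2 := congrArg Prod.snd h
    funext i
    rcases i.2 with hi | hi
    · exact congrFun h1 ⟨i, hi⟩
    · exact congrFun h2 ⟨i, hi⟩

end Pool.Agent.H45.Ent
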