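/-
Windows and levels: basic API.  MP_f39e07_an, owner helper45.
-/
import Pool.Agent.H45.Ent.Cnt

set_option autoImplicit false

open Filter Topology

namespace Pool.Agent.H45.Ent

section win

variable {G : Type*} [Group G] (a t : G)

theorem aj_mem_win {n j : ℕ} (h : j < n) : aj a t j ∈ win a t n :=
  Subgroup.subset_closure ⟨j, h, rfl⟩

@[simp] theorem aj_zero : aj a t 0 = a := by simp [aj]

theorem aj_conj (i j : ℕ) : t ^ i * aj a t j * (t ^ i)⁻¹ = aj a t (i + j) := by
  simp [aj, pow_add, mul_assoc]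

theorem a_mem_win {n : ℕ} (h : 0 < n) : a ∈ win a t n := by
  simpa using aj_mem_win a t h

theorem win_mono {m n : ℕ} (h : m ≤ n) : win a t m ≤ win a t n :=
  Subgroup.closure_mono (fun _ ⟨j, hj, e⟩ => ⟨j, hj.trans_le h, e⟩)

theorem win_zero : win a t 0 = ⊥ := by
  simp [win]

theorem map_aj {H : Type*} [Group H] (f : G →* H) (j : ℕ) : f (aj a t j) = aj (f a) (f t) j := by
  simp [aj]

theorem map_win {H : Type*} [Group H] (f : G →* H) (n : ℕ) :
    (win a t n).map f = win (f a) (f t) n := by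
  rw [win, MonoidHom.map_closure, win]
  congr 1
  ext x
  constructor
  · rintro ⟨y, ⟨j, hj, rfl⟩, rfl⟩
    exact ⟨j, hj, by rw [map_aj]⟩
  · rintro ⟨j, hj, rfl⟩
    exact ⟨_, ⟨j, hj, rfl⟩, by rw [map_aj]⟩

theorem map_mem_win {H : Type*} [Group H] (f : G →* H) {n : ℕ} {x : G} (hx : x ∈ win a t n) :
    f x ∈ win (f a) (f t) n := by
  rw [← map_win]
  exact Subgroup.mem_map_of_mem f hx

/-- every element of the image window comes from the window -/
theorem exists_of_mem_win {H : Type*} [Group H] (f : G →* H) {n : ℕ} {y : H}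
    (hy : y ∈ win (f a) (f t) n) : ∃ x ∈ win a t n, f x = y := by
  rw [← map_win] at hy
  exact hy

theorem conj_mem_win {n : ℕ} (j : ℕ) {h : G} (hh : h ∈ win a t n) :
    t ^ j * h * (t ^ j)⁻¹ ∈ win a t (j + n) := by
  induction hh using Subgroup.closure_induction with
  | mem x hx =>
    obtain ⟨i, hi, rfl⟩ := hx
    rw [aj_conj]
    exact aj_mem_win a t (by omega)
  | one => simp [Subgroup.one_mem]
  | mul x y _ _ hx hy =>
    have : t ^ j * (x * y) * (t ^ j)⁻¹ = (t ^ j * x * (t ^ j)⁻¹) * (t ^ j * y * (t ^ j)⁻¹) := by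
      group
    rw [this]
    exact Subgroup.mul_mem _ hx hy
  | inv x _ hx =>
    have : t ^ j * x⁻¹ * (t ^ j)⁻¹ = (t ^ j * x * (t ^ j)⁻¹)⁻¹ := by group
    rw [this]
    exact Subgroup.inv_mem _ hx

theorem conj1_mem_win {n : ℕ} {h : G} (hh : h ∈ win a t n) :
    t * h * t⁻¹ ∈ win a t (n + 1) := by
  have := conj_mem_win a t 1 hh
  simpa [add_comm] using this

end win

section words

theorem homOf_win {G : Type*} [Group G] (a t : G) {n : ℕ} {w : F2} (hw : w ∈ win fa ft n) :
    homOf a t w ∈ win a t n := by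
  have := map_mem_win fa ft (homOf a t) hw
  simpa using this

theorem exists_word {G : Type*} [Group G] (a t : G) {n : ℕ} {g : G} (hg : g ∈ win a t n) :
    ∃ w ∈ win fa ft n, homOf a t w = g := by
  have := exists_of_mem_win fa ft (homOf a t) (n := n) (y := g) (by simpa using hg)
  exact this

theorem homOf_surj {G : Type*} [Group G] (a t : G) (h : Subgroup.closure {a, t} = (⊤ : Subgroup G)) :
    Function.Surjective (homOf a t) := by
  rw [← MonoidHom.range_eq_top, eq_top_iff, ← h, Subgroup.closure_le]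
  rintro x (rfl | rfl)
  · exact ⟨fa, by simp⟩
  · exact ⟨ft, by simp⟩

theorem map_homOf {G H : Type*} [Group G] [Group H] (f : G →* H) (a t : G) (w : F2) :
    f (homOf a t w) = homOf (f a) (f t) w := by
  have : f.comp (homOf a t) = homOf (f a) (f t) := by
    apply FreeGroup.ext_hom
    intro i
    fin_cases i <;> simp [homOf]
  rw [← this]; rfl

end words

namespace Tower

variable (T : Tower)

@[simp] theorem lv_one : T.lv 1 = 0 := by simp [lv]
@[simp] theorem lv_mul (g h : T.G) : T.lv (g * h) = T.lv g + T.lv h := by simp [lv]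
@[simp] theorem lv_inv (g : T.G) : T.lv g⁻¹ = - T.lv g := by simp [lv]
@[simp] theorem lv_a : T.lv T.a = 0 := by simp [lv, T.lev_a]
@[simp] theorem lv_t : T.lv T.t = 1 := by simp [lv, T.lev_t]
@[simp] theorem lv_pow (g : T.G) (j : ℕ) : T.lv (g ^ j) = j * T.lv g := by
  simp [lv]
@[simp] theorem lv_zpow (g : T.G) (j : ℤ) : T.lv (g ^ j) = j * T.lv g := by
  simp [lv]

theorem lv_win {n : ℕ} {h : T.G} (hh : h ∈ T.A n) : T.lv h = 0 := by
  induction hh using Subgroup.closure_induction with
  | mem x hx =>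
    obtain ⟨i, hi, rfl⟩ := hx
    simp [aj]
  | one => simp
  | mul x y _ _ hx hy => simp [hx, hy]
  | inv x _ hx => simp [hx]

@[simp] theorem φ_fa : T.φ fa = T.a := by simp [φ]
@[simp] theorem φ_ft : T.φ ft = T.t := by simp [φ]

theorem φ_surj : Function.Surjective T.φ := homOf_surj _ _ T.gen

theorem φ_win {n : ℕ} {w : F2} (hw : w ∈ win fa ft n) : T.φ w ∈ T.A n := homOf_win _ _ hw

theorem exists_word {n : ℕ} {g : T.G} (hg : g ∈ T.A n) : ∃ w ∈ win fa ft n, T.φ w = g :=
  Ent.exists_word _ _ hg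

end Tower

end Pool.Agent.H45.Ent
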