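/-
Gluing a phased free system onto a finite system: construction of stages.
MP_f39e07_an, owner helper45.
-/
import Pool.Agent.H45.Ent.Win

set_option autoImplicit false

namespace Pool.Agent.H45.Ent

theorem homOf_sumCongr {Ω Y : Type*} (al ta : Equiv.Perm Ω) (α τ : Equiv.Perm Y) (w : F2) :
    homOf (Equiv.sumCongr al α) (Equiv.sumCongr ta τ : Equiv.Perm (Ω ⊕ Y)) w =
      Equiv.sumCongr (homOf al ta w) (homOf α τ w) := by
  have := map_homOf (Equiv.Perm.sumCongrHom Ω Y) (al, α) (ta, τ) w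
  have h1 := map_homOf (MonoidHom.fst (Equiv.Perm Ω) (Equiv.Perm Y)) (al, α) (ta, τ) w
  have h2 := map_homOf (MonoidHom.snd (Equiv.Perm Ω) (Equiv.Perm Y)) (al, α) (ta, τ) w
  simp only [MonoidHom.coe_fst, MonoidHom.coe_snd] at h1 h2
  rw [← h1, ← h2]
  exact this.symm

namespace Stage

/-- glue the phased free system `Y` onto `Ω` -/
def glue {Ω Y : Type} [Finite Ω] [Finite Y] [Nonempty Y] (al ta : Equiv.Perm Ω)
    (α τ : Equiv.Perm Y) (n : ℕ) (hn : 0 < n) (ph : Y → ZMod n) (hα : ∀ y, ph (α y) = ph y)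
    (hτ : ∀ y, ph (τ y) = ph y + 1)
    (hfree : ∀ w ∈ win fa ft n, ∀ y, homOf α τ w y = y → homOf al ta w = 1 ∧ homOf α τ w = 1) :
    Stage where
  Ω := Ω ⊕ Y
  al := Equiv.sumCongr al α
  ta := Equiv.sumCongr ta τ
  n := n
  npos := hn
  Z := Set.range Sum.inr
  Zne := Set.range_nonempty _
  ph := Sum.elim (fun _ => 0) ph
  al_mem := by rintro (x | y) <;> simp
  ta_mem := by rintro (x | y) <;> simp
  ph_al := by rintro _ ⟨y, rfl⟩; simp [hα]
  ph_ta := by rintro _ ⟨y, rfl⟩; simp [hτ]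
  free := by
    rintro w hw _ ⟨y, rfl⟩ h
    rw [homOf_sumCongr] at h ⊢
    simp only [Equiv.sumCongr_apply, Sum.map_inr, Sum.inr.injEq] at h
    obtain ⟨h1, h2⟩ := hfree w hw y h
    rw [h1, h2]
    exact Equiv.Perm.sumCongr_one

section
variable {Ω Y : Type} [Finite Ω] [Finite Y] [Nonempty Y] (al ta : Equiv.Perm Ω)
    (α τ : Equiv.Perm Y) (n : ℕ) (hn : 0 < n) (ph : Y → ZMod n) (hα : ∀ y, ph (α y) = ph y)
    (hτ : ∀ y, ph (τ y) = ph y + 1)
    (hfree : ∀ w ∈ win fa ft n, ∀ y, homOf α τ w y = y → homOf al ta w = 1 ∧ homOf α τ w = 1)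

theorem glue_act (w : F2) : (glue al ta α τ n hn ph hα hτ hfree).act w =
    Equiv.sumCongr (homOf al ta w) (homOf α τ w) := homOf_sumCongr _ _ _ _ _

theorem glue_n : (glue al ta α τ n hn ph hα hτ hfree).n = n := rfl

theorem glue_ncard_Z : (glue al ta α τ n hn ph hα hτ hfree).Z.ncard = Nat.card Y := by
  show (Set.range (Sum.inr : Y → Ω ⊕ Y)).ncard = _
  rw [← Set.image_univ, Set.ncard_image_of_injective _ Sum.inr_injective, Set.ncard_univ]

theorem glue_act_eq_one (w : F2) : (glue al ta α τ n hn ph hα hτ hfree).act w = 1 ↔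
    homOf al ta w = 1 ∧ homOf α τ w = 1 := by
  rw [glue_act]
  constructor
  · intro h
    constructor
    · ext x
      have := Equiv.congr_fun h (Sum.inl x)
      exact Sum.inl_injective this
    · ext x
      have := Equiv.congr_fun h (Sum.inr x)
      exact Sum.inr_injective this
  · rintro ⟨h1, h2⟩
    rw [h1, h2]
    exact Equiv.Perm.sumCongr_one

/-- if every word of the window trivial on `Ω` is trivial on `Y`, gluing onto a stage `s` with
`s.n ≤ n` gives a larger stage -/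
theorem le_glue (s : Stage) (Y : Type) [Finite Y] [Nonempty Y]
    (α τ : Equiv.Perm Y) (n : ℕ) (hn : 0 < n) (ph : Y → ZMod n) (hα : ∀ y, ph (α y) = ph y)
    (hτ : ∀ y, ph (τ y) = ph y + 1)
    (hfree : ∀ w ∈ win fa ft n, ∀ y, homOf α τ w y = y →
      homOf s.al s.ta w = 1 ∧ homOf α τ w = 1)
    (hsn : s.n ≤ n) (hker : ∀ w ∈ win fa ft s.n, s.act w = 1 → homOf α τ w = 1) :
    s.Le (glue s.al s.ta α τ n hn ph hα hτ hfree) where
  n_le := hsn
  emb := ⟨⟨Sum.inl, Sum.inl_injective⟩, fun _ => rfl, fun _ => rfl⟩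
  ker := fun w hw h => (glue_act_eq_one _ _ _ _ _ _ _ _ _ _ w).2 ⟨h, hker w hw h⟩

/-- restriction of labelings of the glued stage to `Y` : the cut count -/
theorem glue_cut (F : Sys) : (glue al ta α τ n hn ph hα hτ hfree).cut F =
    {x : Y → Fin F.k | ∀ y, F.Ra (x y) (x (α y)) ∧
      (ph y ≠ -1 → F.Rt (x y) (x (τ y)))}.ncard := by
  classical
  unfold cut cnt
  rcases isEmpty_or_nonempty (Fin F.k) with hE | ⟨⟨c⟩⟩
  · have h1 : (glue al ta α τ n hn ph hα hτ hfree).cutSet F = ∅ := by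
      ext x
      simp only [Set.mem_empty_iff_false, iff_false]
      intro _
      exact hE.elim (x (Sum.inr (Classical.arbitrary Y)))
    have h2 : {x : Y → Fin F.k | ∀ y, F.Ra (x y) (x (α y)) ∧
      (ph y ≠ -1 → F.Rt (x y) (x (τ y)))} = ∅ := by
      ext x
      simp only [Set.mem_empty_iff_false, iff_false]
      intro _
      exact hE.elim (x (Classical.arbitrary Y))
    rw [h1, h2]; simp
  · refine Set.ncard_congr (fun p _ => fun y => p ⟨Sum.inr y, y, rfl⟩) ?_ ?_ ?_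
    · rintro _ ⟨x, hx, rfl⟩ y
      have := hx (Sum.inr y) ⟨y, rfl⟩
      exact this
    · rintro p q - - h
      funext ⟨_, y, rfl⟩
      exact congrFun h y
    · intro x hx
      refine ⟨fun z => x z.2.choose, ⟨Sum.elim (fun _ => c) x, ?_, ?_⟩, ?_⟩
      · rintro _ ⟨y, rfl⟩
        exact hx y
      · funext ⟨_, y, rfl⟩
        have : (⟨Sum.inr y, y, rfl⟩ : {z : Ω ⊕ Y // z ∈ Set.range Sum.inr}).2.choose = y :=
          Sum.inr_injective (⟨Sum.inr y, y, rfl⟩ : {z : Ω ⊕ Y // z ∈ Set.range Sum.inr}).2.choose_spec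
        show x y = x _
        exact congrArg x this.symm
      · funext y
        have : (⟨Sum.inr y, y, rfl⟩ : {z : Ω ⊕ Y // z ∈ Set.range Sum.inr}).2.choose = y :=
          Sum.inr_injective (⟨Sum.inr y, y, rfl⟩ : {z : Ω ⊕ Y // z ∈ Set.range Sum.inr}).2.choose_spec
        exact congrArg x this

end

/-- `Le` is a preorder -/
theorem Le.refl (s : Stage) : s.Le s :=
  ⟨le_refl _, ⟨Function.Embedding.refl _, fun _ => rfl, fun _ => rfl⟩, fun _ _ h => h⟩

theorem Le.trans {s s' s'' : Stage} (h : s.Le s') (h' : s'.Le s'') : s.Le s'' := by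
  obtain ⟨ι, h1, h2⟩ := h.emb
  obtain ⟨ι', h1', h2'⟩ := h'.emb
  exact ⟨h.n_le.trans h'.n_le, ⟨ι.trans ι', fun x => by simp [h1, h1'], fun x => by simp [h2, h2']⟩,
    fun w hw hw1 => h'.ker w (win_mono _ _ h.n_le hw) (h.ker w hw hw1)⟩

/-- words act compatibly along the embedding -/
theorem emb_act {Ω Ω' : Type} (al ta : Equiv.Perm Ω) (al' ta' : Equiv.Perm Ω') (ι : Ω ↪ Ω')
    (h1 : ∀ x, ι (al x) = al' (ι x)) (h2 : ∀ x, ι (ta x) = ta' (ι x)) (w : F2) (x : Ω) :
    ι (homOf al ta w x) = homOf al' ta' w (ι x) := by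
  induction w using FreeGroup.induction_on generalizing x with
  | C1 => simp
  | of i =>
    fin_cases i
    · simpa [homOf] using h1 x
    · simpa [homOf] using h2 x
  | inv_of i hi =>
    rw [map_inv, map_inv]
    have := hi ((homOf al ta (FreeGroup.of i))⁻¹ x)
    rw [← Equiv.Perm.mul_apply, mul_inv_cancel, Equiv.Perm.one_apply] at this
    rw [this, ← Equiv.Perm.mul_apply, inv_mul_cancel, Equiv.Perm.one_apply]
  | mul v w hv hw =>
    rw [map_mul, map_mul, Equiv.Perm.mul_apply, Equiv.Perm.mul_apply, hv, hw]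

theorem Le.act_one {s s' : Stage} (h : s.Le s') {w : F2} (hw : s'.act w = 1) : s.act w = 1 := by
  obtain ⟨ι, h1, h2⟩ := h.emb
  ext x
  apply ι.injective
  have := emb_act s.al s.ta s'.al s'.ta ι h1 h2 w x
  show ι (homOf s.al s.ta w x) = _
  rw [this]
  show s'.act w (ι x) = _
  rw [hw]; rfl

end Stage

theorem Fits.of_le {T : Tower} {s s' : Stage} (h : s.Le s') (hf : Fits T s') : Fits T s where
  triv := fun w hw => h.act_one (hf.triv w hw)
  inj := fun w hw h1 => hf.inj w (win_mono _ _ h.n_le hw) (h.ker w hw h1)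

end Pool.Agent.H45.Ent
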