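/-
The action of a tower fitting a stage on the stage.  MP_f39e07_an, owner helper45.
-/
import Pool.Agent.H45.Ent.Glue

set_option autoImplicit false

namespace Pool.Agent.H45.Ent

namespace Fits

variable {T : Tower} {s : Stage} (h : Fits T s)

/-- the homomorphism `G → Perm Ω` of a tower fitting a stage -/
noncomputable def rho : T.G →* Equiv.Perm s.Ω :=
  (T.φ.liftOfSurjective T.φ_surj) ⟨s.act, fun w hw => h.triv w hw⟩

@[simp] theorem rho_φ (w : F2) : h.rho (T.φ w) = s.act w := by
  have := MonoidHom.liftOfRightInverse_comp_apply T.φ _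
    (Function.rightInverse_surjInv T.φ_surj) ⟨s.act, fun w hw => h.triv w hw⟩ w
  exact this

@[simp] theorem rho_a : h.rho T.a = s.al := by
  rw [← T.φ_fa, rho_φ]; simp [Stage.act]

@[simp] theorem rho_t : h.rho T.t = s.ta := by
  rw [← T.φ_ft, rho_φ]; simp [Stage.act]

theorem rho_mem_Z (g : T.G) {z : s.Ω} : h.rho g z ∈ s.Z ↔ z ∈ s.Z := by
  obtain ⟨w, rfl⟩ := T.φ_surj g
  rw [rho_φ]
  induction w using FreeGroup.induction_on generalizing z with
  | C1 => simp
  | of i =>
    fin_cases i
    · simpa [Stage.act, homOf] using s.al_mem z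
    · simpa [Stage.act, homOf] using s.ta_mem z
  | inv_of i hi =>
    rw [map_inv]
    have := hi (z := (s.act (FreeGroup.of i))⁻¹ z)
    rw [← Equiv.Perm.mul_apply, mul_inv_cancel, Equiv.Perm.one_apply] at this
    exact this.symm
  | mul v w hv hw =>
    rw [map_mul, Equiv.Perm.mul_apply, hv, hw]

theorem ph_rho (g : T.G) {z : s.Ω} (hz : z ∈ s.Z) : s.ph (h.rho g z) = s.ph z + (T.lv g : ZMod s.n) := by
  obtain ⟨w, rfl⟩ := T.φ_surj g
  induction w using FreeGroup.induction_on generalizing z with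
  | C1 => simp
  | of i =>
    fin_cases i
    · have : T.φ (FreeGroup.of 0) = T.a := T.φ_fa
      simp only [Fin.zero_eta, this, rho_a, Tower.lv_a, Int.cast_zero, add_zero]
      exact s.ph_al z hz
    · have : T.φ (FreeGroup.of 1) = T.t := T.φ_ft
      simp only [Fin.mk_one, this, rho_t, Tower.lv_t, Int.cast_one]
      exact s.ph_ta z hz
  | inv_of i hi =>
    have hz' : h.rho (T.φ (FreeGroup.of i))⁻¹ z ∈ s.Z := (h.rho_mem_Z _).2 hz
    have := hi hz'
    rw [← Equiv.Perm.mul_apply, ← map_mul, mul_inv_cancel, map_one, Equiv.Perm.one_apply] at this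
    rw [map_inv, Tower.lv_inv, this]
    push_cast
    ring
  | mul v w hv hw =>
    rw [map_mul, map_mul, Equiv.Perm.mul_apply, hv ((h.rho_mem_Z _).2 hz), hw hz, Tower.lv_mul]
    push_cast
    ring

/-- the window group acts freely on `Z` -/
theorem rho_free {g : T.G} (hg : g ∈ T.A s.n) {z : s.Ω} (hz : z ∈ s.Z) (hgz : h.rho g z = z) :
    g = 1 := by
  obtain ⟨w, hw, rfl⟩ := T.exists_word hg
  rw [rho_φ] at hgz
  exact h.inj w hw (s.free w hw z hz hgz)

end Fits

end Pool.Agent.H45.Ent
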