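/-
All phase classes of the free part of a stage have the same size; the hard core system.
MP_f39e07_an, owner helper45.
-/
import Pool.Agent.H45.Ent.Glue

set_option autoImplicit false

namespace Pool.Agent.H45.Ent

/-- the zero labeling for the hard core system -/
def hcZero {α : Type*} : α → Fin hc.k := fun _ => (0 : Fin 2)

namespace Stage

variable (s : Stage)

/-- the set of points of `Z` with phase `l` -/
def Zp (l : ZMod s.n) : Set s.Ω := {z | z ∈ s.Z ∧ s.ph z = l}

theorem ta_image_Zp (l : ZMod s.n) : s.ta '' s.Zp l = s.Zp (l + 1) := by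
  ext z
  constructor
  · rintro ⟨y, ⟨hy, hl⟩, rfl⟩
    exact ⟨(s.ta_mem y).2 hy, by rw [s.ph_ta y hy, hl]⟩
  · rintro ⟨hz, hl⟩
    have h1 : s.ta (s.ta.symm z) = z := s.ta.apply_symm_apply z
    have hy : s.ta.symm z ∈ s.Z := by
      rw [← s.ta_mem, h1]; exact hz
    refine ⟨s.ta.symm z, ⟨hy, ?_⟩, h1⟩
    have := s.ph_ta _ hy
    rw [h1, hl] at this
    exact (add_right_cancel this).symm

theorem ncard_Zp_add_one (l : ZMod s.n) : (s.Zp (l + 1)).ncard = (s.Zp l).ncard := by
  rw [← ta_image_Zp, Set.ncard_image_of_injective _ s.ta.injective]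

theorem ncard_Zp_eq (l : ZMod s.n) : (s.Zp l).ncard = (s.Zp 0).ncard := by
  haveI : NeZero s.n := ⟨s.npos.ne'⟩
  have h : ∀ j : ℕ, (s.Zp (j : ZMod s.n)).ncard = (s.Zp 0).ncard := by
    intro j
    induction j with
    | zero => simp
    | succ j ih => rw [Nat.cast_succ, ncard_Zp_add_one, ih]
  have := h l.val
  rwa [ZMod.natCast_zmod_val] at this

theorem n_mul_ncard_Zp (l : ZMod s.n) : s.n * (s.Zp l).ncard = s.Z.ncard := by
  classical
  haveI : NeZero s.n := ⟨s.npos.ne'⟩
  haveI := Fintype.ofFinite s.Ω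
  have h1 : s.Z.toFinset.card = ∑ l : ZMod s.n, (s.Zp l).toFinset.card := by
    rw [Finset.card_eq_sum_card_fiberwise (f := s.ph) (t := Finset.univ) (fun _ _ => by simp)]
    apply Finset.sum_congr rfl
    intro l _
    congr 1
    ext z
    simp [Zp]
  rw [Set.ncard_eq_toFinset_card' s.Z, h1]
  have h2 : ∀ l' : ZMod s.n, (s.Zp l').toFinset.card = (s.Zp l).ncard := by
    intro l'
    rw [← Set.ncard_eq_toFinset_card', ncard_Zp_eq, ← ncard_Zp_eq s l]
  rw [Finset.sum_congr rfl (fun l' _ => h2 l')]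
  simp [ZMod.card]

theorem Z_ncard_pos : 0 < s.Z.ncard := (Set.ncard_pos (Set.toFinite _)).2 s.Zne

theorem zero_mem_adm_hc : (hcZero : s.Ω → Fin hc.k) ∈ s.adm hc := by
  intro z _
  exact ⟨rfl, fun h => (show ¬ ((0 : Fin 2) = 1) by decide) h.1⟩

/-- labelings zeroed on the two end phases -/
theorem cut_hc_le : s.cut hc ≤ s.pin hc hcZero * 2 ^ (2 * (s.Zp 0).ncard) := by
  classical
  set E : Set s.Ω := {z | z ∈ s.Z ∧ (s.ph z = 0 ∨ s.ph z = -1)} with hE
  have hEZ : E ⊆ s.Z := fun z hz => hz.1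
  have h1 : s.cut hc ≤ cnt (s.cutSet hc) (s.Z \ E) * cnt (s.cutSet hc) E := by
    have h := cnt_union_le (s.cutSet hc) (Set.toFinite (s.Z \ E)) (Set.toFinite E)
    rwa [Set.sdiff_union_of_subset hEZ] at h
  have h2 : cnt (s.cutSet hc) E ≤ 2 ^ (2 * (s.Zp 0).ncard) := by
    refine (cnt_le_pow _ (Set.toFinite E)).trans ?_
    have hk : Nat.card (Fin hc.k) = 2 := by simp [hc]
    rw [hk]
    apply Nat.pow_le_pow_right (by norm_num)
    have hEu : E ⊆ s.Zp 0 ∪ s.Zp (-1) := by
      rintro z ⟨hz, h | h⟩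
      · exact Or.inl ⟨hz, h⟩
      · exact Or.inr ⟨hz, h⟩
    calc E.ncard ≤ (s.Zp 0 ∪ s.Zp (-1)).ncard := Set.ncard_le_ncard hEu (Set.toFinite _)
      _ ≤ (s.Zp 0).ncard + (s.Zp (-1)).ncard := Set.ncard_union_le _ _
      _ = 2 * (s.Zp 0).ncard := by rw [ncard_Zp_eq s (-1)]; ring
  have h3 : cnt (s.cutSet hc) (s.Z \ E) ≤ s.pin hc hcZero := by
    refine cnt_le_of_inj (Set.toFinite _)
      (fun x z => (if z ∈ E then (0 : Fin 2) else x z : Fin 2)) ?_ ?_
    · intro x hx
      refine ⟨?_, ?_⟩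
      · intro z hz
        have hxz := hx z hz
        have hal : s.al z ∈ E ↔ z ∈ E := by
          simp only [hE, Set.mem_ofPred_eq, s.al_mem z, s.ph_al z hz]
        refine ⟨?_, ?_⟩
        · show (if z ∈ E then (0 : Fin 2) else x z) = (if s.al z ∈ E then (0 : Fin 2) else x (s.al z))
          by_cases h : z ∈ E
          · rw [if_pos h, if_pos (hal.2 h)]
          · rw [if_neg h, if_neg (fun h' => h (hal.1 h'))]
            exact hxz.1
        · rintro ⟨h1, h2⟩
          change (if z ∈ E then (0 : Fin 2) else (x z : Fin 2)) = 1 at h1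
          change (if s.ta z ∈ E then (0 : Fin 2) else (x (s.ta z) : Fin 2)) = 1 at h2
          have hzE : z ∉ E := by
            intro h
            rw [if_pos h] at h1
            exact absurd h1 (by decide)
          have htE : s.ta z ∉ E := by
            intro h
            rw [if_pos h] at h2
            exact absurd h2 (by decide)
          rw [if_neg hzE] at h1
          rw [if_neg htE] at h2
          have hph : s.ph z ≠ -1 := fun h => hzE ⟨hz, Or.inr h⟩
          exact hxz.2 hph ⟨h1, h2⟩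
      · intro z hz h
        exact if_pos ⟨hz, h⟩
    · intro x _ y _ h z hz
      have := h z hz.1
      rwa [if_neg hz.2, if_neg hz.2] at this
  exact h1.trans (Nat.mul_le_mul h3 h2)

theorem hc_pin : Real.log (s.cut hc) / (s.Z.ncard : ℝ) - 2 * Real.log 2 / s.n ≤
    Real.log (s.pin hc hcZero) / (s.Z.ncard : ℝ) := by
  have hZ := s.Z_ncard_pos
  have hn := s.npos
  have h0 := s.n_mul_ncard_Zp 0
  have h1 := s.cut_hc_le
  have hcut : 0 < s.cut hc := by
    rw [cut, cnt_pos (Set.toFinite _)]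
    exact ⟨hcZero, fun z hz => ⟨(s.zero_mem_adm_hc z hz).1, fun _ => (s.zero_mem_adm_hc z hz).2⟩⟩
  have hpin : 0 < s.pin hc hcZero := by
    rw [pin, cnt_pos (Set.toFinite _)]
    exact ⟨hcZero, s.zero_mem_adm_hc, fun _ _ _ => rfl⟩
  have h2 : Real.log (s.cut hc) ≤ Real.log (s.pin hc hcZero) +
      (2 * ((s.Zp 0).ncard : ℝ)) * Real.log 2 := by
    have : Real.log (s.cut hc) ≤
        Real.log ((s.pin hc hcZero : ℝ) * 2 ^ (2 * (s.Zp 0).ncard)) := by
      apply Real.log_le_log (by exact_mod_cast hcut)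
      exact_mod_cast h1
    rw [Real.log_mul (by positivity) (by positivity), Real.log_pow] at this
    push_cast at this
    exact this
  have hn' : (0 : ℝ) < s.n := by exact_mod_cast hn
  have hZ' : (0 : ℝ) < s.Z.ncard := by exact_mod_cast hZ
  have h0' : (s.n : ℝ) * (s.Zp 0).ncard = s.Z.ncard := by exact_mod_cast h0
  have hz0 : (0 : ℝ) < (s.Zp 0).ncard := by
    by_contra h
    rw [not_lt] at h
    have h3 : ((s.Zp 0).ncard : ℝ) = 0 := le_antisymm h (by positivity)
    rw [h3, mul_zero] at h0'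
    linarith
  rw [← h0']
  rw [div_sub_div _ _ (by positivity) (by positivity), div_le_div_iff₀ (by positivity) (by positivity)]
  have key : (Real.log (s.cut hc) - (2 * ((s.Zp 0).ncard : ℝ)) * Real.log 2) *
      ((s.n : ℝ) * (s.n * (s.Zp 0).ncard)) ≤ Real.log (s.pin hc hcZero) *
      ((s.n : ℝ) * (s.n * (s.Zp 0).ncard)) := by
    apply mul_le_mul_of_nonneg_right (by linarith) (by positivity)
  nlinarith [key]

end Stage

end Pool.Agent.H45.Ent
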