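/-
Toolkit: primitive recursive predicates with bounded quantifiers.
MP_f39e07_an, owner helper45.
-/
import Mathlib

set_option autoImplicit false

namespace Pool.Agent.H45.Ent

/-- the `i`-th digit of `p` in base `b` -/
def dg (b p i : ℕ) : ℕ := p / b ^ i % b

section prim

variable {α : Type*} [Primcodable α]

theorem prim_pow {f g : α → ℕ} (hf : Primrec f) (hg : Primrec g) :
    Primrec (fun a => f a ^ g a) := by
  have h : Primrec₂ (fun b n : ℕ => b ^ n) := by
    have hg : Primrec₂ (fun (b : ℕ) (p : ℕ × ℕ) => p.2 * b) :=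
      (Primrec.nat_mul.comp (Primrec.snd.comp Primrec.snd) Primrec.fst)
    have := Primrec.nat_rec (f := fun _ : ℕ => (1 : ℕ)) (Primrec.const 1) hg
    refine this.of_eq ?_
    intro b n
    induction n with
    | zero => simp
    | succ n ih => simp only [pow_succ, ← ih]
  exact h.comp hf hg

theorem prim_fst {β γ : Type*} [Primcodable β] [Primcodable γ] {f : α → β × γ}
    (hf : Primrec f) : Primrec (fun a => (f a).1) := Primrec.fst.comp hf
theorem prim_snd {β γ : Type*} [Primcodable β] [Primcodable γ] {f : α → β × γ}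
    (hf : Primrec f) : Primrec (fun a => (f a).2) := Primrec.snd.comp hf

theorem prim_add {f g : α → ℕ} (hf : Primrec f) (hg : Primrec g) :
    Primrec (fun a => f a + g a) := Primrec.nat_add.comp hf hg

theorem prim_mul {f g : α → ℕ} (hf : Primrec f) (hg : Primrec g) :
    Primrec (fun a => f a * g a) := Primrec.nat_mul.comp hf hg

theorem prim_sub {f g : α → ℕ} (hf : Primrec f) (hg : Primrec g) :
    Primrec (fun a => f a - g a) := Primrec.nat_sub.comp hf hg

theorem prim_div {f g : α → ℕ} (hf : Primrec f) (hg : Primrec g) :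
    Primrec (fun a => f a / g a) := Primrec.nat_div.comp hf hg

theorem prim_mod {f g : α → ℕ} (hf : Primrec f) (hg : Primrec g) :
    Primrec (fun a => f a % g a) := Primrec.nat_mod.comp hf hg

theorem prim_dg {f g h : α → ℕ} (hf : Primrec f) (hg : Primrec g) (hh : Primrec h) :
    Primrec (fun a => dg (f a) (g a) (h a)) :=
  prim_mod (prim_div hg (prim_pow hf hh)) hf

theorem pp_lt {f g : α → ℕ} (hf : Primrec f) (hg : Primrec g) :
    PrimrecPred (fun a => f a < g a) := Primrec.nat_lt.comp hf hg

theorem pp_le {f g : α → ℕ} (hf : Primrec f) (hg : Primrec g) :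
    PrimrecPred (fun a => f a ≤ g a) := Primrec.nat_le.comp hf hg

theorem pp_eq {f g : α → ℕ} (hf : Primrec f) (hg : Primrec g) :
    PrimrecPred (fun a => f a = g a) := Primrec.eq.comp hf hg

theorem pp_imp {p q : α → Prop} (hp : PrimrecPred p) (hq : PrimrecPred q) :
    PrimrecPred (fun a => p a → q a) :=
  (hp.not.or hq).of_eq (fun a => by tauto)

theorem pp_iff {p q : α → Prop} (hp : PrimrecPred p) (hq : PrimrecPred q) :
    PrimrecPred (fun a => p a ↔ q a) :=
  ((pp_imp hp hq).and (pp_imp hq hp)).of_eq (fun a => by tauto)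

theorem pp_ne {f g : α → ℕ} (hf : Primrec f) (hg : Primrec g) :
    PrimrecPred (fun a => f a ≠ g a) := (pp_eq hf hg).not

/-- bounded universal quantifier -/
theorem pp_all {t : α → ℕ} {Q : ℕ → α → Prop} (ht : Primrec t)
    (hQ : PrimrecPred (fun p : α × ℕ => Q p.2 p.1)) :
    PrimrecPred (fun a => ∀ x < t a, Q x a) := by
  have h1 : PrimrecRel (fun (x : ℕ) (a : α) => Q x a) := by
    have := hQ.comp (Primrec.snd.pair Primrec.fst : Primrec (fun p : ℕ × α => (p.2, p.1)))
    exact this
  have h2 := h1.forall_mem_list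
  have h3 : PrimrecPred (fun a : α => ∀ x ∈ List.range (t a), Q x a) :=
    h2.comp (Primrec.list_range.comp ht) Primrec.id
  exact h3.of_eq (fun a => by simp)

/-- bounded existential quantifier -/
theorem pp_ex {t : α → ℕ} {Q : ℕ → α → Prop} (ht : Primrec t)
    (hQ : PrimrecPred (fun p : α × ℕ => Q p.2 p.1)) :
    PrimrecPred (fun a => ∃ x < t a, Q x a) := by
  have h1 : PrimrecRel (fun (x : ℕ) (a : α) => Q x a) := by
    have := hQ.comp (Primrec.snd.pair Primrec.fst : Primrec (fun p : ℕ × α => (p.2, p.1)))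
    exact this
  have h2 := h1.exists_mem_list
  have h3 : PrimrecPred (fun a : α => ∃ x ∈ List.range (t a), Q x a) :=
    h2.comp (Primrec.list_range.comp ht) Primrec.id
  exact h3.of_eq (fun a => by simp)

end prim

theorem prim_unpair1 {α : Type*} [Primcodable α] {f : α → ℕ} (hf : Primrec f) :
    Primrec (fun a => (Nat.unpair (f a)).1) :=
  Primrec.fst.comp (Primrec.unpair.comp hf)
theorem prim_unpair2 {α : Type*} [Primcodable α] {f : α → ℕ} (hf : Primrec f) :
    Primrec (fun a => (Nat.unpair (f a)).2) :=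
  Primrec.snd.comp (Primrec.unpair.comp hf)
theorem prim_unpair {α : Type*} [Primcodable α] {f : α → ℕ} (hf : Primrec f) :
    Primrec (fun a => Nat.unpair (f a)) :=
  Primrec.unpair.comp hf

end Pool.Agent.H45.Ent
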