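/-
Codes of stages and systems by natural numbers; all relations are primitive recursive.
MP_f39e07_an, owner helper45.

A stage code is `σ = (m, n, B, T, Z, L)`: the underlying set is `{0..m-1}`, the window is `n`,
`τ x = dg m T x`, `a_j x = dg m B (j * m + x)` for `j < n` (so `α x = dg m B x`),
`x ∈ Z ↔ dg 2 Z x = 1`, the phase of `x` is `dg n L x`.
-/
import Pool.Agent.H45.Ent.PrcLib
import Pool.Agent.H45.Ent.Glue
import Pool.Agent.H45.Ent.Phase

set_option autoImplicit false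

namespace Pool.Agent.H45.Ent

abbrev SC : Type := ℕ × ℕ × ℕ × ℕ × ℕ × ℕ

namespace SC

abbrev m (σ : SC) : ℕ := σ.1
abbrev n (σ : SC) : ℕ := σ.2.1
abbrev B (σ : SC) : ℕ := σ.2.2.1
abbrev T (σ : SC) : ℕ := σ.2.2.2.1
abbrev Z (σ : SC) : ℕ := σ.2.2.2.2.1
abbrev L (σ : SC) : ℕ := σ.2.2.2.2.2

end SC

/-- number of elements of the free part -/
def zc (σ : SC) : ℕ := (List.range σ.m).foldl (fun s x => s + dg 2 σ.Z x) 0

/-- the code describes a stage -/
def IsSt (σ : SC) : Prop :=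
  0 < σ.n ∧ 0 < σ.m ∧ (∃ x < σ.m, dg 2 σ.Z x = 1) ∧
  (∀ x < σ.m, ∀ y < σ.m, dg σ.m σ.T x = dg σ.m σ.T y → x = y) ∧
  (∀ x < σ.m, ∀ y < σ.m, dg σ.m σ.B x = dg σ.m σ.B y → x = y) ∧
  (∀ j < σ.n, ∀ x < σ.m, j + 1 < σ.n →
    dg σ.m σ.B ((j + 1) * σ.m + dg σ.m σ.T x) = dg σ.m σ.T (dg σ.m σ.B (j * σ.m + x))) ∧
  (∀ x < σ.m, dg 2 σ.Z (dg σ.m σ.T x) = dg 2 σ.Z x ∧ dg 2 σ.Z (dg σ.m σ.B x) = dg 2 σ.Z x) ∧
  (∀ x < σ.m, dg 2 σ.Z x = 1 → dg σ.n σ.L (dg σ.m σ.B x) = dg σ.n σ.L x ∧
    dg σ.n σ.L (dg σ.m σ.T x) = (dg σ.n σ.L x + 1) % σ.n) ∧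
  (∀ z < σ.m, dg 2 σ.Z z = 1 → ∀ ω < σ.m, ∃ f < σ.m ^ σ.m,
    (∀ j < σ.n, ∀ x < σ.m, dg 2 σ.Z x = 1 →
      dg σ.m f (dg σ.m σ.B (j * σ.m + x)) = dg σ.m σ.B (j * σ.m + dg σ.m f x)) ∧
    dg σ.m f z = ω)

/-- order of codes: initial segment embedding -/
def LeC (σ σ' : SC) : Prop :=
  σ.n ≤ σ'.n ∧ σ.m ≤ σ'.m ∧
  (∀ x < σ.m, dg σ'.m σ'.T x = dg σ.m σ.T x ∧ dg σ'.m σ'.B x = dg σ.m σ.B x) ∧
  (∀ z < σ.m, dg 2 σ.Z z = 1 → ∀ ω < σ'.m, ∃ f < σ'.m ^ σ.m,
    (∀ j < σ.n, ∀ x < σ.m, dg 2 σ.Z x = 1 →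
      dg σ'.m f (dg σ.m σ.B (j * σ.m + x)) = dg σ'.m σ'.B (j * σ'.m + dg σ'.m f x)) ∧
    dg σ'.m f z = ω)

def GoodC (σ : SC) : Prop :=
  ∃ f < 2 ^ σ.m, (∀ j < σ.n, j + 1 < σ.n → ∀ x < σ.m, dg 2 σ.Z x = 1 →
      dg 2 f (dg σ.m σ.B (j * σ.m + x)) = dg 2 f x) ∧
    ∃ x < σ.m, dg 2 σ.Z x = 1 ∧ dg 2 f (dg σ.m σ.B ((σ.n - 1) * σ.m + x)) ≠ dg 2 f x

/-- codes of systems: `e = pair k' (pair ra rt)`, alphabet size `k' + 1` -/
def kS (e : ℕ) : ℕ := e.unpair.1 + 1
def raS (e x y : ℕ) : Prop := dg 2 e.unpair.2.unpair.1 (x * kS e + y) = 1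
def rtS (e x y : ℕ) : Prop := dg 2 e.unpair.2.unpair.2 (x * kS e + y) = 1

def sysOf (e : ℕ) : Sys where
  k := kS e
  Ra := fun x y => raS e x y
  Rt := fun x y => rtS e x y

/-- `p` codes a cut labeling -/
def CutC (σ : SC) (e p : ℕ) : Prop :=
  ∀ x < σ.m, dg 2 σ.Z x = 1 →
    raS e (dg (kS e) p x) (dg (kS e) p (dg σ.m σ.B x)) ∧
    (dg σ.n σ.L x + 1 ≠ σ.n → rtS e (dg (kS e) p x) (dg (kS e) p (dg σ.m σ.T x)))

/-- `p` codes an admissible labeling -/
def AdmC (σ : SC) (e p : ℕ) : Prop :=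
  ∀ x < σ.m, dg 2 σ.Z x = 1 →
    raS e (dg (kS e) p x) (dg (kS e) p (dg σ.m σ.B x)) ∧
    rtS e (dg (kS e) p x) (dg (kS e) p (dg σ.m σ.T x))

/-- `p` agrees with `c` on the end phases -/
def PinC (σ : SC) (e p c : ℕ) : Prop :=
  ∀ x < σ.m, dg 2 σ.Z x = 1 → (dg σ.n σ.L x = 0 ∨ dg σ.n σ.L x + 1 = σ.n) →
    dg (kS e) p x = dg (kS e) c x

/-- the number of cut labelings is at most `c` -/
def UpC (σ : SC) (e c : ℕ) : Prop :=
  1 ≤ c ∧ ∃ g < c ^ (kS e ^ σ.m), ∀ p < kS e ^ σ.m, ∀ p' < kS e ^ σ.m,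
    CutC σ e p → CutC σ e p' → dg c g p = dg c g p' →
      ∀ x < σ.m, dg 2 σ.Z x = 1 → dg (kS e) p x = dg (kS e) p' x

/-- there are at least `Q` admissible labelings pinned to `c` -/
def LoC (σ : SC) (e c Q : ℕ) : Prop :=
  AdmC σ e c ∧ ∃ g < (kS e ^ σ.m) ^ Q,
    (∀ i < Q, AdmC σ e (dg (kS e ^ σ.m) g i) ∧ PinC σ e (dg (kS e ^ σ.m) g i) c) ∧
    ∀ i < Q, ∀ i' < Q, i ≠ i' → ∃ x < σ.m, dg 2 σ.Z x = 1 ∧
      dg (kS e) (dg (kS e ^ σ.m) g i) x ≠ dg (kS e) (dg (kS e ^ σ.m) g i') x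

section prim

variable {α : Type*} [Primcodable α]

theorem pp_IsSt : PrimrecPred IsSt := by
  unfold IsSt
  simp only [SC.m, SC.n, SC.B, SC.T, SC.Z, SC.L]
  exact PrimrecPred.and (pp_lt (Primrec.const _) (prim_fst Primrec.snd)) (PrimrecPred.and (pp_lt
    (Primrec.const _) Primrec.fst) (PrimrecPred.and (pp_ex Primrec.fst (pp_eq (prim_dg
    (Primrec.const _) (prim_fst (prim_snd (prim_snd (prim_snd (prim_snd Primrec.fst)))))
    Primrec.snd) (Primrec.const _))) (PrimrecPred.and (pp_all Primrec.fst (pp_all (prim_fst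
    Primrec.fst) (pp_imp (pp_eq (prim_dg (prim_fst (prim_fst Primrec.fst)) (prim_fst (prim_snd
    (prim_snd (prim_snd (prim_fst Primrec.fst))))) (prim_snd Primrec.fst)) (prim_dg (prim_fst
    (prim_fst Primrec.fst)) (prim_fst (prim_snd (prim_snd (prim_snd (prim_fst Primrec.fst)))))
    Primrec.snd)) (pp_eq (prim_snd Primrec.fst) Primrec.snd)))) (PrimrecPred.and (pp_all
    Primrec.fst (pp_all (prim_fst Primrec.fst) (pp_imp (pp_eq (prim_dg (prim_fst (prim_fst
    Primrec.fst)) (prim_fst (prim_snd (prim_snd (prim_fst Primrec.fst)))) (prim_snd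
    Primrec.fst)) (prim_dg (prim_fst (prim_fst Primrec.fst)) (prim_fst (prim_snd (prim_snd
    (prim_fst Primrec.fst)))) Primrec.snd)) (pp_eq (prim_snd Primrec.fst) Primrec.snd))))
    (PrimrecPred.and (pp_all (prim_fst Primrec.snd) (pp_all (prim_fst Primrec.fst) (pp_imp
    (pp_lt (prim_add (prim_snd Primrec.fst) (Primrec.const _)) (prim_fst (prim_snd (prim_fst
    Primrec.fst)))) (pp_eq (prim_dg (prim_fst (prim_fst Primrec.fst)) (prim_fst (prim_snd
    (prim_snd (prim_fst Primrec.fst)))) (prim_add (prim_mul (prim_add (prim_snd Primrec.fst)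
    (Primrec.const _)) (prim_fst (prim_fst Primrec.fst))) (prim_dg (prim_fst (prim_fst
    Primrec.fst)) (prim_fst (prim_snd (prim_snd (prim_snd (prim_fst Primrec.fst)))))
    Primrec.snd))) (prim_dg (prim_fst (prim_fst Primrec.fst)) (prim_fst (prim_snd (prim_snd
    (prim_snd (prim_fst Primrec.fst))))) (prim_dg (prim_fst (prim_fst Primrec.fst)) (prim_fst
    (prim_snd (prim_snd (prim_fst Primrec.fst)))) (prim_add (prim_mul (prim_snd Primrec.fst)
    (prim_fst (prim_fst Primrec.fst))) Primrec.snd))))))) (PrimrecPred.and (pp_all Primrec.fst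
    (PrimrecPred.and (pp_eq (prim_dg (Primrec.const _) (prim_fst (prim_snd (prim_snd (prim_snd
    (prim_snd Primrec.fst))))) (prim_dg (prim_fst Primrec.fst) (prim_fst (prim_snd (prim_snd
    (prim_snd Primrec.fst)))) Primrec.snd)) (prim_dg (Primrec.const _) (prim_fst (prim_snd
    (prim_snd (prim_snd (prim_snd Primrec.fst))))) Primrec.snd)) (pp_eq (prim_dg (Primrec.const
    _) (prim_fst (prim_snd (prim_snd (prim_snd (prim_snd Primrec.fst))))) (prim_dg (prim_fst
    Primrec.fst) (prim_fst (prim_snd (prim_snd Primrec.fst))) Primrec.snd)) (prim_dg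
    (Primrec.const _) (prim_fst (prim_snd (prim_snd (prim_snd (prim_snd Primrec.fst)))))
    Primrec.snd)))) (PrimrecPred.and (pp_all Primrec.fst (pp_imp (pp_eq (prim_dg (Primrec.const
    _) (prim_fst (prim_snd (prim_snd (prim_snd (prim_snd Primrec.fst))))) Primrec.snd)
    (Primrec.const _)) (PrimrecPred.and (pp_eq (prim_dg (prim_fst (prim_snd Primrec.fst))
    (prim_snd (prim_snd (prim_snd (prim_snd (prim_snd Primrec.fst))))) (prim_dg (prim_fst
    Primrec.fst) (prim_fst (prim_snd (prim_snd Primrec.fst))) Primrec.snd)) (prim_dg (prim_fst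
    (prim_snd Primrec.fst)) (prim_snd (prim_snd (prim_snd (prim_snd (prim_snd Primrec.fst)))))
    Primrec.snd)) (pp_eq (prim_dg (prim_fst (prim_snd Primrec.fst)) (prim_snd (prim_snd
    (prim_snd (prim_snd (prim_snd Primrec.fst))))) (prim_dg (prim_fst Primrec.fst) (prim_fst
    (prim_snd (prim_snd (prim_snd Primrec.fst)))) Primrec.snd)) (prim_mod (prim_add (prim_dg
    (prim_fst (prim_snd Primrec.fst)) (prim_snd (prim_snd (prim_snd (prim_snd (prim_snd
    Primrec.fst))))) Primrec.snd) (Primrec.const _)) (prim_fst (prim_snd Primrec.fst)))))))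
    (pp_all Primrec.fst (pp_imp (pp_eq (prim_dg (Primrec.const _) (prim_fst (prim_snd (prim_snd
    (prim_snd (prim_snd Primrec.fst))))) Primrec.snd) (Primrec.const _)) (pp_all (prim_fst
    Primrec.fst) (pp_ex (prim_pow (prim_fst (prim_fst Primrec.fst)) (prim_fst (prim_fst
    Primrec.fst))) (PrimrecPred.and (pp_all (prim_fst (prim_snd (prim_fst (prim_fst
    Primrec.fst)))) (pp_all (prim_fst (prim_fst (prim_fst (prim_fst Primrec.fst)))) (pp_imp
    (pp_eq (prim_dg (Primrec.const _) (prim_fst (prim_snd (prim_snd (prim_snd (prim_snd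
    (prim_fst (prim_fst (prim_fst (prim_fst Primrec.fst))))))))) Primrec.snd) (Primrec.const _))
    (pp_eq (prim_dg (prim_fst (prim_fst (prim_fst (prim_fst (prim_fst Primrec.fst))))) (prim_snd
    (prim_fst Primrec.fst)) (prim_dg (prim_fst (prim_fst (prim_fst (prim_fst (prim_fst
    Primrec.fst))))) (prim_fst (prim_snd (prim_snd (prim_fst (prim_fst (prim_fst (prim_fst
    Primrec.fst))))))) (prim_add (prim_mul (prim_snd Primrec.fst) (prim_fst (prim_fst (prim_fst
    (prim_fst (prim_fst Primrec.fst)))))) Primrec.snd))) (prim_dg (prim_fst (prim_fst (prim_fst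
    (prim_fst (prim_fst Primrec.fst))))) (prim_fst (prim_snd (prim_snd (prim_fst (prim_fst
    (prim_fst (prim_fst Primrec.fst))))))) (prim_add (prim_mul (prim_snd Primrec.fst) (prim_fst
    (prim_fst (prim_fst (prim_fst (prim_fst Primrec.fst)))))) (prim_dg (prim_fst (prim_fst
    (prim_fst (prim_fst (prim_fst Primrec.fst))))) (prim_snd (prim_fst Primrec.fst))
    Primrec.snd))))))) (pp_eq (prim_dg (prim_fst (prim_fst (prim_fst Primrec.fst))) Primrec.snd
    (prim_snd (prim_fst Primrec.fst))) (prim_snd Primrec.fst))))))))))))))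

theorem pp_LeC : PrimrecPred (fun x : SC × SC => LeC x.1 x.2) := by
  unfold LeC
  simp only [SC.m, SC.n, SC.B, SC.T, SC.Z, SC.L]
  exact PrimrecPred.and (pp_le (prim_fst (prim_snd Primrec.fst)) (prim_fst (prim_snd
    Primrec.snd))) (PrimrecPred.and (pp_le (prim_fst Primrec.fst) (prim_fst Primrec.snd))
    (PrimrecPred.and (pp_all (prim_fst Primrec.fst) (PrimrecPred.and (pp_eq (prim_dg (prim_fst
    (prim_snd Primrec.fst)) (prim_fst (prim_snd (prim_snd (prim_snd (prim_snd Primrec.fst)))))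
    Primrec.snd) (prim_dg (prim_fst (prim_fst Primrec.fst)) (prim_fst (prim_snd (prim_snd
    (prim_snd (prim_fst Primrec.fst))))) Primrec.snd)) (pp_eq (prim_dg (prim_fst (prim_snd
    Primrec.fst)) (prim_fst (prim_snd (prim_snd (prim_snd Primrec.fst)))) Primrec.snd) (prim_dg
    (prim_fst (prim_fst Primrec.fst)) (prim_fst (prim_snd (prim_snd (prim_fst Primrec.fst))))
    Primrec.snd)))) (pp_all (prim_fst Primrec.fst) (pp_imp (pp_eq (prim_dg (Primrec.const _)
    (prim_fst (prim_snd (prim_snd (prim_snd (prim_snd (prim_fst Primrec.fst)))))) Primrec.snd)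
    (Primrec.const _)) (pp_all (prim_fst (prim_snd Primrec.fst)) (pp_ex (prim_pow (prim_fst
    (prim_snd (prim_fst Primrec.fst))) (prim_fst (prim_fst (prim_fst Primrec.fst))))
    (PrimrecPred.and (pp_all (prim_fst (prim_snd (prim_fst (prim_fst (prim_fst Primrec.fst)))))
    (pp_all (prim_fst (prim_fst (prim_fst (prim_fst (prim_fst Primrec.fst))))) (pp_imp (pp_eq
    (prim_dg (Primrec.const _) (prim_fst (prim_snd (prim_snd (prim_snd (prim_snd (prim_fst
    (prim_fst (prim_fst (prim_fst (prim_fst Primrec.fst)))))))))) Primrec.snd) (Primrec.const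
    _)) (pp_eq (prim_dg (prim_fst (prim_snd (prim_fst (prim_fst (prim_fst (prim_fst
    Primrec.fst)))))) (prim_snd (prim_fst Primrec.fst)) (prim_dg (prim_fst (prim_fst (prim_fst
    (prim_fst (prim_fst (prim_fst Primrec.fst)))))) (prim_fst (prim_snd (prim_snd (prim_fst
    (prim_fst (prim_fst (prim_fst (prim_fst Primrec.fst)))))))) (prim_add (prim_mul (prim_snd
    Primrec.fst) (prim_fst (prim_fst (prim_fst (prim_fst (prim_fst (prim_fst Primrec.fst)))))))
    Primrec.snd))) (prim_dg (prim_fst (prim_snd (prim_fst (prim_fst (prim_fst (prim_fst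
    Primrec.fst)))))) (prim_fst (prim_snd (prim_snd (prim_snd (prim_fst (prim_fst (prim_fst
    (prim_fst Primrec.fst)))))))) (prim_add (prim_mul (prim_snd Primrec.fst) (prim_fst (prim_snd
    (prim_fst (prim_fst (prim_fst (prim_fst Primrec.fst))))))) (prim_dg (prim_fst (prim_snd
    (prim_fst (prim_fst (prim_fst (prim_fst Primrec.fst)))))) (prim_snd (prim_fst Primrec.fst))
    Primrec.snd))))))) (pp_eq (prim_dg (prim_fst (prim_snd (prim_fst (prim_fst Primrec.fst))))
    Primrec.snd (prim_snd (prim_fst Primrec.fst))) (prim_snd Primrec.fst)))))))))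

theorem pp_GoodC : PrimrecPred GoodC := by
  unfold GoodC
  simp only [SC.m, SC.n, SC.B, SC.T, SC.Z, SC.L]
  exact pp_ex (prim_pow (Primrec.const _) Primrec.fst) (PrimrecPred.and (pp_all (prim_fst
    (prim_snd Primrec.fst)) (pp_imp (pp_lt (prim_add Primrec.snd (Primrec.const _)) (prim_fst
    (prim_snd (prim_fst Primrec.fst)))) (pp_all (prim_fst (prim_fst Primrec.fst)) (pp_imp (pp_eq
    (prim_dg (Primrec.const _) (prim_fst (prim_snd (prim_snd (prim_snd (prim_snd (prim_fst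
    (prim_fst Primrec.fst))))))) Primrec.snd) (Primrec.const _)) (pp_eq (prim_dg (Primrec.const
    _) (prim_snd (prim_fst Primrec.fst)) (prim_dg (prim_fst (prim_fst (prim_fst Primrec.fst)))
    (prim_fst (prim_snd (prim_snd (prim_fst (prim_fst Primrec.fst))))) (prim_add (prim_mul
    (prim_snd Primrec.fst) (prim_fst (prim_fst (prim_fst Primrec.fst)))) Primrec.snd))) (prim_dg
    (Primrec.const _) (prim_snd (prim_fst Primrec.fst)) Primrec.snd)))))) (pp_ex (prim_fst
    Primrec.fst) (PrimrecPred.and (pp_eq (prim_dg (Primrec.const _) (prim_fst (prim_snd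
    (prim_snd (prim_snd (prim_snd (prim_fst Primrec.fst)))))) Primrec.snd) (Primrec.const _))
    (pp_ne (prim_dg (Primrec.const _) (prim_snd Primrec.fst) (prim_dg (prim_fst (prim_fst
    Primrec.fst)) (prim_fst (prim_snd (prim_snd (prim_fst Primrec.fst)))) (prim_add (prim_mul
    (prim_sub (prim_fst (prim_snd (prim_fst Primrec.fst))) (Primrec.const _)) (prim_fst
    (prim_fst Primrec.fst))) Primrec.snd))) (prim_dg (Primrec.const _) (prim_snd Primrec.fst)
    Primrec.snd)))))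

theorem pp_CutC' : PrimrecPred (fun x : SC × ℕ × ℕ => CutC x.1 x.2.1 x.2.2) := by
  unfold CutC raS rtS kS
  simp only [SC.m, SC.n, SC.B, SC.T, SC.Z, SC.L]
  exact pp_all (prim_fst Primrec.fst) (pp_imp (pp_eq (prim_dg (Primrec.const _) (prim_fst
    (prim_snd (prim_snd (prim_snd (prim_snd (prim_fst Primrec.fst)))))) Primrec.snd)
    (Primrec.const _)) (PrimrecPred.and (pp_eq (prim_dg (Primrec.const _) (prim_fst (prim_unpair
    (prim_snd (prim_unpair (prim_fst (prim_snd Primrec.fst)))))) (prim_add (prim_mul (prim_dg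
    (prim_add (prim_fst (prim_unpair (prim_fst (prim_snd Primrec.fst)))) (Primrec.const _))
    (prim_snd (prim_snd Primrec.fst)) Primrec.snd) (prim_add (prim_fst (prim_unpair (prim_fst
    (prim_snd Primrec.fst)))) (Primrec.const _))) (prim_dg (prim_add (prim_fst (prim_unpair
    (prim_fst (prim_snd Primrec.fst)))) (Primrec.const _)) (prim_snd (prim_snd Primrec.fst))
    (prim_dg (prim_fst (prim_fst Primrec.fst)) (prim_fst (prim_snd (prim_snd (prim_fst
    Primrec.fst)))) Primrec.snd)))) (Primrec.const _)) (pp_imp (pp_ne (prim_add (prim_dg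
    (prim_fst (prim_snd (prim_fst Primrec.fst))) (prim_snd (prim_snd (prim_snd (prim_snd
    (prim_snd (prim_fst Primrec.fst)))))) Primrec.snd) (Primrec.const _)) (prim_fst (prim_snd
    (prim_fst Primrec.fst)))) (pp_eq (prim_dg (Primrec.const _) (prim_snd (prim_unpair (prim_snd
    (prim_unpair (prim_fst (prim_snd Primrec.fst)))))) (prim_add (prim_mul (prim_dg (prim_add
    (prim_fst (prim_unpair (prim_fst (prim_snd Primrec.fst)))) (Primrec.const _)) (prim_snd
    (prim_snd Primrec.fst)) Primrec.snd) (prim_add (prim_fst (prim_unpair (prim_fst (prim_snd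
    Primrec.fst)))) (Primrec.const _))) (prim_dg (prim_add (prim_fst (prim_unpair (prim_fst
    (prim_snd Primrec.fst)))) (Primrec.const _)) (prim_snd (prim_snd Primrec.fst)) (prim_dg
    (prim_fst (prim_fst Primrec.fst)) (prim_fst (prim_snd (prim_snd (prim_snd (prim_fst
    Primrec.fst))))) Primrec.snd)))) (Primrec.const _)))))

theorem pp_AdmC' : PrimrecPred (fun x : SC × ℕ × ℕ => AdmC x.1 x.2.1 x.2.2) := by
  unfold AdmC raS rtS kS
  simp only [SC.m, SC.n, SC.B, SC.T, SC.Z, SC.L]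
  exact pp_all (prim_fst Primrec.fst) (pp_imp (pp_eq (prim_dg (Primrec.const _) (prim_fst
    (prim_snd (prim_snd (prim_snd (prim_snd (prim_fst Primrec.fst)))))) Primrec.snd)
    (Primrec.const _)) (PrimrecPred.and (pp_eq (prim_dg (Primrec.const _) (prim_fst (prim_unpair
    (prim_snd (prim_unpair (prim_fst (prim_snd Primrec.fst)))))) (prim_add (prim_mul (prim_dg
    (prim_add (prim_fst (prim_unpair (prim_fst (prim_snd Primrec.fst)))) (Primrec.const _))
    (prim_snd (prim_snd Primrec.fst)) Primrec.snd) (prim_add (prim_fst (prim_unpair (prim_fst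
    (prim_snd Primrec.fst)))) (Primrec.const _))) (prim_dg (prim_add (prim_fst (prim_unpair
    (prim_fst (prim_snd Primrec.fst)))) (Primrec.const _)) (prim_snd (prim_snd Primrec.fst))
    (prim_dg (prim_fst (prim_fst Primrec.fst)) (prim_fst (prim_snd (prim_snd (prim_fst
    Primrec.fst)))) Primrec.snd)))) (Primrec.const _)) (pp_eq (prim_dg (Primrec.const _)
    (prim_snd (prim_unpair (prim_snd (prim_unpair (prim_fst (prim_snd Primrec.fst))))))
    (prim_add (prim_mul (prim_dg (prim_add (prim_fst (prim_unpair (prim_fst (prim_snd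
    Primrec.fst)))) (Primrec.const _)) (prim_snd (prim_snd Primrec.fst)) Primrec.snd) (prim_add
    (prim_fst (prim_unpair (prim_fst (prim_snd Primrec.fst)))) (Primrec.const _))) (prim_dg
    (prim_add (prim_fst (prim_unpair (prim_fst (prim_snd Primrec.fst)))) (Primrec.const _))
    (prim_snd (prim_snd Primrec.fst)) (prim_dg (prim_fst (prim_fst Primrec.fst)) (prim_fst
    (prim_snd (prim_snd (prim_snd (prim_fst Primrec.fst))))) Primrec.snd)))) (Primrec.const
    _))))

theorem pp_PinC' : PrimrecPred (fun x : SC × ℕ × ℕ × ℕ => PinC x.1 x.2.1 x.2.2.1 x.2.2.2) := by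
  unfold PinC kS
  simp only [SC.m, SC.n, SC.B, SC.T, SC.Z, SC.L]
  exact pp_all (prim_fst Primrec.fst) (pp_imp (pp_eq (prim_dg (Primrec.const _) (prim_fst
    (prim_snd (prim_snd (prim_snd (prim_snd (prim_fst Primrec.fst)))))) Primrec.snd)
    (Primrec.const _)) (pp_imp (PrimrecPred.or (pp_eq (prim_dg (prim_fst (prim_snd (prim_fst
    Primrec.fst))) (prim_snd (prim_snd (prim_snd (prim_snd (prim_snd (prim_fst Primrec.fst))))))
    Primrec.snd) (Primrec.const _)) (pp_eq (prim_add (prim_dg (prim_fst (prim_snd (prim_fst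
    Primrec.fst))) (prim_snd (prim_snd (prim_snd (prim_snd (prim_snd (prim_fst Primrec.fst))))))
    Primrec.snd) (Primrec.const _)) (prim_fst (prim_snd (prim_fst Primrec.fst))))) (pp_eq
    (prim_dg (prim_add (prim_fst (prim_unpair (prim_fst (prim_snd Primrec.fst)))) (Primrec.const
    _)) (prim_fst (prim_snd (prim_snd Primrec.fst))) Primrec.snd) (prim_dg (prim_add (prim_fst
    (prim_unpair (prim_fst (prim_snd Primrec.fst)))) (Primrec.const _)) (prim_snd (prim_snd
    (prim_snd Primrec.fst))) Primrec.snd))))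

theorem pp_CutC {σ : α → SC} {e p : α → ℕ} (hσ : Primrec σ) (he : Primrec e) (hp : Primrec p) :
    PrimrecPred (fun a => CutC (σ a) (e a) (p a)) :=
  pp_CutC'.comp (hσ.pair (he.pair hp))

theorem pp_AdmC {σ : α → SC} {e p : α → ℕ} (hσ : Primrec σ) (he : Primrec e) (hp : Primrec p) :
    PrimrecPred (fun a => AdmC (σ a) (e a) (p a)) :=
  pp_AdmC'.comp (hσ.pair (he.pair hp))

theorem pp_PinC {σ : α → SC} {e p c : α → ℕ} (hσ : Primrec σ) (he : Primrec e) (hp : Primrec p)
    (hc : Primrec c) : PrimrecPred (fun a => PinC (σ a) (e a) (p a) (c a)) :=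
  pp_PinC'.comp (hσ.pair (he.pair (hp.pair hc)))

theorem pp_UpC' : PrimrecPred (fun x : SC × ℕ × ℕ => UpC x.1 x.2.1 x.2.2) := by
  unfold UpC kS
  simp only [SC.m, SC.n, SC.B, SC.T, SC.Z, SC.L]
  exact PrimrecPred.and (pp_le (Primrec.const _) (prim_snd Primrec.snd)) (pp_ex (prim_pow
    (prim_snd Primrec.snd) (prim_pow (prim_add (prim_fst (prim_unpair (prim_fst Primrec.snd)))
    (Primrec.const _)) (prim_fst Primrec.fst))) (pp_all (prim_pow (prim_add (prim_fst
    (prim_unpair (prim_fst (prim_snd Primrec.fst)))) (Primrec.const _)) (prim_fst (prim_fst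
    Primrec.fst))) (pp_all (prim_pow (prim_add (prim_fst (prim_unpair (prim_fst (prim_snd
    (prim_fst Primrec.fst))))) (Primrec.const _)) (prim_fst (prim_fst (prim_fst Primrec.fst))))
    (pp_imp (pp_CutC (prim_fst (prim_fst (prim_fst Primrec.fst))) (prim_fst (prim_snd (prim_fst
    (prim_fst Primrec.fst)))) (prim_snd Primrec.fst)) (pp_imp (pp_CutC (prim_fst (prim_fst
    (prim_fst Primrec.fst))) (prim_fst (prim_snd (prim_fst (prim_fst Primrec.fst))))
    Primrec.snd) (pp_imp (pp_eq (prim_dg (prim_snd (prim_snd (prim_fst (prim_fst Primrec.fst))))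
    (prim_snd (prim_fst Primrec.fst)) (prim_snd Primrec.fst)) (prim_dg (prim_snd (prim_snd
    (prim_fst (prim_fst Primrec.fst)))) (prim_snd (prim_fst Primrec.fst)) Primrec.snd)) (pp_all
    (prim_fst (prim_fst (prim_fst (prim_fst Primrec.fst)))) (pp_imp (pp_eq (prim_dg
    (Primrec.const _) (prim_fst (prim_snd (prim_snd (prim_snd (prim_snd (prim_fst (prim_fst
    (prim_fst (prim_fst Primrec.fst))))))))) Primrec.snd) (Primrec.const _)) (pp_eq (prim_dg
    (prim_add (prim_fst (prim_unpair (prim_fst (prim_snd (prim_fst (prim_fst (prim_fst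
    Primrec.fst))))))) (Primrec.const _)) (prim_snd (prim_fst Primrec.fst)) Primrec.snd)
    (prim_dg (prim_add (prim_fst (prim_unpair (prim_fst (prim_snd (prim_fst (prim_fst (prim_fst
    Primrec.fst))))))) (Primrec.const _)) (prim_snd Primrec.fst) Primrec.snd))))))))))

theorem pp_LoC' : PrimrecPred (fun x : SC × ℕ × ℕ × ℕ => LoC x.1 x.2.1 x.2.2.1 x.2.2.2) := by
  unfold LoC kS
  simp only [SC.m, SC.n, SC.B, SC.T, SC.Z, SC.L]
  exact PrimrecPred.and (pp_AdmC Primrec.fst (prim_fst Primrec.snd) (prim_fst (prim_snd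
    Primrec.snd))) (pp_ex (prim_pow (prim_pow (prim_add (prim_fst (prim_unpair (prim_fst
    Primrec.snd))) (Primrec.const _)) (prim_fst Primrec.fst)) (prim_snd (prim_snd Primrec.snd)))
    (PrimrecPred.and (pp_all (prim_snd (prim_snd (prim_snd Primrec.fst))) (PrimrecPred.and
    (pp_AdmC (prim_fst (prim_fst Primrec.fst)) (prim_fst (prim_snd (prim_fst Primrec.fst)))
    (prim_dg (prim_pow (prim_add (prim_fst (prim_unpair (prim_fst (prim_snd (prim_fst
    Primrec.fst))))) (Primrec.const _)) (prim_fst (prim_fst (prim_fst Primrec.fst)))) (prim_snd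
    Primrec.fst) Primrec.snd)) (pp_PinC (prim_fst (prim_fst Primrec.fst)) (prim_fst (prim_snd
    (prim_fst Primrec.fst))) (prim_dg (prim_pow (prim_add (prim_fst (prim_unpair (prim_fst
    (prim_snd (prim_fst Primrec.fst))))) (Primrec.const _)) (prim_fst (prim_fst (prim_fst
    Primrec.fst)))) (prim_snd Primrec.fst) Primrec.snd) (prim_fst (prim_snd (prim_snd (prim_fst
    Primrec.fst))))))) (pp_all (prim_snd (prim_snd (prim_snd Primrec.fst))) (pp_all (prim_snd
    (prim_snd (prim_snd (prim_fst Primrec.fst)))) (pp_imp (pp_ne (prim_snd Primrec.fst)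
    Primrec.snd) (pp_ex (prim_fst (prim_fst (prim_fst (prim_fst Primrec.fst)))) (PrimrecPred.and
    (pp_eq (prim_dg (Primrec.const _) (prim_fst (prim_snd (prim_snd (prim_snd (prim_snd
    (prim_fst (prim_fst (prim_fst (prim_fst Primrec.fst))))))))) Primrec.snd) (Primrec.const _))
    (pp_ne (prim_dg (prim_add (prim_fst (prim_unpair (prim_fst (prim_snd (prim_fst (prim_fst
    (prim_fst Primrec.fst))))))) (Primrec.const _)) (prim_dg (prim_pow (prim_add (prim_fst
    (prim_unpair (prim_fst (prim_snd (prim_fst (prim_fst (prim_fst Primrec.fst)))))))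
    (Primrec.const _)) (prim_fst (prim_fst (prim_fst (prim_fst (prim_fst Primrec.fst))))))
    (prim_snd (prim_fst (prim_fst Primrec.fst))) (prim_snd (prim_fst Primrec.fst))) Primrec.snd)
    (prim_dg (prim_add (prim_fst (prim_unpair (prim_fst (prim_snd (prim_fst (prim_fst (prim_fst
    Primrec.fst))))))) (Primrec.const _)) (prim_dg (prim_pow (prim_add (prim_fst (prim_unpair
    (prim_fst (prim_snd (prim_fst (prim_fst (prim_fst Primrec.fst))))))) (Primrec.const _))
    (prim_fst (prim_fst (prim_fst (prim_fst (prim_fst Primrec.fst)))))) (prim_snd (prim_fst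
    (prim_fst Primrec.fst))) (prim_snd Primrec.fst)) Primrec.snd)))))))))

theorem prim_zc' : Primrec zc := by
  unfold zc
  simp only [SC.m, SC.Z]
  have h : Primrec₂ (fun (σ : SC) (q : ℕ × ℕ) => q.1 + dg 2 σ.2.2.2.2.1 q.2) := by
    show Primrec (fun y : SC × ℕ × ℕ => y.2.1 + dg 2 y.1.2.2.2.2.1 y.2.2)
    exact prim_add (prim_fst Primrec.snd) (prim_dg (Primrec.const _) (prim_fst (prim_snd
      (prim_snd (prim_snd (prim_snd Primrec.fst))))) (prim_snd Primrec.snd))
  exact Primrec.list_foldl (Primrec.list_range.comp Primrec.fst) (Primrec.const 0) h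

/-! the relations with function arguments -/

theorem pp_IsSt1 {σ : α → SC} (hσ : Primrec σ) : PrimrecPred (fun a => IsSt (σ a)) :=
  pp_IsSt.comp hσ
theorem pp_GoodC1 {σ : α → SC} (hσ : Primrec σ) : PrimrecPred (fun a => GoodC (σ a)) :=
  pp_GoodC.comp hσ
theorem pp_LeC1 {σ σ' : α → SC} (hσ : Primrec σ) (hσ' : Primrec σ') :
    PrimrecPred (fun a => LeC (σ a) (σ' a)) := pp_LeC.comp (hσ.pair hσ')
theorem pp_UpC {σ : α → SC} {e c : α → ℕ} (hσ : Primrec σ) (he : Primrec e) (hc : Primrec c) :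
    PrimrecPred (fun a => UpC (σ a) (e a) (c a)) :=
  pp_UpC'.comp (hσ.pair (he.pair hc))
theorem pp_LoC {σ : α → SC} {e c q : α → ℕ} (hσ : Primrec σ) (he : Primrec e) (hc : Primrec c)
    (hq : Primrec q) : PrimrecPred (fun a => LoC (σ a) (e a) (c a) (q a)) :=
  pp_LoC'.comp (hσ.pair (he.pair (hc.pair hq)))
theorem prim_zc {σ : α → SC} (hσ : Primrec σ) : Primrec (fun a => zc (σ a)) := prim_zc'.comp hσ

end prim

end Pool.Agent.H45.Ent
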