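/-
Codes versus stages: the relation `Coded`, soundness of `IsSt` and `LeC`.
MP_f39e07_an, owner helper45.

PROOFS.
* digits: `dg b p i < b` for `0 < b`; every function `f : Fin w → Fin b` is `i ↦ dg b p i` for a
  unique `p < b ^ w` (`finFunctionFinEquiv`, its inverse is `p ↦ (i ↦ p / b ^ i % b)`).  Please put
  this as a lemma `exists_dg (w b) (f : ℕ → ℕ) (hf : ∀ i < w, f i < b) : ∃ p < b ^ w, ∀ i < w,
  dg b p i = f i`.
* `exists_coded`: `Ω = Fin m`, `al x = dg m B x`, `ta x = dg m T x` (injective maps of `Fin m`, so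
  bijective), `Z`, phases as coded.  Rows: by induction `dg m B (j m + x) = a_j x` for `j < n` from
  the clause `B (j+1, τ x) = τ (B (j, x))`.  Freeness: if `w ∈ win fa ft n` fixes `z ∈ Z` and
  `ω ∈ Ω`, take `f` from the last clause of `IsSt`; `f (a_j x) = a_j (f x)` for `x ∈ Z`, hence
  `f (w x) = w (f x)` for `w ∈ win fa ft n`, `x ∈ Z` (closure induction; `Z` is invariant under the
  window; for inverses apply it to `w⁻¹ x`), so `w ω = w (f z) = f (w z) = f z = ω`.
* `leC_sound`: `emb`: the inclusion `Fin m → Fin m'`; `ker`: as before with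
  `f : Z → Ω'`, `f z = ω`: `w ω = f (w z) = ω`.
-/
import Pool.Agent.H45.Ent.Codes

set_option autoImplicit false

namespace Pool.Agent.H45.Ent

theorem dg_lt {b : ℕ} (hb : 0 < b) (p i : ℕ) : dg b p i < b := Nat.mod_lt _ hb

theorem exists_dg (w b : ℕ) (f : ℕ → ℕ) (hf : ∀ i < w, f i < b) :
    ∃ p < b ^ w, ∀ i < w, dg b p i = f i := by
  induction w with
  | zero => exact ⟨0, by simp, fun i hi => absurd hi (Nat.not_lt_zero _)⟩
  | succ w ih =>
    obtain ⟨p, hp, h⟩ := ih (fun i hi => hf i (by omega))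
    have hfw := hf w (Nat.lt_succ_self _)
    have hb : 0 < b := by omega
    have hbw : 0 < b ^ w := Nat.pow_pos hb
    refine ⟨p + f w * b ^ w, ?_, ?_⟩
    · rw [pow_succ]
      calc p + f w * b ^ w < b ^ w + f w * b ^ w := by omega
        _ = (f w + 1) * b ^ w := by ring
        _ ≤ b * b ^ w := Nat.mul_le_mul_right _ hfw
        _ = b ^ w * b := by ring
    · intro i hi
      rcases Nat.lt_or_ge i w with hiw | hiw
      · rw [← h i hiw]
        have h1 : b ^ w = b ^ i * (b * b ^ (w - i - 1)) := by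
          rw [← pow_succ', ← pow_add]
          congr 1
          omega
        unfold dg
        have h2 : p + f w * b ^ w = p + b ^ i * (b * (f w * b ^ (w - i - 1))) := by
          rw [h1]; ring
        rw [h2, Nat.add_mul_div_left _ _ (Nat.pow_pos hb), Nat.add_mul_mod_self_left]
      · have : i = w := by omega
        subst this
        unfold dg
        rw [Nat.add_mul_div_right _ _ hbw, Nat.div_eq_of_lt hp, Nat.zero_add,
          Nat.mod_eq_of_lt hfw]

/-- the code `σ` describes the stage `s` via the numbering `e` -/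
structure Coded (σ : SC) (s : Stage) (e : Fin σ.m ≃ s.Ω) : Prop where
  n_eq : s.n = σ.n
  ta : ∀ x y : Fin σ.m, s.ta (e x) = e y ↔ dg σ.m σ.T x = y
  row : ∀ j < σ.n, ∀ x y : Fin σ.m, aj s.al s.ta j (e x) = e y ↔ dg σ.m σ.B (j * σ.m + x) = y
  Z : ∀ x : Fin σ.m, e x ∈ s.Z ↔ dg 2 σ.Z x = 1
  ph : ∀ x : Fin σ.m, e x ∈ s.Z → s.ph (e x) = ((dg σ.n σ.L x : ℕ) : ZMod s.n)

/-- words preserve an invariant set -/
theorem homOf_mem_iff {Ω : Type} (al ta : Equiv.Perm Ω) (Z : Set Ω)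
    (hal : ∀ z, al z ∈ Z ↔ z ∈ Z) (hta : ∀ z, ta z ∈ Z ↔ z ∈ Z) (w : F2) (z : Ω) :
    homOf al ta w z ∈ Z ↔ z ∈ Z := by
  induction w using FreeGroup.induction_on generalizing z with
  | C1 => simp
  | of i =>
    fin_cases i
    · simpa [homOf] using hal z
    · simpa [homOf] using hta z
  | inv_of i hi =>
    rw [map_inv]
    have := hi ((homOf al ta (FreeGroup.of i))⁻¹ z)
    rw [← Equiv.Perm.mul_apply, mul_inv_cancel, Equiv.Perm.one_apply] at this
    exact this.symm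
  | mul v w hv hw =>
    rw [map_mul, Equiv.Perm.mul_apply, hv, hw]

/-- a map intertwining the generators of the window on an invariant set intertwines the window -/
theorem inter_win {Ω Ω' : Type} (al ta : Equiv.Perm Ω) (al' ta' : Equiv.Perm Ω') (n : ℕ)
    (Z : Set Ω) (hal : ∀ z, al z ∈ Z ↔ z ∈ Z) (hta : ∀ z, ta z ∈ Z ↔ z ∈ Z) (f : Ω → Ω')
    (hf : ∀ j < n, ∀ x ∈ Z, f (aj al ta j x) = aj al' ta' j (f x)) {w : F2}
    (hw : w ∈ win fa ft n) : ∀ x ∈ Z, f (homOf al ta w x) = homOf al' ta' w (f x) := by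
  induction hw using Subgroup.closure_induction with
  | mem w hw =>
    obtain ⟨j, hj, rfl⟩ := hw
    intro x hx
    rw [map_aj, map_aj, homOf_fa, homOf_ft, homOf_fa, homOf_ft]
    exact hf j hj x hx
  | one => intro x _; simp
  | mul v w _ _ hv hw =>
    intro x hx
    rw [map_mul, map_mul, Equiv.Perm.mul_apply, Equiv.Perm.mul_apply,
      hv _ ((homOf_mem_iff al ta Z hal hta w x).2 hx), hw x hx]
  | inv w _ hw =>
    intro x hx
    rw [map_inv, map_inv]
    have h1 : (homOf al ta w)⁻¹ x ∈ Z := by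
      rw [← map_inv]
      exact (homOf_mem_iff al ta Z hal hta w⁻¹ x).2 hx
    have h2 := hw _ h1
    have h3 : homOf al ta w ((homOf al ta w)⁻¹ x) = x := by
      rw [← Equiv.Perm.mul_apply, mul_inv_cancel, Equiv.Perm.one_apply]
    rw [h3] at h2
    rw [h2, ← Equiv.Perm.mul_apply, inv_mul_cancel, Equiv.Perm.one_apply]

theorem exists_coded {σ : SC} (h : IsSt σ) : ∃ (s : Stage) (e : Fin σ.m ≃ s.Ω), Coded σ s e := by
  obtain ⟨hn, hm, ⟨x0, hx0, hZ0⟩, hT, hB, hrow, hZ, hph, hfree⟩ := h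
  have hTb : Function.Bijective (fun x : Fin σ.m => (⟨dg σ.m σ.T x, dg_lt hm _ _⟩ : Fin σ.m)) := by
    apply Finite.injective_iff_bijective.1
    intro x y hxy
    exact Fin.ext (hT x x.2 y y.2 (congrArg Fin.val hxy))
  have hBb : Function.Bijective (fun x : Fin σ.m => (⟨dg σ.m σ.B x, dg_lt hm _ _⟩ : Fin σ.m)) := by
    apply Finite.injective_iff_bijective.1
    intro x y hxy
    exact Fin.ext (hB x x.2 y y.2 (congrArg Fin.val hxy))
  obtain ⟨al, hal⟩ : ∃ al : Equiv.Perm (Fin σ.m), ∀ x, (al x : ℕ) = dg σ.m σ.B x :=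
    ⟨Equiv.ofBijective _ hBb, fun _ => rfl⟩
  obtain ⟨ta, hta⟩ : ∃ ta : Equiv.Perm (Fin σ.m), ∀ x, (ta x : ℕ) = dg σ.m σ.T x :=
    ⟨Equiv.ofBijective _ hTb, fun _ => rfl⟩
  have hrow' : ∀ j < σ.n, ∀ x : Fin σ.m, (aj al ta j x : ℕ) = dg σ.m σ.B (j * σ.m + x) := by
    intro j
    induction j with
    | zero => intro _ x; simp [hal]
    | succ j ih =>
      intro hj x
      have h1 : aj al ta (j + 1) = ta * aj al ta j * ta⁻¹ := by
        simp only [aj, pow_succ']
        group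
      obtain ⟨y, rfl⟩ : ∃ y, x = ta y := ⟨ta⁻¹ x, by simp⟩
      have h2 : aj al ta (j + 1) (ta y) = ta (aj al ta j y) := by
        rw [h1]; simp
      rw [h2, hta, ih (by omega) y, hta y]
      exact (hrow j (by omega) y y.2 hj).symm
  let Z : Set (Fin σ.m) := {x | dg 2 σ.Z x = 1}
  have halZ : ∀ z, al z ∈ Z ↔ z ∈ Z := by
    intro z
    show dg 2 σ.Z (al z : ℕ) = 1 ↔ dg 2 σ.Z z = 1
    rw [hal, (hZ z z.2).2]
  have htaZ : ∀ z, ta z ∈ Z ↔ z ∈ Z := by
    intro z
    show dg 2 σ.Z (ta z : ℕ) = 1 ↔ dg 2 σ.Z z = 1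
    rw [hta, (hZ z z.2).1]
  refine ⟨{ Ω := Fin σ.m, al := al, ta := ta, n := σ.n, npos := hn, Z := Z,
            Zne := ⟨⟨x0, hx0⟩, hZ0⟩, ph := fun x => ((dg σ.n σ.L x : ℕ) : ZMod σ.n),
            al_mem := halZ, ta_mem := htaZ, ph_al := ?_, ph_ta := ?_, free := ?_ },
          Equiv.refl _, ⟨rfl, ?_, ?_, ?_, ?_⟩⟩
  · intro z hz
    show ((dg σ.n σ.L (al z : ℕ) : ℕ) : ZMod σ.n) = _
    rw [hal, (hph z z.2 hz).1]
  · intro z hz
    show ((dg σ.n σ.L (ta z : ℕ) : ℕ) : ZMod σ.n) = _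
    rw [hta, (hph z z.2 hz).2, ZMod.natCast_mod]
    push_cast
    rfl
  · intro w hw z hz hwz
    ext ω
    obtain ⟨f, -, hf1, hf2⟩ := hfree z z.2 hz ω ω.2
    have key := inter_win al ta al ta σ.n Z halZ htaZ
      (fun x => (⟨dg σ.m f x, dg_lt hm _ _⟩ : Fin σ.m)) (by
        intro j hj x hx
        apply Fin.ext
        have h1 := hf1 j hj x x.2 hx
        rw [← hrow' j hj x] at h1
        exact h1.trans (hrow' j hj ⟨dg σ.m f x, dg_lt hm _ _⟩).symm) hw z hz
    rw [hwz] at key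
    have hfz : (⟨dg σ.m f z, dg_lt hm _ _⟩ : Fin σ.m) = ω := Fin.ext hf2
    rw [hfz] at key
    rw [← key]
    rfl
  · intro x y
    show ta x = y ↔ _
    rw [← hta]
    exact Fin.ext_iff
  · intro j hj x y
    show aj al ta j x = y ↔ _
    rw [← hrow' j hj x]
    exact Fin.ext_iff
  · intro x; exact Iff.rfl
  · intro x _; rfl

namespace Coded

variable {σ : SC} {s : Stage} {e : Fin σ.m ≃ s.Ω}

theorem ta_eq (h : Coded σ s e) (hm : 0 < σ.m) (x : Fin σ.m) :
    s.ta (e x) = e ⟨dg σ.m σ.T x, dg_lt hm _ _⟩ := (h.ta _ _).2 rfl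

theorem row_eq (h : Coded σ s e) (hm : 0 < σ.m) {j : ℕ} (hj : j < σ.n) (x : Fin σ.m) :
    aj s.al s.ta j (e x) = e ⟨dg σ.m σ.B (j * σ.m + x), dg_lt hm _ _⟩ := (h.row j hj _ _).2 rfl

theorem npos (h : Coded σ s e) : 0 < σ.n := by
  rw [← h.n_eq]; exact s.npos

theorem al_eq (h : Coded σ s e) (hm : 0 < σ.m) (x : Fin σ.m) :
    s.al (e x) = e ⟨dg σ.m σ.B x, dg_lt hm _ _⟩ := by
  have := h.row_eq hm h.npos x
  rw [aj_zero] at this
  rw [this]
  congr 2
  simp

end Coded

theorem leC_sound {σ σ' : SC} {s s' : Stage} {e : Fin σ.m ≃ s.Ω} {e' : Fin σ'.m ≃ s'.Ω}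
    (h : Coded σ s e) (h' : Coded σ' s' e') (hle : LeC σ σ') : s.Le s' := by
  obtain ⟨hn, hm, hTB, hker⟩ := hle
  obtain ⟨z, hz⟩ := s.Zne
  have hpos : 0 < σ.m := by
    have := (e.symm z).2
    omega
  have hpos' : 0 < σ'.m := by omega
  refine ⟨by rw [h.n_eq, h'.n_eq]; exact hn, ?_, ?_⟩
  · refine ⟨⟨fun x => e' (Fin.castLE hm (e.symm x)), ?_⟩, ?_, ?_⟩
    · intro x y hxy
      have h1 := e'.injective hxy
      exact e.symm.injective (Fin.castLE_injective hm h1)
    · intro x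
      obtain ⟨x, rfl⟩ := e.surjective x
      show e' (Fin.castLE hm (e.symm (s.al (e x)))) = s'.al (e' (Fin.castLE hm (e.symm (e x))))
      rw [h.al_eq hpos, e.symm_apply_apply, e.symm_apply_apply, h'.al_eq hpos']
      congr 1
      apply Fin.ext
      exact (hTB x x.2).2.symm
    · intro x
      obtain ⟨x, rfl⟩ := e.surjective x
      show e' (Fin.castLE hm (e.symm (s.ta (e x)))) = s'.ta (e' (Fin.castLE hm (e.symm (e x))))
      rw [h.ta_eq hpos, e.symm_apply_apply, e.symm_apply_apply, h'.ta_eq hpos']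
      congr 1
      apply Fin.ext
      exact (hTB x x.2).1.symm
  · intro w hw hw1
    ext ω
    obtain ⟨ω, rfl⟩ := e'.surjective ω
    obtain ⟨z, rfl⟩ := e.surjective z
    obtain ⟨f, -, hf1, hf2⟩ := hker z z.2 ((h.Z z).1 hz) ω ω.2
    have key := inter_win s.al s.ta s'.al s'.ta s.n s.Z s.al_mem s.ta_mem
      (fun x => e' ⟨dg σ'.m f (e.symm x), dg_lt hpos' _ _⟩) (by
        intro j hj x hx
        obtain ⟨x, rfl⟩ := e.surjective x
        rw [h.n_eq] at hj
        have hx1 := (h.Z x).1 hx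
        simp only [e.symm_apply_apply]
        rw [h.row_eq hpos hj, h'.row_eq hpos' (hj.trans_le hn), e.symm_apply_apply]
        congr 1
        apply Fin.ext
        exact hf1 j hj x x.2 hx1) hw (e z) hz
    simp only [e.symm_apply_apply] at key
    have h1 : homOf s.al s.ta w (e z) = e z := by
      show s.act w (e z) = e z
      rw [hw1]; rfl
    have h2 : (⟨dg σ'.m f z, dg_lt hpos' _ _⟩ : Fin σ'.m) = ω := Fin.ext hf2
    rw [h1] at key
    simp only [e.symm_apply_apply] at key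
    rw [h2] at key
    show homOf s'.al s'.ta w (e' ω) = e' ω
    exact key.symm

theorem zc_sum (m : ℕ) (g : ℕ → ℕ) :
    (List.range m).foldl (fun s x => s + g x) 0 = ∑ x ∈ Finset.range m, g x := by
  induction m with
  | zero => simp
  | succ m ih => rw [List.range_succ, List.foldl_append, ih, Finset.sum_range_succ]; simp

theorem zc_eq {σ : SC} {s : Stage} {e : Fin σ.m ≃ s.Ω} (h : Coded σ s e) : zc σ = s.Z.ncard := by
  classical
  have h1 : s.Z = e '' {x : Fin σ.m | dg 2 σ.Z x = 1} := by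
    ext z
    obtain ⟨x, rfl⟩ := e.surjective z
    rw [h.Z x]
    simp
  rw [h1, Set.ncard_image_of_injective _ e.injective, zc, zc_sum, Finset.sum_range,
    Set.ncard_eq_toFinset_card', Finset.card_eq_sum_ones, Set.toFinset_ofPred, Finset.sum_filter]
  apply Finset.sum_congr rfl
  intro x _
  have : dg 2 σ.Z x < 2 := dg_lt (by norm_num) _ _
  split_ifs with hx
  · exact hx
  · omega

end Pool.Agent.H45.Ent
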