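/-
Codes: goodness, upper and lower counts; codes of systems.  MP_f39e07_an, owner helper45.
(This file: helper77.)

PROOFS.
* `sysOf_surj`: `k' = k - 1`; digit codes (`exists_dg`) of the tables of the relations; then the
  two structures are equal (`cases F`, `funext`, `propext`).
* `goodC_iff`: (→) `f` is invariant on `Z` under the generators `a_j`, `j < n - 1`, hence under
  `win fa ft (n-1)`; if `s.act w = s.act (aj fa ft (n-1))`, then `f (a_{n-1} x) = f (w x) = f x` for all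
  `x ∈ Z`, contradiction.  (←) pick `z ∈ Z`, `f` = indicator of `{s.act w z | w ∈ win fa ft (n-1)}`;
  it is invariant, `f z = 1`, `f (a_{n-1} z) = 0`: otherwise `w⁻¹ a_{n-1}` fixes `z`, so it acts
  trivially (`Stage.free`), contradiction to good.
* `upC_iff`: patterns on `Z` (elements of the image set in the definition of `cnt`) are the
  restrictions to `Z` of digit codes `p < k^m`.  `UpC` says that there is a map `g` from codes of cut
  labelings to `{0..c-1}` which separates different patterns.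
  The phase `-1` corresponds to the digit `n - 1`.
* `loC_iff`: `Q` pinned labelings with pairwise different restrictions to `Z`.
-/
import Pool.Agent.H45.Ent.Coded

set_option autoImplicit false

namespace Pool.Agent.H45.Ent

theorem perm_ap_inv {α : Type} (f : Equiv.Perm α) (x : α) : f (f⁻¹ x) = x :=
  f.apply_symm_apply x

theorem perm_inv_ap {α : Type} (f : Equiv.Perm α) (x : α) : f⁻¹ (f x) = x :=
  f.symm_apply_apply x

theorem sys_ext {F F' : Sys} (hk : F.k = F'.k)
    (hRa : ∀ x y, F.Ra x y ↔ F'.Ra (Fin.cast hk x) (Fin.cast hk y))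
    (hRt : ∀ x y, F.Rt x y ↔ F'.Rt (Fin.cast hk x) (Fin.cast hk y)) : F = F' := by
  cases F with
  | mk k Ra Rt =>
    cases F' with
    | mk k' Ra' Rt' =>
      simp only at hk
      subst hk
      have h1 : Ra = Ra' := by
        funext x y
        exact propext (hRa x y)
      have h2 : Rt = Rt' := by
        funext x y
        exact propext (hRt x y)
      rw [h1, h2]

theorem exists_rel_dg (k : ℕ) (R : Fin k → Fin k → Prop) :
    ∃ p, ∀ x y : Fin k, dg 2 p ((x : ℕ) * k + y) = 1 ↔ R x y := by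
  classical
  obtain ⟨p, -, hp⟩ := exists_dg (k * k) 2
    (fun i => if ∃ x y : Fin k, i = (x : ℕ) * k + y ∧ R x y then 1 else 0)
    (fun i _ => by split_ifs <;> norm_num)
  refine ⟨p, fun x y => ?_⟩
  have hlt : (x : ℕ) * k + y < k * k := by
    have hx := x.2
    have hy := y.2
    calc (x : ℕ) * k + y < (x : ℕ) * k + k := by omega
      _ = ((x : ℕ) + 1) * k := by ring
      _ ≤ k * k := Nat.mul_le_mul_right _ hx
  rw [hp _ hlt]
  constructor
  · intro h
    have h2 : ∃ x' y' : Fin k, (x : ℕ) * k + y = (x' : ℕ) * k + y' ∧ R x' y' := by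
      by_contra hc
      simp only [if_neg hc] at h
      exact absurd h (by norm_num)
    obtain ⟨x', y', he, hR⟩ := h2
    have hk : 0 < k := lt_of_le_of_lt (Nat.zero_le _) x.2
    have e1 : (x : ℕ) = x' := by
      have a1 : ((x : ℕ) * k + y) / k = x := by
        rw [mul_comm, Nat.mul_add_div hk, Nat.div_eq_of_lt y.2, add_zero]
      have a2 : ((x' : ℕ) * k + y') / k = x' := by
        rw [mul_comm, Nat.mul_add_div hk, Nat.div_eq_of_lt y'.2, add_zero]
      rw [← a1, he, a2]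
    have e2 : (y : ℕ) = y' := by
      rw [e1] at he
      omega
    rw [Fin.ext e1, Fin.ext e2]
    exact hR
  · intro h
    exact if_pos ⟨x, y, rfl, h⟩

theorem raS_pair (k' ra rt a b : ℕ) :
    raS (Nat.pair k' (Nat.pair ra rt)) a b ↔ dg 2 ra (a * (k' + 1) + b) = 1 := by
  unfold raS kS
  simp only [Nat.unpair_pair]

theorem rtS_pair (k' ra rt a b : ℕ) :
    rtS (Nat.pair k' (Nat.pair ra rt)) a b ↔ dg 2 rt (a * (k' + 1) + b) = 1 := by
  unfold rtS kS
  simp only [Nat.unpair_pair]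

theorem sysOf_surj (F : Sys) (hF : 0 < F.k) : ∃ e, sysOf e = F := by
  obtain ⟨ra, hra⟩ := exists_rel_dg F.k F.Ra
  obtain ⟨rt, hrt⟩ := exists_rel_dg F.k F.Rt
  have hk : kS (Nat.pair (F.k - 1) (Nat.pair ra rt)) = F.k := by
    unfold kS
    rw [Nat.unpair_pair]
    simp only
    omega
  refine ⟨Nat.pair (F.k - 1) (Nat.pair ra rt), sys_ext hk ?_ ?_⟩
  · intro x y
    have h1 : F.k - 1 + 1 = F.k := by omega
    refine (raS_pair _ ra rt x y).trans ?_
    rw [← hra, h1]
    rfl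
  · intro x y
    have h1 : F.k - 1 + 1 = F.k := by omega
    refine (rtS_pair _ ra rt x y).trans ?_
    rw [← hrt, h1]
    rfl

theorem sysOf_tonly (e : ℕ) :
    (∀ x < kS e, ∀ y < kS e, raS e x y) ↔ ∀ x y, (sysOf e).Ra x y := by
  constructor
  · intro h x y
    exact h x x.2 y y.2
  · intro h x hx y hy
    exact h ⟨x, hx⟩ ⟨y, hy⟩

/-! ### The actions in terms of codes -/

section coded

variable {σ : SC} {s : Stage} {e : Fin σ.m ≃ s.Ω}

theorem Coded.mpos (x : Fin σ.m) : 0 < σ.m := lt_of_le_of_lt (Nat.zero_le _) x.2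

theorem Coded.row_eqx (h : Coded σ s e) {j : ℕ} (hj : j < σ.n) (x : Fin σ.m) :
    aj s.al s.ta j (e x) =
      e ⟨dg σ.m σ.B (j * σ.m + x), dg_lt (Coded.mpos x) _ _⟩ :=
  (h.row j hj x _).2 rfl

theorem Coded.al_eqx (h : Coded σ s e) (x : Fin σ.m) :
    s.al (e x) = e ⟨dg σ.m σ.B x, dg_lt (Coded.mpos x) _ _⟩ := by
  have := h.row_eqx h.npos x
  rw [aj_zero] at this
  rw [this]
  congr 2
  simp

theorem Coded.ta_eqx (h : Coded σ s e) (x : Fin σ.m) :
    s.ta (e x) = e ⟨dg σ.m σ.T x, dg_lt (Coded.mpos x) _ _⟩ :=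
  (h.ta x _).2 rfl

theorem Stage.act_mem (s : Stage) (w : F2) (z : s.Ω) : s.act w z ∈ s.Z ↔ z ∈ s.Z := by
  have key : ∀ w : F2, ∀ z ∈ s.Z, s.act w z ∈ s.Z := by
    intro w
    induction w using FreeGroup.induction_on with
    | C1 => intro z hz; rw [map_one]; exact hz
    | of i =>
      intro z hz
      fin_cases i
      · show s.act fa z ∈ s.Z
        unfold Stage.act
        rw [homOf_fa]
        exact (s.al_mem z).2 hz
      · show s.act ft z ∈ s.Z
        unfold Stage.act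
        rw [homOf_ft]
        exact (s.ta_mem z).2 hz
    | inv_of i _ =>
      intro z hz
      fin_cases i
      · show s.act fa⁻¹ z ∈ s.Z
        rw [map_inv]
        unfold Stage.act
        rw [homOf_fa, ← s.al_mem, perm_ap_inv]
        exact hz
      · show s.act ft⁻¹ z ∈ s.Z
        rw [map_inv]
        unfold Stage.act
        rw [homOf_ft, ← s.ta_mem, perm_ap_inv]
        exact hz
    | mul x y hx hy =>
      intro z hz
      rw [map_mul]
      exact hx _ (hy _ hz)
  constructor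
  · intro h
    have := key w⁻¹ _ h
    rwa [map_inv, perm_inv_ap] at this
  · exact key w z

theorem Stage.act_aj (s : Stage) (j : ℕ) : s.act (aj fa ft j) = aj s.al s.ta j := by
  unfold Stage.act
  rw [map_aj, homOf_fa, homOf_ft]

theorem goodC_iff {σ : SC} {s : Stage} {e : Fin σ.m ≃ s.Ω} (h : Coded σ s e) :
    GoodC σ ↔ s.Good := by
  classical
  have hn := h.npos
  constructor
  · rintro ⟨f, -, hinv, x, hx, hxZ, hne⟩ w hw hact
    -- invariance under the generators
    have hgen : ∀ j < σ.n - 1, ∀ ω ∈ s.Z,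
        dg 2 f (e.symm (aj s.al s.ta j ω)) = dg 2 f (e.symm ω) := by
      intro j hj ω hω
      obtain ⟨y, rfl⟩ := e.surjective ω
      rw [h.row_eqx (by omega) y, Equiv.symm_apply_apply, Equiv.symm_apply_apply]
      exact hinv j (by omega) (by omega) y y.2 ((h.Z y).1 hω)
    have hwin : ∀ v ∈ win fa ft (σ.n - 1), ∀ ω ∈ s.Z,
        dg 2 f (e.symm (s.act v ω)) = dg 2 f (e.symm ω) := by
      intro v hv
      induction hv using Subgroup.closure_induction with
      | mem v hv =>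
        obtain ⟨j, hj, rfl⟩ := hv
        intro ω hω
        rw [s.act_aj]
        exact hgen j hj ω hω
      | one => intro ω _; rw [map_one]; rfl
      | mul a b _ _ ha hb =>
        intro ω hω
        rw [map_mul]
        show dg 2 f (e.symm (s.act a (s.act b ω))) = _
        rw [ha _ ((s.act_mem b ω).2 hω), hb _ hω]
      | inv a _ ha =>
        intro ω hω
        have h1 := ha (s.act a⁻¹ ω) ((s.act_mem _ ω).2 hω)
        rw [map_inv, perm_ap_inv] at h1
        rw [map_inv, ← h1]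
    rw [h.n_eq] at hw hact
    have hxZ' : e ⟨x, hx⟩ ∈ s.Z := (h.Z ⟨x, hx⟩).2 hxZ
    have h1 := hwin w hw _ hxZ'
    rw [hact, s.act_aj, h.row_eqx (by omega) ⟨x, hx⟩, Equiv.symm_apply_apply,
      Equiv.symm_apply_apply] at h1
    exact hne h1
  · intro hgood
    obtain ⟨z, hz⟩ := s.Zne
    let O : Set s.Ω := {ω | ∃ w ∈ win fa ft (σ.n - 1), s.act w z = ω}
    obtain ⟨f, hf, hfd⟩ := exists_dg σ.m 2
      (fun i => if ∃ hi : i < σ.m, e ⟨i, hi⟩ ∈ O then 1 else 0)
      (fun i _ => by split_ifs <;> norm_num)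
    have hd : ∀ x : Fin σ.m, dg 2 f x = if e x ∈ O then 1 else 0 := by
      intro x
      rw [hfd x x.2]
      refine if_congr ?_ rfl rfl
      constructor
      · rintro ⟨_, h1⟩; exact h1
      · intro h1; exact ⟨x.2, h1⟩
    refine ⟨f, hf, ?_, ?_⟩
    · intro j hj hj1 x hx hxZ
      have hrow := h.row_eqx hj ⟨x, hx⟩
      have h1 := hd ⟨dg σ.m σ.B (j * σ.m + x), dg_lt (Coded.mpos ⟨x, hx⟩) _ _⟩
      have h2 := hd ⟨x, hx⟩
      simp only at h1 h2 hrow
      rw [h1, h2, ← hrow]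
      refine if_congr ?_ rfl rfl
      have hmem : aj fa ft j ∈ win fa ft (σ.n - 1) := aj_mem_win fa ft (by omega)
      constructor
      · rintro ⟨w, hw, hw2⟩
        refine ⟨(aj fa ft j)⁻¹ * w, mul_mem (inv_mem hmem) hw, ?_⟩
        rw [map_mul, map_inv, s.act_aj]
        show (aj s.al s.ta j)⁻¹ (s.act w z) = _
        rw [hw2, perm_inv_ap]
      · rintro ⟨w, hw, hw2⟩
        refine ⟨aj fa ft j * w, mul_mem hmem hw, ?_⟩
        rw [map_mul, s.act_aj]
        show (aj s.al s.ta j) (s.act w z) = _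
        rw [hw2]
    · obtain ⟨x, rfl⟩ := e.surjective z
      refine ⟨x, x.2, (h.Z x).1 hz, ?_⟩
      have h1 := hd ⟨dg σ.m σ.B ((σ.n - 1) * σ.m + x), dg_lt (Coded.mpos x) _ _⟩
      have h2 := hd x
      have hrow := h.row_eqx (j := σ.n - 1) (by omega) x
      simp only at h1
      have hx : e x ∈ O := ⟨1, one_mem _, by rw [map_one]; rfl⟩
      rw [if_pos hx] at h2
      have hnx : aj s.al s.ta (σ.n - 1) (e x) ∉ O := by
        rintro ⟨w, hw, hw2⟩
        have hfix : s.act (w⁻¹ * aj fa ft (σ.n - 1)) (e x) = e x := by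
          rw [map_mul, s.act_aj, map_inv]
          show (s.act w)⁻¹ (aj s.al s.ta (σ.n - 1) (e x)) = _
          rw [← hw2, perm_inv_ap]
        have hw' : w ∈ win fa ft (s.n - 1) := by rw [h.n_eq]; exact hw
        have hmem : w⁻¹ * aj fa ft (σ.n - 1) ∈ win fa ft s.n := by
          refine mul_mem (inv_mem (win_mono fa ft (by omega) hw')) ?_
          exact aj_mem_win fa ft (by rw [h.n_eq]; omega)
        have h3 := s.free _ hmem (e x) hz hfix
        have h4 : s.act (w⁻¹ * aj fa ft (σ.n - 1)) = 1 := h3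
        rw [map_mul, map_inv, inv_mul_eq_one] at h4
        exact hgood w hw' (by rw [h.n_eq]; exact h4)
      rw [hrow] at hnx
      rw [if_neg hnx] at h1
      rw [h1, h2]
      norm_num

/-! ### Labelings coded by numbers -/

theorem kS_pos (i : ℕ) : 0 < kS i := Nat.succ_pos _

/-- the labeling with code `p` -/
def labOf (e : Fin σ.m ≃ s.Ω) (i p : ℕ) : s.Ω → Fin (sysOf i).k :=
  fun ω => ⟨dg (kS i) p (e.symm ω), dg_lt (kS_pos i) _ _⟩

theorem labOf_apply (i p : ℕ) (x : Fin σ.m) :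
    labOf e i p (e x) = (⟨dg (kS i) p x, dg_lt (kS_pos i) _ _⟩ : Fin (kS i)) := by
  unfold labOf
  congr 2
  rw [Equiv.symm_apply_apply]

theorem labOf_surj (i : ℕ) (x : s.Ω → Fin (sysOf i).k) :
    ∃ p < kS i ^ σ.m, labOf e i p = x := by
  obtain ⟨p, hp, hpd⟩ := exists_dg σ.m (kS i)
    (fun j => if hj : j < σ.m then (x (e ⟨j, hj⟩) : ℕ) else 0)
    (fun j hj => by rw [dif_pos hj]; exact (x (e ⟨j, hj⟩)).2)
  refine ⟨p, hp, ?_⟩
  funext ω
  obtain ⟨y, rfl⟩ := e.surjective ω
  rw [labOf_apply]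
  apply Fin.ext
  show dg (kS i) p y = _
  rw [hpd y y.2, dif_pos y.2]

theorem Coded.ph_zero (h : Coded σ s e) (x : Fin σ.m) (hx : e x ∈ s.Z) :
    s.ph (e x) = 0 ↔ dg σ.n σ.L x = 0 := by
  rw [h.ph x hx, ZMod.natCast_eq_zero_iff, h.n_eq]
  constructor
  · intro h1
    exact Nat.eq_zero_of_dvd_of_lt h1 (dg_lt h.npos _ _)
  · intro h1; rw [h1]; exact dvd_zero _

theorem Coded.ph_neg (h : Coded σ s e) (x : Fin σ.m) (hx : e x ∈ s.Z) :
    s.ph (e x) = -1 ↔ dg σ.n σ.L x + 1 = σ.n := by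
  have h0 : s.ph (e x) = -1 ↔ ((dg σ.n σ.L x + 1 : ℕ) : ZMod s.n) = 0 := by
    rw [h.ph x hx, Nat.cast_add, Nat.cast_one, eq_neg_iff_add_eq_zero]
  rw [h0, ZMod.natCast_eq_zero_iff, h.n_eq]
  have hlt : dg σ.n σ.L x < σ.n := dg_lt h.npos _ _
  constructor
  · intro h1
    exact le_antisymm hlt (Nat.le_of_dvd (Nat.succ_pos _) h1)
  · intro h1; rw [h1]

theorem Coded.cut_iff (h : Coded σ s e) (i p : ℕ) :
    CutC σ i p ↔ labOf e i p ∈ s.cutSet (sysOf i) := by
  constructor
  · intro hc z hz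
    obtain ⟨x, rfl⟩ := e.surjective z
    obtain ⟨h1, h2⟩ := hc x x.2 ((h.Z x).1 hz)
    rw [h.al_eqx, h.ta_eqx, labOf_apply, labOf_apply, labOf_apply]
    refine ⟨h1, fun h3 => h2 fun h4 => h3 ((h.ph_neg x hz).2 h4)⟩
  · intro hc x hx hxZ
    have hz : e ⟨x, hx⟩ ∈ s.Z := (h.Z ⟨x, hx⟩).2 hxZ
    obtain ⟨h1, h2⟩ := hc _ hz
    rw [h.al_eqx, labOf_apply, labOf_apply] at h1
    rw [h.ta_eqx, labOf_apply, labOf_apply] at h2
    exact ⟨h1, fun h3 => h2 fun h4 => h3 ((h.ph_neg ⟨x, hx⟩ hz).1 h4)⟩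

theorem Coded.adm_iff (h : Coded σ s e) (i p : ℕ) :
    AdmC σ i p ↔ labOf e i p ∈ s.adm (sysOf i) := by
  constructor
  · intro hc z hz
    obtain ⟨x, rfl⟩ := e.surjective z
    obtain ⟨h1, h2⟩ := hc x x.2 ((h.Z x).1 hz)
    rw [h.al_eqx, h.ta_eqx, labOf_apply, labOf_apply, labOf_apply]
    exact ⟨h1, h2⟩
  · intro hc x hx hxZ
    have hz : e ⟨x, hx⟩ ∈ s.Z := (h.Z ⟨x, hx⟩).2 hxZ
    obtain ⟨h1, h2⟩ := hc _ hz
    rw [h.al_eqx, labOf_apply, labOf_apply] at h1
    rw [h.ta_eqx, labOf_apply, labOf_apply] at h2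
    exact ⟨h1, h2⟩

theorem Coded.agree_iff (h : Coded σ s e) (i p c : ℕ) :
    (∀ x < σ.m, dg 2 σ.Z x = 1 → dg (kS i) p x = dg (kS i) c x) ↔
      ∀ z ∈ s.Z, labOf e i p z = labOf e i c z := by
  constructor
  · intro hc z hz
    obtain ⟨x, rfl⟩ := e.surjective z
    rw [labOf_apply, labOf_apply]
    apply Fin.ext
    exact hc x x.2 ((h.Z x).1 hz)
  · intro hc x hx hxZ
    have hz : e ⟨x, hx⟩ ∈ s.Z := (h.Z ⟨x, hx⟩).2 hxZ
    have h1 := hc _ hz
    rw [labOf_apply, labOf_apply] at h1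
    exact congrArg Fin.val h1

theorem Coded.pin_iff (h : Coded σ s e) (i p c : ℕ) :
    PinC σ i p c ↔ ∀ z ∈ s.Z, (s.ph z = 0 ∨ s.ph z = -1) → labOf e i p z = labOf e i c z := by
  constructor
  · intro hc z hz hph
    obtain ⟨x, rfl⟩ := e.surjective z
    rw [labOf_apply, labOf_apply]
    apply Fin.ext
    refine hc x x.2 ((h.Z x).1 hz) ?_
    rwa [h.ph_zero x hz, h.ph_neg x hz] at hph
  · intro hc x hx hxZ hph
    have hz : e ⟨x, hx⟩ ∈ s.Z := (h.Z ⟨x, hx⟩).2 hxZ
    have h1 := hc _ hz (by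
      rw [h.ph_zero ⟨x, hx⟩ hz, h.ph_neg ⟨x, hx⟩ hz]; exact hph)
    rw [labOf_apply, labOf_apply] at h1
    exact congrArg Fin.val h1

/-- restriction to the free part -/
def resZ (s : Stage) {k : ℕ} (x : s.Ω → Fin k) : s.Z → Fin k := fun z => x z

theorem resZ_eq_iff {k : ℕ} (x y : s.Ω → Fin k) :
    resZ s x = resZ s y ↔ ∀ z ∈ s.Z, x z = y z := by
  constructor
  · intro h z hz
    exact congrFun h ⟨z, hz⟩
  · intro h
    funext z
    exact h z z.2

theorem upC_iff {σ : SC} {s : Stage} {e : Fin σ.m ≃ s.Ω} (h : Coded σ s e) (i c : ℕ) :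
    UpC σ i c ↔ 1 ≤ c ∧ s.cut (sysOf i) ≤ c := by
  classical
  have hcut : s.cut (sysOf i) = (resZ s '' s.cutSet (sysOf i)).ncard := rfl
  have hfin : (resZ s '' s.cutSet (sysOf i)).Finite := patt_finite _ (Set.toFinite _)
  constructor
  · rintro ⟨hc, g, -, hg⟩
    refine ⟨hc, ?_⟩
    rw [hcut]
    -- a code for every pattern
    have hcode : ∀ q ∈ resZ s '' s.cutSet (sysOf i), ∃ p < kS i ^ σ.m, CutC σ i p ∧
        resZ s (labOf e i p) = q := by
      rintro q ⟨x, hx, rfl⟩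
      obtain ⟨p, hp, rfl⟩ := labOf_surj (e := e) i x
      exact ⟨p, hp, (h.cut_iff i p).2 hx, rfl⟩
    choose! P hP1 hP2 hP3 using hcode
    have h1 : (resZ s '' s.cutSet (sysOf i)).ncard ≤ ((Finset.range c : Finset ℕ) : Set ℕ).ncard := by
      refine Set.ncard_le_ncard_of_injOn (fun q => dg c g (P q)) ?_ ?_ (Set.toFinite _)
      · intro q _
        rw [Finset.coe_range]
        exact dg_lt hc _ _
      · intro q hq q' hq' heq
        have h2 := hg (P q) (hP1 q hq) (P q') (hP1 q' hq') (hP2 q hq) (hP2 q' hq') heq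
        rw [h.agree_iff, ← resZ_eq_iff, hP3 q hq, hP3 q' hq'] at h2
        exact h2
    rwa [Set.ncard_coe_finset, Finset.card_range] at h1
  · rintro ⟨hc, hle⟩
    rw [hcut] at hle
    refine ⟨hc, ?_⟩
    -- an injective numbering of the patterns
    have hex : ∃ ι : (s.Z → Fin (sysOf i).k) → ℕ,
        (∀ q ∈ resZ s '' s.cutSet (sysOf i), ι q < c) ∧
        Set.InjOn ι (resZ s '' s.cutSet (sysOf i)) := by
      have hcard : hfin.toFinset.card ≤ (Finset.range c).card := by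
        rw [Finset.card_range, ← Set.ncard_eq_toFinset_card _ hfin]
        exact hle
      obtain ⟨t, ht, htc⟩ := Finset.exists_subset_card_eq hcard
      let E : hfin.toFinset ≃ t := Finset.equivOfCardEq htc.symm
      refine ⟨fun q => if hq : q ∈ hfin.toFinset then (E ⟨q, hq⟩ : ℕ) else 0, ?_, ?_⟩
      · intro q hq
        have hq' : q ∈ hfin.toFinset := hfin.mem_toFinset.2 hq
        simp only [dif_pos hq']
        exact Finset.mem_range.1 (ht (E ⟨q, hq'⟩).2)
      · intro q hq q' hq' heq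
        have h1 : q ∈ hfin.toFinset := hfin.mem_toFinset.2 hq
        have h2 : q' ∈ hfin.toFinset := hfin.mem_toFinset.2 hq'
        simp only [dif_pos h1, dif_pos h2] at heq
        have := E.injective (Subtype.ext heq)
        exact congrArg Subtype.val this
    obtain ⟨ι, hι1, hι2⟩ := hex
    obtain ⟨g, hg, hgd⟩ := exists_dg (kS i ^ σ.m) c
      (fun p => if CutC σ i p then ι (resZ s (labOf e i p)) else 0) (fun p _ => by
        by_cases hp : CutC σ i p
        · simp only [if_pos hp]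
          exact hι1 _ ⟨_, (h.cut_iff i p).1 hp, rfl⟩
        · simp only [if_neg hp]
          omega)
    refine ⟨g, hg, ?_⟩
    intro p hp p' hp' hcp hcp' heq
    rw [hgd p hp, hgd p' hp', if_pos hcp, if_pos hcp'] at heq
    have := hι2 ⟨_, (h.cut_iff i p).1 hcp, rfl⟩ ⟨_, (h.cut_iff i p').1 hcp', rfl⟩ heq
    rw [h.agree_iff, ← resZ_eq_iff]
    exact this

theorem loC_iff {σ : SC} {s : Stage} {e : Fin σ.m ≃ s.Ω} (h : Coded σ s e) (i Q : ℕ) :
    (∃ lab, LoC σ i lab Q) ↔ ∃ c ∈ s.adm (sysOf i), Q ≤ s.pin (sysOf i) c := by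
  classical
  have hpin : ∀ c, s.pin (sysOf i) c = (resZ s '' s.pinSet (sysOf i) c).ncard := fun _ => rfl
  have hfin : ∀ c, (resZ s '' s.pinSet (sysOf i) c).Finite := fun c =>
    patt_finite _ (Set.toFinite _)
  constructor
  · rintro ⟨lab, hadm, g, -, hg1, hg2⟩
    refine ⟨labOf e i lab, (h.adm_iff i lab).1 hadm, ?_⟩
    rw [hpin]
    have h1 : ((Finset.range Q : Finset ℕ) : Set ℕ).ncard ≤
        (resZ s '' s.pinSet (sysOf i) (labOf e i lab)).ncard := by
      refine Set.ncard_le_ncard_of_injOn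
        (fun j => resZ s (labOf e i (dg (kS i ^ σ.m) g j))) ?_ ?_ (hfin _)
      · intro j hj
        rw [Finset.coe_range] at hj
        obtain ⟨a1, a2⟩ := hg1 j hj
        exact ⟨_, ⟨(h.adm_iff i _).1 a1, (h.pin_iff i _ _).1 a2⟩, rfl⟩
      · intro j hj j' hj' heq
        rw [Finset.coe_range] at hj hj'
        by_contra hne
        obtain ⟨x, hx, hxZ, hx2⟩ := hg2 j hj j' hj' hne
        apply hx2
        have h2 := (resZ_eq_iff _ _).1 heq
        rw [← h.agree_iff] at h2
        exact h2 x hx hxZ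
    rwa [Set.ncard_coe_finset, Finset.card_range] at h1
  · rintro ⟨c, hc, hQ⟩
    rw [hpin] at hQ
    obtain ⟨lab, -, hlab⟩ := labOf_surj (e := e) i c
    subst hlab
    have hQ' : Q ≤ (hfin (labOf e i lab)).toFinset.card := by
      rw [← Set.ncard_eq_toFinset_card _ (hfin _)]; exact hQ
    obtain ⟨t, ht, htc⟩ := Finset.exists_subset_card_eq hQ'
    let E : Fin Q ≃ t := (Finset.equivFinOfCardEq htc).symm
    have hcode : ∀ j : Fin Q, ∃ p < kS i ^ σ.m, AdmC σ i p ∧ PinC σ i p lab ∧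
        resZ s (labOf e i p) = (E j : s.Z → Fin (sysOf i).k) := by
      intro j
      obtain ⟨x, hx, hx2⟩ := (hfin (labOf e i lab)).mem_toFinset.1 (ht (E j).2)
      obtain ⟨p, hp, rfl⟩ := labOf_surj (e := e) i x
      exact ⟨p, hp, (h.adm_iff i p).2 hx.1, (h.pin_iff i p lab).2 hx.2, hx2⟩
    choose P hP1 hP2 hP3 hP4 using hcode
    obtain ⟨g, hg, hgd⟩ := exists_dg Q (kS i ^ σ.m)
      (fun j => if hj : j < Q then P ⟨j, hj⟩ else 0)
      (fun j hj => by rw [dif_pos hj]; exact hP1 _)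
    refine ⟨lab, (h.adm_iff i lab).2 hc, g, hg, ?_, ?_⟩
    · intro j hj
      rw [hgd j hj, dif_pos hj]
      exact ⟨hP2 _, hP3 _⟩
    · intro j hj j' hj' hne
      rw [hgd j hj, dif_pos hj, hgd j' hj', dif_pos hj']
      by_contra hcon
      push Not at hcon
      have h1 := hP4 ⟨j, hj⟩
      have h2 := hP4 ⟨j', hj'⟩
      have h3 : resZ s (labOf e i (P ⟨j, hj⟩)) = resZ s (labOf e i (P ⟨j', hj'⟩)) := by
        rw [resZ_eq_iff, ← h.agree_iff]
        exact hcon
      rw [h1, h2] at h3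
      have := E.injective (Subtype.ext h3)
      exact hne (Fin.mk.inj_iff.1 this)

end coded

end Pool.Agent.H45.Ent
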