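/-
Existence of codes.  MP_f39e07_an, owner helper45.

PROOFS.
* `exists_equivariant`: let `K` act on `X` and `Ω'` such that an element of `K` fixing a point of `X`
  acts trivially on `Ω'`.  Choose for every orbit a representative, `x₀` for its own orbit, put
  `f (k • r) = k • ω₀`; well defined.
* `exists_code`: number `s.Ω` by `Fin m`, `m = Nat.card s.Ω > 0` (`s.Zne`), and take digit codes
  (`exists_dg`) of `τ`, of the table `(j, x) ↦ a_j x` (`index j * m + x`, `j < n`, `x < m`; decode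
  `i ↦ (i / m, i % m)`), of the indicator of `Z`, of the phases (`ZMod.val`).  The last clause of
  `IsSt` is `exists_equivariant` with `K = win fa ft n` acting on `Z` and on `Ω` by `s.act`
  (hypothesis = `Stage.free`).
* `exists_code_of_le`: the same, but the numbering of `s'.Ω` is chosen to extend the numbering of the
  image of `s.Ω` under the embedding `ι` of `s.Le s'` (initial segment): there is an equivalence
  `e' : Fin m' ≃ s'.Ω` with `e' (castLE x) = ι (e x)`.  The last clause of `LeC` is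
  `exists_equivariant` with `K = win fa ft s.n`, `X = s.Z`, `Ω' = s'.Ω` (`Stage.free`, `Le.ker`).
  Note that for `j < s.n` and `x < m` the rows agree: `B' (j, x) = B (j, x)` since `ι` is
  equivariant.
-/
import Pool.Agent.H45.Ent.Coded

set_option autoImplicit false

namespace Pool.Agent.H45.Ent

theorem exists_equivariant {K X Y : Type*} [Group K] [MulAction K X] [MulAction K Y]
    (h : ∀ (k : K) (x : X), k • x = x → ∀ y : Y, k • y = y) (x₀ : X) (y₀ : Y) :
    ∃ f : X → Y, (∀ (k : K) (x : X), f (k • x) = k • f x) ∧ f x₀ = y₀ := by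
  classical
  have hrep : ∃ rep : X → X, (∀ (k : K) (x : X), rep (k • x) = rep x) ∧
      (∀ x, ∃ k : K, k • rep x = x) ∧ rep x₀ = x₀ := by
    let q : X → MulAction.orbitRel.Quotient K X := fun x => Quotient.mk _ x
    have hq : ∀ (k : K) (x : X), q (k • x) = q x := by
      intro k x
      apply Quotient.sound
      exact MulAction.mem_orbit x k
    let r : MulAction.orbitRel.Quotient K X → X := fun c => if c = q x₀ then x₀ else c.out
    have hr : ∀ c, q (r c) = c := by
      intro c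
      by_cases hc : c = q x₀
      · simp only [r, hc, if_true]
      · simp only [r, hc, if_false]
        exact Quotient.out_eq c
    refine ⟨fun x => r (q x), ?_, ?_, ?_⟩
    · intro k x
      simp only [hq]
    · intro x
      have : q x = q (r (q x)) := (hr (q x)).symm
      have h2 : MulAction.orbitRel K X x (r (q x)) := Quotient.exact this
      obtain ⟨k, hk⟩ := h2
      exact ⟨k, hk⟩
    · simp [r]
  obtain ⟨rep, h1, h2, h3⟩ := hrep
  choose κ hκ using h2
  refine ⟨fun x => κ x • y₀, ?_, ?_⟩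
  · intro k x
    have hfix : ((κ (k • x))⁻¹ * (k * κ x)) • rep x = rep x := by
      rw [mul_smul, mul_smul, hκ x]
      have := hκ (k • x)
      rw [h1] at this
      rw [inv_smul_eq_iff]
      exact this.symm
    have := h _ _ hfix y₀
    rw [mul_smul, mul_smul, inv_smul_eq_iff] at this
    exact this.symm
  · have := hκ x₀
    rw [h3] at this
    exact h _ _ this y₀

namespace Stage

theorem cx_act_mem_Z (s : Stage) (w : F2) : ∀ z : s.Ω, s.act w z ∈ s.Z ↔ z ∈ s.Z := by
  have hsub : ∀ p : Equiv.Perm s.Ω, p ∈ Subgroup.closure {s.al, s.ta} →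
      ∀ z : s.Ω, p z ∈ s.Z ↔ z ∈ s.Z := by
    intro p hp
    induction hp using Subgroup.closure_induction with
    | mem x hx =>
      intro z
      rcases hx with rfl | rfl
      · exact s.al_mem z
      · exact s.ta_mem z
    | one => intro z; simp
    | mul x y _ _ hx hy =>
      intro z
      rw [Equiv.Perm.mul_apply, hx, hy]
    | inv x _ hx =>
      intro z
      have := hx (x⁻¹ z)
      have e : x (x⁻¹ z) = z := by
        rw [← Equiv.Perm.mul_apply, mul_inv_cancel, Equiv.Perm.one_apply]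
      rw [e] at this
      exact this.symm
  refine hsub _ ?_
  induction w using FreeGroup.induction_on with
  | C1 => simp
  | of i =>
    fin_cases i
    · have : s.act (FreeGroup.of 0) = s.al := homOf_fa _ _
      change s.act (FreeGroup.of 0) ∈ _
      rw [this]
      exact Subgroup.subset_closure (by simp)
    · have : s.act (FreeGroup.of 1) = s.ta := homOf_ft _ _
      change s.act (FreeGroup.of 1) ∈ _
      rw [this]
      exact Subgroup.subset_closure (by simp)
  | inv_of i hi => rw [map_inv]; exact Subgroup.inv_mem _ hi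
  | mul x y hx hy => rw [map_mul]; exact Subgroup.mul_mem _ hx hy

theorem cx_act_aj (s : Stage) (j : ℕ) : s.act (aj fa ft j) = aj s.al s.ta j := by
  unfold act
  rw [map_aj, homOf_fa, homOf_ft]

theorem cx_aj_mem_Z (s : Stage) (j : ℕ) (z : s.Ω) : aj s.al s.ta j z ∈ s.Z ↔ z ∈ s.Z := by
  rw [← cx_act_aj]
  exact s.cx_act_mem_Z _ z

end Stage

theorem cx_exists_eqv {s s' : Stage} (hker : ∀ w ∈ win fa ft s.n, s.act w = 1 → s'.act w = 1)
    {z₀ : s.Ω} (hz : z₀ ∈ s.Z) (ω₀ : s'.Ω) :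
    ∃ f : s.Ω → s'.Ω, (∀ j < s.n, ∀ x ∈ s.Z, f (aj s.al s.ta j x) = aj s'.al s'.ta j (f x)) ∧
      f z₀ = ω₀ := by
  classical
  let i1 : MulAction (win fa ft s.n) s.Z :=
    { smul := fun k x => ⟨s.act k.1 x.1, (s.cx_act_mem_Z _ _).2 x.2⟩
      one_smul := fun x => Subtype.ext (by
        change s.act (1 : F2) x.1 = x.1
        rw [map_one]; rfl)
      mul_smul := fun k l x => Subtype.ext (by
        change s.act ((k.1 : F2) * l.1) x.1 = s.act k.1 (s.act l.1 x.1)
        rw [map_mul]; rfl) }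
  let i2 : MulAction (win fa ft s.n) s'.Ω :=
    { smul := fun k x => s'.act k.1 x
      one_smul := fun x => by
        change s'.act (1 : F2) x = x
        rw [map_one]; rfl
      mul_smul := fun k l x => by
        change s'.act ((k.1 : F2) * l.1) x = s'.act k.1 (s'.act l.1 x)
        rw [map_mul]; rfl }
  have hst : ∀ (k : win fa ft s.n) (x : s.Z), k • x = x → ∀ y : s'.Ω, k • y = y := by
    intro k x hkx y
    have h1 : s.act k.1 x.1 = x.1 := congrArg Subtype.val hkx
    have h2 : s.act k.1 = 1 := s.free k.1 k.2 x.1 x.2 h1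
    have h3 := hker k.1 k.2 h2
    change s'.act k.1 y = y
    rw [h3]; rfl
  obtain ⟨g, hg1, hg2⟩ := exists_equivariant hst ⟨z₀, hz⟩ ω₀
  refine ⟨fun x => if h : x ∈ s.Z then g ⟨x, h⟩ else ω₀, ?_, ?_⟩
  · intro j hj x hx
    have hx' := (s.cx_aj_mem_Z j x).2 hx
    beta_reduce
    rw [dif_pos hx', dif_pos hx]
    have := hg1 ⟨aj fa ft j, aj_mem_win _ _ hj⟩ ⟨x, hx⟩
    change g ⟨s.act (aj fa ft j) x, _⟩ = s'.act (aj fa ft j) (g ⟨x, hx⟩) at this
    simp only [Stage.cx_act_aj] at this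
    exact this
  · beta_reduce
    rw [dif_pos hz]
    exact hg2

namespace Coded

variable {σ : SC} {s : Stage} {e : Fin σ.m ≃ s.Ω}

theorem cx_ta (h : Coded σ s e) {x : ℕ} (hx : x < σ.m) :
    dg σ.m σ.T x = (e.symm (s.ta (e ⟨x, hx⟩)) : ℕ) :=
  (h.ta ⟨x, hx⟩ (e.symm (s.ta (e ⟨x, hx⟩)))).1 (by simp)

theorem cx_row (h : Coded σ s e) {j : ℕ} (hj : j < σ.n) {x : ℕ} (hx : x < σ.m) :
    dg σ.m σ.B (j * σ.m + x) = (e.symm (aj s.al s.ta j (e ⟨x, hx⟩)) : ℕ) :=
  (h.row j hj ⟨x, hx⟩ (e.symm (aj s.al s.ta j (e ⟨x, hx⟩)))).1 (by simp)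

end Coded

/-- codes for a given numbering -/
theorem cx_code_of (s : Stage) (m : ℕ) (e : Fin m ≃ s.Ω) :
    ∃ B T Z L : ℕ, IsSt (m, s.n, B, T, Z, L) ∧ Coded (m, s.n, B, T, Z, L) s e := by
  classical
  obtain ⟨z₀, hz₀⟩ := s.Zne
  have hm : 0 < m := (Nat.zero_le _).trans_lt (e.symm z₀).2
  have hn := s.npos
  have : NeZero s.n := ⟨hn.ne'⟩
  let el : ℕ → s.Ω := fun i => e ⟨i % m, Nat.mod_lt _ hm⟩
  have el_lt : ∀ {x : ℕ} (hx : x < m), el x = e ⟨x, hx⟩ := by
    intro x hx
    simp only [el]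
    congr 2
    exact Nat.mod_eq_of_lt hx
  have el_num : ∀ ω : s.Ω, el (e.symm ω : ℕ) = ω := by
    intro ω
    rw [el_lt (e.symm ω).2]
    simp
  obtain ⟨T, -, hT⟩ := exists_dg m m (fun x => (e.symm (s.ta (el x)) : ℕ))
    (fun x _ => (e.symm _).2)
  obtain ⟨B, -, hB⟩ := exists_dg (s.n * m) m
    (fun i => (e.symm (aj s.al s.ta (i / m) (el (i % m))) : ℕ)) (fun x _ => (e.symm _).2)
  obtain ⟨Z, -, hZ⟩ := exists_dg m 2 (fun x => if el x ∈ s.Z then 1 else 0)
    (fun x _ => by split_ifs <;> norm_num)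
  obtain ⟨L, -, hL⟩ := exists_dg m s.n (fun x => (s.ph (el x)).val)
    (fun x _ => ZMod.val_lt _)
  have hB' : ∀ j < s.n, ∀ x < m,
      dg m B (j * m + x) = (e.symm (aj s.al s.ta j (el x)) : ℕ) := by
    intro j hj x hx
    have h1 : j * m + x < s.n * m := by
      calc j * m + x < j * m + m := by omega
        _ = (j + 1) * m := by ring
        _ ≤ s.n * m := Nat.mul_le_mul_right _ hj
    rw [hB _ h1]
    have h2 : (j * m + x) / m = j := by
      rw [mul_comm, Nat.mul_add_div hm, Nat.div_eq_of_lt hx, add_zero]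
    have h3 : (j * m + x) % m = x := by
      rw [mul_comm, Nat.mul_add_mod, Nat.mod_eq_of_lt hx]
    rw [h2, h3]
  have hB0 : ∀ x < m, dg m B x = (e.symm (s.al (el x)) : ℕ) := by
    intro x hx
    have := hB' 0 hn x hx
    rw [zero_mul, zero_add, aj_zero] at this
    exact this
  have hZ1 : ∀ x < m, (dg 2 Z x = 1 ↔ el x ∈ s.Z) := by
    intro x hx
    rw [hZ x hx]
    split_ifs with h
    · simp [h]
    · simp [h]
  have hZeq : ∀ x < m, ∀ y < m, (el x ∈ s.Z ↔ el y ∈ s.Z) → dg 2 Z x = dg 2 Z y := by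
    intro x hx y hy hxy
    rw [hZ x hx, hZ y hy]
    by_cases h : el x ∈ s.Z
    · rw [if_pos h, if_pos (hxy.1 h)]
    · rw [if_neg h, if_neg (fun h' => h (hxy.2 h'))]
  have hcoded : Coded (m, s.n, B, T, Z, L) s e := by
    refine ⟨rfl, ?_, ?_, ?_, ?_⟩
    · intro x y
      change _ ↔ dg m T x = y
      rw [hT x x.2, el_lt x.2]
      constructor
      · intro h
        have : s.ta (e ⟨x, x.2⟩) = e y := h
        rw [this]; simp
      · intro h
        have : e.symm (s.ta (e ⟨x, x.2⟩)) = y := Fin.ext h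
        rw [← this]; simp
    · intro j hj x y
      change _ ↔ dg m B (j * m + x) = y
      rw [hB' j hj x x.2, el_lt x.2]
      constructor
      · intro h
        have : aj s.al s.ta j (e ⟨x, x.2⟩) = e y := h
        rw [this]; simp
      · intro h
        have : e.symm (aj s.al s.ta j (e ⟨x, x.2⟩)) = y := Fin.ext h
        rw [← this]; simp
    · intro x
      change _ ↔ dg 2 Z x = 1
      rw [hZ1 x x.2, el_lt x.2]
    · intro x _
      change _ = ((dg s.n L x : ℕ) : ZMod s.n)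
      rw [hL x x.2, el_lt x.2, ZMod.natCast_zmod_val]
  refine ⟨B, T, Z, L, ?_, hcoded⟩
  refine ⟨hn, hm, ⟨(e.symm z₀ : ℕ), (e.symm z₀).2, ?_⟩, ?_, ?_, ?_, ?_, ?_, ?_⟩
  · change dg 2 Z _ = 1
    rw [hZ1 _ (e.symm z₀).2, el_num]
    exact hz₀
  · intro x hx y hy h
    change dg m T x = dg m T y at h
    rw [hT x hx, hT y hy, el_lt hx, el_lt hy] at h
    have h1 := e.injective (s.ta.injective (e.symm.injective (Fin.ext h)))
    exact congrArg Fin.val h1
  · intro x hx y hy h
    change dg m B x = dg m B y at h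
    rw [hB0 x hx, hB0 y hy, el_lt hx, el_lt hy] at h
    have h1 := e.injective (s.al.injective (e.symm.injective (Fin.ext h)))
    exact congrArg Fin.val h1
  · intro j hj x hx hj1
    change dg m B ((j + 1) * m + dg m T x) = dg m T (dg m B (j * m + x))
    have e1 : dg m T x < m := by rw [hT x hx]; exact (e.symm _).2
    have e2 : dg m B (j * m + x) < m := by rw [hB' j hj x hx]; exact (e.symm _).2
    rw [hB' (j + 1) hj1 _ e1, hT _ e2, hT x hx, hB' j hj x hx, el_num, el_num]
    have : aj s.al s.ta (j + 1) (s.ta (el x)) = s.ta (aj s.al s.ta j (el x)) := by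
      have : aj s.al s.ta (j + 1) = s.ta * aj s.al s.ta j * s.ta⁻¹ := by
        unfold aj
        rw [pow_succ']
        group
      rw [this]
      simp
    rw [this]
  · intro x hx
    change dg 2 Z (dg m T x) = dg 2 Z x ∧ dg 2 Z (dg m B x) = dg 2 Z x
    have e1 : dg m T x < m := by rw [hT x hx]; exact (e.symm _).2
    have e2 : dg m B x < m := by rw [hB0 x hx]; exact (e.symm _).2
    refine ⟨hZeq _ e1 _ hx ?_, hZeq _ e2 _ hx ?_⟩
    · rw [hT x hx, el_num]
      exact s.ta_mem _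
    · rw [hB0 x hx, el_num]
      exact s.al_mem _
  · intro x hx hxZ
    change dg 2 Z x = 1 at hxZ
    rw [hZ1 x hx] at hxZ
    change dg s.n L (dg m B x) = dg s.n L x ∧ dg s.n L (dg m T x) = (dg s.n L x + 1) % s.n
    have e1 : dg m T x < m := by rw [hT x hx]; exact (e.symm _).2
    have e2 : dg m B x < m := by rw [hB0 x hx]; exact (e.symm _).2
    constructor
    · rw [hL _ e2, hL x hx, hB0 x hx, el_num, s.ph_al _ hxZ]
    · rw [hL _ e1, hL x hx, hT x hx, el_num, s.ph_ta _ hxZ, ZMod.val_add,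
        ZMod.val_one_eq_one_mod, Nat.add_mod_mod]
  · intro z hz hzZ ω hω
    change dg 2 Z z = 1 at hzZ
    rw [hZ1 z hz] at hzZ
    obtain ⟨f, hf1, hf2⟩ := cx_exists_eqv (s := s) (s' := s) (fun _ _ h => h) hzZ (el ω)
    obtain ⟨p, hp, hpd⟩ := exists_dg m m (fun x => (e.symm (f (el x)) : ℕ))
      (fun x _ => (e.symm _).2)
    refine ⟨p, hp, ?_, ?_⟩
    · intro j hj x hx hxZ
      change dg 2 Z x = 1 at hxZ
      rw [hZ1 x hx] at hxZ
      change dg m p (dg m B (j * m + x)) = dg m B (j * m + dg m p x)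
      have e1 : dg m p x < m := by rw [hpd x hx]; exact (e.symm _).2
      have e2 : dg m B (j * m + x) < m := by rw [hB' j hj x hx]; exact (e.symm _).2
      rw [hpd _ e2, hB' j hj _ e1, hB' j hj x hx, hpd x hx, el_num, el_num, hf1 j hj _ hxZ]
    · change dg m p z = ω
      rw [hpd z hz, hf2, el_lt hω]
      simp

theorem exists_code (s : Stage) : ∃ (σ : SC) (e : Fin σ.m ≃ s.Ω), IsSt σ ∧ Coded σ s e := by
  let e : Fin (Nat.card s.Ω) ≃ s.Ω := (Finite.equivFin s.Ω).symm
  obtain ⟨B, T, Z, L, h1, h2⟩ := cx_code_of s _ e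
  exact ⟨(Nat.card s.Ω, s.n, B, T, Z, L), e, h1, h2⟩

/-- a numbering which extends a given injection on an initial segment -/
theorem cx_exists_numbering {Ω : Type} [Finite Ω] {m : ℕ} (j : Fin m → Ω)
    (hj : Function.Injective j) :
    ∃ (m' : ℕ) (h : m ≤ m') (e : Fin m' ≃ Ω), ∀ x : Fin m, e (Fin.castLE h x) = j x := by
  classical
  have := Fintype.ofFinite Ω
  have hcard : m ≤ Fintype.card Ω := by
    have := Fintype.card_le_of_injective j hj
    rwa [Fintype.card_fin] at this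
  let e0 : Fin (Fintype.card Ω) ≃ Ω := (Fintype.equivFin Ω).symm
  let j' : Fin m → Fin (Fintype.card Ω) := fun x => e0.symm (j x)
  have hj' : Function.Injective j' := fun a b h => hj (e0.symm.injective h)
  have hc : Function.Injective (Fin.castLE hcard) := Fin.castLE_injective hcard
  let E : {x // x ∈ Set.range (Fin.castLE hcard)} ≃ {x // x ∈ Set.range j'} :=
    (Equiv.ofInjective _ hc).symm.trans (Equiv.ofInjective _ hj')
  refine ⟨Fintype.card Ω, hcard, (Equiv.extendSubtype E).trans e0, ?_⟩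
  intro x
  have hx : Fin.castLE hcard x ∈ Set.range (Fin.castLE hcard) := ⟨x, rfl⟩
  rw [Equiv.trans_apply, Equiv.extendSubtype_apply_of_mem E _ hx]
  have h1 : (Equiv.ofInjective _ hc).symm ⟨Fin.castLE hcard x, hx⟩ = x := by
    rw [Equiv.symm_apply_eq]
    rfl
  simp only [E, Equiv.trans_apply, h1]
  change e0 (j' x) = j x
  simp [j']

theorem exists_code_of_le {σ : SC} {s s' : Stage} {e : Fin σ.m ≃ s.Ω} (h : Coded σ s e)
    (hle : s.Le s') :
    ∃ (σ' : SC) (e' : Fin σ'.m ≃ s'.Ω), IsSt σ' ∧ LeC σ σ' ∧ Coded σ' s' e' := by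
  obtain ⟨hn, ⟨ι, hι1, hι2⟩, hker⟩ := hle
  obtain ⟨m', hm, e', he'⟩ := cx_exists_numbering (fun x => ι (e x))
    (fun a b hab => e.injective (ι.injective hab))
  obtain ⟨B', T', Z', L', hst, hc⟩ := cx_code_of s' m' e'
  refine ⟨(m', s'.n, B', T', Z', L'), e', hst, ?_, hc⟩
  have hnn : s.n = σ.n := h.n_eq
  have hιj : ∀ (j : ℕ) (x : s.Ω), ι (aj s.al s.ta j x) = aj s'.al s'.ta j (ι x) := by
    intro j x
    have := Stage.emb_act s.al s.ta s'.al s'.ta ι hι1 hι2 (aj fa ft j) x
    rw [map_aj, map_aj, homOf_fa, homOf_ft, homOf_fa, homOf_ft] at this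
    exact this
  have he'' : ∀ {x : ℕ} (hx : x < σ.m) (hx' : x < m'), e' ⟨x, hx'⟩ = ι (e ⟨x, hx⟩) :=
    fun hx _ => he' ⟨_, hx⟩
  have hsymm : ∀ ω : s.Ω, (e'.symm (ι ω) : ℕ) = (e.symm ω : ℕ) := by
    intro ω
    have h1 := he' (e.symm ω)
    rw [Equiv.apply_symm_apply] at h1
    rw [← h1, Equiv.symm_apply_apply]
    rfl
  refine ⟨?_, hm, ?_, ?_⟩
  · change σ.n ≤ s'.n
    rw [← hnn]; exact hn
  · intro x hx
    have hx' : x < m' := lt_of_lt_of_le hx hm
    have hn0 : 0 < σ.n := by rw [← hnn]; exact s.npos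
    constructor
    · rw [hc.cx_ta hx', h.cx_ta hx]
      change ((e'.symm (s'.ta (e' ⟨x, hx'⟩)) : Fin m') : ℕ) = _
      rw [he'' hx hx', ← hι2, hsymm]
    · have r1 := hc.cx_row (j := 0) s'.npos hx'
      have r2 := h.cx_row (j := 0) hn0 hx
      rw [zero_mul, zero_add, aj_zero] at r1 r2
      rw [r1, r2]
      change ((e'.symm (s'.al (e' ⟨x, hx'⟩)) : Fin m') : ℕ) = _
      rw [he'' hx hx', ← hι1, hsymm]
  · intro z hz hzZ ω hω
    change ω < m' at hω
    have hzZ' : e ⟨z, hz⟩ ∈ s.Z := (h.Z ⟨z, hz⟩).2 hzZ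
    obtain ⟨f, hf1, hf2⟩ := cx_exists_eqv hker hzZ' (e' ⟨ω, hω⟩)
    have hmpos : 0 < σ.m := (Nat.zero_le _).trans_lt hz
    let el : ℕ → s.Ω := fun i => e ⟨i % σ.m, Nat.mod_lt _ hmpos⟩
    have el_lt : ∀ {x : ℕ} (hx : x < σ.m), el x = e ⟨x, hx⟩ := by
      intro x hx
      simp only [el]
      congr 2
      exact Nat.mod_eq_of_lt hx
    obtain ⟨p, hp, hpd⟩ := exists_dg σ.m m' (fun x => (e'.symm (f (el x)) : ℕ))
      (fun x _ => (e'.symm _).2)
    refine ⟨p, hp, ?_, ?_⟩
    · intro j hj x hx hxZ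
      change dg m' p (dg σ.m σ.B (j * σ.m + x)) = dg m' B' (j * m' + dg m' p x)
      have hxZ' : e ⟨x, hx⟩ ∈ s.Z := (h.Z ⟨x, hx⟩).2 hxZ
      have e1 : dg m' p x < m' := by rw [hpd x hx]; exact (e'.symm _).2
      have e2 : dg σ.m σ.B (j * σ.m + x) < σ.m := by rw [h.cx_row hj hx]; exact (e.symm _).2
      have hj' : j < s.n := by rw [hnn]; exact hj
      have r1 := hc.cx_row (j := j) (lt_of_lt_of_le hj' hn) e1
      change dg m' B' (j * m' + dg m' p x) =
        ((e'.symm (aj s'.al s'.ta j (e' ⟨dg m' p x, e1⟩)) : Fin m') : ℕ) at r1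
      rw [r1, hpd _ e2]
      have h3 : e' ⟨dg m' p x, e1⟩ = f (e ⟨x, hx⟩) := by
        rw [← Equiv.eq_symm_apply]
        apply Fin.ext
        change dg m' p x = _
        rw [hpd x hx, el_lt hx]
      have h4 : el (dg σ.m σ.B (j * σ.m + x)) = aj s.al s.ta j (e ⟨x, hx⟩) := by
        rw [el_lt e2, ← Equiv.eq_symm_apply]
        apply Fin.ext
        exact h.cx_row hj hx
      rw [h3, h4, hf1 j hj' _ hxZ']
    · change dg m' p z = ω
      rw [hpd z hz, el_lt hz, hf2]
      simp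

end Pool.Agent.H45.Ent
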