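/-
The cover tower of a tower.  MP_f39e07_an, owner helper45.

`Cov T` = semidirect product of `T.G` with the functions `T.G → ZMod 2`:
`(g, v) (g', v') = (g g', v(· g'⁻¹) + v')`.  `ca = (a, 0)`, `ct n = (t, 1_{A(n-1)})`.
The cover tower `covTower T n` is the subgroup generated by `ca`, `ct n`.

PROOFS.
* `cov_aj`: `ct^j = (t^j, ∑_{i<j} 1_{A(n-1) t^i ...})`; best: by induction on `j < n`,
  `aj ca ct j = (aj a t j, 0)`: `aj (j+1) = ct (x, 0) ct⁻¹` with `x = aj a t j ∈ A(n-1)` when
  `j + 1 < n`, and `ct (x,0) ct⁻¹ = (t x t⁻¹, (e(· x⁻¹) + e)(· t))`, where `e = 1_{A(n-1)}` satisfies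
  `e(· x⁻¹) = e` for `x ∈ A(n-1)`; so the second component is `e + e = 0`.
* windows finite: the elements `x = (x.g, x.v)` of `Cov T` with finite support of `x.v` form a
  subgroup containing `ca`, `ct n` (`A(n-1)` is finite), so `aj ca ct j = (x_j, ω_j)`, `j < m`, with
  `x_j ∈ A(m)` and `ω_j` of finite support.  `S = {y : T.G | ∃ j < m, ∃ h ∈ A(m), ω_j (y h) ≠ 0}` is
  finite and right invariant under `A(m)`, and `{(h, v) | h ∈ A(m), supp v ⊆ S}` is a finite
  subgroup containing the window.
* `cov_fits`: words of window `n = s.n` are mapped to `(φ w, 0)`; a word trivial in the cover tower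
  is trivial in `T`.  `cov_nonstable`: project to `T`.
-/
import Pool.Agent.H45.Ent.Win
import Pool.Agent.H45.Ent.Glue

set_option autoImplicit false

namespace Pool.Agent.H45.Ent

@[ext] structure Cov (T : Tower) where
  g : T.G
  v : T.G → ZMod 2

namespace Cov

variable {T : Tower}

instance : Mul (Cov T) := ⟨fun x y => ⟨x.g * y.g, fun z => x.v (z * y.g⁻¹) + y.v z⟩⟩
instance : One (Cov T) := ⟨⟨1, fun _ => 0⟩⟩
instance : Inv (Cov T) := ⟨fun x => ⟨x.g⁻¹, fun z => x.v (z * x.g)⟩⟩

@[simp] theorem mul_g (x y : Cov T) : (x * y).g = x.g * y.g := rfl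
@[simp] theorem mul_v (x y : Cov T) (z : T.G) : (x * y).v z = x.v (z * y.g⁻¹) + y.v z := rfl
@[simp] theorem one_g : (1 : Cov T).g = 1 := rfl
@[simp] theorem one_v (z : T.G) : (1 : Cov T).v z = 0 := rfl
@[simp] theorem inv_g (x : Cov T) : (x⁻¹).g = x.g⁻¹ := rfl
@[simp] theorem inv_v (x : Cov T) (z : T.G) : (x⁻¹).v z = x.v (z * x.g) := rfl

instance : Group (Cov T) :=
  Group.ofLeftAxioms
    (by
      intro x y z
      ext u
      · simp [mul_assoc]
      · simp [mul_assoc, add_assoc])
    (by
      intro x
      ext u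
      · simp
      · simp)
    (by
      intro x
      ext u
      · simp
      · have h2 : ∀ c : ZMod 2, c + c = 0 := by decide
        simp [h2])

/-- the projection to `T.G` -/
def proj : Cov T →* T.G where
  toFun := Cov.g
  map_one' := rfl
  map_mul' _ _ := rfl

variable (T)

/-- the lift of `a` -/
def ca : Cov T := ⟨T.a, fun _ => 0⟩

open Classical in
/-- the lift of `t`: voltage the indicator function of `A(n-1)` -/
noncomputable def ct (n : ℕ) : Cov T := ⟨T.t, fun z => if z ∈ T.A (n - 1) then 1 else 0⟩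

end Cov

private theorem cov_ct_v (T : Tower) (n : ℕ) (z : T.G) [Decidable (z ∈ T.A (n - 1))] :
    (Cov.ct T n).v z = if z ∈ T.A (n - 1) then 1 else 0 := by
  unfold Cov.ct
  simp only
  congr

private theorem cov_aj (T : Tower) {n : ℕ} (j : ℕ) (hj : j < n) :
    aj (Cov.ca T) (Cov.ct T n) j = ⟨aj T.a T.t j, fun _ => 0⟩ := by
  classical
  induction j with
  | zero => rw [aj_zero, aj_zero]; rfl
  | succ j ih =>
    have h1 := aj_conj (Cov.ca T) (Cov.ct T n) 1 j
    have h2 := aj_conj T.a T.t 1 j
    rw [pow_one, add_comm] at h1 h2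
    rw [← h1, ← h2, ih (by omega)]
    have hx : aj T.a T.t j ∈ T.A (n - 1) := aj_mem_win _ _ (by omega)
    ext z
    · rfl
    · show (Cov.ct T n).v (z * (T.t⁻¹)⁻¹ * (aj T.a T.t j)⁻¹) + 0 + (Cov.ct T n).v (z * T.t) = 0
      rw [inv_inv, cov_ct_v, cov_ct_v]
      have h3 : z * T.t * (aj T.a T.t j)⁻¹ ∈ T.A (n - 1) ↔ z * T.t ∈ T.A (n - 1) :=
        Subgroup.mul_mem_cancel_right _ (Subgroup.inv_mem _ hx)
      simp only [h3, add_zero]
      have h4 : ∀ c : ZMod 2, c + c = 0 := by decide
      exact h4 _

/-- words of the window `n` are not twisted -/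
theorem cov_word (T : Tower) {n : ℕ} (hn : 0 < n) {w : F2} (hw : w ∈ win fa ft n) :
    homOf (Cov.ca T) (Cov.ct T n) w = ⟨T.φ w, fun _ => 0⟩ := by
  induction hw using Subgroup.closure_induction with
  | mem x hx =>
    obtain ⟨j, hj, rfl⟩ := hx
    rw [map_aj, map_aj, homOf_fa, homOf_ft, T.φ_fa, T.φ_ft, cov_aj T j hj]
  | one => rw [map_one, map_one]; rfl
  | mul x y _ _ hx hy =>
    rw [map_mul, map_mul, hx, hy]
    ext z
    · rfl
    · simp
  | inv x _ hx =>
    rw [map_inv, map_inv, hx]
    ext z
    · rfl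
    · simp

/-- elements with finite voltage -/
private def covFs (T : Tower) : Subgroup (Cov T) where
  carrier := {x | (Function.support x.v).Finite}
  mul_mem' := by
    intro x y hx hy
    have h1 : Function.support (x * y).v ⊆
        (fun z => z * y.g) '' Function.support x.v ∪ Function.support y.v := by
      intro z hz
      rw [Function.mem_support, Cov.mul_v] at hz
      by_cases h : y.v z = 0
      · left
        refine ⟨z * y.g⁻¹, ?_, by simp⟩
        rw [Function.mem_support]
        intro h'
        rw [h, h'] at hz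
        exact hz (by simp)
      · right; exact h
    exact ((hx.image _).union hy).subset h1
  one_mem' := by
    show (Function.support (1 : Cov T).v).Finite
    have : Function.support (1 : Cov T).v = ∅ := by
      ext z; simp
    rw [this]; exact Set.finite_empty
  inv_mem' := by
    intro x hx
    have h1 : Function.support (x⁻¹).v ⊆ (fun z => z * x.g⁻¹) '' Function.support x.v := by
      intro z hz
      rw [Function.mem_support, Cov.inv_v] at hz
      exact ⟨z * x.g, hz, by simp⟩
    exact (hx.image _).subset h1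

private theorem cov_aj_fs (T : Tower) (n j : ℕ) : aj (Cov.ca T) (Cov.ct T n) j ∈ covFs T := by
  classical
  have h1 : Cov.ca T ∈ covFs T := by
    show (Function.support (Cov.ca T).v).Finite
    have : Function.support (Cov.ca T).v = ∅ := by
      ext z; simp [Cov.ca]
    rw [this]; exact Set.finite_empty
  have h2 : Cov.ct T n ∈ covFs T := by
    show (Function.support (Cov.ct T n).v).Finite
    refine (Set.finite_coe_iff.1 (T.fin (n - 1))).subset fun z hz => ?_
    rw [Function.mem_support, cov_ct_v] at hz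
    by_contra h
    have h' : z ∉ T.A (n - 1) := h
    rw [if_neg h'] at hz
    exact hz rfl
  unfold aj
  exact Subgroup.mul_mem _ (Subgroup.mul_mem _ (Subgroup.pow_mem _ h2 _) h1)
    (Subgroup.inv_mem _ (Subgroup.pow_mem _ h2 _))

private theorem cov_aj_g (T : Tower) (n j : ℕ) :
    (aj (Cov.ca T) (Cov.ct T n) j).g = aj T.a T.t j := by
  have := map_aj (Cov.ca T) (Cov.ct T n) (Cov.proj (T := T)) j
  exact this

theorem cov_win_finite (T : Tower) (n m : ℕ) : Finite (win (Cov.ca T) (Cov.ct T n) m) := by
  classical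
  set ω : ℕ → T.G → ZMod 2 := fun j => (aj (Cov.ca T) (Cov.ct T n) j).v with hω
  set S : Set T.G := {y | ∃ j < m, ∃ h ∈ T.A m, ω j (y * h) ≠ 0} with hS
  have hSfin : S.Finite := by
    have h1 : (⋃ j ∈ Set.Iio m, ⋃ h ∈ (T.A m : Set T.G),
        (fun z => z * h⁻¹) '' Function.support (ω j)).Finite := by
      refine Set.Finite.biUnion (Set.finite_Iio m) fun j _ => ?_
      refine Set.Finite.biUnion (Set.finite_coe_iff.1 (T.fin m)) fun h _ => ?_
      exact Set.Finite.image _ (cov_aj_fs T n j)
    refine h1.subset ?_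
    rintro y ⟨j, hj, h, hh, hne⟩
    simp only [Set.mem_iUnion]
    exact ⟨j, hj, h, hh, y * h, hne, by simp⟩
  have hSinv : ∀ y k, k ∈ T.A m → y ∈ S → y * k ∈ S := by
    rintro y k hk ⟨j, hj, h, hh, hne⟩
    refine ⟨j, hj, k⁻¹ * h, Subgroup.mul_mem _ (Subgroup.inv_mem _ hk) hh, ?_⟩
    rw [show y * k * (k⁻¹ * h) = y * h by group]
    exact hne
  let B : Subgroup (Cov T) :=
    { carrier := {x | x.g ∈ T.A m ∧ ∀ z ∉ S, x.v z = 0}
      mul_mem' := by
        rintro x y ⟨hx, hx'⟩ ⟨hy, hy'⟩
        refine ⟨Subgroup.mul_mem _ hx hy, fun z hz => ?_⟩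
        have h1 : z * y.g⁻¹ ∉ S := by
          intro h
          have := hSinv _ _ hy h
          rw [inv_mul_cancel_right] at this
          exact hz this
        rw [Cov.mul_v, hx' _ h1, hy' _ hz, add_zero]
      one_mem' := ⟨Subgroup.one_mem _, fun z _ => rfl⟩
      inv_mem' := by
        rintro x ⟨hx, hx'⟩
        refine ⟨Subgroup.inv_mem _ hx, fun z hz => ?_⟩
        have h1 : z * x.g ∉ S := by
          intro h
          have := hSinv _ _ (Subgroup.inv_mem _ hx) h
          rw [mul_inv_cancel_right] at this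
          exact hz this
        rw [Cov.inv_v, hx' _ h1] }
  have hB : win (Cov.ca T) (Cov.ct T n) m ≤ B := by
    unfold win
    rw [Subgroup.closure_le]
    rintro _ ⟨j, hj, rfl⟩
    refine ⟨?_, fun z hz => ?_⟩
    · rw [cov_aj_g]
      exact aj_mem_win _ _ hj
    · by_contra hne
      exact hz ⟨j, hj, 1, Subgroup.one_mem _, by rw [mul_one]; exact hne⟩
  have hBfin : Finite B := by
    have : Finite S := Set.finite_coe_iff.2 hSfin
    let f : B → (T.A m) × (S → ZMod 2) := fun x => (⟨x.1.g, x.2.1⟩, fun z => x.1.v z)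
    apply Finite.of_injective f
    intro x y hxy
    simp only [f, Prod.mk.injEq, Subtype.mk.injEq] at hxy
    apply Subtype.ext
    ext z
    · exact hxy.1
    · by_cases hz : z ∈ S
      · exact congrFun hxy.2 ⟨z, hz⟩
      · rw [x.2.2 z hz, y.2.2 z hz]
  exact Finite.of_injective (Subgroup.inclusion hB) (Subgroup.inclusion_injective hB)

theorem exists_covTower (T : Tower) {n : ℕ} (hn : 0 < n) :
    ∃ (T' : Tower) (j : T'.G →* Cov T), Function.Injective j ∧ j T'.a = Cov.ca T ∧
      j T'.t = Cov.ct T n ∧ (T.Nonstable → T'.Nonstable) ∧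
      ∀ s : Stage, s.n = n → Fits T s → Fits T' s := by
  set X : Set (Cov T) := {Cov.ca T, Cov.ct T n} with hX
  have hca : Cov.ca T ∈ Subgroup.closure X := Subgroup.subset_closure (by rw [hX]; left; rfl)
  have hct : Cov.ct T n ∈ Subgroup.closure X := Subgroup.subset_closure (by rw [hX]; right; rfl)
  let a' : Subgroup.closure X := ⟨Cov.ca T, hca⟩
  let t' : Subgroup.closure X := ⟨Cov.ct T n, hct⟩
  let T' : Tower :=
    { G := Subgroup.closure X
      a := a'
      t := t'
      lev := T.lev.comp (Cov.proj.comp (Subgroup.closure X).subtype)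
      lev_a := T.lev_a
      lev_t := T.lev_t
      gen := by
        rw [← Subgroup.closure_closure_coe_preimage (k := X)]
        congr 1
        ext x
        rw [Set.mem_preimage]
        constructor
        · rintro (rfl | rfl)
          · show Cov.ca T ∈ X
            rw [hX]; left; rfl
          · show Cov.ct T n ∈ X
            rw [hX]; right; rfl
        · intro h
          have h' : (x : Cov T) = Cov.ca T ∨ (x : Cov T) = Cov.ct T n := h
          rcases h' with h' | h'
          · left; exact Subtype.ext h'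
          · right; exact Subtype.ext h'
      fin := fun m => by
        have hfin := cov_win_finite T n m
        have hmem : ∀ x : win a' t' m, (x.1 : Cov T) ∈ win (Cov.ca T) (Cov.ct T n) m := by
          intro x
          have := map_mem_win a' t' (Subgroup.closure X).subtype x.2
          exact this
        refine Finite.of_injective (fun x : win a' t' m =>
          (⟨(x.1 : Cov T), hmem x⟩ : win (Cov.ca T) (Cov.ct T n) m)) ?_
        intro x y hxy
        have := congrArg Subtype.val hxy
        exact Subtype.ext (Subtype.ext this) }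
  have hφ : ∀ w : F2, (Subgroup.closure X).subtype (T'.φ w) = homOf (Cov.ca T) (Cov.ct T n) w :=
    fun w => map_homOf (Subgroup.closure X).subtype a' t' w
  have hproj : ∀ w : F2, Cov.proj (homOf (Cov.ca T) (Cov.ct T n) w) = T.φ w :=
    fun w => map_homOf Cov.proj (Cov.ca T) (Cov.ct T n) w
  refine ⟨T', (Subgroup.closure X).subtype, Subtype.val_injective, rfl, rfl, ?_, ?_⟩
  · intro hT m hmem
    apply hT m
    have h1 := map_mem_win a' t' (Cov.proj.comp (Subgroup.closure X).subtype) hmem
    have h2 := map_aj a' t' (Cov.proj.comp (Subgroup.closure X).subtype) m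
    rw [h2] at h1
    exact h1
  · intro s hs hfit
    refine ⟨fun w hw => hfit.triv w ?_, fun w hw h1 => ?_⟩
    · have h1 := hφ w
      rw [hw, map_one] at h1
      rw [← hproj w, ← h1, map_one]
    · apply Subtype.val_injective
      have h2 := hφ w
      rw [hs] at hw
      rw [cov_word T hn hw, hfit.inj w (by rw [hs]; exact hw) h1] at h2
      exact h2

end Pool.Agent.H45.Ent
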