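/-
The 2-cover inequality for independent sets in bipartite graphs with identifications.
MP_f39e07_an, owner helper45.

A `Bip B` is a set of sites `B` with equality edges `E`, exclusion edges `X` and a parity, equal
along `E`-edges and different along `X`-edges.  `Bip.ind` = admissible 0/1 labelings.
For a voltage `ν : B → V` (`V` an additive group; the edge from `b` has voltage `ν b`) the cover
lives on `B × V`: `E`-edges do not change the sheet, `X`-edge `b → b'` goes from `(b,v)` to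
`(b', v + ν b)`.

PROOF of `two_cover`.  For an admissible `x` on `B × ZMod 2` put `D = {b | x (b,0) ≠ x (b,1)}`;
`D` is saturated under `E`.  For `b ∈ D` let `ε b` be the sheet with `x (b, ε b) = true`.  Along
`E`-edges in `D`: `ε` constant.  Along an `X`-edge `b → b'` with both ends in `D`:
`ε b' ≠ ε b + ν b`, so `ε b' = ε b + ν b + 1`.  Hence `σ = ε + par` is a potential on `D`:
`σ b' = σ b` along `E`, `σ b' = σ b + ν b` along `X`; so `D` is balanced.  For every balanced set
`D` fix a potential `σ_D` (by choice, depending only on `D`).  The map `x ↦ (x₀,x₁)`,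
`x_i b = x (b, i + σ_D b)` for `b ∈ D`, `x_i b = x (b, 0) = x (b,1)` for `b ∉ D` is injective
(`D = {x₀ ≠ x₁}` and `σ_D` can be recovered) and `x₀, x₁` are admissible on `B`: for an `X`-edge
`b → b'` and both ends in `D`, `x_i b' = x (b', (i + σ_D b) + ν b)` is adjacent to
`(b, i + σ_D b)`; if one end is not in `D` its value does not depend on the sheet.

-/
import Mathlib

set_option autoImplicit false

namespace Pool.Agent.H45.Ent

structure Bip (B : Type*) where
  E : B → B → Prop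
  X : B → B → Prop
  par : B → ZMod 2
  hE : ∀ b b', E b b' → par b = par b'
  hX : ∀ b b', X b b' → par b' = par b + 1

namespace Bip

variable {B : Type*}

/-- admissible labelings -/
def indSet (𝔅 : Bip B) : Set (B → Bool) :=
  {x | (∀ b b', 𝔅.E b b' → x b = x b') ∧ ∀ b b', 𝔅.X b b' → ¬ (x b = true ∧ x b' = true)}

noncomputable def ind (𝔅 : Bip B) : ℕ := 𝔅.indSet.ncard

/-- the cover with voltage `ν` in the additive group `V` -/
def cover {V : Type*} [AddCommGroup V] (𝔅 : Bip B) (ν : B → V) : Bip (B × V) where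
  E := fun p q => 𝔅.E p.1 q.1 ∧ q.2 = p.2
  X := fun p q => 𝔅.X p.1 q.1 ∧ q.2 = p.2 + ν p.1
  par := fun p => 𝔅.par p.1
  hE := fun p q h => 𝔅.hE _ _ h.1
  hX := fun p q h => 𝔅.hX _ _ h.1

/-- `D` is balanced for the voltage `ν : B → ZMod 2` -/
def Balanced (𝔅 : Bip B) (ν : B → ZMod 2) (D : Set B) : Prop :=
  ∃ σ : B → ZMod 2, (∀ b ∈ D, ∀ b' ∈ D, 𝔅.E b b' → σ b' = σ b) ∧
    ∀ b ∈ D, ∀ b' ∈ D, 𝔅.X b b' → σ b' = σ b + ν b

/-- the pairs of admissible labelings whose difference set is balanced -/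
def balPairs (𝔅 : Bip B) (ν : B → ZMod 2) : Set ((B → Bool) × (B → Bool)) :=
  {p | p.1 ∈ 𝔅.indSet ∧ p.2 ∈ 𝔅.indSet ∧ 𝔅.Balanced ν {b | p.1 b ≠ p.2 b}}

section TwoCoverAux

private lemma z2_cases (a : ZMod 2) : a = 0 ∨ a = 1 := by
  revert a; decide

private lemma z2_eq_add_one {a b : ZMod 2} (h : a ≠ b) : a = b + 1 := by
  rcases z2_cases a with rfl | rfl <;> rcases z2_cases b with rfl | rfl <;>
    first
    | exact absurd rfl h
    | decide

private lemma z2_two (a : ZMod 2) : a + a = 0 := by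
  rcases z2_cases a with rfl | rfl <;> decide

/-- difference set of a labeling of the 2-cover -/
private def dset (x : B × ZMod 2 → Bool) : Set B := {b | x (b, 0) ≠ x (b, 1)}

private lemma mem_dset_iff {x : B × ZMod 2 → Bool} {b : B} {j k : ZMod 2} (hjk : j ≠ k) :
    b ∈ dset x ↔ x (b, j) ≠ x (b, k) := by
  unfold dset
  rcases z2_cases j with rfl | rfl <;> rcases z2_cases k with rfl | rfl
  · exact absurd rfl hjk
  · exact Iff.rfl
  · simp only [Set.mem_ofPred_eq]
    exact ne_comm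
  · exact absurd rfl hjk

private lemma eq_of_not_mem_dset {x : B × ZMod 2 → Bool} {b : B} (h : b ∉ dset x)
    (j k : ZMod 2) : x (b, j) = x (b, k) := by
  by_cases hjk : j = k
  · rw [hjk]
  · by_contra hne
    exact h ((mem_dset_iff hjk).2 hne)

/-- the sheet where `x` is true -/
private def eps (x : B × ZMod 2 → Bool) (b : B) : ZMod 2 := if x (b, 0) = true then 0 else 1

private lemma eps_true {x : B × ZMod 2 → Bool} {b : B} (h : b ∈ dset x) :
    x (b, eps x b) = true := by
  unfold eps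
  unfold dset at h
  simp only [Set.mem_ofPred_eq] at h
  split_ifs with h0
  · exact h0
  · cases h1 : x (b, 1)
    · rw [h1] at h
      simp only [Bool.not_eq_true] at h0
      exact absurd h0 h
    · rfl

private lemma eps_unique {x : B × ZMod 2 → Bool} {b : B} (h : b ∈ dset x) {j : ZMod 2}
    (hj : x (b, j) = true) : j = eps x b := by
  by_contra hne
  exact ((mem_dset_iff hne).1 h) (by rw [hj, eps_true h])

private lemma dset_balanced {𝔅 : Bip B} {ν : B → ZMod 2} {x : B × ZMod 2 → Bool}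
    (hx : x ∈ (𝔅.cover ν).indSet) : 𝔅.Balanced ν (dset x) := by
  refine ⟨fun b => eps x b + 𝔅.par b, ?_, ?_⟩
  · intro b hb b' hb' hE
    have h1 : x (b, eps x b) = x (b', eps x b) := hx.1 (b, eps x b) (b', eps x b) ⟨hE, rfl⟩
    rw [eps_true hb] at h1
    have h2 := eps_unique hb' h1.symm
    show eps x b' + 𝔅.par b' = eps x b + 𝔅.par b
    rw [← h2, 𝔅.hE _ _ hE]
  · intro b hb b' hb' hX
    have h1 : ¬ (x (b, eps x b) = true ∧ x (b', eps x b + ν b) = true) :=
      hx.2 (b, eps x b) (b', eps x b + ν b) ⟨hX, rfl⟩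
    have h2 : eps x b' ≠ eps x b + ν b := by
      intro h
      exact h1 ⟨eps_true hb, by rw [← h]; exact eps_true hb'⟩
    have h3 := z2_eq_add_one h2
    show eps x b' + 𝔅.par b' = eps x b + 𝔅.par b + ν b
    rw [h3, 𝔅.hX _ _ hX]
    have := z2_two (1 : ZMod 2)
    linear_combination this

open Classical in
/-- the chosen potential of a balanced set -/
private noncomputable def pot (𝔅 : Bip B) (ν : B → ZMod 2) (D : Set B) : B → ZMod 2 :=
  if h : 𝔅.Balanced ν D then h.choose else 0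

private lemma pot_spec {𝔅 : Bip B} {ν : B → ZMod 2} {D : Set B} (h : 𝔅.Balanced ν D) :
    (∀ b ∈ D, ∀ b' ∈ D, 𝔅.E b b' → pot 𝔅 ν D b' = pot 𝔅 ν D b) ∧
      ∀ b ∈ D, ∀ b' ∈ D, 𝔅.X b b' → pot 𝔅 ν D b' = pot 𝔅 ν D b + ν b := by
  unfold pot
  rw [dif_pos h]
  exact h.choose_spec

open Classical in
private noncomputable def lay (𝔅 : Bip B) (ν : B → ZMod 2) (x : B × ZMod 2 → Bool)
    (i : ZMod 2) (b : B) : Bool :=
  if b ∈ dset x then x (b, i + pot 𝔅 ν (dset x) b) else x (b, 0)

private lemma lay_mem {𝔅 : Bip B} {ν : B → ZMod 2} {x : B × ZMod 2 → Bool}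
    (hx : x ∈ (𝔅.cover ν).indSet) (i : ZMod 2) : lay 𝔅 ν x i ∈ 𝔅.indSet := by
  have hp := pot_spec (dset_balanced hx)
  -- the value of `lay` at `b` is a value of `x` on the fibre
  have hval : ∀ b, ∃ s, lay 𝔅 ν x i b = x (b, s) := by
    intro b
    unfold lay
    split_ifs
    · exact ⟨_, rfl⟩
    · exact ⟨_, rfl⟩
  refine ⟨?_, ?_⟩
  · intro b b' hE
    have hfib : ∀ j, x (b, j) = x (b', j) := fun j => hx.1 (b, j) (b', j) ⟨hE, rfl⟩
    have hD : b ∈ dset x ↔ b' ∈ dset x := by
      unfold dset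
      simp only [Set.mem_ofPred_eq]
      rw [hfib 0, hfib 1]
    unfold lay
    by_cases hb : b ∈ dset x
    · have hb' := hD.1 hb
      rw [if_pos hb, if_pos hb', hfib, hp.1 b hb b' hb' hE]
    · have hb' : b' ∉ dset x := fun h => hb (hD.2 h)
      rw [if_neg hb, if_neg hb', hfib]
  · rintro b b' hX ⟨h1, h2⟩
    by_cases hb : b ∈ dset x
    · by_cases hb' : b' ∈ dset x
      · unfold lay at h1 h2
        rw [if_pos hb] at h1
        rw [if_pos hb', hp.2 b hb b' hb' hX] at h2
        exact hx.2 (b, i + pot 𝔅 ν (dset x) b) (b', i + pot 𝔅 ν (dset x) b + ν b) ⟨hX, rfl⟩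
          ⟨h1, by rw [add_assoc]; exact h2⟩
      · obtain ⟨s, hs⟩ := hval b
        obtain ⟨s', hs'⟩ := hval b'
        rw [hs] at h1
        rw [hs', eq_of_not_mem_dset hb' s' (s + ν b)] at h2
        exact hx.2 (b, s) (b', s + ν b) ⟨hX, rfl⟩ ⟨h1, h2⟩
    · obtain ⟨s, hs⟩ := hval b
      obtain ⟨s', hs'⟩ := hval b'
      rw [hs, eq_of_not_mem_dset hb s (s' - ν b)] at h1
      rw [hs'] at h2
      exact hx.2 (b, s' - ν b) (b', s' - ν b + ν b) ⟨hX, rfl⟩
        ⟨h1, by rw [sub_add_cancel]; exact h2⟩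

private lemma lay_ne_iff (𝔅 : Bip B) (ν : B → ZMod 2) (x : B × ZMod 2 → Bool) :
    {b | lay 𝔅 ν x 0 b ≠ lay 𝔅 ν x 1 b} = dset x := by
  ext b
  simp only [Set.mem_ofPred_eq]
  unfold lay
  by_cases hb : b ∈ dset x
  · rw [if_pos hb, if_pos hb]
    constructor
    · intro _; exact hb
    · intro _
      refine (mem_dset_iff ?_).1 hb
      intro h
      have h01 : (0 : ZMod 2) = 1 := add_right_cancel h
      exact absurd h01 (by decide)
  · rw [if_neg hb, if_neg hb]
    constructor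
    · intro h; exact absurd rfl h
    · intro h; exact absurd h hb

end TwoCoverAux

theorem two_cover [Finite B] (𝔅 : Bip B) (ν : B → ZMod 2) :
    (𝔅.cover ν).ind ≤ (𝔅.balPairs ν).ncard := by
  unfold ind
  refine Set.ncard_le_ncard_of_injOn (fun x => (lay 𝔅 ν x 0, lay 𝔅 ν x 1)) ?_ ?_
    (Set.toFinite _)
  · intro x hx
    refine ⟨lay_mem hx 0, lay_mem hx 1, ?_⟩
    have h := dset_balanced hx
    rw [← lay_ne_iff 𝔅 ν x] at h
    exact h
  · intro x hx y hy hxy
    simp only [Prod.mk.injEq] at hxy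
    obtain ⟨h0, h1⟩ := hxy
    have hD : dset x = dset y := by
      rw [← lay_ne_iff 𝔅 ν x, ← lay_ne_iff 𝔅 ν y, h0, h1]
    have hl : ∀ i, lay 𝔅 ν x i = lay 𝔅 ν y i := by
      intro i
      rcases z2_cases i with rfl | rfl
      · exact h0
      · exact h1
    funext p
    obtain ⟨b, j⟩ := p
    by_cases hb : b ∈ dset x
    · have hb' : b ∈ dset y := hD ▸ hb
      have h := congrFun (hl (j - pot 𝔅 ν (dset x) b)) b
      unfold lay at h
      rw [if_pos hb, if_pos hb', ← hD, sub_add_cancel] at h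
      exact h
    · have hb' : b ∉ dset y := fun h => hb (hD ▸ h)
      have h := congrFun (hl 0) b
      unfold lay at h
      rw [if_neg hb, if_neg hb'] at h
      rw [eq_of_not_mem_dset hb j 0, eq_of_not_mem_dset hb' j 0]
      exact h

theorem two_cover_sq [Finite B] (𝔅 : Bip B) (ν : B → ZMod 2) :
    (𝔅.cover ν).ind ≤ 𝔅.ind ^ 2 := by
  refine (two_cover 𝔅 ν).trans ?_
  have hsub : 𝔅.balPairs ν ⊆ 𝔅.indSet ×ˢ 𝔅.indSet := fun p hp => ⟨hp.1, hp.2.1⟩
  calc (𝔅.balPairs ν).ncard ≤ (𝔅.indSet ×ˢ 𝔅.indSet).ncard :=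
        Set.ncard_le_ncard hsub (Set.toFinite _)
    _ = 𝔅.ind ^ 2 := by rw [Set.ncard_prod, sq]; rfl

end Bip

end Pool.Agent.H45.Ent
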