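/-
Iterated 2-covers.  MP_f39e07_an, owner helper45.

PROOF of `cover_pow`.  Induct on `r` to show
`ind (cover over ZMod 2 × (Fin r → ZMod 2)) ≤ ind (cover over ZMod 2 by χ∘ν) ^ (2^r)` for the
voltage `(χ (ν b), ν b)` - each coordinate is one more 2-cover (`two_cover` with the second
factor, `≤ ind²`; the structure is bipartite again by pulling back `par`).  The full cover over
`ZMod 2 × (Fin r → ZMod 2)` with voltage `(χ (ν b), ν b)` is isomorphic, via
`(b, ε, v) ↦ (b, ε + χ v, v)`, to two disjoint copies of the cover over `Fin r → ZMod 2`, so its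
count is `ind (cover ν)^2`.
-/
import Pool.Agent.H45.Ent.TwoCover

set_option autoImplicit false

namespace Pool.Agent.H45.Ent

namespace Bip

variable {B : Type*}

/-- pulling back labelings along a surjective morphism -/
theorem cp_ind_le_of_map {B₁ B₂ : Type*} [Finite B₁] [Finite B₂] (𝔅₁ : Bip B₁) (𝔅₂ : Bip B₂)
    (f : B₂ → B₁) (hf : Function.Surjective f) (hE : ∀ b b', 𝔅₂.E b b' → 𝔅₁.E (f b) (f b'))
    (hX : ∀ b b', 𝔅₂.X b b' → 𝔅₁.X (f b) (f b')) : 𝔅₁.ind ≤ 𝔅₂.ind := by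
  unfold ind
  apply Set.ncard_le_ncard_of_injOn (fun x : B₁ → Bool => fun b => x (f b))
  · intro x hx
    exact ⟨fun b b' h => hx.1 _ _ (hE b b' h), fun b b' h => hx.2 _ _ (hX b b' h)⟩
  · intro x _ y _ h
    funext b
    obtain ⟨c, rfl⟩ := hf b
    exact congrFun h c

/-- iterated 2-covers, plain form -/
theorem cp_cover_le (r : ℕ) : ∀ {B : Type _} [Finite B] (𝔅 : Bip B) (ν : B → (Fin r → ZMod 2)),
    (𝔅.cover ν).ind ≤ 𝔅.ind ^ (2 ^ r) := by
  induction r with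
  | zero =>
    intro B _ 𝔅 ν
    rw [pow_zero, pow_one]
    apply cp_ind_le_of_map (𝔅.cover ν) 𝔅 (fun b => (b, 0))
    · rintro ⟨b, v⟩
      exact ⟨b, Prod.ext rfl (Subsingleton.elim _ _)⟩
    · intro b b' h
      exact ⟨h, rfl⟩
    · intro b b' h
      exact ⟨h, Subsingleton.elim _ _⟩
  | succ r ih =>
    intro B _ 𝔅 ν
    have h1 : (𝔅.cover ν).ind ≤ ((𝔅.cover (fun b (i : Fin r) => ν b i.succ)).cover
        (fun p => ν p.1 0)).ind := by
      apply cp_ind_le_of_map _ _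
        (fun p : (B × (Fin r → ZMod 2)) × ZMod 2 => ((p.1.1, Fin.cons p.2 p.1.2) :
          B × (Fin (r + 1) → ZMod 2)))
      · rintro ⟨b, w⟩
        refine ⟨((b, fun i => w i.succ), w 0), ?_⟩
        refine Prod.ext rfl ?_
        exact Fin.cons_self_tail w
      · rintro ⟨⟨b, v⟩, ε⟩ ⟨⟨b', v'⟩, ε'⟩ ⟨⟨h1, h2⟩, h3⟩
        simp only at h1 h2 h3
        subst h2 h3
        exact ⟨h1, rfl⟩
      · rintro ⟨⟨b, v⟩, ε⟩ ⟨⟨b', v'⟩, ε'⟩ ⟨⟨h1, h2⟩, h3⟩
        simp only at h1 h2 h3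
        subst h2 h3
        refine ⟨h1, ?_⟩
        funext i
        refine Fin.cases ?_ (fun i => ?_) i
        · simp
        · simp
    refine h1.trans ?_
    refine (two_cover_sq _ _).trans ?_
    have h2 := ih 𝔅 (fun b (i : Fin r) => ν b i.succ)
    calc (𝔅.cover (fun b (i : Fin r) => ν b i.succ)).ind ^ 2 ≤ (𝔅.ind ^ (2 ^ r)) ^ 2 :=
          Nat.pow_le_pow_left h2 2
      _ = 𝔅.ind ^ (2 ^ (r + 1)) := by
          rw [← pow_mul, pow_succ]

/-- iterated 2-covers -/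
theorem cover_pow [Finite B] (𝔅 : Bip B) (r : ℕ) (ν : B → (Fin r → ZMod 2))
    (χ : (Fin r → ZMod 2) →+ ZMod 2) :
    (𝔅.cover ν).ind ^ 2 ≤ (𝔅.cover (fun b => χ (ν b))).ind ^ (2 ^ r) := by
  refine le_trans ?_ (cp_cover_le r (𝔅.cover (fun b => χ (ν b)))
    (fun p : B × ZMod 2 => ν p.1))
  unfold ind
  rw [sq, ← Set.ncard_prod]
  have two : ∀ z : ZMod 2, z + z = 0 := by decide
  apply Set.ncard_le_ncard_of_injOn
    (fun y : ((B × (Fin r → ZMod 2)) → Bool) × ((B × (Fin r → ZMod 2)) → Bool) =>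
      fun p : (B × ZMod 2) × (Fin r → ZMod 2) =>
        if p.1.2 + χ p.2 = 0 then y.1 (p.1.1, p.2) else y.2 (p.1.1, p.2))
  · rintro ⟨y0, y1⟩ ⟨h0, h1⟩
    refine ⟨?_, ?_⟩
    · rintro ⟨⟨b, ε⟩, v⟩ ⟨⟨b', ε'⟩, v'⟩ ⟨⟨h2, h3⟩, h4⟩
      simp only at h2 h3 h4
      subst h3 h4
      simp only
      have a0 := h0.1 (b, v') (b', v') ⟨h2, rfl⟩
      have a1 := h1.1 (b, v') (b', v') ⟨h2, rfl⟩
      simp only at a0 a1
      rw [a0, a1]
    · rintro ⟨⟨b, ε⟩, v⟩ ⟨⟨b', ε'⟩, v'⟩ ⟨⟨h2, h3⟩, h4⟩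
      simp only at h2 h3 h4
      subst h3 h4
      simp only
      have e1 : ε + χ (ν b) + χ (v + ν b) = ε + χ v := by
        rw [map_add]
        have := two (χ (ν b))
        linear_combination this
      rw [e1]
      have a0 := h0.2 (b, v) (b', v + ν b) ⟨h2, rfl⟩
      have a1 := h1.2 (b, v) (b', v + ν b) ⟨h2, rfl⟩
      split_ifs
      · exact a0
      · exact a1
  · rintro ⟨y0, y1⟩ _ ⟨z0, z1⟩ _ h
    have h2 : ∀ b v, y0 (b, v) = z0 (b, v) := by
      intro b v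
      have := congrFun h ((b, χ v), v)
      simp only at this
      rwa [two, if_pos rfl, if_pos rfl] at this
    have h3 : ∀ b v, y1 (b, v) = z1 (b, v) := by
      intro b v
      have := congrFun h ((b, χ v + 1), v)
      simp only at this
      have e : χ v + 1 + χ v ≠ 0 := by
        have h4 := two (χ v)
        have h5 : χ v + 1 + χ v = 1 := by linear_combination h4
        rw [h5]; decide
      rwa [if_neg e, if_neg e] at this
    refine Prod.ext ?_ ?_
    · funext ⟨b, v⟩; exact h2 b v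
    · funext ⟨b, v⟩; exact h3 b v

end Bip

end Pool.Agent.H45.Ent
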