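/-
Shearer's inequality for pattern counts.  MP_f39e07_an, owner helper45.

PROOF.  Induction on `E`: split `X` according to the value at one coordinate `e`, use the induction
hypothesis for every part and the generalised Hölder inequality (from the inequality between the
geometric and the arithmetic mean) for `m` of the sets `S_j` which contain `e`.
-/
import Pool.Agent.H45.Ent.Cnt

set_option autoImplicit false

namespace Pool.Agent.H45.Ent

open Finset

/-- geometric mean and arithmetic mean, for a set of `m` elements -/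
lemma shearer_amgm {κ : Type*} (T : Finset κ) (m : ℕ) (hm : 0 < m) (hT : T.card = m) (z : κ → ℝ)
    (hz : ∀ j ∈ T, 0 ≤ z j) : ∏ j ∈ T, z j ≤ ((∑ j ∈ T, z j) / m) ^ m := by
  have hm' : (0 : ℝ) < m := by exact_mod_cast hm
  have h := Real.geom_mean_le_arith_mean_weighted T (fun _ => (1 : ℝ) / m) z
    (fun _ _ => by positivity) (by rw [sum_const, hT, nsmul_eq_mul]; field_simp) hz
  have h1 : 0 ≤ ∏ j ∈ T, z j ^ ((1 : ℝ) / m) :=
    prod_nonneg fun j hj => Real.rpow_nonneg (hz j hj) _
  have h2 := pow_le_pow_left₀ h1 h m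
  rw [← prod_pow] at h2
  have h3 : ∏ j ∈ T, (z j ^ ((1 : ℝ) / m)) ^ m = ∏ j ∈ T, z j := by
    refine prod_congr rfl fun j hj => ?_
    rw [← Real.rpow_natCast, ← Real.rpow_mul (hz j hj), one_div, inv_mul_cancel₀ hm'.ne',
      Real.rpow_one]
  rw [h3] at h2
  refine h2.trans (le_of_eq ?_)
  congr 1
  rw [← mul_sum]
  ring

/-- the generalised Hölder inequality in the form needed -/
lemma shearer_holder {κ A : Type*} (T : Finset κ) (B : Finset A) (m : ℕ) (hm : 0 < m)
    (hT : T.card = m) (x : κ → A → ℝ) (s : κ → ℝ) (y : A → ℝ) (c : ℝ) (hc : 0 ≤ c)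
    (hx : ∀ j a, 0 ≤ x j a) (hy : ∀ a, 0 ≤ y a) (hs : ∀ j ∈ T, ∑ a ∈ B, x j a ≤ s j)
    (h : ∀ a ∈ B, y a ^ m ≤ c * ∏ j ∈ T, x j a) :
    (∑ a ∈ B, y a) ^ m ≤ c * ∏ j ∈ T, s j := by
  have hm' : (0 : ℝ) < m := by exact_mod_cast hm
  have hs0 : ∀ j ∈ T, 0 ≤ s j := fun j hj => (sum_nonneg fun a _ => hx j a).trans (hs j hj)
  by_cases h0 : ∃ j ∈ T, s j = 0
  · obtain ⟨j, hj, hj0⟩ := h0
    have h1 : ∀ a ∈ B, y a = 0 := by
      intro a ha
      have h2 : x j a = 0 := by
        have h3 := hs j hj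
        rw [hj0] at h3
        have h4 := single_le_sum (fun a _ => hx j a) ha
        exact le_antisymm (h4.trans h3) (hx j a)
      have h3 := h a ha
      rw [prod_eq_zero hj h2, mul_zero] at h3
      exact pow_eq_zero_iff hm.ne' |>.mp (le_antisymm h3 (pow_nonneg (hy a) m))
    rw [sum_eq_zero h1, zero_pow hm.ne']
    exact mul_nonneg hc (prod_nonneg hs0)
  · push Not at h0
    have hpos : ∀ j ∈ T, 0 < s j := fun j hj => lt_of_le_of_ne (hs0 j hj) (h0 j hj).symm
    set P : ℝ := c * ∏ j ∈ T, s j with hP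
    have hP0 : 0 ≤ P := mul_nonneg hc (prod_nonneg hs0)
    set K : ℝ := P ^ ((1 : ℝ) / m) with hK
    have hK0 : 0 ≤ K := Real.rpow_nonneg hP0 _
    have hKm : K ^ m = P := by
      rw [hK, ← Real.rpow_natCast, ← Real.rpow_mul hP0, one_div, inv_mul_cancel₀ hm'.ne',
        Real.rpow_one]
    have h1 : ∀ a ∈ B, y a ≤ K * ((∑ j ∈ T, x j a / s j) / m) := by
      intro a ha
      have h2 := shearer_amgm T m hm hT (fun j => x j a / s j)
        (fun j hj => div_nonneg (hx j a) (hs0 j hj))
      have h3 : y a ^ m ≤ (K * ((∑ j ∈ T, x j a / s j) / m)) ^ m := by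
        rw [mul_pow, hKm]
        calc y a ^ m ≤ c * ∏ j ∈ T, x j a := h a ha
          _ = P * ∏ j ∈ T, (x j a / s j) := by
              rw [prod_div_distrib, hP]
              have : ∏ j ∈ T, s j ≠ 0 := (prod_pos hpos).ne'
              field_simp
          _ ≤ P * ((∑ j ∈ T, x j a / s j) / m) ^ m := by gcongr
      have h4 : 0 ≤ K * ((∑ j ∈ T, x j a / s j) / m) := by
        refine mul_nonneg hK0 (div_nonneg (sum_nonneg fun j hj => ?_) hm'.le)
        exact div_nonneg (hx j a) (hs0 j hj)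
      exact le_of_pow_le_pow_left₀ hm.ne' h4 h3
    have h5 : ∑ a ∈ B, y a ≤ K := by
      calc ∑ a ∈ B, y a ≤ ∑ a ∈ B, K * ((∑ j ∈ T, x j a / s j) / m) := sum_le_sum h1
        _ = K * ((∑ j ∈ T, (∑ a ∈ B, x j a) / s j) / m) := by
            rw [← mul_sum, ← sum_div, sum_comm]
            simp_rw [sum_div]
        _ ≤ K * ((∑ j ∈ T, (1 : ℝ)) / m) := by
            gcongr with j hj
            rw [div_le_one (hpos j hj)]
            exact hs j hj
        _ = K := by
            rw [sum_const, hT, nsmul_eq_mul, mul_one, div_self hm'.ne', mul_one]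
    calc (∑ a ∈ B, y a) ^ m ≤ K ^ m := pow_le_pow_left₀ (sum_nonneg fun a _ => hy a) h5 m
      _ = P := hKm

/-- splitting according to the value at one coordinate -/
lemma shearer_split {I A : Type*} [Fintype A] (X : Set (I → A)) (S : Set I) (e : I) :
    cnt X S ≤ ∑ a : A, cnt {x ∈ X | x e = a} S := by
  unfold cnt
  have h : (fun (x : I → A) (i : S) => x i) '' X
      = ⋃ a ∈ (univ : Finset A), (fun (x : I → A) (i : S) => x i) '' {x ∈ X | x e = a} := by
    ext p
    simp only [Set.mem_image, Set.mem_iUnion, mem_univ, Set.mem_ofPred_eq, exists_true_left]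
    constructor
    · rintro ⟨x, hx, rfl⟩
      exact ⟨x e, x, ⟨hx, rfl⟩, rfl⟩
    · rintro ⟨a, x, ⟨hx, _⟩, rfl⟩
      exact ⟨x, hx, rfl⟩
  rw [h]
  exact Finset.set_ncard_biUnion_le _ _

/-- and the parts are disjoint if the coordinate is visible -/
lemma shearer_sum {I A : Type*} [Fintype A] (X : Set (I → A)) (S : Finset I) (e : I)
    (he : e ∈ S) : ∑ a : A, cnt {x ∈ X | x e = a} (S : Set I) ≤ cnt X (S : Set I) := by
  have hfin : Finite (S : Set I) := S.finite_toSet.to_subtype
  unfold cnt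
  have h1 : ∀ a : A, ((fun (x : I → A) (i : (S : Set I)) => x i) '' {x ∈ X | x e = a}).Finite :=
    fun a => Set.toFinite _
  have h2 : Pairwise (Function.onFun Disjoint
      fun a : A => (fun (x : I → A) (i : (S : Set I)) => x i) '' {x ∈ X | x e = a}) := by
    intro a b hab
    rw [Function.onFun, Set.disjoint_left]
    rintro p ⟨x, ⟨_, hx⟩, rfl⟩ ⟨y, ⟨_, hy⟩, hxy⟩
    apply hab
    have := congrFun hxy ⟨e, he⟩
    simp only at this
    rw [← hx, ← hy, this]
  have h3 := Set.ncard_iUnion_of_finite h1 h2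
  rw [finsum_eq_sum_of_fintype] at h3
  rw [← h3]
  refine Set.ncard_le_ncard ?_ (Set.toFinite _)
  rintro p ⟨_, ⟨a, rfl⟩, x, ⟨hx, _⟩, rfl⟩
  exact ⟨x, hx, rfl⟩

theorem shearer_cnt {I A κ : Type*} [Finite A] (X : Set (I → A)) (E : Finset I)
    (J : Finset κ) (S : κ → Finset I) (m : ℕ) (hm : 0 < m)
    (hcov : ∀ e ∈ E, m ≤ {j : κ | j ∈ J ∧ e ∈ S j}.ncard) :
    cnt X (E : Set I) ^ m ≤ ∏ j ∈ J, cnt X (S j : Set I) := by
  classical
  have : Fintype A := Fintype.ofFinite A
  induction E using Finset.induction_on generalizing X with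
  | empty =>
    rcases X.eq_empty_or_nonempty with rfl | hX
    · rw [cnt_empty, zero_pow hm.ne']
      exact Nat.zero_le _
    · have h1 : cnt X ((∅ : Finset I) : Set I) ≤ 1 := by
        have := cnt_le_pow X (S := ((∅ : Finset I) : Set I)) (Finset.finite_toSet _)
        simpa using this
      calc cnt X ((∅ : Finset I) : Set I) ^ m ≤ 1 ^ m := Nat.pow_le_pow_left h1 m
        _ = ∏ j ∈ J, 1 := by simp
        _ ≤ ∏ j ∈ J, cnt X (S j : Set I) :=
            prod_le_prod' fun j _ => (cnt_pos (S j).finite_toSet).mpr hX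
  | insert e E he ih =>
    have hE : ∀ e' ∈ E, m ≤ {j : κ | j ∈ J ∧ e' ∈ S j}.ncard :=
      fun e' he' => hcov e' (mem_insert_of_mem he')
    obtain ⟨T, hTJ, hTcard⟩ : ∃ T ⊆ J.filter (fun j => e ∈ S j), T.card = m := by
      apply exists_subset_card_eq
      have h1 := hcov e (mem_insert_self e E)
      have h2 : {j : κ | j ∈ J ∧ e ∈ S j} = ((J.filter fun j => e ∈ S j : Finset κ) : Set κ) := by
        ext j; simp
      rw [h2, Set.ncard_coe_finset] at h1
      exact h1
    set Y : A → Set (I → A) := fun a => {x ∈ X | x e = a} with hY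
    have key := shearer_holder T (univ : Finset A) m hm hTcard
      (fun j a => (cnt (Y a) (S j : Set I) : ℝ)) (fun j => (cnt X (S j : Set I) : ℝ))
      (fun a => (cnt (Y a) (E : Set I) : ℝ)) (∏ j ∈ J \ T, (cnt X (S j : Set I) : ℝ))
      (by positivity) (fun _ _ => by positivity) (fun _ => by positivity) ?_ ?_
    · have h1 : cnt X ((insert e E : Finset I) : Set I) ≤ ∑ a : A, cnt (Y a) (E : Set I) := by
        refine (shearer_split X _ e).trans (sum_le_sum fun a _ => ?_)
        refine cnt_le_of_inj E.finite_toSet id (fun _ h => h) ?_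
        intro x hx y hy hxy i hi
        rw [coe_insert] at hi
        rcases hi with rfl | hi
        · rw [hx.2, hy.2]
        · exact hxy i hi
      have hTJ' : T ⊆ J := hTJ.trans (filter_subset _ _)
      have h2 : (cnt X ((insert e E : Finset I) : Set I) : ℝ) ^ m
          ≤ ∏ j ∈ J, (cnt X (S j : Set I) : ℝ) := by
        calc (cnt X ((insert e E : Finset I) : Set I) : ℝ) ^ m
            ≤ (∑ a : A, (cnt (Y a) (E : Set I) : ℝ)) ^ m := by
              refine pow_le_pow_left₀ (by positivity) ?_ m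
              exact_mod_cast h1
          _ ≤ (∏ j ∈ J \ T, (cnt X (S j : Set I) : ℝ)) * ∏ j ∈ T, (cnt X (S j : Set I) : ℝ) := key
          _ = ∏ j ∈ J, (cnt X (S j : Set I) : ℝ) := prod_sdiff hTJ'
      exact_mod_cast h2
    · intro j hj
      have h1 := shearer_sum X (S j) e (mem_filter.mp (hTJ hj)).2
      exact_mod_cast h1
    · intro a _
      have h1 := ih (Y a) hE
      have hTJ' : T ⊆ J := hTJ.trans (filter_subset _ _)
      have h2 : (cnt (Y a) (E : Set I) : ℝ) ^ m ≤ ∏ j ∈ J, (cnt (Y a) (S j : Set I) : ℝ) := by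
        exact_mod_cast h1
      refine h2.trans ?_
      rw [← prod_sdiff hTJ']
      refine mul_le_mul_of_nonneg_right ?_ (prod_nonneg fun _ _ => by positivity)
      refine prod_le_prod (fun _ _ => by positivity) fun j _ => ?_
      have := cnt_mono (X := Y a) (Y := X) (S j).finite_toSet (fun x hx => hx.1)
      exact_mod_cast this

end Pool.Agent.H45.Ent
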