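/-
Entropy as an infimum over finite sets and along Følner sets (Ornstein–Weiss/Shearer).
MP_f39e07_an, owner helper45.  (This file: helper77.)

PROOFS.
* `cnt_pow_le`: apply `shearer_cnt` to the sets `S_γ = F' γ`, `γ ∈ J := {γ | ∃ f ∈ F', f γ ∈ E}`
  (finite: `⊆ F'⁻¹ E`), `m = |F'|`: `e ∈ F' γ` iff `γ ∈ F'⁻¹ e`, exactly `|F'|` values of `γ`.
  By right invariance `cnt X (F' γ) = cnt X F'`.
* `foelner_bound`: from `cnt_pow_le` with `E' = B E` (pointwise product):
  `log cnt X (B E) ≤ (|F'⁻¹ B E| / |F'|) log cnt X F'` and `F'⁻¹ B E ⊆ E ∪ ⋃_{κ ∈ F'⁻¹B} (κE \ E)`,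
  so `|F'⁻¹ B E| ≤ |E| (1 + |F'⁻¹B| δ)`; `log cnt X F' ≤ |F'| log k`.  If `X = ∅` everything is `0`
  (`Real.log 0 = 0`).
* `entX_tendsto`: lower bound `entX_le`, upper bound `foelner_bound` with `B = {1}` and `F'` almost
  optimal.
-/
import Pool.Agent.H45.Ent.Shearer

set_option autoImplicit false

open Filter Topology Pointwise

namespace Pool.Agent.H45.Ent

variable {G : Type*} [Group G] {k : ℕ}

/-- right translation invariance -/
def RInv (X : Set (G → Fin k)) : Prop := ∀ γ : G, ∀ x ∈ X, (fun g => x (g * γ)) ∈ X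

theorem entX_bddBelow (X : Set (G → Fin k)) :
    BddBelow (Set.range fun F : {F : Finset G // F.Nonempty} =>
      Real.log (cnt X (F.1 : Set G) : ℝ) / (F.1.card : ℝ)) := by
  refine ⟨0, ?_⟩
  rintro _ ⟨F, rfl⟩
  exact div_nonneg (Real.log_natCast_nonneg _) (Nat.cast_nonneg _)

theorem entX_le (X : Set (G → Fin k)) (F : Finset G) (hF : F.Nonempty) :
    entX X ≤ Real.log (cnt X (F : Set G)) / F.card :=
  ciInf_le (entX_bddBelow X) ⟨F, hF⟩

theorem le_entX (X : Set (G → Fin k)) (c : ℝ)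
    (h : ∀ F : Finset G, F.Nonempty → c ≤ Real.log (cnt X (F : Set G)) / F.card) :
    c ≤ entX X := by
  haveI : Nonempty {F : Finset G // F.Nonempty} := ⟨⟨{1}, by simp⟩⟩
  refine le_ciInf ?_
  rintro ⟨F, hF⟩
  exact h F hF

theorem entX_nonneg (X : Set (G → Fin k)) : 0 ≤ entX X :=
  Real.iInf_nonneg fun _ => div_nonneg (Real.log_natCast_nonneg _) (Nat.cast_nonneg _)

theorem entX_le_log (X : Set (G → Fin k)) (hk : 0 < k) : entX X ≤ Real.log k := by
  have h := entX_le X {1} (by simp)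
  refine h.trans ?_
  have h1 : cnt X (({1} : Finset G) : Set G) ≤ Nat.card (Fin k) ^ (({1} : Finset G) : Set G).ncard :=
    cnt_le_pow X (Finset.finite_toSet _)
  rw [Set.ncard_coe_finset, Finset.card_singleton, pow_one, Nat.card_fin] at h1
  rw [Finset.card_singleton, Nat.cast_one, div_one]
  rcases Nat.eq_zero_or_pos (cnt X (({1} : Finset G) : Set G)) with h0 | h0
  · rw [h0, Nat.cast_zero, Real.log_zero]
    exact Real.log_natCast_nonneg _
  · apply Real.log_le_log (by exact_mod_cast h0)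
    exact_mod_cast h1

theorem entX_empty : entX (∅ : Set (G → Fin k)) = 0 := by
  apply le_antisymm _ (entX_nonneg _)
  have h := entX_le (∅ : Set (G → Fin k)) {1} (by simp)
  rw [cnt_empty, Nat.cast_zero, Real.log_zero, zero_div] at h
  exact h

/-- `|F| * entX X ≤ log cnt`, also for the empty set -/
theorem card_mul_entX_le (X : Set (G → Fin k)) (S : Set G) (hS : S.Finite) :
    (S.ncard : ℝ) * entX X ≤ Real.log (cnt X S) := by
  rcases S.eq_empty_or_nonempty with rfl | hne
  · rw [Set.ncard_empty, Nat.cast_zero, zero_mul]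
    exact Real.log_natCast_nonneg _
  · have h := entX_le X hS.toFinset (hS.toFinset_nonempty.2 hne)
    rw [hS.coe_toFinset, ← Set.ncard_eq_toFinset_card S hS] at h
    have hpos : (0 : ℝ) < S.ncard := by exact_mod_cast (Set.ncard_pos hS).2 hne
    rw [le_div_iff₀ hpos] at h
    rwa [mul_comm]

theorem cnt_mul_right {X : Set (G → Fin k)} (hX : RInv X) {S : Set G} (hS : S.Finite) (γ : G) :
    cnt X ((fun g => g * γ) '' S) = cnt X S := by
  apply le_antisymm
  · exact cnt_le_cnt_comp hS (fun g => g * γ) (fun x hx => hX γ x hx)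
  · have h := cnt_le_cnt_comp (X := X) (Y := X) (S := (fun g => g * γ) '' S)
      (hS.image _) (fun g => g * γ⁻¹) (fun x hx => hX γ⁻¹ x hx)
    rw [Set.image_image] at h
    simpa using h

theorem cnt_pow_le {X : Set (G → Fin k)} (hX : RInv X) (E F' : Finset G) (hF' : F'.Nonempty) :
    cnt X (E : Set G) ^ F'.card ≤
      cnt X (F' : Set G) ^ {γ : G | ∃ f ∈ F', f * γ ∈ E}.ncard := by
  classical
  have hfin : {γ : G | ∃ f ∈ F', f * γ ∈ E}.Finite := by
    refine ((F' ×ˢ E).image (fun q => q.1⁻¹ * q.2)).finite_toSet.subset ?_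
    rintro γ ⟨f, hf, hfe⟩
    simp only [Finset.coe_image, Set.mem_image, Finset.mem_coe, Finset.mem_product, Prod.exists]
    exact ⟨f, f * γ, ⟨hf, hfe⟩, by group⟩
  have h := shearer_cnt X E hfin.toFinset (fun γ => F'.image (fun f => f * γ)) F'.card
    hF'.card_pos ?_
  · refine h.trans (le_of_eq ?_)
    rw [Set.ncard_eq_toFinset_card _ hfin, ← Finset.prod_const]
    apply Finset.prod_congr rfl
    intro γ _
    rw [Finset.coe_image]
    exact cnt_mul_right hX (Finset.finite_toSet F') γ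
  · intro e he
    have hsub : ((F'.image (fun f => f⁻¹ * e) : Finset G) : Set G) ⊆
        {j : G | j ∈ hfin.toFinset ∧ e ∈ F'.image (fun f => f * j)} := by
      intro j hj
      simp only [Finset.coe_image, Set.mem_image, Finset.mem_coe] at hj
      obtain ⟨f, hf, rfl⟩ := hj
      refine ⟨?_, ?_⟩
      · rw [Set.Finite.mem_toFinset]
        exact ⟨f, hf, by simpa using he⟩
      · rw [Finset.mem_image]
        exact ⟨f, hf, by group⟩
    have hfin2 : {j : G | j ∈ hfin.toFinset ∧ e ∈ F'.image (fun f => f * j)}.Finite :=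
      hfin.toFinset.finite_toSet.subset (fun j hj => hj.1)
    have h2 := Set.ncard_le_ncard hsub hfin2
    rw [Set.ncard_coe_finset, Finset.card_image_of_injective] at h2
    · exact h2
    · intro f f' hff
      simpa using hff

theorem foelner_bound {X : Set (G → Fin k)} (hX : RInv X) (F' : Finset G) (hF' : F'.Nonempty)
    (B : Finset G) {ε : ℝ} (hε : 0 < ε) :
    ∃ K : Finset G, ∃ δ : ℝ, 0 < δ ∧ ∀ E : Finset G, E.Nonempty →
      (∀ κ ∈ K, ((((fun f => κ * f) '' (E : Set G)) \ (E : Set G)).ncard : ℝ) < δ * (E.card : ℝ)) →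
      Real.log (cnt X {g | ∃ b ∈ B, ∃ e ∈ E, g = b * e}) / E.card ≤
        Real.log (cnt X (F' : Set G)) / F'.card + ε := by
  classical
  set q : ℝ := Real.log (cnt X (F' : Set G)) / F'.card with hq
  have hFc : (0 : ℝ) < F'.card := by exact_mod_cast hF'.card_pos
  have hq0 : 0 ≤ q := div_nonneg (Real.log_natCast_nonneg _) hFc.le
  refine ⟨(F' ×ˢ B).image (fun p => p.1⁻¹ * p.2),
    ε / ((((F' ×ˢ B).image (fun p => p.1⁻¹ * p.2)).card + 1) * (q + 1)), by positivity, ?_⟩
  set K : Finset G := (F' ×ˢ B).image (fun p => p.1⁻¹ * p.2) with hK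
  intro E hE hfol
  set δ : ℝ := ε / ((K.card + 1) * (q + 1)) with hδ
  have hEc : (0 : ℝ) < E.card := by exact_mod_cast hE.card_pos
  rcases X.eq_empty_or_nonempty with rfl | hXne
  · rw [cnt_empty, Nat.cast_zero, Real.log_zero, zero_div]
    positivity
  -- the set `B E`
  set BE : Finset G := (B ×ˢ E).image (fun p => p.1 * p.2) with hBE
  have hBEc : {g | ∃ b ∈ B, ∃ e ∈ E, g = b * e} = (BE : Set G) := by
    ext g
    simp only [hBE, Finset.coe_image, Set.mem_image, Finset.mem_coe, Finset.mem_product,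
      Prod.exists, Set.mem_ofPred_eq]
    constructor
    · rintro ⟨b, hb, e, he, rfl⟩
      exact ⟨b, e, ⟨hb, he⟩, rfl⟩
    · rintro ⟨b, e, ⟨hb, he⟩, rfl⟩
      exact ⟨b, hb, e, he, rfl⟩
  rw [hBEc]
  have h1 := cnt_pow_le hX BE F' hF'
  -- size of the cover
  have hcover : {γ : G | ∃ f ∈ F', f * γ ∈ BE} ⊆
      (E : Set G) ∪ ⋃ κ ∈ K, (((fun f => κ * f) '' (E : Set G)) \ (E : Set G)) := by
    rintro γ ⟨f, hf, hfγ⟩
    rw [hBE, Finset.mem_image] at hfγ
    obtain ⟨⟨b, e⟩, hbe, hbe2⟩ := hfγ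
    rw [Finset.mem_product] at hbe
    by_cases hγ : γ ∈ E
    · exact Or.inl hγ
    · right
      simp only [Set.mem_iUnion]
      refine ⟨f⁻¹ * b, ?_, ⟨e, hbe.2, ?_⟩, hγ⟩
      · rw [hK, Finset.mem_image]
        exact ⟨(f, b), Finset.mem_product.2 ⟨hf, hbe.1⟩, rfl⟩
      · have : b * e = f * γ := hbe2
        show f⁻¹ * b * e = γ
        rw [mul_assoc, this]
        group
  have hfinκ : ∀ κ : G, (((fun f => κ * f) '' (E : Set G)) \ (E : Set G)).Finite := fun κ =>
    (E.finite_toSet.image _).subset Set.sdiff_subset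
  have hU : ((⋃ κ ∈ K, (((fun f => κ * f) '' (E : Set G)) \ (E : Set G))).ncard : ℝ) ≤
      ∑ κ ∈ K, ((((fun f => κ * f) '' (E : Set G)) \ (E : Set G)).ncard : ℝ) := by
    have : (⋃ κ ∈ K, (((fun f => κ * f) '' (E : Set G)) \ (E : Set G))).ncard ≤
      ∑ κ ∈ K, (((fun f => κ * f) '' (E : Set G)) \ (E : Set G)).ncard :=
      Finset.set_ncard_biUnion_le K _
    exact_mod_cast this
  have hU2 : (({γ : G | ∃ f ∈ F', f * γ ∈ BE}.ncard : ℕ) : ℝ) ≤ E.card * (1 + K.card * δ) := by
    have hfinU : ((E : Set G) ∪ ⋃ κ ∈ K, (((fun f => κ * f) '' (E : Set G)) \ (E : Set G))).Finite :=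
      E.finite_toSet.union (Set.Finite.biUnion K.finite_toSet (fun κ _ => hfinκ κ))
    have a1 := Set.ncard_le_ncard hcover hfinU
    have a2 := Set.ncard_union_le (E : Set G)
      (⋃ κ ∈ K, (((fun f => κ * f) '' (E : Set G)) \ (E : Set G)))
    rw [Set.ncard_coe_finset] at a2
    have a3 : (({γ : G | ∃ f ∈ F', f * γ ∈ BE}.ncard : ℕ) : ℝ) ≤ E.card +
      ((⋃ κ ∈ K, (((fun f => κ * f) '' (E : Set G)) \ (E : Set G))).ncard : ℝ) := by
      exact_mod_cast a1.trans a2
    have a4 : ∑ κ ∈ K, ((((fun f => κ * f) '' (E : Set G)) \ (E : Set G)).ncard : ℝ) ≤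
        K.card * (δ * E.card) := by
      rw [← nsmul_eq_mul]
      exact Finset.sum_le_card_nsmul _ _ _ (fun κ hκ => (hfol κ hκ).le)
    nlinarith
  have hposBE : (0 : ℝ) < cnt X (BE : Set G) := by
    exact_mod_cast (cnt_pos (Finset.finite_toSet BE)).2 hXne
  have h2 : (F'.card : ℝ) * Real.log (cnt X (BE : Set G)) ≤
      ({γ : G | ∃ f ∈ F', f * γ ∈ BE}.ncard : ℕ) * Real.log (cnt X (F' : Set G)) := by
    rw [← Real.log_pow, ← Real.log_pow]
    apply Real.log_le_log (by positivity)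
    exact_mod_cast h1
  have hL0 : 0 ≤ Real.log (cnt X (F' : Set G)) := Real.log_natCast_nonneg _
  have hL : Real.log (cnt X (F' : Set G)) = q * F'.card := by
    rw [hq]; field_simp
  have h3 : (F'.card : ℝ) * Real.log (cnt X (BE : Set G)) ≤
      F'.card * ((E.card * (1 + K.card * δ)) * q) := by
    refine h2.trans ?_
    rw [hL]
    have := mul_le_mul_of_nonneg_right hU2 (mul_nonneg hq0 hFc.le)
    calc _ ≤ (E.card * (1 + K.card * δ)) * (q * F'.card) := this
      _ = _ := by ring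
  have h4 : Real.log (cnt X (BE : Set G)) ≤ (E.card * (1 + K.card * δ)) * q :=
    le_of_mul_le_mul_left h3 hFc
  rw [div_le_iff₀ hEc]
  have h5 : K.card * δ * q ≤ ε := by
    rw [hδ]
    have hd0 : (0 : ℝ) ≤ K.card := Nat.cast_nonneg _
    have hd : (0 : ℝ) < (K.card + 1) * (q + 1) := mul_pos (by linarith) (by linarith)
    have : (K.card : ℝ) * (ε / ((K.card + 1) * (q + 1))) * q = ε * (K.card * q) / ((K.card + 1) * (q + 1)) := by
      ring
    rw [this, div_le_iff₀ hd]
    have hKq : (K.card : ℝ) * q ≤ (K.card + 1) * (q + 1) := by nlinarith [Nat.cast_nonneg (α := ℝ) K.card]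
    exact mul_le_mul_of_nonneg_left hKq hε.le
  calc Real.log (cnt X (BE : Set G)) ≤ (E.card * (1 + K.card * δ)) * q := h4
    _ = (q + K.card * δ * q) * E.card := by ring
    _ ≤ (q + ε) * E.card := by
      apply mul_le_mul_of_nonneg_right _ hEc.le
      linarith

theorem entX_tendsto {X : Set (G → Fin k)} (hX : RInv X) (E : ℕ → Set G)
    (hfin : ∀ n, (E n).Finite) (hne : ∀ᶠ n in atTop, (E n).Nonempty)
    (hfol : ∀ γ : G, Tendsto (fun n => (((fun g => γ * g) '' E n \ E n).ncard : ℝ) /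
      ((E n).ncard : ℝ)) atTop (𝓝 0)) :
    Tendsto (fun n => Real.log (cnt X (E n)) / ((E n).ncard : ℝ)) atTop (𝓝 (entX X)) := by
  classical
  rw [Metric.tendsto_atTop']
  intro ε hε
  -- an almost optimal finite set
  have hex : ∃ F' : Finset G, F'.Nonempty ∧
      Real.log (cnt X (F' : Set G)) / F'.card < entX X + ε / 2 := by
    by_contra hcon
    push Not at hcon
    have := le_entX X (entX X + ε / 2) hcon
    linarith
  obtain ⟨F', hF', hF'2⟩ := hex
  obtain ⟨K, δ, hδ, hK⟩ := foelner_bound hX F' hF' {1} (half_pos hε)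
  have hev : ∀ᶠ n in atTop, ∀ κ ∈ K,
      (((fun g => κ * g) '' E n \ E n).ncard : ℝ) / ((E n).ncard : ℝ) < δ := by
    rw [Filter.eventually_all_finset]
    intro κ _
    exact (hfol κ).eventually (gt_mem_nhds hδ)
  obtain ⟨N, hN⟩ := Filter.eventually_atTop.1 (hev.and hne)
  refine ⟨N, fun n hn => ?_⟩
  obtain ⟨h1, h2⟩ := hN n hn.le
  have hpos : (0 : ℝ) < (E n).ncard := by exact_mod_cast (Set.ncard_pos (hfin n)).2 h2
  have hlow := card_mul_entX_le X (E n) (hfin n)
  have hup := hK (hfin n).toFinset ((hfin n).toFinset_nonempty.2 h2) (by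
    intro κ hκ
    rw [(hfin n).coe_toFinset, ← Set.ncard_eq_toFinset_card (E n) (hfin n)]
    have := h1 κ hκ
    rwa [div_lt_iff₀ hpos] at this)
  have hset : {g | ∃ b ∈ ({1} : Finset G), ∃ e ∈ (hfin n).toFinset, g = b * e} = E n := by
    ext g
    constructor
    · rintro ⟨b, hb, e, he, rfl⟩
      rw [Finset.mem_singleton] at hb
      rw [hb, one_mul]
      exact (hfin n).mem_toFinset.1 he
    · intro hg
      exact ⟨1, Finset.mem_singleton_self _, g, (hfin n).mem_toFinset.2 hg, (one_mul g).symm⟩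
  rw [hset, ← Set.ncard_eq_toFinset_card (E n) (hfin n)] at hup
  rw [Real.dist_eq, abs_lt]
  constructor
  · have : entX X ≤ Real.log (cnt X (E n)) / ((E n).ncard : ℝ) := by
      rw [le_div_iff₀ hpos, mul_comm]; exact hlow
    linarith
  · linarith

end Pool.Agent.H45.Ent
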