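/-
The sets `Π_{J,M} = ⋃_{j<J} t^{-j} A(M)` of a tower: membership, cardinality, multiplication.
MP_f39e07_an, owner helper45.

HINTS.  `g ∈ Π_{J,M}` with witness `j` has level `-j` (elements of `A(M)` have level 0), so the
witness is unique and `Π_{J,M}` is the disjoint union of the sets `t^{-j} A(M)`, `j < J`, each in
bijection with `A(M)`.
* `a * t^{-j} h = t^{-j} (t^j a t^{-j}) h = t^{-j} (a_j h)`, and `a_j ∈ A(M)` if `j < J ≤ M`.
* for `x ∈ A(n)`: `x t^{-j} h = t^{-j} (t^j x t^{-j}) h`, `t^j x t^{-j} ∈ A(j+n)` (`conj_mem_win`)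
  and `j + n ≤ M` when `j ≤ J-1` and `J + n ≤ M + 1`.
-/
import Pool.Agent.H45.Ent.Win

set_option autoImplicit false

namespace Pool.Agent.H45.Ent.Tower

variable (T : Tower)

theorem mem_Pi {J M : ℕ} {g : T.G} :
    g ∈ T.Pi J M ↔ ∃ j < J, T.lv g = -(j : ℤ) ∧ T.t ^ j * g ∈ T.A M := by
  constructor
  · rintro ⟨j, hj, h⟩
    refine ⟨j, hj, ?_, h⟩
    have := T.lv_win h
    simp at this
    linarith
  · rintro ⟨j, hj, _, h⟩
    exact ⟨j, hj, h⟩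

theorem mem_Pi_iff_exists {J M : ℕ} {g : T.G} :
    g ∈ T.Pi J M ↔ ∃ j < J, ∃ h ∈ T.A M, g = (T.t ^ j)⁻¹ * h := by
  constructor
  · rintro ⟨j, hj, h⟩
    exact ⟨j, hj, _, h, by simp⟩
  · rintro ⟨j, hj, h, hh, rfl⟩
    exact ⟨j, hj, by simpa using hh⟩

theorem lv_le_of_mem_Pi {J M : ℕ} {g : T.G} (hg : g ∈ T.Pi J M) :
    T.lv g ≤ 0 ∧ -(J : ℤ) < T.lv g := by
  obtain ⟨j, hj, hl, _⟩ := T.mem_Pi.1 hg
  omega

theorem A_finite (M : ℕ) : (T.A M : Set T.G).Finite :=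
  Set.finite_coe_iff.1 (T.fin M)

theorem Pi_finite (J M : ℕ) : (T.Pi J M).Finite := by
  have h1 : (⋃ j ∈ Set.Iio J, (fun h => (T.t ^ j)⁻¹ * h) '' (T.A M : Set T.G)).Finite := by
    refine Set.Finite.biUnion (Set.finite_Iio J) fun j _ => ?_
    exact Set.Finite.image _ (T.A_finite M)
  refine h1.subset fun g hg => ?_
  obtain ⟨j, hj, h, hh, rfl⟩ := T.mem_Pi_iff_exists.1 hg
  simp only [Set.mem_iUnion]
  exact ⟨j, hj, h, hh, rfl⟩

theorem ncard_Pi (J M : ℕ) : (T.Pi J M).ncard = J * Nat.card (T.A M) := by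
  have h1 : T.Pi J M =
      (fun p : Fin J × T.A M => (T.t ^ (p.1 : ℕ))⁻¹ * (p.2 : T.G)) '' Set.univ := by
    ext g
    rw [T.mem_Pi_iff_exists]
    constructor
    · rintro ⟨j, hj, h, hh, rfl⟩
      exact ⟨(⟨j, hj⟩, ⟨h, hh⟩), trivial, rfl⟩
    · rintro ⟨⟨j, h⟩, _, rfl⟩
      exact ⟨j, j.2, h, h.2, rfl⟩
  have hinj : Function.Injective
      (fun p : Fin J × T.A M => (T.t ^ (p.1 : ℕ))⁻¹ * (p.2 : T.G)) := by
    rintro ⟨j, h⟩ ⟨j', h'⟩ heq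
    simp only at heq
    have h2 := congrArg T.lv heq
    simp only [lv_mul, lv_inv, lv_pow, lv_t, T.lv_win h.2, T.lv_win h'.2] at h2
    have h3 : j = j' := Fin.ext (by omega)
    subst h3
    have h4 := mul_left_cancel heq
    rw [Prod.mk.injEq]
    exact ⟨rfl, Subtype.ext h4⟩
  rw [h1, Set.ncard_image_of_injective _ hinj, Set.ncard_univ, Nat.card_prod, Nat.card_fin]

theorem Pi_mono {J J' M M' : ℕ} (hJ : J ≤ J') (hM : M ≤ M') : T.Pi J M ⊆ T.Pi J' M' := by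
  rintro g ⟨j, hj, h⟩
  exact ⟨j, hj.trans_le hJ, win_mono _ _ hM h⟩

theorem A_subset_Pi {J M : ℕ} (hJ : 0 < J) {h : T.G} (hh : h ∈ T.A M) : h ∈ T.Pi J M :=
  ⟨0, hJ, by simpa using hh⟩

theorem one_mem_Pi {J M : ℕ} (hJ : 0 < J) : (1 : T.G) ∈ T.Pi J M :=
  T.A_subset_Pi hJ (Subgroup.one_mem _)

/-- level zero part -/
theorem mem_Pi_lv_zero {J M : ℕ} {g : T.G} (hg : g ∈ T.Pi J M) (h : T.lv g = 0) : g ∈ T.A M := by
  obtain ⟨j, _, hl, hj⟩ := T.mem_Pi.1 hg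
  have : j = 0 := by omega
  subst this
  simpa using hj

private theorem win_mul_mem_aux {n J M : ℕ} {x : T.G} (hx : x ∈ T.A n) {g : T.G} {j : ℕ}
    (hj : j < J) (hjn : j + n ≤ M) (hg : T.t ^ j * g ∈ T.A M) : x * g ∈ T.Pi J M := by
  refine ⟨j, hj, ?_⟩
  have h1 := win_mono _ _ hjn (conj_mem_win T.a T.t j hx)
  have h2 : T.t ^ j * (x * g) = (T.t ^ j * x * (T.t ^ j)⁻¹) * (T.t ^ j * g) := by group
  rw [h2]
  exact Subgroup.mul_mem _ h1 hg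

theorem win_mul_mem_Pi {n J M : ℕ} (h : J + n ≤ M + 1) {x : T.G} (hx : x ∈ T.A n) {g : T.G} :
    x * g ∈ T.Pi J M ↔ g ∈ T.Pi J M := by
  have key : ∀ x ∈ T.A n, ∀ g ∈ T.Pi J M, x * g ∈ T.Pi J M := by
    rintro x hx g ⟨j, hj, hg⟩
    exact T.win_mul_mem_aux hx hj (by omega) hg
  constructor
  · intro h1
    have := key x⁻¹ (Subgroup.inv_mem _ hx) _ h1
    simpa using this
  · exact key x hx g

theorem a_mul_mem_Pi {J M : ℕ} (h : J ≤ M) {g : T.G} :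
    T.a * g ∈ T.Pi J M ↔ g ∈ T.Pi J M :=
  T.win_mul_mem_Pi (n := 1) (by omega) (a_mem_win _ _ one_pos)

theorem mul_win_mem_Pi {J M : ℕ} {x : T.G} (hx : x ∈ T.A M) {g : T.G} :
    g * x ∈ T.Pi J M ↔ g ∈ T.Pi J M := by
  constructor
  · rintro ⟨j, hj, h⟩
    refine ⟨j, hj, ?_⟩
    rw [← mul_assoc] at h
    exact (Subgroup.mul_mem_cancel_right _ hx).1 h
  · rintro ⟨j, hj, h⟩
    refine ⟨j, hj, ?_⟩
    rw [← mul_assoc]
    exact (Subgroup.mul_mem_cancel_right _ hx).2 h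

theorem t_mul_mem_Pi {J M : ℕ} {g : T.G} (hg : g ∈ T.Pi J M) (h : T.lv g ≠ 0) :
    T.t * g ∈ T.Pi J M := by
  obtain ⟨j, hj, hl, hm⟩ := T.mem_Pi.1 hg
  obtain ⟨i, rfl⟩ : ∃ i, j = i + 1 := ⟨j - 1, by omega⟩
  refine ⟨i, by omega, ?_⟩
  rw [← mul_assoc, ← pow_succ]
  exact hm

theorem t_inv_mul_mem_Pi {J M : ℕ} {g : T.G} (hg : g ∈ T.Pi J M) (h : -T.lv g + 1 < J) :
    T.t⁻¹ * g ∈ T.Pi J M := by
  obtain ⟨j, hj, hl, hm⟩ := T.mem_Pi.1 hg
  refine ⟨j + 1, by omega, ?_⟩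
  have : T.t ^ (j + 1) * (T.t⁻¹ * g) = T.t ^ j * g := by
    rw [pow_succ]; group
  rw [this]
  exact hm

/-- the only elements of `t • Π` outside `Π` are those of level one -/
theorem ncard_t_image_diff_Pi (J M : ℕ) :
    ((fun g => T.t * g) '' T.Pi J M \ T.Pi J M).ncard ≤ Nat.card (T.A M) := by
  have h1 : (fun g => T.t * g) '' T.Pi J M \ T.Pi J M ⊆
      (fun g => T.t * g) '' (T.A M : Set T.G) := by
    rintro _ ⟨⟨g, hg, rfl⟩, h⟩
    refine ⟨g, ?_, rfl⟩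
    by_contra hA
    apply h
    apply T.t_mul_mem_Pi hg
    intro h0
    exact hA (T.mem_Pi_lv_zero hg h0)
  have hfin : (T.A M : Set T.G).Finite := T.A_finite M
  calc _ ≤ ((fun g => T.t * g) '' (T.A M : Set T.G)).ncard :=
        Set.ncard_le_ncard h1 (hfin.image _)
    _ ≤ (T.A M : Set T.G).ncard := Set.ncard_image_le hfin
    _ = Nat.card (T.A M) := Nat.card_coe_set_eq _ |>.symm

theorem W_finite (n : ℕ) : (T.W n).Finite := T.Pi_finite n n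

theorem ncard_W (n : ℕ) : (T.W n).ncard = n * Nat.card (T.A n) := T.ncard_Pi n n

theorem ncard_W_pos {n : ℕ} (hn : 0 < n) : 0 < (T.W n).ncard := by
  rw [ncard_W]
  exact Nat.mul_pos hn Nat.card_pos

/-- exact tiling of `Π_{n r, M}` by right translates of `W_n` (`n r ≤ M`).
`Γ` = a set of representatives of the right cosets `A(n) g`, `g ∈ Π`, `n ∣ lv g` (the group `A(n)`
acts on this set by left multiplication since `t^{in} A(n) t^{-in} ⊆ A(in+n) ⊆ A(M)` for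
`i < r`).  `W_n g = ⋃_{j<n} t^{-j} A(n) g`. -/
theorem exists_tiling {n r M : ℕ} (hn : 0 < n) (hM : n * r ≤ M) :
    ∃ Γ : Finset T.G, (∀ g ∈ Γ, g ∈ T.Pi (n * r) M ∧ (n : ℤ) ∣ T.lv g) ∧
      Set.BijOn (fun p : T.G × T.G => p.1 * p.2) (T.W n ×ˢ (Γ : Set T.G)) (T.Pi (n * r) M) ∧
      Set.BijOn (fun p : T.G × T.G => p.1 * p.2) ((T.A n : Set T.G) ×ˢ (Γ : Set T.G))
        {g | g ∈ T.Pi (n * r) M ∧ (n : ℤ) ∣ T.lv g} := by
  classical
  set S : Set T.G := {g | g ∈ T.Pi (n * r) M ∧ (n : ℤ) ∣ T.lv g} with hS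
  have hSfin : S.Finite := (T.Pi_finite (n * r) M).subset fun g hg => hg.1
  -- the form of the elements of `S`
  have hform : ∀ g ∈ S, ∃ i < r, T.lv g = -((n * i : ℕ) : ℤ) ∧ T.t ^ (n * i) * g ∈ T.A M := by
    rintro g ⟨hg, hd⟩
    obtain ⟨j, hj, hl, hm⟩ := T.mem_Pi.1 hg
    rw [hl, dvd_neg] at hd
    obtain ⟨i, rfl⟩ := Int.natCast_dvd_natCast.1 hd
    exact ⟨i, Nat.lt_of_mul_lt_mul_left hj, hl, hm⟩
  have hact : ∀ x ∈ T.A n, ∀ g ∈ S, x * g ∈ S := by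
    rintro x hx g hg
    obtain ⟨i, hi, hl, hm⟩ := hform g hg
    have h1 : n * i + n ≤ n * r := by
      calc n * i + n = n * (i + 1) := by ring
        _ ≤ n * r := Nat.mul_le_mul_left _ hi
    refine ⟨T.win_mul_mem_aux hx (by omega) (h1.trans hM) hm, ?_⟩
    rw [lv_mul, T.lv_win hx, zero_add]
    exact hg.2
  -- representatives
  let q : T.G → Quotient (QuotientGroup.rightRel (T.A n)) := Quotient.mk _
  have hq : ∀ g h : T.G, q g = q h ↔ h * g⁻¹ ∈ T.A n := by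
    intro g h
    rw [← QuotientGroup.rightRel_apply]
    exact Quotient.eq
  have hrep : ∀ c : Quotient (QuotientGroup.rightRel (T.A n)), ∃ s : T.G,
      c ∈ q '' S → s ∈ S ∧ q s = c := by
    intro c
    by_cases hc : c ∈ q '' S
    · obtain ⟨s, hs, hsc⟩ := hc
      exact ⟨s, fun _ => ⟨hs, hsc⟩⟩
    · exact ⟨1, fun h => absurd h hc⟩
  choose s hs using hrep
  have hQfin : (q '' S).Finite := hSfin.image _
  set Γ : Finset T.G := hQfin.toFinset.image s with hΓ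
  have hΓS : ∀ g ∈ Γ, g ∈ S ∧ s (q g) = g := by
    intro g hg
    rw [hΓ, Finset.mem_image] at hg
    obtain ⟨c, hc, rfl⟩ := hg
    rw [Set.Finite.mem_toFinset] at hc
    obtain ⟨h1, h2⟩ := hs c hc
    exact ⟨h1, by rw [h2]⟩
  have hsΓ : ∀ g ∈ S, s (q g) ∈ Γ := by
    intro g hg
    rw [hΓ, Finset.mem_image]
    exact ⟨q g, by rw [Set.Finite.mem_toFinset]; exact ⟨g, hg, rfl⟩, rfl⟩
  -- injectivity for `A n × Γ`
  have hinjA : ∀ x ∈ T.A n, ∀ x' ∈ T.A n, ∀ g ∈ Γ, ∀ g' ∈ Γ, x * g = x' * g' →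
      x = x' ∧ g = g' := by
    intro x hx x' hx' g hg g' hg' heq
    have h1 : q g = q g' := by
      rw [hq]
      have : g' * g⁻¹ = x'⁻¹ * x := by
        rw [mul_inv_eq_iff_eq_mul, mul_assoc, heq]; group
      rw [this]
      exact Subgroup.mul_mem _ (Subgroup.inv_mem _ hx') hx
    have h2 : g = g' := by rw [← (hΓS g hg).2, ← (hΓS g' hg').2, h1]
    subst h2
    exact ⟨mul_right_cancel heq, rfl⟩
  have hsurjA : ∀ h ∈ S, ∃ x ∈ T.A n, ∃ g ∈ Γ, x * g = h := by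
    intro h hh
    have h1 := hs (q h) ⟨h, hh, rfl⟩
    refine ⟨h * (s (q h))⁻¹, (hq _ _).1 h1.2, s (q h), hsΓ h hh, by group⟩
  refine ⟨Γ, fun g hg => (hΓS g hg).1, ⟨?_, ?_, ?_⟩, ⟨?_, ?_, ?_⟩⟩
  · rintro ⟨w, g⟩ ⟨hw, hg⟩
    obtain ⟨j, hj, x, hx, hwx⟩ := T.mem_Pi_iff_exists.1 hw
    simp only at hwx hg ⊢
    have h1 := hact x hx g (hΓS g hg).1
    obtain ⟨i, hi, hl, hm⟩ := hform _ h1
    refine ⟨n * i + j, ?_, ?_⟩
    · calc n * i + j < n * i + n := by omega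
        _ = n * (i + 1) := by ring
        _ ≤ n * r := Nat.mul_le_mul_left _ hi
    · have h2 : T.t ^ (n * i + j) * (w * g) = T.t ^ (n * i) * (x * g) := by
        rw [hwx, pow_add]; group
      rw [h2]
      exact hm
  · rintro ⟨w, g⟩ ⟨hw, hg⟩ ⟨w', g'⟩ ⟨hw', hg'⟩ heq
    obtain ⟨j, hj, x, hx, hwx⟩ := T.mem_Pi_iff_exists.1 hw
    obtain ⟨j', hj', x', hx', hwx'⟩ := T.mem_Pi_iff_exists.1 hw'
    simp only at hwx hwx' hg hg' heq
    have h1 := (hΓS g hg).1.2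
    have h1' := (hΓS g' hg').1.2
    have h2 : T.lv (w * g) = T.lv (w' * g') := by rw [heq]
    rw [hwx, hwx'] at h2
    simp only [lv_mul, lv_inv, lv_pow, lv_t, T.lv_win hx, T.lv_win hx'] at h2
    have h3 : (n : ℤ) ∣ (j : ℤ) - j' := by
      have : (j : ℤ) - j' = T.lv g - T.lv g' := by linarith
      rw [this]
      exact dvd_sub h1 h1'
    have h4 : j = j' := by
      obtain ⟨c, hc⟩ := h3
      have hc0 : c = 0 := by
        by_contra hne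
        rcases lt_or_gt_of_ne hne with hlt | hgt
        · have : (n : ℤ) * c ≤ -n := by nlinarith
          omega
        · have : (n : ℤ) ≤ n * c := by nlinarith
          omega
      rw [hc0] at hc
      omega
    subst h4
    rw [hwx, hwx', mul_assoc, mul_assoc] at heq
    have h5 := hinjA x hx x' hx' g hg g' hg' (mul_left_cancel heq)
    rw [Prod.mk.injEq, hwx, hwx', h5.1, h5.2]
    exact ⟨rfl, rfl⟩
  · intro h hh
    obtain ⟨k, hk, hl, hm⟩ := T.mem_Pi.1 hh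
    have hkd : n * (k / n) + k % n = k := Nat.div_add_mod k n
    have hkm : k % n < n := Nat.mod_lt _ hn
    set j := k % n with hj
    set i := k / n with hi
    have h1 : T.t ^ j * h ∈ S := by
      refine ⟨⟨n * i, by omega, ?_⟩, ?_⟩
      · rw [← mul_assoc, ← pow_add, hkd]; exact hm
      · rw [lv_mul, lv_pow, lv_t, hl]
        refine ⟨-(i : ℤ), ?_⟩
        have : (k : ℤ) = n * i + j := by exact_mod_cast hkd.symm
        rw [this]; ring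
    obtain ⟨x, hx, g, hg, hxg⟩ := hsurjA _ h1
    refine ⟨((T.t ^ j)⁻¹ * x, g), ⟨?_, hg⟩, ?_⟩
    · exact T.mem_Pi_iff_exists.2 ⟨j, hkm, x, hx, rfl⟩
    · simp only
      rw [mul_assoc, hxg]; group
  · rintro ⟨x, g⟩ ⟨hx, hg⟩
    exact hact x hx g (hΓS g hg).1
  · rintro ⟨x, g⟩ ⟨hx, hg⟩ ⟨x', g'⟩ ⟨hx', hg'⟩ heq
    obtain ⟨h1, h2⟩ := hinjA x hx x' hx' g hg g' hg' heq
    rw [Prod.mk.injEq]
    exact ⟨h1, h2⟩
  · intro h hh
    obtain ⟨x, hx, g, hg, hxg⟩ := hsurjA h hh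
    exact ⟨(x, g), ⟨hx, hg⟩, hxg⟩

end Pool.Agent.H45.Ent.Tower
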