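/-
Towers are infinite, finitely generated, and the blocks `W_n` are left Følner sets.
MP_f39e07_an, owner helper45.

PROOFS.
* `foelner_W`: let `∂(γ,S) = (γ S \ S).ncard`.  For finite `S`: `∂(γγ',S) ≤ ∂(γ,S) + ∂(γ',S)`
  (`γγ'S \ S ⊆ γ(γ'S \ S) ∪ (γS \ S)`), `∂(γ⁻¹,S) = (S \ γS).ncard = ∂(γ,S)` (equal cardinality),
  `∂(a, W_n) = 0` (`a_mul_mem_Pi`), `∂(t, W_n) ≤ |A(n)| = |W_n|/n` (`ncard_t_image_diff_Pi`).
  So the set of `γ` with `∂(γ,W_n)/|W_n| → 0` is a subgroup containing `a, t`, hence everything.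
* `exists_translate_subset_W`: the set of `g : G` for which there are `c, r₀` such that for all
  `r ≥ r₀`, `t^(r - lv g) g t^{-r} ∈ A(r + c)` is a subgroup containing `a, t`, hence everything.
  Then for `d ∈ D`, `γ = t^{-i}` works for `i` large and `n` large after `i`.
-/
import Pool.Agent.H45.Ent.PiSets

set_option autoImplicit false

open Filter Topology

namespace Pool.Agent.H45.Ent.Tower

variable (T : Tower)

theorem infinite : Infinite T.G := by
  refine Infinite.of_injective (fun k : ℤ => T.t ^ k) ?_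
  intro k l h
  have := congrArg T.lv h
  simpa using this

theorem fg : Group.FG T.G := by
  rw [Group.fg_iff]
  exact ⟨{T.a, T.t}, T.gen, Set.toFinite _⟩

section bd

variable {G : Type*} [Group G]

/-- size of the part of `γ S` outside `S` -/
noncomputable def bd (S : Set G) (γ : G) : ℕ := ((fun g => γ * g) '' S \ S).ncard

theorem bd_mul {S : Set G} (hS : S.Finite) (γ γ' : G) : bd S (γ * γ') ≤ bd S γ + bd S γ' := by
  have hsub : (fun g => γ * γ' * g) '' S \ S ⊆
      (fun g => γ * g) '' ((fun g => γ' * g) '' S \ S) ∪ ((fun g => γ * g) '' S \ S) := by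
    rintro _ ⟨⟨g, hg, rfl⟩, h⟩
    by_cases h' : γ' * g ∈ S
    · right
      exact ⟨⟨γ' * g, h', by simp [mul_assoc]⟩, h⟩
    · left
      exact ⟨γ' * g, ⟨⟨g, hg, rfl⟩, h'⟩, by simp [mul_assoc]⟩
  have hf1 : ((fun g => γ * g) '' ((fun g => γ' * g) '' S \ S)).Finite :=
    ((hS.image _).sdiff).image _
  have hf2 : ((fun g => γ * g) '' S \ S).Finite := (hS.image _).sdiff
  calc bd S (γ * γ') ≤ _ := Set.ncard_le_ncard hsub (hf1.union hf2)
    _ ≤ _ := Set.ncard_union_le _ _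
    _ = bd S γ' + bd S γ := by
      rw [Set.ncard_image_of_injective _ (mul_right_injective γ)]; rfl
    _ = _ := add_comm _ _

theorem bd_inv {S : Set G} (hS : S.Finite) (γ : G) : bd S γ⁻¹ = bd S γ := by
  have h1 : (fun g => γ⁻¹ * g) '' S \ S = (fun g => γ⁻¹ * g) '' (S \ (fun g => γ * g) '' S) := by
    ext x
    constructor
    · rintro ⟨⟨g, hg, rfl⟩, h⟩
      refine ⟨g, ⟨hg, ?_⟩, rfl⟩
      rintro ⟨y, hy, rfl⟩
      exact h (by simpa using hy)
    · rintro ⟨g, ⟨hg, h⟩, rfl⟩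
      refine ⟨⟨g, hg, rfl⟩, fun h' => h ⟨γ⁻¹ * g, h', by simp⟩⟩
  have h2 : ((fun g => γ * g) '' S).ncard = S.ncard :=
    Set.ncard_image_of_injective _ (mul_right_injective γ)
  unfold bd
  rw [h1, Set.ncard_image_of_injective _ (mul_right_injective γ⁻¹)]
  have h3 := Set.ncard_inter_add_ncard_sdiff_eq_ncard S ((fun g => γ * g) '' S) hS
  have h4 := Set.ncard_inter_add_ncard_sdiff_eq_ncard ((fun g => γ * g) '' S) S (hS.image _)
  rw [Set.inter_comm] at h4
  omega

theorem bd_one (S : Set G) : bd S (1 : G) = 0 := by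
  simp [bd]

end bd

theorem bd_a (n : ℕ) : bd (T.W n) T.a = 0 := by
  have : (fun g => T.a * g) '' T.W n \ T.W n = ∅ := by
    rw [Set.sdiff_eq_empty]
    rintro _ ⟨g, hg, rfl⟩
    exact (T.a_mul_mem_Pi le_rfl).2 hg
  rw [bd, this, Set.ncard_empty]

theorem bd_t (n : ℕ) : bd (T.W n) T.t ≤ Nat.card (T.A n) := T.ncard_t_image_diff_Pi n n

theorem foelner_W (γ : T.G) :
    Tendsto (fun n => (((fun g => γ * g) '' T.W n \ T.W n).ncard : ℝ) / ((T.W n).ncard : ℝ))
      atTop (𝓝 0) := by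
  change Tendsto (fun n => (bd (T.W n) γ : ℝ) / ((T.W n).ncard : ℝ)) atTop (𝓝 0)
  have hγ : γ ∈ Subgroup.closure {T.a, T.t} := by rw [T.gen]; trivial
  induction hγ using Subgroup.closure_induction with
  | mem x hx =>
    rcases hx with rfl | rfl
    · simp [bd_a]
    · refine squeeze_zero' (g := fun n : ℕ => 1 / (n : ℝ)) (Eventually.of_forall fun n => by positivity)
        ?_ tendsto_one_div_atTop_nhds_zero_nat
      filter_upwards [eventually_gt_atTop 0] with n hn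
      have h1 : (bd (T.W n) T.t : ℝ) ≤ Nat.card (T.A n) := by exact_mod_cast T.bd_t n
      have h2 : ((T.W n).ncard : ℝ) = n * Nat.card (T.A n) := by exact_mod_cast T.ncard_W n
      have h3 : (0 : ℝ) < (T.W n).ncard := by exact_mod_cast T.ncard_W_pos hn
      have hn' : (0 : ℝ) < n := by exact_mod_cast hn
      rw [div_le_div_iff₀ h3 hn', h2]
      nlinarith
  | one => simp [bd_one]
  | mul x y _ _ hx hy =>
    refine squeeze_zero (fun n => by positivity) (fun n => ?_) (by simpa using hx.add hy)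
    have h1 : (bd (T.W n) (x * y) : ℝ) ≤ bd (T.W n) x + bd (T.W n) y := by
      exact_mod_cast bd_mul (T.W_finite n) x y
    rw [← add_div]
    exact div_le_div_of_nonneg_right h1 (by positivity)
  | inv x _ hx =>
    have : ∀ n, bd (T.W n) x⁻¹ = bd (T.W n) x := fun n => bd_inv (T.W_finite n) x
    simpa [this] using hx

theorem isFoelner : IsFoelner T.G := by
  intro K ε hε
  have h : ∀ k ∈ K, ∀ᶠ n in atTop,
      (((fun g => k * g) '' T.W n \ T.W n).ncard : ℝ) / ((T.W n).ncard : ℝ) < ε :=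
    fun k _ => (T.foelner_W k).eventually (gt_mem_nhds hε)
  rw [← Filter.eventually_all_finset] at h
  obtain ⟨n, hn, hn0⟩ := (h.and (eventually_gt_atTop 0)).exists
  have h3 : 0 < (T.W n).ncard := T.ncard_W_pos hn0
  refine ⟨(T.W_finite n).toFinset, ?_, ?_⟩
  · rw [Set.Finite.toFinset_nonempty]
    exact Set.nonempty_of_ncard_ne_zero h3.ne'
  · intro k hk
    have h4 := hn k hk
    rw [div_lt_iff₀ (by exact_mod_cast h3)] at h4
    rw [Set.Finite.coe_toFinset, ← Set.ncard_eq_toFinset_card (T.W n) (T.W_finite n)]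
    exact h4

/-- every element is moved into the windows -/
theorem exists_conj_mem (g : T.G) :
    ∃ c r₀ : ℕ, ∀ r : ℕ, r₀ ≤ r → ∃ j : ℕ, (j : ℤ) = r - T.lv g ∧
      T.t ^ j * g * (T.t ^ r)⁻¹ ∈ T.A (r + c) := by
  have hγ : g ∈ Subgroup.closure {T.a, T.t} := by rw [T.gen]; trivial
  induction hγ using Subgroup.closure_induction with
  | mem x hx =>
    rcases hx with rfl | rfl
    · refine ⟨1, 0, fun r _ => ⟨r, by simp, ?_⟩⟩
      exact aj_mem_win T.a T.t (Nat.lt_succ_self r)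
    · refine ⟨0, 1, fun r hr => ⟨r - 1, by simp [Nat.cast_sub hr], ?_⟩⟩
      have : T.t ^ (r - 1) * T.t = T.t ^ r := by
        rw [← pow_succ, Nat.sub_add_cancel hr]
      rw [this, mul_inv_cancel]
      exact Subgroup.one_mem _
  | one => exact ⟨0, 0, fun r _ => ⟨r, by simp, by simp⟩⟩
  | mul x y _ _ hx hy =>
    obtain ⟨cx, rx, hx⟩ := hx
    obtain ⟨cy, ry, hy⟩ := hy
    refine ⟨cx + cy + (T.lv y).natAbs, rx + ry + (T.lv y).natAbs, fun r hr => ?_⟩
    obtain ⟨j, hj, hj'⟩ := hy r (by omega)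
    obtain ⟨k, hk, hk'⟩ := hx j (by omega)
    refine ⟨k, by rw [lv_mul]; omega, ?_⟩
    have : T.t ^ k * (x * y) * (T.t ^ r)⁻¹
        = (T.t ^ k * x * (T.t ^ j)⁻¹) * (T.t ^ j * y * (T.t ^ r)⁻¹) := by
      simp only [mul_assoc, inv_mul_cancel_left]
    rw [this]
    refine Subgroup.mul_mem _ (win_mono _ _ ?_ hk') (win_mono _ _ ?_ hj') <;> omega
  | inv x _ hx =>
    obtain ⟨c, r₀, hx⟩ := hx
    refine ⟨c + (T.lv x).natAbs, r₀ + (T.lv x).natAbs, fun r hr => ?_⟩
    obtain ⟨j, hj, hj'⟩ := hx (r + T.lv x).toNat (by omega)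
    have hjr : j = r := by omega
    subst hjr
    refine ⟨(j + T.lv x).toNat, by rw [lv_inv]; omega, ?_⟩
    have : T.t ^ (j + T.lv x).toNat * x⁻¹ * (T.t ^ j)⁻¹
        = (T.t ^ j * x * (T.t ^ (j + T.lv x).toNat)⁻¹)⁻¹ := by
      simp only [mul_inv_rev, inv_inv, mul_assoc]
    rw [this]
    refine Subgroup.inv_mem _ (win_mono _ _ ?_ hj')
    omega

/-- any finite set can be moved into `W_n` by a right translation -/
theorem exists_translate_subset_W (D : Finset T.G) :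
    ∃ n₀, ∀ n, n₀ ≤ n → ∃ γ : T.G, ∀ d ∈ D, d * γ ∈ T.W n := by
  choose c r₀ h using T.exists_conj_mem
  set i : ℕ := ∑ d ∈ D, r₀ d with hi
  refine ⟨i + ∑ d ∈ D, (c d + (T.lv d).natAbs) + 1, fun n hn => ⟨(T.t ^ i)⁻¹, fun d hd => ?_⟩⟩
  have h1 : r₀ d ≤ i := Finset.single_le_sum (f := r₀) (fun _ _ => Nat.zero_le _) hd
  have h2 : c d + (T.lv d).natAbs ≤ ∑ d ∈ D, (c d + (T.lv d).natAbs) :=
    Finset.single_le_sum (f := fun d => c d + (T.lv d).natAbs) (fun _ _ => Nat.zero_le _) hd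
  obtain ⟨j, hj, hj'⟩ := h d i h1
  refine ⟨j, by omega, ?_⟩
  rw [← mul_assoc]
  exact win_mono _ _ (by omega) hj'

end Pool.Agent.H45.Ent.Tower
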