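/-
The locally admissible block counts compute the entropy: `u_n(T) → ent_T`, `ent_T ≤ u_n(T)`.
MP_f39e07_an, owner helper45.

PROOFS.
* `ent_le_locCnt`: a restriction of a global configuration is locally admissible:
  `cnt (shift) S ≤ locCnt S`; use `card_mul_entX_le`.
* `exists_compact` (compactness): for a finite set `F'` there is a finite `B ⊇ F'` such that every
  `x ∈ loc a t B` agrees on `F'` with some element of the shift.  (For each pattern on `F'` which is
  not the restriction of an element of the shift, the closed sets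
  `{x | x = p on F'} ∩ loc a t B`, `B` finite, have empty intersection in the compact space
  `G → Fin k`; `loc` is antitone in `B` up to: take `B` closed under what you need, e.g. use the
  sets `C_g = {x | Ra (x g) (x (a g)) ∧ Rt (x g) (x (t g))}` which are clopen, the shift is
  `⋂ C_g`; a finite subfamily `⋂_{g∈B₀} C_g ∩ {x = p on F'}` is empty; `B = B₀ ∪ aB₀ ∪ tB₀ ∪ F'`.)
  There are finitely many patterns.
* `tendsto_u`: let `F'` finite nonempty, `c = cnt (shift) F'`, `B` from `exists_compact`,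
  `X_n = loc a t W_n`.  If `B γ ⊆ W_n` then the patterns of `X_n` on `F' γ` are at most `c`
  (translate: `x ↦ (g ↦ x (g γ))` maps `loc W_n` into `loc (W_n γ⁻¹) ⊆ loc B`).  Shearer with the
  sets `F' γ`, `γ ∈ {γ | ∃ f ∈ F', f γ ∈ W_n}`, `m = |F'|`:
  `|F'| log M_n ≤ |W_n| (1+o(1)) log c + o(|W_n|) |F'| log k`: the number of `γ` is
  `≤ |W_n| + Σ_{κ ∈ F'⁻¹} |κW_n \ W_n|` and the number of those with `Bγ ⊄ W_n` is
  `≤ #{γ ∉ W_n} + Σ_{b∈B} |W_n \ b⁻¹W_n|`, all `o(|W_n|)` by `foelner_W`.  If `c = 0` then the shift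
  is empty and (for `n` large, some `B γ ⊆ W_n`) `M_n = 0`, `u_n = 0 = ent`.
  Together with `ent ≤ u_n` and the definition of `entX` as an infimum: `u_n → ent`.
-/
import Pool.Agent.H45.Ent.EntGen
import Pool.Agent.H45.Ent.TowerFol

set_option autoImplicit false

open Filter Topology

namespace Pool.Agent.H45.Ent

theorem rinv_shift {G : Type*} [Group G] (F : Sys) (a t : G) : RInv (F.shift a t) := by
  intro γ x hx g
  have h := hx (g * γ)
  simpa only [mul_assoc] using h

theorem shift_subset_loc {G : Type*} [Group G] (F : Sys) (a t : G) (S : Set G) :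
    F.shift a t ⊆ F.loc a t S := fun _ hx g _ => ⟨fun _ => (hx g).1, fun _ => (hx g).2⟩

theorem cnt_shift_le_locCnt {G : Type*} [Group G] (F : Sys) (a t : G) (S : Set G)
    (hS : S.Finite) : cnt (F.shift a t) S ≤ F.locCnt a t S :=
  cnt_mono hS (shift_subset_loc F a t S)

/-- for any finite set `S` of any marked group -/
theorem card_mul_entX_le_locCnt {G : Type*} [Group G] (F : Sys) (a t : G) (S : Set G)
    (hS : S.Finite) : (S.ncard : ℝ) * entX (F.shift a t) ≤ Real.log (F.locCnt a t S) := by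
  rcases (F.shift a t).eq_empty_or_nonempty with h | h
  · rw [h, entX_empty, mul_zero]
    exact Real.log_natCast_nonneg _
  · refine (card_mul_entX_le _ S hS).trans ?_
    have h1 : 0 < cnt (F.shift a t) S := (cnt_pos hS).2 h
    have h2 := cnt_shift_le_locCnt F a t S hS
    exact Real.log_le_log (by exact_mod_cast h1) (by exact_mod_cast h2)

/-- compactness -/
theorem exists_compact {G : Type*} [Group G] (F : Sys) (a t : G) (F' : Finset G) :
    ∃ B : Finset G, F' ⊆ B ∧ (1 : G) ∈ B ∧
      ∀ x ∈ F.loc a t (B : Set G), ∃ y ∈ F.shift a t, ∀ f ∈ F', x f = y f := by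
  classical
  let C : G → Set (G → Fin F.k) := fun g => {x | F.Ra (x g) (x (a * g)) ∧ F.Rt (x g) (x (t * g))}
  have hC : ∀ g, IsClosed (C g) := by
    intro g
    have h1 : C g = (fun x : G → Fin F.k => (x g, x (a * g), x (t * g))) ⁻¹'
        {p : Fin F.k × Fin F.k × Fin F.k | F.Ra p.1 p.2.1 ∧ F.Rt p.1 p.2.2} := rfl
    rw [h1]
    refine IsClosed.preimage ?_ (isClosed_discrete _)
    fun_prop
  let K : Set (G → Fin F.k) := {x | ¬ ∃ y ∈ F.shift a t, ∀ f ∈ F', x f = y f}
  have hK : IsClosed K := by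
    have h1 : K = (fun (x : G → Fin F.k) (f : F') => x f) ⁻¹'
        {p : F' → Fin F.k | ¬ ∃ y ∈ F.shift a t, ∀ f : F', p f = y f} := by
      ext x
      simp only [K, Set.mem_ofPred_eq, Set.mem_preimage, Subtype.forall]
    rw [h1]
    refine IsClosed.preimage ?_ (isClosed_discrete _)
    fun_prop
  have hKc : IsCompact K := hK.isCompact
  have hemp : (K ∩ ⋂ g, C g) = ∅ := by
    rw [Set.eq_empty_iff_forall_notMem]
    rintro x ⟨hx1, hx2⟩
    refine hx1 ⟨x, ?_, fun _ _ => rfl⟩
    intro g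
    exact (Set.mem_iInter.1 hx2) g
  obtain ⟨B₀, hB₀⟩ := hKc.elim_finite_subfamily_closed C hC hemp
  refine ⟨B₀ ∪ B₀.image (fun g => a * g) ∪ B₀.image (fun g => t * g) ∪ F' ∪ {1}, ?_, ?_, ?_⟩
  · intro f hf
    simp [hf]
  · simp
  · intro x hx
    by_contra hcon
    have hxK : x ∈ K := hcon
    have : x ∈ (K ∩ ⋂ g ∈ B₀, C g) := by
      refine ⟨hxK, ?_⟩
      rw [Set.mem_iInter₂]
      intro g hg
      have h1 : g ∈ ((B₀ ∪ B₀.image (fun g => a * g) ∪ B₀.image (fun g => t * g) ∪ F' ∪ {1} :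
          Finset G) : Set G) := by simp [hg]
      have h2 : a * g ∈ ((B₀ ∪ B₀.image (fun g => a * g) ∪ B₀.image (fun g => t * g) ∪ F' ∪ {1} :
          Finset G) : Set G) := by simp [hg]
      have h3 : t * g ∈ ((B₀ ∪ B₀.image (fun g => a * g) ∪ B₀.image (fun g => t * g) ∪ F' ∪ {1} :
          Finset G) : Set G) := by simp [hg]
      exact ⟨(hx g h1).1 h2, (hx g h1).2 h3⟩
    rw [hB₀] at this
    exact this

theorem loc_translate {G : Type*} [Group G] (F : Sys) (a t : G) (B W : Set G) (γ : G)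
    (h : ∀ b ∈ B, b * γ ∈ W) {x : G → Fin F.k} (hx : x ∈ F.loc a t W) :
    (fun g => x (g * γ)) ∈ F.loc a t B := by
  intro g hg
  refine ⟨fun hag => ?_, fun htg => ?_⟩
  · have h1 := (hx (g * γ) (h g hg)).1 (by rw [← mul_assoc]; exact h _ hag)
    simpa only [mul_assoc] using h1
  · have h1 := (hx (g * γ) (h g hg)).2 (by rw [← mul_assoc]; exact h _ htg)
    simpa only [mul_assoc] using h1

theorem cnt_loc_good {G : Type*} [Group G] (F : Sys) (a t : G) (F' B : Finset G) (W : Set G)
    (hB : ∀ x ∈ F.loc a t (B : Set G), ∃ y ∈ F.shift a t, ∀ f ∈ F', x f = y f)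
    (γ : G) (h : ∀ b ∈ B, b * γ ∈ W) :
    cnt (F.loc a t W) ((fun f => f * γ) '' (F' : Set G)) ≤ cnt (F.shift a t) (F' : Set G) := by
  classical
  rcases (F.loc a t W).eq_empty_or_nonempty with h0 | ⟨x0, hx0⟩
  · rw [h0, cnt_empty]; exact Nat.zero_le _
  have : Nonempty (G → Fin F.k) := ⟨x0⟩
  have hex : ∀ x ∈ F.loc a t W, ∃ y, y ∈ F.shift a t ∧ ∀ f ∈ F', x (f * γ) = y f := by
    intro x hx
    obtain ⟨y, hy, hxy⟩ := hB _ (loc_translate F a t (B : Set G) W γ h hx)
    exact ⟨y, hy, hxy⟩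
  choose! c hc using hex
  refine cnt_le_of_inj F'.finite_toSet c (fun x hx => (hc x hx).1) ?_
  rintro x hx x' hx' hcc _ ⟨f, hf, rfl⟩
  rw [(hc x hx).2 f hf, (hc x' hx').2 f hf]
  exact hcc f hf

theorem main_bound {G : Type*} [Group G] (F : Sys) (a t : G) (F' B : Finset G)
    (hF' : F'.Nonempty) (h1B : (1 : G) ∈ B)
    (hB : ∀ x ∈ F.loc a t (B : Set G), ∃ y ∈ F.shift a t, ∀ f ∈ F', x f = y f)
    (W : Set G) (hWf : W.Finite) (hW : W.Nonempty) (hsh : (F.shift a t).Nonempty) :
    Real.log (F.locCnt a t W) / (W.ncard : ℝ) ≤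
      Real.log (cnt (F.shift a t) (F' : Set G)) / F'.card +
      (∑ f ∈ F', (((fun g => f⁻¹ * g) '' W \ W).ncard : ℝ) / (W.ncard : ℝ) +
        ∑ b ∈ B, (((fun g => b * g) '' W \ W).ncard : ℝ) / (W.ncard : ℝ)) * Real.log F.k := by
  classical
  obtain ⟨x0, hx0⟩ := hsh
  have hk : 0 < F.k := lt_of_le_of_lt (Nat.zero_le _) (x0 1).2
  set Wf : Finset G := hWf.toFinset with hWfdef
  have hWcoe : (Wf : Set G) = W := hWf.coe_toFinset
  have hWmem : ∀ g, g ∈ Wf ↔ g ∈ W := fun g => hWf.mem_toFinset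
  have hWcard : W.ncard = Wf.card := Set.ncard_eq_toFinset_card W hWf
  let J : Finset G := F'.biUnion (fun f => Wf.image (fun w => f⁻¹ * w))
  have hJ : ∀ γ, γ ∈ J ↔ ∃ f ∈ F', f * γ ∈ W := by
    intro γ
    simp only [J, Finset.mem_biUnion, Finset.mem_image, hWmem]
    constructor
    · rintro ⟨f, hf, w, hw, rfl⟩
      exact ⟨f, hf, by simpa using hw⟩
    · rintro ⟨f, hf, hw⟩
      exact ⟨f, hf, f * γ, hw, by simp⟩
  let good : G → Prop := fun γ => ∀ b ∈ B, b * γ ∈ W
  have hsub := shearer_cnt (F.loc a t W) Wf J (fun γ => F'.image (fun f => f * γ)) F'.card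
    hF'.card_pos (by
      intro e he
      have hfin : {j : G | j ∈ J ∧ e ∈ F'.image (fun f => f * j)}.Finite :=
        J.finite_toSet.subset (fun j hj => hj.1)
      calc F'.card = (F'.image (fun f => f⁻¹ * e)).card := by
            rw [Finset.card_image_of_injective]
            intro f f' hff
            simpa using hff
        _ = ((F'.image (fun f => f⁻¹ * e) : Finset G) : Set G).ncard := by
            rw [Set.ncard_coe_finset]
        _ ≤ _ := by
            refine Set.ncard_le_ncard ?_ hfin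
            intro γ hγ
            simp only [Finset.coe_image, Set.mem_image, Finset.mem_coe] at hγ
            obtain ⟨f, hf, rfl⟩ := hγ
            refine ⟨(hJ _).2 ⟨f, hf, ?_⟩, ?_⟩
            · simpa using (hWmem e).1 he
            · rw [Finset.mem_image]
              exact ⟨f, hf, by simp⟩)
  rw [hWcoe] at hsub
  set c := cnt (F.shift a t) (F' : Set G) with hc
  have hcpos : 0 < c := (cnt_pos F'.finite_toSet).2 ⟨x0, hx0⟩
  set M := F.locCnt a t W with hM
  have hMpos : 0 < M := (cnt_pos hWf).2 ⟨x0, shift_subset_loc F a t W hx0⟩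
  have hprod : ∏ j ∈ J, cnt (F.loc a t W) ((F'.image (fun f => f * j) : Finset G) : Set G) ≤
      ∏ j ∈ J, (if good j then c else F.k ^ F'.card) := by
    refine Finset.prod_le_prod' ?_
    intro γ _
    split_ifs with hg
    · rw [Finset.coe_image]
      exact cnt_loc_good F a t F' B W hB γ hg
    · refine (cnt_le_pow _ (Finset.finite_toSet _)).trans ?_
      rw [Nat.card_eq_fintype_card, Fintype.card_fin, Set.ncard_coe_finset]
      exact Nat.pow_le_pow_right hk Finset.card_image_le
  rw [Finset.prod_ite, Finset.prod_const, Finset.prod_const] at hprod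
  set Jg := J.filter good
  set Jb := J.filter (fun γ => ¬ good γ)
  have hmain : M ^ F'.card ≤ c ^ Jg.card * (F.k ^ F'.card) ^ Jb.card := hsub.trans hprod
  have hlog : (F'.card : ℝ) * Real.log M ≤
      Jg.card * Real.log c + Jb.card * (F'.card * Real.log F.k) := by
    have h1 : ((M ^ F'.card : ℕ) : ℝ) ≤ ((c ^ Jg.card * (F.k ^ F'.card) ^ Jb.card : ℕ) : ℝ) := by
      exact_mod_cast hmain
    have h2 := Real.log_le_log (by positivity) h1
    push_cast at h2
    rw [Real.log_mul (by positivity) (by positivity), Real.log_pow, Real.log_pow, Real.log_pow,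
      Real.log_pow] at h2
    exact h2
  have hlogc : 0 ≤ Real.log c := Real.log_natCast_nonneg _
  have hlogk : 0 ≤ Real.log F.k := Real.log_natCast_nonneg _
  have hWpos : (0 : ℝ) < W.ncard := by
    have := (Set.ncard_pos hWf).2 hW
    exact_mod_cast this
  have hmpos : (0 : ℝ) < F'.card := by
    have := hF'.card_pos
    exact_mod_cast this
  have hJg : Jg.card ≤ W.ncard := by
    rw [hWcard]
    refine Finset.card_le_card ?_
    intro γ hγ
    have := (Finset.mem_filter.1 hγ).2 1 h1B
    rw [one_mul] at this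
    exact (hWmem γ).2 this
  have hJb : (Jb.card : ℝ) ≤ ∑ f ∈ F', (((fun g => f⁻¹ * g) '' W \ W).ncard : ℝ) +
      ∑ b ∈ B, (((fun g => b * g) '' W \ W).ncard : ℝ) := by
    have hfinI : ∀ g : G, ((fun h => g * h) '' W \ W).Finite := fun g => (hWf.image _).sdiff
    have hsubJ : (Jb : Finset G) ⊆ (F'.biUnion (fun f => (hfinI f⁻¹).toFinset)) ∪
        (B.biUnion (fun b => (hfinI b).toFinset.image (fun g => b⁻¹ * g))) := by
      intro γ hγ
      obtain ⟨hγJ, hγb⟩ := Finset.mem_filter.1 hγ
      rw [Finset.mem_union]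
      by_cases hγW : γ ∈ W
      · right
        simp only [good, not_forall] at hγb
        obtain ⟨b, hb, hbγ⟩ := hγb
        rw [Finset.mem_biUnion]
        refine ⟨b, hb, ?_⟩
        rw [Finset.mem_image]
        refine ⟨b * γ, ?_, by simp⟩
        rw [Set.Finite.mem_toFinset]
        exact ⟨⟨γ, hγW, rfl⟩, hbγ⟩
      · left
        obtain ⟨f, hf, hfγ⟩ := (hJ γ).1 hγJ
        rw [Finset.mem_biUnion]
        refine ⟨f, hf, ?_⟩
        rw [Set.Finite.mem_toFinset]
        exact ⟨⟨f * γ, hfγ, by simp⟩, hγW⟩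
    have h1 : Jb.card ≤ ∑ f ∈ F', ((fun g => f⁻¹ * g) '' W \ W).ncard +
        ∑ b ∈ B, ((fun g => b * g) '' W \ W).ncard := by
      refine (Finset.card_le_card hsubJ).trans ((Finset.card_union_le _ _).trans ?_)
      refine add_le_add (Finset.card_biUnion_le.trans ?_) (Finset.card_biUnion_le.trans ?_)
      · refine Finset.sum_le_sum ?_
        intro f _
        rw [Set.ncard_eq_toFinset_card _ (hfinI f⁻¹)]
      · refine Finset.sum_le_sum ?_
        intro b _
        rw [Set.ncard_eq_toFinset_card _ (hfinI b)]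
        exact Finset.card_image_le
    exact_mod_cast h1
  have hJgR : (Jg.card : ℝ) ≤ W.ncard := by exact_mod_cast hJg
  rw [← Finset.sum_div, ← Finset.sum_div, ← add_div]
  set R := ∑ f ∈ F', (((fun g => f⁻¹ * g) '' W \ W).ncard : ℝ) +
      ∑ b ∈ B, (((fun g => b * g) '' W \ W).ncard : ℝ)
  rw [div_le_iff₀ hWpos]
  have h3 : (F'.card : ℝ) * Real.log M ≤ W.ncard * Real.log c + R * (F'.card * Real.log F.k) := by
    refine hlog.trans (add_le_add ?_ ?_)
    · exact mul_le_mul_of_nonneg_right hJgR hlogc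
    · exact mul_le_mul_of_nonneg_right hJb (by positivity)
  have h4 : (Real.log c / F'.card + R / W.ncard * Real.log F.k) * W.ncard =
      (W.ncard * Real.log c + R * (F'.card * Real.log F.k)) / F'.card := by
    field_simp
  rw [h4, le_div_iff₀ hmpos]
  linarith [h3]

namespace Tower

variable (T : Tower) (F : Sys)

theorem ent_le_u {n : ℕ} (hn : 0 < n) : T.ent F ≤ T.u F n := by
  unfold u ent M
  have hpos : (0 : ℝ) < (T.W n).ncard := by exact_mod_cast T.ncard_W_pos hn
  rw [le_div_iff₀ hpos, mul_comm]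
  exact card_mul_entX_le_locCnt F T.a T.t (T.W n) (T.W_finite n)

theorem tendsto_u : Tendsto (T.u F) atTop (𝓝 (T.ent F)) := by
  classical
  rcases (F.shift T.a T.t).eq_empty_or_nonempty with h0 | hne
  · -- the shift is empty
    obtain ⟨B, -, h1B, hB⟩ := exists_compact F T.a T.t {1}
    obtain ⟨n₀, hn₀⟩ := T.exists_translate_subset_W B
    have hev : ∀ n, n₀ ≤ n → T.u F n = 0 := by
      intro n hn
      obtain ⟨γ, hγ⟩ := hn₀ n hn
      have hM : T.M F n = 0 := by
        unfold M Sys.locCnt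
        rw [cnt_eq_zero (T.W_finite n), Set.eq_empty_iff_forall_notMem]
        intro x hx
        obtain ⟨y, hy, -⟩ := hB _ (loc_translate F T.a T.t (B : Set T.G) (T.W n) γ hγ hx)
        rw [h0] at hy
        exact hy
      unfold u
      rw [hM]
      simp
    have hent : T.ent F = 0 := by
      unfold ent
      rw [h0]
      exact entX_empty
    rw [hent]
    refine tendsto_const_nhds.congr' ?_
    filter_upwards [eventually_ge_atTop n₀] with n hn
    exact (hev n hn).symm
  · rw [Metric.tendsto_atTop]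
    intro ε hε
    have hex : ∃ F' : Finset T.G, F'.Nonempty ∧
        Real.log (cnt (F.shift T.a T.t) (F' : Set T.G)) / F'.card < T.ent F + ε / 2 := by
      by_contra hcon
      push Not at hcon
      have := le_entX (F.shift T.a T.t) (T.ent F + ε / 2) hcon
      unfold ent at this
      linarith
    obtain ⟨F', hF'ne, hF'⟩ := hex
    obtain ⟨B, -, h1B, hB⟩ := exists_compact F T.a T.t F'
    have hlim : Tendsto (fun n => (∑ f ∈ F', (((fun g => f⁻¹ * g) '' T.W n \ T.W n).ncard : ℝ) /
        ((T.W n).ncard : ℝ) + ∑ b ∈ B, (((fun g => b * g) '' T.W n \ T.W n).ncard : ℝ) /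
        ((T.W n).ncard : ℝ)) * Real.log F.k) atTop (𝓝 0) := by
      have h1 : Tendsto (fun n => ∑ f ∈ F', (((fun g => f⁻¹ * g) '' T.W n \ T.W n).ncard : ℝ) /
          ((T.W n).ncard : ℝ)) atTop (𝓝 (∑ f ∈ F', (0 : ℝ))) :=
        tendsto_finsetSum _ (fun f _ => T.foelner_W f⁻¹)
      have h2 : Tendsto (fun n => ∑ b ∈ B, (((fun g => b * g) '' T.W n \ T.W n).ncard : ℝ) /
          ((T.W n).ncard : ℝ)) atTop (𝓝 (∑ b ∈ B, (0 : ℝ))) :=
        tendsto_finsetSum _ (fun b _ => T.foelner_W b)
      have h3 := (h1.add h2).mul_const (Real.log F.k)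
      simpa using h3
    have hev := hlim.eventually (gt_mem_nhds (show (0 : ℝ) < ε / 2 by positivity))
    rw [eventually_atTop] at hev
    obtain ⟨n₁, hn₁⟩ := hev
    refine ⟨max n₁ 1, ?_⟩
    intro n hn
    have hn1 : n₁ ≤ n := le_trans (le_max_left _ _) hn
    have hn0 : 0 < n := lt_of_lt_of_le Nat.one_pos (le_trans (le_max_right _ _) hn)
    have hlow := T.ent_le_u F hn0
    have hWne : (T.W n).Nonempty := ⟨1, T.one_mem_Pi hn0⟩
    have hup := main_bound F T.a T.t F' B hF'ne h1B hB (T.W n) (T.W_finite n) hWne hne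
    have h5 := hn₁ n hn1
    have hu : T.u F n = Real.log (F.locCnt T.a T.t (T.W n)) / ((T.W n).ncard : ℝ) := rfl
    rw [← hu] at hup
    rw [Real.dist_eq, abs_lt]
    constructor
    · linarith
    · linarith

theorem tendsto_cnt_W : Tendsto (fun n => Real.log (cnt (F.shift T.a T.t) (T.W n)) /
    ((T.W n).ncard : ℝ)) atTop (𝓝 (T.ent F)) := by
  refine entX_tendsto (rinv_shift F T.a T.t) (fun n => T.W n) (fun n => T.W_finite n) ?_
    (fun γ => T.foelner_W γ)
  filter_upwards [eventually_gt_atTop 0] with n hn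
  exact ⟨1, T.one_mem_Pi hn⟩

end Tower

end Pool.Agent.H45.Ent
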