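/-
Upper bound of the entropy by local counts on finite subsets of an overgroup.
MP_f39e07_an, owner helper45.

PROOF.  Put `R = j.range ≤ Γ`.  If the shift of `T'` is empty then `ent = 0` (`entX_empty`) and the
right side is `≥ 0`.  Otherwise: the right cosets `R γ` meeting `S` are finitely many,
`S = ⋃_c K_c γ_c` with `K_c ⊆ R` finite; edges `x → j(a) x`, `x → j(t) x` stay in the same coset,
so `locCnt S ≥ ∏_c locCnt_{T'} (j⁻¹ K_c)` (glue labelings of the pieces), and
`log locCnt_{T'} (j⁻¹K_c) ≥ |K_c| ent` (`card_mul_entX_le_locCnt`).  (Or: induction on the number of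
cosets / on `S`.)
-/
import Pool.Agent.H45.Ent.Local

set_option autoImplicit false

namespace Pool.Agent.H45.Ent

section SupAux

/-- gluing of locally admissible patterns on two sets without edges between them -/
private theorem locCnt_mul_le {Γ : Type*} [Group Γ] (F : Sys) (hk : 0 < F.k) (a t : Γ)
    (S1 S2 : Set Γ) (h1 : S1.Finite) (h2 : S2.Finite) (hd : Disjoint S1 S2)
    (h12 : ∀ g ∈ S1, a * g ∉ S2 ∧ t * g ∉ S2) (h21 : ∀ g ∈ S2, a * g ∉ S1 ∧ t * g ∉ S1) :
    F.locCnt a t S1 * F.locCnt a t S2 ≤ F.locCnt a t (S1 ∪ S2) := by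
  classical
  have : Nonempty (Fin F.k) := ⟨⟨0, hk⟩⟩
  unfold Sys.locCnt cnt
  rw [← Set.ncard_prod]
  choose! c1 hc1 hp1 using (fun (p : S1 → Fin F.k)
    (hp : p ∈ (fun (x : Γ → Fin F.k) (i : S1) => x i) '' F.loc a t S1) => hp)
  choose! c2 hc2 hp2 using (fun (p : S2 → Fin F.k)
    (hp : p ∈ (fun (x : Γ → Fin F.k) (i : S2) => x i) '' F.loc a t S2) => hp)
  let gl : (S1 → Fin F.k) × (S2 → Fin F.k) → Γ → Fin F.k := fun p g =>
    if g ∈ S1 then c1 p.1 g else c2 p.2 g
  have hn : ∀ g ∈ S2, g ∉ S1 := fun g hg hg' => Set.disjoint_left.mp hd hg' hg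
  refine Set.ncard_le_ncard_of_injOn (fun p => fun i : (S1 ∪ S2 : Set Γ) => gl p i) ?_ ?_
    (patt_finite _ (h1.union h2))
  · rintro ⟨p, q⟩ ⟨hp, hq⟩
    refine ⟨gl (p, q), ?_, rfl⟩
    intro g hg
    have hp' := hc1 p hp
    have hq' := hc2 q hq
    rcases hg with hg | hg
    · refine ⟨fun hag => ?_, fun htg => ?_⟩
      · rcases hag with hag | hag
        · simp only [gl, if_pos hg, if_pos hag]
          exact (hp' g hg).1 hag
        · exact absurd hag (h12 g hg).1
      · rcases htg with htg | htg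
        · simp only [gl, if_pos hg, if_pos htg]
          exact (hp' g hg).2 htg
        · exact absurd htg (h12 g hg).2
    · refine ⟨fun hag => ?_, fun htg => ?_⟩
      · rcases hag with hag | hag
        · exact absurd hag (h21 g hg).1
        · simp only [gl, if_neg (hn g hg), if_neg (hn _ hag)]
          exact (hq' g hg).1 hag
      · rcases htg with htg | htg
        · exact absurd htg (h21 g hg).2
        · simp only [gl, if_neg (hn g hg), if_neg (hn _ htg)]
          exact (hq' g hg).2 htg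
  · rintro ⟨p, q⟩ ⟨hp, hq⟩ ⟨p', q'⟩ ⟨hp', hq'⟩ h
    have h3 : ∀ i : (S1 ∪ S2 : Set Γ), gl (p, q) i = gl (p', q') i := fun i => congrFun h i
    have e1 : p = p' := by
      rw [← hp1 p hp, ← hp1 p' hp']
      funext i
      have := h3 ⟨i, Or.inl i.2⟩
      simp only [gl, if_pos i.2] at this
      exact this
    have e2 : q = q' := by
      rw [← hp2 q hq, ← hp2 q' hq']
      funext i
      have := h3 ⟨i, Or.inr i.2⟩
      simp only [gl, if_neg (hn i i.2)] at this
      exact this
    rw [e1, e2]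

/-- one coset -/
private theorem locCnt_coset (T' : Tower) {Γ : Type*} [Group Γ] (j : T'.G →* Γ)
    (hj : Function.Injective j) (F : Sys) (γ : Γ) (K : Set T'.G) (hK : K.Finite) :
    F.locCnt T'.a T'.t K ≤ F.locCnt (j T'.a) (j T'.t) ((fun g => j g * γ) '' K) := by
  have hinv : ∀ g, Function.invFun j (j g * γ * γ⁻¹) = g := by
    intro g
    rw [mul_inv_cancel_right]
    exact Function.leftInverse_invFun hj g
  refine cnt_le_of_inj (hK.image _)
    (fun x δ => x (Function.invFun j (δ * γ⁻¹))) ?_ ?_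
  · rintro x hx _ ⟨g, hg, rfl⟩
    show (j T'.a * (j g * γ) ∈ _ → F.Ra (x (Function.invFun j (j g * γ * γ⁻¹)))
        (x (Function.invFun j (j T'.a * (j g * γ) * γ⁻¹)))) ∧
      (j T'.t * (j g * γ) ∈ _ → F.Rt (x (Function.invFun j (j g * γ * γ⁻¹)))
        (x (Function.invFun j (j T'.t * (j g * γ) * γ⁻¹))))
    rw [hinv g]
    refine ⟨fun ha => ?_, fun ht => ?_⟩
    · obtain ⟨g', hg', he⟩ := ha
      have e1 : j g' = j (T'.a * g) := by
        rw [map_mul]
        have : j g' * γ = j T'.a * j g * γ := by rw [mul_assoc]; exact he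
        exact mul_right_cancel this
      have e2 : g' = T'.a * g := hj e1
      have e3 : j T'.a * (j g * γ) = j (T'.a * g) * γ := by rw [map_mul, mul_assoc]
      rw [e3, hinv]
      exact (hx g hg).1 (e2 ▸ hg')
    · obtain ⟨g', hg', he⟩ := ht
      have e1 : j g' = j (T'.t * g) := by
        rw [map_mul]
        have : j g' * γ = j T'.t * j g * γ := by rw [mul_assoc]; exact he
        exact mul_right_cancel this
      have e2 : g' = T'.t * g := hj e1
      have e3 : j T'.t * (j g * γ) = j (T'.t * g) * γ := by rw [map_mul, mul_assoc]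
      rw [e3, hinv]
      exact (hx g hg).2 (e2 ▸ hg')
  · intro x _ y _ h g hg
    have := h (j g * γ) ⟨g, hg, rfl⟩
    rwa [hinv] at this

private theorem exp_le_locCnt (T' : Tower) {Γ : Type*} [Group Γ] (j : T'.G →* Γ)
    (hj : Function.Injective j) (F : Sys) (hne : (F.shift T'.a T'.t).Nonempty) (n : ℕ) :
    ∀ S : Set Γ, S.Finite → S.ncard ≤ n →
      Real.exp ((S.ncard : ℝ) * T'.ent F) ≤ (F.locCnt (j T'.a) (j T'.t) S : ℝ) := by
  obtain ⟨x0, hx0⟩ := hne
  have hk : 0 < F.k := lt_of_le_of_lt (Nat.zero_le _) (x0 1).2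
  have : Nonempty (Fin F.k) := ⟨⟨0, hk⟩⟩
  induction n with
  | zero =>
    intro S hS hn
    have h0 : S = ∅ := by
      rw [← Set.ncard_eq_zero hS]
      omega
    subst h0
    have h1 : 0 < F.locCnt (j T'.a) (j T'.t) (∅ : Set Γ) := by
      refine (cnt_pos Set.finite_empty).2 ⟨fun _ => ⟨0, hk⟩, ?_⟩
      intro g hg
      exact absurd hg (Set.notMem_empty g)
    simp only [Set.ncard_empty, Nat.cast_zero, zero_mul, Real.exp_zero]
    exact_mod_cast h1
  | succ n ih =>
    intro S hS hn
    rcases S.eq_empty_or_nonempty with h0 | ⟨γ, hγ⟩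
    · exact ih S hS (by rw [h0, Set.ncard_empty]; exact Nat.zero_le n)
    · set K : Set T'.G := {g | j g * γ ∈ S} with hK
      have hinj : Function.Injective (fun g => j g * γ) := fun g g' h => hj (mul_right_cancel h)
      have hKf : K.Finite := hS.preimage hinj.injOn
      set S1 : Set Γ := (fun g => j g * γ) '' K with hS1
      set S2 : Set Γ := S \ S1 with hS2
      have hS1S : S1 ⊆ S := by
        rintro _ ⟨g, hg, rfl⟩
        exact hg
      have hun : S1 ∪ S2 = S := Set.union_sdiff_cancel hS1S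
      have hd : Disjoint S1 S2 := Set.disjoint_sdiff_right
      have hcS1 : ∀ g : T'.G, ∀ δ ∈ S, j g * δ ∈ S1 → δ ∈ S1 := by
        rintro g δ hδ ⟨g', hg', he⟩
        replace he : j g' * γ = j g * δ := he
        have he' : δ = j (g⁻¹ * g') * γ := by
          rw [map_mul, map_inv, mul_assoc, he]
          group
        refine ⟨g⁻¹ * g', ?_, he'.symm⟩
        show j (g⁻¹ * g') * γ ∈ S
        rw [← he']
        exact hδ
      have hcS1' : ∀ g : T'.G, ∀ δ ∈ S1, j g * δ ∈ S → j g * δ ∈ S1 := by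
        rintro g _ ⟨g', hg', rfl⟩ hδ
        refine ⟨g * g', ?_, ?_⟩
        · show j (g * g') * γ ∈ S
          rw [map_mul, mul_assoc]
          exact hδ
        · simp only
          rw [map_mul, mul_assoc]
      have hglue := locCnt_mul_le F hk (j T'.a) (j T'.t) S1 S2 (hS.subset hS1S)
        (hS.subset Set.sdiff_subset) hd
        (fun δ hδ => ⟨fun h => h.2 (hcS1' T'.a δ hδ h.1), fun h => h.2 (hcS1' T'.t δ hδ h.1)⟩)
        (fun δ hδ => ⟨fun h => hδ.2 (hcS1 T'.a δ hδ.1 h), fun h => hδ.2 (hcS1 T'.t δ hδ.1 h)⟩)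
      rw [hun] at hglue
      have hγ1 : γ ∈ S1 := ⟨1, by show j 1 * γ ∈ S; rw [map_one, one_mul]; exact hγ,
        by simp⟩
      have hcard : S1.ncard + S2.ncard = S.ncard := by
        rw [← Set.ncard_union_eq hd (hS.subset hS1S) (hS.subset Set.sdiff_subset), hun]
      have hS1pos : 0 < S1.ncard := (Set.ncard_pos (hS.subset hS1S)).2 ⟨γ, hγ1⟩
      have hih := ih S2 (hS.subset Set.sdiff_subset) (by omega)
      have hcoset := locCnt_coset T' j hj F γ K hKf
      rw [← hS1] at hcoset
      have hK1 : (K.ncard : ℝ) * T'.ent F ≤ Real.log (F.locCnt T'.a T'.t K) :=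
        card_mul_entX_le_locCnt F T'.a T'.t K hKf
      have hKpos : 0 < F.locCnt T'.a T'.t K :=
        (cnt_pos hKf).2 ⟨x0, shift_subset_loc F T'.a T'.t K hx0⟩
      have hKpos' : (0 : ℝ) < F.locCnt T'.a T'.t K := by exact_mod_cast hKpos
      have hKc : S1.ncard = K.ncard := Set.ncard_image_of_injective K hinj
      have h5 : Real.exp ((S1.ncard : ℝ) * T'.ent F) ≤ (F.locCnt (j T'.a) (j T'.t) S1 : ℝ) := by
        rw [hKc]
        calc Real.exp ((K.ncard : ℝ) * T'.ent F) ≤ Real.exp (Real.log (F.locCnt T'.a T'.t K)) :=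
              Real.exp_le_exp.mpr hK1
          _ = F.locCnt T'.a T'.t K := Real.exp_log hKpos'
          _ ≤ _ := by exact_mod_cast hcoset
      have h6 : (S.ncard : ℝ) * T'.ent F = S1.ncard * T'.ent F + S2.ncard * T'.ent F := by
        rw [← hcard]
        push_cast
        ring
      rw [h6, Real.exp_add]
      calc _ ≤ (F.locCnt (j T'.a) (j T'.t) S1 : ℝ) * (F.locCnt (j T'.a) (j T'.t) S2 : ℝ) :=
            mul_le_mul h5 hih (Real.exp_pos _).le (Nat.cast_nonneg _)
        _ ≤ _ := by exact_mod_cast hglue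

end SupAux

theorem sup_bound (T' : Tower) {Γ : Type*} [Group Γ] (j : T'.G →* Γ) (hj : Function.Injective j)
    (F : Sys) (S : Set Γ) (hS : S.Finite) :
    (S.ncard : ℝ) * T'.ent F ≤ Real.log (F.locCnt (j T'.a) (j T'.t) S) := by
  rcases (F.shift T'.a T'.t).eq_empty_or_nonempty with h | h
  · have : T'.ent F = 0 := by
      unfold Tower.ent
      rw [h]
      exact entX_empty
    rw [this, mul_zero]
    exact Real.log_natCast_nonneg _
  · have h1 := exp_le_locCnt T' j hj F h S.ncard S hS le_rfl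
    have h2 := Real.log_le_log (Real.exp_pos _) h1
    rwa [Real.log_exp] at h2

end Pool.Agent.H45.Ent
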