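/-
The finite covers of `W_M` inside `Cov T`.  MP_f39e07_an, owner helper45.

`wBip T M` : the hard core structure on `W_M`.

PROOFS.
* `ind_wBip`: labelings with values in `Bool` / `Fin 2`; patterns on `W_M`.
* `exists_fincov`: let `c_1, …, c_r` be the distinct right cosets `A(n-1) b`, `b ∈ W_M` (finitely
  many); `ν b` = the basis vector of the index of `A(n-1) b`; `ι x = ∑_i x_i 1_{c_i}`; injective since
  the cosets are disjoint and nonempty.
* `cov_ent_le`: the set `S = {(b, ι x) | b ∈ W_M, x : Fin r → ZMod 2} ⊆ Cov T` is finite with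
  `|W_M| 2^r` elements; `ca * (b, v) = (a b, v)`, `ct * (b, v) = (t b, 1_{A(n-1) b} + v)`, so for
  `t b ∈ W_M`: `ct * (b, ι x) = (t b, ι (x + ν b))`; hence `hc.locCnt ca ct S ≤
  ((wBip T M).cover ν).ind` (equality) and `sup_bound`.
* `walk`: induction on the list `L` (`FreeGroup.mk (p :: L)`, one letter at a time, the letter acts
  on the left).  Letter `a^{±1}`: no voltage, `σ` does not change (`E`-edge in one direction).
  Letter `t`: from `b` to `t b`, `σ (t b) = σ b + χ (ν b)` and `(t, e)(g, v) = (t g, e(· g⁻¹) + v)`.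
  Letter `t⁻¹`: from `b` to `t⁻¹ b`: `σ b = σ (t⁻¹ b) + χ (ν (t⁻¹ b))`.
-/
import Pool.Agent.H45.Ent.CovGroup
import Pool.Agent.H45.Ent.SupBound
import Pool.Agent.H45.Ent.CoverPow

set_option autoImplicit false

namespace Pool.Agent.H45.Ent

/-- the hard core structure on `W_M` -/
def wBip (T : Tower) (M : ℕ) : Bip (T.W M) where
  E := fun b b' => (b' : T.G) = T.a * b
  X := fun b b' => (b' : T.G) = T.t * b
  par := fun b => (T.lv b : ZMod 2)
  hE := fun b b' h => by simp [h]
  hX := fun b b' h => by simp [h, add_comm]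

theorem ind_wBip (T : Tower) (M : ℕ) : (wBip T M).ind = T.M hc M := by
  classical
  unfold Bip.ind Tower.M Sys.locCnt cnt
  have hinj : Function.Injective
      (fun (p : T.W M → Fin hc.k) => fun b => decide (p b = (1 : Fin 2))) := by
    intro p q h
    funext b
    have h1 := congrFun h b
    simp only [decide_eq_decide] at h1
    have h2 : ∀ u v : Fin 2, (u = 1 ↔ v = 1) → u = v := by decide
    exact h2 _ _ h1
  rw [← Set.ncard_image_of_injective _ hinj]
  congr 1
  apply Set.Subset.antisymm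
  · intro y hy
    refine ⟨fun b => if y b then (1 : Fin 2) else (0 : Fin 2), ?_, ?_⟩
    · refine ⟨fun g => if h : g ∈ T.W M then (if y ⟨g, h⟩ then (1 : Fin 2) else (0 : Fin 2)) else
        (0 : Fin 2), ?_, ?_⟩
      · intro g hg
        constructor
        · intro hag
          have h1 := hy.1 ⟨g, hg⟩ ⟨T.a * g, hag⟩ rfl
          simp only [hc, hg, hag, dif_pos, h1]
        · intro htg
          have h1 := hy.2 ⟨g, hg⟩ ⟨T.t * g, htg⟩ rfl
          simp only [hc, hg, htg, dif_pos]
          rintro ⟨h2, h3⟩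
          apply h1
          constructor
          · by_contra h4
            rw [if_neg h4] at h2
            exact absurd h2 (by decide)
          · by_contra h4
            rw [if_neg h4] at h3
            exact absurd h3 (by decide)
      · funext b
        exact dif_pos b.2
    · funext b
      cases hyb : y b with
      | true =>
        apply decide_eq_true
        show (if y b = true then (1 : Fin 2) else (0 : Fin 2)) = (1 : Fin 2)
        rw [if_pos hyb]
      | false =>
        apply decide_eq_false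
        show ¬ (if y b = true then (1 : Fin 2) else (0 : Fin 2)) = (1 : Fin 2)
        rw [if_neg (by rw [hyb]; decide)]
        decide
  · rintro _ ⟨_, ⟨x, hx, rfl⟩, rfl⟩
    constructor
    · rintro b b' h
      have h0 : (b' : T.G) = T.a * b := h
      have h1 := (hx b b.2).1 (by rw [← h0]; exact b'.2)
      rw [← h0] at h1
      have h2 : x b = x b' := h1
      simp only [h2]
    · rintro b b' h ⟨h3, h4⟩
      have h0 : (b' : T.G) = T.t * b := h
      have h1 := (hx b b.2).2 (by rw [← h0]; exact b'.2)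
      rw [← h0] at h1
      exact h1 ⟨of_decide_eq_true h3, of_decide_eq_true h4⟩

/-- the indicator function of `A(n-1) b` -/
noncomputable def cosetInd (T : Tower) (n : ℕ) (b : T.G) : T.G → ZMod 2 :=
  fun z => (Cov.ct T n).v (z * b⁻¹)

theorem cosetInd_self (T : Tower) (n : ℕ) (b : T.G) : cosetInd T n b b = 1 := by
  classical
  simp [cosetInd, Cov.ct, one_mem]

theorem cosetInd_eq_of_ne_zero (T : Tower) (n : ℕ) (b b' : T.G) (h : cosetInd T n b' b ≠ 0) :
    cosetInd T n b = cosetInd T n b' := by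
  classical
  have h1 : b * b'⁻¹ ∈ T.A (n - 1) := by
    by_contra h2
    apply h
    simp [cosetInd, Cov.ct, h2]
  funext z
  have h2 : z * b⁻¹ ∈ T.A (n - 1) ↔ z * b'⁻¹ ∈ T.A (n - 1) := by
    constructor
    · intro h3
      have := mul_mem h3 h1
      simpa [mul_assoc] using this
    · intro h3
      have := mul_mem h3 (inv_mem h1)
      simpa [mul_assoc] using this
  simp only [cosetInd, Cov.ct, h2]

theorem exists_fincov (T : Tower) (n M : ℕ) :
    ∃ (r : ℕ) (ν : T.W M → (Fin r → ZMod 2)) (ι : (Fin r → ZMod 2) →+ (T.G → ZMod 2)),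
      Function.Injective ι ∧ ∀ b : T.W M, ι (ν b) = cosetInd T n b := by
  classical
  have : Finite (T.W M) := (T.W_finite M).to_subtype
  have : Finite (Set.range (fun b : T.W M => cosetInd T n b)) := Set.finite_range _
  obtain ⟨r, ⟨e⟩⟩ := Finite.exists_equiv_fin (Set.range (fun b : T.W M => cosetInd T n b))
  refine ⟨r, fun b => Pi.single (e ⟨cosetInd T n b, b, rfl⟩) 1,
    { toFun := fun x z => ∑ i, x i * (e.symm i).1 z
      map_zero' := by funext z; simp
      map_add' := fun x y => by funext z; simp [add_mul, Finset.sum_add_distrib] }, ?_, ?_⟩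
  · intro x y h
    funext i
    obtain ⟨b, hb⟩ := (e.symm i).2
    have h1 := congrFun h (b : T.G)
    simp only [AddMonoidHom.coe_mk, ZeroHom.coe_mk] at h1
    have h2 : ∀ w : Fin r → ZMod 2, ∑ j, w j * (e.symm j).1 (b : T.G) = w i := by
      intro w
      rw [Finset.sum_eq_single i]
      · rw [← hb]
        simp only [cosetInd_self, mul_one]
      · intro j _ hj
        have h3 : (e.symm j).1 (b : T.G) = 0 := by
          by_contra h4
          obtain ⟨b', hb'⟩ := (e.symm j).2
          rw [← hb'] at h4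
          have h5 := cosetInd_eq_of_ne_zero T n b b' h4
          apply hj
          apply e.symm.injective
          apply Subtype.ext
          rw [← hb', ← hb]
          exact h5.symm
        rw [h3, mul_zero]
      · simp
    rw [h2, h2] at h1
    exact h1
  · intro b
    funext z
    simp only [AddMonoidHom.coe_mk, ZeroHom.coe_mk]
    rw [Finset.sum_eq_single (e ⟨cosetInd T n b, b, rfl⟩)]
    · simp
    · intro j _ hj
      rw [Pi.single_eq_of_ne hj, zero_mul]
    · simp

theorem cov_ent_le (T T' : Tower) (n : ℕ) (j : T'.G →* Cov T) (hj : Function.Injective j)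
    (ha : j T'.a = Cov.ca T) (ht : j T'.t = Cov.ct T n) (M : ℕ) (r : ℕ)
    (ν : T.W M → (Fin r → ZMod 2)) (ι : (Fin r → ZMod 2) →+ (T.G → ZMod 2))
    (hι : Function.Injective ι) (hν : ∀ b : T.W M, ι (ν b) = cosetInd T n b) :
    ((T.W M).ncard : ℝ) * 2 ^ r * T'.ent hc ≤ Real.log (((wBip T M).cover ν).ind) := by
  classical
  have : Finite (T.W M) := (T.W_finite M).to_subtype
  set f : T.W M × (Fin r → ZMod 2) → Cov T := fun p => ⟨p.1, ι p.2⟩ with hf
  have hfi : Function.Injective f := by
    rintro ⟨b, x⟩ ⟨b', x'⟩ h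
    have h1 := congrArg Cov.g h
    have h2 := congrArg Cov.v h
    simp only [hf] at h1 h2
    exact Prod.ext (Subtype.ext h1) (hι h2)
  have hS : (Set.range f).Finite := Set.finite_range f
  have hcard : (Set.range f).ncard = (T.W M).ncard * 2 ^ r := by
    rw [← Set.image_univ, Set.ncard_image_of_injective _ hfi, Set.ncard_univ, Nat.card_prod,
      Nat.card_fun, Nat.card_coe_set_eq]
    simp
  have hb := sup_bound T' j hj hc (Set.range f) hS
  rw [ha, ht, hcard] at hb
  have hle : hc.locCnt (Cov.ca T) (Cov.ct T n) (Set.range f) ≤ ((wBip T M).cover ν).ind := by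
    unfold Bip.ind Sys.locCnt cnt
    refine Set.ncard_le_ncard_of_injOn
      (fun p => fun q : T.W M × (Fin r → ZMod 2) => decide (p ⟨f q, q, rfl⟩ = (1 : Fin 2)))
      ?_ ?_ (Set.toFinite _)
    · rintro _ ⟨x, hx, rfl⟩
      constructor
      · rintro ⟨b, v⟩ ⟨b', v'⟩ ⟨h1, h2⟩
        simp only at h1 h2
        subst h2
        have h0 : (b' : T.G) = T.a * b := h1
        have h3 : Cov.ca T * f (b, v') = f (b', v') := by
          ext z
          · simp [hf, h0, Cov.ca]
          · simp [hf, Cov.ca]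
        have h4 := (hx _ ⟨(b, v'), rfl⟩).1 (by rw [h3]; exact ⟨_, rfl⟩)
        rw [h3] at h4
        have h5 : x (f (b, v')) = x (f (b', v')) := h4
        simp only [h5]
      · rintro ⟨b, v⟩ ⟨b', v'⟩ ⟨h1, h2⟩ ⟨h6, h7⟩
        simp only at h1 h2
        subst h2
        have h0 : (b' : T.G) = T.t * b := h1
        have h3 : Cov.ct T n * f (b, v) = f (b', v + ν b) := by
          ext z
          · simp [hf, h0, Cov.ct]
          · have h8 := congrFun (hν b) z
            simp only [hf, Cov.mul_v, map_add, Pi.add_apply, h8, cosetInd]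
            exact add_comm _ _
        have h4 := (hx _ ⟨(b, v), rfl⟩).2 (by rw [h3]; exact ⟨_, rfl⟩)
        rw [h3] at h4
        exact h4 ⟨of_decide_eq_true h6, of_decide_eq_true h7⟩
    · rintro p - q - h
      funext ⟨s, u, hu⟩
      subst hu
      have h1 := congrFun h u
      simp only [decide_eq_decide] at h1
      have h2 : ∀ u v : Fin 2, (u = 1 ↔ v = 1) → u = v := by decide
      exact h2 _ _ h1
  push_cast at hb
  refine hb.trans ?_
  rcases Nat.eq_zero_or_pos (hc.locCnt (Cov.ca T) (Cov.ct T n) (Set.range f)) with h0 | h0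
  · rw [h0, Nat.cast_zero, Real.log_zero]
    exact Real.log_natCast_nonneg _
  · exact Real.log_le_log (by exact_mod_cast h0) (by exact_mod_cast hle)

theorem cc_homOf_g (T : Tower) (n : ℕ) (w : F2) :
    (homOf (Cov.ca T) (Cov.ct T n) w).g = T.φ w := by
  have h := map_homOf (Cov.proj (T := T)) (Cov.ca T) (Cov.ct T n) w
  exact h

/-- a walk in `W_M`: all vertices `φ (mk L') γ`, `L'` a suffix of `L`, lie in `D ⊆ W_M` -/
theorem walk (T : Tower) (n M r : ℕ) (ν : T.W M → (Fin r → ZMod 2))
    (ι : (Fin r → ZMod 2) →+ (T.G → ZMod 2)) (hι : Function.Injective ι)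
    (hν : ∀ b : T.W M, ι (ν b) = cosetInd T n b) (L : List (Fin 2 × Bool)) (γ : T.G)
    (hmem : ∀ L', L' <:+ L → T.φ (FreeGroup.mk L') * γ ∈ T.W M) :
    ∃ x : Fin r → ZMod 2,
      ι x = (fun z => (homOf (Cov.ca T) (Cov.ct T n) (FreeGroup.mk L)).v (z * γ⁻¹)) ∧
      ∀ (χ : (Fin r → ZMod 2) →+ ZMod 2) (D : Set (T.W M)) (σ : T.W M → ZMod 2),
        (∀ b ∈ D, ∀ b' ∈ D, (wBip T M).E b b' → σ b' = σ b) →
        (∀ b ∈ D, ∀ b' ∈ D, (wBip T M).X b b' → σ b' = σ b + χ (ν b)) →
        (∀ b : T.W M, (∃ L', L' <:+ L ∧ (b : T.G) = T.φ (FreeGroup.mk L') * γ) → b ∈ D) →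
        ∀ b b' : T.W M, (b : T.G) = γ → (b' : T.G) = T.φ (FreeGroup.mk L) * γ →
          σ b' = σ b + χ x := by
  have two : ∀ z : ZMod 2, z + z = 0 := by decide
  induction L with
  | nil =>
    refine ⟨0, ?_, ?_⟩
    · funext z
      rw [show FreeGroup.mk ([] : List (Fin 2 × Bool)) = 1 from rfl, map_one]
      simp
    · intro χ D σ _ _ _ b b' hb hb'
      rw [show FreeGroup.mk ([] : List (Fin 2 × Bool)) = 1 from rfl, map_one, one_mul] at hb'
      have : b' = b := Subtype.ext (hb'.trans hb.symm)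
      rw [this, map_zero, add_zero]
  | cons p L ih =>
    obtain ⟨x₁, hx₁, hσ₁⟩ := ih (fun L' hL' => hmem L' (hL'.trans (List.suffix_cons p L)))
    have hmk : FreeGroup.mk (p :: L) = FreeGroup.mk [p] * FreeGroup.mk L := by
      rw [FreeGroup.mul_mk]; rfl
    have hw₁ : T.φ (FreeGroup.mk L) * γ ∈ T.W M := hmem L (List.suffix_cons p L)
    have hw₂ : T.φ (FreeGroup.mk (p :: L)) * γ ∈ T.W M := hmem _ List.suffix_rfl
    set b₁ : T.W M := ⟨T.φ (FreeGroup.mk L) * γ, hw₁⟩ with hb₁
    set b₂ : T.W M := ⟨T.φ (FreeGroup.mk (p :: L)) * γ, hw₂⟩ with hb₂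
    have hv : ∀ z : T.G, (homOf (Cov.ca T) (Cov.ct T n) (FreeGroup.mk (p :: L))).v (z * γ⁻¹) =
        (homOf (Cov.ca T) (Cov.ct T n) (FreeGroup.mk [p])).v (z * (b₁ : T.G)⁻¹) + ι x₁ z := by
      intro z
      rw [hmk, map_mul, Cov.mul_v, cc_homOf_g, hx₁, hb₁]
      simp [mul_assoc]
    have hφ : (b₂ : T.G) = T.φ (FreeGroup.mk [p]) * b₁ := by
      rw [hb₂, hb₁]
      simp only [hmk, map_mul, mul_assoc]
    have hgen : ∀ (y : Fin r → ZMod 2),
        (ι y = fun z => (homOf (Cov.ca T) (Cov.ct T n) (FreeGroup.mk [p])).v (z * (b₁ : T.G)⁻¹)) →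
        (∀ (χ : (Fin r → ZMod 2) →+ ZMod 2) (D : Set (T.W M)) (σ : T.W M → ZMod 2),
          (∀ b ∈ D, ∀ b' ∈ D, (wBip T M).E b b' → σ b' = σ b) →
          (∀ b ∈ D, ∀ b' ∈ D, (wBip T M).X b b' → σ b' = σ b + χ (ν b)) →
          b₁ ∈ D → b₂ ∈ D → σ b₂ = σ b₁ + χ y) →
        ∃ x : Fin r → ZMod 2,
          ι x = (fun z => (homOf (Cov.ca T) (Cov.ct T n) (FreeGroup.mk (p :: L))).v (z * γ⁻¹)) ∧
          ∀ (χ : (Fin r → ZMod 2) →+ ZMod 2) (D : Set (T.W M)) (σ : T.W M → ZMod 2),
            (∀ b ∈ D, ∀ b' ∈ D, (wBip T M).E b b' → σ b' = σ b) →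
            (∀ b ∈ D, ∀ b' ∈ D, (wBip T M).X b b' → σ b' = σ b + χ (ν b)) →
            (∀ b : T.W M, (∃ L', L' <:+ p :: L ∧ (b : T.G) = T.φ (FreeGroup.mk L') * γ) → b ∈ D) →
            ∀ b b' : T.W M, (b : T.G) = γ → (b' : T.G) = T.φ (FreeGroup.mk (p :: L)) * γ →
              σ b' = σ b + χ x := by
      intro y hy1 hy2
      refine ⟨y + x₁, ?_, ?_⟩
      · rw [map_add, hy1]
        funext z
        rw [hv z]
        rfl
      · intro χ D σ hE hX hD b b' hb hb'
        have h1 : b₁ ∈ D := hD b₁ ⟨L, List.suffix_cons p L, rfl⟩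
        have h2 : b₂ ∈ D := hD b₂ ⟨p :: L, List.suffix_rfl, rfl⟩
        have h3 := hσ₁ χ D σ hE hX (fun c ⟨L', hL', hc⟩ =>
          hD c ⟨L', hL'.trans (List.suffix_cons p L), hc⟩) b b₁ hb rfl
        have h4 := hy2 χ D σ hE hX h1 h2
        have h5 : b' = b₂ := Subtype.ext hb'
        rw [h5, h4, h3, map_add]
        ring
    obtain ⟨i, s⟩ := p
    rcases (show i = 0 ∨ i = 1 by fin_cases i <;> simp) with rfl | rfl
    · -- the letter `a`
      cases s with
      | true =>
        have h1 : homOf (Cov.ca T) (Cov.ct T n) (FreeGroup.mk [((0 : Fin 2), true)]) = Cov.ca T :=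
          homOf_fa _ _
        have h2 : T.φ (FreeGroup.mk [((0 : Fin 2), true)]) = T.a := T.φ_fa
        refine hgen 0 ?_ ?_
        · funext z
          rw [map_zero, h1]
          rfl
        · intro χ D σ hE hX hb1 hb2
          rw [map_zero, add_zero]
          exact hE b₁ hb1 b₂ hb2 (by rw [h2] at hφ; exact hφ)
      | false =>
        have h1 : homOf (Cov.ca T) (Cov.ct T n) (FreeGroup.mk [((0 : Fin 2), false)]) =
            (Cov.ca T)⁻¹ := by
          have : FreeGroup.mk [((0 : Fin 2), false)] = fa⁻¹ := rfl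
          rw [this, map_inv, homOf_fa]
        have h2 : T.φ (FreeGroup.mk [((0 : Fin 2), false)]) = T.a⁻¹ := by
          have : FreeGroup.mk [((0 : Fin 2), false)] = fa⁻¹ := rfl
          rw [this, map_inv, T.φ_fa]
        refine hgen 0 ?_ ?_
        · funext z
          rw [map_zero, h1]
          rfl
        · intro χ D σ hE hX hb1 hb2
          rw [map_zero, add_zero]
          refine (hE b₂ hb2 b₁ hb1 ?_).symm
          rw [h2] at hφ
          show (b₁ : T.G) = T.a * b₂
          rw [hφ, mul_inv_cancel_left]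
    · cases s with
      | true =>
        have h1 : homOf (Cov.ca T) (Cov.ct T n) (FreeGroup.mk [((1 : Fin 2), true)]) =
            Cov.ct T n := homOf_ft _ _
        have h2 : T.φ (FreeGroup.mk [((1 : Fin 2), true)]) = T.t := T.φ_ft
        refine hgen (ν b₁) ?_ ?_
        · rw [hν b₁, h1]
          rfl
        · intro χ D σ hE hX hb1 hb2
          exact hX b₁ hb1 b₂ hb2 (by rw [h2] at hφ; exact hφ)
      | false =>
        have h1 : homOf (Cov.ca T) (Cov.ct T n) (FreeGroup.mk [((1 : Fin 2), false)]) =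
            (Cov.ct T n)⁻¹ := by
          have : FreeGroup.mk [((1 : Fin 2), false)] = ft⁻¹ := rfl
          rw [this, map_inv, homOf_ft]
        have h2 : T.φ (FreeGroup.mk [((1 : Fin 2), false)]) = T.t⁻¹ := by
          have : FreeGroup.mk [((1 : Fin 2), false)] = ft⁻¹ := rfl
          rw [this, map_inv, T.φ_ft]
        rw [h2] at hφ
        refine hgen (ν b₂) ?_ ?_
        · rw [hν b₂, h1]
          funext z
          simp only [cosetInd, Cov.inv_v, hφ, mul_inv_rev, inv_inv, ← mul_assoc]
          rfl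
        · intro χ D σ hE hX hb1 hb2
          have h3 := hX b₂ hb2 b₁ hb1 (by
            show (b₁ : T.G) = T.t * b₂
            rw [hφ, mul_inv_cancel_left])
          rw [h3, add_assoc, two, add_zero]

end Pool.Agent.H45.Ent
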