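/-
The kernel of the cover tower is nontrivial.  MP_f39e07_an, owner helper45.

PROOF.  Suppose every word trivial in `T` is trivial in `Cov T` (i.e. `homOf ca ct w = 1`).
Then there is `β : T.G → (T.G → ZMod 2)` with `homOf ca ct w = ⟨T.φ w, β (T.φ w)⟩` for all `w`, and
`β (g g') z = β g (z g'⁻¹) + β g' z`, `β h = 0` for `h ∈ H := A(n)` (`cov_word`),
`β t = e := 1_{A(n-1)}`.  Put `A = A(n+1)`, `H' = t H t⁻¹ ≤ A`, `C = t A(n-1) t⁻¹ ≤ H ∩ H'`.
For `x, y ∈ A` let `b x y = β x (t⁻¹ y)`.  Then
* `b h y = 0` for `h ∈ H`;  * `b (x x') y = b x (y x'⁻¹) + b x' y`;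
* for `x ∈ H'`: `b x y = [y ∈ C] + [y ∈ C x]` (with `x = t h t⁻¹`: `β (t h t⁻¹) = β(t)(· (h t⁻¹)⁻¹) +
  β(h)(..) + β(t⁻¹)`, `β (t⁻¹) = 1_{A(n-1) t⁻¹}`, and `t⁻¹ y ∈ A(n-1) t⁻¹ x ↔ y ∈ C x`).
For `χ : A → ZMod 2` put `p x = ∑_{y∈A} χ y * b x y` and `q x = ∑_{y∈A} χ y * (b x y + [y ∈ C x])`.
`p` is left `H`-invariant, `q` is left `H'`-invariant, `p x + q x = ∑_{y ∈ C x} χ y`.  Every left
`C`-invariant function `f` on `A` is `x ↦ ∑_{y∈Cx} χ y` for `χ = f` on a transversal of `C\A` and `0`
elsewhere.  So (left `H`-invariant) × (left `H'`-invariant) → (left `C`-invariant functions),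
`(p,q) ↦ p + q`, is onto; it is not injective (`(1,1)` and `(0,0)`).  Hence
`2^(|A|/|C|) < 2^(|A|/|H|) * 2^(|A|/|H'|)`, `|A|/|C| < 2 |A|/|H|`, `|H| < 2 |C| = 2 |A(n-1)|`.
But `A(n-1) < A(n)` is a proper subgroup (nonstable), so `|H| ≥ 2 |A(n-1)|`.
(Instead of transversals and quotients one can count invariant functions via
`(C-invariant functions) ≃ (Quotient (rightRel C) → ZMod 2)` and
`Subgroup.card_eq_card_quotient_mul_card_subgroup`.)
-/
import Pool.Agent.H45.Ent.CovGroup

set_option autoImplicit false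

namespace Pool.Agent.H45.Ent

open Classical in
/-- the counting argument -/
theorem cov_kernel_aux {A : Type*} [Group A] [Finite A] (H H' C : Subgroup A) (hCH : C ≤ H)
    (hCH' : C ≤ H') (b : A → A → ZMod 2) (hb1 : ∀ h ∈ H, ∀ y, b h y = 0)
    (hb2 : ∀ x x' y, b (x * x') y = b x (y * x'⁻¹) + b x' y)
    (hb3 : ∀ x ∈ H', ∀ y, b x y = (if y * x⁻¹ ∈ C then 1 else 0) + (if y ∈ C then 1 else 0))
    (h2 : 2 * Nat.card C ≤ Nat.card H) (h2' : 2 * Nat.card C ≤ Nat.card H') : False := by
  have hfin := Fintype.ofFinite A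
  have htwo : ∀ c : ZMod 2, c + c = 0 := by decide
  -- the quotients
  have hmk : ∀ (K : Subgroup A) (x y : A),
      (Quotient.mk (QuotientGroup.rightRel K) x = Quotient.mk (QuotientGroup.rightRel K) y) ↔
        y * x⁻¹ ∈ K := by
    intro K x y
    rw [← QuotientGroup.rightRel_apply]
    exact Quotient.eq
  have hcard : ∀ K : Subgroup A, Nat.card (Quotient (QuotientGroup.rightRel K)) * Nat.card K =
      Nat.card A := by
    intro K
    rw [Nat.card_congr (QuotientGroup.quotientRightRelEquivQuotientLeftRel K)]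
    exact (Subgroup.card_eq_card_quotient_mul_card_subgroup K).symm
  -- the map `(p, q) ↦ p + q`
  let πH : Quotient (QuotientGroup.rightRel C) → Quotient (QuotientGroup.rightRel H) :=
    Quotient.map id (fun x y h => QuotientGroup.rightRel_apply.2 (hCH (QuotientGroup.rightRel_apply.1 h)))
  let πH' : Quotient (QuotientGroup.rightRel C) → Quotient (QuotientGroup.rightRel H') :=
    Quotient.map id (fun x y h => QuotientGroup.rightRel_apply.2 (hCH' (QuotientGroup.rightRel_apply.1 h)))
  let Φ : (Quotient (QuotientGroup.rightRel H) → ZMod 2) ×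
      (Quotient (QuotientGroup.rightRel H') → ZMod 2) →
      (Quotient (QuotientGroup.rightRel C) → ZMod 2) :=
    fun pq c => pq.1 (πH c) + pq.2 (πH' c)
  have hΦsurj : Function.Surjective Φ := by
    intro f
    let χ : A → ZMod 2 := fun y =>
      if Quotient.out (Quotient.mk (QuotientGroup.rightRel C) y) = y then
        f (Quotient.mk (QuotientGroup.rightRel C) y) else 0
    let p : A → ZMod 2 := fun x => ∑ y, χ y * b x y
    let q : A → ZMod 2 := fun x => ∑ y, χ y * (b x y + (if y * x⁻¹ ∈ C then 1 else 0))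
    have hp : ∀ h ∈ H, ∀ x, p (h * x) = p x := by
      intro h hh x
      refine Finset.sum_congr rfl fun y _ => ?_
      rw [hb2, hb1 h hh, zero_add]
    have hq : ∀ h ∈ H', ∀ x, q (h * x) = q x := by
      intro h hh x
      refine Finset.sum_congr rfl fun y _ => ?_
      rw [hb2, hb3 h hh]
      have h1 : y * (h * x)⁻¹ = y * x⁻¹ * h⁻¹ := by group
      rw [h1]
      have h3 := htwo (if y * x⁻¹ * h⁻¹ ∈ C then 1 else 0)
      congr 1
      linear_combination h3
    have hp' : ∀ x y : A, (QuotientGroup.rightRel H) x y → p x = p y := by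
      intro x y h
      have h1 := hp _ (QuotientGroup.rightRel_apply.1 h) x
      rw [inv_mul_cancel_right] at h1
      exact h1.symm
    have hq' : ∀ x y : A, (QuotientGroup.rightRel H') x y → q x = q y := by
      intro x y h
      have h1 := hq _ (QuotientGroup.rightRel_apply.1 h) x
      rw [inv_mul_cancel_right] at h1
      exact h1.symm
    refine ⟨(Quotient.lift p hp', Quotient.lift q hq'), ?_⟩
    funext c
    induction c using Quotient.inductionOn with
    | h x =>
      show p x + q x = f (Quotient.mk (QuotientGroup.rightRel C) x)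
      show ∑ y, χ y * b x y + ∑ y, χ y * (b x y + (if y * x⁻¹ ∈ C then 1 else 0)) = _
      rw [← Finset.sum_add_distrib]
      have hout : Quotient.mk (QuotientGroup.rightRel C)
          (Quotient.out (Quotient.mk (QuotientGroup.rightRel C) x)) =
          Quotient.mk (QuotientGroup.rightRel C) x := Quotient.out_eq _
      rw [Finset.sum_eq_single (Quotient.out (Quotient.mk (QuotientGroup.rightRel C) x))]
      · have h1 : χ (Quotient.out (Quotient.mk (QuotientGroup.rightRel C) x)) =
            f (Quotient.mk (QuotientGroup.rightRel C) x) := by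
          show (if _ then _ else _) = _
          rw [if_pos (by rw [hout]), hout]
        have h3 : Quotient.out (Quotient.mk (QuotientGroup.rightRel C) x) * x⁻¹ ∈ C := by
          rw [← hmk]
          exact hout.symm
        rw [h1, if_pos h3]
        have h4 := htwo (b x (Quotient.out (Quotient.mk (QuotientGroup.rightRel C) x)))
        linear_combination (f (Quotient.mk (QuotientGroup.rightRel C) x)) * h4
      · intro y _ hy
        by_cases hyC : y * x⁻¹ ∈ C
        · have h1 : χ y = 0 := by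
            show (if _ then _ else _) = _
            rw [if_neg]
            intro h3
            apply hy
            rw [(hmk C x y).2 hyC, h3]
          rw [h1]
          ring
        · rw [if_neg hyC]
          have h4 := htwo (b x y)
          linear_combination (χ y) * h4
      · intro h
        exact absurd (Finset.mem_univ _) h
  have hΦinj : ¬ Function.Injective Φ := by
    intro hinj
    have h1 : Φ (fun _ => 1, fun _ => 1) = Φ (fun _ => 0, fun _ => 0) := by
      funext c
      show (1 : ZMod 2) + 1 = 0 + 0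
      decide
    have h3 := congrArg Prod.fst (hinj h1)
    have h4 := congrFun h3 (Quotient.mk _ 1)
    have h5 : (1 : ZMod 2) = 0 := h4
    exact absurd h5 (by decide)
  have hlt : Nat.card (Quotient (QuotientGroup.rightRel C) → ZMod 2) <
      Nat.card ((Quotient (QuotientGroup.rightRel H) → ZMod 2) ×
      (Quotient (QuotientGroup.rightRel H') → ZMod 2)) := by
    by_contra hcon
    push Not at hcon
    exact hΦinj (hΦsurj.bijective_of_nat_card_le hcon).1
  rw [Nat.card_prod, Nat.card_fun, Nat.card_fun, Nat.card_fun, Nat.card_zmod, ← pow_add] at hlt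
  have hlt' := (Nat.pow_lt_pow_iff_right (by norm_num)).1 hlt
  have hC := hcard C
  have hH := hcard H
  have hH' := hcard H'
  have hCpos : 0 < Nat.card C := Nat.card_pos
  set qC := Nat.card (Quotient (QuotientGroup.rightRel C))
  set qH := Nat.card (Quotient (QuotientGroup.rightRel H))
  set qH' := Nat.card (Quotient (QuotientGroup.rightRel H'))
  have h5 : (2 * qH) * Nat.card C ≤ qC * Nat.card C := by
    calc (2 * qH) * Nat.card C = qH * (2 * Nat.card C) := by ring
      _ ≤ qH * Nat.card H := Nat.mul_le_mul_left _ h2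
      _ = qC * Nat.card C := by rw [hH, hC]
  have h6 : (2 * qH') * Nat.card C ≤ qC * Nat.card C := by
    calc (2 * qH') * Nat.card C = qH' * (2 * Nat.card C) := by ring
      _ ≤ qH' * Nat.card H' := Nat.mul_le_mul_left _ h2'
      _ = qC * Nat.card C := by rw [hH', hC]
  have h7 := Nat.le_of_mul_le_mul_right h5 hCpos
  have h8 := Nat.le_of_mul_le_mul_right h6 hCpos
  omega

/-- conjugation by `t` maps the window group `A(m)` into `A(N)`, `m < N` -/
def conjHom {G : Type*} [Group G] (a t : G) {m N : ℕ} (h : m + 1 ≤ N) : win a t m →* win a t N where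
  toFun c := ⟨t * (c : G) * t⁻¹, win_mono a t h (conj1_mem_win a t c.2)⟩
  map_one' := by
    apply Subtype.ext
    simp
  map_mul' := by
    intro c c'
    apply Subtype.ext
    simp [mul_assoc]

theorem conjHom_injective {G : Type*} [Group G] (a t : G) {m N : ℕ} (h : m + 1 ≤ N) :
    Function.Injective (conjHom a t h) := by
  intro c c' h
  have h1 : t * (c : G) * t⁻¹ = t * (c' : G) * t⁻¹ := congrArg Subtype.val h
  exact Subtype.ext (mul_left_cancel (mul_right_cancel h1))

theorem mem_conjHom_range {G : Type*} [Group G] (a t : G) {m N : ℕ} (h : m + 1 ≤ N)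
    (y : win a t N) : y ∈ (conjHom a t h).range ↔ t⁻¹ * (y : G) * t ∈ win a t m := by
  constructor
  · rintro ⟨c, rfl⟩
    have : t⁻¹ * ((conjHom a t h c : win a t N) : G) * t = (c : G) := by
      show t⁻¹ * (t * (c : G) * t⁻¹) * t = (c : G)
      group
    rw [this]
    exact c.2
  · intro hy
    refine ⟨⟨_, hy⟩, ?_⟩
    apply Subtype.ext
    show t * (t⁻¹ * (y : G) * t) * t⁻¹ = y
    group

theorem card_conjHom_range {G : Type*} [Group G] (a t : G) {m N : ℕ} (h : m + 1 ≤ N) :
    Nat.card (conjHom a t h).range = Nat.card (win a t m) :=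
  (Nat.card_congr (MonoidHom.ofInjective (conjHom_injective a t h)).toEquiv).symm

/-- a proper window has at least twice the size -/
theorem two_mul_card_win_le (T : Tower) (hT : T.Nonstable) (m : ℕ) :
    2 * Nat.card (T.A m) ≤ Nat.card (T.A (m + 1)) := by
  have hle : T.A m ≤ T.A (m + 1) := win_mono _ _ (Nat.le_succ _)
  have h1 := Subgroup.card_eq_card_quotient_mul_card_subgroup ((T.A m).subgroupOf (T.A (m + 1)))
  have h2 : Nat.card ((T.A m).subgroupOf (T.A (m + 1))) = Nat.card (T.A m) :=
    Nat.card_congr (Subgroup.subgroupOfEquivOfLe hle).toEquiv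
  rw [h2] at h1
  rw [h1]
  refine Nat.mul_le_mul_right _ ?_
  by_contra hcon
  push Not at hcon
  have hidx : ((T.A m).subgroupOf (T.A (m + 1))).index = 1 := by
    have h3 : ((T.A m).subgroupOf (T.A (m + 1))).index ≠ 0 := Subgroup.index_ne_zero_of_finite
    have h4 : ((T.A m).subgroupOf (T.A (m + 1))).index < 2 := hcon
    omega
  rw [Subgroup.index_eq_one] at hidx
  apply hT m
  have h5 : (⟨aj T.a T.t m, aj_mem_win _ _ (Nat.lt_succ_self m)⟩ : T.A (m + 1)) ∈
      (T.A m).subgroupOf (T.A (m + 1)) := by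
    rw [hidx]; trivial
  exact Subgroup.mem_subgroupOf.1 h5

theorem cov_kernel (T : Tower) (hT : T.Nonstable) {n : ℕ} (hn : 0 < n) :
    ∃ w : F2, T.φ w = 1 ∧ homOf (Cov.ca T) (Cov.ct T n) w ≠ 1 := by
  classical
  by_contra hcon
  push Not at hcon
  have htwo : ∀ c : ZMod 2, c + c = 0 := by decide
  -- the section
  obtain ⟨s, hs⟩ : ∃ s : T.G →* Cov T, ∀ w, s (T.φ w) = homOf (Cov.ca T) (Cov.ct T n) w := by
    refine ⟨(T.φ).liftOfSurjective T.φ_surj ⟨homOf (Cov.ca T) (Cov.ct T n), fun w hw => ?_⟩,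
      fun w => ?_⟩
    · exact hcon w hw
    · exact MonoidHom.liftOfRightInverse_comp_apply _ _ _ _ _
  have hsg : ∀ g, (s g).g = g := by
    intro g
    obtain ⟨w, rfl⟩ := T.φ_surj g
    rw [hs]
    have := map_homOf Cov.proj (Cov.ca T) (Cov.ct T n) w
    exact this
  have hmul : ∀ g g' z, (s (g * g')).v z = (s g).v (z * g'⁻¹) + (s g').v z := by
    intro g g' z
    rw [map_mul, Cov.mul_v, hsg]
  have hH : ∀ h ∈ T.A n, ∀ z, (s h).v z = 0 := by
    intro h hh z
    obtain ⟨w, hw, rfl⟩ := T.exists_word hh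
    rw [hs, cov_word T hn hw]
  have ht : ∀ z, (s T.t).v z = if z ∈ T.A (n - 1) then 1 else 0 := by
    intro z
    have h1 : s T.t = Cov.ct T n := by
      have := hs ft
      rwa [T.φ_ft, homOf_ft] at this
    rw [h1]
    rfl
  have hti : ∀ z, (s T.t⁻¹).v z = if z * T.t ∈ T.A (n - 1) then 1 else 0 := by
    intro z
    have h1 := hmul T.t⁻¹ T.t (z * T.t)
    rw [inv_mul_cancel, map_one, Cov.one_v, mul_inv_cancel_right, ht] at h1
    have h3 := htwo (if z * T.t ∈ T.A (n - 1) then 1 else 0)
    linear_combination -h3 - h1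
  -- the subgroups
  have hn1 : n - 1 + 1 ≤ n := by omega
  refine cov_kernel_aux (A := T.A (n + 1)) ((T.A n).subgroupOf (T.A (n + 1)))
    (conjHom T.a T.t (le_refl (n + 1))).range
    (conjHom T.a T.t (show n - 1 + 1 ≤ n + 1 by omega)).range ?_ ?_
    (fun x y => (s x).v (T.t⁻¹ * (y : T.G))) ?_ ?_ ?_ ?_ ?_
  · intro y hy
    rw [mem_conjHom_range] at hy
    rw [Subgroup.mem_subgroupOf]
    have h1 := win_mono T.a T.t hn1 (conj1_mem_win T.a T.t hy)
    have h3 : T.t * (T.t⁻¹ * (y : T.G) * T.t) * T.t⁻¹ = y := by group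
    rwa [h3] at h1
  · intro y hy
    rw [mem_conjHom_range] at hy ⊢
    exact win_mono T.a T.t (by omega) hy
  · intro h hh y
    exact hH _ (Subgroup.mem_subgroupOf.1 hh) _
  · intro x x' y
    show (s ((x : T.G) * (x' : T.G))).v _ = (s (x : T.G)).v (T.t⁻¹ * ((y : T.G) * (x' : T.G)⁻¹)) + _
    rw [hmul, mul_assoc]
  · rintro x ⟨h, rfl⟩ y
    show (s (T.t * (h : T.G) * T.t⁻¹)).v (T.t⁻¹ * (y : T.G)) = _
    rw [hmul, hmul, hH _ h.2, hti, ht, inv_inv, add_zero]
    congr 1
    · congr 1
      rw [mem_conjHom_range, eq_iff_iff]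
      have h1 : T.t⁻¹ * ((y * (conjHom T.a T.t (le_refl (n + 1)) h)⁻¹ : T.A (n + 1)) : T.G) * T.t =
          T.t⁻¹ * (y : T.G) * T.t * (h : T.G)⁻¹ := by
        show T.t⁻¹ * ((y : T.G) * (T.t * (h : T.G) * T.t⁻¹)⁻¹) * T.t = _
        group
      rw [h1]
    · congr 1
      rw [mem_conjHom_range, eq_iff_iff]
  · rw [card_conjHom_range, Nat.card_congr (Subgroup.subgroupOfEquivOfLe
      (show T.A n ≤ T.A (n + 1) from win_mono _ _ (Nat.le_succ _))).toEquiv]
    have := two_mul_card_win_le T hT (n - 1)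
    rwa [Nat.sub_add_cancel hn] at this
  · rw [card_conjHom_range, card_conjHom_range]
    have := two_mul_card_win_le T hT (n - 1)
    rwa [Nat.sub_add_cancel hn] at this

end Pool.Agent.H45.Ent
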