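/-
Types (block patterns) and typed systems: definitions for the extraction lemma.
MP_f39e07_an, owner helper45.
-/
import Pool.Agent.H45.Ent.Local
import Pool.Agent.H45.Ent.Glue

set_option autoImplicit false

namespace Pool.Agent.H45.Ent

instance (T : Tower) (n : ℕ) : Finite (T.W n) := (T.W_finite n).to_subtype

/-- patterns on the block `W_n` -/
abbrev Pat (T : Tower) (F : Sys) (n : ℕ) : Type := T.W n → Fin F.k

/-- the locally admissible patterns on `W_n` -/
def PatLoc (T : Tower) (F : Sys) (n : ℕ) : Set (Pat T F n) :=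
  {p | ∀ w w' : T.W n, ((w' : T.G) = T.a * w → F.Ra (p w) (p w')) ∧
    ((w' : T.G) = T.t * w → F.Rt (p w) (p w'))}

/-- number of locally admissible patterns with the same top and bottom level as `p` -/
noncomputable def blk {T : Tower} {F : Sys} {n : ℕ} (p : Pat T F n) : ℕ :=
  {y : Pat T F n | y ∈ PatLoc T F n ∧
    ∀ w : T.W n, (T.lv w = 0 ∨ T.lv w = 1 - (n : ℤ)) → y w = p w}.ncard

/-- the pattern of the configuration `x` seen at `g` -/
def patAt {T : Tower} {F : Sys} (n : ℕ) (x : T.G → Fin F.k) (g : T.G) : Pat T F n :=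
  fun w => x (w * g)

/-- `p'` is the pattern `p` seen from `h` : `p' w = p (w h)` -/
def ShiftRel {T : Tower} {F : Sys} {n : ℕ} (h : T.G) (p p' : Pat T F n) : Prop :=
  ∀ w w' : T.W n, (w' : T.G) = w * h → p' w = p w'

/-- the lower trace of `p` is `q` : `p u = q u` for `u ∈ W_n` with `u t⁻¹ ∈ W_n` -/
def Tr0 {T : Tower} {F : Sys} {n : ℕ} (q : T.G → Fin F.k) (p : Pat T F n) : Prop :=
  ∀ u : T.W n, (u : T.G) * T.t⁻¹ ∈ T.W n → p u = q u

/-- the upper trace of `p` is `q` : `p (u t⁻¹) = q u` for `u ∈ W_n` with `u t⁻¹ ∈ W_n` -/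
def Tr1 {T : Tower} {F : Sys} {n : ℕ} (q : T.G → Fin F.k) (p : Pat T F n) : Prop :=
  ∀ u w : T.W n, (w : T.G) = u * T.t⁻¹ → p w = q u

/-- A weight on types (pattern, phase) which is nonnegative, supported on locally admissible
patterns, invariant under the window group and balanced under `t`. -/
structure IsBal {R : Type*} [AddCommMonoid R] (T : Tower) (F : Sys) (n : ℕ)
    (π : Pat T F n × ZMod n → R) : Prop where
  supp : ∀ p l, π (p, l) ≠ 0 → p ∈ PatLoc T F n
  inv : ∀ h ∈ T.A n, ∀ p p' : Pat T F n, ShiftRel h p p' → ∀ l, π (p', l) = π (p, l)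
  bal : ∀ (q : T.G → Fin F.k) (l : ZMod n),
    ∑ᶠ p : {p : Pat T F n // Tr0 q p}, π (p.1, l) =
      ∑ᶠ p : {p : Pat T F n // Tr1 q p}, π (p.1, l + 1)

/-- A finite system on which the window group `A(n)` acts freely, with types. -/
structure TypSys (T : Tower) (F : Sys) (n : ℕ) where
  Y : Type
  [finY : Finite Y]
  [neY : Nonempty Y]
  [act : MulAction (T.A n) Y]
  free : ∀ (h : T.A n) (y : Y), h • y = y → h = 1
  α : Equiv.Perm Y
  τ : Equiv.Perm Y
  hα : ∀ x : T.A n, (x : T.G) = T.a → ∀ y, α y = x • y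
  hτ : ∀ c c' : T.A n, (c : T.G) ∈ T.A (n - 1) → (c' : T.G) = T.t * c * T.t⁻¹ →
    ∀ y, τ (c • y) = c' • τ y
  ph : Y → ZMod n
  ph_smul : ∀ (h : T.A n) (y : Y), ph (h • y) = ph y
  ph_τ : ∀ y, ph (τ y) = ph y + 1
  P : Y → Pat T F n
  P_loc : ∀ y, P y ∈ PatLoc T F n
  P_smul : ∀ (h : T.A n) (y : Y), ShiftRel (h : T.G) (P y) (P (h • y))
  P_τ : ∀ (y : Y) (u w : T.W n), (w : T.G) = u * T.t⁻¹ → P (τ y) w = P y u

attribute [instance] TypSys.finY TypSys.neY TypSys.act

namespace TypSys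

variable {T : Tower} {F : Sys} {n : ℕ} (S : TypSys T F n)

/-- the admissible labelings of `Y` agreeing with `c` on the phases `0`, `-1` -/
def pinned (c : S.Y → Fin F.k) : Set (S.Y → Fin F.k) :=
  {x | (∀ y, F.Ra (x y) (x (S.α y)) ∧ F.Rt (x y) (x (S.τ y))) ∧
    ∀ y, (S.ph y = 0 ∨ S.ph y = -1) → x y = c y}

end TypSys

end Pool.Agent.H45.Ent
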