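/-
Frame argument: some configuration has large average block freedom.
MP_f39e07_an, owner helper45.

PROOF.  `Π = T.Pi (n r) M`, `Γ` the tiles, `X` the shift, `k = F.k`.
`|Π| ent ≤ log cnt X Π` (`card_mul_entX_le`).  Let `E ⊆ Π` be the set of the `w g`, `g ∈ Γ`, `w ∈ W_n`,
`lv w = 0` or `lv w = 1 - n`; `|E| ≤ 2 |A(n)| |Γ|`.  For a pattern `e` on `E` (of some element of
`X`) the number of patterns of `X` on `Π` extending `e` is at most `∏_{g∈Γ} blk (patAt n x g)` for
any `x ∈ X` with `x = e` on `E` (restrict to each tile: `w ↦ x' (w g)` is locally admissible with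
the same ends).  There are at most `k^{|E|}` patterns `e`.  If the claim failed for all `x ∈ X`,
then `cnt X Π < k^{|E|} exp (|Π| ent - 2 |A(n)| |Γ| log k) ≤ exp (|Π| ent)`, a contradiction.
-/
import Pool.Agent.H45.Ent.TypDefs

set_option autoImplicit false

namespace Pool.Agent.H45.Ent

theorem patAt_mem_PatLoc {T : Tower} {F : Sys} (n : ℕ) {x : T.G → Fin F.k}
    (hx : x ∈ F.shift T.a T.t) (g : T.G) : patAt n x g ∈ PatLoc T F n := by
  rintro w w'
  refine ⟨fun h => ?_, fun h => ?_⟩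
  · have := (hx ((w : T.G) * g)).1
    simpa [patAt, h, mul_assoc] using this
  · have := (hx ((w : T.G) * g)).2
    simpa [patAt, h, mul_assoc] using this

theorem ends_ncard (T : Tower) {n : ℕ} (hn : 0 < n) :
    {w : T.G | w ∈ T.W n ∧ (T.lv w = 0 ∨ T.lv w = 1 - (n : ℤ))}.ncard ≤ 2 * Nat.card (T.A n) := by
  have hfin : (T.A n : Set T.G).Finite := Set.finite_coe_iff.1 (T.fin n)
  have hsub : {w : T.G | w ∈ T.W n ∧ (T.lv w = 0 ∨ T.lv w = 1 - (n : ℤ))} ⊆
      (T.A n : Set T.G) ∪ (fun g => (T.t ^ (n - 1))⁻¹ * g) '' (T.A n : Set T.G) := by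
    rintro w ⟨⟨j, hj, hw⟩, h⟩
    have hlv : (j : ℤ) + T.lv w = 0 := by
      have := T.lv_win hw
      rwa [T.lv_mul, T.lv_pow, T.lv_t, mul_one] at this
    rcases h with h | h
    · left
      have : j = 0 := by omega
      subst this
      simpa using hw
    · right
      have : j = n - 1 := by omega
      subst this
      exact ⟨_, hw, by simp⟩
  have h1 := Set.ncard_le_ncard hsub (hfin.union (hfin.image _))
  have h2 := Set.ncard_union_le (T.A n : Set T.G)
    ((fun g => (T.t ^ (n - 1))⁻¹ * g) '' (T.A n : Set T.G))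
  have h3 := Set.ncard_image_le (f := fun g => (T.t ^ (n - 1))⁻¹ * g) hfin
  have h4 : (T.A n : Set T.G).ncard = Nat.card (T.A n) := rfl
  omega

theorem one_le_blk {T : Tower} {F : Sys} {n : ℕ} {p : Pat T F n} (hp : p ∈ PatLoc T F n) :
    0 < blk p := by
  unfold blk
  rw [Set.ncard_pos (Set.toFinite _)]
  exact ⟨p, hp, fun _ _ => rfl⟩

theorem blk_le {T : Tower} {F : Sys} {n : ℕ} (p : Pat T F n) : blk p ≤ Nat.card (Pat T F n) := by
  unfold blk
  rw [← Set.ncard_univ]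
  exact Set.ncard_le_ncard (Set.subset_univ _) (Set.toFinite _)

theorem frame_count (T : Tower) (F : Sys) {n : ℕ} (Γ : Finset T.G) (Q : Set T.G)
    (hQ : Q.Finite)
    (htile : Set.BijOn (fun p : T.G × T.G => p.1 * p.2) (T.W n ×ˢ (Γ : Set T.G)) Q)
    (E : Set T.G) (hE : E = (fun p : T.G × T.G => p.1 * p.2) ''
      ({w : T.G | w ∈ T.W n ∧ (T.lv w = 0 ∨ T.lv w = 1 - (n : ℤ))} ×ˢ (Γ : Set T.G)))
    (B : ℕ) (hB : ∀ x ∈ F.shift T.a T.t, ∏ g ∈ Γ, blk (patAt n x g) ≤ B) :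
    cnt (F.shift T.a T.t) Q ≤ B * F.k ^ E.ncard := by
  classical
  have hEQ : E ⊆ Q := by
    rw [hE, ← htile.image_eq]
    apply Set.image_mono
    exact Set.prod_mono (fun w hw => hw.1) subset_rfl
  have hEfin : E.Finite := hQ.subset hEQ
  have := hQ.to_subtype
  have := hEfin.to_subtype
  have := Fintype.ofFinite Q
  have := Fintype.ofFinite E
  have := Fintype.ofFinite (T.W n)
  have hP := patt_finite (F.shift T.a T.t) hQ
  have htm : ∀ (w : T.W n) (g : Γ), (w : T.G) * g ∈ Q := fun w g =>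
    htile.mapsTo (x := ((w : T.G), (g : T.G))) ⟨w.2, g.2⟩
  unfold cnt
  rw [Set.ncard_eq_toFinset_card _ hP]
  let f : (Q → Fin F.k) → (E → Fin F.k) := fun p e => p ⟨e, hEQ e.2⟩
  have key := Finset.card_le_mul_card_image (f := f) hP.toFinset B ?_
  · refine key.trans (Nat.mul_le_mul_left B ?_)
    refine (Finset.card_le_univ _).trans ?_
    rw [Fintype.card_fun, Fintype.card_fin, ← Nat.card_eq_fintype_card, Nat.card_coe_set_eq]
  · intro a ha
    rw [Finset.mem_image] at ha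
    obtain ⟨p, hp, rfl⟩ := ha
    rw [Set.Finite.mem_toFinset] at hp
    obtain ⟨x, hx, rfl⟩ := hp
    refine le_trans ?_ (hB x hx)
    -- the product of the fibres
    let S : Γ → Finset (Pat T F n) := fun g => (Set.toFinite {y : Pat T F n | y ∈ PatLoc T F n ∧
      ∀ w : T.W n, (T.lv w = 0 ∨ T.lv w = 1 - (n : ℤ)) → y w = patAt n x g w}).toFinset
    have hS : (Fintype.piFinset S).card = ∏ g ∈ Γ, blk (patAt n x g) := by
      rw [Fintype.card_piFinset, ← Finset.prod_coe_sort Γ (fun g => blk (patAt n x g))]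
      refine Finset.prod_congr rfl fun g _ => ?_
      rw [blk, Set.ncard_eq_toFinset_card _ (Set.toFinite _)]
    rw [← hS]
    refine Finset.card_le_card_of_injOn
      (fun (p : Q → Fin F.k) (g : Γ) (w : T.W n) => p ⟨(w : T.G) * g, htm w g⟩) ?_ ?_
    · intro p hp
      rw [Finset.mem_coe, Finset.mem_filter, Set.Finite.mem_toFinset] at hp
      obtain ⟨⟨x', hx', rfl⟩, hxx⟩ := hp
      rw [Finset.mem_coe, Fintype.mem_piFinset]
      intro g
      simp only [S, Set.Finite.mem_toFinset]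
      refine ⟨patAt_mem_PatLoc n hx' g, fun w hw => ?_⟩
      have hmem : (w : T.G) * g ∈ E := by
        rw [hE]
        exact ⟨((w : T.G), (g : T.G)), ⟨⟨w.2, hw⟩, g.2⟩, rfl⟩
      exact congrFun hxx ⟨_, hmem⟩
    · intro p _ p' _ h
      funext ⟨z, hz⟩
      obtain ⟨⟨w, g⟩, ⟨hw, hg⟩, hwg⟩ := htile.surjOn hz
      have h1 := congrFun (congrFun h ⟨g, hg⟩) ⟨w, hw⟩
      simp only at hwg
      subst hwg
      exact h1

theorem exists_frame (T : Tower) (F : Sys) (hne : (F.shift T.a T.t).Nonempty) {n r M : ℕ}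
    (hn : 0 < n) (Γ : Finset T.G)
    (htile : Set.BijOn (fun p : T.G × T.G => p.1 * p.2) (T.W n ×ˢ (Γ : Set T.G))
      (T.Pi (n * r) M)) :
    ∃ x ∈ F.shift T.a T.t,
      ((T.Pi (n * r) M).ncard : ℝ) * T.ent F -
          2 * (Nat.card (T.A n) : ℝ) * (Γ.card : ℝ) * Real.log F.k ≤
        ∑ g ∈ Γ, Real.log (blk (patAt n x g)) := by
  classical
  obtain ⟨x0, hx0⟩ := hne
  have hk : 0 < F.k := lt_of_le_of_lt (Nat.zero_le _) (x0 1).2
  have hQ : (T.Pi (n * r) M).Finite := by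
    rw [← htile.image_eq]
    exact ((T.W_finite n).prod Γ.finite_toSet).image _
  -- a maximal element
  let V : Set ℕ := (fun x : T.G → Fin F.k => ∏ g ∈ Γ, blk (patAt n x g)) '' F.shift T.a T.t
  have hVne : V.Nonempty := ⟨_, x0, hx0, rfl⟩
  have hVb : BddAbove V := by
    refine ⟨∏ g ∈ Γ, Nat.card (Pat T F n), ?_⟩
    rintro _ ⟨x, -, rfl⟩
    exact Finset.prod_le_prod' fun g _ => blk_le _
  obtain ⟨x, hx, hxB⟩ := Nat.sSup_mem hVne hVb
  refine ⟨x, hx, ?_⟩
  have hB : ∀ x' ∈ F.shift T.a T.t, ∏ g ∈ Γ, blk (patAt n x' g) ≤ ∏ g ∈ Γ, blk (patAt n x g) := by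
    intro x' hx'
    have := le_csSup hVb ⟨x', hx', rfl⟩
    rw [← hxB] at this
    exact this
  set E : Set T.G := (fun p : T.G × T.G => p.1 * p.2) ''
      ({w : T.G | w ∈ T.W n ∧ (T.lv w = 0 ∨ T.lv w = 1 - (n : ℤ))} ×ˢ (Γ : Set T.G)) with hE
  have hcount := frame_count T F Γ _ hQ htile E hE _ hB
  have hEc : E.ncard ≤ 2 * Nat.card (T.A n) * Γ.card := by
    have hfin : {w : T.G | w ∈ T.W n ∧ (T.lv w = 0 ∨ T.lv w = 1 - (n : ℤ))}.Finite :=
      (T.W_finite n).subset fun w hw => hw.1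
    have h1 := Set.ncard_image_le (f := fun p : T.G × T.G => p.1 * p.2)
      (hfin.prod Γ.finite_toSet)
    rw [Set.ncard_prod, Set.ncard_coe_finset] at h1
    exact h1.trans (Nat.mul_le_mul_right _ (ends_ncard T hn))
  have hpos : 0 < cnt (F.shift T.a T.t) (T.Pi (n * r) M) := (cnt_pos hQ).2 ⟨x0, hx0⟩
  have hblk : ∀ g ∈ Γ, (blk (patAt n x g) : ℝ) ≠ 0 := fun g _ => by
    have := one_le_blk (patAt_mem_PatLoc n hx g)
    positivity
  have h1 := card_mul_entX_le (F.shift T.a T.t) (T.Pi (n * r) M) hQ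
  have h2 : Real.log (cnt (F.shift T.a T.t) (T.Pi (n * r) M)) ≤
      Real.log (((∏ g ∈ Γ, blk (patAt n x g)) * F.k ^ E.ncard : ℕ) : ℝ) :=
    Real.log_le_log (by exact_mod_cast hpos) (by exact_mod_cast hcount)
  have hprodne : (∏ g ∈ Γ, (blk (patAt n x g) : ℝ)) ≠ 0 := Finset.prod_ne_zero_iff.2 hblk
  have hkne : (F.k : ℝ) ≠ 0 := by positivity
  push_cast at h2
  rw [Real.log_mul hprodne (pow_ne_zero _ hkne), Real.log_prod hblk, Real.log_pow] at h2
  have hlogk : 0 ≤ Real.log F.k := Real.log_natCast_nonneg _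
  have h3 : (E.ncard : ℝ) * Real.log F.k ≤
      2 * (Nat.card (T.A n) : ℝ) * (Γ.card : ℝ) * Real.log F.k := by
    apply mul_le_mul_of_nonneg_right _ hlogk
    exact_mod_cast hEc
  unfold Tower.ent
  linarith

end Pool.Agent.H45.Ent
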