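/-
Empirical measures: an exactly invariant, exactly balanced real weight on types.
MP_f39e07_an, owner helper45.

PROOF.  For `r ≥ 1` put `J = n r`, `M = n r + n`, `Π = T.Pi J M`, `Γ` from `exists_tiling`
(`n r ≤ M`), `x` from `exists_frame`.  Type of `g`: `(patAt n x g, lv g - 1)` (so the phase is `-1`
iff `n ∣ lv g`).  `π_r (z) = #{g ∈ Π | type g = z} / |Π|`.
* supported on `PatLoc` (`patAt_mem_PatLoc`), nonnegative, sum 1.
* invariant: `patAt n x (h g) w = x (w h g) = patAt n x g (w h)`, `lv (h g) = lv g`, and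
  `h g ∈ Π ↔ g ∈ Π` for `h ∈ A(n)` (`win_mul_mem_Pi`, `J + n ≤ M + 1`).  `ShiftRel h p p'`
  determines `p'` from `p` and conversely (`w h ∈ W_n` for `w ∈ W_n`, `h ∈ A(n)`,
  `mul_win_mem_Pi`).
* almost balanced: `patAt n x (t g) (u t⁻¹) = x (u g) = patAt n x g u`, so
  `Tr0 q (patAt n x g) ↔ Tr1 q (patAt n x (t g))`; the two sides of `bal` for `π_r` count `g ∈ Π`
  and `g' ∈ t Π`, they differ by at most `|tΠ \ Π| / |Π| + |Π \ tΠ| / |Π| ≤ 2 / (n r)`
  (`ncard_t_image_diff_Pi`, `ncard_Pi`).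
* value: `∑_p π_r (p,-1) log blk p = (1/|Π|) ∑_{g ∈ Π, n ∣ lv g} log blk (patAt n x g)
  = (|A(n)| / |Π|) ∑_{g∈Γ} log blk (patAt n x g)` (third part of `exists_tiling`, and
  `blk p' = blk p` if `ShiftRel h p p'`), so by `exists_frame`
  `≥ |A(n)| (ent - 2 |A(n)| |Γ| log k / |Π|) = |A(n)| (ent - 2 log k / n)` since
  `|Π| = |W_n| |Γ| = n |A(n)| |Γ|`.
The `π_r` lie in the compact simplex of the finite-dimensional space `(Pat × ZMod n) → ℝ`; a limit
point has all the properties exactly.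
-/
import Pool.Agent.H45.Ent.Frame

set_option autoImplicit false

open Filter Topology

namespace Pool.Agent.H45.Ent

section shift

variable {T : Tower} {F : Sys} {n : ℕ}

theorem mul_win_mem_W {h : T.G} (hh : h ∈ T.A n) {w : T.G} (hw : w ∈ T.W n) : w * h ∈ T.W n :=
  (T.mul_win_mem_Pi hh).2 hw

theorem ShiftRel.symm {h : T.G} {p p' : Pat T F n} (H : ShiftRel h p p') : ShiftRel h⁻¹ p' p := by
  intro w w' e
  exact (H w' w (by rw [e]; group)).symm

theorem patAt_mul_of_shift {h : T.G} (hh : h ∈ T.A n) {p p' : Pat T F n} (H : ShiftRel h p p')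
    (x : T.G → Fin F.k) {g : T.G} (hg : patAt n x g = p) : patAt n x (h * g) = p' := by
  funext w
  rw [H w ⟨w * h, mul_win_mem_W hh w.2⟩ rfl, ← hg]
  simp only [patAt, mul_assoc]

theorem patAt_shift_iff {h : T.G} (hh : h ∈ T.A n) {p p' : Pat T F n} (H : ShiftRel h p p')
    (x : T.G → Fin F.k) (g : T.G) : patAt n x (h * g) = p' ↔ patAt n x g = p := by
  constructor
  · intro h1
    have := patAt_mul_of_shift (Subgroup.inv_mem _ hh) H.symm x h1
    rwa [inv_mul_cancel_left] at this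
  · exact patAt_mul_of_shift hh H x

theorem shiftRel_patAt {h : T.G} (x : T.G → Fin F.k) (g : T.G) :
    ShiftRel h (patAt n x g) (patAt n x (h * g)) := by
  intro w w' e
  simp only [patAt, e, mul_assoc]

theorem blk_le_of_shift {h : T.G} (hh : h ∈ T.A n) {p p' : Pat T F n} (H : ShiftRel h p p') :
    blk p ≤ blk p' := by
  unfold blk
  refine Set.ncard_le_ncard_of_injOn
    (fun y => fun w : T.W n => y ⟨w * h, mul_win_mem_W hh w.2⟩) ?_ ?_ (Set.toFinite _)
  · rintro y ⟨hy, hy'⟩
    refine ⟨?_, ?_⟩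
    · intro w w'
      refine ⟨fun e => ?_, fun e => ?_⟩
      · exact (hy ⟨w * h, mul_win_mem_W hh w.2⟩ ⟨w' * h, mul_win_mem_W hh w'.2⟩).1
          (by show (w' : T.G) * h = T.a * (w * h); rw [e, mul_assoc])
      · exact (hy ⟨w * h, mul_win_mem_W hh w.2⟩ ⟨w' * h, mul_win_mem_W hh w'.2⟩).2
          (by show (w' : T.G) * h = T.t * (w * h); rw [e, mul_assoc])
    · intro w hw
      rw [H w ⟨w * h, mul_win_mem_W hh w.2⟩ rfl]
      apply hy'
      simpa [T.lv_win hh] using hw
  · intro y hy z hz hyz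
    funext w
    have h1 := congrFun hyz ⟨(w : T.G) * h⁻¹, mul_win_mem_W (Subgroup.inv_mem _ hh) w.2⟩
    simpa using h1

theorem blk_eq_of_shift {h : T.G} (hh : h ∈ T.A n) {p p' : Pat T F n} (H : ShiftRel h p p') :
    blk p = blk p' :=
  le_antisymm (blk_le_of_shift hh H) (blk_le_of_shift (Subgroup.inv_mem _ hh) H.symm)

theorem tr_iff (q : T.G → Fin F.k) (x : T.G → Fin F.k) (g : T.G) :
    Tr0 q (patAt n x g) ↔ Tr1 q (patAt n x (T.t * g)) := by
  constructor
  · intro h u w e
    have h1 : (u : T.G) * T.t⁻¹ ∈ T.W n := e ▸ w.2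
    have h2 := h u h1
    rw [← h2]
    simp only [patAt, e]
    congr 1
    group
  · intro h u hu
    have h2 := h u ⟨_, hu⟩ rfl
    rw [← h2]
    simp only [patAt]
    congr 1
    group

end shift

/-- the patterns form a finite type -/
@[instance_reducible]
noncomputable def patFintype (T : Tower) (F : Sys) (n : ℕ) : Fintype (Pat T F n) :=
  Fintype.ofFinite _

attribute [local instance] patFintype

section emp

variable {T : Tower} {F : Sys} (n : ℕ)

open Classical in
/-- the empirical weight of a type -/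
noncomputable def emp (x : T.G → Fin F.k) (P : Finset T.G) (z : Pat T F n × ZMod n) : ℝ :=
  ((P.filter (fun g => patAt n x g = z.1 ∧ ((T.lv g - 1 : ℤ) : ZMod n) = z.2)).card : ℝ) / P.card

variable {n}

theorem emp_nonneg (x : T.G → Fin F.k) (P : Finset T.G) (z : Pat T F n × ZMod n) :
    0 ≤ emp n x P z := by
  unfold emp; positivity

theorem emp_le_one (x : T.G → Fin F.k) (P : Finset T.G) (z : Pat T F n × ZMod n) :
    emp n x P z ≤ 1 := by
  classical
  unfold emp
  apply div_le_one_of_le₀ _ (Nat.cast_nonneg _)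
  exact_mod_cast Finset.card_filter_le _ _

open Classical in
theorem sum_emp (x : T.G → Fin F.k) (P : Finset T.G) (S : Finset (Pat T F n)) (l : ZMod n)
    (φ : Pat T F n → ℝ) :
    ∑ p ∈ S, emp n x P (p, l) * φ p =
      (∑ g ∈ P, if ((T.lv g - 1 : ℤ) : ZMod n) = l ∧ patAt n x g ∈ S then φ (patAt n x g) else 0) /
        P.card := by
  unfold emp
  rw [Finset.sum_div]
  have h1 : ∀ p ∈ S, ((P.filter (fun g => patAt n x g = p ∧
      ((T.lv g - 1 : ℤ) : ZMod n) = l)).card : ℝ) / P.card * φ p =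
      ∑ g ∈ P, (if patAt n x g = p ∧ ((T.lv g - 1 : ℤ) : ZMod n) = l then φ p else 0) / P.card := by
    intro p _
    rw [Finset.card_filter]
    push_cast
    rw [Finset.sum_div, Finset.sum_mul]
    apply Finset.sum_congr rfl
    intro g _
    split_ifs <;> ring
  rw [Finset.sum_congr rfl h1, Finset.sum_comm]
  apply Finset.sum_congr rfl
  intro g _
  rw [← Finset.sum_div]
  congr 1
  by_cases hl : ((T.lv g - 1 : ℤ) : ZMod n) = l
  · simp only [hl, and_true, true_and]
    rw [Finset.sum_ite_eq]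
  · simp only [hl, and_false, false_and, if_false, Finset.sum_const_zero]

theorem emp_supp {x : T.G → Fin F.k} (hx : x ∈ F.shift T.a T.t) (P : Finset T.G)
    (p : Pat T F n) (l : ZMod n) (hp : p ∉ PatLoc T F n) : emp n x P (p, l) = 0 := by
  classical
  unfold emp
  rw [div_eq_zero_iff]
  left
  rw [Nat.cast_eq_zero, Finset.card_eq_zero, Finset.filter_eq_empty_iff]
  rintro g _ ⟨h1, _⟩
  apply hp
  show (p, l).1 ∈ _
  rw [← h1]
  exact patAt_mem_PatLoc n hx g

theorem emp_inv (x : T.G → Fin F.k) (P : Finset T.G) {h : T.G} (hh : h ∈ T.A n)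
    (hP : ∀ g, h * g ∈ P ↔ g ∈ P) {p p' : Pat T F n} (H : ShiftRel h p p') (l : ZMod n) :
    emp n x P (p', l) = emp n x P (p, l) := by
  classical
  unfold emp
  congr 2
  symm
  apply Finset.card_bij (fun g _ => h * g)
  · intro g hg
    rw [Finset.mem_filter] at hg ⊢
    refine ⟨(hP g).2 hg.1, (patAt_shift_iff hh H x g).2 hg.2.1, ?_⟩
    rw [T.lv_mul, T.lv_win hh, zero_add]
    exact hg.2.2
  · intro g _ g' _ e
    exact mul_left_cancel e
  · intro g hg
    rw [Finset.mem_filter] at hg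
    refine ⟨h⁻¹ * g, ?_, by group⟩
    rw [Finset.mem_filter]
    refine ⟨?_, ?_, ?_⟩
    · rw [← hP, mul_inv_cancel_left]; exact hg.1
    · rw [← patAt_shift_iff hh H, mul_inv_cancel_left]; exact hg.2.1
    · rw [T.lv_mul, T.lv_inv, T.lv_win hh, neg_zero, zero_add]
      exact hg.2.2

open Classical in
theorem emp_bal (x : T.G → Fin F.k) (P : Finset T.G) (C : ℕ)
    (h1 : ((P.image (fun g => T.t * g)) \ P).card ≤ C) (q : T.G → Fin F.k) (l : ZMod n) :
    |∑ p ∈ Finset.univ.filter (fun p : Pat T F n => Tr0 q p), emp n x P (p, l) -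
      ∑ p ∈ Finset.univ.filter (fun p : Pat T F n => Tr1 q p), emp n x P (p, l + 1)| ≤
      C / P.card := by
  have hA := sum_emp x P (Finset.univ.filter (fun p : Pat T F n => Tr0 q p)) l (fun _ => 1)
  have hB := sum_emp x P (Finset.univ.filter (fun p : Pat T F n => Tr1 q p)) (l + 1) (fun _ => 1)
  simp only [mul_one] at hA hB
  rw [hA, hB, ← sub_div, abs_div, Nat.abs_cast]
  apply div_le_div_of_nonneg_right _ (Nat.cast_nonneg _)
  rw [← Finset.sum_filter, ← Finset.sum_filter]
  rw [Finset.sum_const, Finset.sum_const, nsmul_eq_mul, nsmul_eq_mul, mul_one, mul_one]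
  set Q : T.G → Prop := fun g => ((T.lv g - 1 : ℤ) : ZMod n) = l + 1 ∧
    patAt n x g ∈ Finset.univ.filter (fun p : Pat T F n => Tr1 q p) with hQ
  have h2 : (P.filter (fun g => ((T.lv g - 1 : ℤ) : ZMod n) = l ∧
      patAt n x g ∈ Finset.univ.filter (fun p : Pat T F n => Tr0 q p))).card =
      ((P.image (fun g => T.t * g)).filter Q).card := by
    apply Finset.card_bij (fun g _ => T.t * g)
    · intro g hg
      rw [Finset.mem_filter] at hg ⊢
      rw [Finset.mem_filter] at hg
      refine ⟨Finset.mem_image_of_mem _ hg.1, ?_, ?_⟩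
      · rw [← hg.2.1, T.lv_mul, T.lv_t]
        push_cast
        ring
      · rw [Finset.mem_filter]
        exact ⟨Finset.mem_univ _, (tr_iff q x g).1 hg.2.2.2⟩
    · intro g _ g' _ e
      exact mul_left_cancel e
    · intro g hg
      rw [Finset.mem_filter, Finset.mem_image] at hg
      obtain ⟨⟨g', hg', rfl⟩, h3, h4⟩ := hg
      refine ⟨g', ?_, rfl⟩
      rw [Finset.mem_filter] at h4 ⊢
      refine ⟨hg', ?_, ?_⟩
      · rw [T.lv_mul, T.lv_t] at h3
        push_cast at h3 ⊢
        linear_combination h3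
      · rw [Finset.mem_filter]
        exact ⟨Finset.mem_univ _, (tr_iff q x g').2 h4.2⟩
  rw [h2]
  have h3 : (P.image (fun g => T.t * g)).card = P.card :=
    Finset.card_image_of_injective _ (mul_right_injective T.t)
  have h4 : (P \ (P.image (fun g => T.t * g))).card = ((P.image (fun g => T.t * g)) \ P).card := by
    have h5 := Finset.card_sdiff_add_card_inter P (P.image (fun g => T.t * g))
    have h6 := Finset.card_sdiff_add_card_inter (P.image (fun g => T.t * g)) P
    rw [Finset.inter_comm] at h6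
    omega
  have h5 : ∀ A B : Finset T.G, (A.filter Q).card ≤ (B.filter Q).card + (A \ B).card := by
    intro A B
    calc (A.filter Q).card ≤ ((B.filter Q) ∪ (A \ B)).card := by
          apply Finset.card_le_card
          intro g hg
          rw [Finset.mem_filter] at hg
          rw [Finset.mem_union, Finset.mem_filter, Finset.mem_sdiff]
          by_cases h : g ∈ B
          · exact Or.inl ⟨h, hg.2⟩
          · exact Or.inr ⟨hg.1, h⟩
      _ ≤ _ := Finset.card_union_le _ _
  have h6 := h5 P (P.image (fun g => T.t * g))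
  have h7 := h5 (P.image (fun g => T.t * g)) P
  rw [abs_le]
  constructor
  · have : (P.filter Q).card ≤ ((P.image (fun g => T.t * g)).filter Q).card + C := by omega
    have : ((P.filter Q).card : ℝ) ≤ (((P.image (fun g => T.t * g)).filter Q).card : ℝ) + C := by
      exact_mod_cast this
    linarith
  · have : ((P.image (fun g => T.t * g)).filter Q).card ≤ (P.filter Q).card + C := by omega
    have : (((P.image (fun g => T.t * g)).filter Q).card : ℝ) ≤ ((P.filter Q).card : ℝ) + C := by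
      exact_mod_cast this
    linarith

theorem phase_iff (n : ℕ) (m : ℤ) : ((m - 1 : ℤ) : ZMod n) = -1 ↔ (n : ℤ) ∣ m := by
  rw [← ZMod.intCast_zmod_eq_zero_iff_dvd]
  push_cast
  constructor
  · intro h
    linear_combination h
  · intro h
    linear_combination h

theorem emp_value (x : T.G → Fin F.k) {S : Set T.G} (P : Finset T.G) (hP : (P : Set T.G) = S)
    (Γ : Finset T.G)
    (hb : Set.BijOn (fun p : T.G × T.G => p.1 * p.2) ((T.A n : Set T.G) ×ˢ (Γ : Set T.G))
        {g | g ∈ S ∧ (n : ℤ) ∣ T.lv g}) :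
    ∑ p : Pat T F n, emp n x P (p, -1) * Real.log (blk p) =
      (Nat.card (T.A n) : ℝ) * (∑ g ∈ Γ, Real.log (blk (patAt n x g))) / P.card := by
  classical
  rw [sum_emp x P Finset.univ (-1) (fun p => Real.log (blk p))]
  congr 1
  rw [← Finset.sum_filter]
  have hA : ((T.A_finite n).toFinset.card : ℝ) = Nat.card (T.A n) := by
    rw [← Set.ncard_eq_toFinset_card _ (T.A_finite n)]
    rw [← Nat.card_coe_set_eq]
    rfl
  rw [← hA, ← nsmul_eq_mul, ← Finset.sum_const, ← Finset.sum_product'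
    (f := fun _ g => Real.log (blk (patAt n x g)))]
  symm
  apply Finset.sum_nbij (fun p : T.G × T.G => p.1 * p.2)
  · rintro ⟨h, g⟩ hp
    rw [Finset.mem_product, Set.Finite.mem_toFinset] at hp
    have := hb.mapsTo (show (h, g) ∈ (T.A n : Set T.G) ×ˢ (Γ : Set T.G) from ⟨hp.1, hp.2⟩)
    rw [Finset.mem_filter]
    refine ⟨?_, ?_, Finset.mem_univ _⟩
    · have h1 := this.1
      rw [← hP] at h1
      exact h1
    · exact (phase_iff n _).2 this.2
  · intro p hp p' hp' e
    rw [Finset.mem_coe, Finset.mem_product, Set.Finite.mem_toFinset] at hp hp'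
    exact hb.injOn ⟨hp.1, hp.2⟩ ⟨hp'.1, hp'.2⟩ e
  · intro g hg
    rw [Finset.mem_coe, Finset.mem_filter] at hg
    obtain ⟨⟨h, γ⟩, hp, e⟩ := hb.surjOn (show g ∈ {g | g ∈ S ∧ (n : ℤ) ∣ T.lv g} from
      ⟨hP ▸ hg.1, (phase_iff n _).1 hg.2.1⟩)
    refine ⟨(h, γ), ?_, e⟩
    rw [Finset.mem_coe, Finset.mem_product, Set.Finite.mem_toFinset]
    exact ⟨hp.1, hp.2⟩
  · rintro ⟨h, g⟩ hp
    rw [Finset.mem_product, Set.Finite.mem_toFinset] at hp
    simp only
    rw [blk_eq_of_shift (h := h) hp.1 (shiftRel_patAt x g)]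

open Classical in
theorem sum_emp_all [NeZero n] (x : T.G → Fin F.k) (P : Finset T.G) (hP : P.Nonempty) :
    ∑ z : Pat T F n × ZMod n, emp n x P z = 1 := by
  rw [Fintype.sum_prod_type_right]
  have h1 : ∀ l : ZMod n, ∑ p : Pat T F n, emp n x P (p, l) =
      (∑ g ∈ P, if ((T.lv g - 1 : ℤ) : ZMod n) = l then (1 : ℝ) else 0) / P.card := by
    intro l
    have := sum_emp x P Finset.univ l (fun _ : Pat T F n => (1 : ℝ))
    simpa only [mul_one, Finset.mem_univ, and_true] using this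
  rw [Finset.sum_congr rfl (fun l _ => h1 l), ← Finset.sum_div, Finset.sum_comm]
  have h2 : ∀ g ∈ P, ∑ l : ZMod n, (if ((T.lv g - 1 : ℤ) : ZMod n) = l then (1 : ℝ) else 0) = 1 := by
    intro g _
    rw [Finset.sum_ite_eq]
    simp
  rw [Finset.sum_congr rfl h2, Finset.sum_const, nsmul_eq_mul, mul_one]
  exact div_self (by exact_mod_cast hP.card_ne_zero)

open Classical in
theorem exists_approx (T : Tower) (F : Sys) (hne : (F.shift T.a T.t).Nonempty) {n : ℕ} [NeZero n]
    (hn : 0 < n) (r : ℕ) :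
    ∃ π : Pat T F n × ZMod n → ℝ, (∀ z, π z ∈ Set.Icc (0 : ℝ) 1) ∧ ∑ z, π z = 1 ∧
      (∀ p l, p ∉ PatLoc T F n → π (p, l) = 0) ∧
      (∀ h ∈ T.A n, ∀ p p' : Pat T F n, ShiftRel h p p' → ∀ l, π (p', l) = π (p, l)) ∧
      (∀ (q : T.G → Fin F.k) (l : ZMod n),
        |∑ p ∈ Finset.univ.filter (fun p : Pat T F n => Tr0 q p), π (p, l) -
          ∑ p ∈ Finset.univ.filter (fun p : Pat T F n => Tr1 q p), π (p, l + 1)| ≤
          1 / ((r : ℝ) + 1)) ∧
      (Nat.card (T.A n) : ℝ) * (T.ent F - 2 * Real.log F.k / n) ≤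
        ∑ p : Pat T F n, π (p, -1) * Real.log (blk p) := by
  obtain ⟨Γ, -, ht1, ht2⟩ := T.exists_tiling (r := r + 1) (M := n * (r + 1) + n) hn
    (Nat.le_add_right _ _)
  obtain ⟨x, hx, hval⟩ := exists_frame T F hne hn Γ ht1
  set M := n * (r + 1) + n with hM
  set P : Finset T.G := (T.Pi_finite (n * (r + 1)) M).toFinset with hPdef
  have hPc : (P : Set T.G) = T.Pi (n * (r + 1)) M := Set.Finite.coe_toFinset _
  have hmem : ∀ g, g ∈ P ↔ g ∈ T.Pi (n * (r + 1)) M := fun g => Set.Finite.mem_toFinset _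
  have hcard : P.card = (T.Pi (n * (r + 1)) M).ncard := by
    rw [← hPc, Set.ncard_coe_finset]
  have hcard1 : P.card = n * (r + 1) * Nat.card (T.A M) := by rw [hcard, T.ncard_Pi]
  have hAM : 0 < Nat.card (T.A M) := Nat.card_pos
  have hAn : 0 < Nat.card (T.A n) := Nat.card_pos
  have hPpos : 0 < P.card := by rw [hcard1]; positivity
  have hcard2 : P.card = n * Nat.card (T.A n) * Γ.card := by
    rw [hcard, ← ht1.image_eq, ht1.injOn.ncard_image, Set.ncard_prod,
      Set.ncard_coe_finset, T.ncard_W]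
  refine ⟨emp n x P, fun z => ⟨emp_nonneg x P z, emp_le_one x P z⟩,
    sum_emp_all x P (Finset.card_pos.1 hPpos), fun p l hp => emp_supp hx P p l hp, ?_, ?_, ?_⟩
  · intro h hh p p' H l
    apply emp_inv x P hh _ H l
    intro g
    rw [hmem, hmem]
    exact T.win_mul_mem_Pi (by omega) hh
  · intro q l
    refine (emp_bal x P (Nat.card (T.A M)) ?_ q l).trans ?_
    · refine le_trans (le_of_eq ?_) (T.ncard_t_image_diff_Pi (n * (r + 1)) M)
      rw [← hPc, ← Finset.coe_image, ← Finset.coe_sdiff, Set.ncard_coe_finset]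
    · rw [hcard1]
      have h1 : (0 : ℝ) < Nat.card (T.A M) := by exact_mod_cast hAM
      have h2 : (1 : ℝ) ≤ n := by exact_mod_cast hn
      push_cast
      rw [div_le_div_iff₀ (by positivity) (by positivity)]
      have h3 : (0 : ℝ) ≤ (r : ℝ) + 1 := by positivity
      nlinarith [mul_nonneg (mul_nonneg (sub_nonneg.2 h2) h3) h1.le]
  · rw [emp_value x P hPc Γ ht2]
    have h1 : (0 : ℝ) < P.card := by exact_mod_cast hPpos
    have h2 : (0 : ℝ) < n := by exact_mod_cast hn
    have h3 : (0 : ℝ) ≤ Nat.card (T.A n) := Nat.cast_nonneg _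
    rw [le_div_iff₀ h1, mul_assoc]
    apply mul_le_mul_of_nonneg_left _ h3
    refine le_trans (le_of_eq ?_) hval
    rw [← hcard, sub_mul, mul_comm (T.ent F)]
    congr 1
    rw [hcard2]
    push_cast
    field_simp

end emp

theorem exists_balanced (T : Tower) (F : Sys) (hne : (F.shift T.a T.t).Nonempty) {n : ℕ}
    (hn : 0 < n) :
    ∃ π : Pat T F n × ZMod n → ℝ, (∀ z, 0 ≤ π z) ∧ ∑ᶠ z, π z = 1 ∧ IsBal T F n π ∧
      (Nat.card (T.A n) : ℝ) * (T.ent F - 2 * Real.log F.k / n) ≤
        ∑ᶠ p : Pat T F n, π (p, -1) * Real.log (blk p) := by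
  classical
  have : NeZero n := ⟨hn.ne'⟩
  choose π h1 h2 h3 h4 h5 h6 using fun r => exists_approx T F hne hn r
  have hK : IsCompact (Set.univ.pi (fun _ : Pat T F n × ZMod n => Set.Icc (0 : ℝ) 1)) :=
    isCompact_univ_pi (fun _ => isCompact_Icc)
  obtain ⟨ρ, hρ, φ, hφ, hlim⟩ := hK.tendsto_subseq (x := π) (fun r z _ => h1 r z)
  rw [tendsto_pi_nhds] at hlim
  refine ⟨ρ, fun z => (hρ z trivial).1, ?_, ⟨?_, ?_, ?_⟩, ?_⟩
  · rw [finsum_eq_sum_of_fintype]
    have h7 : Tendsto (fun r => ∑ z, (π ∘ φ) r z) atTop (𝓝 (∑ z, ρ z)) :=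
      tendsto_finsetSum _ (fun z _ => hlim z)
    refine tendsto_nhds_unique h7 ?_
    simp only [Function.comp, h2]
    exact tendsto_const_nhds
  · intro p l h
    by_contra hp
    apply h
    refine tendsto_nhds_unique (hlim (p, l)) ?_
    have : (fun r => (π ∘ φ) r (p, l)) = fun _ => 0 := by
      funext r; exact h3 _ p l hp
    rw [this]
    exact tendsto_const_nhds
  · intro h hh p p' H l
    refine tendsto_nhds_unique (hlim (p', l)) ?_
    have : (fun r => (π ∘ φ) r (p', l)) = fun r => (π ∘ φ) r (p, l) := by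
      funext r; exact h4 _ h hh p p' H l
    rw [this]
    exact hlim (p, l)
  · intro q l
    rw [finsum_eq_sum_of_fintype, finsum_eq_sum_of_fintype]
    rw [← Finset.sum_subtype (Finset.univ.filter (fun p : Pat T F n => Tr0 q p)) (by simp)
      (fun p => ρ (p, l))]
    rw [← Finset.sum_subtype (Finset.univ.filter (fun p : Pat T F n => Tr1 q p)) (by simp)
      (fun p => ρ (p, l + 1))]
    rw [← sub_eq_zero, ← abs_eq_zero]
    apply le_antisymm _ (abs_nonneg _)
    have h7 : Tendsto (fun r => |∑ p ∈ Finset.univ.filter (fun p : Pat T F n => Tr0 q p),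
        (π ∘ φ) r (p, l) - ∑ p ∈ Finset.univ.filter (fun p : Pat T F n => Tr1 q p),
        (π ∘ φ) r (p, l + 1)|) atTop (𝓝 |∑ p ∈ Finset.univ.filter (fun p : Pat T F n => Tr0 q p),
        ρ (p, l) - ∑ p ∈ Finset.univ.filter (fun p : Pat T F n => Tr1 q p), ρ (p, l + 1)|) :=
      ((tendsto_finsetSum _ (fun p _ => hlim (p, l))).sub
        (tendsto_finsetSum _ (fun p _ => hlim (p, l + 1)))).abs
    have h8 : Tendsto (fun r : ℕ => 1 / (((φ r : ℕ) : ℝ) + 1)) atTop (𝓝 0) :=
      tendsto_one_div_add_atTop_nhds_zero_nat.comp hφ.tendsto_atTop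
    exact le_of_tendsto_of_tendsto' h7 h8 (fun r => h5 _ q l)
  · rw [finsum_eq_sum_of_fintype]
    have h7 : Tendsto (fun r => ∑ p : Pat T F n, (π ∘ φ) r (p, -1) * Real.log (blk p)) atTop
        (𝓝 (∑ p : Pat T F n, ρ (p, -1) * Real.log (blk p))) :=
      tendsto_finsetSum _ (fun p _ => (hlim (p, -1)).mul_const _)
    exact ge_of_tendsto' h7 (fun r => h6 _)

end Pool.Agent.H45.Ent
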