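/-
Matching lemma for finite free C-sets over a C-set.  MP_f39e07_an, owner helper45.

PROOF.  Induction on the number of elements of an invariant subset `S` of `A`.  If `S` is empty,
so is `T` (fibres equal).  Otherwise pick `a₀ ∈ S`, `q = f a₀`; the fibre of `T` over `q` has the
same positive size, pick `b₀ ∈ T` with `g b₀ = q`.  Map the orbit `c • a₀ ↦ c • b₀` (well defined
and injective because both actions are free; it commutes with the maps to `Q`).  The fibre sizes
of the two orbits agree: `#{c | c • q = q'}` for both.  Remove both orbits and use the induction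
hypothesis on the complements.
-/
import Mathlib

set_option autoImplicit false

namespace Pool.Agent.H45.Ent

theorem match_orbit_count {C A Q : Type*} [Group C] [Finite A] [MulAction C A] [MulAction C Q]
    (hA : ∀ (c : C) (a : A), c • a = a → c = 1)
    (f : A → Q) (hf : ∀ (c : C) (a : A), f (c • a) = c • f a) (S : Set A) (a₀ : A)
    (hS : ∀ c : C, c • a₀ ∈ S) (q : Q) :
    {a : A | a ∈ S ∧ f a = q}.ncard =
      {a : A | (a ∈ S ∧ a ∉ Set.range (fun c : C => c • a₀)) ∧ f a = q}.ncard +
        {c : C | c • f a₀ = q}.ncard := by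
  have hinj : Function.Injective (fun c : C => c • a₀) := by
    intro c c' h
    have h' : c • a₀ = c' • a₀ := h
    have h1 : (c'⁻¹ * c) • a₀ = a₀ := by rw [mul_smul, h', inv_smul_smul]
    have h2 := hA _ _ h1
    rw [inv_mul_eq_one] at h2
    exact h2.symm
  rw [← Set.ncard_image_of_injective _ hinj, ← Set.ncard_union_eq _ (Set.toFinite _)
    (Set.toFinite _)]
  · congr 1
    ext a
    simp only [Set.mem_union, Set.mem_ofPred_eq, Set.mem_image, Set.mem_range]
    constructor
    · rintro ⟨h1, h2⟩
      by_cases h3 : ∃ c : C, c • a₀ = a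
      · right
        obtain ⟨c, rfl⟩ := h3
        exact ⟨c, by rw [← hf, h2], rfl⟩
      · left
        exact ⟨⟨h1, h3⟩, h2⟩
    · rintro (⟨⟨h1, _⟩, h2⟩ | ⟨c, h1, rfl⟩)
      · exact ⟨h1, h2⟩
      · exact ⟨hS c, by rw [hf, h1]⟩
  · rw [Set.disjoint_left]
    rintro a ⟨⟨_, h1⟩, _⟩ ⟨c, _, h2⟩
    exact h1 ⟨c, h2⟩

theorem match_free_aux {C A B Q : Type*} [Group C] [Finite A] [Finite B] [Nonempty B]
    [MulAction C A] [MulAction C B] [MulAction C Q]
    (hA : ∀ (c : C) (a : A), c • a = a → c = 1) (hB : ∀ (c : C) (b : B), c • b = b → c = 1)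
    (f : A → Q) (g : B → Q) (hf : ∀ (c : C) (a : A), f (c • a) = c • f a)
    (hg : ∀ (c : C) (b : B), g (c • b) = c • g b) (n : ℕ) :
    ∀ (S : Set A) (T : Set B), S.ncard = n → (∀ (c : C), ∀ a ∈ S, c • a ∈ S) →
      (∀ (c : C), ∀ b ∈ T, c • b ∈ T) →
      (∀ q : Q, {a : A | a ∈ S ∧ f a = q}.ncard = {b : B | b ∈ T ∧ g b = q}.ncard) →
      ∃ F : A → B, Set.BijOn F S T ∧ (∀ a ∈ S, g (F a) = f a) ∧
        ∀ (c : C), ∀ a ∈ S, F (c • a) = c • F a := by
  classical
  have hinjA : ∀ (c c' : C) (a : A), c • a = c' • a → c = c' := by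
    intro c c' a h
    have h1 : (c'⁻¹ * c) • a = a := by rw [mul_smul, h, inv_smul_smul]
    have h2 := hA _ _ h1
    rw [inv_mul_eq_one] at h2
    exact h2.symm
  have hinjB : ∀ (c c' : C) (b : B), c • b = c' • b → c = c' := by
    intro c c' b h
    have h1 : (c'⁻¹ * c) • b = b := by rw [mul_smul, h, inv_smul_smul]
    have h2 := hB _ _ h1
    rw [inv_mul_eq_one] at h2
    exact h2.symm
  induction n using Nat.strong_induction_on with
  | _ n ih =>
    intro S T hn hS hT hfib
    rcases S.eq_empty_or_nonempty with hSe | ⟨a₀, ha₀⟩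
    · -- the empty case
      have hTe : T = ∅ := by
        by_contra hne
        obtain ⟨b, hb⟩ := Set.nonempty_iff_ne_empty.mpr hne
        have h1 := hfib (g b)
        have h2 : 0 < {b' : B | b' ∈ T ∧ g b' = g b}.ncard :=
          (Set.ncard_pos (Set.toFinite _)).mpr ⟨b, hb, rfl⟩
        rw [← h1, Set.ncard_pos (Set.toFinite _)] at h2
        obtain ⟨a, ha, _⟩ := h2
        rw [hSe] at ha
        exact ha
      subst hSe hTe
      exact ⟨fun _ => Classical.arbitrary B, Set.bijOn_empty _, by simp, by simp⟩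
    · -- the inductive step
      obtain ⟨b₀, hb₀, hgb⟩ : ∃ b ∈ T, g b = f a₀ := by
        have h2 : 0 < {a : A | a ∈ S ∧ f a = f a₀}.ncard :=
          (Set.ncard_pos (Set.toFinite _)).mpr ⟨a₀, ha₀, rfl⟩
        rw [hfib, Set.ncard_pos (Set.toFinite _)] at h2
        obtain ⟨b, hb, hb'⟩ := h2
        exact ⟨b, hb, hb'⟩
      obtain ⟨F', hF1, hF2, hF3⟩ := ih
        ({a : A | a ∈ S ∧ a ∉ Set.range (fun c : C => c • a₀)}).ncard
        (by
          rw [← hn]
          apply Set.ncard_lt_ncard _ (Set.toFinite _)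
          refine ⟨fun a ha => ha.1, fun h => ?_⟩
          exact (h ha₀).2 ⟨1, one_smul _ _⟩)
        {a : A | a ∈ S ∧ a ∉ Set.range (fun c : C => c • a₀)}
        {b : B | b ∈ T ∧ b ∉ Set.range (fun c : C => c • b₀)} rfl
        (by
          rintro c a ⟨h1, h2⟩
          refine ⟨hS c a h1, ?_⟩
          rintro ⟨c', h3⟩
          apply h2
          refine ⟨c⁻¹ * c', ?_⟩
          have h3' : c' • a₀ = c • a := h3
          show (c⁻¹ * c') • a₀ = a
          rw [mul_smul, h3', inv_smul_smul])
        (by
          rintro c a ⟨h1, h2⟩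
          refine ⟨hT c a h1, ?_⟩
          rintro ⟨c', h3⟩
          apply h2
          refine ⟨c⁻¹ * c', ?_⟩
          have h3' : c' • b₀ = c • a := h3
          show (c⁻¹ * c') • b₀ = a
          rw [mul_smul, h3', inv_smul_smul])
        (by
          intro q
          have h1 := match_orbit_count hA f hf S a₀ (fun c => hS c a₀ ha₀) q
          have h2 := match_orbit_count hB g hg T b₀ (fun c => hT c b₀ hb₀) q
          have h3 := hfib q
          rw [hgb] at h2
          have h4 : {a : A | (a ∈ S ∧ a ∉ Set.range (fun c : C => c • a₀)) ∧ f a = q}.ncard =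
              {b : B | (b ∈ T ∧ b ∉ Set.range (fun c : C => c • b₀)) ∧ g b = q}.ncard := by
            omega
          exact h4)
      set F : A → B := fun a => if h : ∃ c : C, c • a₀ = a then (Classical.choose h) • b₀ else F' a
        with hF
      have hFo : ∀ c : C, F (c • a₀) = c • b₀ := by
        intro c
        have h : ∃ c' : C, c' • a₀ = c • a₀ := ⟨c, rfl⟩
        rw [hF]
        simp only [dif_pos h]
        rw [hinjA _ _ _ (Classical.choose_spec h)]
      have hFn : ∀ a, a ∉ Set.range (fun c : C => c • a₀) → F a = F' a := by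
        intro a h
        rw [hF]
        have h' : ¬ ∃ c : C, c • a₀ = a := fun ⟨c, hc⟩ => h ⟨c, hc⟩
        simp only [dif_neg h']
      refine ⟨F, ⟨?_, ?_, ?_⟩, ?_, ?_⟩
      · intro a ha
        by_cases h : a ∈ Set.range (fun c : C => c • a₀)
        · obtain ⟨c, rfl⟩ := h
          show F (c • a₀) ∈ T
          rw [hFo]
          exact hT c b₀ hb₀
        · rw [hFn a h]
          exact (hF1.mapsTo ⟨ha, h⟩).1
      · intro a ha a' ha' haa
        by_cases h : a ∈ Set.range (fun c : C => c • a₀)
        · obtain ⟨c, rfl⟩ := h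
          by_cases h' : a' ∈ Set.range (fun c : C => c • a₀)
          · obtain ⟨c', rfl⟩ := h'
            have h3 : F (c • a₀) = F (c' • a₀) := haa
            rw [hFo, hFo] at h3
            show c • a₀ = c' • a₀
            rw [hinjB _ _ _ h3]
          · exfalso
            have h3 : F (c • a₀) = F a' := haa
            rw [hFo, hFn a' h'] at h3
            exact (hF1.mapsTo ⟨ha', h'⟩).2 ⟨c, h3⟩
        · by_cases h' : a' ∈ Set.range (fun c : C => c • a₀)
          · exfalso
            obtain ⟨c', rfl⟩ := h'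
            have h3 : F a = F (c' • a₀) := haa
            rw [hFo, hFn a h] at h3
            exact (hF1.mapsTo ⟨ha, h⟩).2 ⟨c', h3.symm⟩
          · rw [hFn a h, hFn a' h'] at haa
            exact hF1.injOn ⟨ha, h⟩ ⟨ha', h'⟩ haa
      · intro b hb
        by_cases h : b ∈ Set.range (fun c : C => c • b₀)
        · obtain ⟨c, rfl⟩ := h
          exact ⟨c • a₀, hS c a₀ ha₀, hFo c⟩
        · obtain ⟨a, ha, hab⟩ := hF1.surjOn ⟨hb, h⟩
          refine ⟨a, ha.1, ?_⟩
          rw [hFn a ha.2, hab]
      · intro a ha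
        by_cases h : a ∈ Set.range (fun c : C => c • a₀)
        · obtain ⟨c, rfl⟩ := h
          show g (F (c • a₀)) = f (c • a₀)
          rw [hFo, hg, hf, hgb]
        · rw [hFn a h]
          exact hF2 a ⟨ha, h⟩
      · intro c a ha
        by_cases h : a ∈ Set.range (fun c : C => c • a₀)
        · obtain ⟨c', rfl⟩ := h
          show F (c • c' • a₀) = c • F (c' • a₀)
          rw [← mul_smul, hFo, hFo, mul_smul]
        · have h' : c • a ∉ Set.range (fun c : C => c • a₀) := by
            rintro ⟨c', h3⟩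
            apply h
            refine ⟨c⁻¹ * c', ?_⟩
            have h3' : c' • a₀ = c • a := h3
            show (c⁻¹ * c') • a₀ = a
            rw [mul_smul, h3', inv_smul_smul]
          rw [hFn a h, hFn _ h']
          exact hF3 c a ⟨ha, h⟩

/-- Two finite free `C`-sets `A`, `B` with equivariant maps to a `C`-set `Q` having equal fibre
sizes are isomorphic over `Q`. -/
theorem match_free {C A B Q : Type*} [Group C] [Finite A] [Finite B]
    [MulAction C A] [MulAction C B] [MulAction C Q]
    (hA : ∀ (c : C) (a : A), c • a = a → c = 1) (hB : ∀ (c : C) (b : B), c • b = b → c = 1)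
    (f : A → Q) (g : B → Q) (hf : ∀ (c : C) (a : A), f (c • a) = c • f a)
    (hg : ∀ (c : C) (b : B), g (c • b) = c • g b)
    (hfib : ∀ q : Q, {a : A | f a = q}.ncard = {b : B | g b = q}.ncard) :
    ∃ e : A ≃ B, (∀ a, g (e a) = f a) ∧ ∀ (c : C) (a : A), e (c • a) = c • e a := by
  rcases isEmpty_or_nonempty B with hBe | hBn
  · have hAe : IsEmpty A := by
      by_contra hne
      rw [not_isEmpty_iff] at hne
      obtain ⟨a⟩ := hne
      have h2 : 0 < {a' : A | f a' = f a}.ncard :=
        (Set.ncard_pos (Set.toFinite _)).mpr ⟨a, rfl⟩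
      rw [hfib, Set.ncard_pos (Set.toFinite _)] at h2
      obtain ⟨b, _⟩ := h2
      exact hBe.elim b
    exact ⟨Equiv.equivOfIsEmpty A B, fun a => hAe.elim a, fun _ a => hAe.elim a⟩
  · obtain ⟨F, hF1, hF2, hF3⟩ := match_free_aux hA hB f g hf hg _ Set.univ Set.univ rfl
      (fun _ _ _ => Set.mem_univ _) (fun _ _ _ => Set.mem_univ _) (by
        intro q
        simpa using hfib q)
    exact ⟨Equiv.ofBijective F (Set.bijOn_univ.mp hF1), fun a => hF2 a (Set.mem_univ a),
      fun c a => hF3 c a (Set.mem_univ a)⟩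

/-- Intertwiner: for subgroups `C₀, C₁` of a finite group `H` and an isomorphism `σ : C₀ ≃* C₁`
there is a bijection `τ` of `H` with `τ (c h) = σ c * τ h` for `c ∈ C₀`.
(Apply `match_free` with `A = B = H`, `Q = Unit`; `C₀` acts on `A` by left multiplication and on
`B` through `σ`.) -/
theorem exists_intertwiner {H : Type*} [Group H] [Finite H] (C₀ C₁ : Subgroup H)
    (σ : C₀ ≃* C₁) : ∃ τ : H ≃ H, ∀ (c : C₀) (h : H), τ (c * h) = (σ c : H) * τ h := by
  let iA : MulAction C₀ H :=
    { smul := fun c h => (c : H) * h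
      one_smul := fun h => one_mul h
      mul_smul := fun c c' h => mul_assoc (c : H) (c' : H) h }
  let iB : MulAction C₀ H :=
    { smul := fun c h => (σ c : H) * h
      one_smul := fun h => by
        show ((σ 1 : C₁) : H) * h = h
        rw [map_one]; exact one_mul h
      mul_smul := fun c c' h => by
        show ((σ (c * c') : C₁) : H) * h = (σ c : H) * ((σ c' : H) * h)
        rw [map_mul, Subgroup.coe_mul, mul_assoc] }
  let iQ : MulAction C₀ Unit :=
    { smul := fun _ _ => ()
      one_smul := fun _ => rfl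
      mul_smul := fun _ _ _ => rfl }
  obtain ⟨e, _, he⟩ := @match_free C₀ H H Unit _ _ _ iA iB iQ
    (by
      intro c a h
      have h1 : (c : H) * a = a := h
      have h2 : (c : H) = 1 := by simpa using h1
      exact Subtype.ext h2)
    (by
      intro c a h
      have h1 : (σ c : H) * a = a := h
      have h2 : (σ c : H) = 1 := by simpa using h1
      have h3 : σ c = 1 := Subtype.ext h2
      simpa using h3)
    (fun _ => ()) (fun _ => ()) (fun _ _ => rfl) (fun _ _ => rfl) (fun _ => rfl)
  exact ⟨e, fun c h => he c h⟩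

end Pool.Agent.H45.Ent
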