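/-
Systems on which the window group acts, and the free system of a marked group.
MP_f39e07_an, owner helper45.

PROOFS.
* `act_of_smul`: let `S` be the set of `w ∈ win fa ft n` with the conclusion; it is a subgroup
  containing the generators `a_j`, `j < n`: for `j = 0` this is `hα`; if it holds for `a_j`,
  `j + 1 < n`, then `a_{j+1} = t a_j t⁻¹` acts as `τ (a_j •) τ⁻¹`, which is `a_{j+1} •` by `hτ`
  (`a_j ∈ win a t (n-1)`).
* `exists_tau0`: `exists_intertwiner` (Match.lean) for the subgroups `C₀ = A(n-1)` and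
  `C₁ = t A(n-1) t⁻¹` of `A(n)` (use `Subgroup.subgroupOf`, and conjugation by `t`).
* `frAct`: from `act_of_smul` with `Y = ZMod n × win a t n`.
-/
import Pool.Agent.H45.Ent.Glue
import Pool.Agent.H45.Ent.Match

set_option autoImplicit false

namespace Pool.Agent.H45.Ent

theorem conj_pred_mem_win {G : Type*} [Group G] (a t : G) {n : ℕ} (hn : 0 < n) {c : G}
    (hc : c ∈ win a t (n - 1)) : t * c * t⁻¹ ∈ win a t n := by
  have := conj1_mem_win a t hc
  rwa [Nat.sub_add_cancel hn] at this

/-- if the window group `A(n)` acts on `Y` such that `α` is the action of `a` and `τ` intertwines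
the action of `c ∈ A(n-1)` with that of `t c t⁻¹`, then the words of the window act through the
window group -/
theorem act_of_smul {G Y : Type*} [Group G] (a t : G) (n : ℕ) [MulAction (win a t n) Y]
    (α τ : Equiv.Perm Y)
    (hα : ∀ x : win a t n, (x : G) = a → ∀ y, α y = x • y)
    (hτ : ∀ c c' : win a t n, (c : G) ∈ win a t (n - 1) → (c' : G) = t * c * t⁻¹ →
      ∀ y, τ (c • y) = c' • τ y) :
    ∀ w ∈ win fa ft n, ∀ x : win a t n, (x : G) = homOf a t w → ∀ y, homOf α τ w y = x • y := by
  have key : ∀ j, j < n → ∀ x : win a t n, (x : G) = aj a t j → ∀ y,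
      homOf α τ (aj fa ft j) y = x • y := by
    intro j
    induction j with
    | zero =>
      intro _ x hx y
      rw [aj_zero, homOf_fa]
      exact hα x (by rw [hx, aj_zero]) y
    | succ j ih =>
      intro hj x hx y
      have h1 : aj fa ft (j + 1) = ft * aj fa ft j * ft⁻¹ := by
        have := aj_conj fa ft 1 j
        rw [pow_one, add_comm] at this
        exact this.symm
      have h2 : aj a t (j + 1) = t * aj a t j * t⁻¹ := by
        have := aj_conj a t 1 j
        rw [pow_one, add_comm] at this
        exact this.symm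
      have hc : aj a t j ∈ win a t n := aj_mem_win a t (by omega)
      rw [h1, map_mul, map_mul, map_inv, homOf_ft, Equiv.Perm.mul_apply, Equiv.Perm.mul_apply,
        ih (by omega) ⟨aj a t j, hc⟩ rfl, hτ ⟨aj a t j, hc⟩ x (aj_mem_win a t (by omega))
          (by rw [hx, h2]), ← Equiv.Perm.mul_apply, mul_inv_cancel, Equiv.Perm.one_apply]
  intro w hw
  induction hw using Subgroup.closure_induction with
  | mem w hw =>
    obtain ⟨j, hj, rfl⟩ := hw
    intro x hx y
    refine key j hj x ?_ y
    rw [hx, map_aj, homOf_fa, homOf_ft]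
  | one =>
    intro x hx y
    have : x = 1 := Subtype.ext (by rw [hx, map_one]; rfl)
    rw [this, one_smul, map_one, Equiv.Perm.one_apply]
  | mul u v hu hv hu' hv' =>
    intro x hx y
    have : x = ⟨homOf a t u, homOf_win a t hu⟩ * ⟨homOf a t v, homOf_win a t hv⟩ :=
      Subtype.ext (by rw [hx, map_mul]; rfl)
    rw [this, mul_smul, map_mul, Equiv.Perm.mul_apply, hv' ⟨_, homOf_win a t hv⟩ rfl,
      hu' ⟨_, homOf_win a t hu⟩ rfl]
  | inv u hu hu' =>
    intro x hx y
    have h1 : x⁻¹ = ⟨homOf a t u, homOf_win a t hu⟩ :=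
      Subtype.ext (by rw [Subgroup.coe_inv, hx, map_inv, inv_inv])
    have h2 := hu' ⟨_, homOf_win a t hu⟩ rfl (x • y)
    rw [← h1, inv_smul_smul] at h2
    rw [map_inv, Equiv.Perm.inv_eq_iff_eq]
    exact h2.symm

theorem exists_tau0 {G : Type*} [Group G] (a t : G) (n : ℕ) (hn : 0 < n) [Finite (win a t n)] :
    ∃ τ₀ : win a t n ≃ win a t n, ∀ c c' : win a t n, (c : G) ∈ win a t (n - 1) →
      (c' : G) = t * c * t⁻¹ → ∀ h, τ₀ (c * h) = c' * τ₀ h := by
  let f : (win a t (n - 1)).subgroupOf (win a t n) →* win a t n :=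
    { toFun := fun c => ⟨t * ((c : win a t n) : G) * t⁻¹,
        conj_pred_mem_win a t hn (Subgroup.mem_subgroupOf.1 c.2)⟩
      map_one' := by
        apply Subtype.ext
        simp
      map_mul' := by
        intro c c'
        apply Subtype.ext
        simp [mul_assoc] }
  have hf : Function.Injective f := by
    intro c c' h
    have h1 : t * ((c : win a t n) : G) * t⁻¹ = t * ((c' : win a t n) : G) * t⁻¹ :=
      congrArg Subtype.val h
    have h2 := mul_left_cancel (mul_right_cancel h1)
    exact Subtype.ext (Subtype.ext h2)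
  obtain ⟨τ, hτ⟩ := exists_intertwiner _ f.range (MonoidHom.ofInjective hf)
  refine ⟨τ, fun c c' hc hc' h => ?_⟩
  have h1 := hτ ⟨c, Subgroup.mem_subgroupOf.2 hc⟩ h
  rw [h1]
  congr 1
  apply Subtype.ext
  rw [hc']
  rfl

section free
variable {G : Type*} [Group G] (a t : G) (n : ℕ) (hn : 0 < n) [Finite (win a t n)]

noncomputable def tau0 : win a t n ≃ win a t n := (exists_tau0 a t n hn).choose

/-- the `a`-permutation of the free system `ZMod n × A(n)` -/
def frAl : Equiv.Perm (ZMod n × win a t n) :=
  Equiv.prodCongr (Equiv.refl _) (Equiv.mulLeft ⟨a, a_mem_win a t hn⟩)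

/-- the `t`-permutation of the free system `ZMod n × A(n)` -/
noncomputable def frTa : Equiv.Perm (ZMod n × win a t n) :=
  Equiv.prodCongr (Equiv.addRight 1) (tau0 a t n hn)

theorem frAct {w : F2} (hw : w ∈ win fa ft n) (p : ZMod n × win a t n) :
    homOf (frAl a t n hn) (frTa a t n hn) w p = (p.1, ⟨homOf a t w, homOf_win a t hw⟩ * p.2) := by
  letI inst : MulAction (win a t n) (ZMod n × win a t n) :=
    { smul := fun x p => (p.1, x * p.2)
      one_smul := fun p => by
        show (p.1, 1 * p.2) = p
        rw [one_mul]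
      mul_smul := fun x y p => by
        show (p.1, x * y * p.2) = (p.1, x * (y * p.2))
        rw [mul_assoc] }
  exact act_of_smul a t n (frAl a t n hn) (frTa a t n hn)
    (by
      intro x hx y
      have h1 : x = ⟨a, a_mem_win a t hn⟩ := Subtype.ext hx
      rw [h1]
      rfl)
    (by
      intro c c' hc hc' y
      show (y.1 + 1, tau0 a t n hn (c * y.2)) = (y.1 + 1, c' * tau0 a t n hn y.2)
      have h1 : tau0 a t n hn (c * y.2) = c' * tau0 a t n hn y.2 :=
        (exists_tau0 a t n hn).choose_spec c c' hc hc' y.2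
      rw [h1])
    w hw ⟨homOf a t w, homOf_win a t hw⟩ rfl p

/-- words of the window fixing a point of the free system are trivial in `G` -/
theorem frAct_fix {w : F2} (hw : w ∈ win fa ft n) (p : ZMod n × win a t n)
    (h : homOf (frAl a t n hn) (frTa a t n hn) w p = p) : homOf a t w = 1 := by
  rw [frAct a t n hn hw p] at h
  have h1 := congrArg Prod.snd h
  have h2 : (⟨homOf a t w, homOf_win a t hw⟩ : win a t n) = 1 := by
    simpa using h1
  exact congrArg Subtype.val h2

theorem frAct_one {w : F2} (hw : w ∈ win fa ft n) (h : homOf a t w = 1) :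
    homOf (frAl a t n hn) (frTa a t n hn) w = 1 := by
  refine Equiv.ext fun p => ?_
  have h2 : (⟨homOf a t w, homOf_win a t hw⟩ : win a t n) = 1 := Subtype.ext h
  rw [frAct a t n hn hw p, h2, one_mul]
  rfl

end free

end Pool.Agent.H45.Ent
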