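/-
Integer weights on types.  MP_f39e07_an, owner helper45.

PROOF.  Apply `exists_nat_solution` (Rational.lean) to `π` from `exists_balanced`, with the index
set `I = Pat × ZMod n`, the equations `π (p', l) - π (p, l) = 0` for `ShiftRel h p p'`, `h ∈ A(n)`
and the balance equations (indexed by `l` and by the restriction of `q` to the finite set
`{u ∈ W_n | u t⁻¹ ∈ W_n}`), the functional `L (p,l) = log (blk p)` if `l = -1` and `0` otherwise.
-/
import Pool.Agent.H45.Ent.Empirical
import Pool.Agent.H45.Ent.Rational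

set_option autoImplicit false

namespace Pool.Agent.H45.Ent

section Aux

open scoped Classical

private lemma finsum_subtype {R P : Type*} [AddCommMonoid R] [Fintype P] (s : P → Prop)
    (f : P → R) : ∑ᶠ p : {p : P // s p}, f p.1 = ∑ p, if s p then f p else 0 := by
  rw [finsum_eq_sum_of_fintype, ← Finset.sum_filter]
  exact (Finset.sum_subtype (Finset.univ.filter s) (by simp) f).symm

/-- lower trace, finite index -/
private def tr0 (T : Tower) (F : Sys) (n : ℕ) (r p : Pat T F n) : Prop :=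
  ∀ u : T.W n, (u : T.G) * T.t⁻¹ ∈ T.W n → p u = r u

/-- upper trace, finite index -/
private def tr1 (T : Tower) (F : Sys) (n : ℕ) (r p : Pat T F n) : Prop :=
  ∀ u w : T.W n, (w : T.G) = u * T.t⁻¹ → p w = r u

/-- the coefficients of the linear system -/
private noncomputable def cf (T : Tower) (F : Sys) (n : ℕ) :
    (Pat T F n × Pat T F n × ZMod n) ⊕ (Pat T F n × ZMod n) → Pat T F n × ZMod n → ℤ
  | Sum.inl (p, p', l), z =>
      if (∃ h ∈ T.A n, ShiftRel h p p') then
        (if z = (p', l) then 1 else 0) - (if z = (p, l) then 1 else 0) else 0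
  | Sum.inr (r, l), z =>
      (if tr0 T F n r z.1 ∧ z.2 = l then 1 else 0) -
        (if tr1 T F n r z.1 ∧ z.2 = l + 1 then 1 else 0)

private lemma sum_cf_inl {R : Type*} [CommRing R] (T : Tower) (F : Sys) (n : ℕ)
    [Fintype (Pat T F n)] [Fintype (ZMod n)] (f : Pat T F n × ZMod n → R)
    (p p' : Pat T F n) (l : ZMod n) (h : ∃ h ∈ T.A n, ShiftRel h p p') :
    ∑ z, ((cf T F n (Sum.inl (p, p', l)) z : ℤ) : R) * f z = f (p', l) - f (p, l) := by
  simp only [cf, if_pos h]
  push_cast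
  simp only [sub_mul, ite_mul, one_mul, zero_mul, Finset.sum_sub_distrib]
  simp

private lemma sum_cf_inl' {R : Type*} [CommRing R] (T : Tower) (F : Sys) (n : ℕ)
    [Fintype (Pat T F n)] [Fintype (ZMod n)] (f : Pat T F n × ZMod n → R)
    (p p' : Pat T F n) (l : ZMod n) (h : ¬ ∃ h ∈ T.A n, ShiftRel h p p') :
    ∑ z, ((cf T F n (Sum.inl (p, p', l)) z : ℤ) : R) * f z = 0 := by
  simp only [cf, if_neg h]
  simp

private lemma sum_cf_inr {R : Type*} [CommRing R] (T : Tower) (F : Sys) (n : ℕ)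
    [Fintype (Pat T F n)] [Fintype (ZMod n)] (f : Pat T F n × ZMod n → R)
    (r : Pat T F n) (l : ZMod n) :
    ∑ z, ((cf T F n (Sum.inr (r, l)) z : ℤ) : R) * f z =
      (∑ p, if tr0 T F n r p then f (p, l) else 0) -
        ∑ p, if tr1 T F n r p then f (p, l + 1) else 0 := by
  simp only [cf]
  push_cast
  simp only [sub_mul, ite_mul, one_mul, zero_mul, Finset.sum_sub_distrib]
  congr 1
  · rw [Fintype.sum_prod_type]
    refine Finset.sum_congr rfl fun p _ => ?_
    by_cases hp : tr0 T F n r p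
    · simp [hp]
    · simp [hp]
  · rw [Fintype.sum_prod_type]
    refine Finset.sum_congr rfl fun p _ => ?_
    by_cases hp : tr1 T F n r p
    · simp [hp]
    · simp [hp]

private lemma bal_iff {R : Type*} [AddCommMonoid R] (T : Tower) (F : Sys) (n : ℕ)
    [Fintype (Pat T F n)] (f : Pat T F n × ZMod n → R) (q : T.G → Fin F.k) (l : ZMod n) :
    (∑ᶠ p : {p : Pat T F n // Tr0 q p}, f (p.1, l) =
      ∑ᶠ p : {p : Pat T F n // Tr1 q p}, f (p.1, l + 1)) ↔
    ((∑ p, if tr0 T F n (fun u => q u) p then f (p, l) else 0) =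
        ∑ p, if tr1 T F n (fun u => q u) p then f (p, l + 1) else 0) := by
  rw [finsum_subtype (fun p : Pat T F n => Tr0 q p) (fun p => f (p, l)),
    finsum_subtype (fun p : Pat T F n => Tr1 q p) (fun p => f (p, l + 1))]
  rfl

end Aux

theorem exists_int_types (T : Tower) (F : Sys) (hne : (F.shift T.a T.t).Nonempty) {n : ℕ}
    (hn : 0 < n) {ε : ℝ} (hε : 0 < ε) :
    ∃ q : Pat T F n × ZMod n → ℕ, 0 < ∑ᶠ z, q z ∧ IsBal T F n q ∧
      ((Nat.card (T.A n) : ℝ) * (T.ent F - 2 * Real.log F.k / n) - ε) * ((∑ᶠ z, q z : ℕ) : ℝ) ≤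
        ∑ᶠ p : Pat T F n, (q (p, -1) : ℝ) * Real.log (blk p) := by
  classical
  have : NeZero n := ⟨hn.ne'⟩
  have : Fintype (Pat T F n) := Fintype.ofFinite _
  obtain ⟨π, hπ0, hπ1, hbal, hval⟩ := exists_balanced T F hne hn
  obtain ⟨x0, -⟩ := hne
  rw [finsum_eq_sum_of_fintype] at hπ1
  let L : Pat T F n × ZMod n → ℝ := fun z => if z.2 = -1 then Real.log (blk z.1) else 0
  have hL : ∀ f : Pat T F n × ZMod n → ℝ,
      ∑ z, L z * f z = ∑ᶠ p : Pat T F n, f (p, -1) * Real.log (blk p) := by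
    intro f
    rw [finsum_eq_sum_of_fintype, Fintype.sum_prod_type]
    refine Finset.sum_congr rfl fun p _ => ?_
    simp only [L, ite_mul, zero_mul]
    rw [Finset.sum_ite_eq' Finset.univ (-1 : ZMod n)]
    simp [mul_comm]
  have heq : ∀ e, ∑ z, ((cf T F n e z : ℤ) : ℝ) * π z = 0 := by
    rintro (⟨p, p', l⟩ | ⟨r, l⟩)
    · by_cases h : ∃ h ∈ T.A n, ShiftRel h p p'
      · rw [sum_cf_inl T F n π p p' l h]
        obtain ⟨h, hh, hs⟩ := h
        rw [hbal.inv h hh p p' hs l, sub_self]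
      · exact sum_cf_inl' T F n π p p' l h
    · rw [sum_cf_inr, sub_eq_zero]
      have h1 := hbal.bal (fun g => if h : g ∈ T.W n then r ⟨g, h⟩ else x0 g) l
      rw [bal_iff] at h1
      have h2 : (fun u : T.W n => (fun g => if h : g ∈ T.W n then r ⟨g, h⟩ else x0 g) (u : T.G)) =
          r := by
        funext u
        simp
      rw [h2] at h1
      exact h1
  obtain ⟨q, hq0, hqs, hqe, hqv⟩ := exists_nat_solution (cf T F n) π hπ0 hπ1 heq L ε hε
  refine ⟨q, ?_, ⟨?_, ?_, ?_⟩, ?_⟩
  · rw [finsum_eq_sum_of_fintype]; exact hq0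
  · intro p l hp
    refine hbal.supp p l fun h => hp (hqs _ h)
  · intro h hh p p' hs l
    have := hqe (Sum.inl (p, p', l))
    have h3 := sum_cf_inl (R := ℤ) T F n (fun z => (q z : ℤ)) p p' l ⟨h, hh, hs⟩
    simp only [Int.cast_id] at h3
    rw [h3] at this
    have h2 := sub_eq_zero.1 this
    exact_mod_cast h2
  · intro r l
    rw [bal_iff]
    have := hqe (Sum.inr (fun u => r u, l))
    have h3 := sum_cf_inr (R := ℤ) T F n (fun z => (q z : ℤ)) (fun u => r u) l
    simp only [Int.cast_id] at h3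
    rw [h3] at this
    have h2 := sub_eq_zero.1 this
    have h4 : ((∑ p, if tr0 T F n (fun u => r u) p then q (p, l) else 0 : ℕ) : ℤ) =
        ((∑ p, if tr1 T F n (fun u => r u) p then q (p, l + 1) else 0 : ℕ) : ℤ) := by
      push_cast
      exact h2
    exact_mod_cast h4
  · rw [finsum_eq_sum_of_fintype]
    rw [hL, hL (fun z => (q z : ℝ))] at hqv
    push_cast
    refine le_trans ?_ hqv
    refine mul_le_mul_of_nonneg_right ?_ (Finset.sum_nonneg fun z _ => Nat.cast_nonneg _)
    linarith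

end Pool.Agent.H45.Ent
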