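/-
The pinned labelings of a typed system: admissibility and lower bound of their number.
MP_f39e07_an, owner helper45.

PROOF.  `c y = P y 1`.
* `c` is admissible: `c (α y) = P (a • y) 1 = P y a` (`P_smul`, `hα`), and `P y ∈ PatLoc`;
  `n ≥ 2`: `P (τ y) t⁻¹ = P y 1` (`P_τ` with `u = 1`, `w = t⁻¹ ∈ W_n`), and `P (τ y) ∈ PatLoc` gives
  `Rt (P (τ y) t⁻¹) (P (τ y) 1)`.  (For `n = 1` there are no `t`-edges inside `W_1`, so the
  statement needs `2 ≤ n`.)
* Every `y' ∈ Y` is `τ^{-j} y` with `ph y = -1`, `j = jx y' < n`, `y = base y'`, and `y = δ • rep`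
  for the representative `rep` of its orbit.  Given for every orbit a pattern `b` in the set
  counted by `blk (P rep)`, define `x y' = b (t^{-j} δ)`.  This is pinned and `b ↦ x` is injective.
-/
import Pool.Agent.H45.Ent.TypDefs

set_option autoImplicit false

namespace Pool.Agent.H45.Ent

/-- right multiplication by an element of the window group on the block -/
def rs {T : Tower} {n : ℕ} (h : T.A n) (w : T.W n) : T.W n :=
  ⟨w * h, (T.mul_win_mem_Pi h.2).2 w.2⟩

@[simp] theorem rs_coe {T : Tower} {n : ℕ} (h : T.A n) (w : T.W n) :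
    (rs h w : T.G) = w * h := rfl

theorem rs_rs {T : Tower} {n : ℕ} (h h' : T.A n) (w : T.W n) :
    rs h (rs h' w) = rs (h' * h) w := by
  apply Subtype.ext
  simp [mul_assoc]

theorem rs_one {T : Tower} {n : ℕ} (w : T.W n) : rs (1 : T.A n) w = w := by
  apply Subtype.ext
  simp

theorem lv_rs {T : Tower} {n : ℕ} (h : T.A n) (w : T.W n) : T.lv (rs h w : T.G) = T.lv w := by
  rw [rs_coe, T.lv_mul, T.lv_win h.2, add_zero]

theorem ShiftRel.eq_rs {T : Tower} {F : Sys} {n : ℕ} {h : T.A n} {p p' : Pat T F n}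
    (hp : ShiftRel (h : T.G) p p') (w : T.W n) : p' w = p (rs h w) :=
  hp w (rs h w) rfl

theorem PatLoc.rs {T : Tower} {F : Sys} {n : ℕ} (h : T.A n) {p : Pat T F n}
    (hp : p ∈ PatLoc T F n) : (fun w => p (rs h w)) ∈ PatLoc T F n := by
  intro w w'
  refine ⟨fun hw => ?_, fun hw => ?_⟩
  · exact (hp (Ent.rs h w) (Ent.rs h w')).1 (by simp [hw, mul_assoc])
  · exact (hp (Ent.rs h w) (Ent.rs h w')).2 (by simp [hw, mul_assoc])

/-- the set counted by `blk` -/
def blkSet {T : Tower} {F : Sys} {n : ℕ} (p : Pat T F n) : Set (Pat T F n) :=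
  {y : Pat T F n | y ∈ PatLoc T F n ∧
    ∀ w : T.W n, (T.lv w = 0 ∨ T.lv w = 1 - (n : ℤ)) → y w = p w}

theorem blk_eq_ncard {T : Tower} {F : Sys} {n : ℕ} (p : Pat T F n) :
    blk p = (blkSet p).ncard := rfl

theorem blk_shift_le {T : Tower} {F : Sys} {n : ℕ} (h : T.A n) {p p' : Pat T F n}
    (hp : ∀ w, p' w = p (rs h w)) : blk p ≤ blk p' := by
  rw [blk_eq_ncard, blk_eq_ncard]
  refine Set.ncard_le_ncard_of_injOn (fun y w => y (rs h w)) ?_ ?_ (Set.toFinite _)
  · rintro y ⟨hy, hy'⟩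
    refine ⟨PatLoc.rs h hy, ?_⟩
    intro w hw
    rw [hp w]
    apply hy'
    rw [lv_rs]
    exact hw
  · intro y _ y' _ hyy
    funext w
    have := congrFun hyy (rs h⁻¹ w)
    simpa only [rs_rs, inv_mul_cancel, rs_one] using this

theorem blk_shift {T : Tower} {F : Sys} {n : ℕ} (h : T.A n) {p p' : Pat T F n}
    (hp : ∀ w, p' w = p (rs h w)) : blk p' = blk p := by
  apply le_antisymm
  · refine blk_shift_le h⁻¹ ?_
    intro w
    rw [hp, rs_rs, inv_mul_cancel, rs_one]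
  · exact blk_shift_le h hp

namespace TypSys

variable {T : Tower} {F : Sys} {n : ℕ} (S : TypSys T F n)

/-- the labeling `c y = P y 1` -/
def lab (hn : 0 < n) : S.Y → Fin F.k := fun y => S.P y ⟨1, T.one_mem_Pi hn⟩

theorem P_smul' (h : T.A n) (y : S.Y) (w : T.W n) : S.P (h • y) w = S.P y (rs h w) :=
  (S.P_smul h y).eq_rs w

theorem lab_adm (hn : 2 ≤ n) (y : S.Y) :
    F.Ra (S.lab (by omega) y) (S.lab (by omega) (S.α y)) ∧
      F.Rt (S.lab (by omega) y) (S.lab (by omega) (S.τ y)) := by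
  have hn0 : 0 < n := by omega
  constructor
  · rw [S.hα ⟨T.a, a_mem_win _ _ hn0⟩ rfl y]
    unfold lab
    rw [P_smul']
    refine (S.P_loc y _ _).1 ?_
    simp
  · have hw : (T.t⁻¹ : T.G) ∈ T.W n := ⟨1, by omega, by simp [Subgroup.one_mem]⟩
    have h1 : S.P (S.τ y) ⟨T.t⁻¹, hw⟩ = S.P y ⟨1, T.one_mem_Pi hn0⟩ :=
      S.P_τ y ⟨1, T.one_mem_Pi hn0⟩ ⟨T.t⁻¹, hw⟩ (by simp)
    unfold lab
    rw [← h1]
    refine (S.P_loc (S.τ y) _ _).2 ?_
    simp

/-- the number of steps to the phase `-1` -/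
def jx (y : S.Y) : ℕ := (-1 - S.ph y).val

theorem jx_lt (hn : 0 < n) (y : S.Y) : S.jx y < n := by
  haveI : NeZero n := ⟨hn.ne'⟩
  exact ZMod.val_lt _

theorem ph_pow (j : ℕ) (y : S.Y) : S.ph ((S.τ ^ j) y) = S.ph y + j := by
  induction j with
  | zero => simp
  | succ j ih =>
    rw [pow_succ', Equiv.Perm.mul_apply, S.ph_τ, ih]
    push_cast
    ring

/-- the point of phase `-1` above `y` -/
def base (y : S.Y) : S.Y := (S.τ ^ S.jx y) y

theorem ph_base (hn : 0 < n) (y : S.Y) : S.ph (S.base y) = -1 := by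
  haveI : NeZero n := ⟨hn.ne'⟩
  unfold base jx
  rw [ph_pow, ZMod.natCast_val, ZMod.cast_id]
  ring

theorem ph_α (hn : 0 < n) (y : S.Y) : S.ph (S.α y) = S.ph y := by
  rw [S.hα ⟨T.a, a_mem_win _ _ hn⟩ rfl y, S.ph_smul]

theorem jx_α (hn : 0 < n) (y : S.Y) : S.jx (S.α y) = S.jx y := by
  unfold jx
  rw [S.ph_α hn]

theorem pow_α {j : ℕ} (hj : j < n) (y : S.Y) :
    (S.τ ^ j) (S.α y) = (⟨aj T.a T.t j, aj_mem_win _ _ hj⟩ : T.A n) • (S.τ ^ j) y := by
  induction j with
  | zero =>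
    simp only [pow_zero, Equiv.Perm.one_apply]
    exact S.hα _ (by simp) y
  | succ j ih =>
    rw [pow_succ', Equiv.Perm.mul_apply, Equiv.Perm.mul_apply, ih (by omega)]
    refine S.hτ _ _ ?_ ?_ _
    · exact aj_mem_win _ _ (by omega)
    · show aj T.a T.t (j + 1) = T.t * aj T.a T.t j * T.t⁻¹
      simp [aj, pow_succ', mul_assoc]

theorem base_α (hn : 0 < n) (y : S.Y) :
    S.base (S.α y) = (⟨aj T.a T.t (S.jx y), aj_mem_win _ _ (S.jx_lt hn y)⟩ : T.A n) • S.base y := by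
  unfold base
  rw [S.jx_α hn, S.pow_α (S.jx_lt hn y)]

theorem jx_τ (hn : 0 < n) (y : S.Y) (h : S.ph y ≠ -1) : S.jx y = S.jx (S.τ y) + 1 := by
  haveI : NeZero n := ⟨hn.ne'⟩
  unfold jx
  rw [S.ph_τ]
  have h1 : (-1 - S.ph y : ZMod n) ≠ 0 := by
    intro h0
    apply h
    rw [sub_eq_zero] at h0
    exact h0.symm
  have h2 : (-1 - (S.ph y + 1) : ZMod n) = (-1 - S.ph y) - 1 := by ring
  rw [h2]
  have h3 : 0 < (-1 - S.ph y : ZMod n).val := Nat.pos_of_ne_zero (by
    rw [Ne, ZMod.val_eq_zero]; exact h1)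
  have h4 : (-1 - S.ph y - 1 : ZMod n) = (((-1 - S.ph y : ZMod n).val - 1 : ℕ) : ZMod n) := by
    rw [Nat.cast_sub h3, ZMod.natCast_val, ZMod.cast_id]
    simp
  rw [h4, ZMod.val_natCast, Nat.mod_eq_of_lt]
  · omega
  · have := ZMod.val_lt (-1 - S.ph y : ZMod n)
    omega

theorem base_τ (hn : 0 < n) (y : S.Y) (h : S.ph y ≠ -1) : S.base (S.τ y) = S.base y := by
  unfold base
  rw [S.jx_τ hn y h, pow_succ, Equiv.Perm.mul_apply]

/-- `t^{-j} h` as an element of the block -/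
def tw {j : ℕ} (hj : j < n) (h : T.A n) : T.W n :=
  ⟨(T.t ^ j)⁻¹ * h, T.mem_Pi_iff_exists.2 ⟨j, hj, h, h.2, rfl⟩⟩

@[simp] theorem tw_coe {j : ℕ} (hj : j < n) (h : T.A n) :
    ((tw hj h : T.W n) : T.G) = (T.t ^ j)⁻¹ * h := rfl

theorem P_pow {j : ℕ} (hj : j < n) (y : S.Y) :
    S.P ((S.τ ^ j) y) (tw hj 1) = S.P y ⟨1, T.one_mem_Pi (by omega)⟩ := by
  induction j with
  | zero =>
    simp only [pow_zero, Equiv.Perm.one_apply]
    congr 1
    apply Subtype.ext
    simp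
  | succ j ih =>
    rw [← ih (by omega), pow_succ', Equiv.Perm.mul_apply]
    refine S.P_τ _ _ _ ?_
    simp [pow_succ']

/-- the labels in terms of the pattern at a translate of the base -/
theorem P_base (hn : 0 < n) (y z : S.Y) (h : T.A n) (hz : h • z = S.base y) :
    S.P z (tw (S.jx_lt hn y) h) = S.lab hn y := by
  unfold lab
  rw [← S.P_pow (S.jx_lt hn y) y]
  have h1 : (S.τ ^ S.jx y) y = h • z := by rw [hz]; rfl
  rw [h1, P_smul']
  congr 1
  apply Subtype.ext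
  simp

/-! ### orbits -/

/-- the representative of the orbit -/
noncomputable def rep (y : S.Y) : S.Y :=
  (Quotient.mk (MulAction.orbitRel (T.A n) S.Y) y).out

theorem exists_dl (y : S.Y) : ∃ h : T.A n, h • S.rep y = y := by
  have h1 : (MulAction.orbitRel (T.A n) S.Y) y (S.rep y) :=
    Quotient.exact (Quotient.out_eq _).symm
  rw [MulAction.orbitRel_apply] at h1
  obtain ⟨g, hg⟩ := h1
  exact ⟨g, hg⟩

/-- the element moving the representative to the point -/
noncomputable def dl (y : S.Y) : T.A n := (S.exists_dl y).choose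

theorem dl_smul (y : S.Y) : S.dl y • S.rep y = y := (S.exists_dl y).choose_spec

theorem smul_inj {h h' : T.A n} {y : S.Y} (e : h • y = h' • y) : h = h' := by
  have h1 : (h'⁻¹ * h) • y = y := by
    rw [mul_smul, e, inv_smul_smul]
  have h2 := S.free _ _ h1
  exact (inv_mul_eq_one.1 h2).symm

theorem rep_smul (h : T.A n) (y : S.Y) : S.rep (h • y) = S.rep y := by
  unfold rep
  congr 1
  apply Quotient.sound
  show (MulAction.orbitRel (T.A n) S.Y) _ _
  rw [MulAction.orbitRel_apply]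
  exact ⟨h, rfl⟩

theorem rep_rep (y : S.Y) : S.rep (S.rep y) = S.rep y := by
  have := S.rep_smul (S.dl y) (S.rep y)
  rw [S.dl_smul] at this
  exact this.symm

theorem ph_rep (y : S.Y) : S.ph (S.rep y) = S.ph y := by
  conv_rhs => rw [← S.dl_smul y, S.ph_smul]

theorem dl_smul_rep (h : T.A n) (y : S.Y) (hy : S.rep y = y) : S.dl (h • y) = h := by
  apply S.smul_inj (y := y)
  have := S.dl_smul (h • y)
  rw [S.rep_smul, hy] at this
  exact this

theorem dl_smul' (h : T.A n) (y : S.Y) : S.dl (h • y) = h * S.dl y := by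
  apply S.smul_inj (y := S.rep y)
  rw [mul_smul, S.dl_smul]
  have := S.dl_smul (h • y)
  rw [S.rep_smul] at this
  exact this

/-- the representatives of phase `-1` -/
def Orb : Type := {z : S.Y // S.rep z = z ∧ S.ph z = -1}

instance : Finite S.Orb := by unfold Orb; infer_instance

/-- the orbit of the base -/
noncomputable def ob (hn : 0 < n) (y : S.Y) : S.Orb :=
  ⟨S.rep (S.base y), S.rep_rep _, by rw [S.ph_rep, S.ph_base hn]⟩

/-- the labeling defined by a choice of block patterns -/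
noncomputable def glueLab (hn : 0 < n) (b : ∀ z : S.Orb, blkSet (S.P z.1)) : S.Y → Fin F.k :=
  fun y => (b (S.ob hn y)).1 (tw (S.jx_lt hn y) (S.dl (S.base y)))

theorem jx_eq_zero (hn : 0 < n) {y : S.Y} (h : S.ph y = -1) : S.jx y = 0 := by
  haveI : NeZero n := ⟨hn.ne'⟩
  unfold jx
  rw [h]
  simp

theorem jx_of_ph_zero (hn : 0 < n) {y : S.Y} (h : S.ph y = 0) : S.jx y = n - 1 := by
  unfold jx
  rw [h, sub_zero]
  obtain ⟨m, rfl⟩ : ∃ m, n = m + 1 := ⟨n - 1, by omega⟩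
  rw [ZMod.val_neg_one]
  rfl

theorem lv_tw {j : ℕ} (hj : j < n) (h : T.A n) : T.lv (tw hj h : T.W n) = -(j : ℤ) := by
  rw [tw_coe, T.lv_mul, T.lv_inv, T.lv_pow, T.lv_t, T.lv_win h.2]
  ring

theorem glueLab_pin (hn : 0 < n) (b : ∀ z : S.Orb, blkSet (S.P z.1)) (y : S.Y)
    (h : S.ph y = 0 ∨ S.ph y = -1) : S.glueLab hn b y = S.lab hn y := by
  unfold glueLab
  rw [(b (S.ob hn y)).2.2 _ ?_]
  · exact S.P_base hn y (S.rep (S.base y)) (S.dl (S.base y)) (S.dl_smul _)
  · rw [lv_tw]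
    rcases h with h | h
    · right
      rw [S.jx_of_ph_zero hn h]
      omega
    · left
      rw [S.jx_eq_zero hn h]
      simp

theorem ob_eq (hn : 0 < n) {y y' : S.Y} (h : S.rep (S.base y) = S.rep (S.base y')) :
    S.ob hn y = S.ob hn y' := Subtype.ext h

theorem glueLab_mem (hn : 2 ≤ n) (b : ∀ z : S.Orb, blkSet (S.P z.1)) :
    S.glueLab (by omega) b ∈ S.pinned (S.lab (by omega)) := by
  have hn0 : 0 < n := by omega
  refine ⟨fun y => ⟨?_, ?_⟩, fun y hy => S.glueLab_pin hn0 b y hy⟩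
  · unfold glueLab
    have h1 : S.ob hn0 (S.α y) = S.ob hn0 y := by
      apply S.ob_eq
      rw [S.base_α hn0, S.rep_smul]
    rw [h1]
    refine ((b (S.ob hn0 y)).2.1 _ _).1 ?_
    rw [tw_coe, tw_coe, S.base_α hn0, S.dl_smul', S.jx_α hn0]
    simp [aj, mul_assoc]
  · by_cases hy : S.ph y = -1
    · rw [S.glueLab_pin hn0 b y (Or.inr hy), S.glueLab_pin hn0 b (S.τ y) (Or.inl (by
        rw [S.ph_τ, hy]; ring))]
      exact (S.lab_adm hn y).2
    · unfold glueLab
      have h1 : S.ob hn0 (S.τ y) = S.ob hn0 y := by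
        apply S.ob_eq
        rw [S.base_τ hn0 y hy]
      rw [h1]
      refine ((b (S.ob hn0 y)).2.1 _ _).2 ?_
      rw [tw_coe, tw_coe, S.base_τ hn0 y hy, S.jx_τ hn0 y hy]
      simp [pow_succ, mul_assoc]

theorem glueLab_inj (hn : 0 < n) : Function.Injective (S.glueLab hn) := by
  haveI : NeZero n := ⟨hn.ne'⟩
  intro b b' hb
  funext z
  apply Subtype.ext
  funext w
  obtain ⟨j, hj, h, hh, hw⟩ := T.mem_Pi_iff_exists.1 w.2
  have h0 := congrFun hb ((S.τ ^ j).symm ((⟨h, hh⟩ : T.A n) • z.1))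
  set y := (S.τ ^ j).symm ((⟨h, hh⟩ : T.A n) • z.1) with hy
  have hτy : (S.τ ^ j) y = (⟨h, hh⟩ : T.A n) • z.1 := by rw [hy]; simp
  have hph : S.ph y = -1 - j := by
    have := S.ph_pow j y
    rw [hτy, S.ph_smul, z.2.2] at this
    rw [this]; ring
  have hjx : S.jx y = j := by
    unfold jx
    rw [hph]
    have : (-1 - (-1 - (j : ZMod n)) : ZMod n) = (j : ZMod n) := by ring
    rw [this, ZMod.val_natCast, Nat.mod_eq_of_lt hj]
  have hbase : S.base y = (⟨h, hh⟩ : T.A n) • z.1 := by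
    unfold base
    rw [hjx, hτy]
  have hob : S.ob hn y = z := by
    apply Subtype.ext
    show S.rep (S.base y) = z.1
    rw [hbase, S.rep_smul, z.2.1]
  have hdl : S.dl (S.base y) = ⟨h, hh⟩ := by
    rw [hbase, S.dl_smul_rep _ _ z.2.1]
  have hwe : w = tw (S.jx_lt hn y) (S.dl (S.base y)) := by
    apply Subtype.ext
    rw [tw_coe, hdl, hjx, hw]
  unfold glueLab at h0
  rw [hob, ← hwe] at h0
  exact h0

theorem prod_blk_le [Fintype S.Orb] (hn : 2 ≤ n) :
    ∏ z : S.Orb, blk (S.P z.1) ≤ (S.pinned (S.lab (by omega))).ncard := by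
  have h1 : ∏ z : S.Orb, blk (S.P z.1) = Nat.card (∀ z : S.Orb, blkSet (S.P z.1)) := by
    rw [Nat.card_pi]
    refine Finset.prod_congr rfl fun z _ => ?_
    rw [Nat.card_coe_set_eq, blk_eq_ncard]
  rw [h1, ← Nat.card_coe_set_eq]
  haveI : Finite (S.pinned (S.lab (by omega))) := Set.toFinite _
  refine Nat.card_le_card_of_injective
    (fun b => (⟨S.glueLab (by omega) b, S.glueLab_mem hn b⟩ :
      (S.pinned (S.lab (by omega))))) ?_
  intro b b' h
  exact S.glueLab_inj (by omega) (congrArg Subtype.val h)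

theorem blk_pos (y : S.Y) : 0 < blk (S.P y) := by
  rw [blk_eq_ncard, Set.ncard_pos (Set.toFinite _)]
  exact ⟨S.P y, S.P_loc y, fun _ _ => rfl⟩

/-- points of phase `-1` = representatives times the window group -/
noncomputable def orbEquiv : {y : S.Y // S.ph y = -1} ≃ S.Orb × T.A n where
  toFun y := (⟨S.rep y.1, S.rep_rep _, by rw [S.ph_rep]; exact y.2⟩, S.dl y.1)
  invFun p := ⟨p.2 • p.1.1, by rw [S.ph_smul]; exact p.1.2.2⟩
  left_inv y := Subtype.ext (S.dl_smul y.1)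
  right_inv := by
    rintro ⟨⟨z, hz, hz'⟩, h⟩
    refine Prod.ext (Subtype.ext ?_) ?_
    · show S.rep (h • z) = z
      rw [S.rep_smul, hz]
    · show S.dl (h • z) = h
      rw [S.dl_smul_rep _ _ hz]

theorem log_pinned_ge (hn : 2 ≤ n) :
    ∑ᶠ y : {y : S.Y // S.ph y = -1}, Real.log (blk (S.P y)) ≤
      (Nat.card (T.A n) : ℝ) * Real.log ((S.pinned (S.lab (by omega))).ncard) := by
  classical
  haveI := Fintype.ofFinite S.Orb
  haveI := Fintype.ofFinite (T.A n)
  haveI : Fintype {y : S.Y // S.ph y = -1} := Fintype.ofFinite _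
  have h1 : ∑ᶠ y : {y : S.Y // S.ph y = -1}, Real.log (blk (S.P y)) =
      (Nat.card (T.A n) : ℝ) * ∑ z : S.Orb, Real.log (blk (S.P z.1)) := by
    rw [finsum_eq_sum_of_fintype, ← Equiv.sum_comp S.orbEquiv.symm, Fintype.sum_prod_type,
      Finset.mul_sum]
    refine Finset.sum_congr rfl fun z _ => ?_
    have h2 : ∀ h : T.A n, Real.log (blk (S.P (S.orbEquiv.symm (z, h)).1)) =
        Real.log (blk (S.P z.1)) := by
      intro h
      have h3 : (S.orbEquiv.symm (z, h)).1 = h • z.1 := rfl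
      rw [h3, blk_shift h (S.P_smul' h z.1)]
    rw [Finset.sum_congr rfl (fun h _ => h2 h), Finset.sum_const, nsmul_eq_mul,
      Finset.card_univ, Nat.card_eq_fintype_card]
  rw [h1]
  refine mul_le_mul_of_nonneg_left ?_ (Nat.cast_nonneg _)
  rw [← Real.log_prod (fun z _ => by
    have := S.blk_pos z.1
    positivity)]
  refine Real.log_le_log ?_ ?_
  · refine Finset.prod_pos fun z _ => ?_
    have := S.blk_pos z.1
    exact_mod_cast this
  · have := S.prod_blk_le hn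
    exact_mod_cast this

end TypSys

end Pool.Agent.H45.Ent
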