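/-
Realisation of integer balanced weights by a typed system (matching lemma).
MP_f39e07_an, owner helper45.

PROOF.  `H = T.A n`, `C = T.A (n-1)`.  `Y = {(z, h, i) | z : Pat × ZMod n, h : H, i < q z}`
(a sigma type), `H` acts by left multiplication on `h` (freely).  For `p : Pat` and `h ∈ H` let
`h • p` be the pattern `w ↦ p (w h)` (`ShiftRel h p (h • p)`; this is a left action of `H`).
`P ((p,l), h, i) = h • p`, `ph ((p,l),h,i) = l`.  Fibres:
`#{y | P y = p', ph y = l} = ∑_{h} q (h⁻¹ • p', l) = |H| q (p', l)`.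
`α y = a • y`.  For `τ`: the group `C` acts on `Y` in two ways: `c · y = c • y` and
`c ·' y = (t c t⁻¹) • y` (`t c t⁻¹ ∈ H`).  Let `U = {u ∈ W_n | u t⁻¹ ∈ W_n}`
(it contains `⋃_{j<n-1} t^{-j} A(n-1)` but can be larger), which is right invariant under `C`
(`u c ∈ W_n`, `u c t⁻¹ = u t⁻¹ (t c t⁻¹)`); `Q = (U → Fin k) × ZMod n` with the action
`(c • q) u = q (u c)`.  `f y = (P y restricted to U, ph y + 1)` is equivariant for `·`,
`g y = (u ↦ P y (u t⁻¹), ph y)` is equivariant for `·'`: `P (t c t⁻¹ • y) (u t⁻¹) = P y (u t⁻¹ t c t⁻¹)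
= P y ((u c) t⁻¹)`.  Equal fibre sizes: `|H|` times the two sides of `IsBal.bal`.
`match_free` (Match.lean) gives a bijection `τ` of `Y` with `τ (c • y) = (t c t⁻¹) • τ y` and
`g (τ y) = f y`, i.e. `P (τ y) (u t⁻¹) = P y u` and `ph (τ y) = ph y + 1`.
-/
import Pool.Agent.H45.Ent.TypDefs
import Pool.Agent.H45.Ent.Match

set_option autoImplicit false

namespace Pool.Agent.H45.Ent

section Realise

variable (T : Tower) (F : Sys) {n : ℕ}

/-- the left action of the window group on block patterns -/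
def shp (h : T.A n) (p : Pat T F n) : Pat T F n :=
  fun w => p ⟨(w : T.G) * (h : T.G), (T.mul_win_mem_Pi h.2).2 w.2⟩

variable {T F}

lemma shp_rel (h : T.A n) (p : Pat T F n) : ShiftRel (h : T.G) p (shp T F h p) := by
  intro w w' hw
  unfold shp
  congr 1
  exact Subtype.ext hw.symm

lemma shp_mul (h g : T.A n) (p : Pat T F n) : shp T F (h * g) p = shp T F h (shp T F g p) := by
  funext w
  unfold shp
  congr 1
  apply Subtype.ext
  simp [mul_assoc]

lemma shp_one (p : Pat T F n) : shp T F (1 : T.A n) p = p := by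
  funext w
  unfold shp
  congr 1
  apply Subtype.ext
  simp

/-- the action as a permutation -/
def shpEquiv (h : T.A n) : Pat T F n ≃ Pat T F n where
  toFun := shp T F h
  invFun := shp T F h⁻¹
  left_inv := by
    intro p; rw [← shp_mul]; simp [shp_one]
  right_inv := by
    intro p; rw [← shp_mul]; simp [shp_one]

variable (T F) in
/-- the carrier -/
abbrev RY (q : Pat T F n × ZMod n → ℕ) : Type := Σ z : Pat T F n × ZMod n, (T.A n) × Fin (q z)

instance ryAct (q : Pat T F n × ZMod n → ℕ) : MulAction (T.A n) (RY T F q) where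
  smul h y := ⟨y.1, (h * y.2.1, y.2.2)⟩
  one_smul y := by
    show (⟨y.1, (1 * y.2.1, y.2.2)⟩ : RY T F q) = y
    rw [one_mul]
  mul_smul h g y := by
    show (⟨y.1, (h * g * y.2.1, y.2.2)⟩ : RY T F q) = ⟨y.1, (h * (g * y.2.1), y.2.2)⟩
    rw [mul_assoc]

lemma ry_smul {q : Pat T F n × ZMod n → ℕ} (h : T.A n) (y : RY T F q) :
    h • y = ⟨y.1, (h * y.2.1, y.2.2)⟩ := rfl

/-- the type of a point -/
def RP (q : Pat T F n × ZMod n → ℕ) (y : RY T F q) : Pat T F n := shp T F y.2.1 y.1.1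

lemma RP_smul (q : Pat T F n × ZMod n → ℕ) (h : T.A n) (y : RY T F q) :
    RP q (h • y) = shp T F h (RP q y) := by
  unfold RP
  rw [ry_smul, ← shp_mul]

/-- the fibre count -/
lemma ry_fib (hn : 0 < n) (q : Pat T F n × ZMod n → ℕ)
    (hinv : ∀ h ∈ T.A n, ∀ p p' : Pat T F n, ShiftRel h p p' → ∀ l, q (p', l) = q (p, l))
    (A : Set (Pat T F n)) (l : ZMod n) :
    {y : RY T F q | RP q y ∈ A ∧ y.1.2 = l}.ncard =
      Nat.card (T.A n) * ∑ᶠ p : {p // p ∈ A}, q (p.1, l) := by
  classical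
  haveI : NeZero n := ⟨hn.ne'⟩
  haveI := Fintype.ofFinite (T.A n)
  haveI := Fintype.ofFinite (Pat T F n)
  haveI : Fintype (ZMod n) := inferInstance
  haveI : Fintype {p // p ∈ A} := Fintype.ofFinite _
  rw [finsum_eq_sum_of_fintype, Set.ncard_eq_toFinset_card', Nat.card_eq_fintype_card]
  have h0 : ({y : RY T F q | RP q y ∈ A ∧ y.1.2 = l}.toFinset) =
      Finset.univ.filter (fun y : RY T F q => RP q y ∈ A ∧ y.1.2 = l) := by
    ext y; simp
  rw [h0, Finset.card_filter, Fintype.sum_sigma]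
  have h1 : ∀ z : Pat T F n × ZMod n, ∑ y : (T.A n) × Fin (q z),
      (if RP q ⟨z, y⟩ ∈ A ∧ z.2 = l then 1 else 0) =
      ∑ h : T.A n, if shp T F h z.1 ∈ A ∧ z.2 = l then q z else 0 := by
    intro z
    rw [Fintype.sum_prod_type]
    apply Finset.sum_congr rfl
    intro h _
    show ∑ _i : Fin (q z), (if shp T F h z.1 ∈ A ∧ z.2 = l then 1 else 0) = _
    rw [Finset.sum_const, Finset.card_univ, Fintype.card_fin, smul_eq_mul]
    split_ifs <;> simp
  rw [Finset.sum_congr rfl (fun z _ => h1 z), Finset.sum_comm]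
  have h2 : ∀ h : T.A n, (∑ z : Pat T F n × ZMod n, if shp T F h z.1 ∈ A ∧ z.2 = l then q z else 0)
      = ∑ p : {p // p ∈ A}, q (p.1, l) := by
    intro h
    rw [Fintype.sum_prod_type]
    have h3 : ∀ p : Pat T F n, (∑ m : ZMod n, if shp T F h p ∈ A ∧ m = l then q (p, m) else 0) =
        if shp T F h p ∈ A then q (shp T F h p, l) else 0 := by
      intro p
      rw [Finset.sum_eq_single l]
      · rw [hinv h h.2 p _ (shp_rel h p) l]
        simp
      · intro b _ hb; simp [hb]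
      · intro h'; exact absurd (Finset.mem_univ _) h'
    rw [Finset.sum_congr rfl (fun p _ => h3 p)]
    have h4 := Equiv.sum_comp (shpEquiv h) (fun p : Pat T F n => if p ∈ A then q (p, l) else 0)
    have h5 : ∀ p : Pat T F n, (shpEquiv h) p = shp T F h p := fun _ => rfl
    simp only [h5] at h4
    rw [h4, ← Finset.sum_filter]
    exact Finset.sum_subtype _ (by simp) (fun p => q (p, l))
  rw [Finset.sum_congr rfl (fun h _ => h2 h), Finset.sum_const, Finset.card_univ, smul_eq_mul]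

variable (T) in
/-- conjugation by `t` from `A(n-1)` to `A(n)` -/
def sig (hn : 0 < n) : T.A (n - 1) →* T.A n where
  toFun c := ⟨T.t * c * T.t⁻¹, by
    have := conj1_mem_win T.a T.t c.2
    rwa [Nat.sub_add_cancel hn] at this⟩
  map_one' := by apply Subtype.ext; simp
  map_mul' c d := by apply Subtype.ext; simp

variable (T) in
/-- the overlap `W_n ∩ W_n t` -/
abbrev OV (n : ℕ) : Type := {u : T.G // u ∈ T.W n ∧ u * T.t⁻¹ ∈ T.W n}

lemma ov_mul (hn : 0 < n) (c : T.A (n - 1)) (u : OV T n) :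
    u.1 * (c : T.G) ∈ T.W n ∧ u.1 * (c : T.G) * T.t⁻¹ ∈ T.W n := by
  have hc : (c : T.G) ∈ T.A n := win_mono T.a T.t (Nat.sub_le n 1) c.2
  refine ⟨(T.mul_win_mem_Pi hc).2 u.2.1, ?_⟩
  have h1 : u.1 * (c : T.G) * T.t⁻¹ = u.1 * T.t⁻¹ * (T.t * c * T.t⁻¹) := by group
  rw [h1]
  exact (T.mul_win_mem_Pi (sig T hn c).2).2 u.2.2

/-- the action of `A(n-1)` on traces -/
@[reducible] def ovAct (F : Sys) (hn : 0 < n) :
    MulAction (T.A (n - 1)) ((OV T n → Fin F.k) × ZMod n) where
  smul c q := (fun u => q.1 ⟨u.1 * (c : T.G), ov_mul hn c u⟩, q.2)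
  one_smul q := by
    apply Prod.ext
    · funext u
      show q.1 ⟨u.1 * ((1 : T.A (n - 1)) : T.G), _⟩ = q.1 u
      exact congrArg q.1 (Subtype.ext (by simp))
    · rfl
  mul_smul c d q := by
    apply Prod.ext
    · funext u
      show q.1 ⟨u.1 * ((c * d : T.A (n - 1)) : T.G), _⟩ =
        q.1 ⟨u.1 * (c : T.G) * (d : T.G), _⟩
      exact congrArg q.1 (Subtype.ext (by simp [mul_assoc]))
    · rfl

end Realise

theorem exists_typSys (T : Tower) (F : Sys) {n : ℕ} (hn : 0 < n) (q : Pat T F n × ZMod n → ℕ)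
    (hq : 0 < ∑ᶠ z, q z) (hbal : IsBal T F n q) :
    ∃ S : TypSys T F n, Nat.card S.Y = Nat.card (T.A n) * ∑ᶠ z, q z ∧
      ∀ p l, {y : S.Y | S.P y = p ∧ S.ph y = l}.ncard = Nat.card (T.A n) * q (p, l) := by
  classical
  haveI : NeZero n := ⟨hn.ne'⟩
  haveI := Fintype.ofFinite (T.A n)
  haveI := Fintype.ofFinite (Pat T F n)
  haveI : Fintype (ZMod n) := inferInstance
  -- a point
  obtain ⟨z0, hz0⟩ : ∃ z, q z ≠ 0 := by
    by_contra h
    push Not at h
    rw [finsum_congr h] at hq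
    simp at hq
  have hk : Nonempty (Fin F.k) := ⟨z0.1 ⟨1, T.one_mem_Pi hn⟩⟩
  haveI : Nonempty (RY T F q) := ⟨⟨z0, (1, ⟨0, Nat.pos_of_ne_zero hz0⟩)⟩⟩
  -- the two actions of `C`
  let Y := RY T F q
  let Q := (OV T n → Fin F.k) × ZMod n
  let ι : T.A (n - 1) →* T.A n := Subgroup.inclusion (win_mono T.a T.t (Nat.sub_le n 1))
  let actA : MulAction (T.A (n - 1)) Y := MulAction.compHom Y ι
  let actB : MulAction (T.A (n - 1)) Y := MulAction.compHom Y (sig T hn)
  let actQ : MulAction (T.A (n - 1)) Q := ovAct F hn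
  let f : Y → Q := fun y => (fun u => RP q y ⟨u.1, u.2.1⟩, y.1.2 + 1)
  let g : Y → Q := fun y => (fun u => RP q y ⟨u.1 * T.t⁻¹, u.2.2⟩, y.1.2)
  have hfree : ∀ (h : T.A n) (y : Y), h • y = y → h = 1 := by
    intro h y hy
    rw [ry_smul] at hy
    have h1 : (h * y.2.1, y.2.2) = y.2 := by
      obtain ⟨z, w⟩ := y
      exact eq_of_heq (Sigma.mk.inj hy).2
    have h2 : h * y.2.1 = y.2.1 := congrArg Prod.fst h1
    simpa using h2
  have hfib : ∀ x : Q, {y : Y | f y = x}.ncard = {y : Y | g y = x}.ncard := by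
    rintro ⟨x, l⟩
    let X : T.G → Fin F.k := fun u =>
      if hu : u ∈ T.W n ∧ u * T.t⁻¹ ∈ T.W n then x ⟨u, hu⟩ else hk.some
    have hX : ∀ u : OV T n, X u.1 = x u := by
      intro u
      simp only [X]
      rw [dif_pos u.2]
    have h1 : {y : Y | f y = (x, l)} = {y : Y | RP q y ∈ {p | Tr0 X p} ∧ y.1.2 = l - 1} := by
      ext y
      simp only [Set.mem_setOf_eq]
      constructor
      · intro h
        have ha : (fun u : OV T n => RP q y ⟨u.1, u.2.1⟩) = x := congrArg Prod.fst h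
        have hb : y.1.2 + 1 = l := congrArg Prod.snd h
        refine ⟨fun u hu => ?_, by rw [← hb]; ring⟩
        have := congrFun ha ⟨u.1, u.2, hu⟩
        rw [hX ⟨u.1, u.2, hu⟩]
        exact this
      · rintro ⟨h, hl⟩
        apply Prod.ext
        · funext u
          show RP q y ⟨u.1, u.2.1⟩ = x u
          rw [← hX]
          exact h ⟨u.1, u.2.1⟩ u.2.2
        · show y.1.2 + 1 = l
          rw [hl]; ring
    have h2 : {y : Y | g y = (x, l)} = {y : Y | RP q y ∈ {p | Tr1 X p} ∧ y.1.2 = l} := by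
      ext y
      simp only [Set.mem_setOf_eq]
      constructor
      · intro h
        have ha : (fun u : OV T n => RP q y ⟨u.1 * T.t⁻¹, u.2.2⟩) = x := congrArg Prod.fst h
        have hb : y.1.2 = l := congrArg Prod.snd h
        refine ⟨fun u w hw => ?_, hb⟩
        have hwu : (u : T.G) * T.t⁻¹ ∈ T.W n := hw ▸ w.2
        have := congrFun ha ⟨u.1, u.2, hwu⟩
        rw [hX ⟨u.1, u.2, hwu⟩, ← this]
        congr 1
        exact Subtype.ext hw
      · rintro ⟨h, hl⟩
        apply Prod.ext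
        · funext u
          show RP q y ⟨u.1 * T.t⁻¹, u.2.2⟩ = x u
          rw [← hX]
          exact h ⟨u.1, u.2.1⟩ ⟨u.1 * T.t⁻¹, u.2.2⟩ rfl
        · exact hl
    rw [h1, h2, ry_fib hn q hbal.inv, ry_fib hn q hbal.inv]
    have h3 := hbal.bal X (l - 1)
    rw [sub_add_cancel] at h3
    congr 1
  obtain ⟨e, he1, he2⟩ := @match_free (T.A (n - 1)) Y Y Q _ _ _ actA actB actQ
    (by
      intro c y hy
      have h1 : ι c = 1 := hfree (ι c) y hy
      apply Subtype.ext
      have := congrArg (Subtype.val) h1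
      simpa [ι] using this)
    (by
      intro c y hy
      have h1 : sig T hn c = 1 := hfree (sig T hn c) y hy
      have h2 : T.t * (c : T.G) * T.t⁻¹ = 1 := congrArg Subtype.val h1
      apply Subtype.ext
      have h3 : (c : T.G) = T.t⁻¹ * (T.t * (c : T.G) * T.t⁻¹) * T.t := by group
      rw [h3, h2]; simp)
    f g
    (by
      intro c y
      show f (ι c • y) = (fun u : OV T n => (f y).1 ⟨u.1 * (c : T.G), ov_mul hn c u⟩, (f y).2)
      simp only [f]
      rw [RP_smul]
      rfl)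
    (by
      intro c y
      show g (sig T hn c • y) = (fun u : OV T n => (g y).1 ⟨u.1 * (c : T.G), ov_mul hn c u⟩, (g y).2)
      simp only [g]
      rw [RP_smul]
      apply Prod.ext
      · funext u
        show RP q y ⟨u.1 * T.t⁻¹ * (T.t * c * T.t⁻¹), _⟩ = RP q y ⟨u.1 * (c : T.G) * T.t⁻¹, _⟩
        congr 1
        apply Subtype.ext
        show u.1 * T.t⁻¹ * (T.t * c * T.t⁻¹) = u.1 * (c : T.G) * T.t⁻¹
        group
      · rfl)
    hfib
  let aH : T.A n := ⟨T.a, a_mem_win T.a T.t hn⟩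
  refine ⟨{ Y := Y
            act := ryAct q
            free := hfree
            α := MulAction.toPerm aH
            τ := e
            hα := ?_
            hτ := ?_
            ph := fun y => y.1.2
            ph_smul := fun h y => rfl
            ph_τ := ?_
            P := RP q
            P_loc := ?_
            P_smul := ?_
            P_τ := ?_ }, ?_, ?_⟩
  · intro x hx y
    have : x = aH := Subtype.ext hx
    rw [this]
    rfl
  · intro c c' hc hc' y
    have h1 := he2 ⟨(c : T.G), hc⟩ y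
    have h2 : c = ι ⟨(c : T.G), hc⟩ := Subtype.ext rfl
    have h3 : c' = sig T hn ⟨(c : T.G), hc⟩ := Subtype.ext hc'
    calc e (c • y) = e (ι ⟨(c : T.G), hc⟩ • y) := by rw [← h2]
      _ = sig T hn ⟨(c : T.G), hc⟩ • e y := h1
      _ = c' • e y := by rw [← h3]
  · intro y
    exact congrArg Prod.snd (he1 y)
  · intro y
    apply hbal.supp (RP q y) y.1.2
    rw [hbal.inv _ y.2.1.2 y.1.1 (RP q y) (shp_rel y.2.1 y.1.1) y.1.2]
    have : 0 < q y.1 := lt_of_le_of_lt (Nat.zero_le _) y.2.2.2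
    exact this.ne'
  · intro h y
    show ShiftRel (h : T.G) (RP q y) (RP q (h • y))
    rw [RP_smul]
    exact shp_rel h (RP q y)
  · intro y u w hw
    have hwu : (u : T.G) * T.t⁻¹ ∈ T.W n := hw ▸ w.2
    have h1 := congrFun (congrArg Prod.fst (he1 y)) ⟨u.1, u.2, hwu⟩
    have h2 : RP q (e y) ⟨u.1 * T.t⁻¹, hwu⟩ = RP q y ⟨u.1, u.2⟩ := h1
    rw [← h2]
    congr 1
    exact Subtype.ext hw
  · rw [finsum_eq_sum_of_fintype]
    show Nat.card (Σ z : Pat T F n × ZMod n, (T.A n) × Fin (q z)) = _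
    rw [Nat.card_eq_fintype_card, Fintype.card_sigma, Nat.card_eq_fintype_card, Finset.mul_sum]
    apply Finset.sum_congr rfl
    intro z _
    rw [Fintype.card_prod, Fintype.card_fin]
  · intro p l
    have h1 := ry_fib hn q hbal.inv {p} l
    have h2 : (∑ᶠ p' : {p' // p' ∈ ({p} : Set (Pat T F n))}, q (p'.1, l)) = q (p, l) := by
      rw [finsum_eq_sum_of_fintype]
      simp
    rw [h2] at h1
    exact h1

end Pool.Agent.H45.Ent
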