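/-
The extraction lemma.  MP_f39e07_an, owner helper45.

PROOF.  `exists_int_types` (with `ε' = ε |A(n)|`), `exists_typSys`, and glue `S.Y` onto `s.Ω`
(`Stage.glue`, `Stage.le_glue`); the freeness hypothesis: by `act_of_smul` a word `w` of the window
acts on `Y` by the element `T.φ w` of `A(n)`; if it fixes a point then `T.φ w = 1` (`S.free`), so it
acts trivially on `Y` and on `s.Ω` (`Fits.triv`).  Good: `(glue).act w = 1 → s.act w = 1`.
Value: `s₁.pin F c = (S.pinned (S.lab)).ncard` (as in `Stage.glue_cut`), `|Z| = |Y| = |A(n)| ∑ q`, and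
`∑_{y, ph y = -1} log blk (P y) = |A(n)| ∑_p q (p,-1) log blk p` (fibre sizes).
-/
import Pool.Agent.H45.Ent.IntTypes
import Pool.Agent.H45.Ent.Realise
import Pool.Agent.H45.Ent.PinGe
import Pool.Agent.H45.Ent.FreeSys

set_option autoImplicit false

namespace Pool.Agent.H45.Ent

namespace TypSys

variable {T : Tower} {F : Sys} {n : ℕ} (S : TypSys T F n)

/-- words of the window act through the window group -/
theorem act_word {w : F2} (hw : w ∈ win fa ft n) (y : S.Y) :
    homOf S.α S.τ w y = (⟨T.φ w, T.φ_win hw⟩ : T.A n) • y :=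
  act_of_smul T.a T.t n S.α S.τ S.hα S.hτ w hw ⟨T.φ w, T.φ_win hw⟩ rfl y

theorem act_eq_one {w : F2} (hw : w ∈ win fa ft n) (h : T.φ w = 1) : homOf S.α S.τ w = 1 := by
  refine Equiv.ext fun y => ?_
  rw [S.act_word hw y]
  have h1 : (⟨T.φ w, T.φ_win hw⟩ : T.A n) = 1 := Subtype.ext h
  rw [h1, one_smul]
  rfl

theorem φ_eq_one_of_fix {w : F2} (hw : w ∈ win fa ft n) {y : S.Y}
    (h : homOf S.α S.τ w y = y) : T.φ w = 1 := by
  rw [S.act_word hw y] at h
  exact congrArg Subtype.val (S.free _ _ h)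

/-- fibre sums -/
theorem finsum_fibre (N : Pat T F n → ℕ)
    (hN : ∀ p, {y : S.Y | S.P y = p ∧ S.ph y = -1}.ncard = N p) (g : Pat T F n → ℝ) :
    ∑ᶠ y : {y : S.Y // S.ph y = -1}, g (S.P y) = ∑ᶠ p : Pat T F n, (N p : ℝ) * g p := by
  classical
  have : Fintype {y : S.Y // S.ph y = -1} := Fintype.ofFinite _
  have : Fintype (Pat T F n) := Fintype.ofFinite _
  rw [finsum_eq_sum_of_fintype, finsum_eq_sum_of_fintype,
    ← Finset.sum_fiberwise (s := Finset.univ) (g := fun y : {y : S.Y // S.ph y = -1} => S.P y)]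
  refine Finset.sum_congr rfl fun p _ => ?_
  rw [Finset.sum_congr rfl (g := fun _ => g p) (fun y hy => by rw [(Finset.mem_filter.1 hy).2]),
    Finset.sum_const, nsmul_eq_mul, ← hN p]
  congr 2
  rw [← Set.ncard_coe_finset]
  have h1 : {y : S.Y | S.P y = p ∧ S.ph y = -1} = Subtype.val ''
      ((Finset.univ.filter fun y : {y : S.Y // S.ph y = -1} => S.P y = p :
        Finset {y : S.Y // S.ph y = -1}) : Set {y : S.Y // S.ph y = -1}) := by
    ext y
    simp only [Set.mem_ofPred_eq, Finset.coe_filter, Finset.mem_univ, true_and, Set.mem_image,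
      Subtype.exists, exists_and_left, exists_prop, exists_eq_right_right]
  rw [h1, Set.ncard_image_of_injective _ Subtype.val_injective]

end TypSys

theorem extraction (T : Tower) (s : Stage) (hfit : Fits T s) (hn : 2 ≤ s.n) (F : Sys)
    (hne : (F.shift T.a T.t).Nonempty) {ε : ℝ} (hε : 0 < ε) :
    ∃ s₁ : Stage, s.Le s₁ ∧ s₁.n = s.n ∧ (s.Good → s₁.Good) ∧
      ∃ c ∈ s₁.adm F, T.ent F - 2 * Real.log F.k / s.n - ε ≤
        Real.log (s₁.pin F c) / (s₁.Z.ncard : ℝ) := by
  classical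
  have hn0 : 0 < s.n := by omega
  have hA : (0 : ℝ) < Nat.card (T.A s.n) := by exact_mod_cast Nat.card_pos
  obtain ⟨q, hq, hbal, hval⟩ := exists_int_types T F hne hn0 (ε := ε * Nat.card (T.A s.n))
    (by positivity)
  obtain ⟨S, hcard, hfib⟩ := exists_typSys T F hn0 q hq hbal
  have hfree : ∀ w ∈ win fa ft s.n, ∀ y, homOf S.α S.τ w y = y →
      homOf s.al s.ta w = 1 ∧ homOf S.α S.τ w = 1 := by
    intro w hw y hy
    have h1 := S.φ_eq_one_of_fix hw hy
    exact ⟨hfit.triv w h1, S.act_eq_one hw h1⟩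
  let s₁ : Stage := Stage.glue s.al s.ta S.α S.τ s.n hn0 S.ph (S.ph_α hn0) S.ph_τ hfree
  have hle : s.Le s₁ := Stage.le_glue s S.Y S.α S.τ s.n hn0 S.ph (S.ph_α hn0) S.ph_τ hfree
    le_rfl (fun w hw h => S.act_eq_one hw (hfit.inj w hw h))
  refine ⟨s₁, hle, rfl, ?_, ?_⟩
  · intro hgood w hw heq
    apply hgood w hw
    have h1 : s₁.act (w * (aj fa ft (s.n - 1))⁻¹) = 1 := by
      rw [map_mul, map_inv, mul_inv_eq_one]
      exact heq
    have h2 := hle.act_one h1
    rw [map_mul, map_inv, mul_inv_eq_one] at h2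
    exact h2
  · let c0 : S.Y → Fin F.k := S.lab hn0
    obtain ⟨y0⟩ := S.neY
    let ext : (S.Y → Fin F.k) → (s₁.Ω → Fin F.k) := fun x => Sum.elim (fun _ => c0 y0) x
    refine ⟨ext c0, ?_, ?_⟩
    · rintro _ ⟨y, rfl⟩
      exact S.lab_adm hn y
    · have hpin : (S.pinned c0).ncard ≤ s₁.pin F (ext c0) := by
        unfold Stage.pin cnt
        refine Set.ncard_le_ncard_of_injOn (fun x => fun z : s₁.Z => ext x z) ?_ ?_ ?_
        · intro x hx
          refine ⟨ext x, ⟨?_, ?_⟩, rfl⟩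
          · rintro _ ⟨y, rfl⟩
            exact hx.1 y
          · rintro _ ⟨y, rfl⟩ hy
            exact hx.2 y hy
        · intro x hx x' hx' h
          funext y
          exact congrFun h ⟨Sum.inr y, y, rfl⟩
        · exact patt_finite _ (Set.toFinite _)
      have hlog : Real.log ((S.pinned c0).ncard : ℝ) ≤ Real.log (s₁.pin F (ext c0) : ℝ) := by
        rcases Nat.eq_zero_or_pos (S.pinned c0).ncard with h0 | h0
        · rw [h0, Nat.cast_zero, Real.log_zero]
          exact Real.log_natCast_nonneg _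
        · exact Real.log_le_log (by exact_mod_cast h0) (by exact_mod_cast hpin)
      have h1 := S.log_pinned_ge hn
      rw [S.finsum_fibre _ (fun p => hfib p (-1)) (fun p => Real.log (blk p))] at h1
      have h2 : ∑ᶠ p : Pat T F s.n, ((Nat.card (T.A s.n) * q (p, -1) : ℕ) : ℝ) *
          Real.log (blk p) =
          (Nat.card (T.A s.n) : ℝ) * ∑ᶠ p : Pat T F s.n, (q (p, -1) : ℝ) * Real.log (blk p) := by
        have : Fintype (Pat T F s.n) := Fintype.ofFinite _
        rw [finsum_eq_sum_of_fintype, finsum_eq_sum_of_fintype, Finset.mul_sum]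
        refine Finset.sum_congr rfl fun p _ => ?_
        push_cast
        ring
      rw [h2] at h1
      have h3 : ∑ᶠ p : Pat T F s.n, (q (p, -1) : ℝ) * Real.log (blk p) ≤
          Real.log ((S.pinned c0).ncard : ℝ) := le_of_mul_le_mul_left h1 hA
      have hZ : (s₁.Z.ncard : ℝ) = (Nat.card (T.A s.n) : ℝ) * ((∑ᶠ z, q z : ℕ) : ℝ) := by
        have : s₁.Z.ncard = Nat.card S.Y := Stage.glue_ncard_Z _ _ _ _ _ _ _ _ _ _
        rw [this, hcard]
        push_cast
        ring
      have hQ : (0 : ℝ) < ((∑ᶠ z, q z : ℕ) : ℝ) := by exact_mod_cast hq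
      rw [hZ, le_div_iff₀ (by positivity)]
      calc (T.ent F - 2 * Real.log F.k / s.n - ε) *
            ((Nat.card (T.A s.n) : ℝ) * ((∑ᶠ z, q z : ℕ) : ℝ)) =
            ((Nat.card (T.A s.n) : ℝ) * (T.ent F - 2 * Real.log F.k / s.n) -
              ε * Nat.card (T.A s.n)) * ((∑ᶠ z, q z : ℕ) : ℝ) := by ring
        _ ≤ _ := hval
        _ ≤ _ := h3
        _ ≤ _ := hlog

end Pool.Agent.H45.Ent
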