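/-
Every SFT has the entropy of a nearest neighbour system and conversely.
MP_f39e07_an, owner helper45.

PROOF of `recode`.  `X` = the SFT given by `D, P`.  If `X = ∅` take `k = 1`, `Ra = Rt = False`
(both entropies are 0).  Otherwise let `B` be a ball containing `1` and `D`.  Alphabet: the set
`𝒫` of `p : B → Fin k` which satisfy `∀ p' ∈ P, ∃ d ∈ D, p d ≠ p' d` (nonempty finite; identify
with `Fin K`).  `Ra p q :⇔ ∀ w ∈ B, w a ∈ B → q w = p (w a)`,
`Rt p q :⇔ ∀ w ∈ B, w t ∈ B → q w = p (w t)`.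
`x ↦ y`, `y(g)(w) = x (w g)` maps `X` onto the NN shift `Y`, with inverse `x g = y(g)(1)`.
Counting: patterns of `Y` on `E` correspond to patterns of `X` on `B E`:
`cnt Y E = cnt X (B E) ≥ cnt X E`, so `entX Y ≥ entX X`; and for `E` sufficiently invariant
`log cnt X (B E)/|E| ≤ log cnt X F'/|F'| + ε` (`foelner_bound`), so `entX Y ≤ entX X`.

PROOF of `shift_isSFT`: `D = {1, a, t}`, `P = {p | ¬ (Ra (p 1) (p a) ∧ Rt (p 1) (p t))}`; the two
sets of configurations are equal.
-/
import Pool.Agent.H45.Ent.Local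

set_option autoImplicit false

namespace Pool.Agent.H45.Ent

/-- balls of the word metric -/
def rball {G : Type} [Group G] (a t : G) : ℕ → Set G
  | 0 => {1}
  | r + 1 => rball a t r ∪ {g | ∃ w ∈ rball a t r, g = w * a ∨ g = w * a⁻¹ ∨ g = w * t ∨
      g = w * t⁻¹}

theorem rball_finite {G : Type} [Group G] (a t : G) (r : ℕ) : (rball a t r).Finite := by
  induction r with
  | zero => exact Set.finite_singleton _
  | succ r ih =>
    apply ih.union
    have h : {g | ∃ w ∈ rball a t r, g = w * a ∨ g = w * a⁻¹ ∨ g = w * t ∨ g = w * t⁻¹} ⊆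
        (((fun w => w * a) '' rball a t r) ∪ ((fun w => w * a⁻¹) '' rball a t r)) ∪
        (((fun w => w * t) '' rball a t r) ∪ ((fun w => w * t⁻¹) '' rball a t r)) := by
      rintro g ⟨w, hw, h | h | h | h⟩
      · exact Or.inl (Or.inl ⟨w, hw, h.symm⟩)
      · exact Or.inl (Or.inr ⟨w, hw, h.symm⟩)
      · exact Or.inr (Or.inl ⟨w, hw, h.symm⟩)
      · exact Or.inr (Or.inr ⟨w, hw, h.symm⟩)
    exact (((ih.image _).union (ih.image _)).union ((ih.image _).union (ih.image _))).subset h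

theorem rball_succ {G : Type} [Group G] (a t : G) (r : ℕ) : rball a t r ⊆ rball a t (r + 1) :=
  fun _ h => Or.inl h

theorem rball_mono {G : Type} [Group G] (a t : G) {r s : ℕ} (h : r ≤ s) :
    rball a t r ⊆ rball a t s := by
  induction h with
  | refl => exact subset_rfl
  | step _ ih => exact ih.trans (rball_succ a t _)

theorem one_mem_rball {G : Type} [Group G] (a t : G) (r : ℕ) : (1 : G) ∈ rball a t r :=
  rball_mono a t (Nat.zero_le r) rfl

theorem exists_rball {G : Type} [Group G] (a t : G)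
    (hgen : Subgroup.closure {a, t} = (⊤ : Subgroup G)) (g : G) : ∃ r, g ∈ rball a t r := by
  have hg : g ∈ Subgroup.closure ({a, t} : Set G) := by rw [hgen]; exact Subgroup.mem_top g
  induction hg using Subgroup.closure_induction_right with
  | one => exact ⟨0, rfl⟩
  | mul_right x hx y hy ih =>
    obtain ⟨r, hr⟩ := ih
    refine ⟨r + 1, Or.inr ⟨x, hr, ?_⟩⟩
    rcases hy with rfl | hy
    · exact Or.inl rfl
    · rw [Set.mem_singleton_iff] at hy
      subst hy
      exact Or.inr (Or.inr (Or.inl rfl))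
  | mul_inv_cancel x hx y hy ih =>
    obtain ⟨r, hr⟩ := ih
    refine ⟨r + 1, Or.inr ⟨x, hr, ?_⟩⟩
    rcases hy with rfl | hy
    · exact Or.inr (Or.inl rfl)
    · rw [Set.mem_singleton_iff] at hy
      subst hy
      exact Or.inr (Or.inr (Or.inr rfl))

theorem exists_rball_set {G : Type} [Group G] (a t : G)
    (hgen : Subgroup.closure {a, t} = (⊤ : Subgroup G)) (D : Finset G) :
    ∃ r, (D : Set G) ⊆ rball a t r := by
  classical
  induction D using Finset.induction_on with
  | empty => exact ⟨0, by simp⟩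
  | insert x s _ ih =>
    obtain ⟨r, hr⟩ := ih
    obtain ⟨r', hr'⟩ := exists_rball a t hgen x
    refine ⟨max r r', ?_⟩
    intro y hy
    rw [Finset.coe_insert] at hy
    rcases hy with rfl | hy
    · exact rball_mono a t (le_max_right _ _) hr'
    · exact rball_mono a t (le_max_left _ _) (hr hy)

theorem rinv_sft {G : Type} [Group G] {k : ℕ} (D : Finset G) (P : Set (G → Fin k)) :
    RInv {x : G → Fin k | ∀ g : G, ∀ p ∈ P, ∃ d ∈ D, x (d * g) ≠ p d} := by
  intro γ x hx g p hp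
  obtain ⟨d, hd, h⟩ := hx (g * γ) p hp
  exact ⟨d, hd, by rwa [← mul_assoc] at h⟩

/-- comparison of the entropies from comparison of the counts -/
theorem entX_eq_of_cnt {G : Type} [Group G] (hF : IsFoelner G) {k K : ℕ}
    {X : Set (G → Fin k)} {Y : Set (G → Fin K)} (hX : RInv X) (hne : X.Nonempty)
    (B : Finset G)
    (h1 : ∀ E : Finset G, cnt X (E : Set G) ≤ cnt Y (E : Set G))
    (h2 : ∀ E : Finset G, cnt Y (E : Set G) ≤ cnt X {g | ∃ b ∈ B, ∃ e ∈ E, g = b * e}) :
    entX Y = entX X := by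
  have hpos : ∀ E : Finset G, 0 < cnt X (E : Set G) := fun E =>
    (cnt_pos E.finite_toSet).mpr hne
  have hposY : ∀ E : Finset G, 0 < cnt Y (E : Set G) := fun E => (hpos E).trans_le (h1 E)
  apply le_antisymm
  · apply le_entX
    intro F' hF'
    apply le_of_forall_pos_le_add
    intro ε hε
    obtain ⟨K, δ, hδ, hK⟩ := foelner_bound hX F' hF' B hε
    obtain ⟨E, hE, hE'⟩ := hF K δ hδ
    refine (entX_le Y E hE).trans ?_
    refine le_trans ?_ (hK E hE hE')
    have hcard : (0 : ℝ) < E.card := by exact_mod_cast hE.card_pos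
    apply div_le_div_of_nonneg_right _ hcard.le
    apply Real.log_le_log
    · exact_mod_cast hposY E
    · exact_mod_cast h2 E
  · apply le_entX
    intro F' hF'
    refine (entX_le X F' hF').trans ?_
    have hcard : (0 : ℝ) < F'.card := by exact_mod_cast hF'.card_pos
    apply div_le_div_of_nonneg_right _ hcard.le
    apply Real.log_le_log
    · exact_mod_cast hpos F'
    · exact_mod_cast h1 F'

/-- in the recoded shift the letter at `g` shows the values near `g` -/
theorem recode_key {G : Type} [Group G] (a t : G) {k : ℕ} (r : ℕ)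
    (u : G → (rball a t r → Fin k))
    (ha : ∀ g : G, ∀ (w : G) (hw : w ∈ rball a t r) (hwa : w * a ∈ rball a t r),
      u (a * g) ⟨w, hw⟩ = u g ⟨w * a, hwa⟩)
    (ht : ∀ g : G, ∀ (w : G) (hw : w ∈ rball a t r) (hwt : w * t ∈ rball a t r),
      u (t * g) ⟨w, hw⟩ = u g ⟨w * t, hwt⟩) :
    ∀ s : ℕ, s ≤ r → ∀ w : G, w ∈ rball a t s → ∀ (hw' : w ∈ rball a t r) (g : G),
      u g ⟨w, hw'⟩ = u (w * g) ⟨1, one_mem_rball a t r⟩ := by
  intro s
  induction s with
  | zero =>
    intro _ w hw hw' g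
    have hw1 : w = 1 := hw
    subst hw1
    rw [one_mul]
  | succ s ih =>
    intro hs w hw hw' g
    rcases hw with hw | ⟨v, hv, hvw⟩
    · exact ih (by omega) w hw hw' g
    · have hv' : v ∈ rball a t r := rball_mono a t (by omega) hv
      rcases hvw with h | h | h | h
      · subst h
        rw [← ha g v hv' hw', ih (by omega) v hv hv' (a * g), mul_assoc]
      · subst h
        have h1 : v * a⁻¹ * a ∈ rball a t r := by rwa [inv_mul_cancel_right]
        have h2 := ha (a⁻¹ * g) (v * a⁻¹) hw' h1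
        rw [mul_inv_cancel_left] at h2
        rw [h2]
        have h3 : (⟨v * a⁻¹ * a, h1⟩ : rball a t r) = ⟨v, hv'⟩ := by
          apply Subtype.ext
          exact inv_mul_cancel_right v a
        rw [h3, ih (by omega) v hv hv' (a⁻¹ * g), mul_assoc]
      · subst h
        rw [← ht g v hv' hw', ih (by omega) v hv hv' (t * g), mul_assoc]
      · subst h
        have h1 : v * t⁻¹ * t ∈ rball a t r := by rwa [inv_mul_cancel_right]
        have h2 := ht (t⁻¹ * g) (v * t⁻¹) hw' h1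
        rw [mul_inv_cancel_left] at h2
        rw [h2]
        have h3 : (⟨v * t⁻¹ * t, h1⟩ : rball a t r) = ⟨v, hv'⟩ := by
          apply Subtype.ext
          exact inv_mul_cancel_right v t
        rw [h3, ih (by omega) v hv hv' (t⁻¹ * g), mul_assoc]

theorem recode {G : Type} [Group G] (a t : G) (hgen : Subgroup.closure {a, t} = (⊤ : Subgroup G))
    (hF : IsFoelner G) {k : ℕ} (D : Finset G) (P : Set (G → Fin k)) :
    ∃ F : Sys, 0 < F.k ∧
      entX (F.shift a t) = entX {x : G → Fin k | ∀ g : G, ∀ p ∈ P, ∃ d ∈ D, x (d * g) ≠ p d} := by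
  classical
  set X : Set (G → Fin k) := {x : G → Fin k | ∀ g : G, ∀ p ∈ P, ∃ d ∈ D, x (d * g) ≠ p d} with hXdef
  rcases X.eq_empty_or_nonempty with hXe | hXn
  · refine ⟨⟨1, fun _ _ => False, fun _ _ => False⟩, Nat.one_pos, ?_⟩
    have h1 : (Sys.mk 1 (fun _ _ => False) (fun _ _ => False)).shift a t = ∅ := by
      apply Set.eq_empty_of_forall_notMem
      intro x hx
      exact (hx 1).1
    rw [h1, hXe, entX_empty, entX_empty]
  obtain ⟨r, hr⟩ := exists_rball_set a t hgen D
  have hBfin := rball_finite a t r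
  have : Finite (rball a t r) := hBfin
  -- the alphabet
  let Q : Set (rball a t r → Fin k) :=
    {p | ∀ p' ∈ P, ∃ (d : G) (hd : d ∈ D), p ⟨d, hr hd⟩ ≠ p' d}
  have hQ : ∀ x ∈ X, ∀ g : G, (fun w : rball a t r => x ((w : G) * g)) ∈ Q := by
    intro x hx g p' hp'
    obtain ⟨d, hd, h⟩ := hx g p' hp'
    exact ⟨d, hd, h⟩
  obtain ⟨x₀, hx₀⟩ := hXn
  have hQn : Nonempty Q := ⟨⟨_, hQ x₀ hx₀ 1⟩⟩
  let e : Q ≃ Fin (Nat.card Q) := Finite.equivFin Q
  have hK : 0 < Nat.card Q := Nat.card_pos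
  let F : Sys :=
    { k := Nat.card Q
      Ra := fun i j => ∀ (w : G) (hw : w ∈ rball a t r) (hwa : w * a ∈ rball a t r),
        (e.symm j).1 ⟨w, hw⟩ = (e.symm i).1 ⟨w * a, hwa⟩
      Rt := fun i j => ∀ (w : G) (hw : w ∈ rball a t r) (hwt : w * t ∈ rball a t r),
        (e.symm j).1 ⟨w, hw⟩ = (e.symm i).1 ⟨w * t, hwt⟩ }
  refine ⟨F, hK, ?_⟩
  let Φ : (G → Fin k) → (G → Fin (Nat.card Q)) := fun x =>
    if h : x ∈ X then fun g => e ⟨fun w : rball a t r => x ((w : G) * g), hQ x h g⟩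
    else fun _ => ⟨0, hK⟩
  have hΦ : ∀ x ∈ X, ∀ (g : G) (w : rball a t r), (e.symm (Φ x g)).1 w = x ((w : G) * g) := by
    intro x hx g w
    have : Φ x = fun g => e ⟨fun w : rball a t r => x ((w : G) * g), hQ x hx g⟩ := dif_pos hx
    rw [this]
    show (e.symm (e ⟨fun w : rball a t r => x ((w : G) * g), hQ x hx g⟩)).1 w = x ((w : G) * g)
    rw [Equiv.symm_apply_apply]
  let Ψ : (G → Fin (Nat.card Q)) → (G → Fin k) := fun y g =>
    (e.symm (y g)).1 ⟨1, one_mem_rball a t r⟩
  have hΨ : ∀ y ∈ F.shift a t, ∀ (g : G) (w : rball a t r),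
      (e.symm (y g)).1 w = Ψ y ((w : G) * g) := by
    intro y hy g w
    exact recode_key a t r (fun g => (e.symm (y g)).1) (fun g => (hy g).1) (fun g => (hy g).2)
      r le_rfl w.1 w.2 w.2 g
  have hΦY : ∀ x ∈ X, Φ x ∈ F.shift a t := by
    intro x hx g
    constructor
    · intro w hw hwa
      show (e.symm (Φ x (a * g))).1 ⟨w, hw⟩ = (e.symm (Φ x g)).1 ⟨w * a, hwa⟩
      rw [hΦ x hx, hΦ x hx, mul_assoc]
    · intro w hw hwt
      show (e.symm (Φ x (t * g))).1 ⟨w, hw⟩ = (e.symm (Φ x g)).1 ⟨w * t, hwt⟩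
      rw [hΦ x hx, hΦ x hx, mul_assoc]
  have hΨX : ∀ y ∈ F.shift a t, Ψ y ∈ X := by
    intro y hy g p' hp'
    obtain ⟨d, hd, h⟩ := (e.symm (y g)).2 p' hp'
    refine ⟨d, hd, ?_⟩
    rwa [hΨ y hy] at h
  apply entX_eq_of_cnt hF (rinv_sft D P) ⟨x₀, hx₀⟩ hBfin.toFinset
  · intro E
    apply cnt_le_of_inj E.finite_toSet Φ hΦY
    intro x hx y hy h i hi
    have h1 := h i hi
    have h2 := hΦ x hx i ⟨1, one_mem_rball a t r⟩
    have h3 := hΦ y hy i ⟨1, one_mem_rball a t r⟩
    rw [one_mul] at h2 h3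
    rw [← h2, ← h3, h1]
  · intro E
    have hfin : {g | ∃ b ∈ hBfin.toFinset, ∃ e ∈ E, g = b * e}.Finite := by
      apply ((hBfin.toFinset ×ˢ E).image (fun q : G × G => q.1 * q.2)).finite_toSet.subset
      rintro g ⟨b, hb, e, he, rfl⟩
      rw [Finset.mem_coe, Finset.mem_image]
      exact ⟨(b, e), Finset.mem_product.mpr ⟨hb, he⟩, rfl⟩
    apply cnt_le_of_inj hfin Ψ hΨX
    intro y hy y' hy' h i hi
    have h1 : e.symm (y i) = e.symm (y' i) := by
      apply Subtype.ext
      funext w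
      rw [hΨ y hy, hΨ y' hy']
      exact h _ ⟨w, hBfin.mem_toFinset.mpr w.2, i, hi, rfl⟩
    exact e.symm.injective h1

theorem shift_isSFT {G : Type} [Group G] (a t : G) (F : Sys) :
    ∃ (D : Finset G) (P : Set (G → Fin F.k)),
      {x : G → Fin F.k | ∀ g : G, ∀ p ∈ P, ∃ d ∈ D, x (d * g) ≠ p d} = F.shift a t := by
  classical
  refine ⟨{1, a, t}, {p | ¬ (F.Ra (p 1) (p a) ∧ F.Rt (p 1) (p t))}, ?_⟩
  ext x
  constructor
  · intro hx g
    by_contra hcon
    obtain ⟨d, hd, h⟩ := hx g (fun h => x (h * g)) (by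
      show ¬ (F.Ra (x (1 * g)) (x (a * g)) ∧ F.Rt (x (1 * g)) (x (t * g)))
      rwa [one_mul])
    exact h rfl
  · intro hx g p hp
    by_contra hcon
    push Not at hcon
    apply hp
    have h1 := hcon 1 (by simp)
    have h2 := hcon a (by simp)
    have h3 := hcon t (by simp)
    rw [one_mul] at h1
    rw [← h1, ← h2, ← h3]
    exact hx g

end Pool.Agent.H45.Ent
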