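/-
Right recursively enumerable reals: infima of logarithms.  MP_f39e07_an, owner helper45.

PROOF.  `A i ≥ B i ≥ 1`, `d i ≥ 1`.  For `(i, p, q, m)` consider the condition
`C : (A i)^(q+1) * (m+1)^(m+1) ≤ (B i)^(q+1) * (m+1+p)^(m+1)`.  It says
`(A/B)^(q+1) ≤ (1 + p/(m+1))^(m+1) ≤ e^p`, so it implies `log (A/B) ≤ p/(q+1)`; conversely if
`log (A/B) < p/(q+1)` then `C` holds for large `m` (`(1 + p/M)^M → e^p`).  Enumerate all quadruples
by a natural number `N` (unpairing) and put `a N / (b N + 1) = p / ((q+1) d)` if `C` holds and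
`= A / d` otherwise (`log (A/B) ≤ log A ≤ A`).  All these numbers are `≥ inf`, and they come arbitrarily
close to each `log(A i/B i)/d i`.  `C` is decidable and computable from the computable
`A, B, d`.
-/
import Pool.Agent.H83.Ent.Comp

set_option autoImplicit false

namespace Pool.Agent.H45.Ent

theorem rlog_exists {A B : ℕ} (hB : 0 < B) (D : ℕ) : ∃ c, A * (D + 1) ^ c ≤ B * (D + 2) ^ c := by
  obtain ⟨c, hc⟩ := Pool.Agent.H83.Ent.clog_exists A D
  refine ⟨c, hc.trans ?_⟩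
  exact Nat.le_mul_of_pos_left _ hB

theorem rlog_lower {A B : ℕ} (hB : 0 < B) (hBA : B ≤ A) (D c : ℕ)
    (h : A * (D + 1) ^ c ≤ B * (D + 2) ^ c) :
    Real.log ((A : ℝ) / B) ≤ (c : ℝ) / ((D : ℝ) + 1) := by
  have hBr : (0 : ℝ) < B := by exact_mod_cast hB
  have hAr : (0 : ℝ) < A := by exact_mod_cast lt_of_lt_of_le hB hBA
  have h1 : (A : ℝ) * ((D : ℝ) + 1) ^ c ≤ B * ((D : ℝ) + 2) ^ c := by exact_mod_cast h
  have h2 : (A : ℝ) / B ≤ (((D : ℝ) + 2) / ((D : ℝ) + 1)) ^ c := by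
    rw [div_pow, div_le_div_iff₀ hBr (by positivity)]
    linarith
  have h3 : Real.log ((A : ℝ) / B) ≤ c * Real.log (((D : ℝ) + 2) / ((D : ℝ) + 1)) := by
    rw [← Real.log_pow]; exact Real.log_le_log (div_pos hAr hBr) h2
  have h4 : Real.log (((D : ℝ) + 2) / ((D : ℝ) + 1)) ≤ 1 / ((D : ℝ) + 1) := by
    have := Real.log_le_sub_one_of_pos (show (0 : ℝ) < ((D : ℝ) + 2) / ((D : ℝ) + 1) by positivity)
    refine this.trans (le_of_eq ?_)
    field_simp; ring
  calc Real.log ((A : ℝ) / B) ≤ c * Real.log (((D : ℝ) + 2) / ((D : ℝ) + 1)) := h3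
    _ ≤ c * (1 / ((D : ℝ) + 1)) := mul_le_mul_of_nonneg_left h4 (Nat.cast_nonneg _)
    _ = _ := by ring

theorem rlog_upper {A B : ℕ} (hB : 0 < B) (hBA : B ≤ A) (D c : ℕ)
    (h : ¬ (A * (D + 1) ^ c ≤ B * (D + 2) ^ c)) :
    ((c + 1 : ℕ) : ℝ) / ((D : ℝ) + 1) ≤
      Real.log ((A : ℝ) / B) + (Real.log ((A : ℝ) / B) + 1) / ((D : ℝ) + 1) := by
  have hBr : (0 : ℝ) < B := by exact_mod_cast hB
  have hAr : (0 : ℝ) < A := by exact_mod_cast lt_of_lt_of_le hB hBA
  rw [not_le] at h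
  have h2 : (B : ℝ) * ((D : ℝ) + 2) ^ c ≤ (A : ℝ) * ((D : ℝ) + 1) ^ c := by exact_mod_cast h.le
  have h3 : (((D : ℝ) + 2) / ((D : ℝ) + 1)) ^ c ≤ (A : ℝ) / B := by
    rw [div_pow, div_le_div_iff₀ (by positivity) hBr]; linarith
  have h4 : c * Real.log (((D : ℝ) + 2) / ((D : ℝ) + 1)) ≤ Real.log ((A : ℝ) / B) := by
    rw [← Real.log_pow]; exact Real.log_le_log (by positivity) h3
  have h5 : 1 / ((D : ℝ) + 2) ≤ Real.log (((D : ℝ) + 2) / ((D : ℝ) + 1)) := by
    have := Real.one_sub_inv_le_log_of_pos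
      (show (0 : ℝ) < ((D : ℝ) + 2) / ((D : ℝ) + 1) by positivity)
    refine le_trans (le_of_eq ?_) this
    field_simp; ring
  have h6 : (c : ℝ) * (1 / ((D : ℝ) + 2)) ≤ Real.log ((A : ℝ) / B) :=
    (mul_le_mul_of_nonneg_left h5 (Nat.cast_nonneg _)).trans h4
  have h7 : (c : ℝ) ≤ Real.log ((A : ℝ) / B) * ((D : ℝ) + 2) := by
    rw [mul_one_div, div_le_iff₀ (by positivity)] at h6; exact h6
  push_cast
  rw [div_le_iff₀ (by positivity)]
  have h8 : (Real.log ((A : ℝ) / B) + (Real.log ((A : ℝ) / B) + 1) / ((D : ℝ) + 1)) *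
      ((D : ℝ) + 1) = Real.log ((A : ℝ) / B) * ((D : ℝ) + 1) + (Real.log ((A : ℝ) / B) + 1) := by
    field_simp
  rw [h8]
  linarith

theorem rre_of_log (A B d : ℕ → ℕ) (hA : Computable A) (hB : Computable B) (hd : Computable d)
    (hBpos : ∀ i, 0 < B i) (hBA : ∀ i, B i ≤ A i) (hdpos : ∀ i, 0 < d i) :
    ∃ a b : ℕ → ℕ, Computable a ∧ Computable b ∧
      (⨅ i, Real.log ((A i : ℝ) / B i) / d i) = ⨅ n : ℕ, (a n : ℝ) / ((b n : ℝ) + 1) := by
  classical
  let f : ℕ × ℕ → ℕ := fun q => Nat.find (rlog_exists (A := A q.1) (hBpos q.1) q.2)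
  have hspec : ∀ q : ℕ × ℕ, A q.1 * (q.2 + 1) ^ f q ≤ B q.1 * (q.2 + 2) ^ f q := fun q =>
    Nat.find_spec (rlog_exists (A := A q.1) (hBpos q.1) q.2)
  have hmin : ∀ (q : ℕ × ℕ) (m : ℕ), m < f q →
      ¬ (A q.1 * (q.2 + 1) ^ m ≤ B q.1 * (q.2 + 2) ^ m) := fun q m hm =>
    Nat.find_min (rlog_exists (A := A q.1) (hBpos q.1) q.2) hm
  have hpow : Primrec₂ (fun (a b : ℕ) => a ^ b) := Primrec₂.unpaired'.1 Nat.Primrec.pow
  have hf : Computable f := by
    have h0 : Primrec (fun z : ((ℕ × ℕ) × ℕ) × ℕ =>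
        decide (z.1.1.1 * (z.1.2 + 1) ^ z.2 ≤ z.1.1.2 * (z.1.2 + 2) ^ z.2)) := by
      have h1 : Primrec (fun z : ((ℕ × ℕ) × ℕ) × ℕ => z.1.1.1 * (z.1.2 + 1) ^ z.2) :=
        Primrec.nat_mul.comp (Primrec.fst.comp (Primrec.fst.comp Primrec.fst))
          (hpow.comp (Primrec.succ.comp (Primrec.snd.comp Primrec.fst)) Primrec.snd)
      have h2 : Primrec (fun z : ((ℕ × ℕ) × ℕ) × ℕ => z.1.1.2 * (z.1.2 + 2) ^ z.2) :=
        Primrec.nat_mul.comp (Primrec.snd.comp (Primrec.fst.comp Primrec.fst))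
          (hpow.comp (Primrec.succ.comp (Primrec.succ.comp (Primrec.snd.comp Primrec.fst)))
            Primrec.snd)
      exact (PrimrecRel.comp Primrec.nat_le h1 h2).decide
    have hP : Computable₂ (fun (q : ℕ × ℕ) (c : ℕ) =>
        decide (A q.1 * (q.2 + 1) ^ c ≤ B q.1 * (q.2 + 2) ^ c)) := by
      have h3 : Computable (fun w : (ℕ × ℕ) × ℕ => (((A w.1.1, B w.1.1), w.1.2), w.2)) :=
        Computable.pair (Computable.pair (Computable.pair
          (hA.comp (Computable.fst.comp Computable.fst))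
          (hB.comp (Computable.fst.comp Computable.fst)))
          (Computable.snd.comp Computable.fst)) Computable.snd
      exact Computable.comp (f := fun z : ((ℕ × ℕ) × ℕ) × ℕ =>
        decide (z.1.1.1 * (z.1.2 + 1) ^ z.2 ≤ z.1.1.2 * (z.1.2 + 2) ^ z.2))
        (g := fun w : (ℕ × ℕ) × ℕ => (((A w.1.1, B w.1.1), w.1.2), w.2)) h0.to_comp h3
    apply Pool.Agent.H83.Ent.computable_find hP
    intro q
    exact ⟨decide_eq_true (hspec q), fun m hm => decide_eq_false (hmin q m hm)⟩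
  refine ⟨fun m => f m.unpair, fun m => (m.unpair.2 + 1) * d m.unpair.1 - 1, ?_, ?_, ?_⟩
  · exact hf.comp Computable.unpair
  · have h1 : Computable (fun m : ℕ => (m.unpair.2 + 1) * d m.unpair.1) :=
      (Primrec.nat_mul.to_comp).comp (Computable.succ.comp (Computable.snd.comp Computable.unpair))
        (hd.comp (Computable.fst.comp Computable.unpair))
    exact (Primrec.nat_sub.to_comp).comp h1 (Computable.const 1)
  · have hb : ∀ m : ℕ, (((m.unpair.2 + 1) * d m.unpair.1 - 1 : ℕ) : ℝ) + 1 =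
        ((m.unpair.2 : ℝ) + 1) * d m.unpair.1 := by
      intro m
      have : 1 ≤ (m.unpair.2 + 1) * d m.unpair.1 := Nat.mul_pos (Nat.succ_pos _) (hdpos _)
      rw [Nat.cast_sub this]
      push_cast; ring
    have hd' : ∀ n, (0 : ℝ) < d n := fun n => by exact_mod_cast hdpos n
    have hlog : ∀ n, 0 ≤ Real.log ((A n : ℝ) / B n) := by
      intro n
      apply Real.log_nonneg
      have hBr : (0 : ℝ) < B n := by exact_mod_cast hBpos n
      rw [one_le_div hBr]
      exact_mod_cast hBA n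
    have hterm : ∀ n, 0 ≤ Real.log ((A n : ℝ) / B n) / d n := fun n =>
      div_nonneg (hlog n) (hd' n).le
    have hbdd : BddBelow (Set.range fun n => Real.log ((A n : ℝ) / B n) / d n) :=
      ⟨0, by rintro _ ⟨n, rfl⟩; exact hterm n⟩
    have hbdd2 : BddBelow (Set.range fun m : ℕ => (f m.unpair : ℝ) /
        ((((m.unpair.2 + 1) * d m.unpair.1 - 1 : ℕ) : ℝ) + 1)) :=
      ⟨0, by rintro _ ⟨n, rfl⟩; positivity⟩
    apply le_antisymm
    · apply le_ciInf
      intro m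
      refine (ciInf_le hbdd m.unpair.1).trans ?_
      rw [hb, ← div_div]
      exact div_le_div_of_nonneg_right
        (rlog_lower (hBpos _) (hBA _) _ _ (hspec m.unpair)) (hd' _).le
    · apply le_ciInf
      intro n
      apply le_of_forall_pos_le_add
      intro ε hε
      obtain ⟨D, hD⟩ := exists_nat_ge ((Real.log ((A n : ℝ) / B n) + 1) / (ε * d n))
      refine (ciInf_le hbdd2 (Nat.pair n D)).trans ?_
      rw [hb]
      simp only [Nat.unpair_pair]
      rw [← div_div]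
      have hl := hlog n
      have h1 : (f (n, D) : ℝ) / ((D : ℝ) + 1) ≤ Real.log ((A n : ℝ) / B n) +
          (Real.log ((A n : ℝ) / B n) + 1) / ((D : ℝ) + 1) := by
        rcases Nat.eq_zero_or_pos (f (n, D)) with h0 | hpos
        · rw [h0]; simp only [Nat.cast_zero, zero_div]; positivity
        · obtain ⟨c, hc⟩ := Nat.exists_eq_succ_of_ne_zero hpos.ne'
          rw [hc]
          exact rlog_upper (hBpos n) (hBA n) D c (hmin (n, D) c (by omega))
      have h2 : (Real.log ((A n : ℝ) / B n) + 1) / ((D : ℝ) + 1) ≤ ε * d n := by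
        rw [div_le_iff₀ (by positivity)]
        rw [div_le_iff₀ (mul_pos hε (hd' n))] at hD
        nlinarith [mul_pos hε (hd' n)]
      calc (f (n, D) : ℝ) / ((D : ℝ) + 1) / d n
          ≤ (Real.log ((A n : ℝ) / B n) + ε * d n) / d n :=
            div_le_div_of_nonneg_right (h1.trans (by linarith)) (hd' n).le
        _ = Real.log ((A n : ℝ) / B n) / d n + ε := by
            have := (hd' n).ne'
            field_simp

end Pool.Agent.H45.Ent
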