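/-
Comparison of logarithms of natural numbers by powers.  MP_f39e07_an, owner helper45.
-/
import Mathlib

set_option autoImplicit false

namespace Pool.Agent.H45.Ent

theorem log_lt_iff {a b : ℕ} (ha : 0 < a) (hb : 0 < b) : Real.log a < Real.log b ↔ a < b := by
  rw [Real.log_lt_log_iff (by exact_mod_cast ha) (by exact_mod_cast hb)]
  exact Nat.cast_lt

theorem log_le_iff {a b : ℕ} (ha : 0 < a) (hb : 0 < b) : Real.log a ≤ Real.log b ↔ a ≤ b := by
  rw [Real.log_le_log_iff (by exact_mod_cast ha) (by exact_mod_cast hb)]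
  exact Nat.cast_le

theorem log_div_lt_iff {a b d D : ℕ} (ha : 0 < a) (hb : 0 < b) (hd : 0 < d) (hD : 0 < D) :
    Real.log a / d < Real.log b / D ↔ a ^ D < b ^ d := by
  have hd' : (0 : ℝ) < d := by exact_mod_cast hd
  have hD' : (0 : ℝ) < D := by exact_mod_cast hD
  rw [div_lt_div_iff₀ hd' hD', ← log_lt_iff (pow_pos ha D) (pow_pos hb d)]
  push_cast
  rw [Real.log_pow, Real.log_pow, mul_comm, mul_comm (Real.log b)]

theorem log_gap_iff {a q d D J J' : ℕ} (ha : 0 < a) (hq : 0 < q) (hd : 0 < d) (hD : 0 < D)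
    (hJ : 0 < J) (hJ' : 0 < J') :
    Real.log a / d - Real.log q / D ≤ Real.log ((J' : ℝ) / J) ↔
      a ^ D * J ^ (d * D) ≤ J' ^ (d * D) * q ^ d := by
  have hd' : (0 : ℝ) < d := by exact_mod_cast hd
  have hD' : (0 : ℝ) < D := by exact_mod_cast hD
  have ha' : (0 : ℝ) < a := by exact_mod_cast ha
  have hq' : (0 : ℝ) < q := by exact_mod_cast hq
  have hJr : (0 : ℝ) < J := by exact_mod_cast hJ
  have hJr' : (0 : ℝ) < J' := by exact_mod_cast hJ'
  rw [← log_le_iff (by positivity) (by positivity)]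
  push_cast
  rw [Real.log_mul (by positivity) (by positivity), Real.log_mul (by positivity) (by positivity),
    Real.log_pow, Real.log_pow, Real.log_pow, Real.log_pow, Real.log_div hJr'.ne' hJr.ne']
  rw [div_sub_div _ _ hd'.ne' hD'.ne', div_le_iff₀ (by positivity)]
  push_cast
  constructor <;> intro h <;> nlinarith

theorem log_digit_lt_iff {p q r D : ℕ} (hq : 0 < q) (hD : 0 < D) :
    Real.log (((p : ℝ) + 1) / 4 ^ r) < Real.log q / D ↔ (p + 1) ^ D < q * 4 ^ (r * D) := by
  have hD' : (0 : ℝ) < D := by exact_mod_cast hD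
  have hq' : (0 : ℝ) < q := by exact_mod_cast hq
  rw [← log_lt_iff (by positivity) (by positivity)]
  push_cast
  rw [Real.log_mul (by positivity) (by positivity), Real.log_pow, Real.log_pow,
    Real.log_div (by positivity) (by positivity), Real.log_pow, lt_div_iff₀ hD']
  push_cast
  constructor <;> intro h <;> nlinarith

theorem log_lt_digit_iff {p a r d : ℕ} (hp : 0 < p) (ha : 0 < a) (hd : 0 < d) :
    Real.log a / d < Real.log ((p : ℝ) / 4 ^ r) ↔ a * 4 ^ (r * d) < p ^ d := by
  have hd' : (0 : ℝ) < d := by exact_mod_cast hd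
  have ha' : (0 : ℝ) < a := by exact_mod_cast ha
  have hp' : (0 : ℝ) < p := by exact_mod_cast hp
  rw [← log_lt_iff (by positivity) (by positivity)]
  push_cast
  rw [Real.log_mul (by positivity) (by positivity), Real.log_pow, Real.log_pow,
    Real.log_div (by positivity) (by positivity), Real.log_pow, div_lt_iff₀ hd']
  push_cast
  constructor <;> intro h <;> nlinarith

end Pool.Agent.H45.Ent
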