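/-
Lower bound: `log pin(s,F,c) / |Z| ≤ ent_T(F)` if `T` fits the stage `s`, `c` admissible.
MP_f39e07_an, owner helper45.

PROOF.  `n = s.n`, `H = T.A n`, `rho` = the action of `G` on `Ω` (ActG.lean), `Q` the pinned set
`s.pinSet F c`, `Y = s.Zp (-1)` (Phase.lean; `n |Y| = |Z|`).  For `y ∈ Y` let
`S_y = {rho w y | w ∈ T.W n} ⊆ Z` and `q(y) = cnt Q S_y`.
(1) Shearer (`shearer_cnt` with `E = Z`, `J = Y`, `m = |H|`): `pin ^ |H| ≤ ∏_{y∈Y} q(y)`.  Covering:
    for `z ∈ Z` there is `j < n` with `ph z = -1 - j`; `y' = rho (t^j) z ∈ Y` and for every `h ∈ H`,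
    `y = rho h y' ∈ Y`, `z = rho (t^{-j} h⁻¹) y ∈ S_y`; these `y` are `|H|` distinct points (`rho_free`).
(2) Fix `y₀ ∈ Y`, `r ≥ 1`, `Π = T.W (n r) = T.Pi (n r) (n r)` and `Γ` from `exists_tiling`.
    For `g ∈ Γ`, `n ∣ lv g`, so `rho g y₀ ∈ Y`.  Claim: `cnt (shift) Π ≥ ∏_{g∈Γ} q(rho g y₀)`.
    Given `x_g ∈ Q` for each `g ∈ Γ`, define `X : G → Fin k` by `X (w g) = x_g (rho (w g) y₀)` for
    `w ∈ W_n`, `g ∈ Γ` (every element of `Π` is uniquely of this form) and
    `X g' = c (rho g' y₀)` for `g' ∉ Π`.  `X` is in the shift: an `a`-edge stays in the same tile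
    (or outside); a `t`-edge from `g'` with `ph (rho g' y₀) ≠ -1` stays in the same tile (or
    outside; `t_mul_mem_Pi`, `t_inv_mul_mem_Pi` for `W_n`), and if `ph (rho g' y₀) = -1` both ends
    have their pinned values `c` (phases `-1` and `0`), and `c` is admissible.
    The restriction of `X` to `Π` determines the restriction of each `x_g` to `S_{rho g y₀}`.
(3) Sum over `y₀ ∈ Y` (`rho g` permutes `Y` for `g ∈ Γ`):
    `|Y| log cnt (shift) Π ≥ ∑_{g∈Γ} ∑_{y∈Y} log q(y) ≥ |Γ| |H| log pin`, and `|Π| = |W_n| |Γ| =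
    n |H| |Γ|`, `|Z| = n |Y|`: `log cnt (shift) Π / |Π| ≥ log pin / |Z|` for every `r ≥ 1`.
    Let `r → ∞` and use `tendsto_cnt_W`.
-/
import Pool.Agent.H45.Ent.Local
import Pool.Agent.H45.Ent.ActG
import Pool.Agent.H45.Ent.Phase

set_option autoImplicit false

open Filter Topology

namespace Pool.Agent.H45.Ent

/-- the part of `Z` seen from `y` through the block `W_n` -/
def blockOf {T : Tower} {s : Stage} (h : Fits T s) (y : s.Ω) : Set s.Ω :=
  (fun w => h.rho w y) '' T.W s.n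

/-- step (1) -/
theorem pin_pow_le {T : Tower} {s : Stage} (h : Fits T s) (F : Sys) (c : s.Ω → Fin F.k) :
    (s.pin F c : ℝ) ^ Nat.card (T.A s.n) ≤
      ∏ y ∈ (Set.toFinite (s.Zp (-1))).toFinset, (cnt (s.pinSet F c) (blockOf h y) : ℝ) := by
  classical
  have hmain := shearer_cnt (s.pinSet F c) (Set.toFinite s.Z).toFinset
    (Set.toFinite (s.Zp (-1))).toFinset (fun y => (Set.toFinite (blockOf h y)).toFinset)
    (Nat.card (T.A s.n)) Nat.card_pos (by
      intro z hz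
      rw [Set.Finite.mem_toFinset] at hz
      have : NeZero s.n := ⟨s.npos.ne'⟩
      set j : ℕ := (-1 - s.ph z).val with hj
      have hjn : j < s.n := ZMod.val_lt _
      set y' : s.Ω := h.rho (T.t ^ j) z with hy'
      have hy'Z : y' ∈ s.Z := (h.rho_mem_Z _).2 hz
      have hy'ph : s.ph y' = -1 := by
        rw [hy', h.ph_rho _ hz, Tower.lv_pow, Tower.lv_t, mul_one, Int.cast_natCast, hj,
          ZMod.natCast_zmod_val]
        ring
      have hfin : {y : s.Ω | y ∈ (Set.toFinite (s.Zp (-1))).toFinset ∧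
          z ∈ (Set.toFinite (blockOf h y)).toFinset}.Finite := Set.toFinite _
      have hsub : (fun x : T.A s.n => h.rho x.1 y') '' Set.univ ⊆
          {y : s.Ω | y ∈ (Set.toFinite (s.Zp (-1))).toFinset ∧
          z ∈ (Set.toFinite (blockOf h y)).toFinset} := by
        rintro _ ⟨x, -, rfl⟩
        rw [Set.mem_ofPred_eq, Set.Finite.mem_toFinset, Set.Finite.mem_toFinset]
        refine ⟨⟨(h.rho_mem_Z _).2 hy'Z, ?_⟩, ?_⟩
        · rw [h.ph_rho _ hy'Z, T.lv_win x.2, hy'ph]; simp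
        · refine ⟨(T.t ^ j)⁻¹ * x.1⁻¹, ?_, ?_⟩
          · exact T.mem_Pi_iff_exists.2 ⟨j, hjn, x.1⁻¹, Subgroup.inv_mem _ x.2, rfl⟩
          · show h.rho ((T.t ^ j)⁻¹ * x.1⁻¹) (h.rho x.1 (h.rho (T.t ^ j) z)) = z
            rw [← Equiv.Perm.mul_apply, ← Equiv.Perm.mul_apply, ← map_mul, ← map_mul]
            have : (T.t ^ j)⁻¹ * x.1⁻¹ * x.1 * T.t ^ j = 1 := by group
            rw [this, map_one, Equiv.Perm.one_apply]
      have hinj : Function.Injective (fun x : T.A s.n => h.rho x.1 y') := by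
        intro x x' hxx
        have h1 : h.rho (x'.1⁻¹ * x.1) y' = y' := by
          rw [map_mul, Equiv.Perm.mul_apply]
          have hxx' : h.rho x.1 y' = h.rho x'.1 y' := hxx
          rw [hxx', ← Equiv.Perm.mul_apply, ← map_mul, inv_mul_cancel, map_one,
            Equiv.Perm.one_apply]
        have h2 := h.rho_free (Subgroup.mul_mem _ (Subgroup.inv_mem _ x'.2) x.2) hy'Z h1
        exact Subtype.ext (inv_mul_eq_one.1 h2).symm
      calc Nat.card (T.A s.n) = ((fun x : T.A s.n => h.rho x.1 y') '' Set.univ).ncard := by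
            rw [Set.ncard_image_of_injective _ hinj, Set.ncard_univ]
        _ ≤ _ := Set.ncard_le_ncard hsub hfin)
  have h1 : ∀ y, ((Set.toFinite (blockOf h y)).toFinset : Set s.Ω) = blockOf h y := fun y =>
    (Set.toFinite (blockOf h y)).coe_toFinset
  simp only [h1, Set.Finite.coe_toFinset] at hmain
  exact_mod_cast hmain

/-- products of pattern counts -/
theorem prod_cnt_le {κ Ω J A B : Type*} [Finite A] [Finite B] (Γ : Finset κ)
    (Q : Set (Ω → A)) (S : κ → Set Ω) (hS : ∀ g, (S g).Finite) (Y : Set (J → B)) (S' : Set J)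
    (hS' : S'.Finite) (x0 : Ω → A) (Φ : (κ → Ω → A) → (J → B))
    (hΦ : ∀ x : κ → Ω → A, (∀ g ∈ Γ, x g ∈ Q) → Φ x ∈ Y)
    (hinj : ∀ x x' : κ → Ω → A, (∀ g ∈ Γ, x g ∈ Q) → (∀ g ∈ Γ, x' g ∈ Q) →
      (∀ j ∈ S', Φ x j = Φ x' j) → ∀ g ∈ Γ, ∀ z ∈ S g, x g z = x' g z) :
    ∏ g ∈ Γ, cnt Q (S g) ≤ cnt Y S' := by
  classical
  let P : (g : κ) → Finset (S g → A) := fun g => (patt_finite Q (hS g)).toFinset
  have hP : ∀ g, cnt Q (S g) = (P g).card := fun g => by
    unfold cnt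
    rw [Set.ncard_eq_toFinset_card _ (patt_finite Q (hS g))]
  have hPm : ∀ g (p : S g → A), p ∈ P g → ∃ x ∈ Q, (fun i : S g => x i) = p := by
    intro g p hp
    rw [Set.Finite.mem_toFinset] at hp
    obtain ⟨x, hx, hxp⟩ := hp
    exact ⟨x, hx, hxp⟩
  have hc : ∀ g (p : S g → A), ∃ x : Ω → A, p ∈ P g → x ∈ Q ∧ (fun i : S g => x i) = p := by
    intro g p
    by_cases hp : p ∈ P g
    · obtain ⟨x, hx, hxp⟩ := hPm g p hp
      exact ⟨x, fun _ => ⟨hx, hxp⟩⟩
    · exact ⟨x0, fun h => absurd h hp⟩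
  choose c hcs using hc
  let ext : ((g : κ) → g ∈ Γ → (S g → A)) → κ → Ω → A := fun f g =>
    if hg : g ∈ Γ then c g (f g hg) else x0
  have hext : ∀ f ∈ Γ.pi P, ∀ g ∈ Γ, ext f g ∈ Q := by
    intro f hf g hg
    simp only [ext, dif_pos hg]
    exact (hcs g _ (Finset.mem_pi.1 hf g hg)).1
  rw [Finset.prod_congr rfl fun g _ => hP g, ← Finset.card_pi]
  unfold cnt
  rw [← Set.ncard_coe_finset]
  refine Set.ncard_le_ncard_of_injOn (fun f => fun j : S' => Φ (ext f) j) ?_ ?_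
    (patt_finite Y hS')
  · intro f hf
    exact ⟨Φ (ext f), hΦ _ (hext f hf), rfl⟩
  · intro f hf f' hf' hff
    have h1 : ∀ j ∈ S', Φ (ext f) j = Φ (ext f') j := fun j hj => congrFun hff ⟨j, hj⟩
    have h2 := hinj _ _ (hext f hf) (hext f' hf') h1
    funext g hg
    have h3 := (hcs g _ (Finset.mem_pi.1 hf g hg)).2
    have h4 := (hcs g _ (Finset.mem_pi.1 hf' g hg)).2
    rw [← h3, ← h4]
    funext i
    have h5 := h2 g hg i i.2
    simp only [ext, dif_pos hg] at h5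
    exact h5

/-- step (2) -/
theorem prod_le_cnt_W {T : Tower} {s : Stage} (h : Fits T s) (F : Sys) (c : s.Ω → Fin F.k)
    (hc : c ∈ s.adm F) (r : ℕ) (Γ : Finset T.G)
    (hΓ : ∀ g ∈ Γ, g ∈ T.Pi (s.n * r) (s.n * r) ∧ (s.n : ℤ) ∣ T.lv g)
    (htile : Set.BijOn (fun p : T.G × T.G => p.1 * p.2) (T.W s.n ×ˢ (Γ : Set T.G))
      (T.Pi (s.n * r) (s.n * r))) (y : s.Ω) (hy : y ∈ s.Zp (-1)) :
    ∏ g ∈ Γ, cnt (s.pinSet F c) (blockOf h (h.rho g y)) ≤
      cnt (F.shift T.a T.t) (T.W (s.n * r)) := by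
  classical
  have : NeZero s.n := ⟨s.npos.ne'⟩
  -- representatives
  have hrep : ∀ g' : T.G, ∃ g : T.G, g' ∈ T.Pi (s.n * r) (s.n * r) →
      g ∈ Γ ∧ ∃ w ∈ T.W s.n, w * g = g' := by
    intro g'
    by_cases hg' : g' ∈ T.Pi (s.n * r) (s.n * r)
    · obtain ⟨⟨w, g⟩, ⟨hw, hg⟩, hwg⟩ := htile.surjOn hg'
      exact ⟨g, fun _ => ⟨hg, w, hw, hwg⟩⟩
    · exact ⟨1, fun h => absurd h hg'⟩
  choose rep hrep using hrep
  have hmem : ∀ w ∈ T.W s.n, ∀ g ∈ Γ, w * g ∈ T.Pi (s.n * r) (s.n * r) := fun w hw g hg =>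
    htile.mapsTo (show (w, g) ∈ T.W s.n ×ˢ (Γ : Set T.G) from ⟨hw, hg⟩)
  have hrepeq : ∀ w ∈ T.W s.n, ∀ g ∈ Γ, rep (w * g) = g := by
    intro w hw g hg
    obtain ⟨h1, w', hw', h2⟩ := hrep (w * g) (hmem w hw g hg)
    have h3 := htile.injOn (show (w', rep (w * g)) ∈ T.W s.n ×ˢ (Γ : Set T.G) from ⟨hw', h1⟩)
      (show (w, g) ∈ T.W s.n ×ˢ (Γ : Set T.G) from ⟨hw, hg⟩) h2
    exact congrArg Prod.snd h3
  have hphΓ : ∀ g ∈ Γ, s.ph (h.rho g y) = -1 := by
    intro g hg
    rw [h.ph_rho g hy.1, hy.2]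
    have : ((T.lv g : ℤ) : ZMod s.n) = 0 := (ZMod.intCast_zmod_eq_zero_iff_dvd _ _).2 (hΓ g hg).2
    rw [this, add_zero]
  have hZ : ∀ g' : T.G, h.rho g' y ∈ s.Z := fun g' => (h.rho_mem_Z _).2 hy.1
  have hphw : ∀ w, ∀ g ∈ Γ, s.ph (h.rho (w * g) y) = -1 + (T.lv w : ZMod s.n) := by
    intro w g hg
    rw [map_mul, Equiv.Perm.mul_apply, h.ph_rho w (hZ g), hphΓ g hg]
  let Φ : (T.G → s.Ω → Fin F.k) → (T.G → Fin F.k) := fun x g' =>
    if g' ∈ T.Pi (s.n * r) (s.n * r) then x (rep g') (h.rho g' y) else c (h.rho g' y)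
  have hΦin : ∀ x, ∀ w ∈ T.W s.n, ∀ g ∈ Γ, Φ x (w * g) = x g (h.rho (w * g) y) := by
    intro x w hw g hg
    show (if w * g ∈ T.Pi (s.n * r) (s.n * r) then x (rep (w * g)) (h.rho (w * g) y)
      else c (h.rho (w * g) y)) = _
    rw [if_pos (hmem w hw g hg), hrepeq w hw g hg]
  have hΦout : ∀ x g', g' ∉ T.Pi (s.n * r) (s.n * r) → Φ x g' = c (h.rho g' y) := by
    intro x g' hg'
    exact if_neg hg'
  have hΦpin : ∀ x : T.G → s.Ω → Fin F.k, (∀ g ∈ Γ, x g ∈ s.pinSet F c) → ∀ g',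
      (s.ph (h.rho g' y) = 0 ∨ s.ph (h.rho g' y) = -1) → Φ x g' = c (h.rho g' y) := by
    intro x hx g' hg'
    by_cases hP : g' ∈ T.Pi (s.n * r) (s.n * r)
    · obtain ⟨hg, w, hw, hwg⟩ := hrep g' hP
      rw [← hwg, hΦin x w hw _ hg, hwg]
      exact (hx _ hg).2 _ (hZ g') hg'
    · exact hΦout x g' hP
  have hal : ∀ g', s.al (h.rho g' y) = h.rho (T.a * g') y := by
    intro g'; rw [map_mul, Equiv.Perm.mul_apply, h.rho_a]
  have hta : ∀ g', s.ta (h.rho g' y) = h.rho (T.t * g') y := by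
    intro g'; rw [map_mul, Equiv.Perm.mul_apply, h.rho_t]
  refine prod_cnt_le Γ (s.pinSet F c) (fun g => blockOf h (h.rho g y)) (fun g => Set.toFinite _)
    (F.shift T.a T.t) (T.W (s.n * r)) (T.W_finite _) c Φ ?_ ?_
  · intro x hx g'
    constructor
    · by_cases hP : g' ∈ T.Pi (s.n * r) (s.n * r)
      · obtain ⟨hg, w, hw, hwg⟩ := hrep g' hP
        have haw : T.a * w ∈ T.W s.n := (T.a_mul_mem_Pi le_rfl).2 hw
        have h1 : Φ x g' = x (rep g') (h.rho g' y) := by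
          conv_lhs => rw [← hwg]
          rw [hΦin x w hw _ hg, hwg]
        have h2 : Φ x (T.a * g') = x (rep g') (h.rho (T.a * g') y) := by
          conv_lhs => rw [← hwg, ← mul_assoc]
          rw [hΦin x _ haw _ hg, mul_assoc, hwg]
        rw [h1, h2, ← hal]
        exact ((hx _ hg).1 _ (hZ g')).1
      · have hP' : T.a * g' ∉ T.Pi (s.n * r) (s.n * r) := fun h' =>
          hP ((T.a_mul_mem_Pi le_rfl).1 h')
        rw [hΦout x _ hP, hΦout x _ hP', ← hal]
        exact (hc _ (hZ g')).1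
    · by_cases hph : s.ph (h.rho g' y) = -1
      · have hph' : s.ph (h.rho (T.t * g') y) = 0 := by
          rw [← hta, s.ph_ta _ (hZ g'), hph]; ring
        rw [hΦpin x hx g' (Or.inr hph), hΦpin x hx _ (Or.inl hph'), ← hta]
        exact (hc _ (hZ g')).2
      · by_cases hP : g' ∈ T.Pi (s.n * r) (s.n * r)
        · obtain ⟨hg, w, hw, hwg⟩ := hrep g' hP
          have hlw : T.lv w ≠ 0 := by
            intro h0
            apply hph
            rw [← hwg, hphw w _ hg, h0]; simp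
          have haw : T.t * w ∈ T.W s.n := T.t_mul_mem_Pi hw hlw
          have h1 : Φ x g' = x (rep g') (h.rho g' y) := by
            conv_lhs => rw [← hwg]
            rw [hΦin x w hw _ hg, hwg]
          have h2 : Φ x (T.t * g') = x (rep g') (h.rho (T.t * g') y) := by
            conv_lhs => rw [← hwg, ← mul_assoc]
            rw [hΦin x _ haw _ hg, mul_assoc, hwg]
          rw [h1, h2, ← hta]
          exact ((hx _ hg).1 _ (hZ g')).2
        · have hP' : T.t * g' ∉ T.Pi (s.n * r) (s.n * r) := by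
            intro hP'
            obtain ⟨hg, w, hw, hwg⟩ := hrep _ hP'
            obtain ⟨j, hj, hl, hm⟩ := T.mem_Pi.1 hw
            have h1 : s.ph (h.rho (T.t * g') y) = -1 - (j : ZMod s.n) := by
              conv_lhs => rw [← hwg]
              rw [hphw w _ hg, hl]; push_cast; ring
            have h2 : s.ph (h.rho (T.t * g') y) = s.ph (h.rho g' y) + 1 := by
              rw [← hta, s.ph_ta _ (hZ g')]
            have hj' : j + 1 < s.n := by
              by_contra hcon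
              have hjn : j + 1 = s.n := by omega
              apply hph
              have h3 : ((j : ZMod s.n)) + 1 = 0 := by
                have : ((j + 1 : ℕ) : ZMod s.n) = 0 := by rw [hjn]; exact ZMod.natCast_self _
                push_cast at this
                exact this
              have h4 : s.ph (h.rho g' y) + 1 = 0 := by
                rw [← h2, h1]
                have : (-1 : ZMod s.n) - (j : ZMod s.n) = -((j : ZMod s.n) + 1) := by ring
                rw [this, h3, neg_zero]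
              exact eq_neg_of_add_eq_zero_left h4
            have h5 : T.t⁻¹ * w ∈ T.W s.n := by
              apply T.t_inv_mul_mem_Pi hw
              rw [hl]
              omega
            apply hP
            have h6 := hmem _ h5 _ hg
            have h7 : T.t⁻¹ * w * rep (T.t * g') = g' := by
              rw [mul_assoc, hwg]; group
            rwa [h7] at h6
          rw [hΦout x _ hP, hΦout x _ hP', ← hta]
          exact (hc _ (hZ g')).2
  · rintro x x' hx hx' hxx g hg _ ⟨w, hw, rfl⟩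
    have h1 := hxx (w * g) (hmem w hw g hg)
    rw [hΦin x w hw g hg, hΦin x' w hw g hg] at h1
    rw [map_mul, Equiv.Perm.mul_apply] at h1
    exact h1

theorem pin_le_ent (T : Tower) (s : Stage) (h : Fits T s) (F : Sys) (c : s.Ω → Fin F.k)
    (hc : c ∈ s.adm F) : Real.log (s.pin F c) / (s.Z.ncard : ℝ) ≤ T.ent F := by
  classical
  have : NeZero s.n := ⟨s.npos.ne'⟩
  have hcQ : c ∈ s.pinSet F c := ⟨hc, fun _ _ _ => rfl⟩
  have hq : ∀ y, 0 < cnt (s.pinSet F c) (blockOf h y) := fun y =>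
    (cnt_pos (Set.toFinite _)).2 ⟨c, hcQ⟩
  have hpin : 0 < s.pin F c := (cnt_pos (Set.toFinite _)).2 ⟨c, hcQ⟩
  have hlim := T.tendsto_cnt_W F
  have hsub : Tendsto (fun r : ℕ => s.n * r) atTop atTop := by
    refine tendsto_atTop_mono (fun r => ?_) tendsto_id
    exact Nat.le_mul_of_pos_left r s.npos
  refine ge_of_tendsto (hlim.comp hsub) ?_
  filter_upwards [eventually_gt_atTop 0] with r hr
  simp only [Function.comp]
  obtain ⟨Γ, hΓ, htile, -⟩ := T.exists_tiling (n := s.n) (r := r) (M := s.n * r) s.npos le_rfl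
  set Y := (Set.toFinite (s.Zp (-1))).toFinset with hY
  set q : s.Ω → ℕ := fun y => cnt (s.pinSet F c) (blockOf h y) with hqdef
  set C := cnt (F.shift T.a T.t) (T.W (s.n * r)) with hC
  have hYmem : ∀ y, y ∈ Y ↔ y ∈ s.Zp (-1) := fun y => Set.Finite.mem_toFinset _
  -- the logarithmic form of step (2)
  have h2 : ∀ y ∈ Y, ∑ g ∈ Γ, Real.log (q (h.rho g y)) ≤ Real.log C := by
    intro y hy
    have h3 := prod_le_cnt_W h F c hc r Γ hΓ htile y ((hYmem y).1 hy)
    rw [← Real.log_prod (fun g _ => by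
      have := hq (h.rho g y)
      exact_mod_cast this.ne')]
    apply Real.log_le_log
    · exact Finset.prod_pos fun g _ => by exact_mod_cast hq (h.rho g y)
    · exact_mod_cast h3
  have h1 : (Nat.card (T.A s.n) : ℝ) * Real.log (s.pin F c) ≤ ∑ y ∈ Y, Real.log (q y) := by
    have h3 := pin_pow_le h F c
    rw [← Real.log_prod (fun y _ => by
      have := hq y
      exact_mod_cast this.ne'), ← Real.log_pow]
    apply Real.log_le_log
    · have : (0 : ℝ) < s.pin F c := by exact_mod_cast hpin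
      positivity
    · exact h3
  have hperm : ∀ g ∈ Γ, ∑ y ∈ Y, Real.log (q (h.rho g y)) = ∑ y ∈ Y, Real.log (q y) := by
    intro g hg
    have hz : ((T.lv g : ℤ) : ZMod s.n) = 0 := (ZMod.intCast_zmod_eq_zero_iff_dvd _ _).2 (hΓ g hg).2
    have hmemY : ∀ y, h.rho g y ∈ Y ↔ y ∈ Y := by
      intro y
      rw [hYmem, hYmem]
      constructor
      · rintro ⟨hy1, hy2⟩
        have hy1' : y ∈ s.Z := (h.rho_mem_Z g).1 hy1
        rw [h.ph_rho g hy1', hz, add_zero] at hy2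
        exact ⟨hy1', hy2⟩
      · rintro ⟨hy1, hy2⟩
        refine ⟨(h.rho_mem_Z g).2 hy1, ?_⟩
        rw [h.ph_rho g hy1, hz, add_zero, hy2]
    refine Finset.sum_nbij (fun y => h.rho g y) (fun y hy => (hmemY y).2 hy)
      (fun y _ y' _ hyy => (h.rho g).injective hyy) ?_ (fun y _ => rfl)
    intro y hy
    refine ⟨(h.rho g).symm y, ?_, (h.rho g).apply_symm_apply y⟩
    have := (hmemY ((h.rho g).symm y)).1
    rw [(h.rho g).apply_symm_apply] at this
    exact this hy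
  have h4 : (Γ.card : ℝ) * ((Nat.card (T.A s.n) : ℝ) * Real.log (s.pin F c)) ≤
      (Y.card : ℝ) * Real.log C := by
    calc (Γ.card : ℝ) * ((Nat.card (T.A s.n) : ℝ) * Real.log (s.pin F c))
        ≤ (Γ.card : ℝ) * ∑ y ∈ Y, Real.log (q y) := mul_le_mul_of_nonneg_left h1 (by positivity)
      _ = ∑ g ∈ Γ, ∑ y ∈ Y, Real.log (q (h.rho g y)) := by
          rw [Finset.sum_congr rfl hperm, Finset.sum_const, nsmul_eq_mul]
      _ = ∑ y ∈ Y, ∑ g ∈ Γ, Real.log (q (h.rho g y)) := Finset.sum_comm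
      _ ≤ ∑ y ∈ Y, Real.log C := Finset.sum_le_sum h2
      _ = (Y.card : ℝ) * Real.log C := by rw [Finset.sum_const, nsmul_eq_mul]
  have hW : (T.W (s.n * r)).ncard = s.n * Nat.card (T.A s.n) * Γ.card := by
    have h5 : (T.W (s.n * r)).ncard = (T.W s.n ×ˢ (Γ : Set T.G)).ncard := by
      have h6 : T.W (s.n * r) = (fun p : T.G × T.G => p.1 * p.2) '' (T.W s.n ×ˢ (Γ : Set T.G)) :=
        htile.image_eq.symm
      rw [h6]
      exact Set.InjOn.ncard_image htile.injOn
    rw [h5, Set.ncard_prod, T.ncard_W, Set.ncard_coe_finset]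
  have hYc : s.n * Y.card = s.Z.ncard := by
    have := s.n_mul_ncard_Zp (-1)
    rwa [Set.ncard_eq_toFinset_card _ (Set.toFinite (s.Zp (-1)))] at this
  have hZpos : (0 : ℝ) < s.Z.ncard := by exact_mod_cast s.Z_ncard_pos
  have hWpos : (0 : ℝ) < (T.W (s.n * r)).ncard := by
    exact_mod_cast T.ncard_W_pos (Nat.mul_pos s.npos hr)
  rw [div_le_div_iff₀ hZpos hWpos]
  rw [hW, ← hYc]
  push_cast
  have hn : (0 : ℝ) ≤ s.n := by positivity
  have h7 := mul_le_mul_of_nonneg_left h4 hn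
  calc Real.log (s.pin F c) * ((s.n : ℝ) * Nat.card (T.A s.n) * Γ.card)
      = (s.n : ℝ) * ((Γ.card : ℝ) * ((Nat.card (T.A s.n) : ℝ) * Real.log (s.pin F c))) := by ring
    _ ≤ (s.n : ℝ) * ((Y.card : ℝ) * Real.log C) := h7
    _ = Real.log C * ((s.n : ℝ) * Y.card) := by ring

end Pool.Agent.H45.Ent
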