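/-
Unbalanced spots reduce the number of balanced pairs.  MP_f39e07_an, owner helper45.

PROOF.  Call a pair `(x₀,x₁) ∈ ind × ind` bad at `i` if on `U' i`: `x₀ b = [b ∈ U i ∧ par b = 0]`,
`x₁ b = [b ∈ U i ∧ par b = 1]`.  A pair bad at `i` has `{x₀ ≠ x₁} ⊇ U i`, so its difference set is
not balanced (restrict the potential to `U i`): `balPairs` contains no bad pair.
Let `N_J` = number of pairs in `ind × ind` which are not bad at any `i ∈ J`; show
`N_{J ∪ {i}} ≤ N_J (1 - 4^{-μ})`: group the pairs counted by `N_J` by their restriction to the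
complement of `U' i`; a group has at most `4^μ` elements, and replacing the restriction to `U' i` of
a pair by the bad pattern at `i` gives a pair of admissible labelings (the bad pattern is `0` on
`U' i \ U i`, `U i` has its `X`-neighbours in `U' i`, `U i`, `U' i` are `E`-saturated, and adjacent
elements of `U i` have different parity), still not bad at the `j ∈ J` (`U' j` is disjoint from
`U' i`).  So every group contains exactly one pair which is bad at `i`.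
-/
import Pool.Agent.H45.Ent.TwoCover

set_option autoImplicit false

namespace Pool.Agent.H45.Ent.Bip

variable {B : Type*}

section SpotsAux

open Classical in
/-- overwrite the labeling `x` on `U'` by the pattern `[b ∈ U ∧ par b = c]` -/
private noncomputable def ovw (𝔅 : Bip B) (U U' : Set B) (c : ZMod 2) (x : B → Bool) (b : B) :
    Bool :=
  if b ∈ U' then decide (b ∈ U ∧ 𝔅.par b = c) else x b

open Classical in
private lemma ovw_mem {𝔅 : Bip B} {U U' : Set B} (c : ZMod 2)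
    (hE : ∀ b b', 𝔅.E b b' → (b ∈ U ↔ b' ∈ U))
    (hE' : ∀ b b', 𝔅.E b b' → (b ∈ U' ↔ b' ∈ U'))
    (hX : ∀ b b', 𝔅.X b b' → (b ∈ U → b' ∈ U') ∧ (b' ∈ U → b ∈ U'))
    {x : B → Bool} (hx : x ∈ 𝔅.indSet) : ovw 𝔅 U U' c x ∈ 𝔅.indSet := by
  refine ⟨?_, ?_⟩
  · intro b b' h
    unfold ovw
    by_cases hb : b ∈ U'
    · have hb' := (hE' b b' h).1 hb
      rw [if_pos hb, if_pos hb']
      rw [decide_eq_decide, hE b b' h, 𝔅.hE b b' h]
    · have hb' : b' ∉ U' := fun h' => hb ((hE' b b' h).2 h')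
      rw [if_neg hb, if_neg hb']
      exact hx.1 b b' h
  · rintro b b' h ⟨h1, h2⟩
    unfold ovw at h1 h2
    by_cases hb : b ∈ U'
    · rw [if_pos hb] at h1
      obtain ⟨hbU, hbp⟩ := of_decide_eq_true h1
      have hb' := (hX b b' h).1 hbU
      rw [if_pos hb'] at h2
      obtain ⟨_, hbp'⟩ := of_decide_eq_true h2
      have h3 := 𝔅.hX b b' h
      rw [hbp, hbp'] at h3
      revert h3
      generalize c = c
      revert c
      decide
    · rw [if_neg hb] at h1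
      by_cases hb' : b' ∈ U'
      · rw [if_pos hb'] at h2
        obtain ⟨hbU, _⟩ := of_decide_eq_true h2
        exact hb ((hX b b' h).2 hbU)
      · rw [if_neg hb'] at h2
        exact hx.2 b b' h ⟨h1, h2⟩

open Classical in
/-- a pair which is bad on `U'` -/
private def BadP (𝔅 : Bip B) (U U' : Set B) (p : (B → Bool) × (B → Bool)) : Prop :=
  ∀ b ∈ U', p.1 b = decide (b ∈ U ∧ 𝔅.par b = 0) ∧ p.2 b = decide (b ∈ U ∧ 𝔅.par b = 1)

private lemma zmod2_cases (a : ZMod 2) : a = 0 ∨ a = 1 := by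
  revert a; decide

private lemma not_badP_of_bal {𝔅 : Bip B} {ν : B → ZMod 2} {U U' : Set B} (hsub : U ⊆ U')
    (hunb : ¬ 𝔅.Balanced ν U) {p : (B → Bool) × (B → Bool)} (hp : p ∈ 𝔅.balPairs ν) :
    ¬ BadP 𝔅 U U' p := by
  intro hbad
  obtain ⟨_, _, σ, hσ1, hσ2⟩ := hp
  apply hunb
  have hU : ∀ b ∈ U, p.1 b ≠ p.2 b := by
    intro b hb
    obtain ⟨h1, h2⟩ := hbad b (hsub hb)
    rw [h1, h2]
    rcases zmod2_cases (𝔅.par b) with h | h
    · simp [hb, h]
    · simp [hb, h]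
  exact ⟨σ, fun b hb b' hb' h => hσ1 b (hU b hb) b' (hU b' hb') h,
    fun b hb b' hb' h => hσ2 b (hU b hb) b' (hU b' hb') h⟩

/-- the counting step -/
private lemma step_count [Finite B] (𝔅 : Bip B) {U U' : Set B} {μ : ℕ} (hcard : U'.ncard ≤ μ)
    (hE : ∀ b b', 𝔅.E b b' → (b ∈ U ↔ b' ∈ U))
    (hE' : ∀ b b', 𝔅.E b b' → (b ∈ U' ↔ b' ∈ U'))
    (hX : ∀ b b', 𝔅.X b b' → (b ∈ U → b' ∈ U') ∧ (b' ∈ U → b ∈ U'))
    (S : Set ((B → Bool) × (B → Bool))) (hS : ∀ p ∈ S, p.1 ∈ 𝔅.indSet ∧ p.2 ∈ 𝔅.indSet)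
    (hSc : ∀ p ∈ S, (ovw 𝔅 U U' 0 p.1, ovw 𝔅 U U' 1 p.2) ∈ S) :
    ((S \ {p | BadP 𝔅 U U' p}).ncard : ℝ) ≤ (S.ncard : ℝ) * (1 - (1 / 4 : ℝ) ^ μ) := by
  classical
  set S1 : Set ((B → Bool) × (B → Bool)) := S ∩ {p | BadP 𝔅 U U' p} with hS1
  have hfin : S.Finite := Set.toFinite _
  have hkey : S.ncard ≤ 4 ^ μ * S1.ncard := by
    -- injection of `S` into `S1 × (patterns on U')`
    let T : Type _ := (↥U' → Bool) × (↥U' → Bool)
    have hT : Nat.card T = 4 ^ U'.ncard := by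
      have h1 : Nat.card (↥U' → Bool) = 2 ^ U'.ncard := by
        rw [Nat.card_fun, Nat.card_eq_fintype_card (α := Bool), Fintype.card_bool,
          Nat.card_coe_set_eq]
      show Nat.card ((↥U' → Bool) × (↥U' → Bool)) = _
      rw [Nat.card_prod, h1, ← mul_pow]
      norm_num
    let f : (B → Bool) × (B → Bool) → ((B → Bool) × (B → Bool)) × T := fun p =>
      ((ovw 𝔅 U U' 0 p.1, ovw 𝔅 U U' 1 p.2), (fun b => p.1 b, fun b => p.2 b))
    have hmaps : ∀ p ∈ S, f p ∈ S1 ×ˢ (Set.univ : Set T) := by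
      intro p hp
      refine ⟨⟨hSc p hp, ?_⟩, Set.mem_univ _⟩
      intro b hb
      constructor
      · show ovw 𝔅 U U' 0 p.1 b = _
        unfold ovw
        rw [if_pos hb]
      · show ovw 𝔅 U U' 1 p.2 b = _
        unfold ovw
        rw [if_pos hb]
    have hinj : Set.InjOn f S := by
      intro p _ q _ h
      have h1 : ovw 𝔅 U U' 0 p.1 = ovw 𝔅 U U' 0 q.1 := congrArg (fun z => z.1.1) h
      have h2 : ovw 𝔅 U U' 1 p.2 = ovw 𝔅 U U' 1 q.2 := congrArg (fun z => z.1.2) h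
      have h3 : (fun b : ↥U' => p.1 b) = (fun b : ↥U' => q.1 b) := congrArg (fun z => z.2.1) h
      have h4 : (fun b : ↥U' => p.2 b) = (fun b : ↥U' => q.2 b) := congrArg (fun z => z.2.2) h
      refine Prod.ext ?_ ?_
      · funext b
        by_cases hb : b ∈ U'
        · exact congrFun h3 ⟨b, hb⟩
        · have := congrFun h1 b
          unfold ovw at this
          rwa [if_neg hb, if_neg hb] at this
      · funext b
        by_cases hb : b ∈ U'
        · exact congrFun h4 ⟨b, hb⟩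
        · have := congrFun h2 b
          unfold ovw at this
          rwa [if_neg hb, if_neg hb] at this
    have h5 := Set.ncard_le_ncard_of_injOn f hmaps hinj (Set.toFinite _)
    rw [Set.ncard_prod, Set.ncard_univ, hT] at h5
    calc S.ncard ≤ S1.ncard * 4 ^ U'.ncard := h5
      _ ≤ S1.ncard * 4 ^ μ := by
          gcongr
          norm_num
      _ = 4 ^ μ * S1.ncard := mul_comm _ _
  have hsplit : (S \ {p | BadP 𝔅 U U' p}).ncard + S1.ncard = S.ncard := by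
    have := Set.ncard_inter_add_ncard_sdiff_eq_ncard S {p | BadP 𝔅 U U' p} hfin
    rw [hS1]
    omega
  have h6 : (S.ncard : ℝ) ≤ 4 ^ μ * (S1.ncard : ℝ) := by exact_mod_cast hkey
  have h7 : ((S \ {p | BadP 𝔅 U U' p}).ncard : ℝ) + (S1.ncard : ℝ) = (S.ncard : ℝ) := by
    exact_mod_cast hsplit
  have h8 : (S.ncard : ℝ) * (1 / 4 : ℝ) ^ μ ≤ (S1.ncard : ℝ) := by
    have h9 : (0:ℝ) < 4 ^ μ := by positivity
    rw [one_div, inv_pow, ← div_eq_mul_inv, div_le_iff₀ h9]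
    linarith
  nlinarith

end SpotsAux

theorem balPairs_le_of_spots [Finite B] (𝔅 : Bip B) (ν : B → ZMod 2) {ι : Type*} (I : Finset ι)
    (U U' : ι → Set B) (μ : ℕ)
    (hdisj : ∀ i ∈ I, ∀ j ∈ I, i ≠ j → Disjoint (U' i) (U' j))
    (hsub : ∀ i ∈ I, U i ⊆ U' i) (hcard : ∀ i ∈ I, (U' i).ncard ≤ μ)
    (hE : ∀ i ∈ I, ∀ b b', 𝔅.E b b' → (b ∈ U i ↔ b' ∈ U i))
    (hE' : ∀ i ∈ I, ∀ b b', 𝔅.E b b' → (b ∈ U' i ↔ b' ∈ U' i))
    (hX : ∀ i ∈ I, ∀ b b', 𝔅.X b b' → (b ∈ U i → b' ∈ U' i) ∧ (b' ∈ U i → b ∈ U' i))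
    (hunb : ∀ i ∈ I, ¬ 𝔅.Balanced ν (U i)) :
    ((𝔅.balPairs ν).ncard : ℝ) ≤ (𝔅.ind : ℝ) ^ 2 * (1 - (1 / 4 : ℝ) ^ μ) ^ I.card := by
  classical
  have hmain : ∀ J : Finset ι, J ⊆ I →
      (({p : (B → Bool) × (B → Bool) | p.1 ∈ 𝔅.indSet ∧ p.2 ∈ 𝔅.indSet ∧
        ∀ i ∈ J, ¬ BadP 𝔅 (U i) (U' i) p}).ncard : ℝ) ≤
        (𝔅.ind : ℝ) ^ 2 * (1 - (1 / 4 : ℝ) ^ μ) ^ J.card := by
    intro J
    induction J using Finset.induction_on with
    | empty =>
      intro _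
      have : {p : (B → Bool) × (B → Bool) | p.1 ∈ 𝔅.indSet ∧ p.2 ∈ 𝔅.indSet ∧
          ∀ i ∈ (∅ : Finset ι), ¬ BadP 𝔅 (U i) (U' i) p} = 𝔅.indSet ×ˢ 𝔅.indSet := by
        ext p
        simp [Set.mem_prod]
      rw [this, Set.ncard_prod, Finset.card_empty, pow_zero, mul_one, sq]
      push_cast
      rfl
    | insert i J hiJ ih =>
      intro hJI
      have hJ : J ⊆ I := fun j hj => hJI (Finset.mem_insert_of_mem hj)
      have hiI : i ∈ I := hJI (Finset.mem_insert_self i J)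
      have ih' := ih hJ
      set S : Set ((B → Bool) × (B → Bool)) := {p | p.1 ∈ 𝔅.indSet ∧ p.2 ∈ 𝔅.indSet ∧
        ∀ i ∈ J, ¬ BadP 𝔅 (U i) (U' i) p} with hSdef
      have hSc : ∀ p ∈ S, (ovw 𝔅 (U i) (U' i) 0 p.1, ovw 𝔅 (U i) (U' i) 1 p.2) ∈ S := by
        rintro p ⟨h1, h2, h3⟩
        refine ⟨ovw_mem 0 (hE i hiI) (hE' i hiI) (hX i hiI) h1,
          ovw_mem 1 (hE i hiI) (hE' i hiI) (hX i hiI) h2, ?_⟩
        intro j hj hbad
        apply h3 j hj
        intro b hb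
        have hne : i ≠ j := fun h => hiJ (h ▸ hj)
        have hbi : b ∉ U' i := fun h =>
          Set.disjoint_left.mp (hdisj i hiI j (hJ hj) hne) h hb
        have h4 := hbad b hb
        simp only [ovw, if_neg hbi] at h4
        exact h4
      have hstep := step_count 𝔅 (hcard i hiI) (hE i hiI) (hE' i hiI) (hX i hiI) S
        (fun p hp => ⟨hp.1, hp.2.1⟩) hSc
      have hset : {p : (B → Bool) × (B → Bool) | p.1 ∈ 𝔅.indSet ∧ p.2 ∈ 𝔅.indSet ∧
          ∀ k ∈ insert i J, ¬ BadP 𝔅 (U k) (U' k) p} = S \ {p | BadP 𝔅 (U i) (U' i) p} := by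
        ext p
        simp only [hSdef, Set.mem_ofPred_eq, Set.mem_sdiff, Finset.mem_insert, forall_eq_or_imp]
        tauto
      rw [hset, Finset.card_insert_of_notMem hiJ, pow_succ]
      have h0 : (0 : ℝ) ≤ 1 - (1 / 4 : ℝ) ^ μ := by
        have : (1 / 4 : ℝ) ^ μ ≤ 1 := pow_le_one₀ (by norm_num) (by norm_num)
        linarith
      calc _ ≤ _ := hstep
        _ ≤ ((𝔅.ind : ℝ) ^ 2 * (1 - (1 / 4 : ℝ) ^ μ) ^ J.card) * (1 - (1 / 4 : ℝ) ^ μ) :=
            mul_le_mul_of_nonneg_right ih' h0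
        _ = _ := by ring
  refine le_trans ?_ (hmain I (Finset.Subset.refl I))
  have hsub' : 𝔅.balPairs ν ⊆ {p : (B → Bool) × (B → Bool) | p.1 ∈ 𝔅.indSet ∧ p.2 ∈ 𝔅.indSet ∧
        ∀ i ∈ I, ¬ BadP 𝔅 (U i) (U' i) p} := by
    intro p hp
    exact ⟨hp.1, hp.2.1, fun i hi => not_badP_of_bal (hsub i hi) (hunb i hi) hp⟩
  exact_mod_cast Set.ncard_le_ncard hsub' (Set.toFinite _)

end Pool.Agent.H45.Ent.Bip
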