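/-
The tower defined by an increasing sequence of stages; the word problem.
MP_f39e07_an, owner helper45.

PROOF.  Let `lvF : F2 →* Multiplicative ℤ`, `fa ↦ 0`, `ft ↦ 1`, and
`K = {w | lvF w = 1 ∧ ∀ i, (s i).act w = 1}` (a normal subgroup, an infimum of kernels).
`G = F2 ⧸ K`, `a, t` the images of `fa, ft`; `lev` descends.  `φ w = 1 ↔ w ∈ K`.
Window `n` is finite: choose `i` with `n ≤ (s i).n`.  For `w ∈ win fa ft n` with
`(s i).act w = 1`: for `j ≥ i`, `(s j).act w = 1` by `Le.ker` (and transitivity), for `j < i` by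
`Le.act_one`; the level of `w` is 0.  So `w ∈ K`: the window of `G` injects into the finite group
`Perm (s i).Ω`.  The same argument proves `Fits`.
Nonstable: if `a_n ∈ A(n)` in `G` choose `i` with `n + 1 ≤ (s i).n =: N`; conjugating by
`t^(N-1-n)`: `a_{N-1} ∈ A(N-1)` in `G`, hence under `(s i).act`, contradicting `Good`.
`win_of_length`: a word `L` of length `ℓ` and level 0; `ft^ℓ (mk L) ft^{-ℓ}` is a product of
conjugates `ft^e fa^{±1} ft^{-e}` with `0 ≤ e ≤ 2ℓ`.  (Induction on `L`: for every list `L` of length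
`ℓ` and every `e` with `ℓ ≤ e`... : `ft^e * mk L = h * ft^{e + lv L}` with `h ∈ win fa ft (e+ℓ+1)`.)
-/
import Pool.Agent.H45.Ent.Glue

set_option autoImplicit false

namespace Pool.Agent.H45.Ent

/-- the level of a word -/
def lvF : F2 →* Multiplicative ℤ := homOf (1 : Multiplicative ℤ) (Multiplicative.ofAdd 1)

private theorem homOf_self (w : F2) : homOf fa ft w = w := by
  have : homOf fa ft = MonoidHom.id F2 := by
    apply FreeGroup.ext_hom
    intro i
    fin_cases i <;> simp [homOf, fa, ft]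
  rw [this]; rfl

private theorem lvF_win {n : ℕ} {w : F2} (hw : w ∈ win fa ft n) : lvF w = 1 := by
  induction hw using Subgroup.closure_induction with
  | mem x hx =>
    obtain ⟨i, _, rfl⟩ := hx
    rw [map_aj]
    simp [aj, lvF]
  | one => simp
  | mul x y _ _ hx hy => simp [hx, hy]
  | inv x _ hx => simp [hx]

private theorem Le_of_le {s : ℕ → Stage} (hle : ∀ i, (s i).Le (s (i + 1))) {i j : ℕ} (h : i ≤ j) :
    (s i).Le (s j) := by
  induction j, h using Nat.le_induction with
  | base => exact Stage.Le.refl _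
  | succ j _ ih => exact ih.trans (hle j)

private theorem act_all {s : ℕ → Stage} (hle : ∀ i, (s i).Le (s (i + 1))) {i : ℕ} {w : F2}
    (hw : w ∈ win fa ft (s i).n) (h1 : (s i).act w = 1) (j : ℕ) : (s j).act w = 1 := by
  rcases le_total i j with h | h
  · exact (Le_of_le hle h).ker w hw h1
  · exact (Le_of_le hle h).act_one h1

theorem exists_limit (s : ℕ → Stage) (hle : ∀ i, (s i).Le (s (i + 1)))
    (hn : ∀ N, ∃ i, N ≤ (s i).n) :
    ∃ T : Tower, (∀ i, Fits T (s i)) ∧
      (∀ w : F2, T.φ w = 1 ↔ lvF w = 1 ∧ ∀ i, (s i).act w = 1) ∧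
      ((∀ i, (s i).Good) → T.Nonstable) := by
  classical
  let N : Subgroup F2 := lvF.ker ⊓ ⨅ i, ((s i).act).ker
  have hN : ∀ w : F2, w ∈ N ↔ lvF w = 1 ∧ ∀ i, (s i).act w = 1 := by
    intro w
    simp only [N, Subgroup.mem_inf, MonoidHom.mem_ker, Subgroup.mem_iInf]
  have : N.Normal := by
    refine ⟨fun w hw g => ?_⟩
    rw [hN] at hw ⊢
    refine ⟨?_, fun i => ?_⟩
    · rw [map_mul, map_mul, hw.1, mul_one, ← map_mul, mul_inv_cancel, map_one]
    · rw [map_mul, map_mul, hw.2 i, mul_one, ← map_mul, mul_inv_cancel, map_one]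
  let π : F2 →* F2 ⧸ N := QuotientGroup.mk' N
  have hπ : ∀ w, π w = 1 ↔ w ∈ N := fun w => QuotientGroup.eq_one_iff w
  have hwin : ∀ {i : ℕ} {w : F2}, w ∈ win fa ft (s i).n → (s i).act w = 1 → π w = 1 := by
    intro i w hw h1
    rw [hπ, hN]
    exact ⟨lvF_win hw, act_all hle hw h1⟩
  have hfin : ∀ n, Finite (win (π fa) (π ft) n) := by
    intro n
    obtain ⟨i, hi⟩ := hn n
    have hex : ∀ σ : Equiv.Perm (s i).Ω, ∃ w : F2,
        (∃ v ∈ win fa ft n, (s i).act v = σ) → w ∈ win fa ft n ∧ (s i).act w = σ := by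
      intro σ
      by_cases h : ∃ v ∈ win fa ft n, (s i).act v = σ
      · obtain ⟨v, hv, hσ⟩ := h
        exact ⟨v, fun _ => ⟨hv, hσ⟩⟩
      · exact ⟨1, fun h' => absurd h' h⟩
    choose f hf using hex
    have h1 : (win (π fa) (π ft) n : Set (F2 ⧸ N)) ⊆ Set.range (fun σ => π (f σ)) := by
      intro g hg
      obtain ⟨w, hw, rfl⟩ := exists_of_mem_win fa ft π hg
      refine ⟨(s i).act w, ?_⟩
      obtain ⟨h2, h3⟩ := hf ((s i).act w) ⟨w, hw, rfl⟩
      have h4 : π ((f ((s i).act w))⁻¹ * w) = 1 := by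
        apply hwin (i := i)
        · exact win_mono _ _ hi (Subgroup.mul_mem _ (Subgroup.inv_mem _ h2) hw)
        · rw [map_mul, map_inv, h3, inv_mul_cancel]
      rw [map_mul, map_inv, inv_mul_eq_one] at h4
      exact h4
    exact Set.finite_coe_iff.2 ((Set.finite_range _).subset h1)
  let T : Tower :=
    { G := F2 ⧸ N
      a := π fa
      t := π ft
      lev := QuotientGroup.lift N lvF (fun w hw => ((hN w).1 hw).1)
      lev_a := by
        show QuotientGroup.lift N lvF _ (QuotientGroup.mk' N fa) = 1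
        rw [QuotientGroup.mk'_apply, QuotientGroup.lift_mk]
        simp [lvF]
      lev_t := by
        show QuotientGroup.lift N lvF _ (QuotientGroup.mk' N ft) = _
        rw [QuotientGroup.mk'_apply, QuotientGroup.lift_mk]
        simp [lvF]
      gen := by
        have h1 : Subgroup.closure ({fa, ft} : Set F2) = ⊤ := by
          rw [eq_top_iff, ← FreeGroup.closure_range_of, Subgroup.closure_le]
          rintro _ ⟨i, rfl⟩
          apply Subgroup.subset_closure
          fin_cases i
          · left; rfl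
          · right; rfl
        have h2 := congrArg (Subgroup.map π) h1
        rw [MonoidHom.map_closure, Set.image_pair,
          Subgroup.map_top_of_surjective π (QuotientGroup.mk'_surjective N)] at h2
        exact h2
      fin := hfin }
  have hφ : ∀ w, T.φ w = π w := by
    intro w
    have := map_homOf π fa ft w
    rw [homOf_self] at this
    exact this.symm
  have hword : ∀ w : F2, T.φ w = 1 ↔ lvF w = 1 ∧ ∀ i, (s i).act w = 1 := by
    intro w
    rw [hφ, hπ, hN]
  refine ⟨T, fun i => ⟨fun w hw => ((hword w).1 hw).2 i, fun w hw h1 => ?_⟩, hword, ?_⟩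
  · rw [hφ]
    exact hwin hw h1
  · intro hgood n hmem
    obtain ⟨i, hi⟩ := hn (n + 1)
    obtain ⟨M, hM⟩ : ∃ M, (s i).n - 1 = M := ⟨_, rfl⟩
    have hnM : M - n + n = M := by omega
    have h1 := conj_mem_win T.a T.t (M - n) hmem
    rw [aj_conj, hnM] at h1
    obtain ⟨w, hw, hwe⟩ := T.exists_word h1
    have h2 : T.φ (aj fa ft M) = aj T.a T.t M := by
      rw [map_aj, T.φ_fa, T.φ_ft]
    have h3 : T.φ (w⁻¹ * aj fa ft M) = 1 := by
      rw [map_mul, map_inv, h2, hwe, inv_mul_cancel]
    have h4 := ((hword _).1 h3).2 i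
    rw [map_mul, map_inv, inv_mul_eq_one] at h4
    have h5 := hgood i w (by rw [hM]; exact hw)
    rw [hM] at h5
    exact h5 h4

private theorem mk_cons (x : Fin 2 × Bool) (L : List (Fin 2 × Bool)) :
    (FreeGroup.mk (x :: L) : F2) = FreeGroup.mk [x] * FreeGroup.mk L := by
  rw [FreeGroup.mul_mk]; rfl

private theorem win_of_length_aux (L : List (Fin 2 × Bool)) : ∀ e : ℕ, L.length ≤ e →
    ∃ h ∈ win fa ft (e + L.length + 1), ∃ m : ℕ, ft ^ e * FreeGroup.mk L = h * ft ^ m := by
  induction L with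
  | nil =>
    intro e _
    refine ⟨1, Subgroup.one_mem _, e, ?_⟩
    have : (FreeGroup.mk [] : F2) = 1 := rfl
    rw [this]; simp
  | cons x L ih =>
    intro e he
    rw [List.length_cons] at he
    rw [mk_cons, List.length_cons]
    obtain ⟨i, b⟩ := x
    fin_cases i
    · -- letter `fa`
      obtain ⟨h, hh, m, hm⟩ := ih e (by omega)
      have hh' : h ∈ win fa ft (e + (L.length + 1) + 1) := win_mono _ _ (by omega) hh
      have ha : aj fa ft e ∈ win fa ft (e + (L.length + 1) + 1) := aj_mem_win _ _ (by omega)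
      cases b
      · refine ⟨(aj fa ft e)⁻¹ * h, Subgroup.mul_mem _ (Subgroup.inv_mem _ ha) hh', m, ?_⟩
        have h1 : (FreeGroup.mk [((0 : Fin 2), false)] : F2) = fa⁻¹ := rfl
        show ft ^ e * (FreeGroup.mk [((0 : Fin 2), false)] * FreeGroup.mk L) = _
        rw [h1, mul_assoc, ← hm, aj]; group
      · refine ⟨aj fa ft e * h, Subgroup.mul_mem _ ha hh', m, ?_⟩
        have h1 : (FreeGroup.mk [((0 : Fin 2), true)] : F2) = fa := rfl
        show ft ^ e * (FreeGroup.mk [((0 : Fin 2), true)] * FreeGroup.mk L) = _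
        rw [h1, mul_assoc, ← hm, aj]; group
    · cases b
      · -- letter `ft⁻¹`
        obtain ⟨e', rfl⟩ : ∃ e', e = e' + 1 := ⟨e - 1, by omega⟩
        obtain ⟨h, hh, m, hm⟩ := ih e' (by omega)
        refine ⟨h, win_mono _ _ (by omega) hh, m, ?_⟩
        have h1 : (FreeGroup.mk [((1 : Fin 2), false)] : F2) = ft⁻¹ := rfl
        show ft ^ (e' + 1) * (FreeGroup.mk [((1 : Fin 2), false)] * FreeGroup.mk L) = _
        rw [h1, ← hm, pow_succ]; group
      · -- letter `ft`
        obtain ⟨h, hh, m, hm⟩ := ih (e + 1) (by omega)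
        refine ⟨h, win_mono _ _ (by omega) hh, m, ?_⟩
        have h1 : (FreeGroup.mk [((1 : Fin 2), true)] : F2) = ft := rfl
        show ft ^ e * (FreeGroup.mk [((1 : Fin 2), true)] * FreeGroup.mk L) = _
        rw [h1, ← hm, pow_succ]; group

theorem win_of_length (L : List (Fin 2 × Bool)) (h : lvF (FreeGroup.mk L) = 1) :
    ft ^ L.length * FreeGroup.mk L * (ft ^ L.length)⁻¹ ∈ win fa ft (2 * L.length + 1) := by
  obtain ⟨g, hg, m, hm⟩ := win_of_length_aux L L.length le_rfl
  have hft : lvF ft = Multiplicative.ofAdd 1 := by simp [lvF]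
  have h1 := congrArg lvF hm
  rw [map_mul, map_mul, h, lvF_win hg, mul_one, one_mul, map_pow, map_pow, hft,
    ← ofAdd_nsmul, ← ofAdd_nsmul] at h1
  have h2 := congrArg Multiplicative.toAdd h1
  simp only [toAdd_ofAdd, nsmul_eq_mul, mul_one] at h2
  have h3 : L.length = m := by exact_mod_cast h2
  rw [hm, ← h3, mul_assoc, mul_inv_cancel, mul_one]
  exact win_mono _ _ (by omega) hg

/-- the word problem of a limit tower -/
theorem word_iff {s : ℕ → Stage} {T : Tower} (hfit : ∀ i, Fits T (s i))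
    (hn : ∀ N, ∃ i, N ≤ (s i).n) (L : List (Fin 2 × Bool)) :
    T.φ (FreeGroup.mk L) = 1 ↔ lvF (FreeGroup.mk L) = 1 ∧
      ∃ i, 2 * L.length + 1 ≤ (s i).n ∧ (s i).act (FreeGroup.mk L) = 1 := by
  constructor
  · intro h
    refine ⟨?_, ?_⟩
    · have h1 := map_homOf T.lev T.a T.t (FreeGroup.mk L)
      rw [T.lev_a, T.lev_t] at h1
      have h2 : homOf T.a T.t (FreeGroup.mk L) = 1 := h
      rw [h2, map_one] at h1
      exact h1.symm
    · obtain ⟨i, hi⟩ := hn (2 * L.length + 1)
      exact ⟨i, hi, (hfit i).triv _ h⟩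
  · rintro ⟨h, i, hi, h1⟩
    have h2 := win_of_length L h
    have h3 := (hfit i).inj _ (win_mono _ _ hi h2) (by
      rw [map_mul, map_mul, h1, mul_one, ← map_mul, mul_inv_cancel, map_one])
    rw [map_mul, map_mul, map_inv] at h3
    have h4 : T.φ (ft ^ L.length) * T.φ (FreeGroup.mk L) = T.φ (ft ^ L.length) := by
      rwa [mul_inv_eq_one] at h3
    exact mul_eq_left.1 h4

end Pool.Agent.H45.Ent
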