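/-
Extensions of good stages; nonstable towers fitting a good stage.
MP_f39e07_an, owner helper45.

PROOF of `exists_nonstable_ext`.  `n = s.n`, `G = Perm s.Ω`, `a = s.al`, `t = s.ta`,
`H = win a t n` (finite), `C = win a t (n-1)`, `x = aj a t (n-1) ∈ H`, `x ∉ C` (good).
`τ₀ = tau0 a t n` (FreeSys.lean).  On `Y₁ = H × ZMod 2` (or `H × Bool`) put
`α (h,i) = (a h, i)`, `τ (h,i) = (τ₀ h, if h ∈ C x then i + 1 else i)` (`h ∈ C x` means
`h x⁻¹ ∈ C`; invariant under left multiplication by `C`), so `act_of_smul` applies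
(`H` acts by left multiplication on the first coordinate): every `w ∈ win fa ft n` acts on `Y₁` by
`(h,i) ↦ (homOf a t w * h, i)`.  In `Ω₁ = Ω ⊕ Y₁` the element `a_n = t a_{n-1} t⁻¹` maps
`τ (1, 0) = (τ₀ 1, 0)` to `τ (x·(1,0)) = τ (x, 0) = (τ₀ x, 1)`, so it changes the second coordinate,
while `win n` preserves it (note `1 ∉ C x` because `x ∉ C`): `a_n ∉ win n` in `Perm Ω₁`.
Now `G₁ = Perm Ω₁` with `a₁ = sumCongr a α`, `t₁ = sumCongr t τ`, and glue the free system
`ZMod (n+1) × win a₁ t₁ (n+1)` (`frAl`, `frTa`, `frAct_fix`, `frAct_one`) onto `Ω₁`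
(`Stage.glue`).  The embedding is `Ω → Ω ⊕ Y₁ → (Ω ⊕ Y₁) ⊕ ...`.  Words of `win fa ft n` trivial on
`Ω` are trivial on `Y₁` and on the free part.  Good: since `a_n ∉ win n` already on `Ω₁`.

PROOF of `exists_fit_nonstable`: iterate `exists_nonstable_ext` and use `exists_limit`.
-/
import Pool.Agent.H45.Ent.FreeSys
import Pool.Agent.H45.Ent.Limit

set_option autoImplicit false

namespace Pool.Agent.H45.Ent

section shear

variable {G : Type*} [Group G] (a t : G) (n : ℕ) (hn : 0 < n) [Finite (win a t n)]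

open Classical in
/-- the cocycle: `1` on the coset `C x`, `C = A(n-1)`, `x = a_{n-1}` -/
noncomputable def shEps (h : win a t n) : ZMod 2 :=
  if (h : G) * (aj a t (n - 1))⁻¹ ∈ win a t (n - 1) then 1 else 0

/-- the `a`-permutation of the twisted double -/
def shAl : Equiv.Perm (win a t n × ZMod 2) :=
  Equiv.prodCongr (Equiv.mulLeft ⟨a, a_mem_win a t hn⟩) (Equiv.refl _)

/-- the `t`-permutation of the twisted double -/
noncomputable def shTa : Equiv.Perm (win a t n × ZMod 2) :=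
  Equiv.prodShear (tau0 a t n hn) (fun h => Equiv.addRight (shEps a t n h))

theorem shTa_apply (p : win a t n × ZMod 2) :
    shTa a t n hn p = (tau0 a t n hn p.1, p.2 + shEps a t n p.1) := rfl

theorem shAct {w : F2} (hw : w ∈ win fa ft n) (p : win a t n × ZMod 2) :
    homOf (shAl a t n hn) (shTa a t n hn) w p = (⟨homOf a t w, homOf_win a t hw⟩ * p.1, p.2) := by
  let inst : MulAction (win a t n) (win a t n × ZMod 2) :=
    { smul := fun x p => (x * p.1, p.2)
      one_smul := fun p => by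
        show (1 * p.1, p.2) = p
        rw [one_mul]
      mul_smul := fun x y p => by
        show (x * y * p.1, p.2) = (x * (y * p.1), p.2)
        rw [mul_assoc] }
  exact act_of_smul a t n (shAl a t n hn) (shTa a t n hn)
    (by
      intro x hx y
      have h1 : x = ⟨a, a_mem_win a t hn⟩ := Subtype.ext hx
      rw [h1]
      rfl)
    (by
      intro c c' hc hc' y
      show (tau0 a t n hn (c * y.1), y.2 + shEps a t n (c * y.1)) =
        (c' * tau0 a t n hn y.1, y.2 + shEps a t n y.1)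
      have h1 : tau0 a t n hn (c * y.1) = c' * tau0 a t n hn y.1 :=
        (exists_tau0 a t n hn).choose_spec c c' hc hc' y.1
      have h2 : shEps a t n (c * y.1) = shEps a t n y.1 := by
        unfold shEps
        have h3 : (((c * y.1 : win a t n) : G) * (aj a t (n - 1))⁻¹ ∈ win a t (n - 1)) ↔
            ((y.1 : G) * (aj a t (n - 1))⁻¹ ∈ win a t (n - 1)) := by
          rw [Subgroup.coe_mul, mul_assoc]
          exact Subgroup.mul_mem_cancel_left _ hc
        by_cases h4 : ((y.1 : G) * (aj a t (n - 1))⁻¹ ∈ win a t (n - 1))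
        · rw [if_pos h4, if_pos (h3.2 h4)]
        · rw [if_neg h4, if_neg (fun h => h4 (h3.1 h))]
      rw [h1, h2])
    w hw ⟨homOf a t w, homOf_win a t hw⟩ rfl p

/-- in the twisted double `a_n` is not in the window group `A(n)` -/
theorem sh_ne (hx : aj a t (n - 1) ∉ win a t (n - 1)) {w : F2} (hw : w ∈ win fa ft n) :
    homOf (shAl a t n hn) (shTa a t n hn) w ≠
      homOf (shAl a t n hn) (shTa a t n hn) (aj fa ft n) := by
  intro heq
  have h0 : shTa a t n hn (1, 0) = (tau0 a t n hn 1, 0) := by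
    rw [shTa_apply]
    have : shEps a t n 1 = 0 := by
      unfold shEps
      rw [if_neg]
      intro h
      apply hx
      rw [Subgroup.coe_one, one_mul] at h
      exact (Subgroup.inv_mem_iff _).1 h
    simp only [this, add_zero]
  have h1 : aj fa ft n = ft * aj fa ft (n - 1) * ft⁻¹ := by
    have := aj_conj fa ft 1 (n - 1)
    rw [pow_one, add_comm, Nat.sub_add_cancel hn] at this
    exact this.symm
  have hxw : aj fa ft (n - 1) ∈ win fa ft n := aj_mem_win _ _ (by omega)
  have h2 := Equiv.congr_fun heq (shTa a t n hn (1, 0))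
  have h3 : homOf (shAl a t n hn) (shTa a t n hn) (aj fa ft n) (shTa a t n hn (1, 0)) =
      shTa a t n hn (homOf (shAl a t n hn) (shTa a t n hn) (aj fa ft (n - 1)) (1, 0)) := by
    rw [h1, map_mul, map_mul, map_inv, homOf_ft, Equiv.Perm.mul_apply, Equiv.Perm.mul_apply,
      ← Equiv.Perm.mul_apply (shTa a t n hn)⁻¹, inv_mul_cancel, Equiv.Perm.one_apply]
  rw [h3, h0, shAct a t n hn hxw, shAct a t n hn hw] at h2
  have h4 := congrArg Prod.snd h2
  rw [shTa_apply] at h4
  simp only [mul_one, zero_add] at h4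
  have h5 : shEps a t n ⟨homOf a t (aj fa ft (n - 1)), homOf_win a t hxw⟩ = 1 := by
    unfold shEps
    rw [if_pos]
    show homOf a t (aj fa ft (n - 1)) * (aj a t (n - 1))⁻¹ ∈ win a t (n - 1)
    rw [map_aj, homOf_fa, homOf_ft, mul_inv_cancel]
    exact Subgroup.one_mem _
  rw [h5] at h4
  exact absurd h4 (by decide)

end shear

theorem exists_nonstable_ext (s : Stage) (hs : s.Good) :
    ∃ s' : Stage, s.Le s' ∧ s'.Good ∧ s'.n = s.n + 1 := by
  classical
  have hn := s.npos
  have hx : aj s.al s.ta (s.n - 1) ∉ win s.al s.ta (s.n - 1) := by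
    intro h
    obtain ⟨w, hw, hw'⟩ := exists_word s.al s.ta h
    refine hs w hw ?_
    show homOf s.al s.ta w = homOf s.al s.ta (aj fa ft (s.n - 1))
    rw [hw', map_aj, homOf_fa, homOf_ft]
  -- the twisted double
  let Y₁ : Type := win s.al s.ta s.n × ZMod 2
  let α : Equiv.Perm Y₁ := shAl s.al s.ta s.n hn
  let τ : Equiv.Perm Y₁ := shTa s.al s.ta s.n hn
  let a₁ : Equiv.Perm (s.Ω ⊕ Y₁) := Equiv.sumCongr s.al α
  let t₁ : Equiv.Perm (s.Ω ⊕ Y₁) := Equiv.sumCongr s.ta τ
  have hfinY : Finite Y₁ := inferInstanceAs (Finite (win s.al s.ta s.n × ZMod 2))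
  have hone : ∀ w ∈ win fa ft s.n, s.act w = 1 → homOf a₁ t₁ w = 1 := by
    intro w hw h1
    have h2 : homOf α τ w = 1 := by
      refine Equiv.ext fun p => ?_
      have h3 := shAct s.al s.ta s.n hn hw p
      have h4 : (⟨homOf s.al s.ta w, homOf_win s.al s.ta hw⟩ : win s.al s.ta s.n) = 1 :=
        Subtype.ext h1
      rw [h4, one_mul] at h3
      exact h3
    have h5 : homOf a₁ t₁ w = Equiv.sumCongr (homOf s.al s.ta w) (homOf α τ w) :=
      homOf_sumCongr _ _ _ _ w
    rw [h5, h2, show homOf s.al s.ta w = 1 from h1]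
    exact Equiv.Perm.sumCongr_one
  have hfree : ∀ w ∈ win fa ft (s.n + 1), ∀ y,
      homOf (frAl a₁ t₁ (s.n + 1) (Nat.succ_pos _)) (frTa a₁ t₁ (s.n + 1) (Nat.succ_pos _)) w y = y →
      homOf a₁ t₁ w = 1 ∧
        homOf (frAl a₁ t₁ (s.n + 1) (Nat.succ_pos _)) (frTa a₁ t₁ (s.n + 1) (Nat.succ_pos _)) w = 1 := by
    intro w hw y hy
    have h1 : homOf a₁ t₁ w = 1 := frAct_fix a₁ t₁ _ _ hw y hy
    exact ⟨h1, frAct_one a₁ t₁ _ _ hw h1⟩
  have hne : Nonempty (ZMod (s.n + 1) × win a₁ t₁ (s.n + 1)) := ⟨(0, 1)⟩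
  let s' : Stage := Stage.glue a₁ t₁ (frAl a₁ t₁ (s.n + 1) (Nat.succ_pos _))
    (frTa a₁ t₁ (s.n + 1) (Nat.succ_pos _)) (s.n + 1) (Nat.succ_pos _) Prod.fst
    (fun _ => rfl) (fun _ => rfl) hfree
  have hact : ∀ w, s'.act w = 1 ↔ homOf a₁ t₁ w = 1 ∧
      homOf (frAl a₁ t₁ (s.n + 1) (Nat.succ_pos _)) (frTa a₁ t₁ (s.n + 1) (Nat.succ_pos _)) w = 1 :=
    fun w => Stage.glue_act_eq_one _ _ _ _ _ _ _ _ _ _ w
  refine ⟨s', ⟨Nat.le_succ _, ?_, ?_⟩, ?_, rfl⟩
  · exact ⟨⟨fun x => Sum.inl (Sum.inl x), fun x y h => Sum.inl_injective (Sum.inl_injective h)⟩,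
      fun _ => rfl, fun _ => rfl⟩
  · intro w hw h1
    have h2 := hone w hw h1
    rw [hact]
    exact ⟨h2, frAct_one a₁ t₁ _ _ (win_mono _ _ (Nat.le_succ _) hw) h2⟩
  · intro w hw heq
    have hw' : w ∈ win fa ft s.n := hw
    have heq' : s'.act w = s'.act (aj fa ft s.n) := heq
    have h1 : s'.act (w⁻¹ * aj fa ft s.n) = 1 := by
      rw [map_mul, map_inv, ← heq', inv_mul_cancel]
    have h2 := ((hact _).1 h1).1
    rw [map_mul, map_inv, inv_mul_eq_one] at h2
    have h3 : homOf a₁ t₁ w = Equiv.sumCongr (homOf s.al s.ta w) (homOf α τ w) :=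
      homOf_sumCongr _ _ _ _ w
    have h4 : homOf a₁ t₁ (aj fa ft s.n) = Equiv.sumCongr (homOf s.al s.ta (aj fa ft s.n))
        (homOf α τ (aj fa ft s.n)) := homOf_sumCongr _ _ _ _ _
    refine sh_ne s.al s.ta s.n hn hx hw' ?_
    refine Equiv.ext fun p => ?_
    have h5 := Equiv.congr_fun h2 (Sum.inr p)
    rw [h3, h4] at h5
    exact Sum.inr_injective h5

theorem exists_fit_nonstable (s : Stage) (hs : s.Good) : ∃ T : Tower, Fits T s ∧ T.Nonstable := by
  choose! e he using exists_nonstable_ext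
  let f : ℕ → Stage := fun i => Nat.rec s (fun _ s' => e s') i
  have hf : ∀ i, (f i).Good := by
    intro i
    induction i with
    | zero => exact hs
    | succ i ih => exact (he _ ih).2.1
  have hle : ∀ i, (f i).Le (f (i + 1)) := fun i => (he _ (hf i)).1
  have hn : ∀ i, (f i).n = s.n + i := by
    intro i
    induction i with
    | zero => rfl
    | succ i ih =>
      have h1 : (f (i + 1)).n = (f i).n + 1 := (he _ (hf i)).2.2
      rw [h1, ih, add_assoc]
  obtain ⟨T, hT1, _, hT2⟩ := exists_limit f hle (fun N => ⟨N, by rw [hn]; omega⟩)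
  exact ⟨T, hT1 0, hT2 hf⟩

end Pool.Agent.H45.Ent
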