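/-
Non-rigidity of the hard core entropy.  MP_f39e07_an, owner helper45.

PROOF of `exists_smaller`.  `n = s.n`; `T'`, `j` from `exists_covTower`; a word `w = mk L` from
`cov_kernel` (`w` is the class of its reduced word `L = w.toWord`, `FreeGroup.mk_toWord`), and
`homOf ca ct w = ⟨1, ω⟩` with `ω ≠ 0` (the first component is `T.φ w = 1`).
`V₀ = {φ (mk L') | L' suffix of L}` finite.  The subgroup `⟨a⟩ ≤ A(1)` is finite.
`U₀ = ⟨a⟩ V₀`, `U₀' = ⟨a⟩ (U₀ ∪ t U₀ ∪ t⁻¹ U₀)`, finite subsets of `T.G`, left invariant under `a`.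
`μ = |U₀'|`.  `exists_translate_subset_W`: `m ≥ 1` and `γ₀` with `U₀' γ₀ ⊆ W_m`.
For `R ≥ 1` let `M = m R`, `Γ` from `exists_tiling` (`T.Pi (m R) (m R) = T.W M`).  The spots
`U_g = U₀ γ₀ g`, `U'_g = U₀' γ₀ g`, `g ∈ Γ`, are subsets of `W_M`, `U'_g ⊆ W_m g` pairwise disjoint.
`exists_fincov`: `r, ν, ι`.  `walk` with `γ = γ₀ g`: `x_g` with `ι x_g = ω(· (γ₀ g)⁻¹) ≠ 0`, so
`x_g ≠ 0`; if `χ x_g ≠ 0` then `U_g` is not balanced for `χ ∘ ν` (`φ w = 1`: the walk is closed).
Averaging over all `2^r` homomorphisms `χ : (Fin r → ZMod 2) →+ ZMod 2` (for `x ≠ 0` exactly half of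
them satisfy `χ x ≠ 0`) there is `χ` with `χ x_g ≠ 0` for at least `|Γ|/2` of the `g ∈ Γ`.
Then with `i = ind (wBip T M) = T.M hc M`, `η = 1 - (1/4)^μ < 1`:
`|W_M| 2^r ent T' ≤ log ind (cover ν) ≤ 2^{r-1} log ind (cover (χ∘ν))`  (`cov_ent_le`, `cover_pow`)
`≤ 2^{r-1} (2 log i + (|Γ|/2) log η)`  (`two_cover`, `balPairs_le_of_spots`),
so `ent T' ≤ u_M(T) + (|Γ| / (4 |W_M|)) log η = u_M(T) + log η / (4 |W_m|)` (`|W_M| = |W_m| |Γ|`).
`R → ∞`, `tendsto_u`: `ent T' ≤ ent T + log η / (4 |W_m|) < ent T`.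
(`i ≥ 1`; if `η = 0`, i.e. `μ = 0`, impossible since `U₀'` is nonempty.)
-/
import Pool.Agent.H45.Ent.CovKernel
import Pool.Agent.H45.Ent.CovCount
import Pool.Agent.H45.Ent.Spots
import Pool.Agent.H45.Ent.StageExt

set_option autoImplicit false

namespace Pool.Agent.H45.Ent

private lemma zmod2_ne_zero {a : ZMod 2} (h : a ≠ 0) : a = 1 := by
  revert h; revert a; decide

/-- for nonzero vectors `x_g` some functional is nonzero on at least half of them -/
theorem exists_functional {κ : Type*} (Γ : Finset κ) (r : ℕ) (x : κ → (Fin r → ZMod 2))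
    (hx : ∀ g ∈ Γ, x g ≠ 0) : ∃ χ : (Fin r → ZMod 2) →+ ZMod 2,
      Γ.card ≤ 2 * {g : κ | g ∈ Γ ∧ χ (x g) ≠ 0}.ncard := by
  classical
  let χ : (Fin r → ZMod 2) → ((Fin r → ZMod 2) →+ ZMod 2) := fun c =>
    { toFun := fun y => ∑ i, c i * y i
      map_zero' := by simp
      map_add' := by intro y y'; simp [mul_add, Finset.sum_add_distrib] }
  have hχ : ∀ c y, χ c y = ∑ i, c i * y i := fun _ _ => rfl
  have key : ∀ y : Fin r → ZMod 2, y ≠ 0 →
      2 * (Finset.univ.filter (fun c => χ c y ≠ 0)).card = Fintype.card (Fin r → ZMod 2) := by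
    intro y hy
    obtain ⟨i, hi⟩ := Function.ne_iff.1 hy
    have hi1 : y i = 1 := zmod2_ne_zero hi
    have hflip : ∀ c, χ (c + Pi.single i 1) y = χ c y + 1 := by
      intro c
      rw [hχ, hχ]
      simp only [Pi.add_apply, add_mul, Finset.sum_add_distrib]
      congr 1
      rw [Finset.sum_eq_single i]
      · rw [Pi.single_eq_same, hi1, one_mul]
      · intro j _ hj
        rw [Pi.single_eq_of_ne hj, zero_mul]
      · intro h; exact absurd (Finset.mem_univ _) h
    have hcard : (Finset.univ.filter (fun c => χ c y ≠ 0)).card =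
        (Finset.univ.filter (fun c => ¬ χ c y ≠ 0)).card := by
      refine Finset.card_bij' (fun c _ => c + Pi.single i 1) (fun c _ => c + Pi.single i 1)
        ?_ ?_ ?_ ?_
      · intro c hc
        rw [Finset.mem_filter] at hc ⊢
        refine ⟨Finset.mem_univ _, ?_⟩
        rw [hflip, zmod2_ne_zero hc.2]
        decide
      · intro c hc
        rw [Finset.mem_filter] at hc ⊢
        refine ⟨Finset.mem_univ _, ?_⟩
        rw [hflip, not_not.1 hc.2]
        decide
      · intro c _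
        funext k
        have h2 : ∀ a b : ZMod 2, a + b + b = a := by decide
        exact h2 _ _
      · intro c _
        funext k
        have h2 : ∀ a b : ZMod 2, a + b + b = a := by decide
        exact h2 _ _
    have htot := Finset.card_filter_add_card_filter_not (s := (Finset.univ : Finset (Fin r → ZMod 2)))
      (fun c => χ c y ≠ 0)
    rw [← hcard, Finset.card_univ] at htot
    omega
  by_contra hcon
  push Not at hcon
  have h1 : ∀ c, 2 * (Γ.filter (fun g => χ c (x g) ≠ 0)).card < Γ.card := by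
    intro c
    have h2 := hcon (χ c)
    have h3 : {g : κ | g ∈ Γ ∧ χ c (x g) ≠ 0} =
        ((Γ.filter (fun g => χ c (x g) ≠ 0) : Finset κ) : Set κ) := by
      ext g; simp
    rwa [h3, Set.ncard_coe_finset] at h2
  have h4 : ∑ c : Fin r → ZMod 2, 2 * (Γ.filter (fun g => χ c (x g) ≠ 0)).card <
      ∑ _c : Fin r → ZMod 2, Γ.card :=
    Finset.sum_lt_sum_of_nonempty Finset.univ_nonempty (fun c _ => h1 c)
  have h5 : ∑ c : Fin r → ZMod 2, 2 * (Γ.filter (fun g => χ c (x g) ≠ 0)).card =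
      ∑ g ∈ Γ, 2 * (Finset.univ.filter (fun c => χ c (x g) ≠ 0)).card := by
    rw [← Finset.mul_sum, ← Finset.mul_sum]
    congr 1
    simp only [Finset.card_filter]
    exact Finset.sum_comm
  rw [h5, Finset.sum_congr rfl (fun g hg => key (x g) (hx g hg))] at h4
  simp only [Finset.sum_const, Finset.card_univ, smul_eq_mul] at h4
  rw [mul_comm] at h4
  exact lt_irrefl _ h4

namespace NonRigidAux

variable (T : Tower)

/-- saturation of a set under `A(1)` -/
def sat (S : Set T.G) : Set T.G := {g | ∃ h ∈ T.A 1, h * g ∈ S}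

lemma sat_finite {S : Set T.G} (hS : S.Finite) : (sat T S).Finite := by
  refine ((T.A_finite 1).mul hS).subset ?_
  rintro g ⟨h, hh, hg⟩
  exact ⟨h⁻¹, Subgroup.inv_mem _ hh, h * g, hg, by simp⟩

lemma a_mul_mem_sat (S : Set T.G) (g : T.G) : T.a * g ∈ sat T S ↔ g ∈ sat T S := by
  have ha : T.a ∈ T.A 1 := a_mem_win _ _ one_pos
  constructor
  · rintro ⟨h, hh, hg⟩
    exact ⟨h * T.a, Subgroup.mul_mem _ hh ha, by rwa [mul_assoc]⟩
  · rintro ⟨h, hh, hg⟩
    refine ⟨h * T.a⁻¹, Subgroup.mul_mem _ hh (Subgroup.inv_mem _ ha), ?_⟩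
    simpa [mul_assoc] using hg

lemma subset_sat (S : Set T.G) : S ⊆ sat T S := fun g hg => ⟨1, Subgroup.one_mem _, by simpa⟩

/-- the neighbourhood of a set -/
def nb (S : Set T.G) : Set T.G := sat T (S ∪ {g | T.t⁻¹ * g ∈ S} ∪ {g | T.t * g ∈ S})

lemma nb_finite {S : Set T.G} (hS : S.Finite) : (nb T S).Finite := by
  refine sat_finite T ((hS.union ?_).union ?_)
  · exact hS.preimage (mul_right_injective T.t⁻¹).injOn
  · exact hS.preimage (mul_right_injective T.t).injOn

lemma subset_nb (S : Set T.G) : S ⊆ nb T S := fun _ hg =>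
  subset_sat T _ (Or.inl (Or.inl hg))

lemma homOf_g (n : ℕ) (w : F2) : (homOf (Cov.ca T) (Cov.ct T n) w).g = T.φ w :=
  map_homOf (Cov.proj (T := T)) (Cov.ca T) (Cov.ct T n) w

lemma ind_pos {B : Type*} [Finite B] (𝔅 : Bip B) : 0 < 𝔅.ind := by
  unfold Bip.ind
  rw [Set.ncard_pos (Set.toFinite _)]
  exact ⟨fun _ => false, fun _ _ _ => rfl, by simp⟩

end NonRigidAux

open NonRigidAux in
theorem exists_smaller (T : Tower) (hT : T.Nonstable) (s : Stage) (hfit : Fits T s) :
    ∃ T' : Tower, T'.Nonstable ∧ Fits T' s ∧ T'.ent hc < T.ent hc := by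
  classical
  obtain ⟨T', j, hj, hja, hjt, hns, hfits⟩ := exists_covTower T s.npos
  refine ⟨T', hns hT, hfits s rfl hfit, ?_⟩
  obtain ⟨w, hw1, hw2⟩ := cov_kernel T hT s.npos
  -- the word and its voltage
  set L : List (Fin 2 × Bool) := w.toWord with hL
  have hmk : FreeGroup.mk L = w := FreeGroup.mk_toWord
  have hω : ∃ z, (homOf (Cov.ca T) (Cov.ct T s.n) w).v z ≠ 0 := by
    by_contra hcon
    push Not at hcon
    apply hw2
    ext z
    · rw [homOf_g, hw1]; rfl
    · exact hcon z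
  obtain ⟨z₀, hz₀⟩ := hω
  -- the spots
  let V₀ : Set T.G := {g | ∃ L', L' <:+ L ∧ T.φ (FreeGroup.mk L') = g}
  have hV₀fin : V₀.Finite := by
    have h1 : V₀ ⊆ (((L.tails.map (fun L' => T.φ (FreeGroup.mk L'))).toFinset : Finset T.G) :
        Set T.G) := by
      rintro g ⟨L', h1, rfl⟩
      simp only [List.coe_toFinset, List.mem_map, List.mem_tails, Set.mem_ofPred_eq]
      exact ⟨L', h1, rfl⟩
    exact (Finset.finite_toSet _).subset h1
  let U₀ : Set T.G := sat T V₀
  let U₀' : Set T.G := nb T U₀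
  have hU₀' : U₀'.Finite := nb_finite T (sat_finite T hV₀fin)
  have hVU : V₀ ⊆ U₀ := subset_sat T V₀
  have hUU : U₀ ⊆ U₀' := subset_nb T U₀
  have h1U : (1 : T.G) ∈ U₀' := hUU (hVU ⟨[], List.nil_suffix, by
    rw [← FreeGroup.one_eq_mk, map_one]⟩)
  set μ : ℕ := U₀'.ncard with hμ
  have hμpos : 0 < μ := (Set.ncard_pos hU₀').2 ⟨1, h1U⟩
  obtain ⟨n₀, hn₀⟩ := T.exists_translate_subset_W hU₀'.toFinset
  set m : ℕ := n₀ + 1 with hm
  obtain ⟨γ₀, hγ₀⟩ := hn₀ m (Nat.le_succ _)
  have hγ₀' : ∀ u ∈ U₀', u * γ₀ ∈ T.W m := fun u hu => hγ₀ u ((Set.Finite.mem_toFinset _).2 hu)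
  set η : ℝ := 1 - (1 / 4 : ℝ) ^ μ with hη
  have hη1 : (1 / 4 : ℝ) ^ μ ≤ 1 / 4 := by
    calc (1 / 4 : ℝ) ^ μ ≤ (1 / 4 : ℝ) ^ 1 :=
          pow_le_pow_of_le_one (by norm_num) (by norm_num) hμpos
      _ = 1 / 4 := pow_one _
  have hηpos : 0 < η := by rw [hη]; linarith
  have hηlt : η < 1 := by rw [hη]; have : (0 : ℝ) < (1 / 4 : ℝ) ^ μ := by positivity
                          linarith
  have hlogη : Real.log η < 0 := Real.log_neg hηpos hηlt
  have hWm : (0 : ℝ) < (T.W m).ncard := by exact_mod_cast T.ncard_W_pos (Nat.succ_pos n₀)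
  -- main claim
  have claim : ∀ R : ℕ, 0 < R →
      T'.ent hc ≤ T.u hc (m * R) + Real.log η / (4 * (T.W m).ncard) := by
    intro R hR
    set M : ℕ := m * R with hM
    obtain ⟨Γ, hΓ, htile, -⟩ := T.exists_tiling (n := m) (r := R) (M := M) (Nat.succ_pos n₀) le_rfl
    have hWfin := T.W_finite M
    have : Finite (T.W M) := hWfin.to_subtype
    have hcardW : (T.W M).ncard = (T.W m).ncard * Γ.card := by
      have h1 := htile.image_eq
      have h2 := htile.injOn.ncard_image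
      rw [h1, Set.ncard_prod, Set.ncard_coe_finset] at h2
      exact h2
    have hMpos : 0 < M := Nat.mul_pos (Nat.succ_pos n₀) hR
    have hWMpos : 0 < (T.W M).ncard := T.ncard_W_pos hMpos
    have hin : ∀ u ∈ U₀', ∀ g ∈ Γ, u * (γ₀ * g) ∈ T.W M := by
      intro u hu g hg
      have h1 := htile.mapsTo (x := (u * γ₀, g)) ⟨hγ₀' u hu, hg⟩
      rw [← mul_assoc]
      exact h1
    obtain ⟨r, ν, ι, hι, hν⟩ := exists_fincov T s.n M
    have hwalk : ∀ g ∈ Γ, ∃ x : Fin r → ZMod 2, x ≠ 0 ∧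
        ∀ χ : (Fin r → ZMod 2) →+ ZMod 2, χ x ≠ 0 →
          ¬ (wBip T M).Balanced (fun b => χ (ν b))
            {b | (b : T.G) * (γ₀ * g)⁻¹ ∈ U₀} := by
      intro g hg
      obtain ⟨x, hx1, hx2⟩ := walk T s.n M r ν ι hι hν L (γ₀ * g) (fun L' hL' =>
        hin _ (hUU (hVU ⟨L', hL', rfl⟩)) g hg)
      rw [hmk] at hx1 hx2
      refine ⟨x, ?_, ?_⟩
      · rintro rfl
        have h1 := congrFun hx1 (z₀ * (γ₀ * g))
        rw [map_zero] at h1
        simp only [Pi.zero_apply, mul_inv_cancel_right] at h1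
        exact hz₀ h1.symm
      · rintro χ hχ ⟨σ, hσE, hσX⟩
        have hmem : γ₀ * g ∈ T.W M := by
          have := hin 1 h1U g hg
          rwa [one_mul] at this
        have h1 := hx2 χ {b | (b : T.G) * (γ₀ * g)⁻¹ ∈ U₀} σ hσE hσX (by
          rintro b ⟨L', hL', hb⟩
          show (b : T.G) * (γ₀ * g)⁻¹ ∈ U₀
          rw [hb, mul_inv_cancel_right]
          exact hVU ⟨L', hL', rfl⟩) ⟨γ₀ * g, hmem⟩ ⟨γ₀ * g, hmem⟩ rfl (by
          show γ₀ * g = T.φ w * (γ₀ * g)
          rw [hw1, one_mul])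
        apply hχ
        have h2 : ∀ a b : ZMod 2, a = a + b → b = 0 := by decide
        exact h2 _ _ h1
    choose! x hx0 hxbal using hwalk
    obtain ⟨χ, hχ⟩ := exists_functional Γ r x hx0
    set Γ' : Finset T.G := Γ.filter (fun g => χ (x g) ≠ 0) with hΓ'
    have hΓcard : Γ.card ≤ 2 * Γ'.card := by
      have h3 : {g : T.G | g ∈ Γ ∧ χ (x g) ≠ 0} = ((Γ' : Finset T.G) : Set T.G) := by
        ext g; simp [hΓ']
      rwa [h3, Set.ncard_coe_finset] at hχ
    have hspots := Bip.balPairs_le_of_spots (wBip T M) (fun b => χ (ν b)) Γ'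
      (fun g => {b : T.W M | (b : T.G) * (γ₀ * g)⁻¹ ∈ U₀})
      (fun g => {b : T.W M | (b : T.G) * (γ₀ * g)⁻¹ ∈ U₀'}) μ
      (by
        intro g hg g' hg' hne
        rw [Set.disjoint_left]
        intro b hb hb'
        apply hne
        have hgΓ := (Finset.mem_filter.1 hg).1
        have hgΓ' := (Finset.mem_filter.1 hg').1
        have h1 := htile.injOn (x₁ := ((b : T.G) * (γ₀ * g)⁻¹ * γ₀, g))
          (x₂ := ((b : T.G) * (γ₀ * g')⁻¹ * γ₀, g')) ⟨hγ₀' _ hb, hgΓ⟩ ⟨hγ₀' _ hb', hgΓ'⟩ (by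
            show (b : T.G) * (γ₀ * g)⁻¹ * γ₀ * g = (b : T.G) * (γ₀ * g')⁻¹ * γ₀ * g'
            group)
        exact (Prod.mk.inj h1).2)
      (fun g _ b hb => hUU hb)
      (by
        intro g _
        refine Set.ncard_le_ncard_of_injOn (fun b : T.W M => (b : T.G) * (γ₀ * g)⁻¹) ?_ ?_ hU₀'
        · intro b hb; exact hb
        · intro b _ b' _ h
          exact Subtype.ext (mul_right_cancel h))
      (by
        intro g _ b b' hE
        have hE' : (b' : T.G) = T.a * b := hE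
        show (b : T.G) * (γ₀ * g)⁻¹ ∈ U₀ ↔ (b' : T.G) * (γ₀ * g)⁻¹ ∈ U₀
        rw [hE', mul_assoc]
        exact (a_mul_mem_sat T _ _).symm)
      (by
        intro g _ b b' hE
        have hE' : (b' : T.G) = T.a * b := hE
        show (b : T.G) * (γ₀ * g)⁻¹ ∈ U₀' ↔ (b' : T.G) * (γ₀ * g)⁻¹ ∈ U₀'
        rw [hE', mul_assoc]
        exact (a_mul_mem_sat T _ _).symm)
      (by
        intro g _ b b' hX
        have hX' : (b' : T.G) = T.t * b := hX
        constructor
        · intro hb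
          show (b' : T.G) * (γ₀ * g)⁻¹ ∈ U₀'
          rw [hX']
          refine subset_sat T _ (Or.inl (Or.inr ?_))
          show T.t⁻¹ * (T.t * (b : T.G) * (γ₀ * g)⁻¹) ∈ U₀
          have : T.t⁻¹ * (T.t * (b : T.G) * (γ₀ * g)⁻¹) = (b : T.G) * (γ₀ * g)⁻¹ := by group
          rw [this]; exact hb
        · intro hb
          show (b : T.G) * (γ₀ * g)⁻¹ ∈ U₀'
          refine subset_sat T _ (Or.inr ?_)
          show T.t * ((b : T.G) * (γ₀ * g)⁻¹) ∈ U₀
          have h5 : (b' : T.G) * (γ₀ * g)⁻¹ ∈ U₀ := hb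
          rw [hX', mul_assoc] at h5
          exact h5)
      (fun g hg => hxbal g (Finset.mem_filter.1 hg).1 χ (Finset.mem_filter.1 hg).2)
    -- numbers
    have h2c := Bip.two_cover (wBip T M) (fun b => χ (ν b))
    have hcp := Bip.cover_pow (wBip T M) r ν χ
    have hcov := cov_ent_le T T' s.n j hj hja hjt M r ν ι hι hν
    set i : ℕ := (wBip T M).ind with hi
    have hipos : 0 < i := ind_pos _
    set c1 : ℕ := ((wBip T M).cover ν).ind with hc1
    set c2 : ℕ := ((wBip T M).cover (fun b => χ (ν b))).ind with hc2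
    have hc1pos : 0 < c1 := ind_pos _
    have hc2pos : 0 < c2 := ind_pos _
    have e1 : 2 * Real.log c1 ≤ 2 ^ r * Real.log c2 := by
      have h1 : ((c1 ^ 2 : ℕ) : ℝ) ≤ ((c2 ^ (2 ^ r) : ℕ) : ℝ) := by exact_mod_cast hcp
      have h2 := Real.log_le_log (by positivity) h1
      push_cast at h2
      rw [Real.log_pow, Real.log_pow] at h2
      exact_mod_cast h2
    have e2 : Real.log c2 ≤ 2 * Real.log i + Γ'.card * Real.log η := by
      have h1 : (c2 : ℝ) ≤ (i : ℝ) ^ 2 * η ^ Γ'.card :=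
        le_trans (by exact_mod_cast h2c) hspots
      have h2 := Real.log_le_log (by positivity) h1
      rw [Real.log_mul (by positivity) (by positivity), Real.log_pow, Real.log_pow] at h2
      exact_mod_cast h2
    have e3 : (Γ'.card : ℝ) * Real.log η ≤ (Γ.card : ℝ) / 2 * Real.log η := by
      have h1 : (Γ.card : ℝ) ≤ 2 * Γ'.card := by exact_mod_cast hΓcard
      exact mul_le_mul_of_nonpos_right (by linarith) hlogη.le
    have h2r : (0 : ℝ) < 2 ^ r := by positivity
    have e4 : ((T.W M).ncard : ℝ) * T'.ent hc ≤ Real.log i + (Γ.card : ℝ) / 4 * Real.log η := by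
      have h3 : ((T.W M).ncard : ℝ) * 2 ^ r * T'.ent hc * 2 ≤
          2 ^ r * (2 * Real.log i + (Γ.card : ℝ) / 2 * Real.log η) := by
        calc ((T.W M).ncard : ℝ) * 2 ^ r * T'.ent hc * 2 ≤ Real.log c1 * 2 := by
              have := hcov; linarith
          _ = 2 * Real.log c1 := by ring
          _ ≤ 2 ^ r * Real.log c2 := e1
          _ ≤ 2 ^ r * (2 * Real.log i + (Γ.card : ℝ) / 2 * Real.log η) := by
              refine mul_le_mul_of_nonneg_left ?_ h2r.le
              linarith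
      have h4 : 2 ^ r * (((T.W M).ncard : ℝ) * T'.ent hc * 2) ≤
          2 ^ r * (2 * Real.log i + (Γ.card : ℝ) / 2 * Real.log η) := by
        refine le_of_eq_of_le ?_ h3; ring
      have h5 := le_of_mul_le_mul_left h4 h2r
      linarith
    have hu : T.u hc M = Real.log i / (T.W M).ncard := by
      unfold Tower.u
      rw [hi, ind_wBip]
    have hWM : (0 : ℝ) < (T.W M).ncard := by exact_mod_cast hWMpos
    have hcardW' : ((T.W M).ncard : ℝ) = (T.W m).ncard * Γ.card := by exact_mod_cast hcardW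
    have hΓpos : (0 : ℝ) < Γ.card := by
      by_contra hneg
      have : (Γ.card : ℝ) = 0 := le_antisymm (not_lt.1 hneg) (Nat.cast_nonneg _)
      rw [hcardW', this, mul_zero] at hWM
      exact lt_irrefl _ hWM
    rw [hu]
    have h6 : Real.log η / (4 * ((T.W m).ncard : ℝ)) =
        ((Γ.card : ℝ) / 4 * Real.log η) / (T.W M).ncard := by
      rw [hcardW']
      field_simp
    rw [h6, ← add_div, le_div_iff₀ hWM, mul_comm]
    exact e4
  -- the limit
  have hlim : Filter.Tendsto (fun R : ℕ => T.u hc (m * R) + Real.log η / (4 * (T.W m).ncard))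
      Filter.atTop (nhds (T.ent hc + Real.log η / (4 * (T.W m).ncard))) := by
    have h1 : Filter.Tendsto (fun R : ℕ => m * R) Filter.atTop Filter.atTop :=
      Filter.tendsto_id.const_mul_atTop' (Nat.succ_pos n₀)
    exact ((T.tendsto_u hc).comp h1).add_const _
  have hle : T'.ent hc ≤ T.ent hc + Real.log η / (4 * (T.W m).ncard) := by
    refine ge_of_tendsto hlim ?_
    filter_upwards [Filter.eventually_gt_atTop 0] with R hR
    exact claim R hR
  have hneg : Real.log η / (4 * ((T.W m).ncard : ℝ)) < 0 :=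
    div_neg_of_neg_of_pos hlogη (by positivity)
  linarith

theorem nonrigid (s : Stage) (hs : s.Good) (θ : ℝ) :
    ∃ T : Tower, T.Nonstable ∧ Fits T s ∧ T.ent hc ≠ θ := by
  obtain ⟨T, hfit, hT⟩ := exists_fit_nonstable s hs
  by_cases h : T.ent hc = θ
  · obtain ⟨T', h1, h2, h3⟩ := exists_smaller T hT s hfit
    exact ⟨T', h1, h2, by rw [← h]; exact h3.ne⟩
  · exact ⟨T, hT, hfit, h⟩

end Pool.Agent.H45.Ent
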