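/-
The stage of a tower.  MP_f39e07_an, owner helper45.

PROOF of `stage_of_tower`: glue `ZMod n × T.A n` (`frAl`, `frTa` for `T.a, T.t`, FreeSys.lean)
onto `s.Ω` with `Stage.glue`; a word of window `n` fixing a point of the free part is trivial in `T`
(`frAct_fix`), so it is trivial on `Ω` by `Fits.triv`; words of window `s.n` trivial on `Ω` are
trivial in `T` by `Fits.inj`.
Cut labelings (`glue_cut`) correspond to the locally admissible labelings of `W_n`:
the bijection `θ : ZMod n × T.A n → T.W n`, `θ (τ^{-j} (-1, h)) = t^{-j} h`, `0 ≤ j < n`, satisfies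
`θ (α z) = a θ z`, `θ (τ z) = t θ z` if the phase of `z` is not `-1`, and `t θ z ∉ W_n` if it is.
Good if `T` is nonstable: `a_{n-1} ∉ A(n-1)` in `T`, seen on the free part.
-/
import Pool.Agent.H45.Ent.FreeSys
import Pool.Agent.H45.Ent.PiSets

set_option autoImplicit false

namespace Pool.Agent.H45.Ent

section theta

variable (T : Tower) (n : ℕ) (hn : 0 < n)

theorem frTa_fst (y : ZMod n × T.A n) : (frTa T.a T.t n hn y).1 = y.1 + 1 := rfl

theorem frAl_fst (y : ZMod n × T.A n) : (frAl T.a T.t n hn y).1 = y.1 := rfl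

theorem frTa_pow_fst (j : ℕ) (y : ZMod n × T.A n) :
    ((frTa T.a T.t n hn ^ j) y).1 = y.1 + (j : ZMod n) := by
  induction j with
  | zero => simp
  | succ j ih =>
    rw [pow_succ', Equiv.Perm.mul_apply, frTa_fst, ih]
    push_cast
    ring

/-- the distance of the phase to `-1` -/
def thIdx (y : ZMod n × T.A n) : ℕ := (-1 - y.1 : ZMod n).val

/-- the bijection from the free system onto `W_n` -/
noncomputable def theta (y : ZMod n × T.A n) : T.G :=
  (T.t ^ thIdx T n y)⁻¹ * (((frTa T.a T.t n hn ^ thIdx T n y) y).2 : T.G)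

theorem thIdx_lt (y : ZMod n × T.A n) (hn : 0 < n) : thIdx T n y < n := by
  have : NeZero n := ⟨hn.ne'⟩
  exact ZMod.val_lt _

theorem theta_mem (y : ZMod n × T.A n) : theta T n hn y ∈ T.W n :=
  T.mem_Pi_iff_exists.2 ⟨_, thIdx_lt T n y hn, _, Subtype.property _, rfl⟩

theorem thIdx_eq (j : ℕ) (hj : j < n) (y : ZMod n × T.A n) (h : y.1 = -1 - (j : ZMod n)) :
    thIdx T n y = j := by
  have : (-1 - y.1 : ZMod n) = (j : ZMod n) := by rw [h]; ring
  rw [thIdx, this, ZMod.val_natCast, Nat.mod_eq_of_lt hj]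

theorem fst_eq (hn : 0 < n) (y : ZMod n × T.A n) : y.1 = -1 - (thIdx T n y : ZMod n) := by
  have : NeZero n := ⟨hn.ne'⟩
  rw [thIdx, ZMod.natCast_zmod_val]
  ring

/-- the inverse of `theta` on the level `-j` -/
theorem theta_symm_apply (j : ℕ) (hj : j < n) (h : T.A n) :
    theta T n hn ((frTa T.a T.t n hn ^ j)⁻¹ (-1, h)) = (T.t ^ j)⁻¹ * (h : T.G) := by
  have h1 : ((frTa T.a T.t n hn ^ j)⁻¹ (-1, h)).1 = -1 - (j : ZMod n) := by
    have := frTa_pow_fst T n hn j ((frTa T.a T.t n hn ^ j)⁻¹ (-1, h))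
    rw [← Equiv.Perm.mul_apply, mul_inv_cancel, Equiv.Perm.one_apply] at this
    rw [eq_sub_iff_add_eq]
    exact this.symm
  rw [theta, thIdx_eq T n j hj _ h1, ← Equiv.Perm.mul_apply, mul_inv_cancel,
    Equiv.Perm.one_apply]

theorem theta_inj : Function.Injective (theta T n hn) := by
  intro y z h
  have hl := congrArg T.lv h
  simp only [theta, Tower.lv_mul, Tower.lv_inv, Tower.lv_pow, Tower.lv_t,
    T.lv_win (Subtype.property _)] at hl
  have hj : thIdx T n y = thIdx T n z := by omega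
  have h1 : y.1 = z.1 := by rw [fst_eq T n hn y, fst_eq T n hn z, hj]
  rw [theta, theta, hj] at h
  have h2 := Subtype.ext (mul_left_cancel h)
  have h3 : (frTa T.a T.t n hn ^ thIdx T n z) y = (frTa T.a T.t n hn ^ thIdx T n z) z := by
    refine Prod.ext ?_ h2
    rw [frTa_pow_fst, frTa_pow_fst, h1]
  exact Equiv.injective _ h3

theorem theta_surj {g : T.G} (hg : g ∈ T.W n) : ∃ y, theta T n hn y = g := by
  obtain ⟨j, hj, h, hh, rfl⟩ := T.mem_Pi_iff_exists.1 hg
  exact ⟨_, theta_symm_apply T n hn j hj ⟨h, hh⟩⟩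

theorem theta_al (y : ZMod n × T.A n) :
    theta T n hn (frAl T.a T.t n hn y) = T.a * theta T n hn y := by
  have hj : thIdx T n (frAl T.a T.t n hn y) = thIdx T n y := by
    rw [thIdx, frAl_fst, thIdx]
  rw [theta, theta, hj]
  set j := thIdx T n y with hjd
  have hjn : j < n := thIdx_lt T n y hn
  have h1 := frAct T.a T.t n hn (w := aj fa ft j) (aj_mem_win fa ft hjn)
    ((frTa T.a T.t n hn ^ j) y)
  have h2 : homOf (frAl T.a T.t n hn) (frTa T.a T.t n hn) (aj fa ft j)
      ((frTa T.a T.t n hn ^ j) y) = (frTa T.a T.t n hn ^ j) (frAl T.a T.t n hn y) := by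
    rw [map_aj, homOf_fa, homOf_ft, aj, Equiv.Perm.mul_apply, Equiv.Perm.mul_apply,
      ← Equiv.Perm.mul_apply (frTa T.a T.t n hn ^ j)⁻¹, inv_mul_cancel, Equiv.Perm.one_apply]
  rw [h2] at h1
  rw [h1]
  show (T.t ^ j)⁻¹ * (homOf T.a T.t (aj fa ft j) * _) = _
  rw [map_aj, homOf_fa, homOf_ft, aj]
  group

theorem theta_ta (y : ZMod n × T.A n) (h : y.1 ≠ -1) :
    theta T n hn (frTa T.a T.t n hn y) = T.t * theta T n hn y := by
  have hj0 : thIdx T n y ≠ 0 := by
    intro h0
    apply h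
    rw [fst_eq T n hn y, h0]
    simp
  obtain ⟨i, hi⟩ := Nat.exists_eq_succ_of_ne_zero hj0
  have hin : i + 1 < n := by
    have := thIdx_lt T n y hn
    omega
  have hi' : thIdx T n (frTa T.a T.t n hn y) = i := by
    refine thIdx_eq T n i (by omega) _ ?_
    rw [frTa_fst, fst_eq T n hn y, hi]
    push_cast
    ring
  rw [theta, theta, hi', hi, Nat.succ_eq_add_one, ← Equiv.Perm.mul_apply, ← pow_succ]
  group

theorem theta_ta_notMem (y : ZMod n × T.A n) (h : y.1 = -1) :
    T.t * theta T n hn y ∉ T.W n := by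
  have hj : thIdx T n y = 0 := thIdx_eq T n 0 hn y (by simp [h])
  intro hm
  have h1 := (T.lv_le_of_mem_Pi hm).1
  rw [theta, hj] at h1
  simp only [Tower.lv_mul, Tower.lv_inv, Tower.lv_pow, Tower.lv_t,
    T.lv_win (Subtype.property _)] at h1
  omega

/-- the count of the labelings of the free system, cut between the phases `-1` and `0` -/
theorem theta_count (F : Sys) :
    {x : ZMod n × T.A n → Fin F.k | ∀ y, F.Ra (x y) (x (frAl T.a T.t n hn y)) ∧
      (y.1 ≠ -1 → F.Rt (x y) (x (frTa T.a T.t n hn y)))}.ncard = T.M F n := by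
  classical
  have h0 : Nonempty (ZMod n × T.A n) := ⟨(0, 1)⟩
  symm
  unfold Tower.M Sys.locCnt cnt
  rcases isEmpty_or_nonempty (Fin F.k) with hE | ⟨⟨c⟩⟩
  · have h1 : F.loc T.a T.t (T.W n) = ∅ := by
      ext x
      simp only [Set.mem_empty_iff_false, iff_false]
      intro _
      exact hE.elim (x 1)
    have h2 : {x : ZMod n × T.A n → Fin F.k | ∀ y, F.Ra (x y) (x (frAl T.a T.t n hn y)) ∧
      (y.1 ≠ -1 → F.Rt (x y) (x (frTa T.a T.t n hn y)))} = ∅ := by
      ext x
      simp only [Set.mem_empty_iff_false, iff_false]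
      intro _
      exact hE.elim (x (0, 1))
    rw [h1, h2]; simp
  · refine Set.ncard_congr (fun p _ => fun y => p ⟨theta T n hn y, theta_mem T n hn y⟩) ?_ ?_ ?_
    · rintro _ ⟨x, hx, rfl⟩ y
      have h1 := hx (theta T n hn y) (theta_mem T n hn y)
      rw [← theta_al] at h1
      refine ⟨h1.1 (theta_mem T n hn _), fun hy => ?_⟩
      have h2 := h1.2
      rw [← theta_ta T n hn y hy] at h2
      exact h2 (theta_mem T n hn _)
    · rintro p q - - h
      funext ⟨g, hg⟩
      obtain ⟨y, rfl⟩ := theta_surj T n hn hg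
      exact congrFun h y
    · intro x hx
      have hinv : ∀ y, Function.invFun (theta T n hn) (theta T n hn y) = y :=
        fun y => Function.leftInverse_invFun (theta_inj T n hn) y
      refine ⟨fun g => x (Function.invFun (theta T n hn) g),
        ⟨fun g => x (Function.invFun (theta T n hn) g), ?_, rfl⟩, ?_⟩
      · intro g hg
        obtain ⟨y, rfl⟩ := theta_surj T n hn hg
        refine ⟨fun _ => ?_, fun htg => ?_⟩
        · rw [← theta_al]
          beta_reduce
          rw [hinv, hinv]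
          exact (hx y).1
        · have hy : y.1 ≠ -1 := fun hy => theta_ta_notMem T n hn y hy htg
          rw [← theta_ta T n hn y hy]
          beta_reduce
          rw [hinv, hinv]
          exact (hx y).2 hy
      · funext y
        show x (Function.invFun (theta T n hn) (theta T n hn y)) = x y
        rw [hinv]

end theta

theorem stage_of_tower (T : Tower) (s : Stage) (hfit : Fits T s) (n : ℕ) (hn : s.n ≤ n) :
    ∃ s' : Stage, s.Le s' ∧ s'.n = n ∧ (∀ F : Sys, s'.cut F = T.M F n) ∧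
      s'.Z.ncard = (T.W n).ncard ∧ (T.Nonstable → s'.Good) := by
  have hn0 : 0 < n := lt_of_lt_of_le s.npos hn
  have : NeZero n := ⟨hn0.ne'⟩
  have : Nonempty (ZMod n × T.A n) := ⟨(0, 1)⟩
  have hα : ∀ y : ZMod n × T.A n, (frAl T.a T.t n hn0 y).1 = y.1 := frAl_fst T n hn0
  have hτ : ∀ y : ZMod n × T.A n, (frTa T.a T.t n hn0 y).1 = y.1 + 1 := frTa_fst T n hn0
  have hfree : ∀ w ∈ win fa ft n, ∀ y,
      homOf (frAl T.a T.t n hn0) (frTa T.a T.t n hn0) w y = y →
      homOf s.al s.ta w = 1 ∧ homOf (frAl T.a T.t n hn0) (frTa T.a T.t n hn0) w = 1 := by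
    intro w hw y hy
    have h1 : homOf T.a T.t w = 1 := frAct_fix T.a T.t n hn0 hw y hy
    exact ⟨hfit.triv w h1, frAct_one T.a T.t n hn0 hw h1⟩
  refine ⟨Stage.glue s.al s.ta (frAl T.a T.t n hn0) (frTa T.a T.t n hn0) n hn0 Prod.fst hα hτ
    hfree, ?_, rfl, ?_, ?_, ?_⟩
  · refine Stage.le_glue s _ _ _ n hn0 _ hα hτ hfree hn ?_
    intro w hw h1
    exact frAct_one T.a T.t n hn0 (win_mono _ _ hn hw) (hfit.inj w hw h1)
  · intro F
    rw [Stage.glue_cut]
    exact theta_count T n hn0 F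
  · rw [Stage.glue_ncard_Z, Nat.card_prod, Nat.card_zmod, T.ncard_W]
  · intro hT w hw heq
    have hw' : w ∈ win fa ft (n - 1) := hw
    have heq' : (Stage.glue s.al s.ta (frAl T.a T.t n hn0) (frTa T.a T.t n hn0) n hn0 Prod.fst
        hα hτ hfree).act w = (Stage.glue s.al s.ta (frAl T.a T.t n hn0) (frTa T.a T.t n hn0) n
        hn0 Prod.fst hα hτ hfree).act (aj fa ft (n - 1)) := heq
    have h1 : (Stage.glue s.al s.ta (frAl T.a T.t n hn0) (frTa T.a T.t n hn0) n hn0 Prod.fst
        hα hτ hfree).act (w⁻¹ * aj fa ft (n - 1)) = 1 := by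
      rw [map_mul, map_inv, ← heq', inv_mul_cancel]
    rw [Stage.glue_act_eq_one] at h1
    have hmem : w⁻¹ * aj fa ft (n - 1) ∈ win fa ft n :=
      Subgroup.mul_mem _ (Subgroup.inv_mem _ (win_mono _ _ (by omega) hw'))
        (aj_mem_win _ _ (by omega))
    have h2 : homOf T.a T.t (w⁻¹ * aj fa ft (n - 1)) = 1 :=
      frAct_fix T.a T.t n hn0 hmem (0, 1) (by rw [h1.2]; rfl)
    rw [map_mul, map_inv, inv_mul_eq_one, map_aj, homOf_fa, homOf_ft] at h2
    exact hT (n - 1) (h2 ▸ homOf_win T.a T.t hw')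

end Pool.Agent.H45.Ent
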