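/-
Lind's theorem (in the form needed).  MP_f39e07_an, owner helper45.

`l > 1` real algebraic integer, all other conjugates `z` have `‖z‖ < l`.  Then some power `l^m`
is the eigenvalue of a positive integer matrix with a positive eigenvector.

PROOF.  `f = minpoly ℤ l`, monic of degree `N ≥ 1`; `R` = set of the complex roots `z ≠ l` of `f`.
For an integer polynomial `p` of degree `< N` put `u p = p(l) ∈ ℝ`, `u_z p = p(z)` for `z ∈ R`.
(1) FINITENESS: the polynomials of degree `< N` with coefficients bounded by `K` are finitely many;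
    a bound on `|u p|` and on all `|u_z p|` bounds the coefficients (the `N` roots of `f` are
    distinct since `f` is irreducible over ℚ: Vandermonde), or avoid this by working with sets
    defined by bounded coefficients only.
(2) ROUNDING: let `c` be a constant such that coefficient-wise rounding of a real polynomial of
    degree `< N` changes `u` and all `u_z` by at most `c` (`c = Σ_{i<N} l^i` works since
    `‖z‖ < l` and rounding changes each coefficient by at most 1/2; use `1`).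
    For `p` (integer) with `u p = s ≥ r` and `|u_z p| ≤ θ u p` put `k = ⌊s/r⌋ ≥ 1`,
    `p_i = round(i p/k) - round((i-1) p/k)` (coefficientwise), `i = 1..k`; then `Σ p_i = p`,
    `p_i = p/k + O(1)`, so `u p_i ∈ [r - 2c, 2r + 2c]`, `|u_z p_i| ≤ 2 r θ + 2c`.
    With `θ = 1/8` and `r ≥ 16 c + 16`: `u p_i ≥ r/2 > 0` and `|u_z p_i| ≤ u p_i`.
    So `p` is a sum of elements of the finite set
    `Σ = {σ : deg < N, r/2 ≤ u σ ≤ 3 r, |u_z σ| ≤ u σ ∀ z ∈ R}`
    (finite by (1)).  `Σ` is nonempty (contains integer constants in `[r/2, 3r]`).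
(3) For `σ ∈ Σ` and large `m`: `q = (X^m σ) %ₘ f - Σ_{σ' ∈ Σ} σ'` satisfies
    `u q = l^m u σ - C`, `|u_z q| ≤ ‖z‖^m u σ + C'`, so `|u_z q| ≤ u q / 8` and `u q ≥ r` once `m`
    is large (uniformly in the finite set `Σ`; `(‖z‖/l)^m → 0`).  By (2) `q` is a sum of elements
    of `Σ`, hence `X^m σ ≡ Σ_{σ'} B(σ,σ') σ'  (mod f)` with integers `B(σ,σ') ≥ 1`.
(4) Evaluate at `l`: `l^m u σ = Σ_{σ'} B(σ,σ') u σ'`, `u σ > 0`.
-/
import Mathlib

set_option autoImplicit false

namespace Pool.Agent.H45.Ent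

open Polynomial

/-- value at `z` of the real polynomial with coefficient vector `x` -/
noncomputable def ev {N : ℕ} (z : ℂ) (x : Fin N → ℝ) : ℂ := ∑ i, (x i : ℂ) * z ^ (i : ℕ)

theorem ev_add {N : ℕ} (z : ℂ) (x y : Fin N → ℝ) : ev z (x + y) = ev z x + ev z y := by
  simp only [ev, Pi.add_apply, Complex.ofReal_add, add_mul, Finset.sum_add_distrib]

theorem ev_smul {N : ℕ} (z : ℂ) (c : ℝ) (x : Fin N → ℝ) : ev z (c • x) = (c : ℂ) * ev z x := by
  simp only [ev, Pi.smul_apply, smul_eq_mul, Complex.ofReal_mul, Finset.mul_sum, mul_assoc]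

theorem ev_sub {N : ℕ} (z : ℂ) (x y : Fin N → ℝ) : ev z (x - y) = ev z x - ev z y := by
  simp only [ev, Pi.sub_apply, Complex.ofReal_sub, sub_mul, Finset.sum_sub_distrib]

theorem ev_sum {N : ℕ} {ι : Type*} (s : Finset ι) (z : ℂ) (x : ι → Fin N → ℝ) :
    ev z (∑ j ∈ s, x j) = ∑ j ∈ s, ev z (x j) := by
  classical
  induction s using Finset.induction_on with
  | empty => simp [ev]
  | insert a s ha ih => rw [Finset.sum_insert ha, Finset.sum_insert ha, ev_add, ih]

theorem ev_bound {N : ℕ} (l : ℝ) (z : ℂ) (hz : ‖z‖ ≤ l) (x : Fin N → ℝ) (M : ℝ)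
    (hM : ∀ i, |x i| ≤ M) : ‖ev z x‖ ≤ M * ∑ i : Fin N, l ^ (i : ℕ) := by
  unfold ev
  refine (norm_sum_le _ _).trans ?_
  rw [Finset.mul_sum]
  refine Finset.sum_le_sum fun i _ => ?_
  rw [norm_mul, norm_pow, Complex.norm_real, Real.norm_eq_abs]
  have h0 : 0 ≤ M := (abs_nonneg _).trans (hM i)
  exact mul_le_mul (hM i) (pow_le_pow_left₀ (norm_nonneg _) hz _) (by positivity) h0

/-- multiplication by `X^m` modulo a monic integer polynomial -/
theorem shift_exists (f : ℤ[X]) (hf : f.Monic) (a : Fin f.natDegree → ℤ) (m : ℕ) :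
    ∃ b : Fin f.natDegree → ℤ, ∀ z : ℂ, aeval z f = 0 →
      ev z (fun i => (b i : ℝ)) = z ^ m * ev z (fun i => (a i : ℝ)) := by
  classical
  set p : ℤ[X] := ∑ i, C (a i) * X ^ (i : ℕ) with hp
  set q : ℤ[X] := (X ^ m * p) %ₘ f with hq
  refine ⟨fun i => q.coeff i, fun z hz => ?_⟩
  have h1 : aeval z q = aeval z (X ^ m * p) := by
    rw [hq]
    exact aeval_modByMonic_eq_self_of_root hz
  have h2 : aeval z p = ev z (fun i => (a i : ℝ)) := by
    rw [hp, map_sum]
    unfold ev
    refine Finset.sum_congr rfl fun i _ => ?_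
    simp
  have h3 : aeval z q = ev z (fun i : Fin f.natDegree => ((q.coeff i : ℤ) : ℝ)) := by
    by_cases hN : f.natDegree = 0
    · have hf1 : f = 1 := by
        exact (Polynomial.Monic.natDegree_eq_zero hf).mp hN
      have : q = 0 := by rw [hq, hf1, modByMonic_one]
      rw [this]
      simp [ev]
    · have hlt : q.natDegree < f.natDegree := by
        rw [hq]
        apply natDegree_modByMonic_lt _ hf
        rintro rfl
        simp at hN
      rw [aeval_eq_sum_range' hlt, ← Fin.sum_univ_eq_sum_range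
        (fun i => q.coeff i • z ^ i) f.natDegree]
      unfold ev
      refine Finset.sum_congr rfl fun i _ => ?_
      simp
  rw [← h3, h1, map_mul, map_pow, aeval_X, h2]

/-- the coefficients of a real polynomial are controlled by its values at the roots of `f` -/
theorem coeff_bound (l : ℝ) (hint : IsIntegral ℤ l) :
    ∃ C : ℝ, 0 < C ∧ ∀ (x : Fin (minpoly ℤ l).natDegree → ℝ) (M : ℝ), 0 ≤ M →
      (∀ z : ℂ, aeval z (minpoly ℤ l) = 0 → ‖ev z x‖ ≤ M) → ∀ i, |x i| ≤ C * M := by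
  classical
  set f := minpoly ℤ l with hf
  set N := f.natDegree with hN
  have hmon : f.Monic := minpoly.monic hint
  have hQ : minpoly ℚ l = f.map (algebraMap ℤ ℚ) := minpoly.isIntegrallyClosed_eq_field_fractions' ℚ hint
  have hsep : (f.map (algebraMap ℤ ℚ)).Separable := by
    rw [← hQ]
    exact (minpoly.irreducible (hint.tower_top)).separable
  have hmap : f.map (algebraMap ℤ ℂ) = (f.map (algebraMap ℤ ℚ)).map (algebraMap ℚ ℂ) := by
    rw [Polynomial.map_map]
    congr 1
  have hsepC : (f.map (algebraMap ℤ ℂ)).Separable := by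
    rw [hmap]
    exact hsep.map
  have hnod : (f.map (algebraMap ℤ ℂ)).roots.Nodup := nodup_roots hsepC
  have hcard : Multiset.card (f.map (algebraMap ℤ ℂ)).roots = N := by
    have := IsAlgClosed.splits (f.map (algebraMap ℤ ℂ))
    rw [← this.natDegree_eq_card_roots, hmon.natDegree_map]
  set Z : Finset ℂ := (f.map (algebraMap ℤ ℂ)).roots.toFinset with hZ
  have hZcard : Z.card = N := by
    rw [hZ, Multiset.toFinset_card_of_nodup hnod, hcard]
  have hZmem : ∀ z ∈ Z, aeval z f = 0 := by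
    intro z hz
    rw [hZ, Multiset.mem_toFinset, mem_roots'] at hz
    have := hz.2
    rwa [IsRoot.def, eval_map, ← aeval_def] at this
  let Φ : (Fin N → ℝ) →ₗ[ℝ] (Z → ℂ) :=
    { toFun := fun x z => ev (z : ℂ) x
      map_add' := fun x y => by
        funext z
        exact ev_add _ _ _
      map_smul' := fun c x => by
        funext z
        simp only [RingHom.id_apply, Pi.smul_apply, Complex.real_smul]
        exact ev_smul _ _ _ }
  have hker : LinearMap.ker Φ = ⊥ := by
    rw [LinearMap.ker_eq_bot']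
    intro x hx
    have hx' : ∀ z ∈ Z, ev z x = 0 := fun z hz => congrFun hx ⟨z, hz⟩
    set P : ℂ[X] := ∑ i, C (x i : ℂ) * X ^ (i : ℕ) with hP
    have hPev : ∀ z, P.eval z = ev z x := by
      intro z
      rw [hP, eval_finsetSum]
      unfold ev
      refine Finset.sum_congr rfl fun i _ => ?_
      simp
    rcases Nat.eq_zero_or_pos N with h0 | hpos
    · funext i
      exact absurd i.2 (by omega)
    have hdeg : P.natDegree < N := by
      have : P.degree < N := by
        rw [hP]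
        refine lt_of_le_of_lt (degree_sum_le _ _) ?_
        rw [Finset.sup_lt_iff (by exact WithBot.bot_lt_coe N)]
        intro i _
        refine lt_of_le_of_lt (degree_C_mul_X_pow_le _ _) ?_
        exact_mod_cast i.2
      by_cases hP0 : P = 0
      · rw [hP0]; simpa using hpos
      · exact (natDegree_lt_iff_degree_lt hP0).mpr this
    have hP0 : P = 0 := by
      apply eq_zero_of_natDegree_lt_card_of_eval_eq_zero' P Z
      · intro z hz
        rw [hPev, hx' z hz]
      · rw [hZcard]; exact hdeg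
    funext i
    have hc : P.coeff i = (x i : ℂ) := by
      rw [hP, finsetSum_coeff]
      rw [Finset.sum_eq_single i]
      · simp
      · intro j _ hji
        rw [coeff_C_mul, coeff_X_pow]
        rw [if_neg]
        · simp
        · intro h
          exact hji (Fin.ext h.symm)
      · simp
    rw [hP0] at hc
    simp only [coeff_zero] at hc
    exact_mod_cast hc.symm
  obtain ⟨K, hK, hanti⟩ := Φ.exists_antilipschitzWith hker
  refine ⟨K, by exact_mod_cast hK, fun x M hM hx i => ?_⟩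
  have h1 : ‖x‖ ≤ K * ‖Φ x‖ := by
    have := hanti.le_mul_dist x 0
    simpa using this
  have h2 : ‖Φ x‖ ≤ M := by
    rw [pi_norm_le_iff_of_nonneg hM]
    intro z
    exact hx z (hZmem z z.2)
  have h3 : |x i| ≤ ‖x‖ := by
    rw [← Real.norm_eq_abs]
    exact norm_le_pi_norm x i
  exact h3.trans (h1.trans (mul_le_mul_of_nonneg_left h2 (by positivity)))

/-- integer vector as a real vector -/
noncomputable def ic {N : ℕ} (a : Fin N → ℤ) : Fin N → ℝ := fun i => (a i : ℝ)

theorem ic_sub {N : ℕ} (a b : Fin N → ℤ) : ic (a - b) = ic a - ic b := by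
  funext i
  simp [ic]

theorem ic_sum {N : ℕ} {ι : Type*} (s : Finset ι) (a : ι → Fin N → ℤ) :
    ic (∑ j ∈ s, a j) = ∑ j ∈ s, ic (a j) := by
  funext i
  simp [ic, Finset.sum_apply]

/-- the finite set of short vectors in the cone -/
def Sset (l r : ℝ) (N : ℕ) (Z : Set ℂ) : Set (Fin N → ℤ) :=
  {σ | r / 2 ≤ (ev (l : ℂ) (ic σ)).re ∧ (ev (l : ℂ) (ic σ)).re ≤ 3 * r ∧
    ∀ z ∈ Z, ‖ev z (ic σ)‖ ≤ (ev (l : ℂ) (ic σ)).re}

theorem ev_real {N : ℕ} (l : ℝ) (x : Fin N → ℝ) :
    ev (l : ℂ) x = (((ev (l : ℂ) x).re : ℝ) : ℂ) := by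
  have : ev (l : ℂ) x = ((∑ i, x i * l ^ (i : ℕ) : ℝ) : ℂ) := by
    unfold ev
    push_cast
    rfl
  rw [this, Complex.ofReal_re]

theorem Sset_finite (l : ℝ) (hint : IsIntegral ℤ l) (r : ℝ) (hr : 0 ≤ r) :
    (Sset l r (minpoly ℤ l).natDegree {z | aeval z (minpoly ℤ l) = 0}).Finite := by
  obtain ⟨C, hC, h⟩ := coeff_bound l hint
  refine (Set.finite_Icc (fun _ => -⌈C * (3 * r)⌉) (fun _ => ⌈C * (3 * r)⌉)).subset ?_
  rintro σ ⟨h1, h2, h3⟩
  have hb : ∀ i, |(ic σ) i| ≤ C * (3 * r) := by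
    refine h (ic σ) (3 * r) (by positivity) ?_
    intro z hz
    exact (h3 z hz).trans h2
  rw [Set.mem_Icc]
  constructor
  · intro i
    have := (abs_le.mp (hb i)).1
    have h4 : C * (3 * r) ≤ (⌈C * (3 * r)⌉ : ℤ) := Int.le_ceil _
    have h5 : (-(⌈C * (3 * r)⌉ : ℤ) : ℝ) ≤ (σ i : ℝ) := by
      simp only [ic] at this
      linarith
    exact_mod_cast h5
  · intro i
    have := (abs_le.mp (hb i)).2
    have h4 : C * (3 * r) ≤ (⌈C * (3 * r)⌉ : ℤ) := Int.le_ceil _
    have h5 : (σ i : ℝ) ≤ ((⌈C * (3 * r)⌉ : ℤ) : ℝ) := by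
      simp only [ic] at this
      linarith
    exact_mod_cast h5

/-- decomposition of a vector deep in the cone into short vectors -/
theorem decomp {N : ℕ} (l r : ℝ) (hl : 1 < l) (Z : Set ℂ) (hlZ : (l : ℂ) ∈ Z)
    (hZ : ∀ z ∈ Z, ‖z‖ ≤ l)
    (hr : 16 * (∑ i : Fin N, l ^ (i : ℕ)) + 16 ≤ r) (p : Fin N → ℤ)
    (hp : r ≤ (ev (l : ℂ) (ic p)).re)
    (hpz : ∀ z ∈ Z, z ≠ (l : ℂ) → ‖ev z (ic p)‖ ≤ (ev (l : ℂ) (ic p)).re / 8) :
    ∃ (k : ℕ) (q : ℕ → Fin N → ℤ), (∀ j ∈ Finset.range k, q j ∈ Sset l r N Z) ∧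
      ∑ j ∈ Finset.range k, q j = p := by
  set c : ℝ := ∑ i : Fin N, l ^ (i : ℕ) with hc
  have hc0 : 0 ≤ c := Finset.sum_nonneg fun i _ => by positivity
  set s : ℝ := (ev (l : ℂ) (ic p)).re with hs
  have hrpos : 0 < r := by linarith
  set k : ℕ := ⌊s / r⌋₊ with hk
  have hsr : 1 ≤ s / r := by rw [le_div_iff₀ hrpos]; linarith
  have hk1 : 1 ≤ k := by
    rw [hk]; exact Nat.le_floor (by exact_mod_cast hsr)
  have hkpos : (0 : ℝ) < k := by exact_mod_cast hk1
  have hkle : (k : ℝ) * r ≤ s := by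
    have : (k : ℝ) ≤ s / r := Nat.floor_le (by linarith)
    rwa [le_div_iff₀ hrpos] at this
  have hklt : s < ((k : ℝ) + 1) * r := by
    have : s / r < (k : ℝ) + 1 := Nat.lt_floor_add_one _
    rwa [div_lt_iff₀ hrpos] at this
  let t : ℕ → Fin N → ℤ := fun j i => round ((j : ℝ) / k * p i)
  refine ⟨k, fun j => t (j + 1) - t j, ?_, ?_⟩
  · intro j _
    -- error vector
    set e : Fin N → ℝ := ic (t (j + 1) - t j) - (1 / (k : ℝ)) • ic p with he
    have hei : ∀ i, |e i| ≤ 1 := by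
      intro i
      have h1 := abs_sub_round (((j + 1 : ℕ) : ℝ) / k * p i)
      have h2 := abs_sub_round (((j : ℕ) : ℝ) / k * p i)
      have h3 : e i = -(((j + 1 : ℕ) : ℝ) / k * p i - round (((j + 1 : ℕ) : ℝ) / k * p i)) +
          (((j : ℕ) : ℝ) / k * p i - round (((j : ℕ) : ℝ) / k * p i)) := by
        simp only [he, ic, t, Pi.sub_apply, Pi.smul_apply, smul_eq_mul]
        push_cast
        field_simp
        ring
      rw [h3]
      refine (abs_add_le _ _).trans ?_
      rw [abs_neg]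
      linarith
    have hsplit : ic (t (j + 1) - t j) = (1 / (k : ℝ)) • ic p + e := by
      rw [he]; abel
    have hev : ∀ z, ev z (ic (t (j + 1) - t j)) = ((1 / (k : ℝ) : ℝ) : ℂ) * ev z (ic p) + ev z e := by
      intro z
      rw [hsplit, ev_add, ev_smul]
    have heb : ∀ z ∈ Z, ‖ev z e‖ ≤ c := by
      intro z hz
      have := ev_bound l z (hZ z hz) e 1 hei
      linarith
    have hu : (ev (l : ℂ) (ic (t (j + 1) - t j))).re = s / k + (ev (l : ℂ) e).re := by
      rw [hev, Complex.add_re, Complex.re_ofReal_mul, ← hs]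
      ring
    have hre : |(ev (l : ℂ) e).re| ≤ c := (Complex.abs_re_le_norm _).trans (heb _ hlZ)
    have h1 : r ≤ s / k := by rw [le_div_iff₀ hkpos]; linarith
    have h2 : s / k ≤ 2 * r := by
      rw [div_le_iff₀ hkpos]
      have : (1 : ℝ) ≤ k := by exact_mod_cast hk1
      nlinarith
    have hrel := abs_le.mp hre
    have hlow : r / 2 ≤ (ev (l : ℂ) (ic (t (j + 1) - t j))).re := by
      rw [hu]; linarith [hrel.1]
    refine ⟨hlow, ?_, ?_⟩
    · rw [hu]; linarith [hrel.2]
    · intro z hz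
      by_cases hzl : z = (l : ℂ)
      · subst hzl
        rw [ev_real, Complex.norm_real, Complex.ofReal_re, Real.norm_eq_abs, abs_of_nonneg]
        linarith
      · rw [hev]
        refine (norm_add_le _ _).trans ?_
        rw [norm_mul, Complex.norm_real, Real.norm_eq_abs, abs_of_pos (by positivity)]
        have h3 : 1 / (k : ℝ) * ‖ev z (ic p)‖ ≤ 1 / (k : ℝ) * (s / 8) :=
          mul_le_mul_of_nonneg_left (hpz z hz hzl) (by positivity)
        have h4 : 1 / (k : ℝ) * (s / 8) = s / k / 8 := by ring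
        have h5 := heb z hz
        rw [h4] at h3
        linarith
  · rw [Finset.sum_range_sub]
    funext i
    simp only [t, Pi.sub_apply]
    rw [div_self hkpos.ne']
    simp

theorem lind (l : ℝ) (hl : 1 < l) (hint : IsIntegral ℤ l)
    (hperron : ∀ z : ℂ, Polynomial.aeval z (minpoly ℤ l) = 0 → z ≠ (l : ℂ) → ‖z‖ < l) :
    ∃ (m d : ℕ) (B : Matrix (Fin d) (Fin d) ℕ) (v : Fin d → ℝ), 0 < m ∧ 0 < d ∧
      (∀ i j, 0 < B i j) ∧ (∀ i, 0 < v i) ∧ ∀ i, ∑ j, (B i j : ℝ) * v j = l ^ m * v i := by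
  classical
  set f := minpoly ℤ l with hf
  have hmon : f.Monic := minpoly.monic hint
  set N := f.natDegree with hN
  have hNpos : 0 < N := minpoly.natDegree_pos hint
  set Z : Set ℂ := {z | aeval z f = 0} with hZ
  have hZfin : Z.Finite := by
    have hne : f ≠ 0 := hmon.ne_zero
    refine (f.rootSet_finite ℂ).subset ?_
    intro z hz
    rw [mem_rootSet]
    exact ⟨hne, hz⟩
  have hlZ : (l : ℂ) ∈ Z := by
    show aeval (l : ℂ) f = 0
    have h := minpoly.aeval ℤ l
    have h2 : aeval (l : ℂ) f = ((aeval l f : ℝ) : ℂ) := by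
      have := Polynomial.aeval_algebraMap_apply ℂ l f
      simpa using this
    rw [h2, hf, h]; simp
  have hZl : ∀ z ∈ Z, ‖z‖ ≤ l := by
    intro z hz
    by_cases h : z = (l : ℂ)
    · subst h
      rw [Complex.norm_real, Real.norm_eq_abs, abs_of_pos (by linarith)]
    · exact (hperron z hz h).le
  set c : ℝ := ∑ i : Fin N, l ^ (i : ℕ) with hc
  have hc0 : 0 ≤ c := Finset.sum_nonneg fun i _ => by positivity
  set r : ℝ := 16 * c + 16 with hr
  have hr16 : 16 ≤ r := by linarith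
  have hfin : (Sset l r N Z).Finite := Sset_finite l hint r (by linarith)
  set S : Finset (Fin N → ℤ) := hfin.toFinset with hS
  have hSmem : ∀ σ, σ ∈ S ↔ σ ∈ Sset l r N Z := fun σ => by rw [hS, Set.Finite.mem_toFinset]
  let u : (Fin N → ℤ) → ℝ := fun σ => (ev (l : ℂ) (ic σ)).re
  have hu8 : ∀ σ ∈ S, 8 ≤ u σ := fun σ h => by
    have := ((hSmem σ).mp h).1
    show 8 ≤ (ev (l : ℂ) (ic σ)).re
    linarith
  -- nonempty
  have hSne : S.Nonempty := by
    let σ0 : Fin N → ℤ := fun i => if (i : ℕ) = 0 then ⌈r⌉ else 0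
    have hval : ∀ z : ℂ, ev z (ic σ0) = ((⌈r⌉ : ℤ) : ℂ) := by
      intro z
      unfold ev
      rw [Finset.sum_eq_single (⟨0, hNpos⟩ : Fin N)]
      · simp [ic, σ0]
      · intro j _ hj
        have : (j : ℕ) ≠ 0 := fun h => hj (Fin.ext h)
        simp [ic, σ0, this]
      · simp
    have hcl : r ≤ (⌈r⌉ : ℤ) := Int.le_ceil r
    have hcu : ((⌈r⌉ : ℤ) : ℝ) < r + 1 := Int.ceil_lt_add_one r
    refine ⟨σ0, (hSmem σ0).mpr ⟨?_, ?_, ?_⟩⟩
    · rw [hval]; simp only [Complex.intCast_re]; linarith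
    · rw [hval]; simp only [Complex.intCast_re]; linarith
    · intro z _
      rw [hval, hval]
      simp only [Complex.intCast_re]
      rw [Complex.norm_intCast, abs_of_nonneg]
      linarith
  set C0 : ℝ := ∑ σ ∈ S, u σ with hC0
  have hC00 : 0 ≤ C0 := Finset.sum_nonneg fun σ h => by linarith [hu8 σ h]
  -- choice of m
  have hm : ∃ m : ℕ, 0 < m ∧ r + C0 ≤ l ^ m ∧
      ∀ z ∈ Z, z ≠ (l : ℂ) → ‖z‖ ^ m + 2 * C0 ≤ l ^ m / 8 := by
    have h1 : ∀ᶠ m : ℕ in Filter.atTop, r + C0 ≤ l ^ m :=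
      (tendsto_pow_atTop_atTop_of_one_lt hl).eventually_ge_atTop _
    have h2 : ∀ᶠ m : ℕ in Filter.atTop, ∀ z ∈ Z, z ≠ (l : ℂ) →
        ‖z‖ ^ m + 2 * C0 ≤ l ^ m / 8 := by
      rw [Filter.eventually_all_finite hZfin]
      intro z hz
      by_cases hzl : z = (l : ℂ)
      · exact Filter.Eventually.of_forall fun m h => absurd hzl h
      · have h3 : ∀ᶠ m : ℕ in Filter.atTop, (‖z‖ / l) ^ m < 1 / 16 := by
          have hlt : ‖z‖ / l < 1 := by
            rw [div_lt_one (by linarith)]; exact hperron z hz hzl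
          exact (tendsto_pow_atTop_nhds_zero_of_lt_one (by positivity) hlt).eventually_lt_const
            (by norm_num)
        have h4 : ∀ᶠ m : ℕ in Filter.atTop, 32 * C0 ≤ l ^ m :=
          (tendsto_pow_atTop_atTop_of_one_lt hl).eventually_ge_atTop _
        filter_upwards [h3, h4] with m hm3 hm4 _
        rw [div_pow, div_lt_iff₀ (by positivity)] at hm3
        linarith
    obtain ⟨m, hm⟩ := (h1.and (h2.and (Filter.eventually_gt_atTop 0))).exists
    exact ⟨m, hm.2.2, hm.1, hm.2.1⟩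
  obtain ⟨m, hm0, hm1, hm2⟩ := hm
  -- the decomposition of `X^m σ`
  have key : ∀ σ ∈ S, ∃ b : (Fin N → ℤ) → ℕ, (∀ τ ∈ S, 0 < b τ) ∧
      ∑ τ ∈ S, (b τ : ℝ) * u τ = l ^ m * u σ := by
    intro σ hσ
    obtain ⟨w, hw⟩ := shift_exists f hmon σ m
    have hw' : ∀ z ∈ Z, ev z (ic w) = z ^ m * ev z (ic σ) := fun z hz => hw z hz
    set q : Fin N → ℤ := w - ∑ τ ∈ S, τ with hq
    have hqz : ∀ z ∈ Z, ev z (ic q) = z ^ m * ev z (ic σ) - ∑ τ ∈ S, ev z (ic τ) := by
      intro z hz
      rw [hq, ic_sub, ev_sub, ic_sum, ev_sum, hw' z hz]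
    have hsig : u σ = (ev (l : ℂ) (ic σ)).re := rfl
    have hqu : (ev (l : ℂ) (ic q)).re = l ^ m * u σ - C0 := by
      rw [hqz _ hlZ, Complex.sub_re, Complex.re_sum, ev_real l (ic σ), ← Complex.ofReal_pow,
        ← Complex.ofReal_mul, Complex.ofReal_re]
    have hus : 8 ≤ u σ := hu8 σ hσ
    have hlm : 0 < l ^ m := by positivity
    have h8 : l ^ m * 8 ≤ l ^ m * u σ := mul_le_mul_of_nonneg_left hus hlm.le
    obtain ⟨k, p, hpS, hpsum⟩ := decomp l r hl Z hlZ hZl (le_of_eq hr.symm) q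
      (by rw [hqu]; nlinarith) (by
        intro z hz hzl
        rw [hqu, hqz z hz]
        refine (norm_sub_le _ _).trans ?_
        rw [norm_mul, norm_pow]
        have h1 : ‖ev z (ic σ)‖ ≤ u σ := ((hSmem σ).mp hσ).2.2 z hz
        have h2 : ‖∑ τ ∈ S, ev z (ic τ)‖ ≤ C0 := by
          refine (norm_sum_le _ _).trans ?_
          exact Finset.sum_le_sum fun τ hτ => ((hSmem τ).mp hτ).2.2 z hz
        have h3 : ‖z‖ ^ m * ‖ev z (ic σ)‖ ≤ ‖z‖ ^ m * u σ :=
          mul_le_mul_of_nonneg_left h1 (by positivity)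
        have h4 := hm2 z hz hzl
        have h5 : (‖z‖ ^ m + 2 * C0) * u σ ≤ l ^ m / 8 * u σ :=
          mul_le_mul_of_nonneg_right h4 (by linarith)
        have h6 : C0 * 8 ≤ C0 * u σ := mul_le_mul_of_nonneg_left hus hC00
        nlinarith)
    refine ⟨fun τ => ((Finset.range k).filter (fun j => p j = τ)).card + 1,
      fun τ _ => Nat.succ_pos _, ?_⟩
    have h1 : ∑ τ ∈ S, ((((Finset.range k).filter (fun j => p j = τ)).card : ℕ) : ℝ) * u τ
        = ∑ j ∈ Finset.range k, u (p j) := by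
      have hmaps : ∀ j ∈ Finset.range k, p j ∈ S := fun j hj => (hSmem _).mpr (hpS j hj)
      rw [← Finset.sum_fiberwise_of_maps_to hmaps]
      refine Finset.sum_congr rfl fun τ _ => ?_
      rw [Finset.sum_congr rfl (g := fun _ => u τ)]
      · rw [Finset.sum_const, nsmul_eq_mul]
      · intro j hj
        rw [(Finset.mem_filter.mp hj).2]
    have h2 : ∑ j ∈ Finset.range k, u (p j) = l ^ m * u σ - C0 := by
      rw [← hqu, ← hpsum, ic_sum, ev_sum, Complex.re_sum]
    push_cast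
    simp only [add_mul, one_mul, Finset.sum_add_distrib]
    rw [h1, h2]
    ring
  choose! b hb0 hb using key
  let e := S.equivFin
  refine ⟨m, S.card, fun i j => b (e.symm i) (e.symm j), fun i => u (e.symm i), hm0,
    hSne.card_pos, ?_, ?_, ?_⟩
  · intro i j
    exact hb0 _ (e.symm i).2 _ (e.symm j).2
  · intro i
    linarith [hu8 _ (e.symm i).2]
  · intro i
    rw [← hb _ (e.symm i).2, ← Finset.sum_coe_sort S]
    exact Equiv.sum_comp e.symm (fun τ : S => (b (e.symm i) τ : ℝ) * u τ)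

end Pool.Agent.H45.Ent
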