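/-
Path systems: every `q log l` (`l` Perron, `q > 0` rational) is the growth rate of a relation.
MP_f39e07_an, owner helper45.

`pathCnt R n` = number of sequences `x : Fin n → Fin k` with `R (x i) (x (i+1))`.

PROOF of `path_sys_of_matrix` (positive integer matrix `B`, positive `v`, `B v = μ v`, `μ ≥ 1`,
period `b ≥ 1`): alphabet = pairs (phase `p < b`, edge `e`), edge `e = (i, j, s)` with `s < B i j`;
`R (p,e) (p',e')` iff `p' = (p+1) % b` and (if `p' = 0` then `target e = source e'` else `e' = e`).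
A path with `n` vertices is determined by its first phase and the sequence of edges it uses; the
number of paths of `m` consecutive edges is `Σ_{i,j} (B^m) i j`, and
`c μ^m ≤ Σ_{i,j} (B^m) i j ≤ C μ^m` for `m ≥ 0` with `c = min v / max v`-type constants
(from `B^m v = μ^m v`).  Hence `c' μ^(n/b) ≤ pathCnt R n ≤ C' μ^(n/b)` and
`log (pathCnt R n) / n → (1/b) log μ`.

PROOF of `path_sys`: `q = a/b`.  If `l = 1`: `k = 1`, `R = True`.  If `l > 1`: `lind` gives
`(m, B, v)` with eigenvalue `l^m`; the `a`-fold tensor (Kronecker) power of `B` (index set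
`Fin a → Fin d`, entries `∏ B (i s) (j s)`, vector `∏ v (i s)`) has eigenvalue `l^(m a)`; apply
`path_sys_of_matrix` with period `b m`: `(1/(b m)) log (l^(m a)) = (a/b) log l`.
-/
import Pool.Agent.H45.Ent.Lind

set_option autoImplicit false

open Filter Topology

namespace Pool.Agent.H45.Ent

/-- number of `R`-paths with `n` vertices -/
noncomputable def pathCnt {k : ℕ} (R : Fin k → Fin k → Prop) (n : ℕ) : ℕ :=
  {x : Fin n → Fin k | ∀ i j : Fin n, (j : ℕ) = i + 1 → R (x i) (x j)}.ncard

section PathSysAux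

open Classical in
/-- paths with `n + 1` vertices starting at `a` -/
noncomputable def psP {k : ℕ} (R : Fin k → Fin k → Prop) (n : ℕ) (a : Fin k) :
    Finset (Fin (n + 1) → Fin k) :=
  Finset.univ.filter fun x => x 0 = a ∧ ∀ i j : Fin (n + 1), (j : ℕ) = i + 1 → R (x i) (x j)

theorem psP_mem {k : ℕ} (R : Fin k → Fin k → Prop) (n : ℕ) (a : Fin k) (x : Fin (n + 1) → Fin k) :
    x ∈ psP R n a ↔ x 0 = a ∧ ∀ i j : Fin (n + 1), (j : ℕ) = i + 1 → R (x i) (x j) := by
  simp [psP]

theorem psP_zero {k : ℕ} (R : Fin k → Fin k → Prop) (a : Fin k) : (psP R 0 a).card = 1 := by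
  rw [Finset.card_eq_one]
  refine ⟨fun _ => a, ?_⟩
  ext x
  rw [psP_mem, Finset.mem_singleton]
  constructor
  · rintro ⟨h, _⟩
    funext i
    have hi : i = 0 := Fin.ext (by omega)
    rw [hi, h]
  · rintro rfl
    refine ⟨rfl, fun i j h => ?_⟩
    omega

open Classical in
theorem psP_succ {k : ℕ} (R : Fin k → Fin k → Prop) (n : ℕ) (a : Fin k) :
    (psP R (n + 1) a).card = ∑ y ∈ Finset.univ.filter (fun y => R a y), (psP R n y).card := by
  have hinj : Function.Injective (fun x : Fin (n + 1) → Fin k => (Fin.cons a x : Fin (n + 2) → Fin k)) :=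
    Fin.cons_right_injective (α := fun _ => Fin k) a
  have h : psP R (n + 1) a = (Finset.univ.filter (fun y => R a y)).biUnion
      (fun y => (psP R n y).image (fun x : Fin (n + 1) → Fin k => (Fin.cons a x : Fin (n + 2) → Fin k))) := by
    ext x
    rw [psP_mem, Finset.mem_biUnion]
    constructor
    · rintro ⟨h0, h1⟩
      refine ⟨x 1, ?_, ?_⟩
      · rw [Finset.mem_filter]
        refine ⟨Finset.mem_univ _, ?_⟩
        have := h1 0 1 (by simp)
        rwa [h0] at this
      · rw [Finset.mem_image]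
        refine ⟨fun i => x i.succ, ?_, ?_⟩
        · rw [psP_mem]
          refine ⟨by simp, fun i j hij => ?_⟩
          apply h1
          simp [hij]
        · funext i
          refine Fin.cases ?_ (fun i => ?_) i
          · simp [h0]
          · simp
    · rintro ⟨y, hy, hx⟩
      rw [Finset.mem_filter] at hy
      rw [Finset.mem_image] at hx
      obtain ⟨z, hz, rfl⟩ := hx
      rw [psP_mem] at hz
      refine ⟨by simp, fun i j hij => ?_⟩
      revert hij
      refine Fin.cases ?_ (fun i => ?_) i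
      · refine Fin.cases ?_ (fun j => ?_) j
        · intro hij; simp at hij
        · intro hij
          have hj : j = 0 := by
            apply Fin.ext
            simpa using hij
          subst hj
          simpa [hz.1] using hy.2
      · refine Fin.cases ?_ (fun j => ?_) j
        · intro hij; simp at hij
        · intro hij
          have : (j : ℕ) = i + 1 := by
            simpa using hij
          simpa using hz.2 i j this
  rw [h, Finset.card_biUnion]
  · apply Finset.sum_congr rfl
    intro y _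
    exact Finset.card_image_of_injective _ hinj
  · intro y _ y' _ hne
    rw [Function.onFun, Finset.disjoint_left]
    intro x hx hx'
    rw [Finset.mem_image] at hx hx'
    obtain ⟨z, hz, rfl⟩ := hx
    obtain ⟨z', hz', e⟩ := hx'
    have := hinj e
    subst this
    rw [psP_mem] at hz hz'
    exact hne (hz.1.symm.trans hz'.1)

open Classical in
theorem pathCnt_succ {k : ℕ} (R : Fin k → Fin k → Prop) (n : ℕ) :
    pathCnt R (n + 1) = ∑ a, (psP R n a).card := by
  have h : {x : Fin (n + 1) → Fin k | ∀ i j : Fin (n + 1), (j : ℕ) = i + 1 → R (x i) (x j)} =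
      ((Finset.univ.biUnion fun a => psP R n a : Finset (Fin (n + 1) → Fin k)) : Set _) := by
    ext x
    simp only [Set.mem_ofPred_eq, Finset.coe_biUnion, Finset.coe_univ, Set.mem_univ, Set.iUnion_true,
      Set.mem_iUnion, Finset.mem_coe, psP_mem]
    constructor
    · intro h
      exact ⟨x 0, rfl, h⟩
    · rintro ⟨_, _, h⟩
      exact h
  unfold pathCnt
  rw [h, Set.ncard_coe_finset, Finset.card_biUnion]
  intro y _ y' _ hne
  rw [Function.onFun, Finset.disjoint_left]
  intro x hx hx'
  rw [psP_mem] at hx hx'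
  exact hne (hx.1.symm.trans hx'.1)

open Classical in
/-- growth rate of a relation from a positive eigenvector of the transfer operator -/
theorem path_growth {k : ℕ} (hk : 0 < k) (R : Fin k → Fin k → Prop) (w : Fin k → ℝ)
    (hw : ∀ x, 0 < w x) (lam : ℝ) (hlam : 0 < lam)
    (he : ∀ x, ∑ y ∈ Finset.univ.filter (fun y => R x y), w y = lam * w x) :
    Tendsto (fun n : ℕ => Real.log (pathCnt R n) / n) atTop (𝓝 (Real.log lam)) := by
  have : Nonempty (Fin k) := ⟨⟨0, hk⟩⟩
  obtain ⟨xm, hxm⟩ := Finite.exists_min w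
  obtain ⟨xM, hxM⟩ := Finite.exists_max w
  have hm := hw xm
  have hM := hw xM
  have hlow : ∀ n x, lam ^ n * w x / w xM ≤ ((psP R n x).card : ℝ) := by
    intro n
    induction n with
    | zero =>
      intro x
      rw [psP_zero, pow_zero, one_mul, Nat.cast_one, div_le_one hM]
      exact hxM x
    | succ n ih =>
      intro x
      rw [psP_succ]
      push_cast
      calc lam ^ (n + 1) * w x / w xM = ∑ y ∈ Finset.univ.filter (fun y => R x y), lam ^ n * w y / w xM := by
            rw [← Finset.sum_div, ← Finset.mul_sum, he, pow_succ]; ring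
        _ ≤ _ := Finset.sum_le_sum fun y _ => ih y
  have hup : ∀ n x, ((psP R n x).card : ℝ) ≤ lam ^ n * w x / w xm := by
    intro n
    induction n with
    | zero =>
      intro x
      rw [psP_zero, pow_zero, one_mul, Nat.cast_one, one_le_div hm]
      exact hxm x
    | succ n ih =>
      intro x
      rw [psP_succ]
      push_cast
      calc ∑ y ∈ Finset.univ.filter (fun y => R x y), ((psP R n y).card : ℝ) ≤
            ∑ y ∈ Finset.univ.filter (fun y => R x y), lam ^ n * w y / w xm :=
            Finset.sum_le_sum fun y _ => ih y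
        _ = _ := by
            rw [← Finset.sum_div, ← Finset.mul_sum, he, pow_succ]; ring
  set S : ℝ := ∑ x, w x with hS
  have hSpos : 0 < S := Finset.sum_pos (fun x _ => hw x) Finset.univ_nonempty
  have hlow' : ∀ n : ℕ, lam ^ n * (S / w xM) ≤ (pathCnt R (n + 1) : ℝ) := by
    intro n
    rw [pathCnt_succ]
    push_cast
    calc lam ^ n * (S / w xM) = ∑ x, lam ^ n * w x / w xM := by
          rw [← Finset.sum_div, ← Finset.mul_sum]; ring
      _ ≤ _ := Finset.sum_le_sum fun y _ => hlow n y
  have hup' : ∀ n : ℕ, (pathCnt R (n + 1) : ℝ) ≤ lam ^ n * (S / w xm) := by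
    intro n
    rw [pathCnt_succ]
    push_cast
    calc ∑ x, ((psP R n x).card : ℝ) ≤ ∑ x, lam ^ n * w x / w xm :=
          Finset.sum_le_sum fun y _ => hup n y
      _ = _ := by
          rw [← Finset.sum_div, ← Finset.mul_sum]; ring
  -- pass to logs
  have key : Tendsto (fun n : ℕ => Real.log (pathCnt R (n + 1)) / ((n + 1 : ℕ) : ℝ)) atTop
      (𝓝 (Real.log lam)) := by
    have hlim : Tendsto (fun n : ℕ => (n : ℝ) / ((n + 1 : ℕ) : ℝ)) atTop (𝓝 1) := by
      have := tendsto_natCast_div_add_atTop (𝕜 := ℝ) (1 : ℝ)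
      refine this.congr fun n => ?_
      push_cast; rfl
    have h0 : ∀ C : ℝ, Tendsto (fun n : ℕ => C / ((n + 1 : ℕ) : ℝ)) atTop (𝓝 0) := by
      intro C
      exact (tendsto_const_div_atTop_nhds_zero_nat C).comp (tendsto_add_atTop_nat 1)
    have hf : ∀ C : ℝ, Tendsto (fun n : ℕ => (n : ℝ) / ((n + 1 : ℕ) : ℝ) * Real.log lam +
        C / ((n + 1 : ℕ) : ℝ)) atTop (𝓝 (Real.log lam)) := by
      intro C
      have := (hlim.mul_const (Real.log lam)).add (h0 C)
      simpa using this
    refine tendsto_of_tendsto_of_tendsto_of_le_of_le (hf (Real.log (S / w xM)))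
      (hf (Real.log (S / w xm))) ?_ ?_
    · intro n
      have hn : (0:ℝ) < ((n + 1 : ℕ) : ℝ) := by positivity
      have h1 : Real.log (lam ^ n * (S / w xM)) ≤ Real.log (pathCnt R (n + 1)) :=
        Real.log_le_log (by positivity) (hlow' n)
      rw [Real.log_mul (by positivity) (by positivity), Real.log_pow] at h1
      show (n : ℝ) / ((n + 1 : ℕ) : ℝ) * Real.log lam + Real.log (S / w xM) / ((n + 1 : ℕ) : ℝ) ≤
        Real.log (pathCnt R (n + 1)) / ((n + 1 : ℕ) : ℝ)
      rw [div_mul_eq_mul_div, ← add_div]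
      exact div_le_div_of_nonneg_right h1 hn.le
    · intro n
      have hn : (0:ℝ) < ((n + 1 : ℕ) : ℝ) := by positivity
      have hpos : (0:ℝ) < (pathCnt R (n + 1) : ℝ) := lt_of_lt_of_le (by positivity) (hlow' n)
      have h1 : Real.log (pathCnt R (n + 1)) ≤ Real.log (lam ^ n * (S / w xm)) :=
        Real.log_le_log hpos (hup' n)
      rw [Real.log_mul (by positivity) (by positivity), Real.log_pow] at h1
      show Real.log (pathCnt R (n + 1)) / ((n + 1 : ℕ) : ℝ) ≤
        (n : ℝ) / ((n + 1 : ℕ) : ℝ) * Real.log lam + Real.log (S / w xm) / ((n + 1 : ℕ) : ℝ)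
      rw [div_mul_eq_mul_div, ← add_div]
      exact div_le_div_of_nonneg_right h1 hn.le
  exact (tendsto_add_atTop_iff_nat 1).mp key

end PathSysAux

theorem path_sys_of_fun {ι : Type} [Fintype ι] [DecidableEq ι] [Nonempty ι]
    (B : ι → ι → ℕ) (hB : ∀ i j, 0 < B i j) (v : ι → ℝ) (hv : ∀ i, 0 < v i) (μ : ℝ)
    (hμ : ∀ i, ∑ j, (B i j : ℝ) * v j = μ * v i) (b : ℕ) (hb : 0 < b) :
    ∃ (k : ℕ) (R : Fin k → Fin k → Prop), 0 < k ∧
      Tendsto (fun n : ℕ => Real.log (pathCnt R n) / n) atTop (𝓝 (Real.log μ / b)) := by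
  classical
  -- positivity of the eigenvalue
  have hμpos : 0 < μ := by
    obtain ⟨i⟩ := (inferInstance : Nonempty ι)
    have h1 : 0 < ∑ j, (B i j : ℝ) * v j := by
      apply Finset.sum_pos
      · intro j _
        have : (0:ℝ) < B i j := by exact_mod_cast hB i j
        exact mul_pos this (hv j)
      · exact ⟨i, Finset.mem_univ i⟩
    rw [hμ i] at h1
    exact pos_of_mul_pos_left h1 (hv i).le
  set lam : ℝ := μ ^ ((1:ℝ) / b) with hlam
  have hbR : (0:ℝ) < b := by exact_mod_cast hb
  have hlampos : 0 < lam := Real.rpow_pos_of_pos hμpos _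
  have hlamb : lam ^ b = μ := by
    rw [hlam, ← Real.rpow_natCast, ← Real.rpow_mul hμpos.le, one_div, inv_mul_cancel₀ hbR.ne',
      Real.rpow_one]
  have hloglam : Real.log lam = Real.log μ / b := by
    rw [hlam, Real.log_rpow hμpos]; ring
  -- alphabet
  let Rα : (Fin b × (Σ i : ι, Σ j : ι, Fin (B i j))) → (Fin b × (Σ i : ι, Σ j : ι, Fin (B i j))) → Prop := fun x y =>
    ((x.1 : ℕ) + 1 < b ∧ (y.1 : ℕ) = x.1 + 1 ∧ y.2 = x.2) ∨
      ((x.1 : ℕ) + 1 = b ∧ (y.1 : ℕ) = 0 ∧ y.2.1 = x.2.2.1)
  let wα : (Fin b × (Σ i : ι, Σ j : ι, Fin (B i j))) → ℝ := fun x => lam ^ (x.1 : ℕ) * v x.2.2.1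
  have hwα : ∀ x, 0 < wα x := fun x => mul_pos (pow_pos hlampos _) (hv _)
  have heα : ∀ x : (Fin b × (Σ i : ι, Σ j : ι, Fin (B i j))), ∑ y ∈ Finset.univ.filter (fun y => Rα x y), wα y = lam * wα x := by
    rintro ⟨p, e⟩
    by_cases hp : (p : ℕ) + 1 < b
    · have hset : Finset.univ.filter (fun y => Rα (p, e) y) = {((⟨p + 1, hp⟩ : Fin b), e)} := by
        ext ⟨p', e'⟩
        simp only [Finset.mem_filter, Finset.mem_univ, true_and, Finset.mem_singleton, Rα]
        constructor
        · rintro (⟨_, h2, h3⟩ | ⟨h1, _, _⟩)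
          · exact Prod.ext (Fin.ext h2) h3
          · omega
        · intro h
          rw [Prod.mk.injEq] at h
          left
          refine ⟨hp, ?_, h.2⟩
          rw [h.1]
      rw [hset, Finset.sum_singleton]
      simp only [wα]
      rw [pow_succ]; ring
    · have hp1 : (p : ℕ) + 1 = b := by have := p.2; omega
      have hset : Finset.univ.filter (fun y => Rα (p, e) y) =
          (Finset.univ.filter (fun e' : (Σ i : ι, Σ j : ι, Fin (B i j)) => e'.1 = e.2.1)).image
            (fun e' => ((⟨0, hb⟩ : Fin b), e')) := by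
        ext ⟨p', e'⟩
        simp only [Finset.mem_filter, Finset.mem_univ, true_and, Finset.mem_image, Rα]
        constructor
        · rintro (⟨h1, _, _⟩ | ⟨_, h2, h3⟩)
          · omega
          · exact ⟨e', h3, Prod.ext (Fin.ext h2.symm) rfl⟩
        · rintro ⟨e'', h1, h2⟩
          rw [Prod.mk.injEq] at h2
          right
          refine ⟨hp1, ?_, ?_⟩
          · rw [← h2.1]
          · rw [← h2.2]; exact h1
      rw [hset, Finset.sum_image (by
        intro x _ y _ h
        exact (Prod.mk.inj h).2)]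
      simp only [wα]
      rw [Finset.sum_filter]
      have h1 : (∑ e' : (Σ i : ι, Σ j : ι, Fin (B i j)), if e'.1 = e.2.1 then lam ^ (0:ℕ) * v e'.2.1 else 0) =
          ∑ j, (B e.2.1 j : ℝ) * v j := by
        rw [Fintype.sum_sigma]
        rw [Finset.sum_eq_single e.2.1]
        · rw [Fintype.sum_sigma]
          apply Finset.sum_congr rfl
          intro j _
          simp
        · intro i _ hi
          apply Finset.sum_eq_zero
          intro j _
          simp [hi]
        · intro h
          exact absurd (Finset.mem_univ _) h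
      rw [h1, hμ, ← hlamb, ← mul_assoc, ← pow_succ', hp1]
  -- transfer to Fin k
  let eqv := Fintype.equivFin (Fin b × (Σ i : ι, Σ j : ι, Fin (B i j)))
  have hne : Nonempty (Fin b × (Σ i : ι, Σ j : ι, Fin (B i j))) := by
    obtain ⟨i⟩ := (inferInstance : Nonempty ι)
    exact ⟨(⟨0, hb⟩, ⟨i, i, ⟨0, hB i i⟩⟩)⟩
  refine ⟨Fintype.card (Fin b × (Σ i : ι, Σ j : ι, Fin (B i j))), fun x y => Rα (eqv.symm x) (eqv.symm y), Fintype.card_pos, ?_⟩
  rw [← hloglam]
  apply path_growth Fintype.card_pos _ (fun x => wα (eqv.symm x)) (fun x => hwα _) lam hlampos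
  intro x
  rw [← heα (eqv.symm x)]
  rw [Finset.sum_filter, Finset.sum_filter]
  refine Eq.trans ?_ (Equiv.sum_comp eqv.symm (fun y => if Rα (eqv.symm x) y then wα y else 0))
  apply Finset.sum_congr rfl
  intro y _
  congr

theorem path_sys_of_matrix {ι : Type} [Fintype ι] [DecidableEq ι] [Nonempty ι]
    (B : Matrix ι ι ℕ) (hB : ∀ i j, 0 < B i j) (v : ι → ℝ) (hv : ∀ i, 0 < v i) (μ : ℝ)
    (hμ : ∀ i, ∑ j, (B i j : ℝ) * v j = μ * v i) (b : ℕ) (hb : 0 < b) :
    ∃ (k : ℕ) (R : Fin k → Fin k → Prop), 0 < k ∧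
      Tendsto (fun n : ℕ => Real.log (pathCnt R n) / n) atTop (𝓝 (Real.log μ / b)) :=
  path_sys_of_fun (fun i j => B i j) hB v hv μ hμ b hb

theorem path_sys (q : ℚ) (hq : 0 < q) (l : ℝ) (hl : 1 ≤ l) (hint : IsIntegral ℤ l)
    (hperron : ∀ z : ℂ, Polynomial.aeval z (minpoly ℤ l) = 0 → z ≠ (l : ℂ) → ‖z‖ < l) :
    ∃ (k : ℕ) (R : Fin k → Fin k → Prop), 0 < k ∧
      Tendsto (fun n : ℕ => Real.log (pathCnt R n) / n) atTop (𝓝 ((q : ℝ) * Real.log l)) := by
  rcases hl.eq_or_lt with h1 | h1
  · refine ⟨1, fun _ _ => True, one_pos, ?_⟩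
    have : ∀ n : ℕ, pathCnt (k := 1) (fun _ _ => True) n = 1 := by
      intro n
      unfold pathCnt
      rw [Set.ncard_eq_one]
      refine ⟨fun _ => 0, ?_⟩
      ext x
      simp only [Set.mem_ofPred_eq, implies_true, Set.mem_singleton_iff, true_iff]
      funext i
      exact Subsingleton.elim _ _
    simp [this, ← h1]
  · obtain ⟨m, d, B, v, hm, hd, hB, hv, he⟩ := lind l h1 hint hperron
    set a : ℕ := q.num.toNat with ha
    have hnum : 0 < q.num := Rat.num_pos.mpr hq
    have haZ : (a : ℤ) = q.num := Int.toNat_of_nonneg hnum.le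
    have hqR : (q : ℝ) = (a : ℝ) / q.den := by
      rw [Rat.cast_def, ← haZ]; push_cast; rfl
    have : Nonempty (Fin a → Fin d) := ⟨fun _ => ⟨0, hd⟩⟩
    have h2 := path_sys_of_matrix (ι := Fin a → Fin d)
      (fun i j => ∏ s, B (i s) (j s)) (fun i j => Finset.prod_pos fun s _ => hB _ _)
      (fun i => ∏ s, v (i s)) (fun i => Finset.prod_pos fun s _ => hv _)
      (l ^ (m * a)) ?_ (q.den * m) (Nat.mul_pos q.den_pos hm)
    · obtain ⟨k, R, hk, hR⟩ := h2
      refine ⟨k, R, hk, ?_⟩
      have hmR : (m : ℝ) ≠ 0 := by exact_mod_cast hm.ne'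
      have hdR : (q.den : ℝ) ≠ 0 := by exact_mod_cast q.den_pos.ne'
      have e1 : Real.log (l ^ (m * a)) / ((q.den * m : ℕ) : ℝ) = (q : ℝ) * Real.log l := by
        rw [Real.log_pow, hqR]
        push_cast
        field_simp
      rw [← e1]
      exact hR
    · intro i
      have e2 : ∀ j : Fin a → Fin d, ((∏ s, B (i s) (j s) : ℕ) : ℝ) * ∏ s, v (j s) =
          ∏ s, ((B (i s) (j s) : ℝ) * v (j s)) := by
        intro j
        rw [Finset.prod_mul_distrib]
        push_cast
        rfl
      simp_rw [e2]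
      rw [← Fintype.piFinset_univ, ← Finset.prod_univ_sum (fun _ => Finset.univ)
        (fun s t => (B (i s) t : ℝ) * v t)]
      simp_rw [he]
      rw [Finset.prod_mul_distrib, Finset.prod_const, Finset.card_univ, Fintype.card_fin, ← pow_mul]

end Pool.Agent.H45.Ent
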