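/-
Systems without `a`-constraints: the entropy does not depend on the tower.
MP_f39e07_an, owner helper45.

PROOF.  If `F.Ra` is always true, a locally admissible labeling of `W_n = ⋃_{j<n} t^{-j} A(n)` is a
family, indexed by `h ∈ A(n)`, of `R`-paths `i ↦ x (t^{-(n-1-i)} h)`, `i : Fin n` (the level
increases along `t`-edges; `t · t^{-j} h = t^{-(j-1)} h`).  So `M_n = (pathCnt F.Rt n) ^ |A(n)|`
and `u_n = log (pathCnt F.Rt n) / n` (`ncard_W`).  `tendsto_u` gives the limit.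
-/
import Pool.Agent.H45.Ent.Local
import Pool.Agent.H45.Ent.PathSys

set_option autoImplicit false

open Filter Topology

namespace Pool.Agent.H45.Ent

/-- the point `t^{-(n-1-i)} h` of the block `W_n` -/
def tonlyPt (T : Tower) (n : ℕ) (p : Fin n × T.A n) : T.W n :=
  ⟨(T.t ^ (n - 1 - (p.1 : ℕ)))⁻¹ * (p.2 : T.G),
    T.mem_Pi_iff_exists.2 ⟨n - 1 - (p.1 : ℕ), by have := p.1.2; omega, _, p.2.2, rfl⟩⟩

theorem tonlyPt_val (T : Tower) (n : ℕ) (p : Fin n × T.A n) :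
    ((tonlyPt T n p : T.W n) : T.G) = (T.t ^ (n - 1 - (p.1 : ℕ)))⁻¹ * (p.2 : T.G) := rfl

theorem lv_tonlyPt (T : Tower) (n : ℕ) (p : Fin n × T.A n) :
    T.lv (tonlyPt T n p : T.W n) = -((n - 1 - (p.1 : ℕ) : ℕ) : ℤ) := by
  rw [tonlyPt_val, Tower.lv_mul, Tower.lv_inv, Tower.lv_pow, Tower.lv_t, T.lv_win p.2.2]
  ring

theorem tonlyPt_bij (T : Tower) (n : ℕ) : Function.Bijective (tonlyPt T n) := by
  constructor
  · rintro ⟨i, h⟩ ⟨i', h'⟩ heq
    have h1 := congrArg (fun w : T.W n => T.lv (w : T.G)) heq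
    simp only [lv_tonlyPt] at h1
    have hi := i.2
    have hi' := i'.2
    have h2 : i = i' := Fin.ext (by omega)
    subst h2
    have h3 := congrArg (fun w : T.W n => (w : T.G)) heq
    simp only [tonlyPt_val] at h3
    rw [Prod.mk.injEq]
    exact ⟨rfl, Subtype.ext (mul_left_cancel h3)⟩
  · rintro ⟨w, hw⟩
    obtain ⟨j, hj, h, hh, rfl⟩ := T.mem_Pi_iff_exists.1 hw
    refine ⟨(⟨n - 1 - j, by omega⟩, ⟨h, hh⟩), ?_⟩
    apply Subtype.ext
    rw [tonlyPt_val]
    have h1 : n - 1 - (n - 1 - j) = j := by omega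
    show (T.t ^ (n - 1 - (n - 1 - j)))⁻¹ * h = _
    rw [h1]

theorem tonlyPt_succ (T : Tower) (n : ℕ) (i j : Fin n) (h : T.A n) (hij : (j : ℕ) = i + 1) :
    ((tonlyPt T n (j, h) : T.W n) : T.G) = T.t * (tonlyPt T n (i, h) : T.W n) := by
  rw [tonlyPt_val, tonlyPt_val]
  have hj := j.2
  have h1 : n - 1 - (i : ℕ) = (n - 1 - (j : ℕ)) + 1 := by omega
  show (T.t ^ (n - 1 - (j : ℕ)))⁻¹ * (h : T.G) = T.t * ((T.t ^ (n - 1 - (i : ℕ)))⁻¹ * (h : T.G))
  rw [h1, pow_succ]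
  group

theorem tonlyPt_edge (T : Tower) (n : ℕ) (i j : Fin n) (h h' : T.A n)
    (he : ((tonlyPt T n (j, h') : T.W n) : T.G) = T.t * (tonlyPt T n (i, h) : T.W n)) :
    (j : ℕ) = i + 1 ∧ h' = h := by
  have h1 := congrArg T.lv he
  rw [Tower.lv_mul, lv_tonlyPt, lv_tonlyPt, Tower.lv_t] at h1
  have hi := i.2
  have hj := j.2
  have h2 : (j : ℕ) = i + 1 := by
    simp only at h1
    omega
  refine ⟨h2, ?_⟩
  rw [← tonlyPt_succ T n i j h h2, tonlyPt_val, tonlyPt_val] at he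
  exact Subtype.ext (mul_left_cancel he)

/-- patterns on `W_n` without `a`-constraints -/
theorem tonly_image (T : Tower) (F : Sys) (hF : ∀ x y, F.Ra x y) {n : ℕ} (hn : 0 < n) :
    (fun (x : T.G → Fin F.k) (i : T.W n) => x i) '' F.loc T.a T.t (T.W n) =
      {p | ∀ w w' : T.W n, (w' : T.G) = T.t * w → F.Rt (p w) (p w')} := by
  classical
  ext p
  constructor
  · rintro ⟨x, hx, rfl⟩ w w' hww
    have h1 := (hx w w.2).2 (by rw [← hww]; exact w'.2)
    show F.Rt (x w) (x w')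
    rw [hww]
    exact h1
  · intro hp
    refine ⟨fun g => if hg : g ∈ T.W n then p ⟨g, hg⟩ else p ⟨1, T.one_mem_Pi hn⟩, ?_, ?_⟩
    · intro g hg
      refine ⟨fun _ => hF _ _, fun htg => ?_⟩
      simp only [dif_pos hg, dif_pos htg]
      exact hp ⟨g, hg⟩ ⟨T.t * g, htg⟩ rfl
    · funext w
      simp only [dif_pos w.2]

/-- (for `n = 0` and the empty alphabet the statement is false, hence `0 < n`) -/
theorem M_tonly (T : Tower) (F : Sys) (hF : ∀ x y, F.Ra x y) {n : ℕ} (hn : 0 < n) :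
    T.M F n = pathCnt F.Rt n ^ Nat.card (T.A n) := by
  classical
  unfold Tower.M Sys.locCnt cnt
  rw [tonly_image T F hF hn]
  unfold pathCnt
  rw [← Nat.card_coe_set_eq, ← Nat.card_coe_set_eq, ← Nat.card_fun]
  refine Nat.card_eq_of_bijective (fun p (h : T.A n) => ⟨fun i : Fin n => p.1 (tonlyPt T n (i, h)),
    fun i j hij => p.2 _ _ (tonlyPt_succ T n i j h hij)⟩) ⟨?_, ?_⟩
  · intro p p' hpp
    apply Subtype.ext
    funext w
    obtain ⟨⟨i, h⟩, rfl⟩ := (tonlyPt_bij T n).2 w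
    have h1 := congrFun hpp h
    have h2 := congrArg Subtype.val h1
    exact congrFun h2 i
  · intro f
    let e := Equiv.ofBijective _ (tonlyPt_bij T n)
    have he : ∀ i h, e.symm (tonlyPt T n (i, h)) = (i, h) := fun i h => e.symm_apply_apply (i, h)
    refine ⟨⟨fun w => (f (e.symm w).2).1 (e.symm w).1, ?_⟩, ?_⟩
    · intro w w' hww
      obtain ⟨⟨i, h⟩, rfl⟩ := (tonlyPt_bij T n).2 w
      obtain ⟨⟨j, h'⟩, rfl⟩ := (tonlyPt_bij T n).2 w'
      obtain ⟨hij, rfl⟩ := tonlyPt_edge T n i j h h' hww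
      simp only [he]
      exact (f h').2 i j hij
    · funext h
      apply Subtype.ext
      funext i
      simp only [he]

theorem tendsto_tonly (T : Tower) (F : Sys) (hF : ∀ x y, F.Ra x y) :
    Tendsto (fun n : ℕ => Real.log (pathCnt F.Rt n) / n) atTop (𝓝 (T.ent F)) := by
  refine (T.tendsto_u F).congr' ?_
  filter_upwards [eventually_gt_atTop 0] with n hn
  unfold Tower.u
  rw [M_tonly T F hF hn, T.ncard_W]
  push_cast
  rw [Real.log_pow]
  have h1 : (n : ℝ) ≠ 0 := by exact_mod_cast hn.ne'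
  have h2 : (Nat.card (T.A n) : ℝ) ≠ 0 := by exact_mod_cast Nat.card_pos.ne'
  field_simp

theorem ent_tonly_eq (T T' : Tower) (F : Sys) (hF : ∀ x y, F.Ra x y) : T.ent F = T'.ent F :=
  tendsto_nhds_unique (tendsto_tonly T F hF) (tendsto_tonly T' F hF)

end Pool.Agent.H45.Ent
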