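/-
Upper bound: `ent_T(F) ≤ log cut(s,F) / |Z|` if `T` fits the stage `s`.
MP_f39e07_an, owner helper45.

PROOF.  Let `n = s.n`, `H = T.A n`.  `G` acts on `s.Ω` (`Fits.rho`, see ActG.lean, which also
has `rho_mem_Z`, `ph_rho`, `rho_free`).  `Z` and the phases: `ph (g • z) = ph z + lv g`
for `z ∈ Z`.  An element of `H` fixing a point of `Z` is trivial (`Stage.free`, `Fits.inj`,
`Tower.exists_word`).  Let `Z₋₁ = {z ∈ Z | ph z = -1}`; `H` acts freely on it.  Choose orbit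
representatives `z_O` and distinct naturals `i_O`, and put `g_O = t^{n i_O}`.  Every `z ∈ Z` is
uniquely `t^{-j} h • z_O` with `j < n`, `h ∈ H` (`j` from the phase of `z`), put
`θ z = t^{-j} h g_O`.  Then `θ` is injective (levels in `(n i_O - n, n i_O]` determine `j` and
`i_O`, hence `O`; then `h`), `θ (al z) = a θ z` (`a t^{-j} h = t^{-j} a_j h`, `a_j ∈ H` for
`j < n`) and `θ (ta z) = t θ z` if `ph z ≠ -1` (`j ≥ 1`).
Take the finite set `S = θ '' Z ⊆ G`, `|S| = |Z|`.  For `x` in the shift, `x ∘ θ` (extended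
arbitrarily outside `Z`) is a cut labeling, so `cnt (shift) S ≤ cut` (`cnt_le_of_inj`), and
`|S| ent ≤ log cnt (shift) S` (`card_mul_entX_le`, EntGen.lean).
-/
import Pool.Agent.H45.Ent.Local
import Pool.Agent.H45.Ent.ActG
import Pool.Agent.H45.Ent.Phase

set_option autoImplicit false

namespace Pool.Agent.H45.Ent

namespace Upper

variable {T : Tower} {s : Stage} (hf : Fits T s)

/-- orbits of the window group on the stage -/
def orb : Setoid s.Ω where
  r x y := ∃ g ∈ T.A s.n, hf.rho g x = y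
  iseqv := by
    refine ⟨fun x => ⟨1, Subgroup.one_mem _, by simp⟩, ?_, ?_⟩
    · rintro x y ⟨g, hg, h⟩
      refine ⟨g⁻¹, Subgroup.inv_mem _ hg, ?_⟩
      rw [← h, ← Equiv.Perm.mul_apply, ← map_mul, inv_mul_cancel, map_one, Equiv.Perm.one_apply]
    · rintro x y z ⟨g, hg, h⟩ ⟨g', hg', h'⟩
      exact ⟨g' * g, Subgroup.mul_mem _ hg' hg, by rw [map_mul, Equiv.Perm.mul_apply, h, h']⟩

/-- number of an orbit -/
noncomputable def idx (O : Quotient (orb hf)) : ℕ := (Finite.equivFin (Quotient (orb hf)) O).val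

theorem idx_inj : Function.Injective (idx hf) :=
  Fin.val_injective.comp (Finite.equivFin (Quotient (orb hf))).injective

/-- `z = t^{-j} g • z_O` -/
structure Rep (z : s.Ω) (j : ℕ) (g : T.G) (O : Quotient (orb hf)) : Prop where
  hj : j < s.n
  hg : g ∈ T.A s.n
  eq : hf.rho (T.t ^ j) z = hf.rho g O.out
  mem : O.out ∈ s.Z
  ph : s.ph O.out = -1

theorem exists_rep {z : s.Ω} (hz : z ∈ s.Z) : ∃ j g O, Rep hf z j g O := by
  have : NeZero s.n := ⟨s.npos.ne'⟩
  have hy : hf.rho (T.t ^ (-1 - s.ph z).val) z ∈ s.Z := (hf.rho_mem_Z _).2 hz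
  obtain ⟨g, hg, h⟩ := Quotient.exact (Quotient.out_eq
    (Quotient.mk (orb hf) (hf.rho (T.t ^ (-1 - s.ph z).val) z)))
  have hmem : (Quotient.mk (orb hf) (hf.rho (T.t ^ (-1 - s.ph z).val) z)).out ∈ s.Z := by
    rw [← hf.rho_mem_Z g, h]; exact hy
  refine ⟨(-1 - s.ph z).val, g, _, ⟨ZMod.val_lt _, hg, h.symm, hmem, ?_⟩⟩
  have h1 := hf.ph_rho g hmem
  have h2 := hf.ph_rho (T.t ^ (-1 - s.ph z).val) hz
  rw [h, h2, T.lv_win hg, T.lv_pow, T.lv_t, mul_one] at h1
  push_cast at h1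
  rw [ZMod.natCast_zmod_val, add_zero] at h1
  rw [← h1]
  ring

theorem Rep.memZ {z : s.Ω} {j : ℕ} {g : T.G} {O : Quotient (orb hf)} (h : Rep hf z j g O) :
    z ∈ s.Z := by
  rw [← hf.rho_mem_Z (T.t ^ j), h.eq, hf.rho_mem_Z]
  exact h.mem

theorem Rep.phase {z : s.Ω} {j : ℕ} {g : T.G} {O : Quotient (orb hf)} (h : Rep hf z j g O) :
    s.ph z + (j : ZMod s.n) = -1 := by
  have h1 := hf.ph_rho g h.mem
  have h2 := hf.ph_rho (T.t ^ j) (h.memZ hf)
  rw [← h.eq, h2, T.lv_win h.hg, T.lv_pow, T.lv_t, mul_one, h.ph] at h1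
  push_cast at h1
  rw [add_zero] at h1
  exact h1

theorem Rep.unique {z : s.Ω} {j j' : ℕ} {g g' : T.G} {O O' : Quotient (orb hf)}
    (h : Rep hf z j g O) (h' : Rep hf z j' g' O') : j = j' ∧ g = g' ∧ O = O' := by
  have : NeZero s.n := ⟨s.npos.ne'⟩
  have h1 := h.phase hf
  have h2 := h'.phase hf
  have hj : j = j' := by
    have h3 : (j : ZMod s.n) = (j' : ZMod s.n) := add_left_cancel (h1.trans h2.symm)
    have h4 := congrArg ZMod.val h3
    rwa [ZMod.val_natCast_of_lt h.hj, ZMod.val_natCast_of_lt h'.hj] at h4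
  subst hj
  have h5 : hf.rho g O.out = hf.rho g' O'.out := h.eq.symm.trans h'.eq
  have h6 : hf.rho (g'⁻¹ * g) O.out = O'.out := by
    rw [map_mul, Equiv.Perm.mul_apply, h5, ← Equiv.Perm.mul_apply, ← map_mul, inv_mul_cancel,
      map_one, Equiv.Perm.one_apply]
  have hO : O = O' := by
    rw [← Quotient.out_eq O, ← Quotient.out_eq O']
    exact Quotient.sound ⟨g'⁻¹ * g, Subgroup.mul_mem _ (Subgroup.inv_mem _ h'.hg) h.hg, h6⟩
  subst hO
  have h7 := hf.rho_free (Subgroup.mul_mem _ (Subgroup.inv_mem _ h'.hg) h.hg) h.mem h6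
  exact ⟨rfl, (inv_mul_eq_one.1 h7).symm, rfl⟩

theorem exists_th : ∃ θ : s.Ω → T.G, ∀ z j g O, Rep hf z j g O →
    θ z = (T.t ^ j)⁻¹ * g * T.t ^ (s.n * idx hf O) := by
  classical
  refine ⟨fun z => if h : ∃ x : ℕ × T.G × Quotient (orb hf), Rep hf z x.1 x.2.1 x.2.2 then
    (T.t ^ h.choose.1)⁻¹ * h.choose.2.1 * T.t ^ (s.n * idx hf h.choose.2.2) else 1, ?_⟩
  intro z j g O h
  have hex : ∃ x : ℕ × T.G × Quotient (orb hf), Rep hf z x.1 x.2.1 x.2.2 := ⟨(j, g, O), h⟩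
  simp only [dif_pos hex]
  obtain ⟨h1, h2, h3⟩ := hex.choose_spec.unique hf h
  rw [h1, h2, h3]

theorem Rep.al {z : s.Ω} {j : ℕ} {g : T.G} {O : Quotient (orb hf)} (h : Rep hf z j g O) :
    Rep hf (s.al z) j (aj T.a T.t j * g) O where
  hj := h.hj
  hg := Subgroup.mul_mem _ (aj_mem_win T.a T.t h.hj) h.hg
  eq := by
    rw [map_mul, Equiv.Perm.mul_apply, ← h.eq, ← hf.rho_a, ← Equiv.Perm.mul_apply,
      ← Equiv.Perm.mul_apply, ← map_mul, ← map_mul]
    congr 2
    simp [aj]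
  mem := h.mem
  ph := h.ph

theorem Rep.ta {z : s.Ω} {j : ℕ} {g : T.G} {O : Quotient (orb hf)} (h : Rep hf z (j + 1) g O) :
    Rep hf (s.ta z) j g O where
  hj := (Nat.lt_succ_self j).trans h.hj
  hg := h.hg
  eq := by
    rw [← h.eq, ← hf.rho_t, ← Equiv.Perm.mul_apply, ← map_mul, pow_succ]
  mem := h.mem
  ph := h.ph

theorem Rep.inj {z z' : s.Ω} {j j' : ℕ} {g g' : T.G} {O O' : Quotient (orb hf)}
    (h : Rep hf z j g O) (h' : Rep hf z' j' g' O')
    (he : (T.t ^ j)⁻¹ * g * T.t ^ (s.n * idx hf O) =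
      (T.t ^ j')⁻¹ * g' * T.t ^ (s.n * idx hf O')) : z = z' := by
  have h1 := congrArg T.lv he
  simp only [Tower.lv_mul, Tower.lv_inv, Tower.lv_pow, Tower.lv_t, T.lv_win h.hg,
    T.lv_win h'.hg, mul_one, add_zero] at h1
  have hj := h.hj
  have hj' := h'.hj
  have hidx : idx hf O = idx hf O' := by
    have h2 : (s.n : ℤ) * ((idx hf O : ℤ) - idx hf O') = (j : ℤ) - j' := by
      push_cast at h1
      linarith
    have h3 : |(j : ℤ) - j'| < s.n := by
      rw [abs_lt]; constructor <;> omega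
    rw [← h2, abs_mul] at h3
    have hn : (0 : ℤ) < s.n := by exact_mod_cast s.npos
    rw [abs_of_pos hn] at h3
    have h4 : |(idx hf O : ℤ) - idx hf O'| < 1 := by
      by_contra hcon
      push Not at hcon
      nlinarith
    have h5 : (idx hf O : ℤ) - idx hf O' = 0 := Int.abs_lt_one_iff.1 h4
    omega
  have hO := idx_inj hf hidx
  subst hO
  have hjj : j = j' := by omega
  subst hjj
  have hgg : g = g' := by
    have := mul_right_cancel he
    exact mul_left_cancel this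
  subst hgg
  exact (hf.rho (T.t ^ j)).injective (h.eq.trans h'.eq.symm)

end Upper

theorem ent_le_cut (T : Tower) (s : Stage) (hfit : Fits T s) (F : Sys) :
    T.ent F ≤ Real.log (s.cut F) / (s.Z.ncard : ℝ) := by
  obtain ⟨θ, hθ⟩ := Upper.exists_th hfit
  have hinj : Set.InjOn θ s.Z := by
    intro z hz z' hz' h
    obtain ⟨j, g, O, hr⟩ := Upper.exists_rep hfit hz
    obtain ⟨j', g', O', hr'⟩ := Upper.exists_rep hfit hz'
    rw [hθ _ _ _ _ hr, hθ _ _ _ _ hr'] at h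
    exact hr.inj hfit hr' h
  have hal : ∀ z ∈ s.Z, θ (s.al z) = T.a * θ z := by
    intro z hz
    obtain ⟨j, g, O, hr⟩ := Upper.exists_rep hfit hz
    rw [hθ _ _ _ _ hr, hθ _ _ _ _ (hr.al hfit)]
    simp [aj, mul_assoc]
  have hta : ∀ z ∈ s.Z, s.ph z ≠ -1 → θ (s.ta z) = T.t * θ z := by
    intro z hz hp
    obtain ⟨j, g, O, hr⟩ := Upper.exists_rep hfit hz
    cases j with
    | zero =>
      have := hr.phase hfit
      rw [Nat.cast_zero, add_zero] at this
      exact absurd this hp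
    | succ j =>
      rw [hθ _ _ _ _ hr, hθ _ _ _ _ (hr.ta hfit), pow_succ]
      simp [mul_assoc]
  have hZ : (0 : ℝ) < s.Z.ncard := by exact_mod_cast s.Z_ncard_pos
  have hcut : cnt (F.shift T.a T.t) (θ '' s.Z) ≤ s.cut F := by
    refine cnt_le_cnt_comp (Set.toFinite _) θ ?_
    intro x hx z hz
    refine ⟨?_, fun hp => ?_⟩
    · show F.Ra (x (θ z)) (x (θ (s.al z)))
      rw [hal z hz]
      exact (hx _).1
    · show F.Rt (x (θ z)) (x (θ (s.ta z)))
      rw [hta z hz hp]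
      exact (hx _).2
  have h1 := card_mul_entX_le (F.shift T.a T.t) (θ '' s.Z) ((Set.toFinite _).image θ)
  rw [Set.InjOn.ncard_image hinj] at h1
  rw [le_div_iff₀ hZ, mul_comm]
  refine h1.trans ?_
  rcases Nat.eq_zero_or_pos (cnt (F.shift T.a T.t) (θ '' s.Z)) with h0 | h0
  · rw [h0, Nat.cast_zero, Real.log_zero]
    exact Real.log_natCast_nonneg _
  · exact Real.log_le_log (by exact_mod_cast h0) (by exact_mod_cast hcut)

end Pool.Agent.H45.Ent
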