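/-
The semantic step of the construction.  MP_f39e07_an, owner helper45.

PROOF of `interval` (given `s` good): enlarge `s` to a good `s' ≥ s` with `n' = s'.n ≥ 2`,
`2 log k / n' < η/4` (`exists_nonstable_ext` iterated).  `V = sSup {T.ent F | Fits T s'}` (nonempty by
`exists_fit_nonstable`, bounded by `log k`).  Choose `T₁` fitting `s'` with `T₁.ent F > V - η/4`.  If the
shift of `T₁` is nonempty, `extraction` with `ε = η/8` gives `s₁ ≥ s'` (good, same `n`) and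
`l = log pin / |Z| ≥ T₁.ent F - η/4 - η/8`; otherwise `T₁.ent F = 0` (`entX_empty`), `s₁ = s'`, `l = 0`.
So `l > V - 5η/8`.  `T₂` nonstable fitting `s₁`; it fits `s'` (`Fits.of_le`), so `T₂.ent F ≤ V`.
By `tendsto_u` choose `n > max s.n s₁.n` with `u_n(T₂) < T₂.ent F + η/8`; `s₂` from `stage_of_tower`:
`log cut / |Z| = u_n(T₂) < V + η/8 < l + 3η/4`.

PROOF of `step`: if not all `Ra x y` hold, `interval` with `s₀ = s`.  If `F` is t-only, let `θ` be the
common entropy (`ent_tonly_eq`, some tower exists).  `nonrigid s θ`: `T` nonstable fitting `s`,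
`T.ent hc ≠ θ`.  `u_n(T)(hc) → T.ent hc` and `u_n - 2 log 2 / n → T.ent hc`, so for some `n ≥ s.n` (large):
`θ > u_n` or `θ < u_n - 2 log 2/n`.  `s₀` = `stage_of_tower`: `log cut(s₀,hc)/|Z₀| = u_n`,
`log pin(s₀,hc,0)/|Z₀| ≥ u_n - 2 log 2/n` (`Stage.hc_pin`), good.  Let `η' = min η (distance)`, and apply
`interval` to `s₀` with `η'`.  A nonstable tower `T'` fitting `s₂` satisfies
`l ≤ T'.ent F = θ ≤ log cut(s₂)/|Z₂|` (`ent_le_cut`, `lowVal_le`), and the two intervals are disjoint.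
-/
import Pool.Agent.H45.Ent.NonRigid
import Pool.Agent.H45.Ent.StageOfTower
import Pool.Agent.H45.Ent.Extract
import Pool.Agent.H45.Ent.Upper
import Pool.Agent.H45.Ent.Lower
import Pool.Agent.H45.Ent.Tonly

set_option autoImplicit false

namespace Pool.Agent.H45.Ent

/-- certified lower values -/
def LowVal (s : Stage) (F : Sys) (l : ℝ) : Prop :=
  l = 0 ∨ ∃ c ∈ s.adm F, l = Real.log (s.pin F c) / (s.Z.ncard : ℝ)

theorem lowVal_nonneg {s : Stage} {F : Sys} {l : ℝ} (h : LowVal s F l) : 0 ≤ l := by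
  rcases h with rfl | ⟨c, _, rfl⟩
  · exact le_refl _
  · exact div_nonneg (Real.log_natCast_nonneg _) (by positivity)

theorem lowVal_le {T : Tower} {s : Stage} (hfit : Fits T s) {F : Sys} {l : ℝ}
    (h : LowVal s F l) : l ≤ T.ent F := by
  rcases h with rfl | ⟨c, hc, rfl⟩
  · exact entX_nonneg _
  · exact pin_le_ent T s hfit F c hc

theorem exists_ext_large (s : Stage) (hs : s.Good) (N : ℕ) :
    ∃ s' : Stage, s.Le s' ∧ s'.Good ∧ N ≤ s'.n := by
  induction N with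
  | zero => exact ⟨s, Stage.Le.refl s, hs, Nat.zero_le _⟩
  | succ N ih =>
    obtain ⟨s', h1, h2, h3⟩ := ih
    obtain ⟨s'', h4, h5, h6⟩ := exists_nonstable_ext s' h2
    exact ⟨s'', h1.trans h4, h5, by omega⟩

theorem exists_n_large (c : ℝ) {η : ℝ} (hη : 0 < η) : ∃ N : ℕ, ∀ n : ℕ, N ≤ n → c / n < η := by
  have h : Filter.Tendsto (fun n : ℕ => c / (n : ℝ)) Filter.atTop (nhds 0) :=
    tendsto_const_div_atTop_nhds_zero_nat c
  have h2 := (h.eventually (gt_mem_nhds hη))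
  obtain ⟨N, hN⟩ := Filter.eventually_atTop.1 h2
  exact ⟨N, hN⟩

theorem interval (s : Stage) (hs : s.Good) (F : Sys) (hk : 0 < F.k) {η : ℝ} (hη : 0 < η) :
    ∃ (s₁ s₂ : Stage) (l : ℝ), s.Le s₁ ∧ s₁.Le s₂ ∧ s₂.Good ∧ s.n < s₂.n ∧ LowVal s₁ F l ∧
      Real.log (s₂.cut F) / (s₂.Z.ncard : ℝ) < l + η := by
  obtain ⟨N, hN⟩ := exists_n_large (2 * Real.log F.k) (η := η / 4) (by positivity)
  obtain ⟨s', hle, hgood, hn'⟩ := exists_ext_large s hs (max N 2)
  have hn2 : 2 ≤ s'.n := (le_max_right _ _).trans hn'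
  have hlog : 2 * Real.log F.k / s'.n < η / 4 := hN _ ((le_max_left _ _).trans hn')
  set E : Set ℝ := {v | ∃ T : Tower, Fits T s' ∧ v = T.ent F} with hE
  have hbdd : BddAbove E := by
    refine ⟨Real.log F.k, ?_⟩
    rintro _ ⟨T, _, rfl⟩
    exact entX_le_log _ hk
  have hne : E.Nonempty := by
    obtain ⟨T, hT, _⟩ := exists_fit_nonstable s' hgood
    exact ⟨_, T, hT, rfl⟩
  obtain ⟨_, ⟨T₁, hT₁, rfl⟩, hV₁⟩ := exists_lt_of_lt_csSup hne
    (show sSup E - η / 4 < sSup E by linarith)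
  -- the lower value
  obtain ⟨s₁, l, hle₁, hgood₁, hlow, hl⟩ : ∃ (s₁ : Stage) (l : ℝ), s'.Le s₁ ∧ s₁.Good ∧
      LowVal s₁ F l ∧ sSup E - 5 * η / 8 < l := by
    rcases (F.shift T₁.a T₁.t).eq_empty_or_nonempty with h0 | hne
    · refine ⟨s', 0, Stage.Le.refl _, hgood, Or.inl rfl, ?_⟩
      have h1 : T₁.ent F = 0 := by
        unfold Tower.ent
        rw [h0, entX_empty]
      linarith
    · obtain ⟨s₁, h1, _, h3, c, hc, hval⟩ := extraction T₁ s' hT₁ hn2 F hne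
        (ε := η / 8) (by positivity)
      exact ⟨s₁, _, h1, h3 hgood, Or.inr ⟨c, hc, rfl⟩, by linarith⟩
  obtain ⟨T₂, hT₂, hns⟩ := exists_fit_nonstable s₁ hgood₁
  have hV₂ : T₂.ent F ≤ sSup E := le_csSup hbdd ⟨T₂, hT₂.of_le hle₁, rfl⟩
  have hev : ∀ᶠ n : ℕ in Filter.atTop, T₂.u F n < T₂.ent F + η / 8 :=
    (T₂.tendsto_u F).eventually (gt_mem_nhds (by linarith))
  obtain ⟨n, hn, hns1, hns2⟩ := (hev.and ((Filter.eventually_ge_atTop (s.n + 1)).and
    (Filter.eventually_ge_atTop s₁.n))).exists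
  obtain ⟨s₂, hle₂, hn₂, hcut, hZ, hgood₂⟩ := stage_of_tower T₂ s₁ hT₂ n hns2
  refine ⟨s₁, s₂, l, hle.trans hle₁, hle₂, hgood₂ hns, by omega, hlow, ?_⟩
  rw [hcut F, hZ]
  change T₂.u F n < l + η
  linarith

theorem step (s : Stage) (hs : s.Good) (F : Sys) (hk : 0 < F.k) {η : ℝ} (hη : 0 < η) :
    ∃ (s₀ s₁ s₂ : Stage) (l : ℝ), s.Le s₀ ∧ s₀.Le s₁ ∧ s₁.Le s₂ ∧ s₂.Good ∧ s.n < s₂.n ∧
      LowVal s₁ F l ∧ Real.log (s₂.cut F) / (s₂.Z.ncard : ℝ) < l + η ∧
      ((∀ x y, F.Ra x y) →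
        Real.log (s₂.cut F) / (s₂.Z.ncard : ℝ) <
            Real.log (s₀.pin hc hcZero) / (s₀.Z.ncard : ℝ) ∨
          Real.log (s₀.cut hc) / (s₀.Z.ncard : ℝ) < l) := by
  by_cases hRa : ∀ x y, F.Ra x y
  swap
  · obtain ⟨s₁, s₂, l, h1, h2, h3, h4, h5, h6⟩ := interval s hs F hk hη
    exact ⟨s, s₁, s₂, l, Stage.Le.refl s, h1, h2, h3, h4, h5, h6, fun h => absurd h hRa⟩
  obtain ⟨T₀, _, _⟩ := exists_fit_nonstable s hs
  set θ := T₀.ent F with hθ
  have hall : ∀ T : Tower, T.ent F = θ := fun T => ent_tonly_eq T T₀ F hRa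
  obtain ⟨T, hns, hfit, hne⟩ := nonrigid s hs θ
  have hu : Filter.Tendsto (T.u hc) Filter.atTop (nhds (T.ent hc)) := T.tendsto_u hc
  rcases lt_or_gt_of_ne hne with hlt | hgt
  · -- `T.ent hc < θ`
    obtain ⟨n, hn, hsn⟩ := ((hu.eventually (gt_mem_nhds hlt)).and
      (Filter.eventually_ge_atTop s.n)).exists
    obtain ⟨s₀, hle₀, hn₀, hcut, hZ, hgood₀⟩ := stage_of_tower T s hfit n hsn
    have hval : Real.log (s₀.cut hc) / (s₀.Z.ncard : ℝ) < θ := by
      rw [hcut hc, hZ]; exact hn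
    have hgap : 0 < min η (θ - Real.log (s₀.cut hc) / (s₀.Z.ncard : ℝ)) :=
      lt_min hη (by linarith)
    obtain ⟨s₁, s₂, l, h1, h2, h3, h4, h5, h6⟩ := interval s₀ (hgood₀ hns) F hk hgap
    have h9 := min_le_left η (θ - Real.log (s₀.cut hc) / (s₀.Z.ncard : ℝ))
    refine ⟨s₀, s₁, s₂, l, hle₀, h1, h2, h3, lt_of_le_of_lt hle₀.n_le h4, h5,
      lt_of_lt_of_le h6 (add_le_add_right h9 l), fun _ => Or.inr ?_⟩
    obtain ⟨T', hT', _⟩ := exists_fit_nonstable s₂ h3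
    have h7 := ent_le_cut T' s₂ hT' F
    rw [hall T'] at h7
    have h8 := min_le_right η (θ - Real.log (s₀.cut hc) / (s₀.Z.ncard : ℝ))
    linarith
  · -- `θ < T.ent hc`
    have hu2 : Filter.Tendsto (fun n : ℕ => T.u hc n - 2 * Real.log 2 / n) Filter.atTop
        (nhds (T.ent hc)) := by
      have := hu.sub (tendsto_const_div_atTop_nhds_zero_nat (2 * Real.log 2))
      rwa [sub_zero] at this
    obtain ⟨n, hn, hsn⟩ := ((hu2.eventually (lt_mem_nhds hgt)).and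
      (Filter.eventually_ge_atTop s.n)).exists
    obtain ⟨s₀, hle₀, hn₀, hcut, hZ, hgood₀⟩ := stage_of_tower T s hfit n hsn
    have hval : θ < Real.log (s₀.pin hc hcZero) / (s₀.Z.ncard : ℝ) := by
      refine lt_of_lt_of_le ?_ s₀.hc_pin
      rw [hcut hc, hZ, hn₀]; exact hn
    have hgap : 0 < min η (Real.log (s₀.pin hc hcZero) / (s₀.Z.ncard : ℝ) - θ) :=
      lt_min hη (by linarith)
    obtain ⟨s₁, s₂, l, h1, h2, h3, h4, h5, h6⟩ := interval s₀ (hgood₀ hns) F hk hgap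
    have h9 := min_le_left η (Real.log (s₀.pin hc hcZero) / (s₀.Z.ncard : ℝ) - θ)
    refine ⟨s₀, s₁, s₂, l, hle₀, h1, h2, h3, lt_of_le_of_lt hle₀.n_le h4, h5,
      lt_of_lt_of_le h6 (add_le_add_right h9 l), fun _ => Or.inl ?_⟩
    obtain ⟨T', hT', _⟩ := exists_fit_nonstable s₂ h3
    have h7 := lowVal_le (hT'.of_le h2) h5
    rw [hall T'] at h7
    have h8 := min_le_right η (Real.log (s₀.pin hc hcZero) / (s₀.Z.ncard : ℝ) - θ)
    linarith

/-- the initial stage: two points, `α` = swap, `τ = id`, `n = 1` -/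
theorem exists_init : ∃ s : Stage, s.Good := by
  have hdec : ∀ (σ : Equiv.Perm (Fin 2)) (z : Fin 2), σ z = z → σ = 1 := by decide
  let s : Stage :=
    { Ω := Fin 2
      al := Equiv.swap 0 1
      ta := 1
      n := 1
      npos := one_pos
      Z := Set.univ
      Zne := ⟨0, trivial⟩
      ph := fun _ => 0
      al_mem := fun _ => Iff.rfl
      ta_mem := fun _ => Iff.rfl
      ph_al := fun _ _ => rfl
      ph_ta := fun _ _ => Subsingleton.elim _ _
      free := fun _ _ z _ h => hdec _ z h }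
  refine ⟨s, ?_⟩
  intro w hw h
  have hw1 : w = 1 := by
    have h2 : win fa ft (s.n - 1) = ⊥ := by
      show win fa ft 0 = ⊥
      unfold win
      simp
    rw [h2] at hw
    exact Subgroup.mem_bot.1 hw
  rw [hw1, map_one] at h
  have h3 : s.act (aj fa ft (s.n - 1)) = Equiv.swap (0 : Fin 2) 1 := by
    show homOf (Equiv.swap (0 : Fin 2) 1) 1 (aj fa ft 0) = Equiv.swap (0 : Fin 2) 1
    unfold aj
    simp
  rw [h3] at h
  have h4 := Equiv.congr_fun h (0 : Fin 2)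
  simp at h4

end Pool.Agent.H45.Ent
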