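/-
The arithmetised step: the relation `Chk`, its primitive recursiveness, existence and soundness.
MP_f39e07_an, owner helper45.
-/
import Pool.Agent.H45.Ent.StepSem
import Pool.Agent.H45.Ent.CodeEx
import Pool.Agent.H45.Ent.CodeCount
import Pool.Agent.H45.Ent.LogNat

set_option autoImplicit false

namespace Pool.Agent.H45.Ent

/-- state: stage code, upper count, size of the free part, base 4 digit integer -/
abbrev SSt : Type := SC × ℕ × ℕ × ℕ

/-- witness: `σ₀, σ₁, lab, Q, lab₀, Q₀, c₀` -/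
abbrev Wit : Type := SC × SC × ℕ × ℕ × ℕ × ℕ × ℕ

noncomputable def ehc : ℕ := (sysOf_surj hc (by norm_num [hc])).choose

theorem sysOf_ehc : sysOf ehc = hc := (sysOf_surj hc (by norm_num [hc])).choose_spec

/-- the part of the relation concerning the order of the stages -/
def ChkA (x : SSt) (y : SSt) (w : Wit) : Prop :=
  IsSt w.1 ∧ IsSt w.2.1 ∧ IsSt y.1 ∧ LeC x.1 w.1 ∧ LeC w.1 w.2.1 ∧ LeC w.2.1 y.1 ∧ GoodC y.1 ∧
    x.1.2.1 < y.1.2.1

/-- the part concerning the interval for the system `e` -/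
def ChkB (i e : ℕ) (y : SSt) (w : Wit) : Prop :=
  y.2.2.1 = zc y.1 ∧ UpC y.1 e y.2.1 ∧ (w.2.2.2.1 = 1 ∨ LoC w.2.1 e w.2.2.1 w.2.2.2.1) ∧
    1 ≤ w.2.2.2.1 ∧
    y.2.1 ^ zc w.2.1 * (i + 1) ^ (zc y.1 * zc w.2.1) ≤
      (i + 2) ^ (zc y.1 * zc w.2.1) * w.2.2.2.1 ^ zc y.1

/-- the part concerning the digits -/
def ChkD (x : SSt) (i : ℕ) (y : SSt) (w : Wit) : Prop :=
  (y.2.2.2 = 4 * x.2.2.2 ∨ y.2.2.2 = 4 * x.2.2.2 + 3) ∧
    ((y.2.2.2 + 1) ^ zc w.2.1 < w.2.2.2.1 * 4 ^ ((i + 1) * zc w.2.1) ∨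
      y.2.1 * 4 ^ ((i + 1) * zc y.1) < y.2.2.2 ^ zc y.1)

/-- the part concerning t-only systems -/
def ChkT (e : ℕ) (y : SSt) (w : Wit) : Prop :=
  (∀ a < kS e, ∀ b < kS e, raS e a b) →
    (1 ≤ w.2.2.2.2.2.1 ∧ LoC w.1 ehc w.2.2.2.2.1 w.2.2.2.2.2.1 ∧ UpC w.1 ehc w.2.2.2.2.2.2 ∧
      (y.2.1 ^ zc w.1 < w.2.2.2.2.2.1 ^ zc y.1 ∨
        w.2.2.2.2.2.2 ^ zc w.2.1 < w.2.2.2.1 ^ zc w.1))

def Chk (x : SSt) (i : ℕ) (y : SSt) (w : Wit) : Prop :=
  ChkA x y w ∧ ChkB i i.unpair.1 y w ∧ ChkD x i y w ∧ ChkT i.unpair.1 y w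

theorem pp_raS' : PrimrecPred (fun x : ℕ × ℕ × ℕ => raS x.1 x.2.1 x.2.2) := by
  unfold raS kS
  exact pp_eq (prim_dg (Primrec.const _) (prim_fst (prim_unpair (prim_snd (prim_unpair
    Primrec.fst)))) (prim_add (prim_mul (prim_fst Primrec.snd) (prim_add (prim_fst (prim_unpair
    Primrec.fst)) (Primrec.const _))) (prim_snd Primrec.snd))) (Primrec.const _)

theorem pp_raS {α : Type*} [Primcodable α] {f g h : α → ℕ} (hf : Primrec f) (hg : Primrec g)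
    (hh : Primrec h) : PrimrecPred (fun a => raS (f a) (g a) (h a)) :=
  pp_raS'.comp (hf.pair (hg.pair hh))

theorem pp_Chk : PrimrecPred (fun x : SSt × ℕ × SSt × Wit => Chk x.1 x.2.1 x.2.2.1 x.2.2.2) := by
  unfold Chk ChkA ChkB ChkD ChkT kS
  exact PrimrecPred.and (PrimrecPred.and (pp_IsSt1 (prim_fst (prim_snd (prim_snd Primrec.snd))))
    (PrimrecPred.and (pp_IsSt1 (prim_fst (prim_snd (prim_snd (prim_snd Primrec.snd)))))
    (PrimrecPred.and (pp_IsSt1 (prim_fst (prim_fst (prim_snd Primrec.snd)))) (PrimrecPred.and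
    (pp_LeC1 (prim_fst Primrec.fst) (prim_fst (prim_snd (prim_snd Primrec.snd)))) (PrimrecPred.and
    (pp_LeC1 (prim_fst (prim_snd (prim_snd Primrec.snd))) (prim_fst (prim_snd (prim_snd (prim_snd
    Primrec.snd))))) (PrimrecPred.and (pp_LeC1 (prim_fst (prim_snd (prim_snd (prim_snd
    Primrec.snd)))) (prim_fst (prim_fst (prim_snd Primrec.snd)))) (PrimrecPred.and (pp_GoodC1
    (prim_fst (prim_fst (prim_snd Primrec.snd)))) (pp_lt (prim_fst (prim_snd (prim_fst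
    Primrec.fst))) (prim_fst (prim_snd (prim_fst (prim_fst (prim_snd Primrec.snd)))))))))))))
    (PrimrecPred.and (PrimrecPred.and (pp_eq (prim_fst (prim_snd (prim_snd (prim_fst (prim_snd
    Primrec.snd))))) (prim_zc (prim_fst (prim_fst (prim_snd Primrec.snd))))) (PrimrecPred.and
    (pp_UpC (prim_fst (prim_fst (prim_snd Primrec.snd))) (prim_fst (prim_unpair (prim_fst
    Primrec.snd))) (prim_fst (prim_snd (prim_fst (prim_snd Primrec.snd))))) (PrimrecPred.and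
    (PrimrecPred.or (pp_eq (prim_fst (prim_snd (prim_snd (prim_snd (prim_snd (prim_snd
    Primrec.snd)))))) (Primrec.const _)) (pp_LoC (prim_fst (prim_snd (prim_snd (prim_snd
    Primrec.snd)))) (prim_fst (prim_unpair (prim_fst Primrec.snd))) (prim_fst (prim_snd (prim_snd
    (prim_snd (prim_snd Primrec.snd))))) (prim_fst (prim_snd (prim_snd (prim_snd (prim_snd
    (prim_snd Primrec.snd)))))))) (PrimrecPred.and (pp_le (Primrec.const _) (prim_fst (prim_snd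
    (prim_snd (prim_snd (prim_snd (prim_snd Primrec.snd))))))) (pp_le (prim_mul (prim_pow
    (prim_fst (prim_snd (prim_fst (prim_snd Primrec.snd)))) (prim_zc (prim_fst (prim_snd (prim_snd
    (prim_snd Primrec.snd)))))) (prim_pow (prim_add (prim_fst Primrec.snd) (Primrec.const _))
    (prim_mul (prim_zc (prim_fst (prim_fst (prim_snd Primrec.snd)))) (prim_zc (prim_fst (prim_snd
    (prim_snd (prim_snd Primrec.snd)))))))) (prim_mul (prim_pow (prim_add (prim_fst Primrec.snd)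
    (Primrec.const _)) (prim_mul (prim_zc (prim_fst (prim_fst (prim_snd Primrec.snd)))) (prim_zc
    (prim_fst (prim_snd (prim_snd (prim_snd Primrec.snd))))))) (prim_pow (prim_fst (prim_snd
    (prim_snd (prim_snd (prim_snd (prim_snd Primrec.snd)))))) (prim_zc (prim_fst (prim_fst
    (prim_snd Primrec.snd))))))))))) (PrimrecPred.and (PrimrecPred.and (PrimrecPred.or (pp_eq
    (prim_snd (prim_snd (prim_snd (prim_fst (prim_snd Primrec.snd))))) (prim_mul (Primrec.const _)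
    (prim_snd (prim_snd (prim_snd Primrec.fst))))) (pp_eq (prim_snd (prim_snd (prim_snd (prim_fst
    (prim_snd Primrec.snd))))) (prim_add (prim_mul (Primrec.const _) (prim_snd (prim_snd (prim_snd
    Primrec.fst)))) (Primrec.const _)))) (PrimrecPred.or (pp_lt (prim_pow (prim_add (prim_snd
    (prim_snd (prim_snd (prim_fst (prim_snd Primrec.snd))))) (Primrec.const _)) (prim_zc (prim_fst
    (prim_snd (prim_snd (prim_snd Primrec.snd)))))) (prim_mul (prim_fst (prim_snd (prim_snd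
    (prim_snd (prim_snd (prim_snd Primrec.snd)))))) (prim_pow (Primrec.const _) (prim_mul
    (prim_add (prim_fst Primrec.snd) (Primrec.const _)) (prim_zc (prim_fst (prim_snd (prim_snd
    (prim_snd Primrec.snd))))))))) (pp_lt (prim_mul (prim_fst (prim_snd (prim_fst (prim_snd
    Primrec.snd)))) (prim_pow (Primrec.const _) (prim_mul (prim_add (prim_fst Primrec.snd)
    (Primrec.const _)) (prim_zc (prim_fst (prim_fst (prim_snd Primrec.snd))))))) (prim_pow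
    (prim_snd (prim_snd (prim_snd (prim_fst (prim_snd Primrec.snd))))) (prim_zc (prim_fst
    (prim_fst (prim_snd Primrec.snd)))))))) (pp_imp (pp_all (prim_add (prim_fst (prim_unpair
    (prim_fst (prim_unpair (prim_fst Primrec.snd))))) (Primrec.const _)) (pp_all (prim_add
    (prim_fst (prim_unpair (prim_fst (prim_unpair (prim_fst (prim_snd Primrec.fst))))))
    (Primrec.const _)) (pp_raS (prim_fst (prim_unpair (prim_fst (prim_snd (prim_fst
    Primrec.fst))))) (prim_snd Primrec.fst) Primrec.snd))) (PrimrecPred.and (pp_le (Primrec.const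
    _) (prim_fst (prim_snd (prim_snd (prim_snd (prim_snd (prim_snd (prim_snd (prim_snd
    Primrec.snd))))))))) (PrimrecPred.and (pp_LoC (prim_fst (prim_snd (prim_snd Primrec.snd)))
    (Primrec.const _) (prim_fst (prim_snd (prim_snd (prim_snd (prim_snd (prim_snd (prim_snd
    Primrec.snd))))))) (prim_fst (prim_snd (prim_snd (prim_snd (prim_snd (prim_snd (prim_snd
    (prim_snd Primrec.snd))))))))) (PrimrecPred.and (pp_UpC (prim_fst (prim_snd (prim_snd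
    Primrec.snd))) (Primrec.const _) (prim_snd (prim_snd (prim_snd (prim_snd (prim_snd (prim_snd
    (prim_snd (prim_snd Primrec.snd))))))))) (PrimrecPred.or (pp_lt (prim_pow (prim_fst (prim_snd
    (prim_fst (prim_snd Primrec.snd)))) (prim_zc (prim_fst (prim_snd (prim_snd Primrec.snd)))))
    (prim_pow (prim_fst (prim_snd (prim_snd (prim_snd (prim_snd (prim_snd (prim_snd (prim_snd
    Primrec.snd)))))))) (prim_zc (prim_fst (prim_fst (prim_snd Primrec.snd)))))) (pp_lt (prim_pow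
    (prim_snd (prim_snd (prim_snd (prim_snd (prim_snd (prim_snd (prim_snd (prim_snd
    Primrec.snd)))))))) (prim_zc (prim_fst (prim_snd (prim_snd (prim_snd Primrec.snd))))))
    (prim_pow (prim_fst (prim_snd (prim_snd (prim_snd (prim_snd (prim_snd Primrec.snd))))))
    (prim_zc (prim_fst (prim_snd (prim_snd Primrec.snd)))))))))))))

theorem log_max_one (n : ℕ) : Real.log ((max 1 n : ℕ) : ℝ) = Real.log n := by
  rcases Nat.eq_zero_or_pos n with h | h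
  · subst h; simp
  · rw [max_eq_right h]

/-- the choice of the digit -/
theorem exists_digit (P i : ℕ) (hP : 0 < P) {l u : ℝ}
    (h : u < l + Real.log (1 + 1 / ((P + 1) * 4 ^ (i + 1)))) :
    ∃ P' : ℕ, (P' = 4 * P ∨ P' = 4 * P + 3) ∧
      (Real.log (((P' : ℝ) + 1) / 4 ^ (i + 1)) < l ∨ u < Real.log ((P' : ℝ) / 4 ^ (i + 1))) := by
  by_contra hcon
  push Not at hcon
  obtain ⟨h1, h2⟩ := hcon (4 * P) (Or.inl rfl)
  obtain ⟨h3, h4⟩ := hcon (4 * P + 3) (Or.inr rfl)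
  have hP' : (0 : ℝ) < P := by exact_mod_cast hP
  have h4i : (0 : ℝ) < 4 ^ (i + 1) := by positivity
  -- l ≤ log ((4P+1)/4^(i+1)), log ((4P+3)/4^(i+1)) ≤ u
  have e1 : Real.exp l ≤ ((4 * P : ℕ) + 1 : ℝ) / 4 ^ (i + 1) := by
    have := Real.exp_le_exp.2 h1
    rwa [Real.exp_log (by positivity)] at this
  have e2 : ((4 * P + 3 : ℕ) : ℝ) / 4 ^ (i + 1) ≤ Real.exp u := by
    have := Real.exp_le_exp.2 h4
    rwa [Real.exp_log (by positivity)] at this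
  have e3 : Real.exp u < Real.exp l * (1 + 1 / ((P + 1) * 4 ^ (i + 1))) := by
    have := Real.exp_lt_exp.2 h
    rwa [Real.exp_add, Real.exp_log (by positivity)] at this
  have e4 : Real.exp l * (1 + 1 / ((P + 1) * 4 ^ (i + 1))) ≤
      (((4 * P : ℕ) + 1 : ℝ) / 4 ^ (i + 1)) * (1 + 1 / ((P + 1) * 4 ^ (i + 1))) :=
    mul_le_mul_of_nonneg_right e1 (by positivity)
  have e5 : ((4 * P + 3 : ℕ) : ℝ) / 4 ^ (i + 1) <
      (((4 * P : ℕ) + 1 : ℝ) / 4 ^ (i + 1)) * (1 + 1 / ((P + 1) * 4 ^ (i + 1))) :=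
    lt_of_le_of_lt e2 (lt_of_lt_of_le e3 e4)
  push_cast at e5
  rw [div_mul_eq_mul_div, div_lt_div_iff_of_pos_right h4i] at e5
  have e6 : (4 * (P : ℝ) + 1) * (1 / ((P + 1) * 4 ^ (i + 1))) ≤ 1 := by
    rw [mul_one_div, div_le_one (by positivity)]
    have : (4 : ℝ) ≤ 4 ^ (i + 1) := by
      calc (4 : ℝ) = 4 ^ 1 := by norm_num
        _ ≤ 4 ^ (i + 1) := pow_le_pow_right₀ (by norm_num) (by omega)
    nlinarith
  nlinarith

theorem chk_exists (x : SSt) (i : ℕ) (h1 : IsSt x.1) (h2 : GoodC x.1) (hP : 0 < x.2.2.2) :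
    ∃ y w, Chk x i y w := by
  obtain ⟨s, e, hcs⟩ := exists_coded h1
  have hgood : s.Good := (goodC_iff hcs).1 h2
  set P := x.2.2.2 with hPdef
  set F := sysOf i.unpair.1 with hF
  have hk : 0 < F.k := Nat.succ_pos _
  have hη1 : 0 < Real.log (((i + 2 : ℕ) : ℝ) / (i + 1 : ℕ)) := by
    apply Real.log_pos
    rw [one_lt_div (by positivity)]
    push_cast
    linarith
  have hη2 : 0 < Real.log (1 + 1 / (((P : ℝ) + 1) * 4 ^ (i + 1))) := by
    apply Real.log_pos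
    have : (0 : ℝ) < 1 / (((P : ℝ) + 1) * 4 ^ (i + 1)) := by positivity
    linarith
  obtain ⟨s₀, s₁, s₂, l, hs0, hs1, hs2, hgood2, hn, hl, hu, hT⟩ :=
    step s hgood F hk (lt_min hη1 hη2)
  obtain ⟨σ₀, e₀, hst0, hle0, hc0⟩ := exists_code_of_le hcs hs0
  obtain ⟨σ₁, e₁, hst1, hle1, hc1⟩ := exists_code_of_le hc0 hs1
  obtain ⟨σ₂, e₂, hst2, hle2, hc2⟩ := exists_code_of_le hc1 hs2
  have hz0 : zc σ₀ = s₀.Z.ncard := zc_eq hc0
  have hz1 : zc σ₁ = s₁.Z.ncard := zc_eq hc1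
  have hz2 : zc σ₂ = s₂.Z.ncard := zc_eq hc2
  have hz0p : 0 < zc σ₀ := by rw [hz0]; exact s₀.Z_ncard_pos
  have hz1p : 0 < zc σ₁ := by rw [hz1]; exact s₁.Z_ncard_pos
  have hz2p : 0 < zc σ₂ := by rw [hz2]; exact s₂.Z_ncard_pos
  -- lower count
  obtain ⟨Q, lab, hQ, hlQ, hQ1⟩ : ∃ Q lab : ℕ, (Q = 1 ∨ LoC σ₁ i.unpair.1 lab Q) ∧
      l = Real.log Q / zc σ₁ ∧ 1 ≤ Q := by
    rcases hl with hl0 | ⟨c, hcadm, hl⟩
    · exact ⟨1, 0, Or.inl rfl, by simp [hl0], le_refl _⟩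
    · obtain ⟨lab, hlab⟩ := (loC_iff hc1 i.unpair.1 (s₁.pin F c)).2 ⟨c, hcadm, le_refl _⟩
      refine ⟨s₁.pin F c, lab, Or.inr hlab, by rw [hl, hz1], ?_⟩
      exact (cnt_pos (Set.toFinite _)).2 ⟨c, hcadm, fun _ _ _ => rfl⟩
  -- upper count
  set c := max 1 (s₂.cut F) with hcdef
  have hc1' : 1 ≤ c := le_max_left _ _
  have hup : UpC σ₂ i.unpair.1 c := (upC_iff hc2 _ _).2 ⟨hc1', le_max_right _ _⟩
  have hlogc : Real.log (c : ℝ) = Real.log (s₂.cut F) := log_max_one _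
  have hu' : Real.log c / zc σ₂ < l + min (Real.log (((i + 2 : ℕ) : ℝ) / (i + 1 : ℕ)))
      (Real.log (1 + 1 / (((P : ℝ) + 1) * 4 ^ (i + 1)))) := by
    rw [hlogc, hz2]; exact hu
  -- digits
  obtain ⟨P', hP', hdig⟩ := exists_digit P i hP (l := l) (u := Real.log c / zc σ₂)
    (lt_of_lt_of_le hu' (by gcongr; exact min_le_right _ _))
  have hP'pos : 0 < P' := by rcases hP' with h | h <;> omega
  -- t-only part
  obtain ⟨lab₀, Q₀, c₀, hTc⟩ : ∃ lab₀ Q₀ c₀ : ℕ,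
      (∀ a < kS i.unpair.1, ∀ b < kS i.unpair.1, raS i.unpair.1 a b) →
      (1 ≤ Q₀ ∧ LoC σ₀ ehc lab₀ Q₀ ∧ UpC σ₀ ehc c₀ ∧
      (c ^ zc σ₀ < Q₀ ^ zc σ₂ ∨ c₀ ^ zc σ₁ < Q ^ zc σ₀)) := by
    by_cases hto : ∀ a < kS i.unpair.1, ∀ b < kS i.unpair.1, raS i.unpair.1 a b
    · have hT' := hT ((sysOf_tonly _).1 hto)
      obtain ⟨lab₀, hlab₀⟩ := (loC_iff hc0 ehc (s₀.pin hc hcZero)).2 (by
        rw [sysOf_ehc]
        exact ⟨hcZero, s₀.zero_mem_adm_hc, le_refl _⟩)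
      have hQ0 : 1 ≤ s₀.pin hc hcZero :=
        (cnt_pos (Set.toFinite _)).2 ⟨hcZero, s₀.zero_mem_adm_hc, fun _ _ _ => rfl⟩
      refine ⟨lab₀, s₀.pin hc hcZero, max 1 (s₀.cut hc), fun _ => ⟨hQ0, hlab₀, ?_, ?_⟩⟩
      · rw [upC_iff hc0, sysOf_ehc]
        exact ⟨le_max_left _ _, le_max_right _ _⟩
      · rcases hT' with h | h
        · left
          rw [← log_div_lt_iff hc1' hQ0 hz2p hz0p, hlogc, hz2, hz0]
          exact h
        · right
          rw [← log_div_lt_iff (lt_of_lt_of_le Nat.one_pos (le_max_left _ _)) hQ1 hz0p hz1p,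
            log_max_one, ← hlQ, hz0]
          exact h
    · exact ⟨0, 0, 0, fun h => absurd h hto⟩
  refine ⟨(σ₂, c, zc σ₂, P'), (σ₀, σ₁, lab, Q, lab₀, Q₀, c₀), ?_, ?_, ?_, ?_⟩
  · refine ⟨hst0, hst1, hst2, hle0, hle1, hle2, (goodC_iff hc2).2 hgood2, ?_⟩
    have h3 := hcs.n_eq
    have h4 := hc2.n_eq
    show x.1.n < σ₂.n
    rw [← h3, ← h4]
    exact hn
  · refine ⟨rfl, hup, hQ, hQ1, ?_⟩
    show c ^ zc σ₁ * (i + 1) ^ (zc σ₂ * zc σ₁) ≤ (i + 2) ^ (zc σ₂ * zc σ₁) * Q ^ zc σ₂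
    rw [← log_gap_iff hc1' hQ1 hz2p hz1p (Nat.succ_pos _) (Nat.succ_pos _), ← hlQ]
    have h5 : Real.log c / zc σ₂ < l + Real.log (((i + 2 : ℕ) : ℝ) / (i + 1 : ℕ)) :=
      lt_of_lt_of_le hu' (by gcongr; exact min_le_left _ _)
    linarith
  · refine ⟨hP', ?_⟩
    show (P' + 1) ^ zc σ₁ < Q * 4 ^ ((i + 1) * zc σ₁) ∨ c * 4 ^ ((i + 1) * zc σ₂) < P' ^ zc σ₂
    rw [← log_digit_lt_iff hQ1 hz1p, ← log_lt_digit_iff hP'pos hc1' hz2p, ← hlQ]
    exact hdig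
  · exact hTc

/-- the invariant of the states -/
def Inv (x : SSt) : Prop := IsSt x.1 ∧ GoodC x.1 ∧ 0 < x.2.2.2

theorem inv_of_chk {x : SSt} {i : ℕ} {y : SSt} {w : Wit} (hx : Inv x) (h : Chk x i y w) :
    Inv y := by
  obtain ⟨⟨-, -, h1, -, -, -, h2, -⟩, -, ⟨h3, -⟩, -⟩ := h
  refine ⟨h1, h2, ?_⟩
  have := hx.2.2
  omega

/-- soundness -/
theorem chk_sound {x : SSt} {i : ℕ} {y : SSt} {w : Wit} (h : Chk x i y w) (hP : 0 < x.2.2.2)
    {s' : Stage} {e' : Fin y.1.m ≃ s'.Ω} (hc' : Coded y.1 s' e') {T : Tower} (hfit : Fits T s') :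
    ∃ l : ℝ, l ≤ T.ent (sysOf i.unpair.1) ∧
      T.ent (sysOf i.unpair.1) ≤ Real.log y.2.1 / y.2.2.1 ∧
      Real.log y.2.1 / y.2.2.1 - l ≤ Real.log (((i + 2 : ℕ) : ℝ) / (i + 1 : ℕ)) ∧
      (Real.log (((y.2.2.2 : ℝ) + 1) / 4 ^ (i + 1)) < l ∨
        Real.log y.2.1 / y.2.2.1 < Real.log ((y.2.2.2 : ℝ) / 4 ^ (i + 1))) ∧
      ((∀ a b, (sysOf i.unpair.1).Ra a b) → T.ent (sysOf i.unpair.1) ≠ T.ent hc) ∧
      1 ≤ y.2.1 ∧ 0 < y.2.2.1 := by
  obtain ⟨⟨hst0, hst1, hst2, hle0, hle1, hle2, hgood, -⟩, ⟨hd, hup, hQ, hQ1, hgap⟩,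
    ⟨hdig, hdig2⟩, hT⟩ := h
  obtain ⟨s₀, e₀, hc0⟩ := exists_coded hst0
  obtain ⟨s₁, e₁, hc1⟩ := exists_coded hst1
  have h01 : s₀.Le s₁ := leC_sound hc0 hc1 hle1
  have h12 : s₁.Le s' := leC_sound hc1 hc' hle2
  have hfit1 : Fits T s₁ := Fits.of_le h12 hfit
  have hfit0 : Fits T s₀ := Fits.of_le h01 hfit1
  have hz0 : zc w.1 = s₀.Z.ncard := zc_eq hc0
  have hz1 : zc w.2.1 = s₁.Z.ncard := zc_eq hc1
  have hz2 : zc y.1 = s'.Z.ncard := zc_eq hc'
  have hz0p : 0 < zc w.1 := by rw [hz0]; exact s₀.Z_ncard_pos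
  have hz1p : 0 < zc w.2.1 := by rw [hz1]; exact s₁.Z_ncard_pos
  have hz2p : 0 < zc y.1 := by rw [hz2]; exact s'.Z_ncard_pos
  obtain ⟨hc1', hcut⟩ := (upC_iff hc' _ _).1 hup
  -- lower bound
  have hlow : Real.log w.2.2.2.1 / zc w.2.1 ≤ T.ent (sysOf i.unpair.1) := by
    rcases hQ with hQ | hQ
    · rw [hQ]; simp only [Nat.cast_one, Real.log_one, zero_div]; exact entX_nonneg _
    · obtain ⟨c, hcadm, hle⟩ := (loC_iff hc1 _ _).1 ⟨_, hQ⟩
      refine le_trans ?_ (pin_le_ent T s₁ hfit1 _ c hcadm)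
      rw [hz1]
      refine div_le_div_of_nonneg_right ?_ (Nat.cast_nonneg _)
      exact (log_le_iff hQ1 (lt_of_lt_of_le hQ1 hle)).2 hle
  -- upper bound
  have hupp : T.ent (sysOf i.unpair.1) ≤ Real.log y.2.1 / zc y.1 := by
    refine le_trans (ent_le_cut T s' hfit _) ?_
    rw [hz2]
    refine div_le_div_of_nonneg_right ?_ (Nat.cast_nonneg _)
    rcases Nat.eq_zero_or_pos (s'.cut (sysOf i.unpair.1)) with h0 | h0
    · rw [h0]; simp only [Nat.cast_zero, Real.log_zero]; exact Real.log_natCast_nonneg _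
    · exact (log_le_iff h0 hc1').2 hcut
  have hP' : 0 < y.2.2.2 := by omega
  refine ⟨Real.log w.2.2.2.1 / zc w.2.1, hlow, ?_, ?_, ?_, ?_, hc1', ?_⟩
  · rw [hd]; exact hupp
  · rw [hd, log_gap_iff hc1' hQ1 hz2p hz1p (Nat.succ_pos _) (Nat.succ_pos _)]
    exact hgap
  · rw [hd, log_digit_lt_iff hQ1 hz1p, log_lt_digit_iff hP' hc1' hz2p]
    exact hdig2
  · intro hto heq
    obtain ⟨hQ0, hlo0, hup0, hsep⟩ := hT ((sysOf_tonly _).2 hto)
    obtain ⟨c, hcadm, hle⟩ := (loC_iff hc0 _ _).1 ⟨_, hlo0⟩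
    obtain ⟨hc0', hcut0⟩ := (upC_iff hc0 _ _).1 hup0
    have hlow0 : Real.log w.2.2.2.2.2.1 / zc w.1 ≤ T.ent hc := by
      rw [← sysOf_ehc]
      refine le_trans ?_ (pin_le_ent T s₀ hfit0 _ c hcadm)
      rw [hz0]
      refine div_le_div_of_nonneg_right ?_ (Nat.cast_nonneg _)
      exact (log_le_iff hQ0 (lt_of_lt_of_le hQ0 hle)).2 hle
    have hupp0 : T.ent hc ≤ Real.log w.2.2.2.2.2.2 / zc w.1 := by
      rw [← sysOf_ehc]
      refine le_trans (ent_le_cut T s₀ hfit0 _) ?_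
      rw [hz0]
      refine div_le_div_of_nonneg_right ?_ (Nat.cast_nonneg _)
      rcases Nat.eq_zero_or_pos (s₀.cut (sysOf ehc)) with h0 | h0
      · rw [h0]; simp only [Nat.cast_zero, Real.log_zero]; exact Real.log_natCast_nonneg _
      · exact (log_le_iff h0 hc0').2 hcut0
    rcases hsep with hs | hs
    · rw [← log_div_lt_iff hc1' hQ0 hz2p hz0p] at hs
      linarith
    · rw [← log_div_lt_iff hc0' hQ1 hz0p hz1p] at hs
      linarith
  · rw [hd]; exact hz2p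

end Pool.Agent.H45.Ent
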