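/-
Computable choice sequences for primitive recursive relations.  MP_f39e07_an, owner helper45.

PROOF.  `g : σ × ℕ →. σ`, `g (x, i)` = decode the least `n` such that `n` encodes a pair `(y, w)` with
`Chk x i y w` (`Nat.rfind` / `Nat.rfindOpt` on the decidable predicate; `Encodable.decode`),
partial recursive.  Then iterate: `F : ℕ →. σ`, `F 0 = x₀`, `F (i+1) = F i >>= fun x => g (x, i)`
(`Partrec.nat_rec`).  By induction, `F i` is defined and satisfies `Inv`; a partial recursive function
which is total is computable.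
-/
import Mathlib

set_option autoImplicit false

namespace Pool.Agent.H45.Ent

theorem exists_computable_seq {S W : Type} [Primcodable S] [Primcodable W]
    (Chk : S → ℕ → S → W → Prop)
    (hChk : PrimrecPred (fun x : S × ℕ × S × W => Chk x.1 x.2.1 x.2.2.1 x.2.2.2))
    (Inv : S → Prop) (x₀ : S) (h0 : Inv x₀)
    (hstep : ∀ x i, Inv x → ∃ y w, Chk x i y w)
    (hinv : ∀ x i y w, Inv x → Chk x i y w → Inv y) :
    ∃ f : ℕ → S, Computable f ∧ f 0 = x₀ ∧ ∀ i, Inv (f i) ∧ ∃ w, Chk (f i) i (f (i + 1)) w := by
  classical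
  -- the search function
  let s : S × ℕ → ℕ → Option S := fun a n =>
    (Encodable.decode (α := S × W) n).bind fun yw =>
      if Chk a.1 a.2 yw.1 yw.2 then some yw.1 else none
  have hs : Computable₂ s := by
    have h1 : Primrec (fun p : ((S × ℕ) × ℕ) × (S × W) =>
        if Chk p.1.1.1 p.1.1.2 p.2.1 p.2.2 then some p.2.1 else none) := by
      refine Primrec.ite ?_ (Primrec.option_some.comp (Primrec.fst.comp Primrec.snd))
        (Primrec.const none)
      have h2 : Primrec (fun p : ((S × ℕ) × ℕ) × (S × W) => (p.1.1.1, p.1.1.2, p.2.1, p.2.2)) := by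
        refine Primrec.pair (Primrec.fst.comp (Primrec.fst.comp Primrec.fst)) (Primrec.pair
          (Primrec.snd.comp (Primrec.fst.comp Primrec.fst)) (Primrec.pair
            (Primrec.fst.comp Primrec.snd) (Primrec.snd.comp Primrec.snd)))
      exact hChk.comp h2
    have h3 : Primrec (fun p : (S × ℕ) × ℕ => (Encodable.decode (α := S × W) p.2).bind fun yw =>
      if Chk p.1.1 p.1.2 yw.1 yw.2 then some yw.1 else none) :=
      Primrec.option_bind (Primrec.decode.comp Primrec.snd) h1.to₂
    exact h3.to_comp.to₂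
  let g : S × ℕ →. S := fun a => Nat.rfindOpt (s a)
  have hg : Partrec g := Partrec.rfindOpt hs
  have gspec : ∀ x i y, y ∈ g (x, i) → ∃ w, Chk x i y w := by
    intro x i y hy
    obtain ⟨n, hn⟩ := Nat.rfindOpt_spec hy
    simp only [s, Option.mem_def, Option.bind_eq_some_iff] at hn
    obtain ⟨⟨y', w⟩, -, hyw⟩ := hn
    split_ifs at hyw with hc
    · simp only [Option.some.injEq] at hyw
      subst hyw
      exact ⟨w, hc⟩
  have gdom : ∀ x i, Inv x → ∃ y, y ∈ g (x, i) := by
    intro x i hx
    obtain ⟨y, w, hyw⟩ := hstep x i hx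
    have : (g (x, i)).Dom := by
      refine Nat.rfindOpt_dom.2 ⟨Encodable.encode (y, w), y, ?_⟩
      simp [s, hyw]
    exact ⟨_, Part.get_mem this⟩
  -- iteration
  let F : ℕ →. S := fun n => Nat.rec (Part.some x₀) (fun i IH => IH.bind fun x => g (x, i)) n
  have hF : Partrec F := by
    have h1 : Partrec₂ (fun (_ : ℕ) (p : ℕ × S) => g (p.2, p.1)) := by
      have : Computable (fun q : ℕ × (ℕ × S) => (q.2.2, q.2.1)) :=
        Computable.pair (Computable.snd.comp Computable.snd) (Computable.fst.comp Computable.snd)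
      exact hg.comp this
    exact Partrec.nat_rec (f := fun n : ℕ => n) (g := fun _ : ℕ => Part.some x₀)
      Computable.id (Computable.const x₀) h1
  have hdom : ∀ i, ∃ x, x ∈ F i ∧ Inv x := by
    intro i
    induction i with
    | zero => exact ⟨x₀, Part.mem_some _, h0⟩
    | succ i ih =>
      obtain ⟨x, hx, hI⟩ := ih
      obtain ⟨y, hy⟩ := gdom x i hI
      obtain ⟨w, hw⟩ := gspec x i y hy
      exact ⟨y, Part.mem_bind hx hy, hinv x i y w hI hw⟩
  choose f hf hI using hdom
  refine ⟨f, hF.of_eq_tot hf, ?_, fun i => ⟨hI i, ?_⟩⟩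
  · exact Part.mem_unique (hf 0) (Part.mem_some _)
  · have h1 := hf (i + 1)
    obtain ⟨x, hx, hy⟩ := Part.mem_bind_iff.1 h1
    have : x = f i := Part.mem_unique hx (hf i)
    subst this
    exact gspec _ _ _ hy

/-- existential quantifier over a computable family of primitive recursive conditions -/
theorem re_of_exists {A B : Type} [Primcodable A] [Primcodable B] (f : ℕ → B) (hf : Computable f)
    (P : A × B → Prop) (hP : PrimrecPred P) : REPred (fun a : A => ∃ i, P (a, f i)) := by
  obtain ⟨hd, hP⟩ := hP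
  have h1 : Computable (fun q : A × ℕ => decide (P (q.1, f q.2))) :=
    hP.to_comp.comp (Computable.pair Computable.fst (hf.comp Computable.snd))
  have h2 : Partrec₂ (fun (a : A) (i : ℕ) => (Part.some (decide (P (a, f i))) : Part Bool)) := h1
  have h3 := (Partrec.rfind h2).dom_re
  refine h3.of_eq fun a => ?_
  refine Nat.rfind_dom.trans ?_
  constructor
  · rintro ⟨n, hn, -⟩
    refine ⟨n, ?_⟩
    simpa using hn
  · rintro ⟨n, hn⟩
    exact ⟨n, by simpa using hn, fun _ => trivial⟩

end Pool.Agent.H45.Ent
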