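/-
The word problem of the limit tower is recursively enumerable.  MP_f39e07_an, owner helper45
(proofs helper80).

PROOF.  By `word_iff` (Limit.lean): `T.φ (mk L) = 1` iff the level of `L` is 0 and there is `i` with
`2 |L| + 1 ≤ (s i).n` and `(s i).act (mk L) = 1`.  Both the level condition and the last condition
(for a code `σ` of `s i`) are expressed by the existence of a path of numbers `g 0, …, g |L|`, where
`g i` describes the effect of the suffix `L.drop i`; a path is coded by its digits.
-/
import Pool.Agent.H45.Ent.Coded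
import Pool.Agent.H45.Ent.Limit
import Pool.Agent.H45.Ent.Unif

set_option autoImplicit false

namespace Pool.Agent.H45.Ent

/-- code of a letter -/
def lcode (x : Fin 2 × Bool) : ℕ :=
  if x = (0, true) then 0 else if x = (0, false) then 1 else if x = (1, true) then 2 else 3

/-- code of the letter number `i` of `L` -/
def lc (L : List (Fin 2 × Bool)) (i : ℕ) : ℕ := lcode (L.getD i (0, true))

theorem prim_lc {α : Type*} [Primcodable α] {f : α → List (Fin 2 × Bool)} {g : α → ℕ}
    (hf : Primrec f) (hg : Primrec g) : Primrec (fun a => lc (f a) (g a)) :=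
  (Primrec.dom_finite lcode).comp ((Primrec.list_getD (0, true)).comp hf hg)

theorem prim_len {α β : Type*} [Primcodable α] [Primcodable β] {f : α → List β}
    (hf : Primrec f) : Primrec (fun a => (f a).length) :=
  Primrec.list_length.comp hf

/-- the code `σ` says that `L` acts trivially -/
def ActC (σ : SC) (L : List (Fin 2 × Bool)) : Prop :=
  ∀ x < σ.m, ∃ g < σ.m ^ (L.length + 1), dg σ.m g 0 = x ∧ dg σ.m g L.length = x ∧
    ∀ i < L.length,
      (lc L i = 0 → dg σ.m σ.B (dg σ.m g (i + 1)) = dg σ.m g i) ∧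
      (lc L i = 1 → dg σ.m σ.B (dg σ.m g i) = dg σ.m g (i + 1)) ∧
      (lc L i = 2 → dg σ.m σ.T (dg σ.m g (i + 1)) = dg σ.m g i) ∧
      (lc L i = 3 → dg σ.m σ.T (dg σ.m g i) = dg σ.m g (i + 1))

/-- `L` has level `0` -/
def LvC (L : List (Fin 2 × Bool)) : Prop :=
  ∃ g < (2 * L.length + 1) ^ (L.length + 1), dg (2 * L.length + 1) g 0 = L.length ∧
    dg (2 * L.length + 1) g L.length = L.length ∧
    ∀ i < L.length,
      (lc L i = 0 → dg (2 * L.length + 1) g (i + 1) = dg (2 * L.length + 1) g i) ∧
      (lc L i = 1 → dg (2 * L.length + 1) g (i + 1) = dg (2 * L.length + 1) g i) ∧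
      (lc L i = 2 → dg (2 * L.length + 1) g (i + 1) + 1 = dg (2 * L.length + 1) g i) ∧
      (lc L i = 3 → dg (2 * L.length + 1) g (i + 1) = dg (2 * L.length + 1) g i + 1)

theorem pp_ActC : PrimrecPred (fun x : SC × List (Fin 2 × Bool) => ActC x.1 x.2) := by
  unfold ActC
  simp only [SC.m, SC.B, SC.T]
  exact pp_all (prim_fst Primrec.fst) (pp_ex (prim_pow (prim_fst (prim_fst Primrec.fst))
    (prim_add (prim_len (prim_snd Primrec.fst)) (Primrec.const _))) (PrimrecPred.and (pp_eq
    (prim_dg (prim_fst (prim_fst (prim_fst Primrec.fst))) Primrec.snd (Primrec.const _)) (prim_snd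
    Primrec.fst)) (PrimrecPred.and (pp_eq (prim_dg (prim_fst (prim_fst (prim_fst Primrec.fst)))
    Primrec.snd (prim_len (prim_snd (prim_fst Primrec.fst)))) (prim_snd Primrec.fst)) (pp_all
    (prim_len (prim_snd (prim_fst Primrec.fst))) (PrimrecPred.and (pp_imp (pp_eq (prim_lc
    (prim_snd (prim_fst (prim_fst Primrec.fst))) Primrec.snd) (Primrec.const _)) (pp_eq (prim_dg
    (prim_fst (prim_fst (prim_fst (prim_fst Primrec.fst)))) (prim_fst (prim_snd (prim_snd
    (prim_fst (prim_fst (prim_fst Primrec.fst)))))) (prim_dg (prim_fst (prim_fst (prim_fst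
    (prim_fst Primrec.fst)))) (prim_snd Primrec.fst) (prim_add Primrec.snd (Primrec.const _))))
    (prim_dg (prim_fst (prim_fst (prim_fst (prim_fst Primrec.fst)))) (prim_snd Primrec.fst)
    Primrec.snd))) (PrimrecPred.and (pp_imp (pp_eq (prim_lc (prim_snd (prim_fst (prim_fst
    Primrec.fst))) Primrec.snd) (Primrec.const _)) (pp_eq (prim_dg (prim_fst (prim_fst (prim_fst
    (prim_fst Primrec.fst)))) (prim_fst (prim_snd (prim_snd (prim_fst (prim_fst (prim_fst
    Primrec.fst)))))) (prim_dg (prim_fst (prim_fst (prim_fst (prim_fst Primrec.fst)))) (prim_snd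
    Primrec.fst) Primrec.snd)) (prim_dg (prim_fst (prim_fst (prim_fst (prim_fst Primrec.fst))))
    (prim_snd Primrec.fst) (prim_add Primrec.snd (Primrec.const _))))) (PrimrecPred.and (pp_imp
    (pp_eq (prim_lc (prim_snd (prim_fst (prim_fst Primrec.fst))) Primrec.snd) (Primrec.const _))
    (pp_eq (prim_dg (prim_fst (prim_fst (prim_fst (prim_fst Primrec.fst)))) (prim_fst (prim_snd
    (prim_snd (prim_snd (prim_fst (prim_fst (prim_fst Primrec.fst))))))) (prim_dg (prim_fst
    (prim_fst (prim_fst (prim_fst Primrec.fst)))) (prim_snd Primrec.fst) (prim_add Primrec.snd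
    (Primrec.const _)))) (prim_dg (prim_fst (prim_fst (prim_fst (prim_fst Primrec.fst))))
    (prim_snd Primrec.fst) Primrec.snd))) (pp_imp (pp_eq (prim_lc (prim_snd (prim_fst (prim_fst
    Primrec.fst))) Primrec.snd) (Primrec.const _)) (pp_eq (prim_dg (prim_fst (prim_fst (prim_fst
    (prim_fst Primrec.fst)))) (prim_fst (prim_snd (prim_snd (prim_snd (prim_fst (prim_fst
    (prim_fst Primrec.fst))))))) (prim_dg (prim_fst (prim_fst (prim_fst (prim_fst Primrec.fst))))
    (prim_snd Primrec.fst) Primrec.snd)) (prim_dg (prim_fst (prim_fst (prim_fst (prim_fst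
    Primrec.fst)))) (prim_snd Primrec.fst) (prim_add Primrec.snd (Primrec.const _))))))))))))

theorem pp_LvC : PrimrecPred (fun x : List (Fin 2 × Bool) × SC => LvC x.1) := by
  unfold LvC
  exact pp_ex (prim_pow (prim_add (prim_mul (Primrec.const _) (prim_len Primrec.fst))
    (Primrec.const _)) (prim_add (prim_len Primrec.fst) (Primrec.const _))) (PrimrecPred.and
    (pp_eq (prim_dg (prim_add (prim_mul (Primrec.const _) (prim_len (prim_fst Primrec.fst)))
    (Primrec.const _)) Primrec.snd (Primrec.const _)) (prim_len (prim_fst Primrec.fst)))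
    (PrimrecPred.and (pp_eq (prim_dg (prim_add (prim_mul (Primrec.const _) (prim_len (prim_fst
    Primrec.fst))) (Primrec.const _)) Primrec.snd (prim_len (prim_fst Primrec.fst))) (prim_len
    (prim_fst Primrec.fst))) (pp_all (prim_len (prim_fst Primrec.fst)) (PrimrecPred.and (pp_imp
    (pp_eq (prim_lc (prim_fst (prim_fst Primrec.fst)) Primrec.snd) (Primrec.const _)) (pp_eq
    (prim_dg (prim_add (prim_mul (Primrec.const _) (prim_len (prim_fst (prim_fst Primrec.fst))))
    (Primrec.const _)) (prim_snd Primrec.fst) (prim_add Primrec.snd (Primrec.const _))) (prim_dg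
    (prim_add (prim_mul (Primrec.const _) (prim_len (prim_fst (prim_fst Primrec.fst))))
    (Primrec.const _)) (prim_snd Primrec.fst) Primrec.snd))) (PrimrecPred.and (pp_imp (pp_eq
    (prim_lc (prim_fst (prim_fst Primrec.fst)) Primrec.snd) (Primrec.const _)) (pp_eq (prim_dg
    (prim_add (prim_mul (Primrec.const _) (prim_len (prim_fst (prim_fst Primrec.fst))))
    (Primrec.const _)) (prim_snd Primrec.fst) (prim_add Primrec.snd (Primrec.const _))) (prim_dg
    (prim_add (prim_mul (Primrec.const _) (prim_len (prim_fst (prim_fst Primrec.fst))))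
    (Primrec.const _)) (prim_snd Primrec.fst) Primrec.snd))) (PrimrecPred.and (pp_imp (pp_eq
    (prim_lc (prim_fst (prim_fst Primrec.fst)) Primrec.snd) (Primrec.const _)) (pp_eq (prim_add
    (prim_dg (prim_add (prim_mul (Primrec.const _) (prim_len (prim_fst (prim_fst Primrec.fst))))
    (Primrec.const _)) (prim_snd Primrec.fst) (prim_add Primrec.snd (Primrec.const _)))
    (Primrec.const _)) (prim_dg (prim_add (prim_mul (Primrec.const _) (prim_len (prim_fst
    (prim_fst Primrec.fst)))) (Primrec.const _)) (prim_snd Primrec.fst) Primrec.snd))) (pp_imp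
    (pp_eq (prim_lc (prim_fst (prim_fst Primrec.fst)) Primrec.snd) (Primrec.const _)) (pp_eq
    (prim_dg (prim_add (prim_mul (Primrec.const _) (prim_len (prim_fst (prim_fst Primrec.fst))))
    (Primrec.const _)) (prim_snd Primrec.fst) (prim_add Primrec.snd (Primrec.const _))) (prim_add
    (prim_dg (prim_add (prim_mul (Primrec.const _) (prim_len (prim_fst (prim_fst Primrec.fst))))
    (Primrec.const _)) (prim_snd Primrec.fst) Primrec.snd) (Primrec.const _))))))))))

private theorem mk_cons' (x : Fin 2 × Bool) (L : List (Fin 2 × Bool)) :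
    (FreeGroup.mk (x :: L) : F2) = FreeGroup.mk [x] * FreeGroup.mk L := by
  rw [FreeGroup.mul_mk]; rfl

private theorem drop_step {L : List (Fin 2 × Bool)} {i : ℕ} (h : i < L.length) :
    (FreeGroup.mk (L.drop i) : F2) = FreeGroup.mk [L[i]] * FreeGroup.mk (L.drop (i + 1)) := by
  rw [List.drop_eq_getElem_cons h, mk_cons']

private theorem lc_eq {L : List (Fin 2 × Bool)} {i : ℕ} (h : i < L.length) :
    lc L i = lcode L[i] := by
  unfold lc
  rw [List.getD_eq_getElem _ _ h]

section act

variable {G : Type*} [Group G] (a t : G)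

private theorem homOf_00 : homOf a t (FreeGroup.mk [((0 : Fin 2), true)]) = a := by
  have h1 : (FreeGroup.mk [((0 : Fin 2), true)] : F2) = fa := rfl
  rw [h1, homOf_fa]

private theorem homOf_01 : homOf a t (FreeGroup.mk [((0 : Fin 2), false)]) = a⁻¹ := by
  have h1 : (FreeGroup.mk [((0 : Fin 2), false)] : F2) = fa⁻¹ := rfl
  rw [h1, map_inv, homOf_fa]

private theorem homOf_10 : homOf a t (FreeGroup.mk [((1 : Fin 2), true)]) = t := by
  have h1 : (FreeGroup.mk [((1 : Fin 2), true)] : F2) = ft := rfl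
  rw [h1, homOf_ft]

private theorem homOf_11 : homOf a t (FreeGroup.mk [((1 : Fin 2), false)]) = t⁻¹ := by
  have h1 : (FreeGroup.mk [((1 : Fin 2), false)] : F2) = ft⁻¹ := rfl
  rw [h1, map_inv, homOf_ft]

/-- the four cases of a letter -/
private theorem letter_cases (x : Fin 2 × Bool) :
    (x = (0, true) ∧ lcode x = 0) ∨ (x = (0, false) ∧ lcode x = 1) ∨
    (x = (1, true) ∧ lcode x = 2) ∨ (x = (1, false) ∧ lcode x = 3) := by
  obtain ⟨i, b⟩ := x
  fin_cases i <;> cases b <;> simp [lcode]

end act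

private theorem coded_al {σ : SC} {s : Stage} {e : Fin σ.m ≃ s.Ω} (hc : Coded σ s e)
    (x y : Fin σ.m) : s.al (e x) = e y ↔ dg σ.m σ.B x = y := by
  have h0 : 0 < σ.n := by rw [← hc.n_eq]; exact s.npos
  have := hc.row 0 h0 x y
  simpa [aj] using this

theorem act_iff {σ : SC} {s : Stage} {e : Fin σ.m ≃ s.Ω} (hc : Coded σ s e)
    (L : List (Fin 2 × Bool)) : s.act (FreeGroup.mk L) = 1 ↔ ActC σ L := by
  constructor
  · intro h x hx
    have hm : 0 < σ.m := by omega
    let f : ℕ → ℕ := fun i => (e.symm (s.act (FreeGroup.mk (L.drop i)) (e ⟨x, hx⟩))).val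
    obtain ⟨g, hg, hgf⟩ := exists_dg (L.length + 1) σ.m f (fun i _ => Fin.is_lt _)
    have hstep : ∀ i (hi : i < L.length),
        s.act (FreeGroup.mk (L.drop i)) (e ⟨x, hx⟩) =
          s.act (FreeGroup.mk [L[i]]) (s.act (FreeGroup.mk (L.drop (i + 1))) (e ⟨x, hx⟩)) := by
      intro i hi
      rw [drop_step hi, map_mul]; rfl
    refine ⟨g, hg, ?_, ?_, ?_⟩
    · rw [hgf 0 (by omega)]
      simp only [f, List.drop_zero, h, Equiv.Perm.coe_one, id, Equiv.symm_apply_apply]
    · rw [hgf L.length (by omega)]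
      have h1 : (FreeGroup.mk [] : F2) = 1 := rfl
      simp only [f, List.drop_length, h1, map_one, Equiv.Perm.coe_one, id,
        Equiv.symm_apply_apply]
    · intro i hi
      rw [hgf i (by omega), hgf (i + 1) (by omega), lc_eq hi]
      have hs := hstep i hi
      have hA : ∀ j, ((f j : ℕ)) = ((e.symm (s.act (FreeGroup.mk (L.drop j)) (e ⟨x, hx⟩)) :
        Fin σ.m) : ℕ) := fun _ => rfl
      rcases letter_cases L[i] with ⟨hl, hl'⟩ | ⟨hl, hl'⟩ | ⟨hl, hl'⟩ | ⟨hl, hl'⟩
      · rw [hl'] ; rw [hl] at hs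
        refine ⟨fun _ => ?_, by omega, by omega, by omega⟩
        rw [hA, hA]
        rw [← coded_al hc, Equiv.apply_symm_apply, Equiv.apply_symm_apply, hs]
        show _ = homOf s.al s.ta _ _
        rw [homOf_00]
      · rw [hl'] ; rw [hl] at hs
        refine ⟨by omega, fun _ => ?_, by omega, by omega⟩
        rw [hA, hA]
        rw [← coded_al hc, Equiv.apply_symm_apply, Equiv.apply_symm_apply, hs]
        show s.al (homOf s.al s.ta _ _) = _
        rw [homOf_01]; exact Equiv.apply_symm_apply _ _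
      · rw [hl'] ; rw [hl] at hs
        refine ⟨by omega, by omega, fun _ => ?_, by omega⟩
        rw [hA, hA]
        rw [← hc.ta, Equiv.apply_symm_apply, Equiv.apply_symm_apply, hs]
        show _ = homOf s.al s.ta _ _
        rw [homOf_10]
      · rw [hl'] ; rw [hl] at hs
        refine ⟨by omega, by omega, by omega, fun _ => ?_⟩
        rw [hA, hA]
        rw [← hc.ta, Equiv.apply_symm_apply, Equiv.apply_symm_apply, hs]
        show s.ta (homOf s.al s.ta _ _) = _
        rw [homOf_11]; exact Equiv.apply_symm_apply _ _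
  · intro h
    ext ω
    obtain ⟨⟨x, hx⟩, rfl⟩ := e.surjective ω
    have hm : 0 < σ.m := by omega
    obtain ⟨g, -, h0, h1, hst⟩ := h x hx
    have key : ∀ k ≤ L.length, e ⟨dg σ.m g (L.length - k), dg_lt hm _ _⟩ =
        s.act (FreeGroup.mk (L.drop (L.length - k))) (e ⟨x, hx⟩) := by
      intro k
      induction k with
      | zero =>
        intro _
        have h2 : (FreeGroup.mk [] : F2) = 1 := rfl
        simp only [Nat.sub_zero, h1, List.drop_length, h2, map_one, Equiv.Perm.coe_one, id]
      | succ k ih =>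
        intro hk
        obtain ⟨i, hi⟩ : ∃ i, L.length - (k + 1) = i := ⟨_, rfl⟩
        have hi1 : L.length - k = i + 1 := by omega
        have hiL : i < L.length := by omega
        have ih' := ih (by omega)
        simp only [hi1] at ih'
        simp only [hi]
        rw [drop_step hiL, map_mul, Equiv.Perm.mul_apply, ← ih']
        obtain ⟨c0, c1, c2, c3⟩ := hst i hiL
        rw [lc_eq hiL] at c0 c1 c2 c3
        rcases letter_cases L[i] with ⟨hl, hl'⟩ | ⟨hl, hl'⟩ | ⟨hl, hl'⟩ | ⟨hl, hl'⟩
        · rw [hl]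
          show _ = homOf s.al s.ta _ _
          rw [homOf_00]
          exact ((coded_al hc ⟨_, dg_lt hm _ _⟩ ⟨_, dg_lt hm _ _⟩).2 (c0 hl')).symm
        · rw [hl]
          show _ = homOf s.al s.ta _ _
          rw [homOf_01, Equiv.Perm.eq_inv_iff_eq]
          exact (coded_al hc ⟨_, dg_lt hm _ _⟩ ⟨_, dg_lt hm _ _⟩).2 (c1 hl')
        · rw [hl]
          show _ = homOf s.al s.ta _ _
          rw [homOf_10]
          exact ((hc.ta ⟨_, dg_lt hm _ _⟩ ⟨_, dg_lt hm _ _⟩).2 (c2 hl')).symm
        · rw [hl]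
          show _ = homOf s.al s.ta _ _
          rw [homOf_11, Equiv.Perm.eq_inv_iff_eq]
          exact (hc.ta ⟨_, dg_lt hm _ _⟩ ⟨_, dg_lt hm _ _⟩).2 (c3 hl')
    have h2 := key L.length le_rfl
    simp only [Nat.sub_self, List.drop_zero, h0] at h2
    rw [← h2]; rfl

private theorem lv_mk_le (L : List (Fin 2 × Bool)) :
    |Multiplicative.toAdd (lvF (FreeGroup.mk L))| ≤ (L.length : ℤ) := by
  induction L with
  | nil =>
    have h1 : (FreeGroup.mk [] : F2) = 1 := rfl
    simp [h1]
  | cons x L ih =>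
    rw [mk_cons', map_mul, toAdd_mul, List.length_cons]
    push_cast
    have h2 : |Multiplicative.toAdd (lvF (FreeGroup.mk [x]))| ≤ 1 := by
      rcases letter_cases x with ⟨rfl, -⟩ | ⟨rfl, -⟩ | ⟨rfl, -⟩ | ⟨rfl, -⟩
      · rw [lvF, homOf_00]; simp
      · rw [lvF, homOf_01]; simp
      · rw [lvF, homOf_10]; simp
      · rw [lvF, homOf_11]; simp
    have h3 := abs_add_le (Multiplicative.toAdd (lvF (FreeGroup.mk [x])))
      (Multiplicative.toAdd (lvF (FreeGroup.mk L)))
    linarith

theorem lv_iff (L : List (Fin 2 × Bool)) : lvF (FreeGroup.mk L) = 1 ↔ LvC L := by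
  have hstep : ∀ i (hi : i < L.length),
      Multiplicative.toAdd (lvF (FreeGroup.mk (L.drop i))) =
        Multiplicative.toAdd (lvF (FreeGroup.mk [L[i]])) +
          Multiplicative.toAdd (lvF (FreeGroup.mk (L.drop (i + 1)))) := by
    intro i hi
    rw [drop_step hi, map_mul]; rfl
  have hnil : (FreeGroup.mk [] : F2) = 1 := rfl
  constructor
  · intro h
    let f : ℕ → ℕ := fun i =>
      (Multiplicative.toAdd (lvF (FreeGroup.mk (L.drop i))) + (L.length : ℤ)).toNat
    have hb : ∀ i, |Multiplicative.toAdd (lvF (FreeGroup.mk (L.drop i)))| ≤ (L.length : ℤ) := by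
      intro i
      refine (lv_mk_le _).trans ?_
      have := List.length_drop (i := i) (l := L)
      omega
    have hf : ∀ i, ((f i : ℕ) : ℤ) =
        Multiplicative.toAdd (lvF (FreeGroup.mk (L.drop i))) + (L.length : ℤ) := by
      intro i
      have := abs_le.1 (hb i)
      exact Int.toNat_of_nonneg (by linarith)
    obtain ⟨g, hg, hgf⟩ := exists_dg (L.length + 1) (2 * L.length + 1) f (by
      intro i _
      have h1 := hf i
      have h2 := abs_le.1 (hb i)
      omega)
    refine ⟨g, hg, ?_, ?_, ?_⟩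
    · rw [hgf 0 (by omega)]
      have h1 := hf 0
      rw [List.drop_zero, h, toAdd_one, zero_add] at h1
      exact_mod_cast h1
    · rw [hgf L.length (by omega)]
      have h1 := hf L.length
      rw [List.drop_length, hnil, map_one, toAdd_one, zero_add] at h1
      exact_mod_cast h1
    · intro i hi
      rw [hgf i (by omega), hgf (i + 1) (by omega), lc_eq hi]
      have hs := hstep i hi
      have h1 := hf i
      have h2 := hf (i + 1)
      rcases letter_cases L[i] with ⟨hl, hl'⟩ | ⟨hl, hl'⟩ | ⟨hl, hl'⟩ | ⟨hl, hl'⟩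
      · rw [hl']; rw [hl, lvF, homOf_00, ← lvF, toAdd_one] at hs
        refine ⟨fun _ => ?_, by omega, by omega, by omega⟩
        omega
      · rw [hl']; rw [hl, lvF, homOf_01, ← lvF, inv_one, toAdd_one] at hs
        refine ⟨by omega, fun _ => ?_, by omega, by omega⟩
        omega
      · rw [hl']; rw [hl, lvF, homOf_10, ← lvF, toAdd_ofAdd] at hs
        refine ⟨by omega, by omega, fun _ => ?_, by omega⟩
        omega
      · rw [hl']; rw [hl, lvF, homOf_11, ← lvF, toAdd_inv, toAdd_ofAdd] at hs
        refine ⟨by omega, by omega, by omega, fun _ => ?_⟩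
        omega
  · rintro ⟨g, -, h0, h1, hst⟩
    have key : ∀ k ≤ L.length, ((dg (2 * L.length + 1) g (L.length - k) : ℕ) : ℤ) =
        Multiplicative.toAdd (lvF (FreeGroup.mk (L.drop (L.length - k)))) + (L.length : ℤ) := by
      intro k
      induction k with
      | zero =>
        intro _
        rw [Nat.sub_zero, List.drop_length, hnil, map_one, toAdd_one, zero_add, h1]
      | succ k ih =>
        intro hk
        obtain ⟨i, hi⟩ : ∃ i, L.length - (k + 1) = i := ⟨_, rfl⟩
        have hi1 : L.length - k = i + 1 := by omega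
        have hiL : i < L.length := by omega
        have ih' := ih (by omega)
        rw [hi1] at ih'
        rw [hi]
        have hs := hstep i hiL
        obtain ⟨c0, c1, c2, c3⟩ := hst i hiL
        rw [lc_eq hiL] at c0 c1 c2 c3
        rcases letter_cases L[i] with ⟨hl, hl'⟩ | ⟨hl, hl'⟩ | ⟨hl, hl'⟩ | ⟨hl, hl'⟩
        · rw [hl, lvF, homOf_00, ← lvF, toAdd_one] at hs
          have := c0 hl'
          omega
        · rw [hl, lvF, homOf_01, ← lvF, inv_one, toAdd_one] at hs
          have := c1 hl'
          omega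
        · rw [hl, lvF, homOf_10, ← lvF, toAdd_ofAdd] at hs
          have := c2 hl'
          omega
        · rw [hl, lvF, homOf_11, ← lvF, toAdd_inv, toAdd_ofAdd] at hs
          have := c3 hl'
          omega
    have h2 := key L.length le_rfl
    rw [Nat.sub_self, List.drop_zero, h0] at h2
    have h3 : Multiplicative.toAdd (lvF (FreeGroup.mk L)) = 0 := by omega
    exact h3

theorem wp_re (T : Tower) (f : ℕ → SC) (hf : Computable f) (s : ℕ → Stage)
    (e : ∀ i, Fin (f i).m ≃ (s i).Ω) (hc : ∀ i, Coded (f i) (s i) (e i))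
    (hfit : ∀ i, Fits T (s i)) (hn : ∀ N, ∃ i, N ≤ (s i).n) :
    REPred (fun w : List (Fin 2 × Bool) => T.φ (FreeGroup.mk w) = 1) := by
  have hP : PrimrecPred (fun x : List (Fin 2 × Bool) × SC =>
      LvC x.1 ∧ 2 * x.1.length + 1 ≤ x.2.n ∧ ActC x.2 x.1) := by
    refine pp_LvC.and (PrimrecPred.and ?_
      (pp_ActC.comp (Primrec.snd.pair Primrec.fst)))
    simp only [SC.n]
    exact pp_le (prim_add (prim_mul (Primrec.const _) (prim_len Primrec.fst)) (Primrec.const _))
      (prim_fst (prim_snd Primrec.snd))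
  refine (re_of_exists f hf _ hP).of_eq (fun L => ?_)
  rw [word_iff hfit hn L, lv_iff L]
  constructor
  · rintro ⟨i, h1, h2, h3⟩
    refine ⟨h1, i, ?_, (act_iff (hc i) L).2 h3⟩
    rw [(hc i).n_eq]; exact h2
  · rintro ⟨h1, i, h2, h3⟩
    refine ⟨i, h1, ?_, (act_iff (hc i) L).1 h3⟩
    rw [← (hc i).n_eq]; exact h2

end Pool.Agent.H45.Ent
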