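/-
Final assembly.  MP_f39e07_an, owner helper45.
-/
import Pool.Agent.H45.Ent.StepCode
import Pool.Agent.H45.Ent.WPCode
import Pool.Agent.H45.Ent.Rre
import Pool.Agent.H45.Ent.Recode

set_option autoImplicit false

open Filter Topology

namespace Pool.Agent.H45.Ent

theorem main_theorem :
  ∃ (G : Type) (_ : Group G), Infinite G ∧ Group.FG G ∧
    (∀ K : Finset G, ∀ ε : ℝ, 0 < ε → ∃ F : Finset G, F.Nonempty ∧
      ∀ k ∈ K, ((((fun f => k * f) '' (F : Set G)) \ (F : Set G)).ncard : ℝ) < ε * (F.card : ℝ)) ∧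
    (∃ n : ℕ, ∃ φ : FreeGroup (Fin n) →* G, Function.Surjective φ ∧
      REPred (fun w : List (Fin n × Bool) => φ (FreeGroup.mk w) = 1)) ∧
    ∃ E : Set ℝ,
      E = {h : ℝ | ∃ k : ℕ, ∃ D : Finset G, ∃ P : Set (G → Fin k),
        h = entX {x : G → Fin k | ∀ g : G, ∀ p ∈ P, ∃ d ∈ D, x (d * g) ≠ p d}} ∧
      {h : ℝ | ∃ q : ℚ, 0 < q ∧ ∃ l : ℝ, 1 ≤ l ∧ IsIntegral ℤ l ∧
        (∀ z : ℂ, Polynomial.aeval z (minpoly ℤ l) = 0 → z ≠ (l : ℂ) → ‖z‖ < l) ∧
        h = (q : ℝ) * Real.log l} ⊂ E ∧
      E ⊂ {x : ℝ | 0 ≤ x ∧ ∃ a b : ℕ → ℕ, Computable a ∧ Computable b ∧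
        x = ⨅ n : ℕ, (a n : ℝ) / ((b n : ℝ) + 1)} := by
  classical
  -- initial state
  obtain ⟨sI, hsI⟩ := exists_init
  obtain ⟨σI, eI, hstI, hcI⟩ := exists_code sI
  have hinv0 : Inv (σI, 1, 1, 1) := ⟨hstI, (goodC_iff hcI).2 hsI, Nat.one_pos⟩
  obtain ⟨f, hf, hf0, hfi⟩ := exists_computable_seq Chk pp_Chk Inv (σI, 1, 1, 1) hinv0
    (fun x i hx => chk_exists x i hx.1 hx.2.1 hx.2.2) (fun x i y w hx h => inv_of_chk hx h)
  have hInv : ∀ i, Inv (f i) := fun i => (hfi i).1
  choose w hw using fun i => (hfi i).2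
  -- the stages
  choose s e hcod using fun i => exists_coded (hInv i).1
  have hle : ∀ i, (s i).Le (s (i + 1)) := by
    intro i
    obtain ⟨⟨hst0, hst1, hst2, hle0, hle1, hle2, -, -⟩, -⟩ := hw i
    obtain ⟨s₀, e₀, hc0⟩ := exists_coded hst0
    obtain ⟨s₁, e₁, hc1⟩ := exists_coded hst1
    exact ((leC_sound (hcod i) hc0 hle0).trans (leC_sound hc0 hc1 hle1)).trans
      (leC_sound hc1 (hcod (i + 1)) hle2)
  have hgood : ∀ i, (s i).Good := fun i => (goodC_iff (hcod i)).1 (hInv i).2.1
  have hnlt : ∀ i, (s i).n < (s (i + 1)).n := by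
    intro i
    obtain ⟨⟨-, -, -, -, -, -, -, h⟩, -⟩ := hw i
    rw [(hcod i).n_eq, (hcod (i + 1)).n_eq]
    exact h
  have hn : ∀ N, ∃ i, N ≤ (s i).n := by
    intro N
    exact ⟨N, (strictMono_nat_of_lt_succ hnlt).le_apply⟩
  obtain ⟨T, hfit, -, hns⟩ := exists_limit s hle hn
  -- consequences of the steps
  have hstep := fun i => chk_sound (hw i) (hInv i).2.2 (hcod (i + 1)) (hfit (i + 1))
  set cc : ℕ → ℕ := fun i => (f (i + 1)).2.1 with hcc
  set dd : ℕ → ℕ := fun i => (f (i + 1)).2.2.1 with hdd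
  set PP : ℕ → ℕ := fun i => (f i).2.2.2 with hPP
  -- the two descriptions of `E`
  set E : Set ℝ := {h : ℝ | ∃ k : ℕ, ∃ D : Finset T.G, ∃ P : Set (T.G → Fin k),
        h = entX {x : T.G → Fin k | ∀ g : T.G, ∀ p ∈ P, ∃ d ∈ D, x (d * g) ≠ p d}} with hE
  have hE1 : ∀ h ∈ E, ∃ i, h = T.ent (sysOf i) := by
    rintro h ⟨k, D, P, rfl⟩
    obtain ⟨F, hk, hF⟩ := recode T.a T.t T.gen T.isFoelner D P
    obtain ⟨i, hi⟩ := sysOf_surj F hk
    exact ⟨i, by rw [hi, ← hF]; rfl⟩
  have hE2 : ∀ F : Sys, T.ent F ∈ E := by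
    intro F
    obtain ⟨D, P, h⟩ := shift_isSFT T.a T.t F
    exact ⟨F.k, D, P, by rw [h]; rfl⟩
  refine ⟨T.G, T.grp, T.infinite, T.fg, T.isFoelner, ⟨2, T.φ, T.φ_surj, ?_⟩, E, rfl, ?_, ?_⟩
  · -- word problem
    exact wp_re T (fun i => (f i).1) (Computable.fst.comp hf) s e hcod hfit hn
  · -- E_Z ⊂ E
    rw [Set.ssubset_iff_subset_ne]
    have hsub : {h : ℝ | ∃ q : ℚ, 0 < q ∧ ∃ l : ℝ, 1 ≤ l ∧ IsIntegral ℤ l ∧
        (∀ z : ℂ, Polynomial.aeval z (minpoly ℤ l) = 0 → z ≠ (l : ℂ) → ‖z‖ < l) ∧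
        h = (q : ℝ) * Real.log l} ⊆ {h : ℝ | ∃ F : Sys, 0 < F.k ∧ (∀ x y, F.Ra x y) ∧
          h = T.ent F} := by
      rintro h ⟨q, hq, l, hl, hint, hper, rfl⟩
      obtain ⟨k, R, hk, hR⟩ := path_sys q hq l hl hint hper
      refine ⟨⟨k, fun _ _ => True, R⟩, hk, fun _ _ => trivial, ?_⟩
      exact tendsto_nhds_unique hR (tendsto_tonly T ⟨k, fun _ _ => True, R⟩ (fun _ _ => trivial))
    refine ⟨?_, ?_⟩
    · intro h hh
      obtain ⟨F, -, -, rfl⟩ := hsub hh
      exact hE2 F
    · intro heq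
      have h1 : T.ent hc ∈ E := hE2 hc
      rw [← heq] at h1
      obtain ⟨F, hk, hRa, hF⟩ := hsub h1
      obtain ⟨i, hi⟩ := sysOf_surj F hk
      obtain ⟨l, -, -, -, -, h2, -⟩ := hstep (Nat.pair i 0)
      rw [Nat.unpair_pair] at h2
      simp only at h2
      rw [hi] at h2
      exact h2 hRa hF.symm
  · -- E ⊂ RRE
    rw [Set.ssubset_iff_subset_ne]
    refine ⟨?_, ?_⟩
    · intro h hh
      obtain ⟨i, rfl⟩ := hE1 h hh
      refine ⟨entX_nonneg _, ?_⟩
      have key : T.ent (sysOf i) = ⨅ j : ℕ, Real.log (((cc (Nat.pair i j) : ℕ) : ℝ) / (1 : ℕ)) /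
          (dd (Nat.pair i j)) := by
        have hb : ∀ j, T.ent (sysOf i) ≤ Real.log (((cc (Nat.pair i j) : ℕ) : ℝ) / (1 : ℕ)) /
          (dd (Nat.pair i j)) := by
          intro j
          obtain ⟨l, -, h2, -⟩ := hstep (Nat.pair i j)
          rw [Nat.unpair_pair] at h2
          simpa using h2
        apply le_antisymm
        · exact le_ciInf hb
        · apply le_of_forall_pos_le_add
          intro ε hε
          -- choose j large
          have ht : Tendsto (fun m : ℕ => Real.log (((m + 2 : ℕ) : ℝ) / (m + 1 : ℕ))) atTop (𝓝 0) := by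
            have h1 : Tendsto (fun m : ℕ => (((m + 2 : ℕ) : ℝ) / (m + 1 : ℕ))) atTop (𝓝 1) := by
              have h2 : ∀ m : ℕ, (((m + 2 : ℕ) : ℝ) / (m + 1 : ℕ)) = 1 + 1 / ((m : ℝ) + 1) := by
                intro m
                have : (m : ℝ) + 1 ≠ 0 := by positivity
                push_cast
                field_simp
                ring
              simp_rw [h2]
              have := tendsto_one_div_add_atTop_nhds_zero_nat (𝕜 := ℝ)
              simpa using this.const_add 1
            have := h1.log (by norm_num)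
            simpa using this
          obtain ⟨N, hN⟩ := (ht.eventually (gt_mem_nhds hε)).exists_forall_of_atTop
          have hpair : N ≤ Nat.pair i N := Nat.right_le_pair i N
          obtain ⟨l, h1, h2, h3, -⟩ := hstep (Nat.pair i N)
          have h4 := hN (Nat.pair i N) hpair
          refine le_trans (ciInf_le ⟨0, ?_⟩ N) ?_
          · rintro _ ⟨j, rfl⟩
            exact (entX_nonneg _).trans (hb j)
          · rw [Nat.unpair_pair] at h1
            simp only at h1
            have h5 : Real.log (((cc (Nat.pair i N) : ℕ) : ℝ) / (1 : ℕ)) / (dd (Nat.pair i N)) =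
              Real.log (f (Nat.pair i N + 1)).2.1 / (f (Nat.pair i N + 1)).2.2.1 := by
              simp [hcc, hdd]
            rw [h5]
            linarith
      rw [key]
      have hpr : Computable (fun j : ℕ => Nat.pair i j + 1) :=
        Computable.succ.comp ((Primrec₂.natPair.comp (Primrec.const i) Primrec.id).to_comp)
      have hA : Computable (fun j : ℕ => cc (Nat.pair i j)) :=
        Computable.fst.comp (Computable.snd.comp (hf.comp hpr))
      have hd : Computable (fun j : ℕ => dd (Nat.pair i j)) :=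
        Computable.fst.comp (Computable.snd.comp (Computable.snd.comp (hf.comp hpr)))
      exact rre_of_log _ (fun _ => 1) _ hA (Computable.const 1) hd (fun _ => Nat.one_pos)
        (fun j => (hstep (Nat.pair i j)).choose_spec.2.2.2.2.2.1)
        (fun j => (hstep (Nat.pair i j)).choose_spec.2.2.2.2.2.2)
    · -- α
      intro heq
      -- digits: P_{i+1} = 4 P_i or 4 P_i + 3
      have hdig : ∀ i, PP (i + 1) = 4 * PP i ∨ PP (i + 1) = 4 * PP i + 3 := fun i =>
        (hw i).2.2.1.1
      have hP0 : PP 0 = 1 := by simp [hPP, hf0]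
      have hPpos : ∀ i, 0 < PP i := fun i => (hInv i).2.2
      set α : ℝ := ⨅ i : ℕ, Real.log (((PP i + 1 : ℕ) : ℝ) / (4 ^ i : ℕ)) / (1 : ℕ) with hα
      have hlow : ∀ i j, (PP i : ℝ) / 4 ^ i ≤ (PP (i + j) : ℝ) / 4 ^ (i + j) := by
        intro i j
        induction j with
        | zero => simp
        | succ j ih =>
          refine ih.trans ?_
          rw [← add_assoc, pow_succ, div_le_div_iff₀ (by positivity) (by positivity)]
          have : (4 : ℝ) * PP (i + j) ≤ PP (i + j + 1) := by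
            have : 4 * PP (i + j) ≤ PP (i + j + 1) := by
              rcases hdig (i + j) with h | h <;> omega
            exact_mod_cast this
          have h4 : (0 : ℝ) < 4 ^ (i + j) := by positivity
          nlinarith
      have hupp : ∀ i j, ((PP (i + j) : ℝ) + 1) / 4 ^ (i + j) ≤ ((PP i : ℝ) + 1) / 4 ^ i := by
        intro i j
        induction j with
        | zero => simp
        | succ j ih =>
          refine le_trans ?_ ih
          rw [← add_assoc, pow_succ, div_le_div_iff₀ (by positivity) (by positivity)]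
          have : ((PP (i + j + 1) : ℝ) + 1) ≤ 4 * ((PP (i + j) : ℝ) + 1) := by
            have : PP (i + j + 1) + 1 ≤ 4 * (PP (i + j) + 1) := by
              rcases hdig (i + j) with h | h <;> omega
            exact_mod_cast this
          have h4 : (0 : ℝ) < 4 ^ (i + j) := by positivity
          nlinarith
      have hcross : ∀ i j, (PP i : ℝ) / 4 ^ i ≤ ((PP j : ℝ) + 1) / 4 ^ j := by
        intro i j
        have h1 := hlow i j
        have h2 := hupp j i
        rw [add_comm j i] at h2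
        refine h1.trans (le_trans ?_ h2)
        gcongr
        linarith
      have hterm : ∀ i : ℕ, Real.log (((PP i + 1 : ℕ) : ℝ) / (4 ^ i : ℕ)) / (1 : ℕ) =
          Real.log (((PP i : ℝ) + 1) / 4 ^ i) := by
        intro i; push_cast; rw [div_one]
      have hαlow : ∀ i, Real.log ((PP i : ℝ) / 4 ^ i) ≤ α := by
        intro i
        apply le_ciInf
        intro j
        rw [hterm]
        have : (0 : ℝ) < PP i := by exact_mod_cast hPpos i
        exact Real.log_le_log (by positivity) (hcross i j)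
      have hbdd : BddBelow (Set.range (fun i : ℕ =>
          Real.log (((PP i + 1 : ℕ) : ℝ) / (4 ^ i : ℕ)) / (1 : ℕ))) := by
        refine ⟨Real.log ((PP 0 : ℝ) / 4 ^ 0), ?_⟩
        rintro _ ⟨j, rfl⟩
        simp only
        rw [hterm]
        have : (0 : ℝ) < PP 0 := by exact_mod_cast hPpos 0
        exact Real.log_le_log (by positivity) (hcross 0 j)
      have hαupp : ∀ i, α ≤ Real.log (((PP i : ℝ) + 1) / 4 ^ i) := by
        intro i
        rw [← hterm]
        exact ciInf_le hbdd i
      have hα0 : 0 ≤ α := by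
        have := hαlow 0
        rw [hP0] at this
        simpa using this
      have hαE : α ∈ E := by
        rw [heq]
        refine ⟨hα0, ?_⟩
        have hPc : Computable PP := Computable.snd.comp (Computable.snd.comp (Computable.snd.comp hf))
        refine rre_of_log (fun i => PP i + 1) (fun i => 4 ^ i) (fun _ => 1)
          (Computable.succ.comp hPc) ?_ (Computable.const 1) (fun i => by positivity) ?_
          (fun _ => Nat.one_pos)
        · exact (prim_pow (Primrec.const 4) Primrec.id).to_comp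
        · intro i
          -- 4^i ≤ PP i + 1
          have h1 := hlow 0 i
          rw [hP0, zero_add] at h1
          simp only [Nat.cast_one, pow_zero, div_one] at h1
          rw [le_div_iff₀ (by positivity), one_mul] at h1
          have h2 : 4 ^ i ≤ PP i := by exact_mod_cast h1
          omega
      obtain ⟨i, hi⟩ := hE1 α hαE
      obtain ⟨l, h1, h2, -, h4, -⟩ := hstep (Nat.pair i 0)
      rw [Nat.unpair_pair] at h1 h2
      simp only at h1 h2
      rw [← hi] at h1 h2
      have h5 := hαlow (Nat.pair i 0 + 1)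
      have h6 := hαupp (Nat.pair i 0 + 1)
      rcases h4 with h | h
      · exact absurd (lt_of_lt_of_le h h1) (not_lt.2 h6)
      · exact absurd (lt_of_le_of_lt h2 h) (not_lt.2 h5)

end Pool.Agent.H45.Ent
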