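/-
Rational approximation of real solutions of a rational linear system.
MP_f39e07_an, owner helper45.

PROOF.  Let `V` be the ℚ-span of the finitely many reals `π i`; choose a ℚ-basis `c_1..c_r` of `V`
(a finite-dimensional ℚ-subspace of ℝ), so `π i = Σ_b c_b v b i` with `v b i ∈ ℚ`.  Each equation
`Σ_i a e i π i = 0` with integer coefficients gives `Σ_b c_b (Σ_i a e i v b i) = 0`, hence
`Σ_i a e i v b i = 0` for every `b` by linear independence.  Also `π i = 0` gives `v b i = 0` for
all `b`.  Now replace the reals `c_b` by rationals `c'_b` very close to them: `π' i = Σ_b c'_b v b i`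
solves the equations exactly, `π' i = 0` where `π i = 0`, `π' i > 0` where `π i > 0`, and
`Σ π'`, `Σ L π'` are close to `1`, `Σ L π`.  Multiply by a common denominator.
-/
import Mathlib

set_option autoImplicit false

namespace Pool.Agent.H45.Ent

section RationalAux

open scoped BigOperators

/-- real numbers written in a `ℚ`-basis -/
private lemma exists_rational_coordinates {I : Type*} [Fintype I] (π : I → ℝ) :
    ∃ (r : ℕ) (c : Fin r → ℝ) (v : Fin r → I → ℚ),
      (∀ i, π i = ∑ b, c b * (v b i : ℝ)) ∧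
      ∀ w : I → ℚ, ∑ i, (w i : ℝ) * π i = 0 → ∀ b, ∑ i, w i * v b i = 0 := by
  classical
  let V : Submodule ℚ ℝ := Submodule.span ℚ (Set.range π)
  have : FiniteDimensional ℚ V := FiniteDimensional.span_of_finite ℚ (Set.finite_range π)
  let B := Module.finBasis ℚ V
  have hmem : ∀ i, π i ∈ V := fun i => Submodule.subset_span ⟨i, rfl⟩
  refine ⟨Module.finrank ℚ V, fun b => (B b : ℝ), fun b i => B.repr ⟨π i, hmem i⟩ b, ?_, ?_⟩
  · intro i
    have h := B.sum_repr ⟨π i, hmem i⟩
    have h2 := congrArg (fun x : V => (x : ℝ)) h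
    simp only [Submodule.coe_sum, Submodule.coe_smul] at h2
    rw [← h2]
    refine Finset.sum_congr rfl fun b _ => ?_
    rw [Rat.smul_def, mul_comm]
  · intro w hw b
    have h0 : ∑ i, w i • (⟨π i, hmem i⟩ : V) = 0 := by
      apply Subtype.ext
      simp only [Submodule.coe_sum, Submodule.coe_smul, Submodule.coe_zero]
      rw [← hw]
      refine Finset.sum_congr rfl fun i _ => ?_
      rw [Rat.smul_def]
    have h1 := congrArg (fun x => B.repr x b) h0
    simp only [map_sum, map_smul, map_zero, Finsupp.coe_zero, Pi.zero_apply] at h1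
    rw [← h1, Finsupp.finsetSum_apply]
    refine Finset.sum_congr rfl fun i _ => ?_
    simp

/-- clearing denominators -/
private lemma exists_nat_multiple {I : Type*} [Fintype I] (p : I → ℚ) (hp : ∀ i, 0 ≤ p i) :
    ∃ (N : ℕ) (q : I → ℕ), 0 < N ∧ ∀ i, (q i : ℚ) = N * p i := by
  classical
  refine ⟨∏ i, (p i).den, fun i => (p i).num.toNat * ∏ j ∈ Finset.univ.erase i, (p j).den, ?_, ?_⟩
  · exact Finset.prod_pos fun i _ => (p i).den_pos
  · intro i
    have h1 : (((p i).num.toNat : ℕ) : ℚ) = ((p i).num : ℚ) := by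
      have : (((p i).num.toNat : ℕ) : ℤ) = (p i).num := Int.toNat_of_nonneg (Rat.num_nonneg.2 (hp i))
      exact_mod_cast this
    have h2 : (p i).den * ∏ j ∈ Finset.univ.erase i, (p j).den = ∏ j, (p j).den :=
      Finset.mul_prod_erase Finset.univ (fun j => (p j).den) (Finset.mem_univ i)
    rw [← h2]
    push_cast
    rw [h1]
    have h3 : p i * ((p i).den : ℚ) = (p i).num := Rat.mul_den_eq_num (p i)
    rw [← h3]
    ring

end RationalAux

theorem exists_nat_solution {I E : Type*} [Fintype I] [Fintype E] (a : E → I → ℤ) (π : I → ℝ)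
    (hπ : ∀ i, 0 ≤ π i) (hsum : ∑ i, π i = 1) (heq : ∀ e, ∑ i, (a e i : ℝ) * π i = 0)
    (L : I → ℝ) (ε : ℝ) (hε : 0 < ε) :
    ∃ q : I → ℕ, 0 < ∑ i, q i ∧ (∀ i, π i = 0 → q i = 0) ∧
      (∀ e, ∑ i, a e i * (q i : ℤ) = 0) ∧
      (∑ i, L i * π i - ε) * (∑ i, (q i : ℝ)) ≤ ∑ i, L i * (q i : ℝ) := by
  classical
  obtain ⟨r, c, v, hc, hrel⟩ := exists_rational_coordinates π
  -- relations
  have hv0 : ∀ i, π i = 0 → ∀ b, v b i = 0 := by
    intro i hi b
    have h0 : ∑ j, (((if j = i then 1 else 0 : ℚ)) : ℝ) * π j = 0 := by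
      refine Finset.sum_eq_zero fun j _ => ?_
      by_cases hj : j = i
      · rw [hj, hi, mul_zero]
      · rw [if_neg hj]; simp
    have h := hrel (fun j => if j = i then 1 else 0) h0 b
    simpa using h
  have hva : ∀ e b, ∑ i, (a e i : ℚ) * v b i = 0 := by
    intro e b
    refine hrel (fun i => (a e i : ℚ)) ?_ b
    rw [← heq e]
    refine Finset.sum_congr rfl fun i _ => ?_
    push_cast
    rfl
  -- the perturbed vector
  let F : (Fin r → ℝ) → I → ℝ := fun t i => ∑ b, t b * (v b i : ℝ)
  have hFc : ∀ i, Continuous fun t => F t i := fun i => by fun_prop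
  have hFcc : F c = π := by funext i; exact (hc i).symm
  let U : Set (Fin r → ℝ) := {t | (∀ i, π i ≠ 0 → 0 < F t i) ∧
    (∑ i, L i * π i - ε) * (∑ i, F t i) < ∑ i, L i * F t i}
  have hU : IsOpen U := by
    have h1 : IsOpen {t : Fin r → ℝ | ∀ i, π i ≠ 0 → 0 < F t i} := by
      have : {t : Fin r → ℝ | ∀ i, π i ≠ 0 → 0 < F t i} =
          ⋂ i, {t | π i ≠ 0 → 0 < F t i} := by
        ext t; simp
      rw [this]
      refine isOpen_iInter_of_finite fun i => ?_
      by_cases hi : π i = 0
      · have : {t : Fin r → ℝ | π i ≠ 0 → 0 < F t i} = Set.univ := by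
          ext t; simp [hi]
        rw [this]; exact isOpen_univ
      · have : {t : Fin r → ℝ | π i ≠ 0 → 0 < F t i} = {t | 0 < F t i} := by
          ext t; simp [hi]
        rw [this]
        exact isOpen_lt continuous_const (hFc i)
    have h2 : IsOpen {t : Fin r → ℝ |
        (∑ i, L i * π i - ε) * (∑ i, F t i) < ∑ i, L i * F t i} := by
      refine isOpen_lt ?_ ?_
      · exact continuous_const.mul (continuous_finsetSum _ fun i _ => hFc i)
      · exact continuous_finsetSum _ fun i _ => continuous_const.mul (hFc i)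
    exact h1.inter h2
  have hcU : c ∈ U := by
    refine ⟨fun i hi => ?_, ?_⟩
    · rw [hFcc]; exact lt_of_le_of_ne (hπ i) (Ne.symm hi)
    · rw [hFcc, hsum]; linarith
  have hd : DenseRange (Pi.map (fun (_ : Fin r) (q : ℚ) => (q : ℝ))) :=
    DenseRange.piMap fun _ => Rat.denseRange_cast
  obtain ⟨s, hs⟩ := hd.exists_mem_open hU ⟨c, hcU⟩
  -- the rational solution
  let p : I → ℚ := fun i => ∑ b, s b * v b i
  have hpF : ∀ i, F (Pi.map (fun (_ : Fin r) (q : ℚ) => (q : ℝ)) s) i = (p i : ℝ) := by
    intro i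
    simp only [F, p, Pi.map_apply]
    push_cast
    rfl
  have hp0 : ∀ i, π i = 0 → p i = 0 := by
    intro i hi
    simp only [p]
    exact Finset.sum_eq_zero fun b _ => by rw [hv0 i hi b, mul_zero]
  have hppos : ∀ i, π i ≠ 0 → 0 < p i := by
    intro i hi
    have := hs.1 i hi
    rw [hpF] at this
    exact_mod_cast this
  have hpnn : ∀ i, 0 ≤ p i := by
    intro i
    by_cases hi : π i = 0
    · rw [hp0 i hi]
    · exact (hppos i hi).le
  have hpa : ∀ e, ∑ i, (a e i : ℚ) * p i = 0 := by
    intro e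
    simp only [p, Finset.mul_sum]
    rw [Finset.sum_comm]
    refine Finset.sum_eq_zero fun b _ => ?_
    have : ∀ i, (a e i : ℚ) * (s b * v b i) = s b * ((a e i : ℚ) * v b i) := fun i => by ring
    simp only [this]
    rw [← Finset.mul_sum, hva, mul_zero]
  obtain ⟨N, q, hN, hq⟩ := exists_nat_multiple p hpnn
  have hqR : ∀ i, (q i : ℝ) = N * (p i : ℝ) := by
    intro i
    have := hq i
    exact_mod_cast this
  refine ⟨q, ?_, ?_, ?_, ?_⟩
  · -- positivity
    have hex : ∃ i, π i ≠ 0 := by
      by_contra hcon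
      push Not at hcon
      rw [Finset.sum_eq_zero (fun i _ => hcon i)] at hsum
      norm_num at hsum
    obtain ⟨i, hi⟩ := hex
    have h1 : (0 : ℚ) < q i := by
      rw [hq i]
      have := hppos i hi
      positivity
    have h2 : 0 < q i := by exact_mod_cast h1
    exact lt_of_lt_of_le h2 (Finset.single_le_sum (fun _ _ => Nat.zero_le _) (Finset.mem_univ i))
  · intro i hi
    have := hq i
    rw [hp0 i hi, mul_zero] at this
    exact_mod_cast this
  · intro e
    have h1 : (∑ i, (a e i : ℚ) * (q i : ℚ)) = 0 := by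
      have : ∀ i, (a e i : ℚ) * (q i : ℚ) = N * ((a e i : ℚ) * p i) := fun i => by
        rw [hq i]; ring
      simp only [this]
      rw [← Finset.mul_sum, hpa, mul_zero]
    exact_mod_cast h1
  · have h := hs.2
    simp only [hpF] at h
    have hN' : (0 : ℝ) < N := by exact_mod_cast hN
    have e1 : ∑ i, (q i : ℝ) = N * ∑ i, (p i : ℝ) := by
      rw [Finset.mul_sum]
      exact Finset.sum_congr rfl fun i _ => hqR i
    have e2 : ∑ i, L i * (q i : ℝ) = N * ∑ i, L i * (p i : ℝ) := by
      rw [Finset.mul_sum]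
      exact Finset.sum_congr rfl fun i _ => by rw [hqR i]; ring
    rw [e1, e2]
    nlinarith

end Pool.Agent.H45.Ent
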